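import Pool.Agent.CSM.GI

/-!
(F6) The reflected inversion (`GI.lean` has `norm_inv' n v`, `inv_inv' n v`, `invO n`, `pd_invO n`).
-/

open scoped Manifold ContDiff Topology
open Set

namespace Pool.Agent.CSM

/-- (F6) The reflected inversion. -/
theorem exists_invH {n : ℕ} (_hn : 1 ≤ n) :
    ∃ k : OPH (E n) (E n), PD n k ∧ k.source = {0}ᶜ ∧ k.target = {0}ᶜ ∧ ∀ v, v ≠ 0 → k v = inv n v :=
  ⟨invO n, pd_invO n, rfl, rfl, fun _ _ => rfl⟩

end Pool.Agent.CSM
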