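import Pool.Agent.CSM.FD
import Pool.Agent.CSM.Inv

/-!
Adaptors.
-/

open scoped Manifold ContDiff Topology
open Set

namespace Pool.Agent.CSM

theorem exists_twist {m : ℕ} (τ : Twist m) :
    ∃ h : T m ≃ₜ T m, (∀ p, h p = τ.map p) ∧ PD (m + 1) h.toOpenPartialHomeomorph := by
  obtain ⟨D, h1, h2⟩ := τ.exists_homeo
  exact ⟨D, h2, h1⟩

theorem emb_mkT (m : ℕ) : Emb (m + 1) (fun θ : ℝ => (mkT θ 0 : T m)) := by
  refine ⟨fun t => ?_, fun t => ?_, fun s t h => ?_⟩
  · refine Prod.ext ?_ rfl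
    exact AddCircle.coe_add_period 1 t
  · have hline : RegAt (m + 1) (fun θ : ℝ => consL m (θ, 0)) t := by
      have hd : ∀ s : ℝ, HasDerivAt (fun θ : ℝ => consL m (θ, 0)) (consL m (1, 0)) s := by
        intro s
        have h1 : HasDerivAt (fun θ : ℝ => ((θ, (0 : E m)) : ℝ × E m)) ((1, 0) : ℝ × E m) s :=
          (hasDerivAt_id s).prodMk (hasDerivAt_const s (0 : E m))
        exact ((consL m : (ℝ × E m) →L[ℝ] E (m + 1)).hasFDerivAt.comp_hasDerivAt s h1)
      have hs : ContDiff ℝ ∞ (fun θ : ℝ => consL m (θ, 0)) :=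
        (consL m : (ℝ × E m) →L[ℝ] E (m + 1)).contDiff.comp (contDiff_id.prodMk contDiff_const)
      refine ⟨hs.continuous.continuousAt, fun e he _ => ?_⟩
      rw [chartedSpaceSelf_atlas] at he
      subst he
      refine ⟨hs.contDiffAt, ?_⟩
      have h2 : deriv ((OpenPartialHomeomorph.refl (E (m + 1))) ∘ fun θ : ℝ => consL m (θ, 0)) t = consL m (1, 0) :=
        (hd t).deriv
      rw [h2]
      intro h3
      have h4 := congrArg (fun v : E (m + 1) => v 0) h3
      simp at h4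
    have h5 := RegAt.comp (pdAt_piT m (consL m (t, 0))) hline
    have h6 : (piT m ∘ fun θ : ℝ => consL m (θ, 0)) = fun θ : ℝ => (mkT θ 0 : T m) := by
      funext θ
      exact piT_consL m θ 0
    rwa [h6] at h5
  · have h1 : (s : AddCircle (1 : ℝ)) = (t : AddCircle (1 : ℝ)) := congrArg Prod.fst h
    rw [eq_comm, ← sub_eq_zero, ← AddCircle.coe_sub, AddCircle.coe_eq_zero_iff] at h1
    obtain ⟨k, hk⟩ := h1
    refine ⟨k, ?_⟩
    have : (k : ℝ) = t - s := by simpa using hk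
    linarith

/-- The core of a tube is an embedded circle. -/
theorem emb_core {m : ℕ} {X : Type*} [TopologicalSpace X] [ChartedSpace (E (m + 1)) X] {e : OPH (T m) X}
    (he : PD (m + 1) e) (hs : ∀ θ : ℝ, mkT θ 0 ∈ e.source) : Emb (m + 1) (fun θ : ℝ => e (mkT θ 0)) :=
  (emb_mkT m).comp he hs

end Pool.Agent.CSM
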