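import Pool.Agent.CSM.Core2

/-!
# CSM, chunk (B), module BDim: avoiding images of lower dimensional sets

Proof.  For every `k` the function `f k` is `C^1` on the open set `U k`, hence locally Lipschitz
(`ContDiffAt.exists_lipschitzOnWith`), so `dimH (f k '' U k) ≤ dimH (U k) ≤ finrank ℝ Z < n`
(`dimH_image_le_of_locally_lipschitzOn`, `dimH_mono`, `Real.dimH_univ_eq_finrank`).  The union over the countable
index type has `dimH ≤ finrank ℝ Z < n = finrank ℝ (E n)` (`dimH_iUnion`, `iSup_le`), so its complement is dense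
(`dense_compl_of_dimH_lt_finrank`); a dense set meets the ball of radius `ε` around `0`.
-/

open scoped Manifold ContDiff Topology
open Set

namespace Pool.Agent.CSM

theorem exists_small_avoid {n : ℕ} {Z : Type*} [NormedAddCommGroup Z] [NormedSpace ℝ Z] [FiniteDimensional ℝ Z]
    (hn : Module.finrank ℝ Z < n) {ι : Type*} [Countable ι] (f : ι → Z → E n) (U : ι → Set Z)
    (hU : ∀ k, IsOpen (U k)) (hf : ∀ k, ContDiffOn ℝ 1 (f k) (U k)) {ε : ℝ} (hε : 0 < ε) :
    ∃ a : E n, ‖a‖ < ε ∧ ∀ k, ∀ z ∈ U k, f k z ≠ a := by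
  have h1 : ∀ k, dimH (f k '' U k) ≤ (Module.finrank ℝ Z : ENNReal) := by
    intro k
    refine (dimH_image_le_of_locally_lipschitzOn fun z hz => ?_).trans
      ((dimH_mono (subset_univ _)).trans (Real.dimH_univ_eq_finrank Z).le)
    have hc : ContDiffAt ℝ 1 (f k) z := (hf k z hz).contDiffAt ((hU k).mem_nhds hz)
    obtain ⟨C, t, ht, hC⟩ := hc.exists_lipschitzOnWith
    exact ⟨C, t, mem_nhdsWithin_of_mem_nhds ht, hC⟩
  have h2 : dimH (⋃ k, f k '' U k) < (Module.finrank ℝ (E n) : ENNReal) := by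
    rw [dimH_iUnion]
    refine (iSup_le h1).trans_lt ?_
    rw [finrank_euclideanSpace_fin]
    exact_mod_cast hn
  have h3 : Dense (⋃ k, f k '' U k)ᶜ := dense_compl_of_dimH_lt_finrank h2
  obtain ⟨a, ha, ha'⟩ := h3.exists_mem_open Metric.isOpen_ball ⟨(0 : E n), Metric.mem_ball_self hε⟩
  refine ⟨a, by simpa using ha', fun k z hz h => ha (mem_iUnion.2 ⟨k, z, hz, h⟩)⟩

end Pool.Agent.CSM
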