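import Pool.Agent.CSM.BMdf
import Pool.Agent.CSM.BDim

/-!
# CSM, chunk (B), module BPrt: one general position step

`H' = mdf e H (fun p => φ p • a)` with a generic small vector `a`.

Proof.  `S = tsupport φ`.  Add `({p | p.1 = s₀}, O)` to `𝒞`, `exists_eps` gives `ε`.  `|φ| ≤ B` (`φ` is continuous and
periodic, `S` is bounded in `s`: `isCompact_window`; choose `B ≥ 1`).  Choose `a` with `‖a‖ < ε / B` by
`exists_small_avoid` (`Z = ℝ × ℝ × ℝ`, finrank `3 < n`) avoiding the images of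
 (1) `(s, t, t') ↦ (φ (s,t) - φ (s,t'))⁻¹ • (e (H (s,t')) - e (H (s,t)))` on the open set where `H (s,t), H (s,t') ∈ e.source`
     and `φ (s,t) ≠ φ (s,t')`;
 (2) `(s, t, _) ↦ - (deriv (φ (s, ·)) t)⁻¹ • deriv (fun τ => e (H (s, τ))) t` on the open set where `H (s,t) ∈ e.source` and
     `deriv (φ (s, ·)) t ≠ 0`; here the derivative in `t` is `fderiv ℝ (·) (s, t) (0, 1)`, which is smooth
     (`ContDiffAt.fderiv_right`, `ContDiffAt.clm_apply`);
 (3) for every `k`: `(s, t, r) ↦ (φ (s,t))⁻¹ • (e (κ k r) - e (H (s,t)))` on the open set where `H (s,t), κ k r ∈ e.source`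
     and `φ (s,t) ≠ 0`, where `κ` comes from `Thin n L`.
`v p = φ p • a`, `‖τ • v p‖ < ε` for `τ ∈ [0, 1]`.  `H' = mdf e H v`: smooth by `smP_mdf` (`p ∈ S`) resp.
`mdf_eventuallyEq` (`p ∉ S`), periodic, `Ctr`, `FreeHtpy` as in `BStp`.
* Double points: let `H' (s,t) = H' (s,t')`.  If `φ (s,t) = φ (s,t') = 0`: `mdf_zero` twice.  Otherwise one of them, say
  `φ (s,t) ≠ 0`; then `(s,t) ∈ S`, `H' (s,t) ∈ e.source`, so `H' (s,t') ∈ e.source`, so `H (s,t') ∈ e.source` (if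
  `φ (s,t') = 0` then `H' (s,t') = H (s,t')`, otherwise `(s,t') ∈ S`), and `e (H (s,t)) + φ (s,t) • a =
  e (H (s,t')) + φ (s,t') • a`.  If `φ (s,t) ≠ φ (s,t')` this contradicts (1).  If equal: `e (H (s,t)) = e (H (s,t'))`,
  `e.injOn`.
* Regular points: `p = (s,t) ∉ S`: `H' = H` near `p` and `φ = 0` near `p` (so the derivative of `φ` is `0` and the first
  alternative holds): `RegAt.congr` for the slices.  `p ∈ S`: `H' ` near `t` in the chart is `e (H (s,τ)) + φ (s,τ) • a`,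
  derivative `deriv (e ∘ H (s,·)) t + deriv (φ (s,·)) t • a`, which is `≠ 0` by (2) if `deriv (φ (s,·)) t ≠ 0`, and by
  `RegAt` (`regAt_iff he`) otherwise; `regAt_iff` again.
* Hits: `H' p ∈ L`.  If `φ p = 0` then `H' p = H p`.  If `φ p ≠ 0`: `p ∈ S`, `H' p = κ k r` for some `k, r`,
  `H' p ∈ e.source`, `e (H p) + φ p • a = e (κ k r)`, contradiction to (3).
-/

open scoped Manifold ContDiff Topology
open Set

namespace Pool.Agent.CSM

section

variable {n : ℕ} {X : Type*} [TopologicalSpace X] [ChartedSpace (E n) X] [HasGroupoid X (orG n)]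

omit [HasGroupoid X (orG n)] in
private theorem deriv_slice {V : Type*} [NormedAddCommGroup V] [NormedSpace ℝ V] {f : ℝ × ℝ → V} {s t : ℝ}
    (hf : DifferentiableAt ℝ f (s, t)) : HasDerivAt (fun τ => f (s, τ)) (fderiv ℝ f (s, t) (0, 1)) t := by
  have h1 : HasDerivAt (fun τ : ℝ => ((s, τ) : ℝ × ℝ)) (0, 1) t := (hasDerivAt_const t s).prodMk (hasDerivAt_id t)
  exact hf.hasFDerivAt.comp_hasDerivAt t h1

private theorem comp_at {Z Z' V : Type*} [NormedAddCommGroup Z] [NormedSpace ℝ Z] [NormedAddCommGroup Z']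
    [NormedSpace ℝ Z'] [NormedAddCommGroup V] [NormedSpace ℝ V] (f : Z' → V) (g : Z → Z') (z : Z)
    (h : ContDiffAt ℝ ∞ f (g z)) (hg : ContDiffAt ℝ ∞ g z) : ContDiffAt ℝ ∞ (fun y => f (g y)) z :=
  ContDiffAt.comp z h hg

/-- The generic vector. -/
theorem exists_generic (hn : 4 ≤ n) {e : OPH X (E n)} (he : e ∈ atlas (E n) X) {H : ℝ × ℝ → X}
    (hH : ∀ p, SmP n H p) {φ : ℝ × ℝ → ℝ} (hφ : ContDiff ℝ ∞ φ) {L : Set X} (hL : Thin n L) {ε : ℝ} (hε : 0 < ε) :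
    ∃ a : E n, ‖a‖ < ε ∧
      (∀ s t t', H (s, t) ∈ e.source → H (s, t') ∈ e.source → φ (s, t) ≠ φ (s, t') →
        e (H (s, t)) + φ (s, t) • a ≠ e (H (s, t')) + φ (s, t') • a) ∧
      (∀ s t, H (s, t) ∈ e.source → deriv (fun τ => φ (s, τ)) t ≠ 0 →
        deriv (fun τ => e (H (s, τ))) t + deriv (fun τ => φ (s, τ)) t • a ≠ 0) ∧
      ∀ p, H p ∈ e.source → φ p ≠ 0 → ∀ x ∈ L, x ∈ e.source → e (H p) + φ p • a ≠ e x := by
  obtain ⟨κ, hκ, hLκ⟩ := hL
  have hHc : Continuous H := SmP.continuous hH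
  have hκc : ∀ k, Continuous (κ k) := fun k => continuous_iff_continuousAt.2 fun t => (hκ k t).1
  set f : Option (Option ℕ) → ℝ × ℝ × ℝ → E n := fun o z => match o with
    | none => (φ (z.1, z.2.1) - φ (z.1, z.2.2))⁻¹ • (e (H (z.1, z.2.2)) - e (H (z.1, z.2.1)))
    | some none => (fderiv ℝ φ (z.1, z.2.1) (0, 1))⁻¹ • -(fderiv ℝ (e ∘ H) (z.1, z.2.1) (0, 1))
    | some (some k) => (φ (z.1, z.2.1))⁻¹ • (e (κ k z.2.2) - e (H (z.1, z.2.1))) with hf
  set U : Option (Option ℕ) → Set (ℝ × ℝ × ℝ) := fun o => match o with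
    | none => {z | (H (z.1, z.2.1) ∈ e.source ∧ H (z.1, z.2.2) ∈ e.source) ∧ φ (z.1, z.2.1) - φ (z.1, z.2.2) ≠ 0}
    | some none => {z | H (z.1, z.2.1) ∈ e.source ∧ fderiv ℝ φ (z.1, z.2.1) (0, 1) ≠ 0}
    | some (some k) => {z | (H (z.1, z.2.1) ∈ e.source ∧ κ k z.2.2 ∈ e.source) ∧ φ (z.1, z.2.1) ≠ 0} with hU
  have c1 : Continuous fun z : ℝ × ℝ × ℝ => H (z.1, z.2.1) := hHc.comp (by fun_prop)
  have c2 : Continuous fun z : ℝ × ℝ × ℝ => H (z.1, z.2.2) := hHc.comp (by fun_prop)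
  have c3 : Continuous fun z : ℝ × ℝ × ℝ => φ (z.1, z.2.1) := hφ.continuous.comp (by fun_prop)
  have c4 : Continuous fun z : ℝ × ℝ × ℝ => φ (z.1, z.2.2) := hφ.continuous.comp (by fun_prop)
  have hdφ : ContDiff ℝ ∞ fun p : ℝ × ℝ => fderiv ℝ φ p (0, 1) :=
    (hφ.fderiv_right (m := ∞) (by simp)).clm_apply contDiff_const
  have c5 : Continuous fun z : ℝ × ℝ × ℝ => fderiv ℝ φ (z.1, z.2.1) (0, 1) := hdφ.continuous.comp (by fun_prop)
  have hUo : ∀ o, IsOpen (U o) := by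
    intro o
    match o with
    | none =>
      exact ((e.open_source.preimage c1).inter (e.open_source.preimage c2)).inter
        (isOpen_ne.preimage (c3.sub c4))
    | some none => exact (e.open_source.preimage c1).inter (isOpen_ne.preimage c5)
    | some (some k) =>
      exact ((e.open_source.preimage c1).inter (e.open_source.preimage ((hκc k).comp (by fun_prop)))).inter
        (isOpen_ne.preimage c3)
  -- smoothness of the pieces
  have s1 : ∀ z : ℝ × ℝ × ℝ, H (z.1, z.2.1) ∈ e.source → ContDiffAt ℝ ∞ (fun z : ℝ × ℝ × ℝ => e (H (z.1, z.2.1))) z := by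
    intro z hz
    exact comp_at (e ∘ H) (fun z : ℝ × ℝ × ℝ => ((z.1, z.2.1) : ℝ × ℝ)) z ((hH _).2 e he hz) (by fun_prop)
  have s2 : ∀ z : ℝ × ℝ × ℝ, H (z.1, z.2.2) ∈ e.source → ContDiffAt ℝ ∞ (fun z : ℝ × ℝ × ℝ => e (H (z.1, z.2.2))) z := by
    intro z hz
    exact comp_at (e ∘ H) (fun z : ℝ × ℝ × ℝ => ((z.1, z.2.2) : ℝ × ℝ)) z ((hH _).2 e he hz) (by fun_prop)
  have s3 : ContDiff ℝ ∞ fun z : ℝ × ℝ × ℝ => φ (z.1, z.2.1) := hφ.comp (by fun_prop)
  have s4 : ContDiff ℝ ∞ fun z : ℝ × ℝ × ℝ => φ (z.1, z.2.2) := hφ.comp (by fun_prop)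
  have s5 : ContDiff ℝ ∞ fun z : ℝ × ℝ × ℝ => fderiv ℝ φ (z.1, z.2.1) (0, 1) :=
    hdφ.comp (g := fun p : ℝ × ℝ => fderiv ℝ φ p (0, 1)) (f := fun z : ℝ × ℝ × ℝ => ((z.1, z.2.1) : ℝ × ℝ))
      (by fun_prop)
  have s6 : ∀ z : ℝ × ℝ × ℝ, H (z.1, z.2.1) ∈ e.source →
      ContDiffAt ℝ ∞ (fun z : ℝ × ℝ × ℝ => fderiv ℝ (e ∘ H) (z.1, z.2.1) (0, 1)) z := by
    intro z hz
    have h1 : ContDiffAt ℝ ∞ (e ∘ H) (z.1, z.2.1) := (hH _).2 e he hz
    have h2 : ContDiffAt ℝ ∞ (fun p : ℝ × ℝ => fderiv ℝ (e ∘ H) p (0, 1))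
        ((fun z : ℝ × ℝ × ℝ => ((z.1, z.2.1) : ℝ × ℝ)) z) :=
      (h1.fderiv_right (m := ∞) (by simp)).clm_apply contDiffAt_const
    exact comp_at (fun p : ℝ × ℝ => fderiv ℝ (e ∘ H) p (0, 1)) (fun z : ℝ × ℝ × ℝ => ((z.1, z.2.1) : ℝ × ℝ)) z h2
      (by fun_prop)
  have s7 : ∀ k, ∀ z : ℝ × ℝ × ℝ, κ k z.2.2 ∈ e.source → ContDiffAt ℝ ∞ (fun z : ℝ × ℝ × ℝ => e (κ k z.2.2)) z := by
    intro k z hz
    exact comp_at (e ∘ κ k) (fun z : ℝ × ℝ × ℝ => z.2.2) z ((hκ k _).2 e he hz) (by fun_prop)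
  have hfs : ∀ o, ContDiffOn ℝ 1 (f o) (U o) := by
    intro o z hz
    refine ContDiffAt.contDiffWithinAt ?_
    refine ContDiffAt.of_le (n := ∞) ?_ (by simp)
    match o, hz with
    | none, hz =>
      exact ((s3.contDiffAt.sub s4.contDiffAt).inv hz.2).smul ((s2 z hz.1.2).sub (s1 z hz.1.1))
    | some none, hz => exact (s5.contDiffAt.inv hz.2).smul (s6 z hz.1).neg
    | some (some k), hz => exact (s3.contDiffAt.inv hz.2).smul ((s7 k z hz.1.2).sub (s1 z hz.1.1))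
  have hfin : Module.finrank ℝ (ℝ × ℝ × ℝ) < n := by
    have : Module.finrank ℝ (ℝ × ℝ × ℝ) = 3 := by simp [Module.finrank_prod]
    omega
  obtain ⟨a, ha, hav⟩ := exists_small_avoid hfin f U hUo hfs hε
  refine ⟨a, ha, ?_, ?_, ?_⟩
  · intro s t t' h1 h2 h3 h4
    have h5 : φ (s, t) - φ (s, t') ≠ 0 := sub_ne_zero.2 h3
    refine hav none (s, t, t') ⟨⟨h1, h2⟩, h5⟩ ?_
    show (φ (s, t) - φ (s, t'))⁻¹ • (e (H (s, t')) - e (H (s, t))) = a
    rw [inv_smul_eq_iff₀ h5, sub_smul, sub_eq_sub_iff_add_eq_add, ← h4, add_comm]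
  · intro s t h1 h2 h4
    have d1 := (deriv_slice (f := φ) (s := s) (t := t) (hφ.differentiable (by simp) _)).deriv
    have d2 := (deriv_slice (f := e ∘ H) (s := s) (t := t)
      (((hH (s, t)).2 e he h1).differentiableAt (by simp))).deriv
    have d2' : deriv (fun τ => e (H (s, τ))) t = fderiv ℝ (e ∘ H) (s, t) (0, 1) := d2
    rw [d1] at h2 h4
    rw [d2'] at h4
    refine hav (some none) (s, t, 0) ⟨h1, h2⟩ ?_
    show (fderiv ℝ φ (s, t) (0, 1))⁻¹ • -(fderiv ℝ (e ∘ H) (s, t) (0, 1)) = a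
    rw [inv_smul_eq_iff₀ h2]
    exact neg_eq_of_add_eq_zero_right h4
  · intro p h1 h2 x hxL hxe h4
    obtain ⟨k, r, rfl⟩ := mem_iUnion.1 (hLκ hxL)
    refine hav (some (some k)) (p.1, p.2, r) ⟨⟨h1, hxe⟩, h2⟩ ?_
    show (φ p)⁻¹ • (e (κ k r) - e (H p)) = a
    rw [inv_smul_eq_iff₀ h2, ← h4]
    abel

theorem perturb_step (hn : 4 ≤ n) {e : OPH X (E n)} (he : e ∈ atlas (E n) X) {H : ℝ × ℝ → X}
    (hH : ∀ p, SmP n H p) (hp : Per H) {φ : ℝ × ℝ → ℝ} (hφ : ContDiff ℝ ∞ φ) (hφp : Per φ) {R : ℝ}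
    (hR : ∀ p ∈ tsupport φ, |p.1| ≤ R) (hs : ∀ p ∈ tsupport φ, H p ∈ e.source) {L : Set X} (hL : Thin n L)
    {𝒞 : Set (Set (ℝ × ℝ) × Set X)} (hf : 𝒞.Finite) (h𝒞 : Ctr H 𝒞) {s₀ : ℝ} {O : Set X} (hO : IsOpen O)
    (hsO : ∀ t, H (s₀, t) ∈ O) :
    ∃ H' : ℝ × ℝ → X, (∀ p, SmP n H' p) ∧ Per H' ∧ Ctr H' 𝒞 ∧ (∀ p, p ∉ tsupport φ → H' p = H p) ∧
      FreeHtpy O (fun t => H (s₀, t)) (fun t => H' (s₀, t)) ∧
      (∀ s t t', H' (s, t) = H' (s, t') → H (s, t) = H (s, t') ∧ φ (s, t) = φ (s, t')) ∧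
      (∀ s t, RegAt n (fun τ => H (s, τ)) t ∨ deriv (fun τ => φ (s, τ)) t ≠ 0 →
        RegAt n (fun τ => H' (s, τ)) t) ∧
      ∀ p, H' p ∈ L → H p ∈ L ∧ φ p = 0 := by
  have hHc : Continuous H := SmP.continuous hH
  set S := tsupport φ with hS
  have hSc : IsClosed S := isClosed_tsupport φ
  have hSp : PerSet S := perSet_tsupport hφp
  have h𝒞' : Ctr H (insert ({p : ℝ × ℝ | p.1 = s₀}, O) 𝒞) := by
    intro c hc
    rcases hc with rfl | hc
    · refine ⟨isClosed_eq continuous_fst continuous_const, fun s t => Iff.rfl, hO, ?_⟩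
      rintro ⟨s, t⟩ hst
      have : s = s₀ := hst
      subst this
      exact hsO t
    · exact h𝒞 c hc
  obtain ⟨ε, hε, hεS⟩ := exists_eps hHc hp hSc hSp hR hs (hf.insert _) h𝒞'
  -- a bound of φ
  obtain ⟨B, hB⟩ : ∃ B : ℝ, 1 ≤ B ∧ ∀ p, |φ p| ≤ B := by
    obtain ⟨B, hB⟩ := (isCompact_window hSc hR).exists_bound_of_continuousOn (f := φ) hφ.continuous.continuousOn
    refine ⟨max B 1, le_max_right _ _, fun p => ?_⟩
    by_cases hpS : p ∈ S
    · have h1 : ((p.1, Int.fract p.2) : ℝ × ℝ) ∈ S ∩ {p : ℝ × ℝ | p.2 ∈ Icc (0 : ℝ) 1} :=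
        ⟨(hSp.fract p.1 p.2).2 hpS, fract_mem_Icc p.2⟩
      have h2 := hB _ h1
      rw [hφp.fract] at h2
      exact h2.trans (le_max_left _ _)
    · rw [image_eq_zero_of_notMem_tsupport hpS, abs_zero]
      exact zero_le_one.trans (le_max_right _ _)
  obtain ⟨hB1, hB2⟩ := hB
  have hB0 : 0 < B := by linarith
  obtain ⟨a, ha, g1, g2, g3⟩ := exists_generic hn he hH hφ hL (div_pos hε hB0)
  set v : ℝ × ℝ → E n := fun p => φ p • a with hv
  have hvc : Continuous v := hφ.continuous.smul continuous_const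
  have hvp : Per v := by
    intro s t
    simp only [hv, hφp s t]
  have hv0 : ∀ p, p ∉ S → v p = 0 := by
    intro p hp'
    simp only [hv, image_eq_zero_of_notMem_tsupport hp', zero_smul]
  have hvn : ∀ p, ∀ τ ∈ Icc (0 : ℝ) 1, ‖τ • v p‖ < ε := by
    intro p τ hτ
    rw [norm_smul, Real.norm_eq_abs, abs_of_nonneg hτ.1]
    have h1 : ‖v p‖ < ε := by
      simp only [hv]
      rw [norm_smul, Real.norm_eq_abs]
      have h2 : B * ‖a‖ < ε := by
        rw [lt_div_iff₀ hB0] at ha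
        linarith
      exact lt_of_le_of_lt (mul_le_mul_of_nonneg_right (hB2 p) (norm_nonneg _)) h2
    calc τ * ‖v p‖ ≤ 1 * ‖v p‖ := mul_le_mul_of_nonneg_right hτ.2 (norm_nonneg _)
      _ < ε := by linarith
  have hvn1 : ∀ p, ‖v p‖ < ε := fun p => by simpa using hvn p 1 ⟨zero_le_one, le_rfl⟩
  have ht : ∀ p ∈ S, e (H p) + v p ∈ e.target := fun p hpS => (hεS p hpS _ (hvn1 p)).1
  have hmem : ∀ p ∈ S, mdf e H v p ∈ e.source ∧ e (mdf e H v p) = e (H p) + v p := fun p hpS =>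
    mdf_mem (hs p hpS) (ht p hpS)
  have hsupp : ∀ p, φ p ≠ 0 → p ∈ S := fun p h => subset_tsupport φ h
  have hzero : ∀ p, φ p = 0 → mdf e H v p = H p := fun p h => mdf_zero (by simp only [hv, h, zero_smul])
  have hsm : ∀ p, SmP n (mdf e H v) p := by
    intro p
    by_cases hpS : p ∈ S
    · have h1 : ContDiffAt ℝ ∞ (fun y => e (H y)) p := (hH p).2 e he (hs p hpS)
      exact smP_mdf he hHc.continuousAt (hs p hpS) (ht p hpS) hvc.continuousAt
        (h1.add (hφ.contDiffAt.smul contDiffAt_const))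
    · exact (hH p).congr (mdf_eventuallyEq hSc hv0 hpS)
  -- if the modified point lies in the chart then the formula holds
  have hform : ∀ p, mdf e H v p ∈ e.source → H p ∈ e.source ∧ e (mdf e H v p) = e (H p) + φ p • a := by
    intro p hps
    by_cases hpS : p ∈ S
    · exact ⟨hs p hpS, (hmem p hpS).2⟩
    · have h0 : φ p = 0 := image_eq_zero_of_notMem_tsupport hpS
      rw [hzero p h0] at hps ⊢
      exact ⟨hps, by rw [h0, zero_smul, add_zero]⟩
  refine ⟨mdf e H v, hsm, mdf_per hp hvp, ?_, fun p hpS => mdf_zero (hv0 p hpS), ?_, ?_, ?_, ?_⟩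
  · exact ctr_mdf hv0 hs h𝒞 fun p hpS c hc hpc => (hεS p hpS _ (hvn1 p)).2 c (mem_insert_of_mem _ hc) hpc
  · refine freeHtpy_mdf hHc hp hvc hvp hSc hv0 hs hsO (fun p hpS τ hτ => (hεS p hpS _ (hvn p τ hτ)).1) ?_
    intro t htS τ hτ
    exact (hεS _ htS _ (hvn _ τ hτ)).2 ({p : ℝ × ℝ | p.1 = s₀}, O) (mem_insert _ _) rfl
  · intro s t t' htt
    by_cases h0 : φ (s, t) = 0 ∧ φ (s, t') = 0
    · rw [hzero _ h0.1, hzero _ h0.2] at htt
      exact ⟨htt, h0.1.trans h0.2.symm⟩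
    · have hsrc : mdf e H v (s, t) ∈ e.source := by
        by_cases h1 : φ (s, t) = 0
        · have h2 : φ (s, t') ≠ 0 := fun h2 => h0 ⟨h1, h2⟩
          rw [htt]
          exact (hmem _ (hsupp _ h2)).1
        · exact (hmem _ (hsupp _ h1)).1
      obtain ⟨f1, f2⟩ := hform _ hsrc
      obtain ⟨f3, f4⟩ := hform (s, t') (htt ▸ hsrc)
      have h5 : e (H (s, t)) + φ (s, t) • a = e (H (s, t')) + φ (s, t') • a := by
        rw [← f2, ← f4, htt]
      by_cases h6 : φ (s, t) = φ (s, t')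
      · rw [h6] at h5
        exact ⟨e.injOn f1 f3 (add_right_cancel h5), h6⟩
      · exact absurd h5 (g1 s t t' f1 f3 h6)
  · intro s t hreg
    by_cases hpS : (s, t) ∈ S
    · have hsrc := hs _ hpS
      have h1 : ContDiffAt ℝ ∞ (e ∘ H) (s, t) := (hH (s, t)).2 e he hsrc
      have d1 := deriv_slice (h1.differentiableAt (by simp))
      have d2 := deriv_slice (f := φ) (s := s) (t := t) (hφ.differentiable (by simp) _)
      have d3 : HasDerivAt (fun τ => e (H (s, τ)) + φ (s, τ) • a)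
          (fderiv ℝ (e ∘ H) (s, t) (0, 1) + fderiv ℝ φ (s, t) (0, 1) • a) t :=
        HasDerivAt.add d1 (d2.smul_const a)
      have hev : (e ∘ fun τ => mdf e H v (s, τ)) =ᶠ[𝓝 t] fun τ => e (H (s, τ)) + φ (s, τ) • a := by
        have hc1 : ContinuousAt (fun τ => mdf e H v (s, τ)) t :=
          ContinuousAt.comp (g := mdf e H v) (hsm (s, t)).1 (by fun_prop)
        filter_upwards [hc1.eventually (e.open_source.mem_nhds (hmem _ hpS).1)] with τ hτ
        exact (hform _ hτ).2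
      rw [regAt_iff he (hmem _ hpS).1]
      refine ⟨(hsm (s, t)).slice.1, (hsm (s, t)).slice.2 e he (hmem _ hpS).1, ?_⟩
      rw [hev.deriv_eq, d3.deriv]
      by_cases h0 : fderiv ℝ φ (s, t) (0, 1) = 0
      · have hreg' : RegAt n (fun τ => H (s, τ)) t := by
          rcases hreg with h | h
          · exact h
          · rw [d2.deriv] at h
            exact absurd h0 h
        have h7 := ((regAt_iff he hsrc).1 hreg').2.2
        have h8 : deriv (e ∘ fun τ => H (s, τ)) t = fderiv ℝ (e ∘ H) (s, t) (0, 1) := d1.deriv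
        rw [h0, zero_smul, add_zero, ← h8]
        exact h7
      · have h9 := g2 s t hsrc (by rw [d2.deriv]; exact h0)
        have h8 : deriv (fun τ => e (H (s, τ))) t = fderiv ℝ (e ∘ H) (s, t) (0, 1) := d1.deriv
        rwa [h8, d2.deriv] at h9
    · have h0 : (fun τ => φ (s, τ)) =ᶠ[𝓝 t] fun _ => (0 : ℝ) := by
        have hc1 : ContinuousAt (fun τ : ℝ => ((s, τ) : ℝ × ℝ)) t := by fun_prop
        filter_upwards [hc1.eventually (hSc.isOpen_compl.mem_nhds hpS)] with τ hτ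
        exact image_eq_zero_of_notMem_tsupport hτ
      have hreg' : RegAt n (fun τ => H (s, τ)) t := by
        rcases hreg with h | h
        · exact h
        · rw [h0.deriv_eq, deriv_const] at h
          exact absurd rfl h
      refine hreg'.congr ?_
      filter_upwards [h0] with τ hτ
      exact hzero _ hτ
  · intro p hpL
    by_cases h0 : φ p = 0
    · rw [hzero p h0] at hpL
      exact ⟨hpL, h0⟩
    · have h1 := hmem p (hsupp p h0)
      exact absurd h1.2.symm (g3 p (hs p (hsupp p h0)) h0 _ hpL h1.1)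

end

end Pool.Agent.CSM
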