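import Pool.Agent.CSM.BCov
import Pool.Agent.CSM.BPrt

/-!
# CSM, chunk (B), module BGen: general position of a family of loops

Proof.  `exists_cover` gives `ι, e, ρ` for `H`.  Let `κ = ι × Fin 3` and for `j = (i, m)`: chart `e i`,
`φ j p = ρ i p * c m p`, `c 0 = 1`, `c 1 p = cos (2 π p.2)`, `c 2 p = sin (2 π p.2)` (smooth, periodic,
`tsupport (φ j) ⊆ tsupport (ρ i)`, `tsupport_mul_subset_left`).  Conditions `𝒞' = {(tsupport (ρ i), (e i).source)}`.
Induction over a finset `s` of `κ`: there is `H'` smooth everywhere, periodic, `Ctr H' 𝒞'`, `H' p = H p` for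
`p.1 ∉ Ioo a' b'`, `FreeHtpy`, and
 (i) `H' (s,t) = H' (s,t') → H (s,t) = H (s,t') ∧ ∀ j ∈ s, φ j (s,t) = φ j (s,t')`;
 (ii) `RegAt n (H (s,·)) t ∨ (∃ j ∈ s, deriv (φ j (s,·)) t ≠ 0) → RegAt n (H' (s,·)) t`;
 (iii) `H' p ∈ L → H p ∈ L ∧ ∀ j ∈ s, φ j p = 0`.
Step: `perturb_step`.  At the end `s = univ`.
* `s ∈ Icc a b`: for every `t` there is `i` with `ρ i = 1` near `(s,t)`.  If `H' (s,t) = H' (s,t')` then `ρ i (s,t') =
  ρ i (s,t) = 1` (`j = (i,0)`), so `cos (2 π t) = cos (2 π t')`, `sin (2 π t) = sin (2 π t')`, so `t' = t + k`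
  (e.g. `cos (2 π (t - t')) = 1`, `Real.cos_eq_one_iff`).  Regularity: near `t` `φ (i,1) (s,τ) = cos (2 π τ)`,
  `φ (i,2) (s,τ) = sin (2 π τ)`, the derivatives `- 2 π sin (2 π t)`, `2 π cos (2 π t)` do not vanish both.
  `H' (s,t) ∈ L` would give `φ (i,0) (s,t) = 0 ≠ 1`.  So `Emb n (H' (s,·))` and it avoids `L`.
* `H (s,·)` embedded and avoiding `L`: (i) and `Emb.inj`, (ii), (iii).
-/

open scoped Manifold ContDiff Topology
open Set

namespace Pool.Agent.CSM

/-- The three angular functions. -/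
private noncomputable def ang (m : Fin 3) (p : ℝ × ℝ) : ℝ :=
  match m with
  | 0 => 1
  | 1 => Real.cos (2 * Real.pi * p.2)
  | 2 => Real.sin (2 * Real.pi * p.2)

private theorem ang_smooth (m : Fin 3) : ContDiff ℝ ∞ (ang m) := by
  match m with
  | 0 => exact contDiff_const
  | 1 => exact Real.contDiff_cos.comp (by fun_prop)
  | 2 => exact Real.contDiff_sin.comp (by fun_prop)

private theorem ang_per (m : Fin 3) : Per (ang m) := by
  intro s t
  have h : 2 * Real.pi * (t + 1) = 2 * Real.pi * t + 2 * Real.pi := by ring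
  match m with
  | 0 => rfl
  | 1 =>
    show Real.cos (2 * Real.pi * (t + 1)) = Real.cos (2 * Real.pi * t)
    rw [h, Real.cos_add_two_pi]
  | 2 =>
    show Real.sin (2 * Real.pi * (t + 1)) = Real.sin (2 * Real.pi * t)
    rw [h, Real.sin_add_two_pi]

private theorem ang_sep {t t' : ℝ} (h1 : Real.cos (2 * Real.pi * t) = Real.cos (2 * Real.pi * t'))
    (h2 : Real.sin (2 * Real.pi * t) = Real.sin (2 * Real.pi * t')) : ∃ k : ℤ, t' = t + k := by
  have h3 : Real.cos (2 * Real.pi * t' - 2 * Real.pi * t) = 1 := by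
    rw [Real.cos_sub, h1, h2]
    have := Real.sin_sq_add_cos_sq (2 * Real.pi * t')
    nlinarith
  obtain ⟨k, hk⟩ := (Real.cos_eq_one_iff _).1 h3
  refine ⟨k, ?_⟩
  have hpi : (2 * Real.pi) ≠ 0 := by positivity
  have h4 : (2 * Real.pi) * (t' - t - k) = 0 := by linarith
  rcases mul_eq_zero.1 h4 with h5 | h5
  · exact absurd h5 hpi
  · linarith

theorem general_position {n : ℕ} {X : Type*} [TopologicalSpace X] [ChartedSpace (E n) X] [HasGroupoid X (orG n)]
    (hn : 4 ≤ n) {H : ℝ × ℝ → X} (hH : ∀ p, SmP n H p) (hp : Per H) {a b a' b' : ℝ} (h1 : a' < a) (h2 : b < b')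
    {L : Set X} (hL : Thin n L) {s₀ : ℝ} {O : Set X} (hO : IsOpen O) (hsO : ∀ t, H (s₀, t) ∈ O) :
    ∃ H' : ℝ × ℝ → X, (∀ p, SmP n H' p) ∧ Per H' ∧ (∀ p, p.1 ∉ Ioo a' b' → H' p = H p) ∧
      FreeHtpy O (fun t => H (s₀, t)) (fun t => H' (s₀, t)) ∧
      ∀ s, (s ∈ Icc a b ∨ (Emb n (fun t => H (s, t)) ∧ ∀ t, H (s, t) ∉ L)) →
        Emb n (fun t => H' (s, t)) ∧ ∀ t, H' (s, t) ∉ L := by
  classical
  have hHc : Continuous H := SmP.continuous hH
  obtain ⟨ι, hι, e, ρ, c1, c2, c3, c4, c5, c6⟩ := exists_cover (n := n) hHc hp h1 h2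
  set 𝒞 : Set (Set (ℝ × ℝ) × Set X) := range fun i => (tsupport (ρ i), (e i).source) with h𝒞def
  have hf : 𝒞.Finite := finite_range _
  have h𝒞 : Ctr H 𝒞 := by
    rintro _ ⟨i, rfl⟩
    exact ⟨isClosed_tsupport _, perSet_tsupport (c3 i), (e i).open_source, fun p hp' => (c5 i p hp').1⟩
  set φ : ι × Fin 3 → ℝ × ℝ → ℝ := fun j p => ρ j.1 p * ang j.2 p with hφ
  have hφs : ∀ j, ContDiff ℝ ∞ (φ j) := fun j => (c2 j.1).mul (ang_smooth j.2)
  have hφp : ∀ j, Per (φ j) := fun j s t => by simp only [hφ, c3 j.1 s t, ang_per j.2 s t]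
  have hφt : ∀ j, tsupport (φ j) ⊆ tsupport (ρ j.1) := fun j => tsupport_mul_subset_left
  have key : ∀ s : Finset (ι × Fin 3), ∃ H' : ℝ × ℝ → X, (∀ p, SmP n H' p) ∧ Per H' ∧ Ctr H' 𝒞 ∧
      (∀ p, p.1 ∉ Ioo a' b' → H' p = H p) ∧ FreeHtpy O (fun t => H (s₀, t)) (fun t => H' (s₀, t)) ∧
      (∀ σ t t', H' (σ, t) = H' (σ, t') → H (σ, t) = H (σ, t') ∧ ∀ j ∈ s, φ j (σ, t) = φ j (σ, t')) ∧
      (∀ σ t, RegAt n (fun τ => H (σ, τ)) t ∨ (∃ j ∈ s, deriv (fun τ => φ j (σ, τ)) t ≠ 0) →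
        RegAt n (fun τ => H' (σ, τ)) t) ∧
      ∀ p, H' p ∈ L → H p ∈ L ∧ ∀ j ∈ s, φ j p = 0 := by
    intro s
    induction s using Finset.induction_on with
    | empty =>
      refine ⟨H, hH, hp, h𝒞, fun _ _ => rfl, FreeHtpy.refl (hHc.comp (by fun_prop)) (fun t => hp s₀ t) hsO,
        fun σ t t' h => ⟨h, fun j hj => absurd hj (Finset.notMem_empty j)⟩, ?_,
        fun p h => ⟨h, fun j hj => absurd hj (Finset.notMem_empty j)⟩⟩
      rintro σ t (h | ⟨j, hj, -⟩)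
      · exact h
      · exact absurd hj (Finset.notMem_empty j)
    | insert j s _ ih =>
      obtain ⟨H', a1, a2, a3, a4, a5, a6, a7, a8⟩ := ih
      have hO' : ∀ t, H' (s₀, t) ∈ O := by
        obtain ⟨K, -, -, -, k4, k5⟩ := a5
        intro t
        have k6 : K 1 t = H' (s₀, t) := k4 t
        rw [← k6]
        exact k5 1 t
      obtain ⟨H'', b1, b2, b3, b4, b5, b6, b7, b8⟩ := perturb_step hn (c1 j.1) a1 a2 (hφs j) (hφp j)
        (R := max |a'| |b'|)
        (fun p hp' => by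
          have h3 := (c5 j.1 p (hφt j hp')).2
          exact abs_le_max_abs_abs h3.1.le h3.2.le)
        (fun p hp' => (a3 _ ⟨j.1, rfl⟩).2.2.2 (hφt j hp')) hL hf a3 hO hO'
      refine ⟨H'', b1, b2, b3, fun p hp' => ?_, a5.trans b5, ?_, ?_, ?_⟩
      · rw [b4 p fun h => hp' (c5 j.1 p (hφt j h)).2, a4 p hp']
      · intro σ t t' htt
        obtain ⟨d1, d2⟩ := b6 σ t t' htt
        obtain ⟨d3, d4⟩ := a6 σ t t' d1
        refine ⟨d3, fun i hi => ?_⟩
        rcases Finset.mem_insert.1 hi with rfl | hi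
        · exact d2
        · exact d4 i hi
      · rintro σ t (h | ⟨i, hi, hi'⟩)
        · exact b7 σ t (Or.inl (a7 σ t (Or.inl h)))
        · rcases Finset.mem_insert.1 hi with rfl | hi
          · exact b7 σ t (Or.inr hi')
          · exact b7 σ t (Or.inl (a7 σ t (Or.inr ⟨i, hi, hi'⟩)))
      · intro p hpL
        obtain ⟨d1, d2⟩ := b8 p hpL
        obtain ⟨d3, d4⟩ := a8 p d1
        refine ⟨d3, fun i hi => ?_⟩
        rcases Finset.mem_insert.1 hi with rfl | hi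
        · exact d2
        · exact d4 i hi
  have : Fintype ι := Fintype.ofFinite ι
  obtain ⟨H', a1, a2, -, a4, a5, a6, a7, a8⟩ := key Finset.univ
  refine ⟨H', a1, a2, a4, a5, ?_⟩
  rintro s (hs | ⟨hE, hEL⟩)
  · -- the generic slices
    have hone : ∀ t, ∃ i, ∀ᶠ q in 𝓝 ((s, t) : ℝ × ℝ), ρ i q = 1 := fun t => c6 (s, t) hs
    refine ⟨⟨fun t => a2 s t, fun t => ?_, fun t t' htt => ?_⟩, fun t htL => ?_⟩
    · obtain ⟨i, hi⟩ := hone t
      have hc1 : ContinuousAt (fun τ : ℝ => ((s, τ) : ℝ × ℝ)) t := by fun_prop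
      have hi' : ∀ᶠ τ in 𝓝 t, ρ i (s, τ) = 1 := hc1.eventually hi
      have e1 : (fun τ => φ (i, 1) (s, τ)) =ᶠ[𝓝 t] fun τ => Real.cos (2 * Real.pi * τ) := by
        filter_upwards [hi'] with τ hτ
        simp only [hφ, hτ, one_mul, ang]
      have e2 : (fun τ => φ (i, 2) (s, τ)) =ᶠ[𝓝 t] fun τ => Real.sin (2 * Real.pi * τ) := by
        filter_upwards [hi'] with τ hτ
        simp only [hφ, hτ, one_mul, ang]
      have hlin : HasDerivAt (fun τ : ℝ => 2 * Real.pi * τ) (2 * Real.pi) t := by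
        simpa using (hasDerivAt_id t).const_mul (2 * Real.pi)
      have d1 : deriv (fun τ => φ (i, 1) (s, τ)) t = -Real.sin (2 * Real.pi * t) * (2 * Real.pi) := by
        rw [e1.deriv_eq]
        exact hlin.cos.deriv
      have d2 : deriv (fun τ => φ (i, 2) (s, τ)) t = Real.cos (2 * Real.pi * t) * (2 * Real.pi) := by
        rw [e2.deriv_eq]
        exact hlin.sin.deriv
      have hpi : (2 * Real.pi) ≠ 0 := by positivity
      by_cases h0 : Real.sin (2 * Real.pi * t) = 0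
      · refine a7 s t (Or.inr ⟨(i, 2), Finset.mem_univ _, ?_⟩)
        rw [d2]
        refine mul_ne_zero (fun h3 => ?_) hpi
        have := Real.sin_sq_add_cos_sq (2 * Real.pi * t)
        rw [h0, h3] at this
        norm_num at this
      · refine a7 s t (Or.inr ⟨(i, 1), Finset.mem_univ _, ?_⟩)
        rw [d1]
        exact mul_ne_zero (neg_ne_zero.2 h0) hpi
    · obtain ⟨-, hall⟩ := a6 s t t' htt
      obtain ⟨i, hi⟩ := hone t
      have hi1 : ρ i (s, t) = 1 := hi.self_of_nhds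
      have f0 := hall (i, 0) (Finset.mem_univ _)
      have f1 := hall (i, 1) (Finset.mem_univ _)
      have f2 := hall (i, 2) (Finset.mem_univ _)
      simp only [hφ, ang, mul_one] at f0 f1 f2
      rw [hi1] at f0
      rw [hi1, ← f0, one_mul, one_mul] at f1 f2
      exact ang_sep f1 f2
    · obtain ⟨-, hall⟩ := a8 (s, t) htL
      obtain ⟨i, hi⟩ := hone t
      have hi1 : ρ i (s, t) = 1 := hi.self_of_nhds
      have f0 := hall (i, 0) (Finset.mem_univ _)
      simp only [hφ, ang, mul_one, hi1] at f0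
      exact one_ne_zero f0
  · exact ⟨⟨fun t => a2 s t, fun t => a7 s t (Or.inl (hE.reg t)), fun t t' htt => hE.inj t t' (a6 s t t' htt).1⟩,
      fun t htL => hEL t (a8 _ htL).1⟩

end Pool.Agent.CSM
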