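import Pool.Agent.CSM.CST

/-!
# CSM, chunk (B), module BShf: a diffeomorphism of the solid torus moving the core to a nearby curve

Proof.  Let `cut : E m → ℝ` be a smooth bump, `cut = 1` near `0`, `cut x = 0` for `1 ≤ ‖x‖`, `0 ≤ cut ≤ 1`,
`‖fderiv cut x‖ ≤ B`.  For `u` put `w (θ, x) = cut x • u θ`.
`fderiv w (θ, x) (a, y) = (cut x * a) • deriv u θ + (fderiv cut x y) • u θ`, so
`‖fderiv w‖ ≤ ‖deriv u θ‖ + B ‖u θ‖ ≤ (B + 1) ε ≤ 1 / 2` for `ε = 1 / (2 (B + 1))`.  `exists_smallT` with `R = 1`.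
-/

open scoped Manifold ContDiff Topology
open Set

namespace Pool.Agent.CSM

theorem exists_shift (m : ℕ) [HasGroupoid (T m) (orG (m + 1))] :
    ∃ ε > 0, ∀ u : ℝ → ℝ × E m, ContDiff ℝ ∞ u → (∀ t, u (t + 1) = u t) →
    (∀ t, ‖u t‖ < ε) → (∀ t, ‖deriv u t‖ < ε) →
    ∃ D : T m ≃ₜ T m, PD (m + 1) D.toOpenPartialHomeomorph ∧
      (∀ t, D (mkT t 0) = mkT (t + (u t).1) (u t).2) ∧ ∀ p : T m, 1 ≤ ‖p.2‖ → D p = p := by
  let cut : ContDiffBump (0 : E m) := ⟨1 / 2, 1, by norm_num, by norm_num⟩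
  have hcs : ContDiff ℝ ∞ cut := cut.contDiff
  have hcd : ∀ x, HasFDerivAt cut (fderiv ℝ cut x) x := fun x =>
    (hcs.differentiable (by simp) x).hasFDerivAt
  obtain ⟨B₀, hB₀⟩ := (hcs.continuous_fderiv (by simp)).bounded_above_of_compact_support
    (cut.hasCompactSupport.fderiv ℝ)
  set B := max B₀ 0 with hB
  have hB0 : 0 ≤ B := le_max_right _ _
  have hBB : ∀ x, ‖fderiv ℝ cut x‖ ≤ B := fun x => (hB₀ x).trans (le_max_left _ _)
  refine ⟨1 / (2 * (B + 1)), by positivity, fun u hu hup hu1 hu2 => ?_⟩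
  set ε := 1 / (2 * (B + 1)) with hε
  have hε' : (B + 1) * ε = 1 / 2 := by
    rw [hε]
    field_simp
  have hud : ∀ t, HasFDerivAt u ((1 : ℝ →L[ℝ] ℝ).smulRight (deriv u t)) t := fun t =>
    ((hu.differentiable (by simp) t).hasDerivAt).hasFDerivAt
  set w : ℝ × E m → ℝ × E m := fun p => cut p.2 • u p.1 with hw
  have hws : ContDiff ℝ ∞ w := (hcs.comp contDiff_snd).smul (hu.comp contDiff_fst)
  have hwd : ∀ p : ℝ × E m, HasFDerivAt w
      (cut p.2 • (((1 : ℝ →L[ℝ] ℝ).smulRight (deriv u p.1)).comp (ContinuousLinearMap.fst ℝ ℝ (E m))) +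
        ((fderiv ℝ cut p.2).comp (ContinuousLinearMap.snd ℝ ℝ (E m))).smulRight (u p.1)) p := by
    intro p
    have h1 : HasFDerivAt (fun p : ℝ × E m => cut p.2)
        ((fderiv ℝ cut p.2).comp (ContinuousLinearMap.snd ℝ ℝ (E m))) p := (hcd p.2).comp p hasFDerivAt_snd
    have h2 : HasFDerivAt (fun p : ℝ × E m => u p.1)
        (((1 : ℝ →L[ℝ] ℝ).smulRight (deriv u p.1)).comp (ContinuousLinearMap.fst ℝ ℝ (E m))) p :=
      (hud p.1).comp p hasFDerivAt_fst
    exact h1.smul h2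
  obtain ⟨D, d1, d2, d3⟩ := exists_smallT (m := m) (w := w) hws
    (fun θ x => by simp only [hw, hup θ]) (R := 1)
    (fun θ x hx => by
      have : cut x = 0 := cut.zero_of_le_dist (by simpa [dist_eq_norm] using hx)
      simp only [hw, this, zero_smul])
    (fun p => by
      rw [(hwd p).fderiv]
      refine ContinuousLinearMap.opNorm_le_bound _ (by norm_num) fun q => ?_
      have e1 : (cut p.2 • (((1 : ℝ →L[ℝ] ℝ).smulRight (deriv u p.1)).comp (ContinuousLinearMap.fst ℝ ℝ (E m))) +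
          ((fderiv ℝ cut p.2).comp (ContinuousLinearMap.snd ℝ ℝ (E m))).smulRight (u p.1)) q =
          cut p.2 • q.1 • deriv u p.1 + (fderiv ℝ cut p.2 q.2) • u p.1 := by
        simp
      rw [e1]
      have n1 : ‖cut p.2 • q.1 • deriv u p.1‖ ≤ ε * ‖q‖ := by
        rw [norm_smul, norm_smul, Real.norm_eq_abs, abs_of_nonneg cut.nonneg]
        calc cut p.2 * (‖q.1‖ * ‖deriv u p.1‖) ≤ 1 * (‖q‖ * ε) := by
              apply mul_le_mul cut.le_one _ (by positivity) zero_le_one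
              exact mul_le_mul (norm_fst_le q) (hu2 _).le (norm_nonneg _) (norm_nonneg _)
          _ = ε * ‖q‖ := by ring
      have n2 : ‖(fderiv ℝ cut p.2 q.2) • u p.1‖ ≤ (B * ε) * ‖q‖ := by
        rw [norm_smul]
        calc ‖fderiv ℝ cut p.2 q.2‖ * ‖u p.1‖ ≤ (B * ‖q‖) * ε := by
              apply mul_le_mul _ (hu1 _).le (norm_nonneg _) (by positivity)
              exact (ContinuousLinearMap.le_opNorm _ _).trans
                (mul_le_mul (hBB _) (norm_snd_le q) (norm_nonneg _) hB0)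
          _ = (B * ε) * ‖q‖ := by ring
      calc _ ≤ ‖cut p.2 • q.1 • deriv u p.1‖ + ‖(fderiv ℝ cut p.2 q.2) • u p.1‖ := norm_add_le _ _
        _ ≤ ε * ‖q‖ + (B * ε) * ‖q‖ := add_le_add n1 n2
        _ = (B + 1) * ε * ‖q‖ := by ring
        _ = 1 / 2 * ‖q‖ := by rw [hε'])
  refine ⟨D, d1, fun t => ?_, d3⟩
  have h0 : cut (0 : E m) = 1 := cut.one_of_mem_closedBall (by simp; norm_num)
  rw [d2]
  simp only [hw, h0, one_smul, zero_add]

end Pool.Agent.CSM
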