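import Pool.Agent.CSM.BBas

/-!
# CSM, chunk (B), module BUni: uniform smallness

Proof.  Both `w` and `W (s,t) = fderiv ℝ w (s,t) (0,1)` are continuous at every point of `{s₀} × ℝ` and vanish there.
Compactness of `Icc 0 1` and periodicity.
-/

open scoped Manifold ContDiff Topology
open Set

namespace Pool.Agent.CSM

theorem unif_small_per {V : Type*} [NormedAddCommGroup V] [NormedSpace ℝ V] {w : ℝ × ℝ → V} (hp : Per w) {s₀ δ : ℝ}
    (hδ : 0 < δ) (hw : ∀ p : ℝ × ℝ, |p.1 - s₀| < δ → ContDiffAt ℝ ∞ w p) (h0 : ∀ t, w (s₀, t) = 0) {ε : ℝ}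
    (hε : 0 < ε) : ∀ᶠ s in 𝓝 s₀, ∀ t, ‖w (s, t)‖ < ε ∧ ‖deriv (fun τ => w (s, τ)) t‖ < ε := by
  have hd : ∀ s t, |s - s₀| < δ → HasDerivAt (fun τ => w (s, τ)) (fderiv ℝ w (s, t) (0, 1)) t := by
    intro s t hs
    have h1 : HasDerivAt (fun τ : ℝ => ((s, τ) : ℝ × ℝ)) (0, 1) t := (hasDerivAt_const t s).prodMk (hasDerivAt_id t)
    exact ((hw (s, t) hs).differentiableAt (by simp)).hasFDerivAt.comp_hasDerivAt t h1
  have hs0 : |s₀ - s₀| < δ := by simpa using hδ
  have hz : ∀ t, fderiv ℝ w (s₀, t) (0, 1) = 0 := by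
    intro t
    have h1 := (hd s₀ t hs0).deriv
    have h2 : (fun τ => w (s₀, τ)) = fun _ => 0 := funext h0
    rw [h2, deriv_const] at h1
    exact h1.symm
  have key : ∀ᶠ s in 𝓝 s₀, ∀ t ∈ Icc (0 : ℝ) 1, ‖w (s, t)‖ < ε ∧ ‖fderiv ℝ w (s, t) (0, 1)‖ < ε := by
    refine isCompact_Icc.eventually_forall_of_forall_eventually fun t _ => ?_
    have hwt := hw (s₀, t) hs0
    have c1 : ContinuousAt (fun z : ℝ × ℝ => ‖w (z.1, z.2)‖) (s₀, t) := hwt.continuousAt.norm
    have c2 : ContinuousAt (fun z : ℝ × ℝ => ‖fderiv ℝ w (z.1, z.2) (0, 1)‖) (s₀, t) :=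
      ((hwt.fderiv_right (m := 0) (by simp)).continuousAt.clm_apply continuousAt_const).norm
    refine (c1.eventually_lt continuousAt_const ?_).and (c2.eventually_lt continuousAt_const ?_)
    · show ‖w (s₀, t)‖ < ε
      rw [h0, norm_zero]
      exact hε
    · show ‖fderiv ℝ w (s₀, t) (0, 1)‖ < ε
      rw [hz, norm_zero]
      exact hε
  have hnear : ∀ᶠ s in 𝓝 s₀, |s - s₀| < δ := by
    have := Metric.ball_mem_nhds s₀ hδ
    filter_upwards [this] with s hs
    rwa [Metric.mem_ball, Real.dist_eq] at hs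
  filter_upwards [key, hnear] with s hs hsd t
  have h1 := hs _ (fract_mem_Icc t)
  have h2 : w (s, Int.fract t) = w (s, t) := hp.fract s t
  have h3 : deriv (fun τ => w (s, τ)) (Int.fract t) = deriv (fun τ => w (s, τ)) t := by
    have h4 : (fun τ => w (s, τ)) = fun τ => (fun τ => w (s, τ)) (τ + (-(⌊t⌋ : ℤ) : ℤ)) := by
      funext τ
      exact (hp.int s τ (-⌊t⌋)).symm
    conv_rhs => rw [h4]
    rw [deriv_comp_add_const (fun τ => w (s, τ))]
    congr 1
    rw [← Int.self_sub_floor]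
    push_cast
    ring
  rw [h2, ← (hd s _ hsd).deriv, h3] at h1
  exact h1

end Pool.Agent.CSM
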