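import Pool.Agent.CSM.BLif
import Pool.Agent.CSM.BUni
import Pool.Agent.CSM.BShf

/-!
# CSM, chunk (B), module BLoc: local triviality

The existence of a tube (output C6) is a hypothesis here.
-/

open scoped Manifold ContDiff Topology
open Set

namespace Pool.Agent.CSM

theorem isCompact_unitT (m : ℕ) : IsCompact {p : T m | ‖p.2‖ ≤ 1} := by
  have h : {p : T m | ‖p.2‖ ≤ 1} = (univ ×ˢ Metric.closedBall (0 : E m) 1 : Set (AddCircle (1 : ℝ) × E m)) := by
    ext p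
    constructor
    · intro hp
      exact ⟨trivial, mem_closedBall_zero_iff.2 hp⟩
    · intro hp
      exact mem_closedBall_zero_iff.1 hp.2
  have hc : IsCompact (univ ×ˢ Metric.closedBall (0 : E m) 1 : Set (AddCircle (1 : ℝ) × E m)) := by
    have : Fact ((0 : ℝ) < 1) := ⟨one_pos⟩
    exact isCompact_univ.prod (isCompact_closedBall _ _)
  rw [h]
  exact hc

theorem local_triv {m : ℕ} {X : Type*} [TopologicalSpace X] [ChartedSpace (E (m + 1)) X]
    [HasGroupoid X (orG (m + 1))] [T2Space X] [HasGroupoid (T m) (orG (m + 1))] {L : Set X} {H : ℝ × ℝ → X}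
    (hs : ∀ p, SmP (m + 1) H p) (hp : Per H) {s₀ : ℝ}
    (htube : ∃ e : OPH (T m) X, PD (m + 1) e ∧ e.source = univ ∧ e.target ⊆ Lᶜ ∧
      ∀ θ : ℝ, e (mkT θ 0) = H (s₀, θ)) :
    ∀ᶠ s in 𝓝 s₀, ∃ D : X ≃ₜ X, PD (m + 1) D.toOpenPartialHomeomorph ∧ (∀ x ∈ L, D x = x) ∧
      ∀ t, D (H (s₀, t)) = H (s, t) := by
  obtain ⟨e, e1, e2, e3, e4⟩ := htube
  obtain ⟨δ, w, w1, w2, w3, w4, w5⟩ := exists_tube_lift e1 hs hp (fun t => by rw [e2]; trivial) e4
  obtain ⟨ε, hε, hsh⟩ := exists_shift m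
  have hnear : ∀ᶠ s in 𝓝 s₀, |s - s₀| < δ := by
    filter_upwards [Metric.ball_mem_nhds s₀ w1] with s hs
    rwa [Metric.mem_ball, Real.dist_eq] at hs
  filter_upwards [unif_small_per w3 w1 w2 w4 hε, hnear] with s hsm hsd
  have hu : ContDiff ℝ ∞ (fun t => w (s, t)) := contDiff_iff_contDiffAt.2 fun t =>
    ContDiffAt.comp (g := w) (f := fun τ : ℝ => ((s, τ) : ℝ × ℝ)) t (w2 (s, t) hsd) (by fun_prop)
  obtain ⟨D₀, d1, d2, d3⟩ := hsh (fun t => w (s, t)) hu (fun t => w3 s t) (fun t => (hsm t).1)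
    (fun t => (hsm t).2)
  obtain ⟨D, f1, f2, f3⟩ := exists_ext e D₀ (isCompact_unitT m) (by rw [e2]; exact subset_univ _)
    (fun q hq => d3 q (le_of_lt (not_le.1 hq)))
  refine ⟨D, f3 e1 d1, fun x hx => f2 x ?_, fun t => ?_⟩
  · rintro ⟨q, -, rfl⟩
    exact e3 (e.map_source (by rw [e2]; trivial)) hx
  · rw [← e4 t, f1 _ (by rw [e2]; trivial), d2 t]
    exact (w5 s t hsd).2

end Pool.Agent.CSM
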