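import Pool.Agent.CSM.BSmo
import Pool.Agent.CSM.BGen
import Pool.Agent.CSM.BLoc

/-!
# CSM, chunk (B), module BIso: output (B2)

`circle_isotopy_of_tube` assumes the existence of tubes (C6) as a hypothesis.
-/

open scoped Manifold ContDiff Topology
open Set

namespace Pool.Agent.CSM

/-- The property of being moved by a diffeomorphism that fixes `L`. -/
private def Mv {n : ℕ} {X : Type*} [TopologicalSpace X] [ChartedSpace (E n) X] (L : Set X) (H : ℝ × ℝ → X)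
    (s s' : ℝ) : Prop :=
  ∃ D : X ≃ₜ X, PD n D.toOpenPartialHomeomorph ∧ (∀ x ∈ L, D x = x) ∧ ∀ t, D (H (s, t)) = H (s', t)

private theorem Mv.symm' {n : ℕ} {X : Type*} [TopologicalSpace X] [ChartedSpace (E n) X] {L : Set X}
    {H : ℝ × ℝ → X} {s s' : ℝ} (h : Mv (n := n) L H s s') : Mv (n := n) L H s' s := by
  obtain ⟨D, h1, h2, h3⟩ := h
  refine ⟨D.symm, PD.homeo_symm h1, fun x hx => ?_, fun t => ?_⟩
  · rw [Homeomorph.symm_apply_eq]
    exact (h2 x hx).symm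
  · rw [Homeomorph.symm_apply_eq]
    exact (h3 t).symm

private theorem Mv.trans' {n : ℕ} {X : Type*} [TopologicalSpace X] [ChartedSpace (E n) X]
    [HasGroupoid X (orG n)] {L : Set X} {H : ℝ × ℝ → X} {s s' s'' : ℝ} (h : Mv (n := n) L H s s')
    (h' : Mv (n := n) L H s' s'') : Mv (n := n) L H s s'' := by
  obtain ⟨D, h1, h2, h3⟩ := h
  obtain ⟨D', h1', h2', h3'⟩ := h'
  refine ⟨D.trans D', PD.homeo_trans h1 h1', fun x hx => ?_, fun t => ?_⟩
  · rw [Homeomorph.trans_apply, h2 x hx, h2' x hx]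
  · rw [Homeomorph.trans_apply, h3 t, h3' t]

/-- (B2) assuming the existence of tubes. -/
theorem circle_isotopy_of_tube {m : ℕ} (hm : 3 ≤ m) {X : Type*} [TopologicalSpace X]
    [ChartedSpace (E (m + 1)) X] [HasGroupoid X (orG (m + 1))] [T2Space X] [HasGroupoid (T m) (orG (m + 1))]
    (htube : ∀ (c : ℝ → X) (O : Set X), Emb (m + 1) c → IsOpen O → (∀ t, c t ∈ O) →
      ∃ e : OPH (T m) X, PD (m + 1) e ∧ e.source = univ ∧ e.target ⊆ O ∧ ∀ θ : ℝ, e (mkT θ 0) = c θ)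
    {L : Set X} (hL : IsClosed L) (hLt : Thin (m + 1) L) {c c' : ℝ → X} (hc : Emb (m + 1) c)
    (hc' : Emb (m + 1) c') (hcL : ∀ t, c t ∉ L) (hcL' : ∀ t, c' t ∉ L) (h : FreeHtpy univ c c') :
    ∃ D : X ≃ₜ X, PD (m + 1) D.toOpenPartialHomeomorph ∧ (∀ x ∈ L, D x = x) ∧ ∀ t, D (c t) = c' t := by
  obtain ⟨H₀, k1, k2, k3, k4, -⟩ := h
  set cl : ℝ → ℝ := fun s => max 0 (min 1 (3 * s - 1)) with hcl
  have hclc : Continuous cl := by fun_prop
  set H₁ : ℝ × ℝ → X := fun p => H₀ (cl p.1) p.2 with hH₁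
  have hH₁c : Continuous H₁ := k1.comp (f := fun p : ℝ × ℝ => ((cl p.1, p.2) : ℝ × ℝ)) (by fun_prop)
  have hH₁p : Per H₁ := fun s t => k2 _ t
  have hlow : ∀ p : ℝ × ℝ, p.1 ≤ 1 / 3 → H₁ p = c p.2 := by
    intro p hp
    have : cl p.1 = 0 := by
      simp only [hcl]
      rw [max_eq_left]
      exact (min_le_right _ _).trans (by linarith)
    simp only [hH₁, this, k3]
  have hhigh : ∀ p : ℝ × ℝ, 2 / 3 ≤ p.1 → H₁ p = c' p.2 := by
    intro p hp
    have : cl p.1 = 1 := by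
      simp only [hcl]
      rw [min_eq_left (by linarith), max_eq_right zero_le_one]
    simp only [hH₁, this, k4]
  have hsm1 : ∀ p : ℝ × ℝ, p.1 ∉ Icc (1 / 3 : ℝ) (2 / 3) → SmP (m + 1) H₁ p := by
    intro p hp
    by_cases h1 : p.1 < 1 / 3
    · refine SmP.congr (SmAt.const_param (hc.reg p.2).smAt) ?_
      filter_upwards [(isOpen_Iio.preimage continuous_fst).mem_nhds (show p ∈ Prod.fst ⁻¹' Iio (1 / 3 : ℝ) from h1)]
        with q hq
      exact hlow q (le_of_lt hq)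
    · have h2 : 2 / 3 < p.1 := by
        by_contra h3
        exact hp ⟨not_lt.1 h1, not_lt.1 h3⟩
      refine SmP.congr (SmAt.const_param (hc'.reg p.2).smAt) ?_
      filter_upwards [(isOpen_Ioi.preimage continuous_fst).mem_nhds (show p ∈ Prod.fst ⁻¹' Ioi (2 / 3 : ℝ) from h2)]
        with q hq
      exact hhigh q (le_of_lt hq)
  obtain ⟨H₂, a1, a2, a3, -, a5, a6⟩ := smooth_htpy (n := m + 1) hH₁c hH₁p (a := 1 / 3) (b := 2 / 3) (a' := 1 / 4)
    (b' := 3 / 4) (by norm_num) (by norm_num) (s₀ := 0) isOpen_univ (fun _ => mem_univ _)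
  have hsm2 : ∀ p, SmP (m + 1) H₂ p := by
    intro p
    by_cases hp : p.1 ∈ Icc (1 / 3 : ℝ) (2 / 3)
    · exact a6 p hp
    · exact a5 p (hsm1 p hp)
  obtain ⟨H₃, b1, b2, b3, -, b5⟩ := general_position (n := m + 1) (by omega) hsm2 a2 (a := 1 / 4) (b := 3 / 4)
    (a' := 1 / 5) (b' := 4 / 5) (by norm_num) (by norm_num) hLt (s₀ := 0) isOpen_univ (fun _ => mem_univ _)
  have hgood : ∀ s, Emb (m + 1) (fun t => H₃ (s, t)) ∧ ∀ t, H₃ (s, t) ∉ L := by
    intro s
    refine b5 s ?_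
    by_cases h1 : s ∈ Icc (1 / 4 : ℝ) (3 / 4)
    · exact Or.inl h1
    · right
      have h2 : ∀ t, H₂ (s, t) = H₁ (s, t) := fun t => a3 (s, t) fun h => h1 ⟨h.1.le, h.2.le⟩
      by_cases h3 : s < 1 / 4
      · have h4 : ∀ t, H₂ (s, t) = c t := fun t => (h2 t).trans (hlow (s, t) (by show s ≤ 1 / 3; linarith))
        have h5 : (fun t => H₂ (s, t)) = c := funext h4
        rw [h5]
        exact ⟨hc, fun t => by rw [h4]; exact hcL t⟩
      · have h6 : 3 / 4 < s := by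
          by_contra h7
          exact h1 ⟨not_lt.1 h3, not_lt.1 h7⟩
        have h4 : ∀ t, H₂ (s, t) = c' t := fun t => (h2 t).trans (hhigh (s, t) (by show 2 / 3 ≤ s; linarith))
        have h5 : (fun t => H₂ (s, t)) = c' := funext h4
        rw [h5]
        exact ⟨hc', fun t => by rw [h4]; exact hcL' t⟩
  have h0 : ∀ t, H₃ (0, t) = c t := by
    intro t
    rw [b3 (0, t) (fun h => by have := h.1; norm_num at this), a3 (0, t) (fun h => by have := h.1; norm_num at this)]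
    exact hlow (0, t) (by norm_num)
  have h1 : ∀ t, H₃ (1, t) = c' t := by
    intro t
    rw [b3 (1, t) (fun h => by have := h.2; norm_num at this), a3 (1, t) (fun h => by have := h.2; norm_num at this)]
    exact hhigh (1, t) (by norm_num)
  have hloc : ∀ s : ℝ, ∀ᶠ s' in 𝓝 s, Mv (n := m + 1) L H₃ s s' := fun s =>
    local_triv b1 b2 (htube (fun t => H₃ (s, t)) Lᶜ (hgood s).1 hL.isOpen_compl (hgood s).2)
  have hfin : Mv (n := m + 1) L H₃ 0 1 :=
    PreconnectedSpace.induction₂' (Mv (n := m + 1) L H₃) (fun s => (hloc s).mono fun _ h => ⟨h, h.symm'⟩)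
      ⟨fun _ _ _ h h' => Mv.trans' h h'⟩ 0 1
  obtain ⟨D, d1, d2, d3⟩ := hfin
  exact ⟨D, d1, d2, fun t => by rw [← h0 t, d3 t, h1 t]⟩

end Pool.Agent.CSM
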