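import Pool.Agent.CSM.Defs2

/-!
CSM chunk C, module CDB: determinants of block triangular linear maps of `ℝ × F`.
-/

open scoped Manifold ContDiff Topology
open Set

namespace Pool.Agent.CSM

section

variable {F : Type*} [NormedAddCommGroup F] [NormedSpace ℝ F] [FiniteDimensional ℝ F]

/-- The lower right block. -/
noncomputable def blk (A : (ℝ × F) →L[ℝ] (ℝ × F)) : F →L[ℝ] F :=
  ((ContinuousLinearMap.snd ℝ ℝ F).comp A).comp (ContinuousLinearMap.inr ℝ ℝ F)

omit [FiniteDimensional ℝ F] in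
theorem blk_apply (A : (ℝ × F) →L[ℝ] (ℝ × F)) (x : F) : blk A x = (A (0, x)).2 := rfl

theorem det_upper (A : (ℝ × F) →L[ℝ] (ℝ × F)) (h : A (1, 0) = (1, 0)) : A.det = (blk A).det := by
  let f : Module.Dual ℝ (ℝ × F) :=
    ((((ContinuousLinearMap.fst ℝ ℝ F).comp A).comp (ContinuousLinearMap.inr ℝ ℝ F)).comp
      (ContinuousLinearMap.snd ℝ ℝ F) : (ℝ × F) →ₗ[ℝ] ℝ)
  have h1 : (A : (ℝ × F) →ₗ[ℝ] (ℝ × F)) = (LinearMap.prodMap LinearMap.id (blk A : F →ₗ[ℝ] F)) *
      (LinearMap.transvection f (1, 0)) := by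
    refine LinearMap.ext fun p => ?_
    have h2 : A p = p.1 • A (1, 0) + A (0, p.2) := by
      rw [← map_smul, ← map_add]
      congr 1
      ext <;> simp
    have h3 : f p = (A (0, p.2)).1 := rfl
    show A p = _
    rw [h2, h, Module.End.mul_apply, LinearMap.transvection.apply, h3]
    refine Prod.ext ?_ ?_
    · simp
    · simp [blk_apply]
  have h4 : LinearMap.det (LinearMap.transvection f ((1, 0) : ℝ × F)) = 1 := by
    rw [LinearMap.transvection.det]
    have : f ((1, 0) : ℝ × F) = 0 := by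
      show (A (0, 0)).1 = 0
      have h0 : ((0, 0) : ℝ × F) = 0 := rfl
      rw [h0, map_zero]
      rfl
    rw [this, add_zero]
  show LinearMap.det (A : (ℝ × F) →ₗ[ℝ] (ℝ × F)) = LinearMap.det (blk A : F →ₗ[ℝ] F)
  rw [h1, map_mul, h4, mul_one, LinearMap.det_prodMap, LinearMap.det_id, one_mul]

theorem det_lower (A : (ℝ × F) →L[ℝ] (ℝ × F)) (h : ∀ x, (A (0, x)).1 = 0) (h1 : (A (1, 0)).1 = 1) :
    A.det = (blk A).det := by
  let f : Module.Dual ℝ (ℝ × F) := LinearMap.fst ℝ ℝ F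
  have h2 : (A : (ℝ × F) →ₗ[ℝ] (ℝ × F)) = (LinearMap.transvection f (0, (A (1, 0)).2)) *
      (LinearMap.prodMap LinearMap.id (blk A : F →ₗ[ℝ] F)) := by
    refine LinearMap.ext fun p => ?_
    have h3 : A p = p.1 • A (1, 0) + A (0, p.2) := by
      rw [← map_smul, ← map_add]
      congr 1
      ext <;> simp
    show A p = _
    rw [h3, Module.End.mul_apply, LinearMap.transvection.apply]
    refine Prod.ext ?_ ?_
    · simp [f, h, h1]
    · simp [f, blk_apply, add_comm]
  have h4 : LinearMap.det (LinearMap.transvection f ((0, (A (1, 0)).2) : ℝ × F)) = 1 := by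
    rw [LinearMap.transvection.det]
    simp [f]
  show LinearMap.det (A : (ℝ × F) →ₗ[ℝ] (ℝ × F)) = LinearMap.det (blk A : F →ₗ[ℝ] F)
  rw [h2, map_mul, h4, one_mul, LinearMap.det_prodMap, LinearMap.det_id, one_mul]

end

end Pool.Agent.CSM
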