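import Pool.Agent.CSM.CAO
import Pool.Agent.CSM.CDB

/-!
CSM chunk C, module CTQ: the solid torus `T m` as quotient of `ℝ × E m`; smooth maps of `T m` and their lifts.
-/

open scoped Manifold ContDiff Topology
open Set

namespace Pool.Agent.CSM

/-- The covering `ℝ × E m → T m`. -/
def qT {m : ℕ} (v : ℝ × E m) : T m := mkT v.1 v.2

theorem qT_mk {m : ℕ} (θ : ℝ) (x : E m) : qT (θ, x) = mkT θ x := rfl

theorem continuous_qT {m : ℕ} : Continuous (qT : ℝ × E m → T m) := by
  have h : Continuous (fun v : ℝ × E m => (((v.1 : ℝ) : AddCircle (1 : ℝ)), v.2)) :=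
    ((AddCircle.continuous_mk' (1 : ℝ)).comp continuous_fst).prodMk continuous_snd
  exact h

theorem qT_surj {m : ℕ} (p : T m) : ∃ v : ℝ × E m, qT v = p := by
  obtain ⟨s, hs⟩ := QuotientAddGroup.mk_surjective (s := AddSubgroup.zmultiples (1 : ℝ)) p.1
  exact ⟨(s, p.2), Prod.ext hs rfl⟩

theorem qT_eq_iff {m : ℕ} {v w : ℝ × E m} : qT v = qT w ↔ ∃ k : ℤ, w = v + ((k : ℝ), 0) := by
  constructor
  · intro h
    have h1 : ((v.1 : ℝ) : AddCircle (1 : ℝ)) = w.1 := congrArg Prod.fst h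
    have h2 : v.2 = w.2 := congrArg (fun p : AddCircle (1 : ℝ) × E m => p.2) h
    have h3 : ((w.1 - v.1 : ℝ) : AddCircle (1 : ℝ)) = 0 := by
      rw [AddCircle.coe_sub, h1, sub_self]
    rw [AddCircle.coe_eq_zero_iff] at h3
    obtain ⟨k, hk⟩ := h3
    refine ⟨k, Prod.ext ?_ ?_⟩
    · have : (k : ℝ) = w.1 - v.1 := by simpa using hk
      simp [this]
    · simp [h2]
  · rintro ⟨k, rfl⟩
    refine Prod.ext ?_ ?_
    · show ((v.1 : ℝ) : AddCircle (1 : ℝ)) = ((v.1 + k : ℝ) : AddCircle (1 : ℝ))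
      have : ((k : ℝ) : AddCircle (1 : ℝ)) = 0 := by
        rw [AddCircle.coe_eq_zero_iff]
        exact ⟨k, by simp⟩
      rw [AddCircle.coe_add, this, add_zero]
    · show v.2 = (v + ((k : ℝ), 0)).2
      simp

theorem qT_add_int {m : ℕ} (v : ℝ × E m) (k : ℤ) : qT (v + ((k : ℝ), 0)) = qT v :=
  (qT_eq_iff.2 ⟨k, rfl⟩).symm

/-- The charts of the torus. -/
theorem chT_symm_apply {m : ℕ} (a : ℝ) (u : E (m + 1)) : (chT m a).symm u = qT ((consL m).symm u) := rfl

theorem chT_target {m : ℕ} (a : ℝ) (u : E (m + 1)) :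
    u ∈ (chT m a).target ↔ ((consL m).symm u).1 ∈ Ioo a (a + 1) := by
  have h : (chT m a).target = (consL m).symm ⁻¹' (Ioo a (a + 1) ×ˢ univ : Set (ℝ × E m)) := by
    rw [chT, OpenPartialHomeomorph.trans_target]
    simp
  rw [h]
  simp

theorem chT_apply {m : ℕ} {a : ℝ} {v : ℝ × E m} (h : v.1 ∈ Ioo a (a + 1)) :
    qT v ∈ (chT m a).source ∧ chT m a (qT v) = consL m v := by
  have h1 : consL m v ∈ (chT m a).target := by
    rw [chT_target, ContinuousLinearEquiv.symm_apply_apply]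
    exact h
  have h2 := (chT m a).map_target h1
  rw [chT_symm_apply, ContinuousLinearEquiv.symm_apply_apply] at h2
  refine ⟨h2, ?_⟩
  have h3 := (chT m a).right_inv h1
  rwa [chT_symm_apply, ContinuousLinearEquiv.symm_apply_apply] at h3

theorem qT_chT {m : ℕ} {a : ℝ} {p : T m} (h : p ∈ (chT m a).source) :
    qT ((consL m).symm (chT m a p)) = p := by
  have := (chT m a).left_inv h
  rwa [chT_symm_apply] at this

/-- The covering in the coordinates of `E (m+1)`. -/
noncomputable def qE (m : ℕ) (u : E (m + 1)) : T m := qT ((consL m).symm u)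

theorem continuous_qE (m : ℕ) : Continuous (qE m) := continuous_qT.comp (consL m).symm.continuous

theorem qE_consL {m : ℕ} (v : ℝ × E m) : qE m (consL m v) = qT v := by
  rw [qE, ContinuousLinearEquiv.symm_apply_apply]

/-- Every chart composed with the covering is locally a translation. -/
theorem chT_qE {m : ℕ} (b : ℝ) (u : E (m + 1)) (h : qE m u ∈ (chT m b).source) :
    ∃ c : E (m + 1), ∀ᶠ w in 𝓝 u, chT m b (qE m w) = w + c := by
  set v := (consL m).symm u with hv
  have h1 : qT ((consL m).symm (chT m b (qE m u))) = qT v := qT_chT h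
  obtain ⟨k, hk⟩ := qT_eq_iff.1 h1.symm
  have h2 : v.1 + k ∈ Ioo b (b + 1) := by
    have h3 := (chT_target b _).1 ((chT m b).map_source h)
    rw [hk] at h3
    simpa using h3
  refine ⟨consL m ((k : ℝ), 0), ?_⟩
  have h4 : ∀ᶠ w in 𝓝 u, ((consL m).symm w).1 + k ∈ Ioo b (b + 1) := by
    have hc : ContinuousAt (fun w => ((consL m).symm w).1 + (k : ℝ)) u := by fun_prop
    exact hc.eventually (isOpen_Ioo.mem_nhds h2)
  filter_upwards [h4] with w hw
  have h5 : ((consL m).symm w + ((k : ℝ), 0)).1 ∈ Ioo b (b + 1) := by simpa using hw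
  have h6 := (chT_apply h5).2
  rw [qT_add_int] at h6
  rw [qE, h6, map_add, ContinuousLinearEquiv.apply_symm_apply]

theorem pdAt_qE {m : ℕ} (u : E (m + 1)) : PDAt (m + 1) (qE m) u := by
  refine ⟨(continuous_qE m).continuousAt, ?_⟩
  rintro e he _ ⟨b, rfl⟩ _ hb
  rw [chartedSpaceSelf_atlas] at he
  subst he
  obtain ⟨c, hc⟩ := chT_qE b u hb
  have h1 : (chT m b ∘ qE m ∘ (OpenPartialHomeomorph.refl (E (m + 1))).symm) =ᶠ[𝓝 u] fun w => w + c := by
    filter_upwards [hc] with w hw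
    simpa using hw
  have h2 : (OpenPartialHomeomorph.refl (E (m + 1))) u = u := rfl
  rw [h2]
  refine ⟨ContDiffAt.congr_of_eventuallyEq (by fun_prop) h1, ?_⟩
  rw [h1.fderiv_eq, fderiv_add_const]
  have h3 : fderiv ℝ (fun w : E (m + 1) => w) u = ContinuousLinearMap.id ℝ _ := fderiv_fun_id
  rw [h3, det_id']
  exact one_pos

section

variable {m : ℕ} [HasGroupoid (T m) (orG (m + 1))] {X : Type*} [TopologicalSpace X]
  [ChartedSpace (E (m + 1)) X]

/-- Smoothness of a map defined on the torus is smoothness of its composition with the covering. -/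
theorem pdAt_qE_iff {F : T m → X} {u : E (m + 1)} :
    PDAt (m + 1) F (qE m u) ↔ PDAt (m + 1) (F ∘ qE m) u := by
  constructor
  · intro h
    exact h.comp (pdAt_qE u)
  · intro h
    set v := (consL m).symm u with hv
    set a : ℝ := v.1 - 1 / 2 with ha
    have hmem : v.1 ∈ Ioo a (a + 1) := by
      rw [ha]
      constructor <;> linarith
    obtain ⟨h1, h2⟩ := chT_apply (v := v) hmem
    have h3 : chT m a (qE m u) = u := by
      rw [qE, ← hv, h2, hv, ContinuousLinearEquiv.apply_symm_apply]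
    have h4 : PDAt (m + 1) (chT m a) (qE m u) := (pd_chart (mem_range_self a)).pdAt h1
    have h5 : PDAt (m + 1) ((F ∘ qE m) ∘ chT m a) (qE m u) := by
      refine PDAt.comp ?_ h4
      rw [h3]
      exact h
    refine h5.congr ?_
    filter_upwards [(chT m a).open_source.mem_nhds h1] with p hp
    show F p = F (qE m (chT m a p))
    rw [qE, qT_chT hp]

omit [HasGroupoid (T m) (orG (m + 1))] in
theorem pdAt_conj {g : ℝ × E m → ℝ × E m} {v : ℝ × E m} (hg : ContDiffAt ℝ ∞ g v)
    (hd : 0 < (fderiv ℝ g v).det) :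
    PDAt (m + 1) (fun u => consL m (g ((consL m).symm u))) (consL m v) := by
  rw [pdAt_model]
  have h0 : (consL m).symm (consL m v) = v := (consL m).symm_apply_apply v
  have h1 : ContDiffAt ℝ ∞ g ((consL m).symm (consL m v)) := by rw [h0]; exact hg
  refine ⟨(consL m).contDiff.contDiffAt.comp _ (h1.comp _ (consL m).symm.contDiff.contDiffAt), ?_⟩
  have h2 : HasFDerivAt (fun u => consL m (g ((consL m).symm u)))
      (((consL m : (ℝ × E m) →L[ℝ] E (m + 1)).comp (fderiv ℝ g v)).comp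
        ((consL m).symm : E (m + 1) →L[ℝ] (ℝ × E m))) (consL m v) := by
    have h3 : HasFDerivAt g (fderiv ℝ g v) ((consL m).symm (consL m v)) := by
      rw [h0]
      exact (hg.differentiableAt (by simp)).hasFDerivAt
    exact ((consL m : (ℝ × E m) →L[ℝ] E (m + 1)).hasFDerivAt.comp _
      (h3.comp _ ((consL m).symm : E (m + 1) →L[ℝ] (ℝ × E m)).hasFDerivAt))
  rw [h2.fderiv]
  have h4 : (((consL m : (ℝ × E m) →L[ℝ] E (m + 1)).comp (fderiv ℝ g v)).comp
        ((consL m).symm : E (m + 1) →L[ℝ] (ℝ × E m))).det = (fderiv ℝ g v).det :=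
    LinearMap.det_conj (fderiv ℝ g v : (ℝ × E m) →ₗ[ℝ] (ℝ × E m)) (consL m).toLinearEquiv
  rw [h4]
  exact hd

/-- A map of the torus with a smooth lift. -/
theorem pdAt_of_lift {P : T m → T m} {g : ℝ × E m → ℝ × E m} {v : ℝ × E m} (hg : ContDiffAt ℝ ∞ g v)
    (hd : 0 < (fderiv ℝ g v).det) (h : ∀ᶠ u in 𝓝 v, P (qT u) = qT (g u)) :
    PDAt (m + 1) P (qT v) := by
  rw [← qE_consL, pdAt_qE_iff]
  have h1 : PDAt (m + 1) (qE m ∘ fun u => consL m (g ((consL m).symm u))) (consL m v) :=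
    (pdAt_qE _).comp (pdAt_conj hg hd)
  refine h1.congr ?_
  have h2 : ContinuousAt (consL m).symm (consL m v) := (consL m).symm.continuous.continuousAt
  have h3 : ∀ᶠ u in 𝓝 ((consL m).symm (consL m v)), P (qT u) = qT (g u) := by
    rw [(consL m).symm_apply_apply]
    exact h
  filter_upwards [h2.eventually h3] with u hu
  show P (qE m u) = qE m (consL m (g ((consL m).symm u)))
  rw [qE_consL, qE, hu]

/-- Lifts of smooth maps. -/
theorem exists_lift {P : T m → T m} {v u₀ : ℝ × E m} (h : PDAt (m + 1) P (qT v)) (hu : qT u₀ = P (qT v)) :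
    ∃ g : ℝ × E m → ℝ × E m, ContDiffAt ℝ ∞ g v ∧ 0 < (fderiv ℝ g v).det ∧ g v = u₀ ∧
      ∀ᶠ u in 𝓝 v, P (qT u) = qT (g u) := by
  set a : ℝ := u₀.1 - 1 / 2 with ha
  have hmem : u₀.1 ∈ Ioo a (a + 1) := by
    rw [ha]
    constructor <;> linarith
  obtain ⟨h1, h2⟩ := chT_apply (v := u₀) hmem
  rw [hu] at h1 h2
  have h3 : PDAt (m + 1) (chT m a) (P (qT v)) := (pd_chart (mem_range_self a)).pdAt h1
  have h4 : PDAt (m + 1) P (qE m (consL m v)) := by rw [qE_consL]; exact h
  have h5 : PDAt (m + 1) (P ∘ qE m) (consL m v) := h4.comp (pdAt_qE _)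
  have h6 : PDAt (m + 1) (chT m a ∘ (P ∘ qE m)) (consL m v) := by
    refine PDAt.comp ?_ h5
    show PDAt (m + 1) (chT m a) (P (qE m (consL m v)))
    rw [qE_consL]
    exact h3
  rw [pdAt_model] at h6
  refine ⟨fun u => (consL m).symm (chT m a (P (qT u))), ?_, ?_, ?_, ?_⟩
  · have h7 : ContDiffAt ℝ ∞ (chT m a ∘ (P ∘ qE m)) (consL m v) := h6.1
    have h8 := (consL m).symm.contDiff.contDiffAt.comp v
      (h7.comp v (consL m).contDiff.contDiffAt)
    refine h8.congr_of_eventuallyEq (Filter.Eventually.of_forall fun u => ?_)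
    show _ = (consL m).symm (chT m a (P (qE m (consL m u))))
    rw [qE_consL]
  · have h7 : HasFDerivAt (chT m a ∘ (P ∘ qE m)) (fderiv ℝ (chT m a ∘ (P ∘ qE m)) (consL m v))
        (consL m v) := (h6.1.differentiableAt (by simp)).hasFDerivAt
    have h8 : HasFDerivAt (fun u => (consL m).symm (chT m a (P (qT u))))
        ((((consL m).symm : E (m + 1) →L[ℝ] (ℝ × E m)).comp
          (fderiv ℝ (chT m a ∘ (P ∘ qE m)) (consL m v))).comp
          (consL m : (ℝ × E m) →L[ℝ] E (m + 1))) v := by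
      have h9 := ((consL m).symm : E (m + 1) →L[ℝ] (ℝ × E m)).hasFDerivAt.comp v
        (h7.comp v (consL m : (ℝ × E m) →L[ℝ] E (m + 1)).hasFDerivAt)
      refine h9.congr_of_eventuallyEq (Filter.Eventually.of_forall fun u => ?_)
      show _ = (consL m).symm (chT m a (P (qE m (consL m u))))
      rw [qE_consL]
    rw [h8.fderiv]
    have h4 : ((((consL m).symm : E (m + 1) →L[ℝ] (ℝ × E m)).comp
          (fderiv ℝ (chT m a ∘ (P ∘ qE m)) (consL m v))).comp
          (consL m : (ℝ × E m) →L[ℝ] E (m + 1))).det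
          = (fderiv ℝ (chT m a ∘ (P ∘ qE m)) (consL m v)).det :=
      LinearMap.det_conj (fderiv ℝ (chT m a ∘ (P ∘ qE m)) (consL m v) : E (m + 1) →ₗ[ℝ] E (m + 1))
        (consL m).symm.toLinearEquiv
    rw [h4]
    exact h6.2
  · show (consL m).symm (chT m a (P (qT v))) = u₀
    rw [h2, ContinuousLinearEquiv.symm_apply_apply]
  · have h7 : ContinuousAt (fun u => P (qT u)) v :=
      ContinuousAt.comp h.1 continuous_qT.continuousAt
    filter_upwards [h7.eventually ((chT m a).open_source.mem_nhds h1)] with u hu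
    exact (qT_chT hu).symm

/-- Every equivariant diffeomorphism of `ℝ × E m` descends to the torus. -/
theorem homeo_of_lift {G : ℝ × E m → ℝ × E m} (hb : Function.Bijective G) (hG : ContDiff ℝ ∞ G)
    (hd : ∀ v, 0 < (fderiv ℝ G v).det) (hp : ∀ v, G (v + (1, 0)) = G v + (1, 0)) :
    ∃ D : T m ≃ₜ T m, (∀ v, D (qT v) = qT (G v)) ∧ PD (m + 1) D.toOpenPartialHomeomorph := by
  have hpn : ∀ (n : ℕ) v, G (v + ((n : ℝ), 0)) = G v + ((n : ℝ), 0) := by
    intro n
    induction n with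
    | zero =>
      intro v
      have : (((0 : ℕ) : ℝ), (0 : E m)) = 0 := by simp
      rw [this, add_zero, add_zero]
    | succ n ih =>
      intro v
      have h1 : (((n + 1 : ℕ) : ℝ), (0 : E m)) = ((n : ℝ), 0) + (1, 0) := by
        ext <;> simp
      rw [h1, ← add_assoc, hp, ih, add_assoc]
  have hpz : ∀ (k : ℤ) v, G (v + ((k : ℝ), 0)) = G v + ((k : ℝ), 0) := by
    intro k v
    obtain ⟨n, hn | hn⟩ := k.eq_nat_or_neg
    · rw [hn]
      exact_mod_cast hpn n v
    · rw [hn]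
      have h1 := hpn n (v + (((-(n : ℤ) : ℤ) : ℝ), 0))
      have h2 : v + (((-(n : ℤ) : ℤ) : ℝ), (0 : E m)) + ((n : ℝ), 0) = v := by
        ext <;> simp
      rw [h2] at h1
      rw [h1]
      ext <;> simp
  have hwd : ∀ v w : ℝ × E m, qT v = qT w → qT (G v) = qT (G w) := by
    intro v w h
    obtain ⟨k, rfl⟩ := qT_eq_iff.1 h
    rw [hpz, qT_add_int]
  choose rep hrep using (qT_surj (m := m))
  have hf : ∀ v, qT (G (rep (qT v))) = qT (G v) := fun v => hwd _ _ (hrep _)
  have hne : Nonempty (T m) := ⟨qT 0⟩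
  have hbij : Function.Bijective (fun p : T m => qT (G (rep p))) := by
    constructor
    · intro p p' h
      obtain ⟨k, hk⟩ := qT_eq_iff.1 h
      rw [← hpz] at hk
      have := hb.1 hk
      rw [← hrep p, ← hrep p', this, qT_add_int]
    · intro p
      obtain ⟨u, rfl⟩ := qT_surj p
      obtain ⟨v, rfl⟩ := hb.2 u
      exact ⟨qT v, hf v⟩
  have hpd : ∀ p, PDAt (m + 1) (fun p : T m => qT (G (rep p))) p := by
    intro p
    obtain ⟨v, rfl⟩ := qT_surj p
    exact pdAt_of_lift hG.contDiffAt (hd v) (Filter.Eventually.of_forall fun u => hf u)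
  obtain ⟨D, h1, h2⟩ := exists_homeo_of_bij hbij hpd
  exact ⟨D, fun v => by rw [h1, hf], h2⟩

end

end Pool.Agent.CSM
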