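import Pool.Agent.CSM.CAO
import Pool.Agent.CSM.CTQ

/-!
C6F. A map of the solid torus which is a local PD near the core and injective on the core is a tube near the core.
-/

open scoped Manifold ContDiff Topology
open Set

namespace Pool.Agent.CSM

variable {m : ℕ} {X : Type*} [TopologicalSpace X] [ChartedSpace (E (m + 1)) X]
  [HasGroupoid X (orG (m + 1))] [T2Space X] [HasGroupoid (T m) (orG (m + 1))]

theorem tube_of_local {f : ℝ → E m → X} (hper : ∀ s x, f (s + 1) x = f s x)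
    (hloc : ∀ s₀ : ℝ, ∃ Φ : OPH (E (m + 1)) X, PD (m + 1) Φ ∧ ∃ δ > 0, ∀ (s : ℝ) (x : E m),
      |s - s₀| < δ → ‖x‖ < δ → consL m (s, x) ∈ Φ.source ∧ f s x = Φ (consL m (s, x)))
    (hinj : ∀ s t : ℝ, f s 0 = f t 0 → ∃ k : ℤ, t = s + k) :
    ∃ e : OPH (T m) X, PD (m + 1) e ∧ (∀ θ : ℝ, mkT θ 0 ∈ e.source) ∧
      ∃ δ > 0, ∀ (θ : ℝ) (x : E m), ‖x‖ < δ → e (mkT θ x) = f θ x := by
  set F : T m → X := fun p => Function.Periodic.lift (f := fun s => f s p.2)
    (fun s => hper s p.2) p.1 with hF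
  have hFq : ∀ v : ℝ × E m, F (qT v) = f v.1 v.2 := fun v => rfl
  -- local description near the core
  have hO : ∀ s₀ : ℝ, ∃ O : Set (T m), IsOpen O ∧ qT (s₀, 0) ∈ O ∧ InjOn F O ∧
      ∀ p ∈ O, PDAt (m + 1) F p := by
    intro s₀
    obtain ⟨Φ, hΦ, δ, hδ, hΦf⟩ := hloc s₀
    set a : ℝ := s₀ - 1 / 2 with ha
    set B : Set (E (m + 1)) := {u | |((consL m).symm u).1 - s₀| < δ} ∩ {u | ‖((consL m).symm u).2‖ < δ}
      with hB
    have hBo : IsOpen B := by
      have h1 : Continuous fun u : E (m + 1) => |((consL m).symm u).1 - s₀| := by fun_prop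
      have h2 : Continuous fun u : E (m + 1) => ‖((consL m).symm u).2‖ := by fun_prop
      exact (isOpen_lt h1 continuous_const).inter (isOpen_lt h2 continuous_const)
    set O : Set (T m) := (chT m a).source ∩ (chT m a) ⁻¹' B with hOdef
    have hOo : IsOpen O := (chT m a).isOpen_inter_preimage hBo
    have hch : chT m a ∈ atlas (E (m + 1)) (T m) := ⟨a, rfl⟩
    have key : ∀ p ∈ O, chT m a p ∈ Φ.source ∧ F p = Φ (chT m a p) := by
      rintro p ⟨hp1, hp2⟩
      set v := (consL m).symm (chT m a p) with hv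
      have h1 : qT v = p := qT_chT hp1
      have h2 := hΦf v.1 v.2 hp2.1 hp2.2
      have h3 : consL m (v.1, v.2) = chT m a p := (consL m).apply_symm_apply (chT m a p)
      rw [h3] at h2
      refine ⟨h2.1, ?_⟩
      rw [← h1, hFq, h2.2, h1]
    refine ⟨O, hOo, ?_, ?_, ?_⟩
    · have h1 := chT_apply (m := m) (a := a) (v := (s₀, 0)) (by
        simp only [ha]
        constructor <;> linarith)
      refine ⟨h1.1, ?_⟩
      rw [mem_preimage, h1.2, hB]
      constructor
      · change |((consL m).symm (consL m (s₀, 0))).1 - s₀| < δ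
        rw [(consL m).symm_apply_apply]
        simpa using hδ
      · change ‖((consL m).symm (consL m (s₀, 0))).2‖ < δ
        rw [(consL m).symm_apply_apply]
        simpa using hδ
    · intro p hp p' hp' hpp
      rw [(key p hp).2, (key p' hp').2] at hpp
      have h1 := Φ.injOn (key p hp).1 (key p' hp').1 hpp
      exact (chT m a).injOn hp.1 hp'.1 h1
    · intro p hp
      have h1 : PDAt (m + 1) (Φ ∘ chT m a) p :=
        (hΦ.pdAt (key p hp).1).comp ((pd_chart hch).pdAt hp.1)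
      refine h1.congr ?_
      filter_upwards [hOo.mem_nhds hp] with y hy
      exact (key y hy).2
  -- the core
  set K : Set (T m) := {p | p.2 = 0} with hK
  have hKc : IsCompact K := by
    have h1 : IsCompact ((univ : Set (AddCircle (1 : ℝ))) ×ˢ ({0} : Set (E m))) :=
      isCompact_univ.prod isCompact_singleton
    have h2 : K = ((univ : Set (AddCircle (1 : ℝ))) ×ˢ ({0} : Set (E m)) : Set (AddCircle (1 : ℝ) × E m)) := by
      ext p
      constructor
      · intro hp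
        exact ⟨mem_univ _, hp⟩
      · intro hp
        exact hp.2
    rw [h2]
    exact h1
  have hKq : ∀ p ∈ K, ∃ s : ℝ, qT (s, 0) = p := by
    intro p hp
    obtain ⟨v, hv⟩ := qT_surj p
    refine ⟨v.1, ?_⟩
    have h1 : v.2 = 0 := by
      have h2 : (qT v).2 = v.2 := rfl
      rw [← h2, hv]
      exact hp
    rw [← hv, ← h1]
  have hFK : InjOn F K := by
    intro p hp p' hp' h
    obtain ⟨s, rfl⟩ := hKq p hp
    obtain ⟨t, rfl⟩ := hKq p' hp'
    rw [hFq, hFq] at h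
    obtain ⟨k, hk⟩ := hinj s t h
    rw [qT_eq_iff]
    refine ⟨k, ?_⟩
    rw [hk]
    simp
  have hFc : ∀ p ∈ K, ContinuousAt F p := by
    intro p hp
    obtain ⟨s, rfl⟩ := hKq p hp
    obtain ⟨O, -, h1, -, h2⟩ := hO s
    exact (h2 _ h1).1
  have hFl : ∀ p ∈ K, ∃ u ∈ 𝓝 p, InjOn F u := by
    intro p hp
    obtain ⟨s, rfl⟩ := hKq p hp
    obtain ⟨O, h0, h1, h2, -⟩ := hO s
    exact ⟨O, h0.mem_nhds h1, h2⟩
  obtain ⟨t, ht, hti⟩ := hFK.exists_mem_nhdsSet hKc hFc hFl
  obtain ⟨t', ht'o, hKt', ht't⟩ := mem_nhdsSet_iff_exists.1 ht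
  set U : Set (T m) := interior {p | PDAt (m + 1) F p} with hU
  have hKU : K ⊆ U := by
    intro p hp
    obtain ⟨s, rfl⟩ := hKq p hp
    obtain ⟨O, h0, h1, -, h2⟩ := hO s
    exact mem_interior.2 ⟨O, fun y hy => h2 y hy, h0, h1⟩
  have hWo : IsOpen (t' ∩ U) := ht'o.inter isOpen_interior
  -- a uniform neighbourhood
  obtain ⟨δ, hδ, hV⟩ : ∃ δ > 0, {p : T m | ‖p.2‖ < δ} ⊆ t' ∩ U := by
    have h1 : (univ : Set (AddCircle (1 : ℝ))) ×ˢ ({0} : Set (E m)) ⊆
        (t' ∩ U : Set (AddCircle (1 : ℝ) × E m)) := by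
      rintro p ⟨-, hp⟩
      exact ⟨hKt' hp, hKU hp⟩
    obtain ⟨u, v, hu, hv, hsu, hv0, huv⟩ := generalized_tube_lemma isCompact_univ
      (isCompact_singleton (x := (0 : E m))) hWo h1
    obtain ⟨δ, hδ, hb⟩ := Metric.isOpen_iff.1 hv 0 (hv0 rfl)
    refine ⟨δ, hδ, fun p hp => huv ⟨hsu (mem_univ _), hb ?_⟩⟩
    rw [Metric.mem_ball, dist_zero_right]
    exact hp
  have hVo : IsOpen {p : T m | ‖p.2‖ < δ} := by
    have h1 : Continuous fun p : AddCircle (1 : ℝ) × E m => ‖p.2‖ := by fun_prop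
    exact isOpen_lt h1 continuous_const
  have : Nonempty (T m) := ⟨mkT 0 0⟩
  have hUs : ∀ p ∈ U, PDAt (m + 1) F p := by
    intro p hp
    have h1 : p ∈ {p | PDAt (m + 1) F p} := interior_subset hp
    exact h1
  obtain ⟨e, he, hs, -, hef⟩ := exists_oph (n := m + 1) (f := F) hVo
    (hti.mono fun p hp => ht't (hV hp).1) (fun p hp => hUs p (hV hp).2)
  refine ⟨e, he, ?_, δ, hδ, ?_⟩
  · intro θ
    rw [hs]
    change ‖(0 : E m)‖ < δ
    rw [norm_zero]
    exact hδ
  · intro θ x hx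
    rw [hef]
    exact hFq (θ, x)

end Pool.Agent.CSM
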