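import Pool.Agent.CSM.C6E
import Pool.Agent.CSM.C6F

/-!
C6G. Existence of tubes, up to shrinking (combine with `tube_shrink` (C4) to get `exists_tube` (C6)).
-/

open scoped Manifold ContDiff Topology
open Set

namespace Pool.Agent.CSM

variable {m : ℕ} {X : Type*} [TopologicalSpace X] [ChartedSpace (E (m + 1)) X]
  [HasGroupoid X (orG (m + 1))] [T2Space X] [HasGroupoid (T m) (orG (m + 1))]

theorem exists_tube_near (hm : 1 ≤ m) {c : ℝ → X} (hc : Emb (m + 1) c) :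
    ∃ e : OPH (T m) X, PD (m + 1) e ∧ (∀ θ : ℝ, mkT θ 0 ∈ e.source) ∧
      ∀ θ : ℝ, e (mkT θ 0) = c θ := by
  obtain ⟨f, h1, h2, h3⟩ := patched_map hm hc.reg hc.per
  obtain ⟨e, he, hs, δ, hδ, hf⟩ := tube_of_local h1 h3 (fun s t hst => by
    rw [h2, h2] at hst
    exact hc.inj s t hst)
  exact ⟨e, he, hs, fun θ => by rw [hf θ 0 (by simpa using hδ), h2]⟩

/-- (C6) from (C4). -/
theorem exists_tube_of_shrink (hm : 1 ≤ m)
    (C4 : ∀ {e : OPH (T m) X}, PD (m + 1) e → (∀ θ : ℝ, mkT θ 0 ∈ e.source) → ∀ {O : Set X},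
      IsOpen O → (∀ θ : ℝ, e (mkT θ 0) ∈ O) →
      ∃ e' : OPH (T m) X, PD (m + 1) e' ∧ e'.source = univ ∧ e'.target ⊆ O ∧
        e'.target ⊆ e.target ∧ ∃ δ > 0, ∀ (θ : ℝ) (x : E m), ‖x‖ < δ →
          e' (mkT θ x) = e (mkT θ x))
    {c : ℝ → X} (hc : Emb (m + 1) c) {O : Set X} (hO : IsOpen O) (hcO : ∀ t, c t ∈ O) :
    ∃ e : OPH (T m) X, PD (m + 1) e ∧ e.source = univ ∧ e.target ⊆ O ∧
      ∀ θ : ℝ, e (mkT θ 0) = c θ := by
  obtain ⟨e, he, hs, h0⟩ := exists_tube_near hm hc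
  obtain ⟨e', h1, h2, h3, -, δ, hδ, h4⟩ := C4 he hs hO (fun θ => by rw [h0]; exact hcO θ)
  exact ⟨e', h1, h2, h3, fun θ => by rw [h4 θ 0 (by simpa using hδ), h0]⟩

end Pool.Agent.CSM
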