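import Pool.Agent.CSM.CFin
import Pool.Agent.CSM.C6G

/-!
Chunk C: existence of tubes (C6), final statement.
-/

open scoped Manifold ContDiff Topology
open Set

namespace Pool.Agent.CSM

variable {m : ℕ} {X : Type*} [TopologicalSpace X] [ChartedSpace (E (m + 1)) X] [HasGroupoid X (orG (m + 1))]
  [T2Space X]

/-- (C6) Existence of tubes. -/
theorem exists_tube (hm : 1 ≤ m) {c : ℝ → X} (hc : Emb (m + 1) c) {O : Set X} (hO : IsOpen O)
    (hcO : ∀ t, c t ∈ O) :
    ∃ e : OPH (T m) X, PD (m + 1) e ∧ e.source = univ ∧ e.target ⊆ O ∧ ∀ θ : ℝ, e (mkT θ 0) = c θ :=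
  exists_tube_of_shrink hm (fun he hs _ hO hc => tube_shrink he hs hO hc) hc hO hcO

end Pool.Agent.CSM
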