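import Pool.Agent.CSM.BEmb
import Pool.Agent.CSM.BIso
import Pool.Agent.CSM.CTub

/-!
# Chunk B, final statement (B2): isotopy of embedded circles
-/

open scoped Manifold ContDiff Topology
open Set

namespace Pool.Agent.CSM

/-- (B2) Freely homotopic embedded circles in the complement of a thin closed set are moved into each other by an
orientation preserving diffeomorphism which fixes the thin set pointwise. -/
theorem circle_isotopy {n : ℕ} {X : Type*} [TopologicalSpace X] [ChartedSpace (E n) X] [HasGroupoid X (orG n)]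
    [T2Space X] (hn : 4 ≤ n) {L : Set X} (hL : IsClosed L) (hLt : Thin n L) {c c' : ℝ → X}
    (hc : Emb n c) (hc' : Emb n c') (hcL : ∀ t, c t ∉ L) (hcL' : ∀ t, c' t ∉ L) (h : FreeHtpy univ c c') :
    ∃ D : X ≃ₜ X, PD n D.toOpenPartialHomeomorph ∧ (∀ x ∈ L, D x = x) ∧ ∀ t, D (c t) = c' t := by
  obtain ⟨m, rfl⟩ : ∃ m, n = m + 1 := ⟨n - 1, by omega⟩
  exact circle_isotopy_of_tube (by omega) (fun c O hc hO hcO => exists_tube (by omega) hc hO hcO) hL hLt hc hc'
    hcL hcL' h

end Pool.Agent.CSM
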