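import Pool.Agent.CSM.DOne

/-!
Project CSM, chunk D, module DTwo: the sphere is simply connected, (D2).
-/

open scoped Topology
open Set

namespace Pool.Agent.CSM.D

theorem trivHol_sphere {n : ℕ} (hn : 2 ≤ n) : TrivHol (univ : Set (Metric.sphere (0 : E (n + 1)) 1)) := by
  have hf : Fact (Module.finrank ℝ (E (n + 1)) = n + 1) := ⟨by simp⟩
  set v : Metric.sphere (0 : E (n + 1)) 1 := ⟨EuclideanSpace.single (0 : Fin (n + 1)) (1 : ℝ), by simp⟩ with hv
  have hvv : v ≠ -v := by
    intro h
    have h1 := congrArg (fun x : Metric.sphere (0 : E (n + 1)) 1 => (x : E (n + 1)) 0) h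
    simp [hv] at h1
    linarith
  have img : ∀ w : Metric.sphere (0 : E (n + 1)) 1, (stereographic' n w).symm '' univ = {w}ᶜ := by
    intro w
    rw [← stereographic'_source (n := n) w, ← stereographic'_target (n := n) w]
    exact (stereographic' n w).symm.image_source_eq_target
  have tr : ∀ w : Metric.sphere (0 : E (n + 1)) 1, TrivHol ({w}ᶜ : Set (Metric.sphere (0 : E (n + 1)) 1)) := by
    intro w
    rw [← img w]
    refine TrivHol.image (stereographic' n w).symm ?_ (trivHol_univ n)
    change univ ⊆ (stereographic' n w).target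
    rw [stereographic'_target]
  have hU : ({v}ᶜ : Set (Metric.sphere (0 : E (n + 1)) 1)) ∪ {-v}ᶜ = univ := by
    rw [eq_univ_iff_forall]
    intro x
    by_cases hx : x = v
    · right
      rw [hx]
      exact hvv
    · exact Or.inl hx
  have hI : ({v}ᶜ : Set (Metric.sphere (0 : E (n + 1)) 1)) ∩ {-v}ᶜ =
      (stereographic' n v).symm '' {stereographic' n v (-v)}ᶜ := by
    ext x
    constructor
    · rintro ⟨h1, h2⟩
      have hx : x ∈ (stereographic' n v).source := by rw [stereographic'_source]; exact h1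
      refine ⟨stereographic' n v x, fun h3 => h2 ?_, (stereographic' n v).left_inv hx⟩
      refine (stereographic' n v).injOn hx ?_ h3
      rw [stereographic'_source]
      exact fun h4 => hvv h4.symm
    · rintro ⟨y, hy, rfl⟩
      have hyt : y ∈ (stereographic' n v).target := by rw [stereographic'_target]; trivial
      have hx := (stereographic' n v).map_target hyt
      have hx' := hx
      rw [stereographic'_source] at hx'
      refine ⟨hx', fun h3 => hy ?_⟩
      rw [mem_singleton_iff] at h3 ⊢
      rw [← h3, (stereographic' n v).right_inv hyt]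
  rw [← hU]
  refine TrivHol.union isOpen_compl_singleton isOpen_compl_singleton ?_ (tr v) (tr (-v))
  rw [hI]
  refine IsPathConnected.image' ?_ ((stereographic' n v).symm.continuousOn.mono ?_)
  · apply isPathConnected_compl_singleton_of_one_lt_rank
    rw [← Module.finrank_eq_rank]
    simp only [finrank_euclideanSpace, Fintype.card_fin]
    exact_mod_cast hn
  · change _ ⊆ (stereographic' n v).target
    rw [stereographic'_target]
    exact subset_univ _

/-- (D2) A connected sum with such an `M` is not simply connected, in particular not a sphere. -/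
theorem not_sphere {n : ℕ} (hn : 3 ≤ n) {M N X : OMan n} {i : OPH (E n) M} {j : OPH (E n) N} {φ : OPH M X}
    {ψ : OPH N X} (h : IsCS n i j φ ψ) {c : ℝ → M} (hc : BSProp c) :
    IsEmpty (X ≃ₜ Metric.sphere (0 : E (n + 1)) 1) := by
  refine ⟨fun e => ?_⟩
  have := lpc M
  have := lpc N
  have := pcs M
  have := pcs N
  have tX : TrivHol (univ : Set X) := by
    have h1 := TrivHol.image e.symm.toOpenPartialHomeomorph (U := univ) (by simp) (trivHol_sphere (by omega))
    have h2 : (e.symm.toOpenPartialHomeomorph : Metric.sphere (0 : E (n + 1)) 1 → X) '' univ = univ := by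
      rw [image_univ]
      exact e.symm.surjective.range_eq
    rwa [h2] at h1
  have hne : ∃ v : E n, v ≠ 0 := by
    refine ⟨EuclideanSpace.single (⟨0, by omega⟩ : Fin n) (1 : ℝ), ?_⟩
    simp
  obtain ⟨v, hv⟩ := hne
  have offc : ∀ {Q : Type} [TopologicalSpace Q] (e : OPH (E n) Q), e.source = univ → e v ≠ e 0 := by
    intro Q _ e se h1
    exact hv (e.injOn (by rw [se]; trivial) (by rw [se]; trivial) h1)
  obtain ⟨u, hu⟩ := exists_isTaut (X := M) (i v)
  obtain ⟨uN, huN⟩ := exists_isTaut (X := N) (j v)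
  obtain ⟨r, hr1, -, -⟩ := cs_universal hn h (offc i h.si) (offc j h.sj) hu huN
  obtain ⟨f, hf⟩ := tX _ (r.map (Monoid.Coprod.lift (MonoidHom.id _) 1))
  have h1 : AgreeAt ({i 0}ᶜ : Set M) (i v) u (Hol.cob univ fun _ => (1 : FundamentalGroup M (i v))) := by
    intro d hd h0 h1
    have φc : ContinuousOn φ ({i 0}ᶜ : Set M) := by
      rw [← h.sφ]
      exact φ.continuousOn
    have h2 := hf (fun t => φ (d t)) (hd.comp φc (mapsTo_univ _ _))
    rw [Hol.map_apply, hr1 d hd h0 h1, Monoid.Coprod.lift_apply_inl, h0, h1, mul_inv_cancel] at h2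
    rw [Hol.cob_apply, mul_inv_cancel]
    exact h2
  have h2 := (ext_point hn h.si).uniq _ _ _ (i v) (offc i h.si) h1
  -- transfer to the point `c 0`
  obtain ⟨u0, hu0⟩ := exists_isTaut (X := M) (c 0)
  obtain ⟨-, -, a, ha, -, -⟩ := (bsProp_iff hu0).1 hc
  have h3 : AgreeAt (univ : Set M) (i v) u0 (Hol.cob univ fun _ => (1 : FundamentalGroup M (c 0))) := by
    intro d hd h0 h1
    rw [Hol.cob_apply, mul_inv_cancel, ← homOf_lcls u0 hd.1 h0 h1, ← hu.loop d hd.1 h0 h1, h2 d hd h0 h1,
      Hol.cob_apply, mul_inv_cancel, map_one]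
  obtain ⟨k, -, -, hk⟩ := exists_gauge_of_agree (isPathConnected_univ (X := M)) (subset_univ _) (subset_univ _)
    (b := i v) trivial u0 _ h3
  obtain ⟨d, hd, h0, h1', had⟩ := exists_lcls a
  have h4 := hk d (isP_of_continuous hd fun _ => trivial)
  rw [Hol.cob_apply, mul_inv_cancel, hu0.loop d hd.continuousOn h0 h1', ← had, h0, h1'] at h4
  apply ha
  have h5 : a = (k (c 0))⁻¹ * (k (c 0) * a * (k (c 0))⁻¹) * k (c 0) := by group
  rw [h5, ← h4]
  group

end Pool.Agent.CSM.D
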