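import Pool.Agent.CSM.DThree
import Pool.Agent.CSM.DTwo

/-!
Project CSM, chunk D: the results, statements as in the interface.
-/

open scoped Topology
open Set

namespace Pool.Agent.CSM

/-- (D1) A homeomorphism of connected sums moves `c` to `c` or into `N'`, up to free homotopy. -/
theorem dichotomy {n : ℕ} (hn : 3 ≤ n) {M N N' X X' : OMan n} {i : OPH (E n) M} {j : OPH (E n) N} {φ : OPH M X}
    {ψ : OPH N X} (h : IsCS n i j φ ψ) {i' : OPH (E n) M} {j' : OPH (E n) N'} {φ' : OPH M X'}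
    {ψ' : OPH N' X'} (h' : IsCS n i' j' φ' ψ') {c : ℝ → M} (hc : BSProp c) (hi : ∀ t, c t ≠ i 0)
    (hi' : ∀ t, c t ≠ i' 0) (F : X ≃ₜ X') :
    FreeHtpy univ (fun t => F (φ (c t))) (fun t => φ' (c t)) ∨
    ∃ k : ℝ → N', Continuous k ∧ (∀ t, k (t + 1) = k t) ∧ (∀ t, k t ≠ j' 0) ∧
      FreeHtpy univ (fun t => F (φ (c t))) (fun t => ψ' (k t)) :=
  D.dichotomy hn h h' hc hi hi' F

/-- (D2) A connected sum with such an `M` is not simply connected, in particular not a sphere. -/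
theorem not_sphere {n : ℕ} (hn : 3 ≤ n) {M N X : OMan n} {i : OPH (E n) M} {j : OPH (E n) N} {φ : OPH M X}
    {ψ : OPH N X} (h : IsCS n i j φ ψ) {c : ℝ → M} (hc : BSProp c) :
    IsEmpty (X ≃ₜ Metric.sphere (0 : E (n + 1)) 1) :=
  D.not_sphere hn h hc

/-- (D3) The relator loop in `(S^1 × S^m) # (S^1 × S^m)`. -/
theorem exists_relator {m : ℕ} (hm : 3 ≤ m) {Y₁ Y : OMan (m + 1)} {A B : OPH (T m) Y₁} (hY₁ : IsS1S m A B)
    {i j : OPH (E (m + 1)) Y₁} {φ ψ : OPH Y₁ Y} (h : IsCS (m + 1) i j φ ψ)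
    (hi : ∀ θ : ℝ, A (mkT θ 0) ∉ i.target) (hj : ∀ θ : ℝ, A (mkT θ 0) ∉ j.target) :
    ∃ k : ℝ → Y, Continuous k ∧ (∀ t, k (t + 1) = k t) ∧ (∀ s t, k s ≠ φ (A (mkT t 0))) ∧
      (∀ r : ℝ → Y, Emb (m + 1) r → FreeHtpy {y | ∀ t : ℝ, y ≠ φ (A (mkT t 0))} k r →
        (∀ (e : OPH (T m) Y), (∀ θ : ℝ, e (mkT θ 0) = r θ) → (∀ θ : ℝ, φ (A (mkT θ 0)) ∉ e.target) →
          ∀ (M : OMan (m + 1)) (χ : OPH Y M), Repl (m + 1) (circ m) e χ →
            BSProp fun t => χ (φ (A (mkT t 0)))) ∧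
        (∀ (e : OPH (T m) Y), (∀ θ : ℝ, e (mkT θ 0) = φ (A (mkT θ 0))) → (∀ θ : ℝ, r θ ∉ e.target) →
          ∀ (Y' : OMan (m + 1)) (χ : OPH Y Y'), Repl (m + 1) (circ m) e χ →
            FreeHtpy univ (fun t => χ (r t)) (fun t => χ (ψ (A (mkT t 0)))))) :=
  D.exists_relator hm hY₁ h hi hj

end Pool.Agent.CSM
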