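import Pool.Agent.CSM.FH

/-!
(F1) The model of surgery on a circle.
-/

open scoped Manifold ContDiff Topology
open Set

namespace Pool.Agent.CSM

theorem pd_kap (m : ℕ) : PD (m + 1) (kap m) := by
  rw [pd_iff]
  intro p hp
  obtain ⟨v, rfl⟩ := exists_piT p
  exact PDAt.of_piT (pdAt_kap_piT hp)

theorem abs_tcos_le (z : AddCircle (1 : ℝ)) : |tcos z| ≤ 1 := by
  have h := tcos_sq_add z
  rw [abs_le]
  constructor <;> nlinarith [sq_nonneg (tsin z)]

theorem abs_tsin_le (z : AddCircle (1 : ℝ)) : |tsin z| ≤ 1 := by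
  have h := tcos_sq_add z
  rw [abs_le]
  constructor <;> nlinarith [sq_nonneg (tcos z)]

theorem isCompact_ball_T (m : ℕ) (r : ℝ) : IsCompact {p : T m | ‖p.2‖ ≤ r} := by
  have h1 : IsCompact ((univ : Set (AddCircle (1 : ℝ))) ×ˢ Metric.closedBall (0 : E m) r) :=
    isCompact_univ.prod (isCompact_closedBall _ _)
  have h2 : {p : T m | ‖p.2‖ ≤ r} = ((univ : Set (AddCircle (1 : ℝ))) ×ˢ Metric.closedBall (0 : E m) r) := by
    ext p
    constructor
    · intro h
      exact ⟨trivial, mem_closedBall_zero_iff.2 h⟩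
    · intro h
      exact mem_closedBall_zero_iff.1 h.2
  rw [h2]
  exact h1

theorem isCompact_of_bd {m : ℕ} {K : Set (E (m + 1))} (h : IsClosed K) (a b : ℝ)
    (hK : ∀ v ∈ K, |v 0| ≤ a ∧ ‖tl m v‖ ≤ b) : IsCompact K := by
  refine Metric.isCompact_of_isClosed_isBounded h ?_
  refine (Metric.isBounded_closedBall (x := (0 : E (m + 1))) (r := Real.sqrt (a ^ 2 + b ^ 2))).subset ?_
  intro v hv
  obtain ⟨h1, h2⟩ := hK v hv
  rw [mem_closedBall_zero_iff]
  refine Real.le_sqrt_of_sq_le ?_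
  rw [norm_sq_consL]
  have h3 : v 0 ^ 2 ≤ a ^ 2 := sq_le_sq' (by linarith [(abs_le.1 h1).1]) (abs_le.1 h1).2
  have h4 : ‖tl m v‖ ^ 2 ≤ b ^ 2 := pow_le_pow_left₀ (norm_nonneg _) h2 2
  linarith

/-- (F1) The model of surgery on a circle. -/
noncomputable def circ (m : ℕ) : Mod (m + 1) (T m) (E (m + 1)) where
  κ := kap m
  C := {p : T m | p.2 = 0}
  C' := {v : E (m + 1) | v 0 = 0 ∧ ‖tl m v‖ = 1}
  pd := pd_kap m
  disj := by
    rw [Set.disjoint_left]
    intro p h1 h2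
    exact h1 h2
  disj' := by
    rw [Set.disjoint_left]
    intro p h1 h2
    exact h1.2 h2
  op := by
    have h : (kap m).source ∪ {p : T m | p.2 = 0} = univ := by
      ext p
      refine ⟨fun _ => trivial, fun _ => ?_⟩
      by_cases h : p.2 = 0
      · exact Or.inr h
      · exact Or.inl h
    rw [h]
    exact isOpen_univ
  op' := by
    have h : (kap m).target ∪ {v : E (m + 1) | v 0 = 0 ∧ ‖tl m v‖ = 1} = {v : E (m + 1) | tl m v ≠ 0} := by
      rw [kap_target, sdiff_union_self]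
      refine union_eq_left.2 ?_
      intro v hv h
      have h1 := hv.2
      rw [h, norm_zero] at h1
      exact one_ne_zero h1.symm
    rw [h]
    exact isOpen_ne_fun (continuous_tl m) continuous_const
  cC := by
    have h : {p : T m | p.2 = 0} = {p : T m | ‖p.2‖ ≤ 0} := by
      ext p
      exact norm_le_zero_iff.symm
    rw [h]
    exact isCompact_ball_T m 0
  cC' := by
    refine isCompact_of_bd (a := 0) (b := 1) ?_ ?_
    · exact (isClosed_eq (by fun_prop) continuous_const).inter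
        (isClosed_eq (continuous_tl m).norm continuous_const)
    · intro v hv
      exact ⟨by rw [hv.1, abs_zero], hv.2.le⟩
  prop := by
    refine ⟨{p : T m | ‖p.2‖ ≤ 1}, isCompact_ball_T m 1, ?_,
      {v : E (m + 1) | tl m v ≠ 0} ∩ {v | Real.log ‖tl m v‖ ^ 2 + v 0 ^ 2 < 1}, ?_, ?_, ?_, ?_⟩
    · intro p _
      by_cases h : p.2 = 0
      · exact Or.inr h
      · exact Or.inl h
    · have h1 : IsOpen {v : E (m + 1) | tl m v ≠ 0} := isOpen_ne_fun (continuous_tl m) continuous_const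
      have h2 : ContinuousOn (fun v : E (m + 1) => Real.log ‖tl m v‖ ^ 2 + v 0 ^ 2) {v : E (m + 1) | tl m v ≠ 0} := by
        refine ContinuousOn.add ?_ (by fun_prop)
        exact ((continuous_tl m).norm.continuousOn.log fun v hv => norm_ne_zero_iff.2 hv).pow 2
      exact h2.isOpen_inter_preimage h1 isOpen_Iio
    · rintro v ⟨h1, h2⟩
      refine ⟨?_, ?_⟩
      · intro h
        rw [h, norm_zero] at h2
        exact one_ne_zero h2.symm
      · change Real.log ‖tl m v‖ ^ 2 + v 0 ^ 2 < 1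
        rw [h1, h2, Real.log_one]
        norm_num
    · rintro v ⟨h1, h2⟩
      by_cases h : v 0 = 0 ∧ ‖tl m v‖ = 1
      · exact Or.inr h
      · exact Or.inl ⟨h1, h⟩
    · rintro _ ⟨v, ⟨⟨h1, h2⟩, h3⟩, rfl⟩
      have h4 : 0 < ‖tl m v‖ := norm_pos_iff.2 h1
      change ‖(Real.sqrt (Real.log ‖tl m v‖ ^ 2 + v 0 ^ 2) * ‖tl m v‖⁻¹) • tl m v‖ ≤ 1
      rw [norm_smul, Real.norm_of_nonneg (by positivity), mul_assoc, inv_mul_cancel₀ h4.ne', mul_one]
      exact Real.sqrt_le_one.2 (le_of_lt h2)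
  prop' := by
    refine ⟨{v : E (m + 1) | |v 0| ≤ 1 ∧ Real.exp (-1) ≤ ‖tl m v‖ ∧ ‖tl m v‖ ≤ Real.exp 1}, ?_, ?_,
      {p : T m | ‖p.2‖ < 1}, ?_, ?_, ?_, ?_⟩
    · refine isCompact_of_bd (a := 1) (b := Real.exp 1) ?_ ?_
      · have c0 : Continuous fun v : E (m + 1) => |v 0| := by fun_prop
        exact (isClosed_le c0 continuous_const).inter
          ((isClosed_le continuous_const (continuous_tl m).norm).inter
            (isClosed_le (continuous_tl m).norm continuous_const))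
      · intro v hv
        exact ⟨hv.1, hv.2.2⟩
    · rintro v ⟨h1, h2, h3⟩
      have h4 : tl m v ≠ 0 := norm_pos_iff.1 (lt_of_lt_of_le (Real.exp_pos _) h2)
      by_cases h : v 0 = 0 ∧ ‖tl m v‖ = 1
      · exact Or.inr h
      · exact Or.inl ⟨h4, h⟩
    · exact isOpen_lt (continuous_sndT m).norm continuous_const
    · intro p hp
      change ‖p.2‖ < 1
      rw [show p.2 = 0 from hp, norm_zero]
      exact one_pos
    · intro p _
      by_cases h : p.2 = 0
      · exact Or.inr h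
      · exact Or.inl h
    · rintro _ ⟨p, ⟨h1, h2⟩, rfl⟩
      have h3 : 0 < ‖p.2‖ := norm_pos_iff.2 h2
      have h1' : ‖p.2‖ < 1 := h1
      have h4 := abs_tcos_le p.1
      have h5 := abs_tsin_le p.1
      have h6 : ‖Real.exp (‖p.2‖ * tcos p.1) • ‖p.2‖⁻¹ • p.2‖ = Real.exp (‖p.2‖ * tcos p.1) := by
        rw [norm_smul, norm_smul, norm_inv, norm_norm, inv_mul_cancel₀ h3.ne', mul_one,
          Real.norm_of_nonneg (Real.exp_pos _).le]
      have h7 : |‖p.2‖ * tcos p.1| ≤ 1 := by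
        rw [abs_mul, abs_norm]
        nlinarith [abs_nonneg (tcos p.1)]
      have h8 := abs_le.1 h7
      change |(kap m p) 0| ≤ 1 ∧ Real.exp (-1) ≤ ‖tl m (kap m p)‖ ∧ ‖tl m (kap m p)‖ ≤ Real.exp 1
      rw [kap_apply, consL_zero, tl_consL, h6]
      refine ⟨?_, Real.exp_le_exp.2 h8.1, Real.exp_le_exp.2 h8.2⟩
      rw [abs_mul, abs_norm]
      nlinarith [abs_nonneg (tsin p.1)]

theorem circ_κ (m : ℕ) : (circ m).κ = kap m := rfl

theorem circ_C (m : ℕ) : (circ m).C = {p : T m | p.2 = 0} := rfl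

theorem circ_source (m : ℕ) : (circ m).κ.source = {p : T m | p.2 ≠ 0} := rfl

theorem circ_C' (m : ℕ) : (circ m).C' = {v : E (m + 1) | v 0 = 0 ∧ ‖tl m v‖ = 1} := rfl

theorem circ_target (m : ℕ) : (circ m).κ.target = {v : E (m + 1) | tl m v ≠ 0} \ (circ m).C' := rfl

theorem circ_apply (m : ℕ) (θ : ℝ) {x : E m} (_hx : x ≠ 0) :
    (circ m).κ (mkT θ x) = consL m (‖x‖ * Real.sin (2 * Real.pi * θ),
      Real.exp (‖x‖ * Real.cos (2 * Real.pi * θ)) • ‖x‖⁻¹ • x) := kap_mkT m θ x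

end Pool.Agent.CSM
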