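import Pool.Agent.CSM.FB

/-!
(F) The instance `instT (m) : HasGroupoid (T m) (orG (m + 1))` is proved in `FB.lean`; this file only re-exports it.
-/
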