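import Pool.Agent.CSM.GD
import Pool.Agent.CSM.InstT
import Pool.Agent.CSM.Circ

/-!
# Chunk G: connected sums (`exists_connSum`, in `GD`) and circle surgery exist
-/

open scoped Manifold ContDiff Topology
open Set

namespace Pool.Agent.CSM

/-- (G2) Circle surgery exists. -/
theorem exists_surg {m : ℕ} (hm : 2 ≤ m) (X : OMan (m + 1)) {e : OPH (T m) X} (he : PD (m + 1) e)
    (se : e.source = univ) : ∃ (X' : OMan (m + 1)) (φ : OPH X X'), Repl (m + 1) (circ m) e φ :=
  exists_surg_of hm (circ m) (circ_C m) (circ_source m) (circ_C' m) (circ_target m) X he se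

end Pool.Agent.CSM
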