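import Pool.Agent.CSM.FFin
import Pool.Agent.CSM.GFin
import Pool.Agent.CSM.BFin
import Pool.Agent.CSM.CTub
import Pool.Agent.CSM.DFin

/-!
All chunks of the project CSM: (B) embedded circles, (C) germs, discs and tubes, (D) fundamental groups, (F) explicit
maps, (G) gluing.
-/
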