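import Pool.Agent.CSM.CalcS

/-!
Assembly 1: surgery of a connected sum along a circle of one summand.
-/

open scoped Manifold ContDiff Topology
open Set

namespace Pool.Agent.CSM

/-- Every surgery along the circle `c` gives the standard sphere. -/
def SphProp {m : ℕ} (M : OMan (m + 1)) (c : ℝ → M) : Prop :=
  ∀ e : OPH (T m) M, PD (m + 1) e → e.source = univ → (∀ θ : ℝ, e (mkT θ 0) = c θ) →
    ∀ (M' : OMan (m + 1)) (χ : OPH M M'), Repl (m + 1) (circ m) e χ → IsSph (m + 1) M'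

theorem mkT_repr {m : ℕ} (p : T m) : ∃ θ : ℝ, p = mkT θ p.2 := by
  obtain ⟨θ, hθ⟩ := QuotientAddGroup.mk_surjective (s := AddSubgroup.zmultiples (1 : ℝ)) p.1
  exact ⟨θ, Prod.ext hθ.symm rfl⟩

theorem asm_map_core {m : ℕ} (τ : Twist m) (θ : ℝ) : τ.map (mkT θ 0) = mkT θ 0 := by
  show ((mkT θ (0 : E m)).1, _) = mkT θ 0
  refine Prod.ext rfl ?_
  show (Function.Periodic.lift τ.per (mkT θ (0 : E m)).1 : E m →L[ℝ] E m) (0 : E m) = 0
  exact map_zero _

theorem univ_of_circ {m : ℕ} : (circ m).κ.source ∪ (circ m).C = univ := by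
  rw [circ_source, circ_C, eq_univ_iff_forall]
  intro p
  by_cases h : p.2 = 0
  · exact Or.inr h
  · exact Or.inl h

theorem isOpen_snd_lt {m : ℕ} (δ : ℝ) : IsOpen {p : T m | ‖p.2‖ < δ} := by
  have h : Continuous fun p : AddCircle (1 : ℝ) × E m => ‖p.2‖ := by fun_prop
  exact isOpen_lt h continuous_const

theorem core_subset {m : ℕ} {δ : ℝ} (hδ : 0 < δ) : (circ m).C ⊆ {p : T m | ‖p.2‖ < δ} := by
  rw [circ_C]
  intro p hp
  have hp' : p.2 = 0 := hp
  show ‖p.2‖ < δ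
  rw [hp', norm_zero]
  exact hδ

/-- Changing the tube with the same core: the result is a surgery along a twist of the other tube. -/
theorem change_tube {m : ℕ} (hm : 1 ≤ m) {X X₁ : OMan (m + 1)} {e₀ e₁ : OPH (T m) X} (h₀ : PD (m + 1) e₀)
    (h₁ : PD (m + 1) e₁) (s₀ : e₀.source = univ) (s₁ : e₁.source = univ)
    (hc : ∀ θ : ℝ, e₀ (mkT θ 0) = e₁ (mkT θ 0)) {O : Set X} (hO : IsOpen O) (hcO : ∀ θ : ℝ, e₀ (mkT θ 0) ∈ O)
    {χ : OPH X X₁} (h : Repl (m + 1) (circ m) e₀ χ) :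
    ∃ (τ : Twist m) (t : T m ≃ₜ T m), (∀ p, t p = τ.map p) ∧ PD (m + 1) t.toOpenPartialHomeomorph ∧
      ∃ χ' : OPH X X₁, Repl (m + 1) (circ m) (t.toOpenPartialHomeomorph.trans e₁) χ' ∧ ∀ x, x ∉ O → χ' x = χ x := by
  obtain ⟨D, τ, hD, hDO, δ, hδ, hDe⟩ := tube_unique hm h₀ h₁ (fun θ => by rw [s₀]; trivial)
    (fun θ => by rw [s₁]; trivial) hc hO hcO
  obtain ⟨t, ht, tpd⟩ := exists_twist τ
  refine ⟨τ, t, ht, tpd, D.symm.toOpenPartialHomeomorph.trans χ, ?_, ?_⟩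
  · refine (h.map D hD).germ (tpd.trans h₁) ?_ (isOpen_snd_lt δ) (core_subset hδ) ?_
    · rw [univ_of_circ, OpenPartialHomeomorph.trans_source]
      simp [s₁]
    · intro p hp _
      obtain ⟨θ, hθ⟩ := mkT_repr p
      show e₁ (t p) = D (e₀ p)
      rw [ht, hθ]
      exact (hDe θ p.2 hp).symm
  · intro x hx
    show χ (D.symm x) = χ x
    have h1 := hDO x hx
    have h2 : D.symm x = x := by
      conv_lhs => rw [← h1]
      simp
    rw [h2]

/-- A small disc inside a given one, avoiding a compact set. -/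
theorem exists_small_disc {n : ℕ} {X : Type*} [TopologicalSpace X] [ChartedSpace (E n) X] [HasGroupoid X (orG n)]
    [T2Space X] {i : OPH (E n) X} (hi : PD n i) (si : i.source = univ) {K : Set X} (hK : IsCompact K)
    (h0 : i 0 ∉ K) : ∃ (i₁ : OPH (E n) X) (C : Set X), PD n i₁ ∧ i₁.source = univ ∧ IsClosed C ∧ i₁.target ⊆ C ∧
      C ⊆ i.target ∧ Disjoint C K ∧ ∃ ε > 0, ∀ v, ‖v‖ < ε → i₁ v = i v := by
  have hcont : Continuous i := by
    rw [← continuousOn_univ, ← si]; exact i.continuousOn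
  have hU : IsOpen (i ⁻¹' Kᶜ) := hK.isClosed.isOpen_compl.preimage hcont
  obtain ⟨δ, hδ, hδK⟩ := Metric.nhds_basis_closedBall.mem_iff.1 (hU.mem_nhds h0)
  obtain ⟨s, spd, ss, st, sid, -⟩ := exists_radial n hδ
  refine ⟨s.trans i, i '' Metric.closedBall 0 δ, spd.trans hi, ?_, ?_, ?_, ?_, ?_, δ / 2, by linarith, ?_⟩
  · rw [OpenPartialHomeomorph.trans_source, ss, si]; simp
  · exact ((isCompact_closedBall (0 : E n) δ).image hcont).isClosed
  · intro y hy
    have h1 := (s.trans i).map_target hy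
    have h2 := (s.trans i).right_inv hy
    rw [← h2]
    refine ⟨s ((s.trans i).symm y), ?_, rfl⟩
    have h3 : s ((s.trans i).symm y) ∈ s.target := s.map_source (by rw [ss]; trivial)
    rw [st] at h3
    exact Metric.ball_subset_closedBall h3
  · rintro _ ⟨v, -, rfl⟩
    exact i.map_source (by rw [si]; trivial)
  · rw [disjoint_left]
    rintro _ ⟨v, hv, rfl⟩ hK'
    exact hδK hv hK'
  · intro v hv
    show i (s v) = i v
    rw [sid v hv.le]

/-- Surgery of `X = M # N` along a circle of `M` all of whose surgeries are spheres gives `N`. -/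
theorem surg_summand {m : ℕ} (hm : 2 ≤ m) {M N X : OMan (m + 1)} {i : OPH (E (m + 1)) M} {j : OPH (E (m + 1)) N}
    {φ : OPH M X} {ψ : OPH N X} (h : IsCS (m + 1) i j φ ψ) {c : ℝ → M} (hc : Emb (m + 1) c)
    (hci : ∀ t, c t ≠ i 0) (hS : SphProp M c) {e : OPH (T m) X} (he : PD (m + 1) e) (se : e.source = univ)
    (hcore : ∀ θ : ℝ, e (mkT θ 0) = φ (c θ)) {X' : OMan (m + 1)} {χ : OPH X X'}
    (hR : Repl (m + 1) (circ m) e χ) : X'.Iso N := by
  obtain ⟨i₁, C, pi₁, si₁, hC, hiC, hCi, hCK, ε, hε, hie⟩ := exists_small_disc h.pdi h.si hc.isCompact_range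
    (by rintro ⟨t, ht⟩; exact hci t ht)
  obtain ⟨ψ₁, h₁, -⟩ := h.germ (by omega) pi₁ si₁ hε hie
  have hCc : ∀ t, c t ∈ Cᶜ := fun t ht => disjoint_left.1 hCK ht ⟨t, rfl⟩
  obtain ⟨e₀, pe₀, se₀, te₀, ce₀⟩ := exists_tube (by omega : 1 ≤ m) hc hC.isOpen_compl hCc
  have mφ : ∀ p : T m, e₀ p ∈ φ.source := by
    intro p
    rw [h₁.sφ]
    intro h2
    have h3 : e₀ p ∈ Cᶜ := te₀ (e₀.map_source (by rw [se₀]; trivial))
    rw [show e₀ p = i₁ 0 from h2] at h3
    exact h3 (hiC (i₁.map_source (by rw [si₁]; trivial)))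
  have sE : (e₀.trans φ).source = univ := by
    rw [OpenPartialHomeomorph.trans_source, se₀, univ_inter, eq_univ_iff_forall]
    exact mφ
  obtain ⟨τ, t, ht, tpd, χ', hR', -⟩ := change_tube (by omega : 1 ≤ m) he (pe₀.trans h₁.pdφ) se sE
    (fun θ => by
      rw [hcore θ]
      show φ (c θ) = φ (e₀ (mkT θ 0))
      rw [ce₀]) isOpen_univ (fun _ => trivial) hR
  have pe₂ : PD (m + 1) (t.toOpenPartialHomeomorph.trans e₀) := tpd.trans pe₀
  have se₂ : (t.toOpenPartialHomeomorph.trans e₀).source = univ := by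
    rw [OpenPartialHomeomorph.trans_source]; simp [se₀]
  obtain ⟨M', χ₁, hM'⟩ := exists_surg hm M pe₂ se₂
  have hSph : IsSph (m + 1) M' := by
    refine hS _ pe₂ se₂ (fun θ => ?_) M' χ₁ hM'
    show e₀ (t (mkT θ 0)) = c θ
    rw [ht, asm_map_core, ce₀]
  rw [← OpenPartialHomeomorph.trans_assoc] at hR'
  have hdis : Disjoint (t.toOpenPartialHomeomorph.trans e₀).target i₁.target := by
    rw [disjoint_left]
    intro y hy hy'
    have h2 : y ∈ e₀.target := by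
      rw [OpenPartialHomeomorph.trans_target] at hy
      exact hy.1
    exact te₀ h2 (hiC hy')
  obtain ⟨φ', h₂, -⟩ := h₁.repl hdis hM' hR'
  obtain ⟨D, hD, -⟩ := h₂.neutral (by omega) hSph
  exact (iso_iff.2 ⟨D, hD⟩ : N.Iso X').symm

/-- Surgery of `X = M # N` along a circle of `N` gives a connected sum of `M` and a surgery of `N`. -/
theorem surg_other {m : ℕ} (hm : 2 ≤ m) {M N X : OMan (m + 1)} {i : OPH (E (m + 1)) M} {j : OPH (E (m + 1)) N}
    {φ : OPH M X} {ψ : OPH N X} (h : IsCS (m + 1) i j φ ψ) {ρ : ℝ → N} (hρ : Emb (m + 1) ρ)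
    (hρj : ∀ t, ρ t ≠ j 0) {e : OPH (T m) X} (he : PD (m + 1) e) (se : e.source = univ)
    (hcore : ∀ θ : ℝ, e (mkT θ 0) = ψ (ρ θ)) {X' : OMan (m + 1)} {χ : OPH X X'}
    (hR : Repl (m + 1) (circ m) e χ) :
    ∃ (N₁ : OMan (m + 1)) (j₂ : OPH (E (m + 1)) N₁) (φ₂ : OPH M X') (ψ₂ : OPH N₁ X'),
      IsCS (m + 1) i j₂ φ₂ ψ₂ ∧ ∀ y, y ∉ i.target → φ₂ y = χ (φ y) := by
  obtain ⟨j₁, C, pj₁, sj₁, hC, hjC, hCj, hCK, ε, hε, hje⟩ := exists_small_disc h.pdj h.sj hρ.isCompact_range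
    (by rintro ⟨t, ht⟩; exact hρj t ht)
  obtain ⟨φ₁, h₁, hφ₁⟩ := h.symm.germ (by omega) pj₁ sj₁ hε hje
  have hCc : ∀ t, ρ t ∈ Cᶜ := fun t ht => disjoint_left.1 hCK ht ⟨t, rfl⟩
  have mρ : ∀ t, ρ t ∈ ψ.source := fun t => by
    rw [h.sψ]; exact hρj t
  have score : ∀ θ : ℝ, mkT θ 0 ∈ (e.trans ψ.symm).source := by
    intro θ
    rw [OpenPartialHomeomorph.trans_source, se]
    refine ⟨trivial, ?_⟩
    show e (mkT θ 0) ∈ ψ.target
    rw [hcore]; exact ψ.map_source (mρ θ)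
  have vcore : ∀ θ : ℝ, (e.trans ψ.symm) (mkT θ 0) = ρ θ := by
    intro θ
    show ψ.symm (e (mkT θ 0)) = ρ θ
    rw [hcore, ψ.left_inv (mρ θ)]
  obtain ⟨e₀, pe₀, se₀, te₀, te₀', δ, hδ, hde⟩ := tube_shrink (he.trans h.pdψ.symm) score hC.isOpen_compl
    (fun θ => by rw [vcore]; exact hCc θ)
  obtain ⟨N₁, χ₀, hN₁⟩ := exists_surg hm N pe₀ se₀
  have mψ : ∀ p : T m, e₀ p ∈ ψ.source := by
    intro p
    have h2 : e₀ p ∈ (e.trans ψ.symm).target := te₀' (e₀.map_source (by rw [se₀]; trivial))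
    rw [OpenPartialHomeomorph.trans_target] at h2
    exact h2.1
  have hcont : Continuous e := by
    rw [← continuousOn_univ, ← se]; exact e.continuousOn
  have hR₂ : Repl (m + 1) (circ m) (e₀.trans ψ) χ := by
    refine hR.germ (pe₀.trans h.pdψ) ?_ (W := {p : T m | ‖p.2‖ < δ} ∩ e ⁻¹' ψ.target) ?_ ?_ ?_
    · rw [univ_of_circ, OpenPartialHomeomorph.trans_source, se₀, univ_inter, eq_univ_iff_forall]
      exact mψ
    · exact (isOpen_snd_lt δ).inter (ψ.open_target.preimage hcont)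
    · intro p hp
      refine ⟨core_subset hδ hp, ?_⟩
      rw [circ_C] at hp
      have hp' : p.2 = 0 := hp
      obtain ⟨θ, hθ⟩ := mkT_repr p
      show e p ∈ ψ.target
      rw [hθ, hp', hcore]
      exact ψ.map_source (mρ θ)
    · intro p hp _
      obtain ⟨θ, hθ⟩ := mkT_repr p
      have h3 : e₀ p = (e.trans ψ.symm) p := by
        have h4 := hde θ p.2 hp.1
        rw [← hθ] at h4
        exact h4
      show ψ (e₀ p) = e p
      rw [h3]
      show ψ (ψ.symm (e p)) = e p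
      exact ψ.right_inv hp.2
  have hdis : Disjoint e₀.target j₁.target := by
    rw [disjoint_left]
    intro y hy hy'
    exact te₀ hy (hjC hy')
  obtain ⟨ψ₂, h₂, -⟩ := h₁.repl hdis hN₁ hR₂
  refine ⟨N₁, _, _, ψ₂, h₂.symm, fun y hy => ?_⟩
  show χ (φ₁ y) = χ (φ y)
  rw [hφ₁ y hy]

end Pool.Agent.CSM
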