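import Pool.Agent.CSM.Asm1

/-!
Assembly 2: cancellation.
-/

open scoped Manifold ContDiff Topology
open Set

namespace Pool.Agent.CSM

section

variable {m : ℕ} {M N N' X X' : OMan (m + 1)} {i : OPH (E (m + 1)) M} {j : OPH (E (m + 1)) N}
  {φ : OPH M X} {ψ : OPH N X} {i' : OPH (E (m + 1)) M} {j' : OPH (E (m + 1)) N'} {φ' : OPH M X'} {ψ' : OPH N' X'}
  {c : ℝ → M}

/-- The circle `c` of `M` seen in `M # N`. -/
theorem emb_phi (h : IsCS (m + 1) i j φ ψ) (hc : Emb (m + 1) c) (hci : ∀ t, c t ≠ i 0) :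
    Emb (m + 1) (fun t => φ (c t)) :=
  hc.comp h.pdφ fun t => by rw [h.sφ]; exact hci t

/-- Case A. -/
theorem caseA (hm : 3 ≤ m) (h : IsCS (m + 1) i j φ ψ) (h' : IsCS (m + 1) i' j' φ' ψ') (hc : Emb (m + 1) c)
    (hS : SphProp M c) (hci : ∀ t, c t ≠ i 0) (hci' : ∀ t, c t ≠ i' 0) (F : X ≃ₜ X')
    (hF : PD (m + 1) F.toOpenPartialHomeomorph)
    (hh : FreeHtpy univ (fun t => F (φ (c t))) (fun t => φ' (c t))) : N.Iso N' := by
  have e1 := emb_phi h hc hci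
  have e2 := emb_phi h' hc hci'
  have e3 : Emb (m + 1) (fun t => F (φ (c t))) := e1.comp hF fun t => trivial
  obtain ⟨D, hD, -, hDc⟩ := circle_isotopy (by omega) isClosed_empty (thin_empty (n := m + 1) (F (φ (c 0))))
    e3 e2 (fun _ h => h) (fun _ h => h) hh
  obtain ⟨e, pe, se, -, ce⟩ := exists_tube (by omega : 1 ≤ m) e1 isOpen_univ fun _ => trivial
  obtain ⟨Z, χ, hZ⟩ := exists_surg (by omega : 2 ≤ m) X pe se
  have z1 : Z.Iso N := surg_summand (by omega) h hc hci hS pe se ce hZ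
  have hZ' := (hZ.map F hF).map D hD
  have z2 : Z.Iso N' := by
    refine surg_summand (by omega) h' hc hci' hS ((pe.trans hF).trans hD) ?_ (fun θ => ?_) hZ'
    · rw [OpenPartialHomeomorph.trans_source, OpenPartialHomeomorph.trans_source]
      simp [se]
    · show D (F (e (mkT θ 0))) = φ' (c θ)
      rw [ce, hDc]
  exact z1.symm.trans z2

end

/-- Connected sums of the same (up to isomorphism) summands are isomorphic. -/
theorem ConnSum.unique {n : ℕ} (hn : 1 ≤ n) {M N N' X X' : OMan n} (hN : N.Iso N') (h : ConnSum M N X)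
    (h' : ConnSum M N' X') : X.Iso X' := by
  obtain ⟨i, j, φ, ψ, h⟩ := h
  obtain ⟨i', j', φ', ψ', h'⟩ := h'
  obtain ⟨f, hf⟩ := iso_iff.1 hN
  have h₁ := (h.symm.mapM f hf).symm
  obtain ⟨φ₂, ψ₂, h₂, -⟩ := h₁.change hn h'.pdi h'.si
  obtain ⟨ψ₃, φ₃, h₃, -⟩ := h₂.symm.change hn h'.pdj h'.sj
  obtain ⟨D, hD, -, -⟩ := h₃.symm.unique h'
  exact iso_iff.2 ⟨D, hD⟩

/-- Main theorem, conditional on the properties of the circle `c`. -/
theorem cancel {m : ℕ} (hm : 3 ≤ m) {M : OMan (m + 1)} {c : ℝ → M} (hc : Emb (m + 1) c) (hB : BSProp c)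
    (hS : SphProp M c) (hne : ∃ x, x ∉ range c) {N N' X X' : OMan (m + 1)} (hX : ConnSum M N X)
    (hX' : ConnSum M N' X') (hXX : X.Iso X') : N.Iso N' := by
  obtain ⟨x, hx⟩ := hne
  obtain ⟨i₀, pi₀, si₀, ti₀, ci₀⟩ := exists_disc (n := m + 1) (x := x) (O := (range c)ᶜ)
    hc.isCompact_range.isClosed.isOpen_compl hx
  have hci : ∀ t, c t ∉ i₀.target := fun t ht => ci₀ ht ⟨t, rfl⟩
  have hci0 : ∀ t, c t ≠ i₀ 0 := fun t ht => hci t (ht ▸ i₀.map_source (by rw [si₀]; trivial))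
  obtain ⟨i, j, φ₁, ψ₁, h₁⟩ := hX
  obtain ⟨i', j', φ₁', ψ₁', h₁'⟩ := hX'
  obtain ⟨φ, ψ, h, -⟩ := h₁.change (by omega) pi₀ si₀
  obtain ⟨φ', ψ', h', -⟩ := h₁'.change (by omega) pi₀ si₀
  obtain ⟨F, hF⟩ := iso_iff.1 hXX
  rcases dichotomy (by omega) h h' hB hci0 hci0 F with hA | ⟨k, kc, kp, kj, kh⟩
  · exact caseA hm h h' hc hS hci0 hci0 F hF hA
  -- the circle ν in N'
  obtain ⟨ν₀, eν₀, hν₀, hkν⟩ := exists_emb (n := m + 1) (by omega) (L := {j' 0}) (O := {j' 0}ᶜ)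
    (thin_singleton _) isOpen_compl_singleton kc kp (fun t ht => kj t ht)
  have mν : ∀ t, ν₀ t ∈ ψ'.source := fun t => by rw [h'.sψ]; exact hν₀ t
  have eν : Emb (m + 1) (fun t => ψ' (ν₀ t)) := eν₀.comp h'.pdψ mν
  have hFν : FreeHtpy univ (fun t => F (φ (c t))) (fun t => ψ' (ν₀ t)) := by
    refine kh.trans (hkν.map (f := ψ') ?_ (fun _ _ => trivial))
    rw [← h'.sψ]; exact ψ'.continuousOn
  have eφ := emb_phi h hc hci0
  have eφ' := emb_phi h' hc hci0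
  have eFφ : Emb (m + 1) (fun t => F (φ (c t))) := eφ.comp hF fun t => trivial
  obtain ⟨D₁, hD₁, -, hD₁c⟩ := circle_isotopy (by omega) isClosed_empty (thin_empty (n := m + 1) (F (φ (c 0))))
    eFφ eν (fun _ h => h) (fun _ h => h) hFν
  -- F₁ = D₁ ∘ F
  set F₁ : X ≃ₜ X' := F.trans D₁ with hF₁def
  have hF₁ : PD (m + 1) F₁.toOpenPartialHomeomorph := by
    refine (hF.trans hD₁).congr ?_ fun x _ => rfl
    simp
  have hF₁c : ∀ t, F₁ (φ (c t)) = ψ' (ν₀ t) := hD₁c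
  rcases dichotomy (by omega) h' h hB hci0 hci0 F₁.symm with hA | ⟨k₂, kc₂, kp₂, kj₂, kh₂⟩
  · exact (caseA hm h' h hc hS hci0 hci0 F₁.symm hF₁.symm hA).symm
  -- the circle ρ in N
  obtain ⟨ρ₀, eρ₀, hρ₀, hkρ⟩ := exists_emb (n := m + 1) (by omega) (L := {j 0}) (O := {j 0}ᶜ)
    (thin_singleton _) isOpen_compl_singleton kc₂ kp₂ (fun t ht => kj₂ t ht)
  have mρ : ∀ t, ρ₀ t ∈ ψ.source := fun t => by rw [h.sψ]; exact hρ₀ t
  have eρ : Emb (m + 1) (fun t => ψ (ρ₀ t)) := eρ₀.comp h.pdψ mρ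
  have hFρ : FreeHtpy univ (fun t => F₁.symm (φ' (c t))) (fun t => ψ (ρ₀ t)) := by
    refine kh₂.trans (hkρ.map (f := ψ) ?_ (fun _ _ => trivial))
    rw [← h.sψ]; exact ψ.continuousOn
  have eF₁ρ : Emb (m + 1) (fun t => F₁ (ψ (ρ₀ t))) := eρ.comp hF₁ fun t => trivial
  have hF₁ρ : FreeHtpy univ (fun t => F₁ (ψ (ρ₀ t))) (fun t => φ' (c t)) := by
    have h1 := hFρ.map (f := F₁) (O' := univ) F₁.continuous.continuousOn (fun _ _ => trivial)
    simp only [Homeomorph.apply_symm_apply] at h1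
    exact h1.symm
  -- disjointness
  have dis : ∀ {N X : OMan (m + 1)} {j : OPH (E (m + 1)) N} {φ : OPH M X} {ψ : OPH N X},
      IsCS (m + 1) i₀ j φ ψ → ∀ s y, y ∈ ψ.source → φ (c s) ≠ ψ y := by
    intro N X j φ ψ h s y hy he
    obtain ⟨v, -, e1, -⟩ := h.key (by rw [h.sφ]; exact hci0 s) hy he
    exact hci s (e1 ▸ i₀.map_source (by rw [si₀]; trivial))
  obtain ⟨D₂, hD₂, hD₂L, hD₂c⟩ := circle_isotopy (by omega) eν.isCompact_range.isClosed eν.thin eF₁ρ eφ'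
    (by
      rintro t ⟨s, hs⟩
      have hs' : ψ' (ν₀ s) = F₁ (ψ (ρ₀ t)) := hs
      rw [← hF₁c s] at hs'
      exact dis h s _ (mρ t) (F₁.injective hs'))
    (by
      rintro t ⟨s, hs⟩
      have hs' : ψ' (ν₀ s) = φ' (c t) := hs
      exact dis h' t _ (mν s) hs'.symm)
    hF₁ρ
  set G : X ≃ₜ X' := F₁.trans D₂ with hGdef
  have hG : PD (m + 1) G.toOpenPartialHomeomorph := by
    refine (hF₁.trans hD₂).congr ?_ fun x _ => rfl
    simp
  have hGc : ∀ t, G (φ (c t)) = ψ' (ν₀ t) := by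
    intro t
    show D₂ (F₁ (φ (c t))) = _
    rw [hF₁c]
    exact hD₂L _ ⟨t, rfl⟩
  have hGρ : ∀ t, G (ψ (ρ₀ t)) = φ' (c t) := hD₂c
  -- disjoint neighbourhoods of the two circles of X
  have hdisK : Disjoint (range fun t => φ (c t)) (range fun t => ψ (ρ₀ t)) := by
    rw [disjoint_left]
    rintro _ ⟨s, rfl⟩ ⟨t, ht⟩
    exact dis h s _ (mρ t) ht.symm
  obtain ⟨U, V, hU, hV, hcU, hρV, hUV⟩ := SeparatedNhds.of_isCompact_isCompact eφ.isCompact_range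
    eρ.isCompact_range hdisK
  obtain ⟨e, pe, se, te, ce⟩ := exists_tube (by omega : 1 ≤ m) eφ hU fun t => hcU ⟨t, rfl⟩
  obtain ⟨ε, pε, sε, tε, cε⟩ := exists_tube (by omega : 1 ≤ m) eρ hV fun t => hρV ⟨t, rfl⟩
  have hdis : Disjoint ε.target e.target := by
    rw [disjoint_left]
    intro y hy hy'
    exact disjoint_left.1 hUV (te hy') (tε hy)
  have sG : ∀ {e : OPH (T m) X}, e.source = univ → (e.trans G.toOpenPartialHomeomorph).source = univ := by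
    intro e he
    rw [OpenPartialHomeomorph.trans_source]; simp [he]
  -- the two surgeries of X
  obtain ⟨Z₁, χ₁, hZ₁⟩ := exists_surg (by omega : 2 ≤ m) X pε sε
  obtain ⟨Z₂, χ₂, hZ₂⟩ := exists_surg (by omega : 2 ≤ m) X pe se
  -- Z₂ = N, Z₁ = N'
  have z2 : Z₂.Iso N := surg_summand (by omega) h hc hci0 hS pe se ce hZ₂
  have z1 : Z₁.Iso N' := by
    refine surg_summand (by omega) h' hc hci0 hS (pε.trans hG) (sG sε) (fun θ => ?_) (hZ₁.map G hG)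
    show G (ε (mkT θ 0)) = φ' (c θ)
    rw [cε, hGρ]
  -- Z₁ = M # N₁, Z₂ = M # N₂
  obtain ⟨N₁, j₁, φ₃, ψ₃, h₃, hφ₃⟩ := surg_other (by omega) h eρ₀ (fun t => hρ₀ t) pε sε cε hZ₁
  obtain ⟨N₂, j₂, φ₄, ψ₄, h₄, hφ₄⟩ := surg_other (by omega) h' eν₀ (fun t => hν₀ t) (pe.trans hG) (sG se)
    (fun θ => by
      show G (e (mkT θ 0)) = ψ' (ν₀ θ)
      rw [ce, hGc]) (hZ₂.map G hG)
  -- the double surgery
  have me : ∀ p : T m, e p ∈ χ₁.source := by
    intro p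
    rw [hZ₁.sφ]
    rintro ⟨q, hq, hqe⟩
    exact disjoint_left.1 hdis (ε.map_source (by rw [sε]; trivial))
      (hqe ▸ e.map_source (by rw [se]; trivial))
  have mε : ∀ p : T m, ε p ∈ χ₂.source := by
    intro p
    rw [hZ₂.sφ]
    rintro ⟨q, hq, hqe⟩
    exact disjoint_left.1 hdis (ε.map_source (by rw [sε]; trivial))
      (hqe ▸ e.map_source (by rw [se]; trivial))
  have se₁ : (e.trans χ₁).source = univ := by
    rw [OpenPartialHomeomorph.trans_source, se, univ_inter, eq_univ_iff_forall]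
    exact me
  have sε₂ : (ε.trans χ₂).source = univ := by
    rw [OpenPartialHomeomorph.trans_source, sε, univ_inter, eq_univ_iff_forall]
    exact mε
  obtain ⟨Z, χ₁₂, hZ⟩ := exists_surg (by omega : 2 ≤ m) Z₁ (pe.trans hZ₁.pdφ) se₁
  obtain ⟨χ₂₁, hZ', -⟩ := hZ₁.comm hdis hZ₂ hZ
  have z3 : Z.Iso N₁ := by
    refine surg_summand (by omega) h₃ hc hci0 hS (pe.trans hZ₁.pdφ) se₁ (fun θ => ?_) hZ
    show χ₁ (e (mkT θ 0)) = φ₃ (c θ)
    rw [ce, hφ₃ _ (hci θ)]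
  have z4 : Z.Iso N₂ := by
    refine surg_summand (by omega) h₄ hc hci0 hS (pε.trans hZ₂.pdφ) sε₂ (fun θ => ?_) hZ'
    rw [hφ₄ _ (hci θ)]
    show χ₂ (ε (mkT θ 0)) = χ₂ (G.symm (φ' (c θ)))
    rw [cε, ← hGρ, Homeomorph.symm_apply_apply]
  have h12 : N₁.Iso N₂ := z3.symm.trans z4
  have c1 : ConnSum M N₁ Z₁ := ⟨_, _, _, _, h₃⟩
  have c2 : ConnSum M N₂ Z₂ := ⟨_, _, _, _, h₄⟩
  have z5 : Z₁.Iso Z₂ := ConnSum.unique (by omega) h12 c1 c2
  exact (z2.symm.trans z5.symm).trans z1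

end Pool.Agent.CSM
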