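import Pool.Agent.CSM.Asm2

/-!
Assembly 3: construction of `M`; all surgeries along `c` are spheres.
-/

open scoped Manifold ContDiff Topology
open Set

namespace Pool.Agent.CSM

theorem src_homeo {Q X Y : Type*} [TopologicalSpace Q] [TopologicalSpace X] [TopologicalSpace Y] {e : OPH Q X}
    (h : e.source = univ) (D : X ≃ₜ Y) : (e.trans D.toOpenPartialHomeomorph).source = univ := by
  rw [OpenPartialHomeomorph.trans_source, h]; simp

theorem pd_symm {n : ℕ} {X Y : Type*} [TopologicalSpace X] [TopologicalSpace Y] [ChartedSpace (E n) X]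
    [ChartedSpace (E n) Y] {D : X ≃ₜ Y} (h : PD n D.toOpenPartialHomeomorph) :
    PD n D.symm.toOpenPartialHomeomorph := h.symm

/-- The inductive step: surgery of `Y = Y₁ # Y₁` along the two circles. -/
theorem sph_of_construction {m : ℕ} (hm : 3 ≤ m) {Y₁ Y : OMan (m + 1)} {A B : OPH (T m) Y₁}
    (hY₁ : IsS1S m A B) {i j : OPH (E (m + 1)) Y₁} {φ ψ : OPH Y₁ Y} (h : IsCS (m + 1) i j φ ψ)
    {Ui : Set Y₁} (hUi : IsOpen Ui) (hAi : ∀ θ : ℝ, A (mkT θ 0) ∈ Ui) (hUi' : Disjoint Ui i.target)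
    (hUj' : ∀ θ : ℝ, A (mkT θ 0) ∉ j.target)
    {r : ℝ → Y} (hr : Emb (m + 1) r)
    (hrk : ∀ (e : OPH (T m) Y), (∀ θ : ℝ, e (mkT θ 0) = φ (A (mkT θ 0))) → (∀ θ : ℝ, r θ ∉ e.target) →
      ∀ (Y' : OMan (m + 1)) (χ : OPH Y Y'), Repl (m + 1) (circ m) e χ →
        FreeHtpy univ (fun t => χ (r t)) (fun t => χ (ψ (A (mkT t 0)))))
    {U V : Set Y} (hU : IsOpen U) (hUV : Disjoint U V) (hφU : ∀ θ : ℝ, φ (A (mkT θ 0)) ∈ U)
    {er : OPH (T m) Y} (per : PD (m + 1) er) (ser : er.source = univ) (ter : er.target ⊆ V)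
    (cer : ∀ θ : ℝ, er (mkT θ 0) = r θ) {M : OMan (m + 1)} {χ : OPH Y M}
    (hM : Repl (m + 1) (circ m) er χ) : SphProp M (fun θ => χ (φ (A (mkT θ 0)))) := by
  intro e pe se ce M' η hη
  have hi0 : ∀ θ : ℝ, A (mkT θ 0) ≠ i 0 := fun θ h0 =>
    disjoint_left.1 hUi' (hAi θ) (h0 ▸ i.map_source (h.mi 0))
  have mφA : ∀ θ : ℝ, A (mkT θ 0) ∈ φ.source := fun θ => by rw [h.sφ]; exact hi0 θ
  -- the small tube `A₁` around the core of `A`
  have hφc : ContinuousOn φ φ.source := φ.continuousOn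
  have hO : IsOpen (Ui ∩ (φ.source ∩ φ ⁻¹' U)) := hUi.inter (φ.isOpen_inter_preimage hU)
  obtain ⟨A₁, pA₁, sA₁, tA₁, -, δ, hδ, hA₁⟩ := tube_shrink (O := Ui ∩ (φ.source ∩ φ ⁻¹' U)) hY₁.pdA
    (fun θ => by rw [hY₁.sA]; trivial) hO (fun θ => ⟨hAi θ, mφA θ, hφU θ⟩)
  have mA₁ : ∀ p : T m, A₁ p ∈ Ui ∩ (φ.source ∩ φ ⁻¹' U) := fun p =>
    tA₁ (A₁.map_source (by rw [sA₁]; trivial))
  have cA₁ : ∀ θ : ℝ, A₁ (mkT θ 0) = A (mkT θ 0) := fun θ => hA₁ θ 0 (by rw [norm_zero]; exact hδ)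
  -- the tube of `c_t` in `M`
  have mχ : ∀ y ∈ U, y ∈ χ.source := by
    intro y hy
    rw [hM.sφ]
    rintro ⟨q, -, rfl⟩
    exact disjoint_left.1 hUV hy (ter (er.map_source (by rw [ser]; trivial)))
  have sA₁φ : (A₁.trans φ).source = univ := by
    rw [OpenPartialHomeomorph.trans_source, sA₁, univ_inter, eq_univ_iff_forall]
    exact fun p => (mA₁ p).2.1
  have sA₁φχ : ((A₁.trans φ).trans χ).source = univ := by
    rw [OpenPartialHomeomorph.trans_source, sA₁φ, univ_inter, eq_univ_iff_forall]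
    exact fun p => mχ _ (mA₁ p).2.2
  obtain ⟨τ, t, ht, tpd, η', hη', -⟩ := change_tube (by omega : 1 ≤ m) pe ((pA₁.trans h.pdφ).trans hM.pdφ) se
    sA₁φχ (fun θ => by
      rw [ce θ]
      show χ (φ (A (mkT θ 0))) = χ (φ (A₁ (mkT θ 0)))
      rw [cA₁]) isOpen_univ (fun _ => trivial) hη
  -- the twisted tube in `Y`
  have pE : PD (m + 1) ((t.toOpenPartialHomeomorph.trans A₁).trans φ) := (tpd.trans pA₁).trans h.pdφ
  have stA : (t.toOpenPartialHomeomorph.trans A₁).source = univ := by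
    rw [OpenPartialHomeomorph.trans_source]; simp [sA₁]
  have sE : ((t.toOpenPartialHomeomorph.trans A₁).trans φ).source = univ := by
    rw [OpenPartialHomeomorph.trans_source, stA, univ_inter, eq_univ_iff_forall]
    exact fun p => (mA₁ (t p)).2.1
  have tE : ((t.toOpenPartialHomeomorph.trans A₁).trans φ).target ⊆ U := by
    intro y hy
    have h1 := ((t.toOpenPartialHomeomorph.trans A₁).trans φ).map_target hy
    have h2 := ((t.toOpenPartialHomeomorph.trans A₁).trans φ).right_inv hy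
    rw [← h2]
    exact (mA₁ (t _)).2.2
  have cE : ∀ θ : ℝ, ((t.toOpenPartialHomeomorph.trans A₁).trans φ) (mkT θ 0) = φ (A (mkT θ 0)) := by
    intro θ
    show φ (A₁ (t (mkT θ 0))) = _
    rw [ht, asm_map_core, cA₁]
  obtain ⟨Y', ζ, hζ⟩ := exists_surg (by omega : 2 ≤ m) Y pE sE
  have hdis : Disjoint er.target ((t.toOpenPartialHomeomorph.trans A₁).trans φ).target := by
    rw [disjoint_left]
    intro y hy hy'
    exact disjoint_left.1 hUV (tE hy') (ter hy)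
  rw [← OpenPartialHomeomorph.trans_assoc, ← OpenPartialHomeomorph.trans_assoc] at hη'
  obtain ⟨ζ', hζ', -⟩ := hM.comm hdis hζ hη'
  -- `Y'` is the connected sum of a sphere and `Y₁`
  obtain ⟨S, α, hα⟩ := exists_surg (by omega : 2 ≤ m) Y₁ (tpd.trans pA₁) stA
  have hS : IsSph (m + 1) S := by
    refine surg_twist_sph m (by omega) hY₁ τ hδ (fun θ x hx => ?_) hα
    show A₁ (t (mkT θ x)) = A (τ.map (mkT θ x))
    rw [ht]
    obtain ⟨θ', hθ'⟩ := mkT_repr (τ.map (mkT θ x))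
    rw [hθ']
    refine hA₁ θ' _ ?_
    have : (τ.map (mkT θ x)).2 = τ.O θ x := rfl
    rw [this, τ.isom]
    exact hx
  have hdis' : Disjoint (t.toOpenPartialHomeomorph.trans A₁).target i.target := by
    rw [disjoint_left]
    intro y hy hy'
    have h1 := (t.toOpenPartialHomeomorph.trans A₁).right_inv hy
    rw [← h1] at hy'
    exact disjoint_left.1 hUi' (mA₁ (t _)).1 hy'
  obtain ⟨φ', hcs, -⟩ := h.repl hdis' hα hζ
  obtain ⟨D, hD, hDψ⟩ := hcs.neutral (by omega) hS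
  have hDc : ∀ θ : ℝ, D (A (mkT θ 0)) = ζ (ψ (A (mkT θ 0))) := fun θ => hDψ _ (hUj' θ)
  -- the circle `r` in `Y'`
  have hrE : ∀ θ : ℝ, r θ ∉ ((t.toOpenPartialHomeomorph.trans A₁).trans φ).target := by
    intro θ h1
    refine disjoint_left.1 hUV (tE h1) ?_
    rw [← cer]
    exact ter (er.map_source (by rw [ser]; trivial))
  have hfree := hrk _ cE hrE Y' ζ hζ
  have mrζ : ∀ y, y ∉ ((t.toOpenPartialHomeomorph.trans A₁).trans φ).target → y ∈ ζ.source := by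
    intro y hy
    rw [hζ.sφ]
    rintro ⟨q, -, rfl⟩
    exact hy (((t.toOpenPartialHomeomorph.trans A₁).trans φ).map_source (by rw [sE]; trivial))
  have e1 : Emb (m + 1) (fun θ => ζ (r θ)) := hr.comp hζ.pdφ fun θ => mrζ _ (hrE θ)
  have e0 : Emb (m + 1) (fun θ : ℝ => A (mkT θ 0)) := emb_core hY₁.pdA fun θ => by rw [hY₁.sA]; trivial
  have e2 : Emb (m + 1) (fun θ : ℝ => D (A (mkT θ 0))) := e0.comp hD fun θ => trivial
  have hfree' : FreeHtpy univ (fun θ => ζ (r θ)) (fun θ : ℝ => D (A (mkT θ 0))) := by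
    simpa only [hDc] using hfree
  obtain ⟨D₂, hD₂, -, hD₂c⟩ := circle_isotopy (by omega) isClosed_empty (thin_empty (n := m + 1) (ζ (r 0))) e1 e2
    (fun _ h => h) (fun _ h => h) hfree'
  -- transport the tube of `r` to `Y₁`
  have pe1 : PD (m + 1) (er.trans ζ) := per.trans hζ.pdφ
  have se1 : (er.trans ζ).source = univ := by
    rw [OpenPartialHomeomorph.trans_source, ser, univ_inter, eq_univ_iff_forall]
    intro p
    refine mrζ _ fun h1 => ?_
    exact disjoint_left.1 hdis (er.map_source (by rw [ser]; trivial)) h1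
  have hR1 := (hζ'.map D₂ hD₂).map D.symm (pd_symm hD)
  have pe3 := (pe1.trans hD₂).trans (pd_symm hD)
  have se3 : (((er.trans ζ).trans D₂.toOpenPartialHomeomorph).trans D.symm.toOpenPartialHomeomorph).source =
      univ := src_homeo (src_homeo se1 D₂) D.symm
  have ce3 : ∀ θ : ℝ, (((er.trans ζ).trans D₂.toOpenPartialHomeomorph).trans
      D.symm.toOpenPartialHomeomorph) (mkT θ 0) = A (mkT θ 0) := by
    intro θ
    show D.symm (D₂ (ζ (er (mkT θ 0)))) = A (mkT θ 0)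
    rw [cer, hD₂c, Homeomorph.symm_apply_apply]
  obtain ⟨D₃, τ', hD₃, -, δ', hδ', hD₃e⟩ := tube_unique (by omega : 1 ≤ m) pe3 hY₁.pdA
    (fun θ => by rw [se3]; trivial) (fun θ => by rw [hY₁.sA]; trivial) ce3 isOpen_univ (fun _ => trivial)
  exact surg_twist_sph m (by omega) hY₁ τ' (e := (((er.trans ζ).trans D₂.toOpenPartialHomeomorph).trans
    D.symm.toOpenPartialHomeomorph).trans D₃.toOpenPartialHomeomorph) hδ' hD₃e (hR1.map D₃ hD₃)

/-- Existence of the manifold `M` with its circle. -/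
theorem exists_M {m : ℕ} (hm : 3 ≤ m) : ∃ (M : OMan (m + 1)) (c : ℝ → M), Emb (m + 1) c ∧ BSProp c ∧
    SphProp M c ∧ ∃ x, x ∉ range c := by
  obtain ⟨Y₁, A, B, hY₁⟩ := exists_S1S m (by omega)
  have e0 : Emb (m + 1) (fun θ : ℝ => A (mkT θ 0)) := emb_core hY₁.pdA fun θ => by rw [hY₁.sA]; trivial
  -- a disc away from the core
  have hp₀ : B (mkT 0 0) ∉ range (fun θ : ℝ => A (mkT θ 0)) := by
    rintro ⟨θ, hθ⟩
    have hθ' : A (mkT θ 0) = B (mkT 0 0) := hθ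
    have h1 : A (mkT θ 0) ∈ A.target ∩ B.target :=
      ⟨A.map_source (by rw [hY₁.sA]; trivial), hθ' ▸ B.map_source (by rw [hY₁.sB]; trivial)⟩
    rw [hY₁.inter] at h1
    obtain ⟨p, hp, he⟩ := h1
    have h2 := A.injOn (by rw [hY₁.sA]; trivial) (by rw [hY₁.sA]; trivial) he
    rw [h2] at hp
    exact hp rfl
  obtain ⟨Ui, Vi, hUi, hVi, hAU, hpV, hUVi⟩ := SeparatedNhds.of_isCompact_isCompact e0.isCompact_range
    (isCompact_singleton (x := B (mkT 0 0))) (by rwa [disjoint_singleton_right])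
  obtain ⟨i, pi, si, -, ti⟩ := exists_disc (n := m + 1) hVi (hpV rfl)
  obtain ⟨Y, φ, ψ, h⟩ := exists_connSum (by omega : 2 ≤ m + 1) Y₁ Y₁ pi pi si si
  have hAi : ∀ θ : ℝ, A (mkT θ 0) ∈ Ui := fun θ => hAU ⟨θ, rfl⟩
  have hUi' : Disjoint Ui i.target := by
    rw [disjoint_left]
    intro y hy hy'
    exact disjoint_left.1 hUVi hy (ti hy')
  have hAi' : ∀ θ : ℝ, A (mkT θ 0) ∉ i.target := fun θ => disjoint_left.1 hUi' (hAi θ)
  have hi0 : ∀ θ : ℝ, A (mkT θ 0) ≠ i 0 := fun θ h0 => hAi' θ (h0 ▸ i.map_source (h.mi 0))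
  have mφA : ∀ θ : ℝ, A (mkT θ 0) ∈ φ.source := fun θ => by rw [h.sφ]; exact hi0 θ
  have et : Emb (m + 1) (fun θ : ℝ => φ (A (mkT θ 0))) := e0.comp h.pdφ mφA
  -- the relator
  obtain ⟨k, kc, kp, kd, hk⟩ := exists_relator hm hY₁ h hAi' hAi'
  have hOset : {y : Y | ∀ t : ℝ, y ≠ φ (A (mkT t 0))} = (range fun t : ℝ => φ (A (mkT t 0)))ᶜ := by
    ext y
    constructor
    · rintro h1 ⟨t, ht⟩
      exact h1 t ht.symm
    · intro h1 t ht
      exact h1 ⟨t, ht.symm⟩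
  obtain ⟨r, er0, hr, hkr⟩ := exists_emb (n := m + 1) (by omega) et.thin
    (O := {y : Y | ∀ t : ℝ, y ≠ φ (A (mkT t 0))})
    (by rw [hOset]; exact et.isCompact_range.isClosed.isOpen_compl) kc kp (fun t s => kd t s)
  obtain ⟨hk1, hk2⟩ := hk r er0 hkr
  have hdisK : Disjoint (range fun θ : ℝ => φ (A (mkT θ 0))) (range r) := by
    rw [disjoint_left]
    rintro _ ⟨s, rfl⟩ ⟨t, ht⟩
    exact hr t ⟨s, ht.symm⟩
  obtain ⟨U, V, hU, hV, htU, hrV, hUV⟩ := SeparatedNhds.of_isCompact_isCompact et.isCompact_range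
    er0.isCompact_range hdisK
  obtain ⟨er, per, ser, ter, cer⟩ := exists_tube (by omega : 1 ≤ m) er0 hV fun t => hrV ⟨t, rfl⟩
  obtain ⟨M, χ, hM⟩ := exists_surg (by omega : 2 ≤ m) Y per ser
  have hter : ∀ θ : ℝ, φ (A (mkT θ 0)) ∉ er.target := fun θ h1 =>
    disjoint_left.1 hUV (htU ⟨θ, rfl⟩) (ter h1)
  have mχ : ∀ θ : ℝ, φ (A (mkT θ 0)) ∈ χ.source := by
    intro θ
    rw [hM.sφ]
    rintro ⟨q, -, he⟩
    exact hter θ (he ▸ er.map_source (by rw [ser]; trivial))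
  have ec : Emb (m + 1) (fun θ : ℝ => χ (φ (A (mkT θ 0)))) := et.comp hM.pdφ mχ
  refine ⟨M, fun θ => χ (φ (A (mkT θ 0))), ec, hk1 er cer hter M χ hM, ?_, ?_⟩
  · exact sph_of_construction hm hY₁ h hUi hAi hUi' hAi' er0 hk2 hU hUV (fun θ => htU ⟨θ, rfl⟩) per ser ter cer hM
  · -- a point off the circle: on the new core
    obtain ⟨d, k'⟩ := hM.exd
    refine ⟨d (consL m (0, EuclideanSpace.single ⟨0, by omega⟩ 1)), ?_⟩
    rintro ⟨θ, hθ⟩
    have h1 : χ (φ (A (mkT θ 0))) ∈ χ.target := χ.map_source (mχ θ)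
    rw [k'.tφ] at h1
    refine h1 ⟨_, ?_, hθ.symm⟩
    rw [circ_C']
    refine ⟨rfl, ?_⟩
    simp [tl]

end Pool.Agent.CSM
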