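import Pool.Agent.CSM.Core2

/-!
# CSM, chunk (B), module BBas: definitions for maps of the plane (parameter `s`, angle `t`)

Plan of chunk (B).  A loop of period 1 with a parameter is a map `H : ℝ × ℝ → X`, `H (s, t)`, periodic in `t`
(`Per`).  The modification of `H` in a chart `e` by a vector valued function `v` is `mdf e H v` (module BMdf).
* smoothing: BMol, BBmp, BCov, BStp, BSmo;
* general position: BDim, BPrt, BGen;
* output (B1): BEmb;
* local triviality inside a tube: BLif, BUni, BShf, BLoc (uses helper61: CTQ, CST);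
* output (B2): BIso.
-/

open scoped Manifold ContDiff Topology
open Set

namespace Pool.Agent.CSM

/-- Periodic (period 1) in the second variable. -/
def Per {Y : Type*} (f : ℝ × ℝ → Y) : Prop := ∀ s t, f (s, t + 1) = f (s, t)

/-- A set in the plane, invariant under `(s, t) ↦ (s, t + 1)`. -/
def PerSet (S : Set (ℝ × ℝ)) : Prop := ∀ s t, (s, t + 1) ∈ S ↔ (s, t) ∈ S

/-- A map from a normed space to `X` is smooth at `z` (for `Z = ℝ` this is `SmAt`). -/
def SmP (n : ℕ) {X : Type*} [TopologicalSpace X] [ChartedSpace (E n) X] {Z : Type*} [NormedAddCommGroup Z]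
    [NormedSpace ℝ Z] (f : Z → X) (z : Z) : Prop :=
  ContinuousAt f z ∧ ∀ e ∈ atlas (E n) X, f z ∈ e.source → ContDiffAt ℝ ∞ (e ∘ f) z

open Classical in
/-- The modification of `H` by `v` in the chart `e`. -/
noncomputable def mdf {n : ℕ} {X : Type*} [TopologicalSpace X] {Z : Type*} (e : OPH X (E n)) (H : Z → X)
    (v : Z → E n) (z : Z) : X := if H z ∈ e.source then e.symm (e (H z) + v z) else H z

/-- `H` satisfies the conditions of the family `𝒞`: it maps `c.1` (closed, periodic) to `c.2` (open). -/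
def Ctr {X : Type*} [TopologicalSpace X] (H : ℝ × ℝ → X) (𝒞 : Set (Set (ℝ × ℝ) × Set X)) : Prop :=
  ∀ c ∈ 𝒞, IsClosed c.1 ∧ PerSet c.1 ∧ IsOpen c.2 ∧ MapsTo H c.1 c.2

/-! ### Periodicity -/

theorem Per.int {Y : Type*} {f : ℝ × ℝ → Y} (h : Per f) (s t : ℝ) (k : ℤ) : f (s, t + k) = f (s, t) := by
  have h1 : Function.Periodic (fun t => f (s, t)) 1 := fun t => h s t
  have := h1.int_mul k t
  simpa using this

theorem PerSet.int {S : Set (ℝ × ℝ)} (h : PerSet S) (s t : ℝ) (k : ℤ) : (s, t + k) ∈ S ↔ (s, t) ∈ S := by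
  have h1 : Per (fun p : ℝ × ℝ => p ∈ S) := fun s t => propext (h s t)
  exact iff_of_eq (h1.int s t k)

theorem Per.fract {Y : Type*} {f : ℝ × ℝ → Y} (h : Per f) (s t : ℝ) : f (s, Int.fract t) = f (s, t) := by
  have := h.int s (Int.fract t) ⌊t⌋
  rw [Int.fract_add_floor] at this
  exact this.symm

theorem PerSet.fract {S : Set (ℝ × ℝ)} (h : PerSet S) (s t : ℝ) : (s, Int.fract t) ∈ S ↔ (s, t) ∈ S := by
  have := h.int s (Int.fract t) ⌊t⌋
  rw [Int.fract_add_floor] at this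
  exact this.symm

/-- The shift by one period. -/
noncomputable def shf : ℝ × ℝ ≃ₜ ℝ × ℝ := (Homeomorph.refl ℝ).prodCongr (Homeomorph.addRight (1 : ℝ))

theorem shf_apply (s t : ℝ) : shf (s, t) = (s, t + 1) := rfl

theorem Per.comp_shf {Y : Type*} {f : ℝ × ℝ → Y} (h : Per f) : f ∘ shf = f := by
  funext p
  exact h p.1 p.2

theorem PerSet.preimage_shf {S : Set (ℝ × ℝ)} (h : PerSet S) : shf ⁻¹' S = S := by
  ext p
  exact h p.1 p.2

theorem perSet_iff {S : Set (ℝ × ℝ)} : PerSet S ↔ shf ⁻¹' S = S := by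
  refine ⟨PerSet.preimage_shf, fun h s t => ?_⟩
  rw [← shf_apply]
  exact (Set.ext_iff.1 h (s, t))

theorem PerSet.closure {S : Set (ℝ × ℝ)} (h : PerSet S) : PerSet (closure S) := by
  rw [perSet_iff, shf.preimage_closure, h.preimage_shf]

theorem perSet_tsupport {V : Type*} [Zero V] {f : ℝ × ℝ → V} (h : Per f) : PerSet (tsupport f) := by
  refine PerSet.closure fun s t => ?_
  rw [Function.mem_support, Function.mem_support, h s t]

/-- Reduction to a compact set. -/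
theorem isCompact_window {S : Set (ℝ × ℝ)} (hS : IsClosed S) {R : ℝ} (hR : ∀ p ∈ S, |p.1| ≤ R) :
    IsCompact (S ∩ {p | p.2 ∈ Icc (0 : ℝ) 1}) := by
  refine IsCompact.of_isClosed_subset (isCompact_Icc.prod isCompact_Icc : IsCompact (Icc (-R) R ×ˢ Icc (0 : ℝ) 1))
    (hS.inter (isClosed_Icc.preimage continuous_snd)) ?_
  rintro p ⟨h1, h2⟩
  exact ⟨abs_le.1 (hR p h1), h2⟩

theorem fract_mem_Icc (t : ℝ) : Int.fract t ∈ Icc (0 : ℝ) 1 := ⟨Int.fract_nonneg t, (Int.fract_lt_one t).le⟩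

/-! ### Smoothness at a point -/

section smp

variable {n : ℕ} {X : Type*} [TopologicalSpace X] [ChartedSpace (E n) X] {Z : Type*} [NormedAddCommGroup Z]
  [NormedSpace ℝ Z]

theorem smP_real {c : ℝ → X} {t : ℝ} : SmP n c t ↔ SmAt n c t := Iff.rfl

theorem SmP.congr {f g : Z → X} {z : Z} (h : SmP n f z) (he : g =ᶠ[𝓝 z] f) : SmP n g z := by
  have h0 : g z = f z := he.self_of_nhds
  refine ⟨h.1.congr he.symm, fun e hea hz => ?_⟩
  rw [h0] at hz
  exact (h.2 e hea hz).congr_of_eventuallyEq (he.fun_comp e)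

theorem RegAt.congr {f g : ℝ → X} {t : ℝ} (h : RegAt n f t) (he : g =ᶠ[𝓝 t] f) : RegAt n g t := by
  have h0 : g t = f t := he.self_of_nhds
  refine ⟨h.1.congr he.symm, fun e hea hz => ?_⟩
  rw [h0] at hz
  have h1 := h.2 e hea hz
  refine ⟨h1.1.congr_of_eventuallyEq (he.fun_comp e), ?_⟩
  rw [(he.fun_comp e).deriv_eq]
  exact h1.2

/-- Precomposition with a smooth map of normed spaces. -/
theorem SmP.comp_smooth {Z' : Type*} [NormedAddCommGroup Z'] [NormedSpace ℝ Z'] {f : Z → X} {g : Z' → Z} {z : Z'}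
    (hf : SmP n f (g z)) (hg : ContDiffAt ℝ ∞ g z) : SmP n (fun y => f (g y)) z :=
  ⟨ContinuousAt.comp hf.1 hg.continuousAt, fun e he hz => by
    have h1 : ContDiffAt ℝ ∞ ((e ∘ f) ∘ g) z := ContDiffAt.comp z (hf.2 e he hz) hg
    exact h1⟩

/-- The slice at `s`. -/
theorem SmP.slice {H : ℝ × ℝ → X} {s t : ℝ} (h : SmP n H (s, t)) : SmAt n (fun τ => H (s, τ)) t :=
  SmP.comp_smooth (g := fun τ : ℝ => ((s, τ) : ℝ × ℝ)) h (by fun_prop)

/-- A curve as a map of the plane. -/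
theorem SmAt.const_param {c : ℝ → X} {p : ℝ × ℝ} (h : SmAt n c p.2) : SmP n (fun q : ℝ × ℝ => c q.2) p :=
  SmP.comp_smooth (g := fun q : ℝ × ℝ => q.2) h contDiffAt_snd

theorem SmP.continuous {H : Z → X} (h : ∀ p, SmP n H p) : Continuous H :=
  continuous_iff_continuousAt.2 fun p => (h p).1

/-- Chart independence. -/
theorem smP_iff [HasGroupoid X (orG n)] {f : Z → X} {z : Z} {e : OPH X (E n)} (he : e ∈ atlas (E n) X)
    (hz : f z ∈ e.source) : SmP n f z ↔ ContinuousAt f z ∧ ContDiffAt ℝ ∞ (e ∘ f) z := by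
  refine ⟨fun h => ⟨h.1, h.2 e he hz⟩, fun h => ⟨h.1, fun c hc hzc => ?_⟩⟩
  have a := ((pdAt_id (n := n) (f z)).2 e he c hc hz hzc).1
  have hev : (c ∘ f) =ᶠ[𝓝 z] (c ∘ id ∘ e.symm) ∘ (e ∘ f) := by
    filter_upwards [h.1.eventually (e.open_source.mem_nhds hz)] with y hy
    simp [e.left_inv hy]
  exact (ContDiffAt.comp z a h.2).congr_of_eventuallyEq hev

theorem regAt_iff [HasGroupoid X (orG n)] {f : ℝ → X} {z : ℝ} {e : OPH X (E n)} (he : e ∈ atlas (E n) X)
    (hz : f z ∈ e.source) :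
    RegAt n f z ↔ ContinuousAt f z ∧ ContDiffAt ℝ ∞ (e ∘ f) z ∧ deriv (e ∘ f) z ≠ 0 := by
  refine ⟨fun h => ⟨h.1, h.2 e he hz⟩, fun h => ⟨h.1, fun c hc hzc => ?_⟩⟩
  have a := (pdAt_id (n := n) (f z)).2 e he c hc hz hzc
  have hev : (c ∘ f) =ᶠ[𝓝 z] (c ∘ id ∘ e.symm) ∘ (e ∘ f) := by
    filter_upwards [h.1.eventually (e.open_source.mem_nhds hz)] with y hy
    simp [e.left_inv hy]
  refine ⟨(ContDiffAt.comp z a.1 h.2.1).congr_of_eventuallyEq hev, ?_⟩
  have hd : HasDerivAt (c ∘ f) ((fderiv ℝ (c ∘ id ∘ e.symm) (e (f z))) (deriv (e ∘ f) z)) z := by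
    refine HasDerivAt.congr_of_eventuallyEq ?_ hev
    exact HasFDerivAt.comp_hasDerivAt z (a.1.differentiableAt (by simp)).hasFDerivAt
      (h.2.1.differentiableAt (by simp)).hasDerivAt
  rw [hd.deriv]
  intro h0
  obtain ⟨B, hB⟩ := exists_equiv_of_det a.2.ne'
  rw [← hB] at h0
  exact h.2.2 (by simpa using h0)

end smp

end Pool.Agent.CSM
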