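import Pool.Agent.CSM.BBas

/-!
# CSM, chunk (B), module BBmp: periodic bump functions

Proof of `exists_bump`.  Let `q (s, t) = (s - s₀) ^ 2 + (1 - cos (2 π (t - t₀)))`, smooth, periodic, `≥ 0`.
(a) For every `δ > 0` small `{q ≤ 2 δ} ⊆ W`: `W` contains a box `|s - s₀| < r`, `|t - t₀| < r` around `p₀` and all its
translates by `(0, k)` (`PerSet.int`).  If `q (s, t) ≤ 2 δ` then `(s - s₀) ^ 2 ≤ 2 δ` and, with `k = round (t - t₀)`,
`x = t - t₀ - k`, `|x| ≤ 1 / 2`, `1 - cos (2 π (t - t₀)) = 1 - cos (2 π x) = 2 sin (π x) ^ 2 ≥ 8 x ^ 2`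
(`Real.mul_le_sin` or `Real.mul_abs_le_abs_sin`-type inequality `2 / π * y ≤ sin y` on `[0, π / 2]`), so `8 x ^ 2 ≤ 2 δ`.
Take `δ = r ^ 2 / 4` (then `|s - s₀| ≤ √(2 δ) < r`, `|x| ≤ √δ / 2 < r`).
(b) `ρ p = Real.smoothTransition (2 - q p / δ)`: smooth, values in `[0, 1]`, `= 1` where `q p ≤ δ`, `= 0` where
`q p ≥ 2 δ`; the support is contained in the closed set `{q ≤ 2 δ}`, so `tsupport ρ ⊆ {q ≤ 2 δ} ⊆ W`
(`closure_minimal`).  Near `p₀`: `q p₀ = 0 < δ` and `q` is continuous.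
-/

open scoped Manifold ContDiff Topology
open Set

namespace Pool.Agent.CSM

private theorem cos_lower {x : ℝ} (hx : |x| ≤ 1 / 2) : 8 * x ^ 2 ≤ 1 - Real.cos (2 * Real.pi * x) := by
  have h1 : Real.cos (2 * Real.pi * x) = 1 - 2 * Real.sin (Real.pi * |x|) ^ 2 := by
    have e1 : Real.cos (2 * Real.pi * x) = Real.cos (2 * (Real.pi * |x|)) := by
      rcases abs_cases x with ⟨h, _⟩ | ⟨h, _⟩
      · rw [h]; ring_nf
      · rw [h, ← Real.cos_neg]; ring_nf
    rw [e1, Real.cos_two_mul, Real.sin_sq]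
    ring
  have h2 : 2 * |x| ≤ Real.sin (Real.pi * |x|) := by
    have h3 := Real.mul_le_sin (x := Real.pi * |x|) (by positivity) (by nlinarith [Real.pi_pos])
    have h4 : 2 / Real.pi * (Real.pi * |x|) = 2 * |x| := by
      field_simp
    linarith
  rw [h1]
  have h5 : (2 * |x|) ^ 2 ≤ Real.sin (Real.pi * |x|) ^ 2 := pow_le_pow_left₀ (by positivity) h2 2
  have h6 : (2 * |x|) ^ 2 = 4 * x ^ 2 := by rw [mul_pow, sq_abs]; norm_num
  linarith

theorem exists_bump {W : Set (ℝ × ℝ)} (hW : IsOpen W) (hWp : PerSet W) {p₀ : ℝ × ℝ} (hp₀ : p₀ ∈ W) :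
    ∃ ρ : ℝ × ℝ → ℝ, ContDiff ℝ ∞ ρ ∧ Per ρ ∧ (∀ p, ρ p ∈ Icc (0 : ℝ) 1) ∧ tsupport ρ ⊆ W ∧
      ∀ᶠ p in 𝓝 p₀, ρ p = 1 := by
  obtain ⟨s₀, t₀⟩ := p₀
  obtain ⟨r, hr, hrW⟩ := Metric.isOpen_iff.1 hW _ hp₀
  set q : ℝ × ℝ → ℝ := fun p => (p.1 - s₀) ^ 2 + (1 - Real.cos (2 * Real.pi * (p.2 - t₀))) with hq
  set δ : ℝ := r ^ 2 / 4 with hδ
  have hδ0 : 0 < δ := by positivity
  have hqc : Continuous q := by fun_prop
  have hqW : {p | q p ≤ 2 * δ} ⊆ W := by
    rintro ⟨s, t⟩ hst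
    simp only [hq, mem_ofPred_eq] at hst
    have hcos : 0 ≤ 1 - Real.cos (2 * Real.pi * (t - t₀)) := by linarith [Real.cos_le_one (2 * Real.pi * (t - t₀))]
    set k : ℤ := round (t - t₀) with hk
    set x : ℝ := t - t₀ - k with hx
    have hx2 : |x| ≤ 1 / 2 := abs_sub_round (t - t₀)
    have hcosx : Real.cos (2 * Real.pi * (t - t₀)) = Real.cos (2 * Real.pi * x) := by
      have : 2 * Real.pi * (t - t₀) = 2 * Real.pi * x + k * (2 * Real.pi) := by rw [hx]; ring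
      rw [this, Real.cos_add_int_mul_two_pi]
    have h8 := cos_lower hx2
    have hs2 : (s - s₀) ^ 2 < r ^ 2 := by
      have : (s - s₀) ^ 2 ≤ 2 * δ := by linarith
      rw [hδ] at this
      nlinarith
    have hx2' : x ^ 2 < r ^ 2 := by
      have : 8 * x ^ 2 ≤ 2 * δ := by
        rw [hcosx] at hst hcos
        nlinarith [sq_nonneg (s - s₀)]
      rw [hδ] at this
      nlinarith
    have hs3 : |s - s₀| < r := abs_lt_of_sq_lt_sq hs2 hr.le
    have hx3 : |x| < r := abs_lt_of_sq_lt_sq hx2' hr.le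
    have hmem : (s, t₀ + x) ∈ W := by
      apply hrW
      rw [Metric.mem_ball, Prod.dist_eq, max_lt_iff, Real.dist_eq, Real.dist_eq]
      refine ⟨hs3, ?_⟩
      simpa using hx3
    have h9 := (hWp.int s (t₀ + x) k).2 hmem
    have h10 : t₀ + x + k = t := by rw [hx]; ring
    rwa [h10] at h9
  set ρ : ℝ × ℝ → ℝ := fun p => Real.smoothTransition (2 - q p / δ) with hρ
  have hρ0 : ∀ p, 2 * δ ≤ q p → ρ p = 0 := by
    intro p hp
    refine Real.smoothTransition.zero_of_nonpos ?_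
    have : 2 ≤ q p / δ := by rw [le_div_iff₀ hδ0]; exact hp
    linarith
  refine ⟨ρ, ?_, ?_, fun p => ⟨Real.smoothTransition.nonneg _, Real.smoothTransition.le_one _⟩, ?_, ?_⟩
  · refine Real.smoothTransition.contDiff.comp ?_
    have : ContDiff ℝ ∞ q := by
      refine ContDiff.add (by fun_prop) (contDiff_const.sub ?_)
      exact Real.contDiff_cos.comp (by fun_prop)
    exact contDiff_const.sub (this.div_const _)
  · intro s t
    have : q (s, t + 1) = q (s, t) := by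
      simp only [hq]
      have e1 : 2 * Real.pi * (t + 1 - t₀) = 2 * Real.pi * (t - t₀) + 2 * Real.pi := by ring
      rw [e1, Real.cos_add_two_pi]
    simp only [hρ, this]
  · refine (closure_minimal ?_ (isClosed_le hqc continuous_const)).trans hqW
    intro p hp
    by_contra h
    refine hp (hρ0 p ?_)
    have h' : ¬ q p ≤ 2 * δ := h
    exact (not_le.1 h').le
  · have h0 : q (s₀, t₀) < δ := by simp [hq, hδ0]
    filter_upwards [hqc.continuousAt.eventually_lt continuousAt_const h0] with p hp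
    refine Real.smoothTransition.one_of_one_le ?_
    have : q p / δ < 1 := by rw [div_lt_one hδ0]; exact hp
    linarith

end Pool.Agent.CSM
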