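import Pool.Agent.CSM.BBmp

/-!
# CSM, chunk (B), module BCov: finite cover by charts and bumps

Proof.  For `p₀ = (s, t)` with `s ∈ Icc a b` let `e = chartAt (E n) (H p₀)` and
`W = {p | H p ∈ e.source ∧ p.1 ∈ Ioo a' b'}`, open and periodic; `exists_bump` gives `ρ`.  The sets
`interior {p | ρ p = 1}` (neighbourhoods of `p₀`) cover the compact set `Icc a b ×ˢ Icc 0 1`; take a finite subcover
(`IsCompact.elim_nhds_subcover`), enumerate it (`Finset.equivFin` or index by the subtype of the finset: the statement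
asks for a finite type `ι`).  For a general point `p = (s, t)` with `s ∈ Icc a b` apply the cover to
`(s, Int.fract t)` and shift back: `{p | ∀ᶠ q in 𝓝 p, ρ q = 1}` is invariant under the shift by integers because `ρ` is
periodic (use the homeomorphism `(s, t) ↦ (s, t + k)`).
-/

open scoped Manifold ContDiff Topology
open Set

namespace Pool.Agent.CSM

private theorem ev_one_shift {ρ : ℝ × ℝ → ℝ} (h : Per ρ) (s t : ℝ)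
    (h1 : ∀ᶠ q in 𝓝 ((s, Int.fract t) : ℝ × ℝ), ρ q = 1) : ∀ᶠ q in 𝓝 ((s, t) : ℝ × ℝ), ρ q = 1 := by
  have hc : ContinuousAt (fun q : ℝ × ℝ => ((q.1, q.2 - ⌊t⌋) : ℝ × ℝ)) (s, t) := by fun_prop
  have h2 : ((s, t - ⌊t⌋) : ℝ × ℝ) = (s, Int.fract t) := by rw [Int.self_sub_floor]
  have h3 : ∀ᶠ q in 𝓝 ((s, t) : ℝ × ℝ), ρ (q.1, q.2 - ⌊t⌋) = 1 := by
    refine hc.eventually (p := fun q => ρ q = 1) ?_
    show ∀ᶠ q in 𝓝 ((s, t - ⌊t⌋) : ℝ × ℝ), ρ q = 1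
    rw [h2]
    exact h1
  filter_upwards [h3] with q hq
  have := h.int q.1 (q.2 - ⌊t⌋) ⌊t⌋
  rw [sub_add_cancel] at this
  rw [← hq]
  exact this

theorem exists_cover {n : ℕ} {X : Type*} [TopologicalSpace X] [ChartedSpace (E n) X] {H : ℝ × ℝ → X}
    (hH : Continuous H) (hp : Per H) {a b a' b' : ℝ} (h1 : a' < a) (h2 : b < b') :
    ∃ (ι : Type) (_ : Finite ι) (e : ι → OPH X (E n)) (ρ : ι → ℝ × ℝ → ℝ), (∀ i, e i ∈ atlas (E n) X) ∧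
      (∀ i, ContDiff ℝ ∞ (ρ i)) ∧ (∀ i, Per (ρ i)) ∧ (∀ i p, ρ i p ∈ Icc (0 : ℝ) 1) ∧
      (∀ i, ∀ p ∈ tsupport (ρ i), H p ∈ (e i).source ∧ p.1 ∈ Ioo a' b') ∧
      ∀ p : ℝ × ℝ, p.1 ∈ Icc a b → ∃ i, ∀ᶠ q in 𝓝 p, ρ i q = 1 := by
  classical
  have step : ∀ p₀ : ℝ × ℝ, p₀.1 ∈ Icc a b → ∃ ρ : ℝ × ℝ → ℝ, ContDiff ℝ ∞ ρ ∧ Per ρ ∧
      (∀ p, ρ p ∈ Icc (0 : ℝ) 1) ∧
      (∀ p ∈ tsupport ρ, H p ∈ (chartAt (E n) (H p₀)).source ∧ p.1 ∈ Ioo a' b') ∧ ∀ᶠ p in 𝓝 p₀, ρ p = 1 := by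
    intro p₀ hp₀
    have hWo : IsOpen {p : ℝ × ℝ | H p ∈ (chartAt (E n) (H p₀)).source ∧ p.1 ∈ Ioo a' b'} :=
      ((chartAt (E n) (H p₀)).open_source.preimage hH).inter (isOpen_Ioo.preimage continuous_fst)
    obtain ⟨ρ, r1, r2, r3, r4, r5⟩ := exists_bump hWo
      (fun s t => by
        show (H (s, t + 1) ∈ _ ∧ s ∈ Ioo a' b') ↔ (H (s, t) ∈ _ ∧ s ∈ Ioo a' b')
        rw [hp s t])
      (show p₀ ∈ _ from ⟨mem_chart_source _ _, lt_of_lt_of_le h1 hp₀.1, lt_of_le_of_lt hp₀.2 h2⟩)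
    exact ⟨ρ, r1, r2, r3, fun p hp' => r4 hp', r5⟩
  choose! ρ r1 r2 r3 r4 r5 using step
  have hK : IsCompact (Icc a b ×ˢ Icc (0 : ℝ) 1) := isCompact_Icc.prod isCompact_Icc
  obtain ⟨F, hFK, hF⟩ := hK.elim_nhds_subcover (fun p₀ => {p | ∀ᶠ q in 𝓝 p, ρ p₀ q = 1})
    (fun p₀ hp₀ => eventually_eventually_nhds.2 (r5 p₀ hp₀.1))
  refine ⟨ULift.{0} F, inferInstance, fun i => chartAt (E n) (H i.down.1), fun i => ρ i.down.1,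
    fun i => chart_mem_atlas _ _, fun i => r1 _ (hFK _ i.down.2).1, fun i => r2 _ (hFK _ i.down.2).1,
    fun i => r3 _ (hFK _ i.down.2).1, fun i => r4 _ (hFK _ i.down.2).1, ?_⟩
  intro p hp'
  have hmem : ((p.1, Int.fract p.2) : ℝ × ℝ) ∈ Icc a b ×ˢ Icc (0 : ℝ) 1 := ⟨hp', fract_mem_Icc _⟩
  obtain ⟨p₀, hp₀, h3⟩ := mem_iUnion₂.1 (hF hmem)
  exact ⟨⟨⟨p₀, hp₀⟩⟩, ev_one_shift (r2 _ (hFK _ hp₀).1) p.1 p.2 h3⟩

end Pool.Agent.CSM
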