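import Pool.Agent.CSM.BSmo
import Pool.Agent.CSM.BGen

/-!
# CSM, chunk (B), module BEmb: output (B1)

Proof.  `H₁ (s, t) = h t` is continuous and periodic.  `smooth_htpy` with `[a, b] = [-1, 1]`, `(a', b') = (-2, 2)`,
`s₀ = 0` gives `H₂` with `H₂ (0, ·)` smooth and freely homotopic to `h` in `O`.  `H₃ (s, t) = H₂ (0, t)` is smooth
everywhere (`SmP.slice`, `SmAt.const_param`), periodic, in `O` for `s = 0` (end of the free homotopy).
`general_position` with `[a, b] = [-1, 1]`, `(-2, 2)`, `s₀ = 0` gives `H₄`; `c t = H₄ (0, t)`.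
-/

open scoped Manifold ContDiff Topology
open Set

namespace Pool.Agent.CSM

/-- (B1) Every loop is homotopic, inside a given open set, to an embedded circle that avoids a thin set. -/
theorem exists_emb {n : ℕ} {X : Type*} [TopologicalSpace X] [ChartedSpace (E n) X] [HasGroupoid X (orG n)]
    (hn : 4 ≤ n) {L O : Set X} (hLt : Thin n L) (hO : IsOpen O) {h : ℝ → X}
    (hc : Continuous h) (hp : ∀ t, h (t + 1) = h t) (hhO : ∀ t, h t ∈ O) :
    ∃ c : ℝ → X, Emb n c ∧ (∀ t, c t ∉ L) ∧ FreeHtpy O h c := by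
  have hend : ∀ {c c' : ℝ → X}, FreeHtpy O c c' → ∀ t, c' t ∈ O := by
    rintro c c' ⟨K, -, -, -, k4, k5⟩ t
    rw [← k4 t]
    exact k5 1 t
  obtain ⟨H₂, a1, a2, -, a4, -, a6⟩ := smooth_htpy (n := n) (H := fun p : ℝ × ℝ => h p.2) (hc.comp continuous_snd)
    (fun s t => hp t) (a := -1) (b := 1) (a' := -2) (b' := 2) (by norm_num) (by norm_num) (s₀ := 0) hO hhO
  have hO2 := hend a4
  have hsm : ∀ t, SmAt n (fun τ => H₂ (0, τ)) t := fun t => (a6 (0, t) (by constructor <;> norm_num)).slice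
  obtain ⟨H₄, -, -, -, b4, b5⟩ := general_position hn (H := fun p : ℝ × ℝ => H₂ (0, p.2))
    (fun p => (hsm p.2).const_param) (fun s t => a2 0 t) (a := -1) (b := 1) (a' := -2) (b' := 2) (by norm_num)
    (by norm_num) hLt (s₀ := 0) hO hO2
  obtain ⟨c1, c2⟩ := b5 0 (Or.inl (by constructor <;> norm_num))
  exact ⟨fun t => H₄ (0, t), c1, c2, a4.trans b4⟩

end Pool.Agent.CSM
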