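import Pool.Agent.CSM.BBas
import Pool.Agent.CSM.CTQ

/-!
# CSM, chunk (B), module BLif: a family of loops near the core of a tube, in tube coordinates

`q p = e.symm (H p)`, `w p = (τ p, (q p).2)`, `τ p` = representative in `[-1/2, 1/2)` of the angle of `q p` minus `t`.
-/

open scoped Manifold ContDiff Topology
open Set

namespace Pool.Agent.CSM

/-- A smooth map of a normed space composed with a smooth map. -/
theorem SmP.map {n : ℕ} {X Y : Type*} [TopologicalSpace X] [TopologicalSpace Y] [ChartedSpace (E n) X]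
    [ChartedSpace (E n) Y] {Z : Type*} [NormedAddCommGroup Z] [NormedSpace ℝ Z] {f : X → Y} {c : Z → X} {z : Z}
    (hf : PDAt n f (c z)) (hc : SmP n c z) : SmP n (f ∘ c) z := by
  refine ⟨hf.1.comp hc.1, fun e' he' hx' => ?_⟩
  set e := chartAt (E n) (c z)
  have he : e ∈ atlas (E n) X := chart_mem_atlas _ _
  have hx : c z ∈ e.source := mem_chart_source _ _
  have a := hc.2 e he hx
  have b := (hf.2 e he e' he' hx hx').1
  have hev : (e' ∘ f ∘ c) =ᶠ[𝓝 z] (e' ∘ f ∘ e.symm) ∘ (e ∘ c) := by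
    filter_upwards [hc.1.eventually (e.open_source.mem_nhds hx)] with s hs
    simp [e.left_inv hs]
  exact (ContDiffAt.comp z b a).congr_of_eventuallyEq hev

theorem exists_tube_lift {m : ℕ} {X : Type*} [TopologicalSpace X] [ChartedSpace (E (m + 1)) X]
    {e : OPH (T m) X} (he : PD (m + 1) e) {H : ℝ × ℝ → X}
    (hs : ∀ p, SmP (m + 1) H p) (hp : Per H) {s₀ : ℝ} (hsrc : ∀ t : ℝ, mkT t 0 ∈ e.source)
    (h0 : ∀ t : ℝ, e (mkT t 0) = H (s₀, t)) :
    ∃ (δ : ℝ) (w : ℝ × ℝ → ℝ × E m), 0 < δ ∧ (∀ p : ℝ × ℝ, |p.1 - s₀| < δ → ContDiffAt ℝ ∞ w p) ∧ Per w ∧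
      (∀ t, w (s₀, t) = 0) ∧ ∀ s t, |s - s₀| < δ → mkT (t + (w (s, t)).1) (w (s, t)).2 ∈ e.source ∧
        e (mkT (t + (w (s, t)).1) (w (s, t)).2) = H (s, t) := by
  choose rep hrep using (qT_surj (m := m))
  set q : ℝ × ℝ → T m := fun p => e.symm (H p) with hq
  have hqp : Per q := fun s t => by simp only [hq, hp s t]
  set w : ℝ × ℝ → ℝ × E m := fun p =>
    (toIcoMod (one_pos : (0 : ℝ) < 1) (-1 / 2) ((rep (q p)).1 - p.2), (q p).2) with hw
  have hq2 : ∀ p, (rep (q p)).2 = (q p).2 := fun p => congrArg (fun z : T m => z.2) (hrep (q p))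
  have hwq : ∀ p : ℝ × ℝ, mkT (p.2 + (w p).1) (w p).2 = q p := by
    intro p
    rw [← hrep (q p)]
    show qT (p.2 + (w p).1, (w p).2) = qT (rep (q p))
    refine qT_eq_iff.2 ⟨toIcoDiv (one_pos : (0 : ℝ) < 1) (-1 / 2) ((rep (q p)).1 - p.2), ?_⟩
    have h1 := self_sub_toIcoDiv_zsmul (one_pos : (0 : ℝ) < 1) (-1 / 2) ((rep (q p)).1 - p.2)
    refine Prod.ext ?_ ?_
    · simp only [hw, ← h1, zsmul_eq_mul, mul_one, Prod.fst_add]
      ring
    · simp only [hw, Prod.snd_add, add_zero, hq2]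
  have hwp : Per w := by
    intro s t
    simp only [hw, hqp s t]
    congr 1
    have : (rep (q (s, t))).1 - (t + 1) = (rep (q (s, t))).1 - t - 1 := by ring
    rw [this, toIcoMod_sub]
  have hq0 : ∀ t, q (s₀, t) = mkT t 0 := by
    intro t
    simp only [hq]
    rw [← h0 t, e.left_inv (hsrc t)]
  have hw0 : ∀ t, w (s₀, t) = 0 := by
    intro t
    have h1 : qT (rep (q (s₀, t))) = qT (t, (0 : E m)) := by rw [hrep, hq0]; rfl
    obtain ⟨k, hk⟩ := qT_eq_iff.1 h1.symm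
    refine Prod.ext ?_ ?_
    · have h2 : (rep (q (s₀, t))).1 - t = 0 + (k : ℝ) * 1 := by rw [hk]; simp
      simp only [hw]
      rw [h2, toIcoMod_add_intCast_mul]
      exact (toIcoMod_eq_self one_pos).2 (by constructor <;> norm_num)
    · show (q (s₀, t)).2 = 0
      rw [hq0]
      rfl
  -- local smoothness
  have hloc : ∀ t₀ : ℝ, ∀ᶠ p in 𝓝 ((s₀, t₀) : ℝ × ℝ), H p ∈ e.target ∧ ContDiffAt ℝ ∞ w p := by
    intro t₀
    set a : ℝ := t₀ - 1 / 2 with ha
    have hHt : H (s₀, t₀) ∈ e.target := by rw [← h0 t₀]; exact e.map_source (hsrc t₀)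
    have hmem : ((t₀, (0 : E m)) : ℝ × E m).1 ∈ Ioo a (a + 1) := by
      rw [ha]
      constructor <;> (simp only []; linarith)
    obtain ⟨g1, g2⟩ := chT_apply hmem
    have hq00 : q (s₀, t₀) = qT (t₀, (0 : E m)) := hq0 t₀
    -- continuity of q near the point
    have hqc : ∀ p, H p ∈ e.target → SmP (m + 1) q p := fun p hpt => SmP.map (he.symm.pdAt hpt) (hs p)
    set θ : ℝ × ℝ → ℝ := fun p => ((consL m).symm (chT m a (q p))).1 with hθ
    have e1 : ∀ᶠ p in 𝓝 ((s₀, t₀) : ℝ × ℝ), H p ∈ e.target :=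
      (hs (s₀, t₀)).1.eventually (e.open_target.mem_nhds hHt)
    have e2 : ∀ᶠ p in 𝓝 ((s₀, t₀) : ℝ × ℝ), q p ∈ (chT m a).source := by
      refine (hqc _ hHt).1.eventually ((chT m a).open_source.mem_nhds ?_)
      rw [hq00]
      exact g1
    have e3 : ∀ᶠ p in 𝓝 ((s₀, t₀) : ℝ × ℝ), θ p - p.2 ∈ Ioo (-1 / 2 : ℝ) (1 / 2) := by
      have hθc : ContinuousAt θ (s₀, t₀) := by
        have h2 : ContinuousAt (fun p => chT m a (q p)) (s₀, t₀) :=
          ContinuousAt.comp (g := chT m a) ((chT m a).continuousAt (by rw [hq00]; exact g1)) (hqc _ hHt).1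
        have h3 : ContinuousAt (fun p => (consL m).symm (chT m a (q p))) (s₀, t₀) :=
          ContinuousAt.comp (g := (consL m).symm) (consL m).symm.continuous.continuousAt h2
        exact h3.fst
      have hc : ContinuousAt (fun p : ℝ × ℝ => θ p - p.2) (s₀, t₀) := hθc.sub continuousAt_snd
      refine hc.eventually (isOpen_Ioo.mem_nhds ?_)
      have : θ (s₀, t₀) - t₀ = 0 := by
        simp only [hθ]
        rw [hq00, g2, ContinuousLinearEquiv.symm_apply_apply]
        ring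
      show θ (s₀, t₀) - t₀ ∈ Ioo (-1 / 2 : ℝ) (1 / 2)
      rw [this]
      constructor <;> norm_num
    have e4 := (e1.and (e2.and e3)).eventually_nhds
    filter_upwards [e4] with p hp4
    obtain ⟨p1, p2, p3⟩ := hp4.self_of_nhds
    refine ⟨p1, ?_⟩
    have hev : w =ᶠ[𝓝 p] fun p' => (consL m).symm (chT m a (q p')) - (p'.2, 0) := by
      filter_upwards [hp4] with p' hp'
      obtain ⟨-, b2, b3⟩ := hp'
      have h1 : qT ((consL m).symm (chT m a (q p'))) = qT (rep (q p')) := by rw [qT_chT b2, hrep]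
      obtain ⟨k, hk⟩ := qT_eq_iff.1 h1
      refine Prod.ext ?_ ?_
      · have h2 : (rep (q p')).1 - p'.2 = (θ p' - p'.2) + (k : ℝ) * 1 := by
          rw [hk]
          simp only [hθ, Prod.fst_add]
          ring
        simp only [hw]
        rw [h2, toIcoMod_add_intCast_mul]
        refine (toIcoMod_eq_self one_pos).2 ⟨b3.1.le, ?_⟩
        have := b3.2
        linarith
      · have h3 := congrArg Prod.snd hk
        simp only [Prod.snd_add, add_zero] at h3
        simp only [hw, Prod.snd_sub, sub_zero]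
        rw [← hq2, h3]
    refine ContDiffAt.congr_of_eventuallyEq ?_ hev
    have h4 : ContDiffAt ℝ ∞ (chT m a ∘ q) p := (hqc p p1).2 (chT m a) (mem_range_self a) p2
    have h5 : ContDiffAt ℝ ∞ (fun p' => (consL m).symm ((chT m a ∘ q) p')) p :=
      (consL m).symm.contDiff.contDiffAt.comp p h4
    exact h5.sub (contDiffAt_snd.prodMk contDiffAt_const)
  have hcomp : ∀ᶠ s in 𝓝 s₀, ∀ t ∈ Icc (0 : ℝ) 1, H (s, t) ∈ e.target ∧ ContDiffAt ℝ ∞ w (s, t) :=
    isCompact_Icc.eventually_forall_of_forall_eventually fun t _ => hloc t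
  obtain ⟨δ, hδ, hδ'⟩ := Metric.eventually_nhds_iff.1 hcomp
  have hall : ∀ s t, |s - s₀| < δ → H (s, t) ∈ e.target ∧ ContDiffAt ℝ ∞ w (s, t) := by
    intro s t hst
    have h1 := hδ' (show dist s s₀ < δ by rwa [Real.dist_eq]) _ (fract_mem_Icc t)
    rw [hp.fract] at h1
    refine ⟨h1.1, ?_⟩
    have h2 : w = fun p => w (p.1, p.2 - ⌊t⌋) := by
      funext p
      have := hwp.int p.1 (p.2 - ⌊t⌋) ⌊t⌋
      rw [sub_add_cancel] at this
      exact this
    rw [h2]
    have h3 : ContDiffAt ℝ ∞ w ((fun p : ℝ × ℝ => ((p.1, p.2 - ⌊t⌋) : ℝ × ℝ)) (s, t)) := by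
      show ContDiffAt ℝ ∞ w (s, t - ⌊t⌋)
      rw [Int.self_sub_floor]
      exact h1.2
    exact ContDiffAt.comp (g := w) (f := fun p : ℝ × ℝ => ((p.1, p.2 - ⌊t⌋) : ℝ × ℝ)) (s, t) h3 (by fun_prop)
  refine ⟨δ, w, hδ, fun p hp' => (hall p.1 p.2 hp').2, hwp, hw0, fun s t hst => ?_⟩
  have h1 := (hall s t hst).1
  have h2 := hwq (s, t)
  simp only [] at h2
  rw [h2]
  exact ⟨e.map_target h1, e.right_inv h1⟩

end Pool.Agent.CSM
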