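import Pool.Agent.CSM.BBas

/-!
# CSM, chunk (B), module BMdf: the modification `mdf e H v`

`mdf e H v z = e.symm (e (H z) + v z)` if `H z ∈ e.source`, `= H z` otherwise.

Proofs.
* `mdf_zero`: if `H z ∈ e.source` use `e.left_inv`.
* `mdf_mem`: `e.map_target`, `e.right_inv`.
* `continuousAt_mdf`: near `z` we have `H y ∈ e.source`, so `mdf e H v =ᶠ[𝓝 z] fun y => e.symm (e (H y) + v y)`;
  `e.continuousAt_symm`, `e.continuousAt`.
* `continuous_mdf`: at `z ∈ S` use `continuousAt_mdf`; at `z ∉ S`: `v = 0` near `z` (`S` closed), so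
  `mdf e H v =ᶠ[𝓝 z] H` by `mdf_zero`.
* `smP_mdf`: `smP_iff he` for `mdf e H v` at `z`; `e ∘ mdf e H v =ᶠ[𝓝 z] fun y => e (H y) + v y` (the right side is in
  `e.target` near `z`, `e.open_target`).
* `mdf_per`: clear.
* `exists_eps`: `C = S ∩ {p | p.2 ∈ Icc 0 1}` is compact (`isCompact_window`).  For the open set
  `W = e.target ∩ e.symm ⁻¹' U` (`e.isOpen_inter_preimage_symm`) and `c ∈ 𝒞`, the compact set
  `(fun p => e (H p)) '' (C ∩ c.1) ⊆ W` has an `ε`-thickening inside `W`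
  (`IsCompact.exists_thickening_subset_open`), same for `C` and `W = e.target`.  Finitely many `c`: induction over
  `𝒞.Finite` (`Set.Finite.induction_on`) or `Filter` argument (`eventually` in `𝓝[>] 0`, `Set.Finite` `eventually_all`).
  Periodicity reduces `p ∈ S` to `(p.1, Int.fract p.2) ∈ C` (`PerSet.fract`, `Per.fract`, `fract_mem_Icc`).
* `ctr_mdf`: for `p ∈ c.1`: if `p ∈ S` use the bound, otherwise `mdf_zero`.
* `freeHtpy_mdf`: the homotopy is `(τ, t) ↦ mdf e H' v' (τ, t)` with `H' (τ, t) = H (s₀, t)`,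
  `v' (τ, t) = max 0 (min 1 τ) • v (s₀, t)`, continuous by `continuous_mdf` with `S' = {q | (s₀, q.2) ∈ S}`.
-/

open scoped Manifold ContDiff Topology
open Set

namespace Pool.Agent.CSM

section mdf

variable {n : ℕ} {X : Type*} [TopologicalSpace X]

theorem mdf_zero {Z : Type*} {e : OPH X (E n)} {H : Z → X} {v : Z → E n} {z : Z} (h : v z = 0) :
    mdf e H v z = H z := by
  by_cases hz : H z ∈ e.source
  · rw [mdf, if_pos hz, h, add_zero, e.left_inv hz]
  · rw [mdf, if_neg hz]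

theorem mdf_mem {Z : Type*} {e : OPH X (E n)} {H : Z → X} {v : Z → E n} {z : Z} (hz : H z ∈ e.source)
    (ht : e (H z) + v z ∈ e.target) : mdf e H v z ∈ e.source ∧ e (mdf e H v z) = e (H z) + v z := by
  rw [mdf, if_pos hz]
  exact ⟨e.map_target ht, e.right_inv ht⟩

theorem mdf_eq {Z : Type*} {e : OPH X (E n)} {H : Z → X} {v : Z → E n} {z : Z} (hz : H z ∈ e.source) :
    mdf e H v z = e.symm (e (H z) + v z) := by
  rw [mdf, if_pos hz]

private theorem mdf_cg {Z Z' : Type*} {e : OPH X (E n)} {H : Z → X} {v : Z → E n} {H' : Z' → X} {v' : Z' → E n}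
    {z : Z} {z' : Z'} (h1 : H z = H' z') (h2 : v z = v' z') : mdf e H v z = mdf e H' v' z' := by
  unfold mdf
  rw [h1, h2]

private theorem mdf_ev {Z : Type*} [TopologicalSpace Z] {e : OPH X (E n)} {H : Z → X} {v : Z → E n} {z : Z}
    (hH : ContinuousAt H z) (hz : H z ∈ e.source) :
    mdf e H v =ᶠ[𝓝 z] fun y => e.symm (e (H y) + v y) := by
  filter_upwards [hH.eventually (e.open_source.mem_nhds hz)] with y hy
  exact mdf_eq hy

theorem continuousAt_mdf {Z : Type*} [TopologicalSpace Z] {e : OPH X (E n)} {H : Z → X} {v : Z → E n} {z : Z}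
    (hH : ContinuousAt H z) (hv : ContinuousAt v z) (hz : H z ∈ e.source) (ht : e (H z) + v z ∈ e.target) :
    ContinuousAt (mdf e H v) z := by
  refine ContinuousAt.congr ?_ (mdf_ev hH hz).symm
  have h1 : ContinuousAt (fun y => e (H y) + v y) z :=
    (ContinuousAt.comp (g := e) (e.continuousAt hz) hH).add hv
  exact ContinuousAt.comp (g := e.symm) (e.continuousAt_symm ht) h1

theorem continuous_mdf {Z : Type*} [TopologicalSpace Z] {e : OPH X (E n)} {H : Z → X} {v : Z → E n}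
    (hH : Continuous H) (hv : Continuous v) {S : Set Z} (hS : IsClosed S) (h0 : ∀ z, z ∉ S → v z = 0)
    (hs : ∀ z ∈ S, H z ∈ e.source) (ht : ∀ z ∈ S, e (H z) + v z ∈ e.target) : Continuous (mdf e H v) := by
  rw [continuous_iff_continuousAt]
  intro z
  by_cases hz : z ∈ S
  · exact continuousAt_mdf hH.continuousAt hv.continuousAt (hs z hz) (ht z hz)
  · refine ContinuousAt.congr hH.continuousAt ?_
    filter_upwards [hS.isOpen_compl.mem_nhds hz] with y hy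
    exact (mdf_zero (h0 y hy)).symm

/-- Off the support nothing changes, also near the point. -/
theorem mdf_eventuallyEq {Z : Type*} [TopologicalSpace Z] {e : OPH X (E n)} {H : Z → X} {v : Z → E n} {S : Set Z}
    (hS : IsClosed S) (h0 : ∀ z, z ∉ S → v z = 0) {z : Z} (hz : z ∉ S) : mdf e H v =ᶠ[𝓝 z] H := by
  filter_upwards [hS.isOpen_compl.mem_nhds hz] with y hy
  exact mdf_zero (h0 y hy)

theorem smP_mdf [ChartedSpace (E n) X] [HasGroupoid X (orG n)] {Z : Type*} [NormedAddCommGroup Z] [NormedSpace ℝ Z]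
    {e : OPH X (E n)} (he : e ∈ atlas (E n) X) {H : Z → X} {v : Z → E n} {z : Z} (hH : ContinuousAt H z)
    (hz : H z ∈ e.source) (ht : e (H z) + v z ∈ e.target) (hv : ContinuousAt v z)
    (hs : ContDiffAt ℝ ∞ (fun y => e (H y) + v y) z) : SmP n (mdf e H v) z := by
  rw [smP_iff he (mdf_mem hz ht).1]
  refine ⟨continuousAt_mdf hH hv hz ht, hs.congr_of_eventuallyEq ?_⟩
  have h1 : ContinuousAt (fun y => e (H y) + v y) z :=
    (ContinuousAt.comp (g := e) (e.continuousAt hz) hH).add hv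
  filter_upwards [hH.eventually (e.open_source.mem_nhds hz), h1.eventually (e.open_target.mem_nhds ht)]
    with y hy hy'
  exact (mdf_mem hy hy').2

theorem mdf_per {e : OPH X (E n)} {H : ℝ × ℝ → X} {v : ℝ × ℝ → E n} (hH : Per H) (hv : Per v) :
    Per (mdf e H v) := by
  intro s t
  exact mdf_cg (hH s t) (hv s t)

/-- Small modifications stay in the chart and satisfy the conditions. -/
theorem exists_eps {e : OPH X (E n)} {H : ℝ × ℝ → X} (hH : Continuous H) (hp : Per H) {S : Set (ℝ × ℝ)}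
    (hS : IsClosed S) (hSp : PerSet S) {R : ℝ} (hR : ∀ p ∈ S, |p.1| ≤ R) (hs : ∀ p ∈ S, H p ∈ e.source)
    {𝒞 : Set (Set (ℝ × ℝ) × Set X)} (hf : 𝒞.Finite) (h𝒞 : Ctr H 𝒞) :
    ∃ ε > 0, ∀ p ∈ S, ∀ y : E n, ‖y‖ < ε → e (H p) + y ∈ e.target ∧
      ∀ c ∈ 𝒞, p ∈ c.1 → e.symm (e (H p) + y) ∈ c.2 := by
  classical
  -- the basic step: a closed periodic set `A` and an open set `W`
  have key : ∀ (A : Set (ℝ × ℝ)) (W : Set (E n)), IsClosed A → PerSet A → IsOpen W →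
      (∀ p ∈ S, p ∈ A → e (H p) ∈ W) →
      ∀ᶠ ε in 𝓝[>] (0 : ℝ), ∀ p ∈ S, p ∈ A → ∀ y : E n, ‖y‖ < ε → e (H p) + y ∈ W := by
    intro A W hA hAp hW hAW
    set C := (S ∩ {p : ℝ × ℝ | p.2 ∈ Icc (0 : ℝ) 1}) ∩ A with hC
    have hCc : IsCompact C := (isCompact_window hS hR).inter_right hA
    have hcont : ContinuousOn (fun p => e (H p)) C := by
      intro p hp'
      exact (ContinuousAt.comp (g := e) (e.continuousAt (hs p hp'.1.1)) hH.continuousAt).continuousWithinAt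
    have hKc : IsCompact ((fun p => e (H p)) '' C) := hCc.image_of_continuousOn hcont
    have hKW : (fun p => e (H p)) '' C ⊆ W := by
      rintro _ ⟨p, hp', rfl⟩
      exact hAW p hp'.1.1 hp'.2
    obtain ⟨δ, hδ, hδW⟩ := hKc.exists_thickening_subset_open hW hKW
    filter_upwards [Ioo_mem_nhdsGT hδ] with ε hε p hpS hpA y hy
    have h1 : (p.1, Int.fract p.2) ∈ C :=
      ⟨⟨(hSp.fract p.1 p.2).2 hpS, fract_mem_Icc p.2⟩, (hAp.fract p.1 p.2).2 hpA⟩
    have h2 : e (H p) ∈ (fun p => e (H p)) '' C := ⟨_, h1, by simp only [hp.fract p.1 p.2]⟩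
    refine hδW (Metric.mem_thickening_iff.2 ⟨_, h2, ?_⟩)
    rw [dist_eq_norm]
    simpa using hy.trans hε.2
  have h1 := key univ e.target isClosed_univ (fun _ _ => by simp) e.open_target
    (fun p hp' _ => e.map_source (hs p hp'))
  have h2 : ∀ᶠ ε in 𝓝[>] (0 : ℝ), ∀ c ∈ 𝒞, ∀ p ∈ S, p ∈ c.1 → ∀ y : E n, ‖y‖ < ε →
      e (H p) + y ∈ e.target ∩ e.symm ⁻¹' c.2 := by
    rw [Filter.eventually_all_finite hf]
    intro c hc
    obtain ⟨c1, c2, c3, c4⟩ := h𝒞 c hc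
    refine key c.1 _ c1 c2 (e.symm.isOpen_inter_preimage c3) fun p hpS hpc => ⟨e.map_source (hs p hpS), ?_⟩
    rw [mem_preimage, e.left_inv (hs p hpS)]
    exact c4 hpc
  have h3 : ∀ᶠ ε in 𝓝[>] (0 : ℝ), 0 < ε := eventually_mem_nhdsWithin
  obtain ⟨ε, e1, e2, e3⟩ := (h1.and (h2.and h3)).exists
  exact ⟨ε, e3, fun p hpS y hy => ⟨e1 p hpS trivial y hy, fun c hc hpc => (e2 c hc p hpS hpc y hy).2⟩⟩

theorem ctr_mdf {e : OPH X (E n)} {H : ℝ × ℝ → X} {v : ℝ × ℝ → E n} {S : Set (ℝ × ℝ)}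
    (h0 : ∀ z, z ∉ S → v z = 0) (hs : ∀ p ∈ S, H p ∈ e.source) {𝒞 : Set (Set (ℝ × ℝ) × Set X)} (h𝒞 : Ctr H 𝒞)
    (h : ∀ p ∈ S, ∀ c ∈ 𝒞, p ∈ c.1 → e.symm (e (H p) + v p) ∈ c.2) : Ctr (mdf e H v) 𝒞 := by
  intro c hc
  obtain ⟨c1, c2, c3, c4⟩ := h𝒞 c hc
  refine ⟨c1, c2, c3, fun p hp => ?_⟩
  by_cases hpS : p ∈ S
  · rw [mdf_eq (hs p hpS)]
    exact h p hpS c hc hp
  · rw [mdf_zero (h0 p hpS)]
    exact c4 hp

theorem freeHtpy_mdf {e : OPH X (E n)} {H : ℝ × ℝ → X} {v : ℝ × ℝ → E n} (hH : Continuous H) (hp : Per H)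
    (hv : Continuous v) (hvp : Per v) {S : Set (ℝ × ℝ)} (hS : IsClosed S) (h0 : ∀ z, z ∉ S → v z = 0)
    (hs : ∀ p ∈ S, H p ∈ e.source) {s₀ : ℝ} {O : Set X} (hO : ∀ t, H (s₀, t) ∈ O)
    (ht : ∀ p ∈ S, ∀ τ ∈ Icc (0 : ℝ) 1, e (H p) + τ • v p ∈ e.target)
    (hu : ∀ t, (s₀, t) ∈ S → ∀ τ ∈ Icc (0 : ℝ) 1, e.symm (e (H (s₀, t)) + τ • v (s₀, t)) ∈ O) :
    FreeHtpy O (fun t => H (s₀, t)) (fun t => mdf e H v (s₀, t)) := by
  set cl : ℝ → ℝ := fun τ => max 0 (min 1 τ) with hcl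
  have hclm : ∀ τ, cl τ ∈ Icc (0 : ℝ) 1 := fun τ =>
    ⟨le_max_left _ _, max_le zero_le_one (min_le_left _ _)⟩
  have hclc : Continuous cl := by fun_prop
  set H' : ℝ × ℝ → X := fun q => H (s₀, q.2) with hH'
  set v' : ℝ × ℝ → E n := fun q => cl q.1 • v (s₀, q.2) with hv'
  have hH'c : Continuous H' := hH.comp (by fun_prop)
  have hv'c : Continuous v' := (hclc.comp continuous_fst).smul (hv.comp (by fun_prop))
  have hS' : IsClosed {q : ℝ × ℝ | (s₀, q.2) ∈ S} := hS.preimage (by fun_prop)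
  have hc : Continuous (mdf e H' v') := by
    refine continuous_mdf hH'c hv'c hS' (fun q hq => ?_) (fun q hq => hs _ hq) (fun q hq => ?_)
    · simp only [hv', h0 _ hq, smul_zero]
    · exact ht _ hq _ (hclm _)
  refine ⟨fun τ t => mdf e H' v' (τ, t), hc, fun τ t => ?_, fun t => ?_, fun t => ?_, fun τ t => ?_⟩
  · exact mdf_cg (hp s₀ t) (by simp only [hv', hvp s₀ t])
  · have : v' (0, t) = 0 := by simp [hv', hcl]
    exact mdf_zero this
  · have h1 : v' (1, t) = v (s₀, t) := by simp [hv', hcl]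
    exact mdf_cg rfl h1
  · show mdf e H' v' (τ, t) ∈ O
    by_cases hq : (s₀, t) ∈ S
    · rw [mdf_eq (z := (τ, t)) (show H' (τ, t) ∈ e.source from hs _ hq)]
      exact hu t hq _ (hclm _)
    · have : v' (τ, t) = 0 := by simp only [hv', h0 _ hq, smul_zero]
      rw [mdf_zero this]
      exact hO t

end mdf

end Pool.Agent.CSM
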