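import Pool.Agent.CSM.BBas

/-!
# CSM, chunk (B), module BMol: smooth approximation of periodic continuous functions

Proof.  `F` is uniformly continuous: on the compact set `Icc (-R-1) (R+1) ×ˢ Icc (-1) 2` it is uniformly continuous
(`IsCompact.uniformContinuousOn_of_continuous`); for arbitrary `p, q` at distance `< δ ≤ 1` shift both by the integer
`-⌊p.2⌋` (`Per.int`), and if `|p.1| > R + 1` both values are `0` (`|q.1| > R`).  So there is `δ > 0` with
`dist p q ≤ δ → dist (F p) (F q) ≤ ε`.  Let `φ : ContDiffBump (0 : ℝ × ℝ)` with `rOut < δ` and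
`g = φ.normed volume ⋆[ContinuousLinearMap.lsmul ℝ ℝ, volume] F`.  Then `‖g p - F p‖ ≤ ε` by
`ContDiffBump.dist_normed_convolution_le`, `g` is smooth by `HasCompactSupport.contDiff_convolution_left`
(`F` is locally integrable, being continuous), and `g` is periodic because
`g p = ∫ y, φ.normed y • F (p - y)` (`MeasureTheory.convolution_def`) and `F (p + (0,1) - y) = F (p - y)`.
-/

open scoped Manifold ContDiff Topology Convolution
open Set

namespace Pool.Agent.CSM

theorem exists_unif {V : Type*} [NormedAddCommGroup V] {F : ℝ × ℝ → V} (hF : Continuous F) (hp : Per F) {R : ℝ}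
    (hR : ∀ p : ℝ × ℝ, R ≤ |p.1| → F p = 0) {ε : ℝ} (hε : 0 < ε) :
    ∃ δ > 0, ∀ p q : ℝ × ℝ, dist p q ≤ δ → dist (F p) (F q) ≤ ε := by
  set K : Set (ℝ × ℝ) := Icc (-(R + 1)) (R + 1) ×ˢ Icc (-1 : ℝ) 2 with hK
  have hKc : IsCompact K := isCompact_Icc.prod isCompact_Icc
  have hu := hKc.uniformContinuousOn_of_continuous hF.continuousOn
  obtain ⟨δ₀, hδ₀, h⟩ := Metric.uniformContinuousOn_iff_le.1 hu ε hε
  refine ⟨min δ₀ 1, lt_min hδ₀ one_pos, ?_⟩
  -- the case of the second coordinate of `p` in `[0, 1]`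
  have key : ∀ p q : ℝ × ℝ, p.2 ∈ Icc (0 : ℝ) 1 → dist p q ≤ min δ₀ 1 → dist (F p) (F q) ≤ ε := by
    intro p q hp2 hpq
    have d1 : |p.1 - q.1| ≤ 1 := by
      have : dist p.1 q.1 ≤ dist p q := le_max_left _ _
      rw [Real.dist_eq] at this
      exact this.trans (hpq.trans (min_le_right _ _))
    have d2 : |p.2 - q.2| ≤ 1 := by
      have : dist p.2 q.2 ≤ dist p q := le_max_right _ _
      rw [Real.dist_eq] at this
      exact this.trans (hpq.trans (min_le_right _ _))
    have d1' := abs_le.1 d1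
    have d2' := abs_le.1 d2
    by_cases h1 : |p.1| ≤ R + 1 ∧ |q.1| ≤ R + 1
    · have hpK : p ∈ K := ⟨abs_le.1 h1.1, by constructor <;> linarith [hp2.1, hp2.2]⟩
      have hqK : q ∈ K := ⟨abs_le.1 h1.2, by constructor <;> linarith [hp2.1, hp2.2]⟩
      exact h p hpK q hqK (hpq.trans (min_le_left _ _))
    · have hpR : R ≤ |p.1| := by
        by_contra hc
        push Not at hc
        refine h1 ⟨by linarith, ?_⟩
        have := abs_sub_abs_le_abs_sub q.1 p.1
        rw [abs_sub_comm] at this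
        linarith
      have hqR : R ≤ |q.1| := by
        by_contra hc
        push Not at hc
        refine h1 ⟨?_, by linarith⟩
        have := abs_sub_abs_le_abs_sub p.1 q.1
        linarith
      rw [hR p hpR, hR q hqR, dist_self]
      exact hε.le
  intro p q hpq
  have e1 : F p = F (p.1, Int.fract p.2) := (hp.fract p.1 p.2).symm
  have e2 : F q = F (q.1, q.2 - ⌊p.2⌋) := by
    have := hp.int q.1 (q.2 - ⌊p.2⌋) ⌊p.2⌋
    rw [sub_add_cancel] at this
    exact this
  rw [e1, e2]
  refine key _ _ (fract_mem_Icc _) ?_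
  have e3 : dist ((p.1, Int.fract p.2) : ℝ × ℝ) (q.1, q.2 - ⌊p.2⌋) = dist p q := by
    rw [Prod.dist_eq, Prod.dist_eq]
    congr 1
    simp only [Real.dist_eq]
    congr 1
    have := Int.self_sub_floor p.2
    rw [← this]
    ring
  rw [e3]
  exact hpq

theorem exists_mollify {V : Type*} [NormedAddCommGroup V] [NormedSpace ℝ V] [FiniteDimensional ℝ V]
    {F : ℝ × ℝ → V} (hF : Continuous F) (hp : Per F) {R : ℝ} (hR : ∀ p : ℝ × ℝ, R ≤ |p.1| → F p = 0) {ε : ℝ}
    (hε : 0 < ε) : ∃ g : ℝ × ℝ → V, ContDiff ℝ ∞ g ∧ Per g ∧ ∀ p, ‖g p - F p‖ ≤ ε := by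
  obtain ⟨δ, hδ, h⟩ := exists_unif hF hp hR hε
  have : CompleteSpace V := FiniteDimensional.complete ℝ V
  let φ : ContDiffBump (0 : ℝ × ℝ) := ⟨δ / 2, δ, half_pos hδ, half_lt_self hδ⟩
  have hli : MeasureTheory.LocallyIntegrable F MeasureTheory.volume := hF.locallyIntegrable
  refine ⟨(φ.normed MeasureTheory.volume ⋆[ContinuousLinearMap.lsmul ℝ ℝ, MeasureTheory.volume] F : ℝ × ℝ → V),
    φ.hasCompactSupport_normed.contDiff_convolution_left _ φ.contDiff_normed hli, ?_, ?_⟩
  · intro s t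
    rw [MeasureTheory.convolution_def, MeasureTheory.convolution_def]
    congr 1
    funext y
    congr 1
    have h1 : ((s, t + 1) : ℝ × ℝ) - y = (s - y.1, (t - y.2) + 1) := by
      ext
      · rfl
      · simp only [Prod.snd_sub]
        ring
    have h2 : ((s, t) : ℝ × ℝ) - y = (s - y.1, t - y.2) := rfl
    rw [h1, h2, hp]
  · intro p
    rw [← dist_eq_norm]
    refine φ.dist_normed_convolution_le hli.aestronglyMeasurable fun x hx => ?_
    exact h x p (Metric.mem_ball.1 hx).le

end Pool.Agent.CSM
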