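import Pool.Agent.CSM.BMdf
import Pool.Agent.CSM.BMol

/-!
# CSM, chunk (B), module BStp: one smoothing step

Proof.  `S = tsupport ρ` (closed, `perSet_tsupport`).  Add the condition `({p | p.1 = s₀}, O)` to `𝒞` (finite, `Ctr`
holds) and let `ε` be given by `exists_eps`.  Let `χ p = smoothTransition (4 ρ p - 1)` and
`r p = smoothTransition (2 ρ p - 1)`: `χ = 0` where `ρ ≤ 1 / 4`, `χ = 1` where `ρ ≥ 1 / 2`, `r = 0` where `ρ ≤ 1 / 2`,
`r = 1` where `ρ = 1`.  `F p = χ p • e (H p)` is continuous (at `p ∈ S`: `H p ∈ e.source`; at `p ∉ S`: `F = 0` near `p`),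
periodic, `F = 0` for `|p.1| > R`.  `exists_mollify` gives `g` smooth periodic with `‖g - F‖ ≤ ε / 2`.  Put
`v p = r p • (g p - F p)` (continuous, periodic, `0` off `S`, `‖v p‖ ≤ ε / 2 < ε`, also `‖τ • v p‖ < ε` for `τ ∈ [0, 1]`)
and `H' = mdf e H v`: `continuous_mdf`, `mdf_per`, `ctr_mdf`, `mdf_zero`, `freeHtpy_mdf`.  Smoothness at `p`:
* `p ∉ S`: `H' = H` near `p` (`mdf_eventuallyEq`), and `ρ = 0` near `p`, so `ρ = 1` near `p` is impossible.
* `p ∈ S`, `SmP n H p`: `e ∘ H` is smooth at `p`, so `F = χ • (e ∘ H)` and `e ∘ H + v` are; `smP_mdf`.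
* `ρ = 1` near `p` (then `p ∈ S`): near `p` `χ = 1`, `r = 1`, `e (H q) + v q = g q`; `smP_mdf`.
-/

open scoped Manifold ContDiff Topology
open Set

namespace Pool.Agent.CSM

theorem smooth_step {n : ℕ} {X : Type*} [TopologicalSpace X] [ChartedSpace (E n) X] [HasGroupoid X (orG n)]
    {e : OPH X (E n)} (he : e ∈ atlas (E n) X) {H : ℝ × ℝ → X} (hH : Continuous H) (hp : Per H) {ρ : ℝ × ℝ → ℝ}
    (hρ : ContDiff ℝ ∞ ρ) (hρp : Per ρ) (h01 : ∀ p, ρ p ∈ Icc (0 : ℝ) 1) {R : ℝ}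
    (hR : ∀ p ∈ tsupport ρ, |p.1| ≤ R) (hs : ∀ p ∈ tsupport ρ, H p ∈ e.source)
    {𝒞 : Set (Set (ℝ × ℝ) × Set X)} (hf : 𝒞.Finite) (h𝒞 : Ctr H 𝒞) {s₀ : ℝ} {O : Set X} (hO : IsOpen O)
    (hsO : ∀ t, H (s₀, t) ∈ O) :
    ∃ H' : ℝ × ℝ → X, Continuous H' ∧ Per H' ∧ Ctr H' 𝒞 ∧ (∀ p, p ∉ tsupport ρ → H' p = H p) ∧
      FreeHtpy O (fun t => H (s₀, t)) (fun t => H' (s₀, t)) ∧ (∀ p, SmP n H p → SmP n H' p) ∧
      ∀ p, (∀ᶠ q in 𝓝 p, ρ q = 1) → SmP n H' p := by
  set S := tsupport ρ with hS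
  have hSc : IsClosed S := isClosed_tsupport ρ
  have hSp : PerSet S := perSet_tsupport hρp
  -- the extended family
  have h𝒞' : Ctr H (insert ({p : ℝ × ℝ | p.1 = s₀}, O) 𝒞) := by
    intro c hc
    rcases hc with rfl | hc
    · refine ⟨isClosed_eq continuous_fst continuous_const, fun s t => Iff.rfl, hO, ?_⟩
      rintro ⟨s, t⟩ hst
      have : s = s₀ := hst
      subst this
      exact hsO t
    · exact h𝒞 c hc
  obtain ⟨ε, hε, hεS⟩ := exists_eps hH hp hSc hSp hR hs (hf.insert _) h𝒞'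
  set χ : ℝ × ℝ → ℝ := fun p => Real.smoothTransition (4 * ρ p - 1) with hχ
  set r : ℝ × ℝ → ℝ := fun p => Real.smoothTransition (2 * ρ p - 1) with hr
  have hχs : ContDiff ℝ ∞ χ := Real.smoothTransition.contDiff.comp (by fun_prop)
  have hrs : ContDiff ℝ ∞ r := Real.smoothTransition.contDiff.comp (by fun_prop)
  have hχ0 : ∀ p, ρ p = 0 → χ p = 0 := fun p h => Real.smoothTransition.zero_of_nonpos (by rw [h]; norm_num)
  have hr0 : ∀ p, ρ p = 0 → r p = 0 := fun p h => Real.smoothTransition.zero_of_nonpos (by rw [h]; norm_num)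
  have hχ1 : ∀ p, 1 / 2 ≤ ρ p → χ p = 1 := fun p h => Real.smoothTransition.one_of_one_le (by linarith)
  have hr1 : ∀ p, ρ p = 1 → r p = 1 := fun p h => Real.smoothTransition.one_of_one_le (by rw [h]; norm_num)
  have hr2 : ∀ p, ρ p ≤ 1 / 2 → r p = 0 := fun p h => Real.smoothTransition.zero_of_nonpos (by linarith)
  have hr01 : ∀ p, r p ∈ Icc (0 : ℝ) 1 := fun p =>
    ⟨Real.smoothTransition.nonneg _, Real.smoothTransition.le_one _⟩
  have hoff : ∀ p, p ∉ S → ∀ᶠ q in 𝓝 p, ρ q = 0 := by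
    intro p hp'
    filter_upwards [hSc.isOpen_compl.mem_nhds hp'] with q hq
    exact image_eq_zero_of_notMem_tsupport hq
  set F : ℝ × ℝ → E n := fun p => χ p • e (H p) with hF
  have hFc : Continuous F := by
    rw [continuous_iff_continuousAt]
    intro p
    by_cases hpS : p ∈ S
    · exact hχs.continuous.continuousAt.smul
        (ContinuousAt.comp (g := e) (e.continuousAt (hs p hpS)) hH.continuousAt)
    · have : F =ᶠ[𝓝 p] fun _ => 0 := by
        filter_upwards [hoff p hpS] with q hq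
        simp only [hF, hχ0 q hq, zero_smul]
      exact continuousAt_const.congr this.symm
  have hρR : ∀ p : ℝ × ℝ, R + 1 ≤ |p.1| → ρ p = 0 := by
    intro p hpR
    by_contra h
    have := hR p (subset_tsupport ρ h)
    linarith
  have hFp : Per F := by
    intro s t
    simp only [hF, hχ, hρp s t, hp s t]
  obtain ⟨g, g1, g2, g3⟩ := exists_mollify hFc hFp (R := R + 1)
    (fun p hpR => by simp only [hF, hχ0 p (hρR p hpR), zero_smul]) (half_pos hε)
  set v : ℝ × ℝ → E n := fun p => r p • (g p - F p) with hv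
  have hvc : Continuous v := hrs.continuous.smul (g1.continuous.sub hFc)
  have hvp : Per v := by
    intro s t
    simp only [hv, hr, hρp s t, g2 s t, hFp s t]
  have hv0 : ∀ p, p ∉ S → v p = 0 := by
    intro p hp'
    simp only [hv, hr0 p (image_eq_zero_of_notMem_tsupport hp'), zero_smul]
  have hvn : ∀ p, ∀ τ ∈ Icc (0 : ℝ) 1, ‖τ • v p‖ < ε := by
    intro p τ hτ
    rw [norm_smul, Real.norm_eq_abs, abs_of_nonneg hτ.1]
    have h1 : ‖v p‖ ≤ ε / 2 := by
      simp only [hv]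
      rw [norm_smul, Real.norm_eq_abs, abs_of_nonneg (hr01 p).1]
      calc r p * ‖g p - F p‖ ≤ 1 * (ε / 2) := by
            apply mul_le_mul (hr01 p).2 (g3 p) (norm_nonneg _) zero_le_one
        _ = ε / 2 := one_mul _
    calc τ * ‖v p‖ ≤ 1 * (ε / 2) := mul_le_mul hτ.2 h1 (norm_nonneg _) zero_le_one
      _ < ε := by linarith
  have hvn1 : ∀ p, ‖v p‖ < ε := fun p => by simpa using hvn p 1 ⟨zero_le_one, le_rfl⟩
  have ht : ∀ p ∈ S, e (H p) + v p ∈ e.target := fun p hpS => (hεS p hpS _ (hvn1 p)).1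
  have hsm : ∀ p ∈ S, ContDiffAt ℝ ∞ (fun y => e (H y) + v y) p → SmP n (mdf e H v) p := fun p hpS h =>
    smP_mdf he hH.continuousAt (hs p hpS) (ht p hpS) hvc.continuousAt h
  refine ⟨mdf e H v, continuous_mdf hH hvc hSc hv0 hs ht, mdf_per hp hvp, ?_, fun p hpS => mdf_zero (hv0 p hpS),
    ?_, ?_, ?_⟩
  · exact ctr_mdf hv0 hs h𝒞 fun p hpS c hc hpc => (hεS p hpS _ (hvn1 p)).2 c (mem_insert_of_mem _ hc) hpc
  · refine freeHtpy_mdf hH hp hvc hvp hSc hv0 hs hsO (fun p hpS τ hτ => (hεS p hpS _ (hvn p τ hτ)).1) ?_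
    intro t htS τ hτ
    exact (hεS _ htS _ (hvn _ τ hτ)).2 ({p : ℝ × ℝ | p.1 = s₀}, O) (mem_insert _ _) rfl
  · intro p hpsm
    by_cases hpS : p ∈ S
    · have h1 : ContDiffAt ℝ ∞ (fun y => e (H y)) p := hpsm.2 e he (hs p hpS)
      refine hsm p hpS (h1.add ?_)
      exact hrs.contDiffAt.smul (g1.contDiffAt.sub (hχs.contDiffAt.smul h1))
    · exact hpsm.congr (mdf_eventuallyEq hSc hv0 hpS)
  · intro p hp1
    have hpS : p ∈ S := by
      refine subset_tsupport ρ ?_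
      rw [Function.mem_support, hp1.self_of_nhds]
      exact one_ne_zero
    refine hsm p hpS (g1.contDiffAt.congr_of_eventuallyEq ?_)
    filter_upwards [hp1] with q hq
    simp only [hv, hF, hr1 q hq, hχ1 q (by rw [hq]; norm_num), one_smul]
    abel

end Pool.Agent.CSM
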