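import Pool.Agent.CSM.BCov
import Pool.Agent.CSM.BStp

/-!
# CSM, chunk (B), module BSmo: smoothing of a family of loops

Proof.  `exists_cover` gives `ι, e, ρ` for `H`.  Work with the conditions `𝒞' = {(tsupport (ρ i), (e i).source)}`
(finite; closed, periodic, open, `MapsTo`).  Induction over a finset `s` of `ι` (`Fintype.ofFinite`,
`Finset.induction_on`): there is `H'` continuous, periodic, `Ctr H' 𝒞'`, `H' p = H p` for `p.1 ∉ Ioo a' b'`,
`FreeHtpy O (H (s₀, ·)) (H' (s₀, ·))`, `SmP n H p → SmP n H' p`, and `SmP n H' p` whenever some `i ∈ s` has `ρ i = 1`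
near `p`.  Step: `smooth_step` with `e i, ρ i` (by `Ctr H' 𝒞'` we have `H' p ∈ (e i).source` on `tsupport (ρ i)`;
`tsupport (ρ i) ⊆ {p | p.1 ∈ Ioo a' b'}`, so `|p.1| ≤ max |a'| |b'|`; `H' (s₀, t) ∈ O` because the free homotopy stays
in `O`: `H' (s₀, t)` is its value at `s = 1`), `FreeHtpy.trans`.  At the end `s = univ`.
Start: `H' = H` (`FreeHtpy.refl`).
-/

open scoped Manifold ContDiff Topology
open Set

namespace Pool.Agent.CSM

theorem smooth_htpy {n : ℕ} {X : Type*} [TopologicalSpace X] [ChartedSpace (E n) X] [HasGroupoid X (orG n)]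
    {H : ℝ × ℝ → X} (hH : Continuous H) (hp : Per H) {a b a' b' : ℝ} (h1 : a' < a) (h2 : b < b') {s₀ : ℝ}
    {O : Set X} (hO : IsOpen O) (hsO : ∀ t, H (s₀, t) ∈ O) :
    ∃ H' : ℝ × ℝ → X, Continuous H' ∧ Per H' ∧ (∀ p, p.1 ∉ Ioo a' b' → H' p = H p) ∧
      FreeHtpy O (fun t => H (s₀, t)) (fun t => H' (s₀, t)) ∧ (∀ p, SmP n H p → SmP n H' p) ∧
      ∀ p, p.1 ∈ Icc a b → SmP n H' p := by
  classical
  obtain ⟨ι, hι, e, ρ, c1, c2, c3, c4, c5, c6⟩ := exists_cover (n := n) hH hp h1 h2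
  set 𝒞 : Set (Set (ℝ × ℝ) × Set X) := range fun i => (tsupport (ρ i), (e i).source) with h𝒞def
  have hf : 𝒞.Finite := finite_range _
  have h𝒞 : Ctr H 𝒞 := by
    rintro _ ⟨i, rfl⟩
    exact ⟨isClosed_tsupport _, perSet_tsupport (c3 i), (e i).open_source, fun p hp' => (c5 i p hp').1⟩
  have key : ∀ s : Finset ι, ∃ H' : ℝ × ℝ → X, Continuous H' ∧ Per H' ∧ Ctr H' 𝒞 ∧
      (∀ p, p.1 ∉ Ioo a' b' → H' p = H p) ∧ FreeHtpy O (fun t => H (s₀, t)) (fun t => H' (s₀, t)) ∧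
      (∀ p, SmP n H p → SmP n H' p) ∧ ∀ p, (∃ i ∈ s, ∀ᶠ q in 𝓝 p, ρ i q = 1) → SmP n H' p := by
    intro s
    induction s using Finset.induction_on with
    | empty =>
      refine ⟨H, hH, hp, h𝒞, fun _ _ => rfl, FreeHtpy.refl (hH.comp (by fun_prop)) (fun t => hp s₀ t) hsO,
        fun _ h => h, fun p h => ?_⟩
      obtain ⟨i, hi, -⟩ := h
      exact absurd hi (Finset.notMem_empty i)
    | insert i s _ ih =>
      obtain ⟨H', a1, a2, a3, a4, a5, a6, a7⟩ := ih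
      have hO' : ∀ t, H' (s₀, t) ∈ O := by
        obtain ⟨K, -, -, -, k4, k5⟩ := a5
        intro t
        have k6 : K 1 t = H' (s₀, t) := k4 t
        rw [← k6]
        exact k5 1 t
      obtain ⟨H'', b1, b2, b3, b4, b5, b6, b7⟩ := smooth_step (c1 i) a1 a2 (c2 i) (c3 i) (c4 i)
        (R := max |a'| |b'|)
        (fun p hp' => by
          have h3 := (c5 i p hp').2
          exact abs_le_max_abs_abs h3.1.le h3.2.le)
        (fun p hp' => (a3 _ ⟨i, rfl⟩).2.2.2 hp') hf a3 hO hO'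
      refine ⟨H'', b1, b2, b3, fun p hp' => ?_, a5.trans b5, fun p hps => b6 p (a6 p hps), ?_⟩
      · rw [b4 p fun h => hp' (c5 i p h).2, a4 p hp']
      · rintro p ⟨j, hj, hj1⟩
        rcases Finset.mem_insert.1 hj with rfl | hj
        · exact b7 p hj1
        · exact b6 p (a7 p ⟨j, hj, hj1⟩)
  have : Fintype ι := Fintype.ofFinite ι
  obtain ⟨H', a1, a2, -, a4, a5, a6, a7⟩ := key Finset.univ
  refine ⟨H', a1, a2, a4, a5, a6, fun p hp' => a7 p ?_⟩
  obtain ⟨i, hi⟩ := c6 p hp'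
  exact ⟨i, Finset.mem_univ i, hi⟩

end Pool.Agent.CSM
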