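import Pool.Agent.CSM.Core

/-!
Core2: gluing of two compatible open partial homeomorphisms, extension by the identity.
-/

open scoped Manifold ContDiff Topology
open Set

namespace Pool.Agent.CSM

section glue

variable {X Y : Type*} [TopologicalSpace X] [TopologicalSpace Y]

/-- Two open partial homeomorphisms which agree on the overlap and are jointly injective glue. -/
theorem exists_glue (f g : OPH X Y) (h : ∀ x ∈ f.source, x ∈ g.source → f x = g x)
    (hinj : ∀ x ∈ f.source, ∀ y ∈ g.source, f x = g y → x = y) :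
    ∃ k : OPH X Y, k.source = f.source ∪ g.source ∧ k.target = f.target ∪ g.target ∧
      (∀ x ∈ f.source, k x = f x) ∧ (∀ x ∈ g.source, k x = g x) ∧
      (∀ y ∈ f.target, k.symm y = f.symm y) ∧ ∀ y ∈ g.target, k.symm y = g.symm y := by
  classical
  have hF : ∀ x ∈ f.source, (if x ∈ f.source then f x else g x) = f x := fun x hx => if_pos hx
  have hG : ∀ x ∈ g.source, (if x ∈ f.source then f x else g x) = g x := by
    intro x hx
    by_cases hxf : x ∈ f.source
    · rw [if_pos hxf, h x hxf hx]
    · rw [if_neg hxf]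
  have hF' : ∀ y ∈ f.target, (if y ∈ f.target then f.symm y else g.symm y) = f.symm y := fun y hy => if_pos hy
  have hG' : ∀ y ∈ g.target, (if y ∈ f.target then f.symm y else g.symm y) = g.symm y := by
    intro y hy
    by_cases hyf : y ∈ f.target
    · rw [if_pos hyf]
      refine hinj _ (f.map_target hyf) _ (g.map_target hy) ?_
      rw [f.right_inv hyf, g.right_inv hy]
    · rw [if_neg hyf]
  refine ⟨{ toFun := fun x => if x ∈ f.source then f x else g x
            invFun := fun y => if y ∈ f.target then f.symm y else g.symm y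
            source := f.source ∪ g.source
            target := f.target ∪ g.target
            map_source' := ?_
            map_target' := ?_
            left_inv' := ?_
            right_inv' := ?_
            open_source := f.open_source.union g.open_source
            open_target := f.open_target.union g.open_target
            continuousOn_toFun := ?_
            continuousOn_invFun := ?_ }, rfl, rfl, hF, hG, hF', hG'⟩
  · rintro x (hx | hx)
    · rw [hF x hx]; exact Or.inl (f.map_source hx)
    · rw [hG x hx]; exact Or.inr (g.map_source hx)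
  · rintro y (hy | hy)
    · rw [hF' y hy]; exact Or.inl (f.map_target hy)
    · rw [hG' y hy]; exact Or.inr (g.map_target hy)
  · rintro x (hx | hx)
    · rw [hF x hx, hF' _ (f.map_source hx), f.left_inv hx]
    · rw [hG x hx, hG' _ (g.map_source hx), g.left_inv hx]
  · rintro y (hy | hy)
    · rw [hF' y hy, hF _ (f.map_target hy), f.right_inv hy]
    · rw [hG' y hy, hG _ (g.map_target hy), g.right_inv hy]
  · rintro x (hx | hx)
    · refine ((f.continuousAt hx).congr ?_).continuousWithinAt
      exact Filter.eventually_of_mem (f.open_source.mem_nhds hx) fun z hz => (hF z hz).symm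
    · refine ((g.continuousAt hx).congr ?_).continuousWithinAt
      exact Filter.eventually_of_mem (g.open_source.mem_nhds hx) fun z hz => (hG z hz).symm
  · rintro y (hy | hy)
    · refine ((f.continuousAt_symm hy).congr ?_).continuousWithinAt
      exact Filter.eventually_of_mem (f.open_target.mem_nhds hy) fun z hz => (hF' z hz).symm
    · refine ((g.continuousAt_symm hy).congr ?_).continuousWithinAt
      exact Filter.eventually_of_mem (g.open_target.mem_nhds hy) fun z hz => (hG' z hz).symm

/-- The glued map is orientation preserving if both pieces are. -/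
theorem pd_glue {n : ℕ} [ChartedSpace (E n) X] [ChartedSpace (E n) Y] {f g k : OPH X Y} (hf : PD n f)
    (hg : PD n g) (hs : k.source ⊆ f.source ∪ g.source) (h1 : ∀ x ∈ f.source, k x = f x)
    (h2 : ∀ x ∈ g.source, k x = g x) : PD n k := by
  rw [pd_iff]
  intro x hx
  rcases hs hx with hx | hx
  · exact (hf.pdAt hx).congr (Filter.eventually_of_mem (f.open_source.mem_nhds hx) h1)
  · exact (hg.pdAt hx).congr (Filter.eventually_of_mem (g.open_source.mem_nhds hx) h2)

/-- An open partial homeomorphism with source and target everything is a homeomorphism. -/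
theorem exists_homeo (k : OPH X Y) (hs : k.source = univ) (ht : k.target = univ) :
    ∃ D : X ≃ₜ Y, (∀ x, D x = k x) ∧ ∀ {n : ℕ} [ChartedSpace (E n) X] [ChartedSpace (E n) Y], PD n k →
      PD n D.toOpenPartialHomeomorph := by
  refine ⟨k.toHomeomorphOfSourceEqUnivTargetEqUniv hs ht, fun x => rfl, fun {n} _ _ hk => ?_⟩
  refine hk.congr ?_ fun x _ => rfl
  rw [hs]
  exact subset_univ _

end glue

/-- Extension by the identity of a compactly supported homeomorphism. -/
theorem exists_ext {Q X : Type*} [TopologicalSpace Q] [TopologicalSpace X] [T2Space X] (e : OPH Q X) (h : Q ≃ₜ Q)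
    {K : Set Q} (hK : IsCompact K) (hKe : K ⊆ e.source) (hid : ∀ q, q ∉ K → h q = q) :
    ∃ D : X ≃ₜ X, (∀ q ∈ e.source, D (e q) = e (h q)) ∧ (∀ x, x ∉ e '' K → D x = x) ∧
      ∀ {n : ℕ} [ChartedSpace (E n) Q] [ChartedSpace (E n) X] [HasGroupoid Q (orG n)] [HasGroupoid X (orG n)],
        PD n e → PD n h.toOpenPartialHomeomorph → PD n D.toOpenPartialHomeomorph := by
  have hKK : ∀ q ∈ K, h q ∈ K := by
    intro q hq
    by_contra h1
    exact h1 (by rwa [h.injective (hid _ h1)])
  have hee : ∀ q ∈ e.source, h q ∈ e.source := by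
    intro q hq
    by_cases hqK : q ∈ K
    · exact hKe (hKK q hqK)
    · rw [hid q hqK]; exact hq
  have hcl : IsOpen (e '' K)ᶜ := (hK.image_of_continuousOn (e.continuousOn.mono hKe)).isClosed.isOpen_compl
  set f : OPH X X := e.symm.trans (h.toOpenPartialHomeomorph.trans e) with hf
  set g : OPH X X := (OpenPartialHomeomorph.refl X).restrOpen (e '' K)ᶜ hcl with hg
  have fs : ∀ x, x ∈ f.source ↔ x ∈ e.target := by
    intro x
    rw [hf]
    simp only [OpenPartialHomeomorph.trans_source, OpenPartialHomeomorph.symm_source, mem_inter_iff, mem_preimage,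
      Homeomorph.toOpenPartialHomeomorph_source, mem_univ, true_and, Homeomorph.toOpenPartialHomeomorph_apply]
    exact ⟨fun hx => hx.1, fun hx => ⟨hx, hee _ (e.map_target hx)⟩⟩
  have fa : ∀ x, f x = e (h (e.symm x)) := fun x => rfl
  have gs : ∀ x, x ∈ g.source ↔ x ∉ e '' K := by
    intro x
    rw [hg, OpenPartialHomeomorph.restrOpen_source]
    simp
  have ga : ∀ x, g x = x := fun x => rfl
  have agree : ∀ x ∈ e.target, x ∉ e '' K → e (h (e.symm x)) = x := by
    intro x hx hxK
    have : e.symm x ∉ K := fun h1 => hxK ⟨_, h1, e.right_inv hx⟩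
    rw [hid _ this, e.right_inv hx]
  obtain ⟨k, ks, kt, kf, kg, -, -⟩ := exists_glue f g
    (fun x hx hx' => by rw [fa, ga]; exact agree x ((fs x).1 hx) ((gs x).1 hx'))
    (fun x hx y hy hxy => by
      rw [fa, ga] at hxy
      have hx' := (fs x).1 hx
      by_cases hxK : e.symm x ∈ K
      · exact absurd ⟨_, hKK _ hxK, hxy⟩ ((gs y).1 hy)
      · rw [hid _ hxK, e.right_inv hx'] at hxy
        exact hxy)
  have hsrc : k.source = univ := by
    rw [ks, eq_univ_iff_forall]
    intro x
    by_cases hx : x ∈ e '' K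
    · obtain ⟨q, hq, rfl⟩ := hx
      exact Or.inl ((fs _).2 (e.map_source (hKe hq)))
    · exact Or.inr ((gs x).2 hx)
  have htgt : k.target = univ := by
    rw [kt, eq_univ_iff_forall]
    intro y
    by_cases hy : y ∈ e '' K
    · obtain ⟨q, hq, rfl⟩ := hy
      left
      have h1 : h.symm q ∈ e.source := by
        by_cases hqK : h.symm q ∈ K
        · exact hKe hqK
        · have := hid _ hqK
          rw [h.apply_symm_apply] at this
          rw [← this]; exact hKe hq
      have h2 : e (h.symm q) ∈ f.source := (fs _).2 (e.map_source h1)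
      have h3 : f (e (h.symm q)) = e q := by
        rw [fa, e.left_inv h1, h.apply_symm_apply]
      rw [← h3]
      exact f.map_source h2
    · right
      have : y ∈ g.source := (gs y).2 hy
      have h4 := g.map_source this
      rwa [ga] at h4
  obtain ⟨D, hD, hDp⟩ := exists_homeo k hsrc htgt
  refine ⟨D, ?_, ?_, ?_⟩
  · intro q hq
    rw [hD, kf _ ((fs _).2 (e.map_source hq)), fa, e.left_inv hq]
  · intro x hx
    rw [hD, kg _ ((gs x).2 hx), ga]
  · intro n _ _ _ _ he hh
    refine hDp ?_
    refine pd_glue (f := f) (g := g) ?_ ?_ ks.subset kf kg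
    · exact he.symm.trans (hh.trans he)
    · exact PD.refl.restrOpen _ _

/-! ### Smooth curves -/

section curves

variable {n : ℕ} {X Y : Type*} [TopologicalSpace X] [TopologicalSpace Y] [ChartedSpace (E n) X]
  [ChartedSpace (E n) Y]

theorem RegAt.smAt {c : ℝ → X} {t : ℝ} (h : RegAt n c t) : SmAt n c t :=
  ⟨h.1, fun e he hx => (h.2 e he hx).1⟩

/-- A smooth curve composed with a smooth map. -/
theorem SmAt.comp {f : X → Y} {c : ℝ → X} {t : ℝ} (hf : PDAt n f (c t)) (hc : SmAt n c t) :
    SmAt n (f ∘ c) t := by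
  refine ⟨hf.1.comp hc.1, fun e' he' hx' => ?_⟩
  set e := chartAt (E n) (c t)
  have he : e ∈ atlas (E n) X := chart_mem_atlas _ _
  have hx : c t ∈ e.source := mem_chart_source _ _
  have a := hc.2 e he hx
  have b := (hf.2 e he e' he' hx hx').1
  have hev : (e' ∘ f ∘ c) =ᶠ[𝓝 t] (e' ∘ f ∘ e.symm) ∘ (e ∘ c) := by
    filter_upwards [hc.1.eventually (e.open_source.mem_nhds hx)] with s hs
    simp [e.left_inv hs]
  exact (ContDiffAt.comp t b a).congr_of_eventuallyEq hev

theorem RegAt.comp {f : X → Y} {c : ℝ → X} {t : ℝ} (hf : PDAt n f (c t)) (hc : RegAt n c t) :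
    RegAt n (f ∘ c) t := by
  refine ⟨hf.1.comp hc.1, fun e' he' hx' => ?_⟩
  have hsm := (SmAt.comp hf hc.smAt).2 e' he' hx'
  refine ⟨hsm, ?_⟩
  set e := chartAt (E n) (c t)
  have he : e ∈ atlas (E n) X := chart_mem_atlas _ _
  have hx : c t ∈ e.source := mem_chart_source _ _
  have a := hc.2 e he hx
  have b := hf.2 e he e' he' hx hx'
  have hev : (e' ∘ f ∘ c) =ᶠ[𝓝 t] (e' ∘ f ∘ e.symm) ∘ (e ∘ c) := by
    filter_upwards [hc.1.eventually (e.open_source.mem_nhds hx)] with s hs
    simp [e.left_inv hs]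
  have hev' : (e' ∘ (f ∘ c)) =ᶠ[𝓝 t] (e' ∘ f ∘ e.symm) ∘ (e ∘ c) := hev
  have hd : HasDerivAt (e' ∘ (f ∘ c)) ((fderiv ℝ (e' ∘ f ∘ e.symm) (e (c t))) (deriv (e ∘ c) t)) t := by
    refine HasDerivAt.congr_of_eventuallyEq ?_ hev'
    exact HasFDerivAt.comp_hasDerivAt t (b.1.differentiableAt (by simp)).hasFDerivAt
      (a.1.differentiableAt (by simp)).hasDerivAt
  rw [hd.deriv]
  intro h0
  obtain ⟨B, hB⟩ := exists_equiv_of_det b.2.ne'
  rw [← hB] at h0
  exact a.2 (by simpa using h0)

theorem Emb.continuous {c : ℝ → X} (h : Emb n c) : Continuous c :=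
  continuous_iff_continuousAt.2 fun t => (h.reg t).1

theorem Emb.per_int {c : ℝ → X} (h : Emb n c) (t : ℝ) (k : ℤ) : c (t + k) = c t := by
  have h1 : Function.Periodic c 1 := h.per
  have := h1.int_mul k t
  simpa using this

/-- The image of an embedded circle under an injective orientation preserving map. -/
theorem Emb.comp {c : ℝ → X} (hc : Emb n c) {f : OPH X Y} (hf : PD n f) (hs : ∀ t, c t ∈ f.source) :
    Emb n (fun t => f (c t)) where
  per t := by simp only [hc.per]
  reg t := RegAt.comp (hf.pdAt (hs t)) (hc.reg t)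
  inj s t h := hc.inj s t (f.injOn (hs s) (hs t) h)

theorem Emb.isCompact_range {c : ℝ → X} (hc : Emb n c) : IsCompact (range c) := by
  have : range c = c '' Icc 0 1 := by
    apply Subset.antisymm
    · rintro _ ⟨t, rfl⟩
      refine ⟨Int.fract t, ⟨Int.fract_nonneg t, (Int.fract_lt_one t).le⟩, ?_⟩
      have := hc.per_int (Int.fract t) ⌊t⌋
      rw [← this]
      congr 1
      exact Int.fract_add_floor t
    · exact image_subset_range _ _
  rw [this]
  exact isCompact_Icc.image hc.continuous

theorem Emb.thin {c : ℝ → X} (hc : Emb n c) : Thin n (range c) :=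
  ⟨fun _ => c, fun _ t => (hc.reg t).smAt, fun x hx => mem_iUnion.2 ⟨0, hx⟩⟩

theorem thin_empty (x : X) [HasGroupoid X (orG n)] : Thin n (∅ : Set X) :=
  ⟨fun _ _ => x, fun _ _ => ⟨continuousAt_const, fun _ _ _ => contDiffAt_const⟩, empty_subset _⟩

theorem thin_singleton (x : X) : Thin n ({x} : Set X) :=
  ⟨fun _ _ => x, fun _ _ => ⟨continuousAt_const, fun _ _ _ => contDiffAt_const⟩,
    fun y hy => mem_iUnion.2 ⟨0, ⟨0, hy.symm⟩⟩⟩

theorem Thin.union {L L' : Set X} (h : Thin n L) (h' : Thin n L') : Thin n (L ∪ L') := by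
  obtain ⟨κ, h1, h2⟩ := h
  obtain ⟨κ', h1', h2'⟩ := h'
  refine ⟨fun k => if k % 2 = 0 then κ (k / 2) else κ' (k / 2), fun k t => ?_, ?_⟩
  · by_cases hk : k % 2 = 0
    · simp only [hk, if_true]; exact h1 _ t
    · simp only [hk, if_false]; exact h1' _ t
  · rintro x (hx | hx)
    · obtain ⟨k, hk⟩ := mem_iUnion.1 (h2 hx)
      refine mem_iUnion.2 ⟨2 * k, ?_⟩
      have e1 : 2 * k % 2 = 0 := by omega
      have e2 : 2 * k / 2 = k := by omega
      simp only [e1, if_true, e2]
      exact hk
    · obtain ⟨k, hk⟩ := mem_iUnion.1 (h2' hx)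
      refine mem_iUnion.2 ⟨2 * k + 1, ?_⟩
      have e1 : ¬ (2 * k + 1) % 2 = 0 := by omega
      have e2 : (2 * k + 1) / 2 = k := by omega
      simp only [e1, if_false, e2]
      exact hk

end curves

/-! ### Free homotopies -/

section htpy

variable {X Y : Type*} [TopologicalSpace X] [TopologicalSpace Y]

theorem FreeHtpy.refl {O : Set X} {c : ℝ → X} (hc : Continuous c) (hp : ∀ t, c (t + 1) = c t)
    (hO : ∀ t, c t ∈ O) : FreeHtpy O c c :=
  ⟨fun _ t => c t, hc.comp continuous_snd, fun _ t => hp t, fun _ => rfl, fun _ => rfl, fun _ t => hO t⟩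

theorem FreeHtpy.symm {O : Set X} {c c' : ℝ → X} (h : FreeHtpy O c c') : FreeHtpy O c' c := by
  obtain ⟨H, h1, h2, h3, h4, h5⟩ := h
  refine ⟨fun s t => H (1 - s) t, ?_, fun s t => h2 _ t, fun t => by simp [h4], fun t => by simp [h3],
    fun s t => h5 _ t⟩
  exact h1.comp (f := fun p : ℝ × ℝ => ((1 - p.1, p.2) : ℝ × ℝ)) (by fun_prop)

theorem FreeHtpy.mono {O O' : Set X} {c c' : ℝ → X} (h : FreeHtpy O c c') (hO : O ⊆ O') : FreeHtpy O' c c' := by
  obtain ⟨H, h1, h2, h3, h4, h5⟩ := h
  exact ⟨H, h1, h2, h3, h4, fun s t => hO (h5 s t)⟩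

theorem FreeHtpy.trans {O : Set X} {c c' c'' : ℝ → X} (h : FreeHtpy O c c') (h' : FreeHtpy O c' c'') :
    FreeHtpy O c c'' := by
  obtain ⟨H, h1, h2, h3, h4, h5⟩ := h
  obtain ⟨K, k1, k2, k3, k4, k5⟩ := h'
  refine ⟨fun s t => if s ≤ 1 / 2 then H (min (2 * s) 1) t else K (max (2 * s - 1) 0) t, ?_, ?_, ?_, ?_, ?_⟩
  · have e : (Function.uncurry fun s t => if s ≤ 1 / 2 then H (min (2 * s) 1) t else K (max (2 * s - 1) 0) t) =
        fun p : ℝ × ℝ => if p.1 ≤ 1 / 2 then H (min (2 * p.1) 1) p.2 else K (max (2 * p.1 - 1) 0) p.2 := by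
      funext p; rfl
    rw [e]
    refine Continuous.if_le ?_ ?_ continuous_fst continuous_const ?_
    · exact h1.comp (f := fun p : ℝ × ℝ => ((min (2 * p.1) 1, p.2) : ℝ × ℝ)) (by fun_prop)
    · exact k1.comp (f := fun p : ℝ × ℝ => ((max (2 * p.1 - 1) 0, p.2) : ℝ × ℝ)) (by fun_prop)
    · intro p hp
      rw [hp]
      norm_num
      rw [h4, k3]
  · intro s t
    by_cases hs : s ≤ 1 / 2
    · simp only [hs, if_true, h2]
    · simp only [hs, if_false, k2]
  · intro t
    norm_num
    exact h3 t
  · intro t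
    norm_num
    exact k4 t
  · intro s t
    by_cases hs : s ≤ 1 / 2
    · simp only [hs, if_true]; exact h5 _ _
    · simp only [hs, if_false]; exact k5 _ _

theorem FreeHtpy.map {O : Set X} {c c' : ℝ → X} (h : FreeHtpy O c c') {f : X → Y} (hf : ContinuousOn f O)
    {O' : Set Y} (hO : MapsTo f O O') : FreeHtpy O' (fun t => f (c t)) (fun t => f (c' t)) := by
  obtain ⟨H, h1, h2, h3, h4, h5⟩ := h
  refine ⟨fun s t => f (H s t), ?_, fun s t => by simp only [h2], fun t => by simp only [h3],
    fun t => by simp only [h4], fun s t => hO (h5 s t)⟩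
  exact hf.comp_continuous h1 fun p => h5 p.1 p.2

end htpy

end Pool.Agent.CSM
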