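import Pool.Agent.CSM.CMC
import Pool.Agent.CSM.Core2

/-!
C6A. Local tubes around an embedded curve.
-/

open scoped Manifold ContDiff Topology
open Set

namespace Pool.Agent.CSM

theorem consL_apply_zero {m : ℕ} (s : ℝ) (x : E m) : consL m (s, x) 0 = s := rfl

theorem consL_apply_succ {m : ℕ} (s : ℝ) (x : E m) (i : Fin m) : consL m (s, x) i.succ = x i := rfl

theorem consL_axis {m : ℕ} (s : ℝ) : consL m (s, 0) = s • consL m (1, 0) := by
  rw [← map_smul]
  congr 1
  simp

theorem exists_pos_map {m : ℕ} (hm : 1 ≤ m) {v : E (m + 1)} (hv : v ≠ 0) :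
    ∃ Λ : E (m + 1) →L[ℝ] E (m + 1), 0 < Λ.det ∧ Λ (consL m (1, 0)) = v := by
  have he : consL m (1, 0) ≠ 0 := by
    intro h
    have h1 := congrArg (fun w : E (m + 1) => w 0) h
    simp [consL_apply_zero] at h1
  obtain ⟨A, hA⟩ := SeparatingDual.exists_continuousLinearEquiv_apply_eq (R := ℝ) he hv
  have hdet : (A : E (m + 1) →L[ℝ] E (m + 1)).det ≠ 0 := A.toLinearEquiv.isUnit_det'.ne_zero
  rcases lt_or_gt_of_ne hdet with h | h
  · refine ⟨(A : E (m + 1) →L[ℝ] E (m + 1)) ∘L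
      tC (Matrix.diagonal fun i => if i = Fin.last m then (-1 : ℝ) else 1), ?_, ?_⟩
    · rw [det_comp', det_tC, Matrix.det_diagonal]
      apply mul_pos_of_neg_of_neg h
      simp
    · have h1 : tC (Matrix.diagonal fun i => if i = Fin.last m then (-1 : ℝ) else 1)
          (consL m (1, 0)) = consL m (1, 0) := by
        ext i
        rw [tC_apply]
        simp only [Matrix.diagonal_apply, ite_mul, zero_mul, Finset.sum_ite_eq, Finset.mem_univ,
          if_true]
        split_ifs with h2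
        · obtain ⟨k, rfl⟩ : ∃ k, m = k + 1 := ⟨m - 1, by omega⟩
          have h3 : i = (Fin.last k).succ := h2
          rw [h3, consL_apply_succ]
          simp
        · rw [one_mul]
      rw [ContinuousLinearMap.comp_apply, h1]
      exact hA
  · exact ⟨A, h, hA⟩

variable {m : ℕ} {X : Type*} [TopologicalSpace X] [ChartedSpace (E (m + 1)) X]
  [HasGroupoid X (orG (m + 1))] [T2Space X]

theorem local_tube (hm : 1 ≤ m) {c : ℝ → X} (hc : ∀ t, RegAt (m + 1) c t) (t₀ : ℝ) :
    ∃ ψ : OPH (E (m + 1)) X, PD (m + 1) ψ ∧ ∃ δ > 0, ∀ s, |s - t₀| < δ →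
      consL m (s, 0) ∈ ψ.source ∧ ψ (consL m (s, 0)) = c s := by
  set e := chartAt (E (m + 1)) (c t₀) with he
  have hea : e ∈ atlas (E (m + 1)) X := chart_mem_atlas _ _
  have hcc : Continuous c := continuous_iff_continuousAt.2 fun t => (hc t).1
  have hopen : IsOpen (c ⁻¹' e.source) := e.open_source.preimage hcc
  have ht0 : t₀ ∈ c ⁻¹' e.source := mem_chart_source _ _
  obtain ⟨δ₁, hδ₁, hball⟩ := Metric.isOpen_iff.1 hopen t₀ ht0
  set γ : ℝ → E (m + 1) := e ∘ c with hγ
  have hγs : ∀ s, |s - t₀| < δ₁ → ContDiffAt ℝ ∞ γ s ∧ deriv γ s ≠ 0 := by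
    intro s hs
    exact (hc s).2 e hea (hball (by rwa [Metric.mem_ball, Real.dist_eq]))
  set v := deriv γ t₀ with hv
  have hv0 : v ≠ 0 := (hγs t₀ (by simpa using hδ₁)).2
  obtain ⟨Λ, hΛd, hΛ⟩ := exists_pos_map hm hv0
  set e₀ : E (m + 1) := consL m (1, 0) with he₀
  set p : E (m + 1) →L[ℝ] ℝ := EuclideanSpace.proj (0 : Fin (m + 1)) with hp
  have hpe : p e₀ = 1 := rfl
  set Φ : E (m + 1) → E (m + 1) := fun u => γ (p u) + Λ (u - p u • e₀) with hΦ
  set V : Set (E (m + 1)) := {u | |p u - t₀| < δ₁} with hV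
  have hVo : IsOpen V := by
    have h1 : Continuous fun u : E (m + 1) => |p u - t₀| := by fun_prop
    exact isOpen_lt h1 continuous_const
  have hΦs : ∀ u ∈ V, ContDiffAt ℝ ∞ Φ u := by
    intro u hu
    have h1 : ContDiffAt ℝ ∞ (fun u : E (m + 1) => γ (p u)) u :=
      ContDiffAt.comp (f := fun u : E (m + 1) => p u) u (hγs (p u) hu).1 p.contDiff.contDiffAt
    have h2 : ContDiffAt ℝ ∞ (fun u : E (m + 1) => Λ (u - p u • e₀)) u := by
      apply ContDiff.contDiffAt
      fun_prop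
    exact h1.add h2
  have hΦd : HasFDerivAt Φ Λ (consL m (t₀, 0)) := by
    have h0 : p (consL m (t₀, 0)) = t₀ := rfl
    have h1 : HasDerivAt γ v (p (consL m (t₀, 0))) := by
      rw [h0]
      exact ((hγs t₀ (by simpa using hδ₁)).1.differentiableAt (by simp)).hasDerivAt
    have h2 := h1.hasFDerivAt.comp (consL m (t₀, 0)) p.hasFDerivAt
    have h3 : HasFDerivAt (fun u : E (m + 1) => Λ (u - p u • e₀))
        (Λ ∘L (ContinuousLinearMap.id ℝ (E (m + 1)) - p.smulRight e₀)) (consL m (t₀, 0)) :=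
      (Λ ∘L (ContinuousLinearMap.id ℝ (E (m + 1)) - p.smulRight e₀)).hasFDerivAt
    have h4 := h2.add h3
    have h5 : Λ = ContinuousLinearMap.toSpanSingleton ℝ v ∘L p +
        Λ ∘L (ContinuousLinearMap.id ℝ (E (m + 1)) - p.smulRight e₀) := by
      ext1 w
      simp only [ContinuousLinearMap.add_apply, ContinuousLinearMap.comp_apply,
        ContinuousLinearMap.sub_apply, ContinuousLinearMap.id_apply,
        ContinuousLinearMap.smulRight_apply, map_sub, map_smul]
      rw [hΛ]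
      simp
    rw [h5]
    exact h4
  obtain ⟨B, hB⟩ := exists_equiv_of_det hΛd.ne'
  have hΦd' : HasFDerivAt Φ (B : E (m + 1) →L[ℝ] E (m + 1)) (consL m (t₀, 0)) := by rwa [hB]
  have hu₀ : consL m (t₀, 0) ∈ V := by
    have h0 : p (consL m (t₀, 0)) = t₀ := rfl
    simp only [hV, mem_ofPred_eq, h0, sub_self, abs_zero]
    exact hδ₁
  set F := (hΦs _ hu₀).toOpenPartialHomeomorph Φ hΦd' (by simp) with hF
  have hFc : ∀ u, F u = Φ u := fun u => rfl
  have hFu : consL m (t₀, 0) ∈ F.source :=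
    (hΦs _ hu₀).mem_toOpenPartialHomeomorph_source hΦd' (by simp)
  -- the open set where the determinant is positive
  have hΦon : ContDiffOn ℝ ∞ Φ V := fun u hu => (hΦs u hu).contDiffWithinAt
  have hdc : ContinuousOn (fun u => (fderiv ℝ Φ u).det) V := by
    apply ContinuousLinearMap.continuous_det.comp_continuousOn
    exact hΦon.continuousOn_fderiv_of_isOpen hVo (by simp)
  set W : Set (E (m + 1)) := V ∩ (fun u => (fderiv ℝ Φ u).det) ⁻¹' Ioi 0 with hW
  have hWo : IsOpen W := hdc.isOpen_inter_preimage hVo isOpen_Ioi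
  have hu₀W : consL m (t₀, 0) ∈ W := by
    refine ⟨hu₀, ?_⟩
    simp only [mem_preimage, mem_Ioi]
    rw [hΦd.fderiv]
    exact hΛd
  set Ψ : OPH (E (m + 1)) (E (m + 1)) := F.restrOpen W hWo with hΨ
  have hΨs : Ψ.source = F.source ∩ W := OpenPartialHomeomorph.restrOpen_source _ _ _
  have hΨpd : PD (m + 1) Ψ := by
    apply pd_model_of
    · intro u hu
      rw [hΨs] at hu
      exact (hΦs u hu.2.1).contDiffWithinAt
    · intro u hu
      rw [hΨs] at hu
      exact hu.2.2
  set ψ : OPH (E (m + 1)) X := Ψ.trans e.symm with hψ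
  have hax : ∀ s, Φ (consL m (s, 0)) = e (c s) := by
    intro s
    have h0 : p (consL m (s, 0)) = s := rfl
    simp only [hΦ, h0]
    rw [consL_axis, sub_self, map_zero, add_zero]
    rfl
  refine ⟨ψ, hΨpd.trans (pd_chart hea).symm, ?_⟩
  have hs0 : consL m (t₀, 0) ∈ ψ.source := by
    rw [hψ, OpenPartialHomeomorph.trans_source, hΨs]
    refine ⟨⟨hFu, hu₀W⟩, ?_⟩
    change Φ (consL m (t₀, 0)) ∈ e.target
    rw [hax]
    exact e.map_source ht0
  have hpre : IsOpen ((fun s : ℝ => consL m (s, 0)) ⁻¹' ψ.source) :=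
    ψ.open_source.preimage ((consL m).continuous.comp (by fun_prop))
  obtain ⟨δ, hδ, hb⟩ := Metric.isOpen_iff.1 hpre t₀ hs0
  refine ⟨min δ δ₁, lt_min hδ hδ₁, fun s hs => ⟨hb ?_, ?_⟩⟩
  · rw [Metric.mem_ball, Real.dist_eq]
    exact lt_of_lt_of_le hs (min_le_left _ _)
  · change e.symm (Φ (consL m (s, 0))) = c s
    rw [hax]
    exact e.left_inv (hball (by
      rw [Metric.mem_ball, Real.dist_eq]
      exact lt_of_lt_of_le hs (min_le_right _ _)))

end Pool.Agent.CSM
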