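import Pool.Agent.CSM.C6A

/-!
C6B. A finite family of local tubes, extended periodically.
-/

open scoped Manifold ContDiff Topology
open Set

namespace Pool.Agent.CSM

/-- Translation of `E n`. -/
noncomputable def trH {n : ℕ} (w : E n) : E n ≃ₜ E n := Homeomorph.addRight w

theorem trH_apply {n : ℕ} (w u : E n) : trH w u = u + w := rfl

theorem trH_symm_apply {n : ℕ} (w u : E n) : (trH w).symm u = u - w := by
  rw [Homeomorph.symm_apply_eq, trH_apply, sub_add_cancel]

theorem pd_trH {n : ℕ} (w : E n) : PD n (trH w).toOpenPartialHomeomorph := by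
  apply pd_model_of
  · exact (contDiff_id.add contDiff_const).contDiffOn
  · intro x _
    have : HasFDerivAt (trH w : E n → E n) (ContinuousLinearMap.id ℝ (E n)) x :=
      (hasFDerivAt_id x).add_const w
    change 0 < (fderiv ℝ (trH w : E n → E n) x).det
    rw [this.fderiv, det_id']
    exact one_pos

variable {m : ℕ} {X : Type*} [TopologicalSpace X] [ChartedSpace (E (m + 1)) X]
  [HasGroupoid X (orG (m + 1))] [T2Space X]

/-- A periodic family of local tubes for the curve `c` on the intervals `((k-2)/N, (k+2)/N)`. -/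
structure TubeFam (N : ℕ) (c : ℝ → X) (ψ : ℤ → OPH (E (m + 1)) X) : Prop where
  pd : ∀ k, PD (m + 1) (ψ k)
  src : ∀ (k : ℤ) (s : ℝ), |s - (k : ℝ) / N| < 2 / N → consL m (s, 0) ∈ (ψ k).source
  axis : ∀ (k : ℤ) (s : ℝ), |s - (k : ℝ) / N| < 2 / N → ψ k (consL m (s, 0)) = c s
  shift : ∀ (k : ℤ) (u : E (m + 1)), (u + consL m (1, 0) ∈ (ψ (k + N)).source ↔ u ∈ (ψ k).source) ∧
    ψ (k + N) (u + consL m (1, 0)) = ψ k u

theorem exists_tubeFam (hm : 1 ≤ m) {c : ℝ → X} (hc : ∀ t, RegAt (m + 1) c t)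
    (hp : ∀ t, c (t + 1) = c t) :
    ∃ N : ℕ, 1 ≤ N ∧ ∃ ψ : ℤ → OPH (E (m + 1)) X, TubeFam N c ψ := by
  choose φ hφ δ hδ hs using local_tube hm hc
  obtain ⟨lam, hlam, hL⟩ := lebesgue_number_lemma_of_metric (isCompact_Icc (a := (0 : ℝ)) (b := 1))
    (c := fun t₀ => Metric.ball t₀ (δ t₀)) (fun _ => Metric.isOpen_ball)
    (fun x _ => mem_iUnion.2 ⟨x, Metric.mem_ball_self (hδ x)⟩)
  obtain ⟨N, hN⟩ := exists_nat_gt (2 / lam)
  have hNpos : (0 : ℝ) < N := lt_trans (by positivity) hN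
  have hN1 : 1 ≤ N := by
    have : 0 < N := by exact_mod_cast hNpos
    omega
  have hNl : 2 / (N : ℝ) < lam := by
    rw [div_lt_iff₀ hNpos]
    rw [div_lt_iff₀ hlam] at hN
    linarith
  have hpi : ∀ (t : ℝ) (k : ℤ), c (t - k) = c t := by
    intro t k
    have h1 : Function.Periodic c 1 := hp
    have := h1.sub_int_mul_eq (x := t) k
    simpa using this
  have hNz : (N : ℤ) ≠ 0 := by omega
  have hNzp : (0 : ℤ) < N := by omega
  -- choice of the base points
  have hx : ∀ k : ℤ, ∃ t₀ : ℝ, Metric.ball (((k % N : ℤ) : ℝ) / N) lam ⊆ Metric.ball t₀ (δ t₀) := by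
    intro k
    apply hL
    have h1 : (0 : ℤ) ≤ k % N := Int.emod_nonneg k hNz
    have h2 : k % N < N := Int.emod_lt_of_pos k hNzp
    have h1' : (0 : ℝ) ≤ ((k % N : ℤ) : ℝ) := by exact_mod_cast h1
    have h2' : ((k % N : ℤ) : ℝ) ≤ N := by exact_mod_cast h2.le
    constructor
    · positivity
    · rw [div_le_one hNpos]
      exact h2'
  -- a choice depending on k % N only
  have hx' : ∀ r : ℤ, 0 ≤ r → r < N → ∃ t₀ : ℝ, Metric.ball ((r : ℝ) / N) lam ⊆ Metric.ball t₀ (δ t₀) := by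
    intro r h0 h1
    have := hx r
    rwa [Int.emod_eq_of_lt h0 h1] at this
  set T : ℤ → ℝ := fun r => if h : 0 ≤ r ∧ r < N then (hx' r h.1 h.2).choose else 0 with hT
  have hTs : ∀ r : ℤ, 0 ≤ r → r < N → Metric.ball ((r : ℝ) / N) lam ⊆ Metric.ball (T r) (δ (T r)) := by
    intro r h0 h1
    simp only [hT]
    rw [dif_pos ⟨h0, h1⟩]
    exact (hx' r h0 h1).choose_spec
  have key : ∀ (k : ℤ) (s : ℝ), |s - (k : ℝ) / N| < 2 / N →
      |s - ((k / N : ℤ) : ℝ) - T (k % N)| < δ (T (k % N)) := by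
    intro k s h1
    have h3 := Int.emod_nonneg k hNz
    have h4 := Int.emod_lt_of_pos k hNzp
    have h5 := hTs (k % N) h3 h4
    have h6 : s - ((k / N : ℤ) : ℝ) ∈ Metric.ball (((k % N : ℤ) : ℝ) / N) lam := by
      rw [Metric.mem_ball, Real.dist_eq]
      have h7 : (k : ℝ) = N * ((k / N : ℤ) : ℝ) + ((k % N : ℤ) : ℝ) := by
        exact_mod_cast (Int.mul_ediv_add_emod k N).symm
      have h8 : s - ((k / N : ℤ) : ℝ) - ((k % N : ℤ) : ℝ) / N = s - (k : ℝ) / N := by
        rw [h7]
        field_simp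
        ring
      rw [h8]
      exact h1.trans hNl
    have h9 := h5 h6
    rwa [Metric.mem_ball, Real.dist_eq] at h9
  have hsub : ∀ (s : ℝ) (q : ℤ), trH (-(((q : ℤ) : ℝ) • consL m (1, 0))) (consL m (s, 0)) = consL m (s - q, 0) := by
    intro s q
    rw [trH_apply, consL_axis s, consL_axis (s - q), sub_smul, sub_eq_add_neg]
  refine ⟨N, hN1, fun k => (trH (-(((k / N : ℤ) : ℝ) • consL m (1, 0)))).toOpenPartialHomeomorph.trans
    (φ (T (k % N))), ?_⟩
  constructor
  · intro k
    exact (pd_trH _).trans (hφ _)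
  · intro k s h1
    rw [OpenPartialHomeomorph.trans_source]
    refine ⟨mem_univ _, ?_⟩
    have h' : trH (-(((k / N : ℤ) : ℝ) • consL m (1, 0))) (consL m (s, 0)) ∈
        (φ (T (k % N))).source := by
      rw [hsub]
      exact (hs _ _ (key k s h1)).1
    exact h'
  · intro k s h1
    change φ (T (k % N)) (trH (-(((k / N : ℤ) : ℝ) • consL m (1, 0))) (consL m (s, 0))) = c s
    rw [hsub, (hs _ _ (key k s h1)).2, hpi]
  · intro k u
    have h1 : (k + N) % (N : ℤ) = k % N := by simp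
    have h2 : (k + N) / (N : ℤ) = k / N + 1 := by
      rw [Int.add_ediv_of_dvd_right (dvd_refl _), Int.ediv_self hNz]
    have h3 : trH (-((((k + N) / N : ℤ) : ℝ) • consL m (1, 0))) (u + consL m (1, 0)) =
        trH (-(((k / N : ℤ) : ℝ) • consL m (1, 0))) u := by
      rw [h2, trH_apply, trH_apply]
      push_cast
      rw [add_smul, one_smul]
      abel
    constructor
    · rw [OpenPartialHomeomorph.trans_source, OpenPartialHomeomorph.trans_source]
      simp only [mem_inter_iff, mem_preimage]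
      constructor
      · rintro ⟨-, h⟩
        refine ⟨mem_univ _, ?_⟩
        have h' : trH (-((((k + N) / N : ℤ) : ℝ) • consL m (1, 0))) (u + consL m (1, 0)) ∈
          (φ (T ((k + N) % N))).source := h
        rw [h3, h1] at h'
        exact h'
      · rintro ⟨-, h⟩
        refine ⟨mem_univ _, ?_⟩
        have h' : trH (-((((k + N) / N : ℤ) : ℝ) • consL m (1, 0))) (u + consL m (1, 0)) ∈
          (φ (T ((k + N) % N))).source := by
          rw [h3, h1]
          exact h
        exact h'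
    · change φ (T ((k + N) % N)) (trH (-((((k + N) / N : ℤ) : ℝ) • consL m (1, 0))) (u + consL m (1, 0))) =
        φ (T (k % N)) (trH (-(((k / N : ℤ) : ℝ) • consL m (1, 0))) u)
      rw [h3, h1]

end Pool.Agent.CSM
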