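import Pool.Agent.CSM.CCU

/-!
CSM chunk C, module CPG: germs of diffeomorphisms at a point extend to compactly supported diffeomorphisms, given a
factorisation of the derivative into matrices near 1.
-/

open scoped Manifold ContDiff Topology
open Set

namespace Pool.Agent.CSM

/-- A linear map near 1, cut off. -/
theorem lin_germ {n : ℕ} {B : E n →L[ℝ] E n} (hB : (1 + bC n) * ‖B - 1‖ ≤ 1 / 2) {ρ : ℝ} (hρ : 0 < ρ) :
    ∃ h : E n ≃ₜ E n, PD n h.toOpenPartialHomeomorph ∧ ∀ v, h v = v + bmp n (ρ⁻¹ • v) • (B v - v) := by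
  have h0 : ‖(ContinuousLinearMap.id ℝ (E n))‖ ≤ 1 := ContinuousLinearMap.norm_id_le
  have hW : ContDiff ℝ ∞ (fun v : E n => B v - v) := B.contDiff.sub contDiff_id
  have hWf : ∀ v : E n, fderiv ℝ (fun v : E n => B v - v) v = B - 1 := fun v =>
    (B.hasFDerivAt.sub (hasFDerivAt_id v)).fderiv
  obtain ⟨h1, h2⟩ := cutoff (W := fun v : E n => B v - v) h0 hρ (norm_nonneg (B - 1))
    (fun v _ => hW.contDiffAt) (fun v hv => by
      have h3 : B v - v = (B - 1) v := rfl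
      rw [h3]
      exact ((B - 1).le_opNorm v).trans (mul_le_mul_of_nonneg_left hv (norm_nonneg _)))
    (fun v _ => by rw [hWf])
  have hg : ContDiff ℝ ∞ (fun v : E n => v + bmp n (ρ⁻¹ • v) • (B v - v)) := contDiff_id.add h1
  obtain ⟨h, h3, h4⟩ := small_diffeo hg (fun v => by
    have h5 : fderiv ℝ (fun v : E n => v + bmp n (ρ⁻¹ • v) • (B v - v)) v - 1
        = fderiv ℝ (fun v : E n => bmp n (ρ⁻¹ • v) • (B v - v)) v := by
      have h6 := ((hasFDerivAt_id (𝕜 := ℝ) v).add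
        ((h1.differentiable (by simp)) v).hasFDerivAt).fderiv
      have h7 : fderiv ℝ (fun v : E n => v + bmp n (ρ⁻¹ • v) • (B v - v)) v
          = 1 + fderiv ℝ (fun v : E n => bmp n (ρ⁻¹ • v) • (B v - v)) v := h6
      rw [h7, add_sub_cancel_left]
    rw [h5]
    exact (h2 v).trans hB)
  exact ⟨h, h4, h3⟩

/-- A germ tangent to the identity, cut off. -/
theorem id_germ {n : ℕ} {g : E n → E n} {r : ℝ} (hr : 0 < r) (hg : ∀ v, ‖v‖ < r → ContDiffAt ℝ ∞ g v)
    (h0 : g 0 = 0) (h1 : fderiv ℝ g 0 = 1) {ρ : ℝ} (hρ : 0 < ρ) :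
    ∃ ε, 0 < ε ∧ ε ≤ ρ ∧ ∃ h : E n ≃ₜ E n, PD n h.toOpenPartialHomeomorph ∧
      ∀ v, h v = v + bmp n (ε⁻¹ • v) • (g v - v) := by
  set η : ℝ := (2 * (1 + bC n))⁻¹ with hη
  have hbC := bC_nonneg n
  have hηp : 0 < η := by positivity
  have hWc : ∀ v, ‖v‖ < r → ContDiffAt ℝ ∞ (fun v => g v - v) v := fun v hv =>
    (hg v hv).sub contDiffAt_id
  have hWf0 : fderiv ℝ (fun v => g v - v) 0 = 0 := by
    have h2 : HasFDerivAt g (1 : E n →L[ℝ] E n) 0 := by
      rw [← h1]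
      exact ((hg 0 (by simpa using hr)).differentiableAt (by simp)).hasFDerivAt
    have h3 := (h2.sub (hasFDerivAt_id (𝕜 := ℝ) (0 : E n))).fderiv
    have h4 : fderiv ℝ (fun v => g v - v) 0 = (1 : E n →L[ℝ] E n) - ContinuousLinearMap.id ℝ (E n) := h3
    rw [h4]
    exact sub_self _
  have hcont : ContinuousAt (fderiv ℝ (fun v => g v - v)) 0 :=
    (hWc 0 (by simpa using hr)).continuousAt_fderiv (by simp)
  have hev : ∀ᶠ v in 𝓝 (0 : E n), ‖fderiv ℝ (fun v => g v - v) v‖ < η := by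
    have := hcont.norm.eventually_lt (continuousAt_const (y := η)) (by
      rw [hWf0, norm_zero]
      exact hηp)
    exact this
  obtain ⟨δ, hδ, hδ2⟩ := Metric.eventually_nhds_iff_ball.1 hev
  set ε : ℝ := min ρ (min (δ / 2) (r / 4)) with hε
  have hεp : 0 < ε := by positivity
  have hε1 : ε ≤ ρ := min_le_left _ _
  have hε2 : ε ≤ δ / 2 := (min_le_right _ _).trans (min_le_left _ _)
  have hε3 : ε ≤ r / 4 := (min_le_right _ _).trans (min_le_right _ _)
  have hbd : ∀ v : E n, ‖v‖ ≤ ε → ‖fderiv ℝ (fun v => g v - v) v‖ ≤ η := fun v hv =>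
    (hδ2 v (mem_ball_zero_iff.2 (by linarith))).le
  have hid : ‖(ContinuousLinearMap.id ℝ (E n))‖ ≤ 1 := ContinuousLinearMap.norm_id_le
  obtain ⟨h2, h3⟩ := cutoff (W := fun v : E n => g v - v) hid hεp hηp.le
    (fun v hv => hWc v (by
      have : ‖v‖ < 2 * ε := hv
      linarith)) (fun v hv => by
      have hv' : ‖v‖ ≤ ε := hv
      have hc : Convex ℝ (Metric.closedBall (0 : E n) ε) := convex_closedBall 0 ε
      have h4 := hc.norm_image_sub_le_of_norm_fderiv_le (𝕜 := ℝ) (f := fun v => g v - v) (C := η)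
        (x := 0) (y := v) (fun u hu => (hWc u (by
          have := mem_closedBall_zero_iff.1 hu
          linarith)).differentiableAt (by simp))
        (fun u hu => hbd u (mem_closedBall_zero_iff.1 hu)) (by simp [hεp.le])
        (mem_closedBall_zero_iff.2 hv')
      simp only [h0, sub_zero] at h4
      exact h4.trans (mul_le_mul_of_nonneg_left hv' hηp.le))
    (fun v hv => hbd v hv)
  have hg' : ContDiff ℝ ∞ (fun v : E n => v + bmp n (ε⁻¹ • v) • (g v - v)) := contDiff_id.add h2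
  obtain ⟨h, h5, h6⟩ := small_diffeo hg' (fun v => by
    have h7 : fderiv ℝ (fun v : E n => v + bmp n (ε⁻¹ • v) • (g v - v)) v - 1
        = fderiv ℝ (fun v : E n => bmp n (ε⁻¹ • v) • (g v - v)) v := by
      have h8 : fderiv ℝ (fun v : E n => v + bmp n (ε⁻¹ • v) • (g v - v)) v
          = 1 + fderiv ℝ (fun v : E n => bmp n (ε⁻¹ • v) • (g v - v)) v :=
        ((hasFDerivAt_id (𝕜 := ℝ) v).add ((h2.differentiable (by simp)) v).hasFDerivAt).fderiv
      rw [h8, add_sub_cancel_left]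
    rw [h7]
    refine (h3 v).trans (le_of_eq ?_)
    rw [hη]
    field_simp)
  exact ⟨ε, hεp, hε1, h, h6, h5⟩

/-- A product of linear maps near 1, cut off. -/
theorem list_germ {n : ℕ} (l : List (E n →L[ℝ] E n)) (hl : ∀ B ∈ l, (1 + bC n) * ‖B - 1‖ ≤ 1 / 2)
    {ρ : ℝ} (hρ : 0 < ρ) :
    ∃ h : E n ≃ₜ E n, PD n h.toOpenPartialHomeomorph ∧ (∀ v, ρ ≤ ‖v‖ → h v = v) ∧
      (∃ δ > 0, ∀ v, ‖v‖ < δ → h v = l.prod v) ∧ ∀ v, (∀ B ∈ l, B v = v) → h v = v := by
  induction l with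
  | nil =>
    refine ⟨Homeomorph.refl _, ?_, fun _ _ => rfl, ⟨1, one_pos, fun v _ => rfl⟩, fun _ _ => rfl⟩
    refine PD.refl.congr ?_ fun x _ => rfl
    simp
  | cons B l ih =>
    obtain ⟨k, k1, k2, ⟨δ, hδ, k3⟩, k4⟩ := ih fun B' hB' => hl B' (List.mem_cons_of_mem _ hB')
    obtain ⟨f, f1, f2⟩ := lin_germ (hl B List.mem_cons_self) hρ
    have hk0 : k 0 = 0 := k4 0 fun B' _ => map_zero B'
    refine ⟨k.trans f, k1.homeo_trans f1, fun v hv => ?_, ?_, fun v hv => ?_⟩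
    · show f (k v) = v
      rw [k2 v hv, f2]
      have h1 : bmp n (ρ⁻¹ • v) • (B v - v) = 0 :=
        cut_eq_zero (π := ContinuousLinearMap.id ℝ (E n)) (W := fun v => B v - v) hρ hv
      rw [h1, add_zero]
    · have hc : ContinuousAt k 0 := k.continuous.continuousAt
      have h1 : ∀ᶠ v in 𝓝 (0 : E n), ‖k v‖ < ρ / 2 := by
        have h2 : ContinuousAt (fun v => ‖k v‖) 0 := hc.norm
        exact h2.eventually_lt continuousAt_const (by
          rw [hk0, norm_zero]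
          positivity)
      obtain ⟨δ', hδ', h2⟩ := Metric.eventually_nhds_iff_ball.1 h1
      refine ⟨min δ δ', lt_min hδ hδ', fun v hv => ?_⟩
      show f (k v) = (B :: l).prod v
      have h3 : ‖k v‖ < ρ / 2 := h2 v (mem_ball_zero_iff.2 (lt_of_lt_of_le hv (min_le_right _ _)))
      have h4 : k v = l.prod v := k3 v (lt_of_lt_of_le hv (min_le_left _ _))
      have h5 : bmp n (ρ⁻¹ • k v) • (B (k v) - k v) = B (k v) - k v :=
        cut_eq_self (π := ContinuousLinearMap.id ℝ (E n)) (W := fun v => B v - v) hρ h3.le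
      rw [f2, h5, add_sub_cancel, h4, List.prod_cons]
      rfl
    · show f (k v) = v
      rw [k4 v fun B' hB' => hv B' (List.mem_cons_of_mem _ hB'), f2, hv B List.mem_cons_self,
        sub_self, smul_zero, add_zero]

/-- The germ of `G` at a fixed point extends, if its derivative is a product of maps near 1; vectors fixed by all the
factors and by `G` are fixed. -/
theorem germ_of_list (n : ℕ) : ∃ ε₀ > 0, ∀ (G : OPH (E n) (E n)), PD n G → (0 : E n) ∈ G.source → G 0 = 0 →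
    ∀ l : List (E n →L[ℝ] E n), (∀ B ∈ l, ‖B - 1‖ < ε₀) → l.prod = fderiv ℝ G 0 → ∀ ρ > 0,
      ∃ h : E n ≃ₜ E n, PD n h.toOpenPartialHomeomorph ∧ (∀ v, ρ ≤ ‖v‖ → h v = v) ∧
        (∃ δ > 0, ∀ v, ‖v‖ < δ → h v = G v) ∧
        ∀ v, (∀ B ∈ l, B v = v) → (‖v‖ < ρ → G v = v) → h v = v := by
  have hbC := bC_nonneg n
  refine ⟨(2 * (1 + bC n))⁻¹, by positivity, fun G hG h0 hG0 l hl hprod ρ hρ => ?_⟩
  have hl' : ∀ B ∈ l, (1 + bC n) * ‖B - 1‖ ≤ 1 / 2 := by
    intro B hB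
    have h1 := (hl B hB).le
    calc (1 + bC n) * ‖B - 1‖ ≤ (1 + bC n) * (2 * (1 + bC n))⁻¹ :=
          mul_le_mul_of_nonneg_left h1 (by positivity)
      _ = 1 / 2 := by field_simp
  obtain ⟨k, k1, k2, ⟨δ, hδ, k3⟩, k4⟩ := list_germ l hl' hρ
  have hk0 : k 0 = 0 := k4 0 fun B' _ => map_zero B'
  have hks0 : k.symm 0 = 0 := by
    rw [← hk0, k.symm_apply_apply, hk0]
  -- smoothness of the inverse of `k`
  have hksm : ∀ v, ContDiffAt ℝ ∞ k.symm v := fun v =>
    (pdAt_model.1 (k1.homeo_symm.pdAt (x := v) (by simp))).1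
  have hkf : HasFDerivAt k l.prod 0 := by
    have h1 : k =ᶠ[𝓝 (0 : E n)] l.prod := by
      filter_upwards [Metric.ball_mem_nhds (0 : E n) hδ] with v hv
      exact k3 v (mem_ball_zero_iff.1 hv)
    exact l.prod.hasFDerivAt.congr_of_eventuallyEq h1
  have hGs : ∀ v ∈ G.source, ContDiffAt ℝ ∞ G v := fun v hv => (pdAt_model.1 (hG.pdAt hv)).1
  have hGf : HasFDerivAt G l.prod 0 := by
    rw [hprod]
    exact ((hGs 0 h0).differentiableAt (by simp)).hasFDerivAt
  obtain ⟨r, hr, hrs⟩ := Metric.isOpen_iff.1 G.open_source 0 h0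
  have hg1 : ∀ v, ‖v‖ < r → ContDiffAt ℝ ∞ (fun v => k.symm (G v)) v := fun v hv =>
    (hksm (G v)).comp v (hGs v (hrs (mem_ball_zero_iff.2 hv)))
  have hg2 : fderiv ℝ (fun v => k.symm (G v)) 0 = 1 := by
    have h1 : HasFDerivAt k.symm (fderiv ℝ k.symm 0) 0 := ((hksm 0).differentiableAt (by simp)).hasFDerivAt
    have h2 : HasFDerivAt (fun v => k.symm (G v)) ((fderiv ℝ k.symm 0).comp l.prod) 0 :=
      HasFDerivAt.comp (g := k.symm) 0 (by rw [hG0]; exact h1) hGf
    have h3 : HasFDerivAt (fun v => k.symm (k v)) ((fderiv ℝ k.symm 0).comp l.prod) 0 :=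
      HasFDerivAt.comp (g := k.symm) 0 (by rw [hk0]; exact h1) hkf
    have h4 : (fun v => k.symm (k v)) = fun v => v := funext fun v => k.symm_apply_apply v
    rw [h4] at h3
    rw [h2.fderiv]
    exact h3.unique (hasFDerivAt_id (0 : E n))
  have hg0 : (fun v => k.symm (G v)) 0 = 0 := by
    show k.symm (G 0) = 0
    rw [hG0, hks0]
  obtain ⟨ε, hε, hερ, f, f1, f2⟩ := id_germ (g := fun v => k.symm (G v)) hr hg1 hg0 hg2 hρ
  refine ⟨f.trans k, f1.homeo_trans k1, fun v hv => ?_, ⟨ε / 2, by positivity, fun v hv => ?_⟩,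
    fun v hv hGv => ?_⟩
  · show k (f v) = v
    have h1 : bmp n (ε⁻¹ • v) • (k.symm (G v) - v) = 0 :=
      cut_eq_zero (π := ContinuousLinearMap.id ℝ (E n)) (W := fun v => k.symm (G v) - v) hε
        (hερ.trans hv)
    rw [f2, h1, add_zero, k2 v hv]
  · show k (f v) = G v
    have h1 : bmp n (ε⁻¹ • v) • (k.symm (G v) - v) = k.symm (G v) - v :=
      cut_eq_self (π := ContinuousLinearMap.id ℝ (E n)) (W := fun v => k.symm (G v) - v) hε hv.le
    rw [f2, h1, add_sub_cancel, k.apply_symm_apply]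
  · show k (f v) = v
    have hkv : k v = v := k4 v hv
    have hksv : k.symm v = v := by
      conv_lhs => rw [← hkv]
      rw [k.symm_apply_apply]
    have h2 : f v = v := by
      rw [f2]
      by_cases hvρ : ‖v‖ < ρ
      · rw [hGv hvρ, hksv, sub_self, smul_zero, add_zero]
      · have h1 : bmp n (ε⁻¹ • v) • (k.symm (G v) - v) = 0 :=
          cut_eq_zero (π := ContinuousLinearMap.id ℝ (E n)) (W := fun v => k.symm (G v) - v) hε
            (hερ.trans (not_lt.1 hvρ))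
        rw [h1, add_zero]
    rw [h2, hkv]

end Pool.Agent.CSM
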