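import Pool.Agent.CSM.C6B
import Pool.Agent.CSM.CPG
import Pool.Agent.CSM.CDB

/-!
C6C. The axis germ lemma.
-/

open scoped Manifold ContDiff Topology
open Set

namespace Pool.Agent.CSM

theorem norm_consL_sq {m : ℕ} (s : ℝ) (x : E m) : ‖consL m (s, x)‖ ^ 2 = s ^ 2 + ‖x‖ ^ 2 := by
  rw [EuclideanSpace.real_norm_sq_eq, EuclideanSpace.real_norm_sq_eq, Fin.sum_univ_succ]
  rfl

theorem norm_axis {m : ℕ} (s : ℝ) : ‖consL m (s, 0)‖ = |s| := by
  have h := norm_consL_sq s (0 : E m)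
  rw [norm_zero, zero_pow two_ne_zero, add_zero, ← sq_abs s] at h
  exact (pow_left_inj₀ (norm_nonneg _) (abs_nonneg _) two_ne_zero).1 h

/-- The block matrix `1 ⊕ B`. -/
noncomputable def extL {m : ℕ} (B : E m →L[ℝ] E m) : E (m + 1) →L[ℝ] E (m + 1) :=
  ((consL m : (ℝ × E m) →L[ℝ] E (m + 1)) ∘L ((ContinuousLinearMap.id ℝ ℝ).prodMap B)) ∘L
    ((consL m).symm : E (m + 1) →L[ℝ] (ℝ × E m))

theorem extL_apply {m : ℕ} (B : E m →L[ℝ] E m) (s : ℝ) (x : E m) :
    extL B (consL m (s, x)) = consL m (s, B x) := by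
  simp [extL]

theorem extL_one {m : ℕ} : extL (1 : E m →L[ℝ] E m) = 1 := by
  ext1 u
  obtain ⟨⟨s, x⟩, rfl⟩ := (consL m).surjective u
  rw [extL_apply]
  rfl

theorem extL_mul {m : ℕ} (A B : E m →L[ℝ] E m) : extL (A * B) = extL A * extL B := by
  ext1 u
  obtain ⟨⟨s, x⟩, rfl⟩ := (consL m).surjective u
  rw [extL_apply]
  change _ = extL A (extL B (consL m (s, x)))
  rw [extL_apply, extL_apply]
  rfl

theorem extL_prod {m : ℕ} (l : List (E m →L[ℝ] E m)) : (l.map extL).prod = extL l.prod := by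
  induction l with
  | nil => rw [List.map_nil, List.prod_nil, List.prod_nil, extL_one]
  | cons a l ih => rw [List.map_cons, List.prod_cons, List.prod_cons, ih, extL_mul]

theorem norm_extL {m : ℕ} (B : E m →L[ℝ] E m) : ‖extL B - 1‖ ≤ ‖B - 1‖ := by
  apply ContinuousLinearMap.opNorm_le_bound _ (norm_nonneg _)
  intro u
  obtain ⟨⟨s, x⟩, rfl⟩ := (consL m).surjective u
  have h1 : (extL B - 1) (consL m (s, x)) = consL m (0, (B - 1) x) := by
    change extL B (consL m (s, x)) - consL m (s, x) = _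
    rw [extL_apply, ← map_sub]
    congr 1
    simp
  have h2 : ‖consL m (0, (B - 1) x)‖ = ‖(B - 1) x‖ := by
    have h := norm_consL_sq 0 ((B - 1) x)
    rw [zero_pow two_ne_zero, zero_add] at h
    exact (pow_left_inj₀ (norm_nonneg _) (norm_nonneg _) two_ne_zero).1 h
  have h3 : ‖x‖ ≤ ‖consL m (s, x)‖ := by
    have h := norm_consL_sq s x
    have : ‖x‖ ^ 2 ≤ ‖consL m (s, x)‖ ^ 2 := by rw [h]; nlinarith [sq_nonneg s]
    exact (pow_le_pow_iff_left₀ (norm_nonneg _) (norm_nonneg _) two_ne_zero).1 this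
  rw [h1, h2]
  exact ((B - 1).le_opNorm x).trans (mul_le_mul_of_nonneg_left h3 (norm_nonneg _))

theorem pow_nil {m : ℕ} {S : E m →L[ℝ] E m} (hS : S * S = 0) (c : ℝ) (n : ℕ) :
    (1 + c • S) ^ n = 1 + ((n : ℝ) * c) • S := by
  induction n with
  | zero =>
    ext1 x
    simp
  | succ n ih =>
    rw [pow_succ, ih]
    ext1 x
    have h1 : S (S x) = 0 := by
      change (S * S) x = 0
      rw [hS]
      rfl
    change (x + c • S x) + ((n : ℝ) * c) • S (x + c • S x) = x + (((n + 1 : ℕ) : ℝ) * c) • S x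
    rw [map_add, map_smul, h1, smul_zero, add_zero, add_assoc, ← add_smul]
    push_cast
    congr 2
    ring

/-- A map with positive determinant which fixes the axis is a product of such maps near 1. -/
theorem axis_list {m : ℕ} {L : E (m + 1) →L[ℝ] E (m + 1)} (hL : 0 < L.det)
    (h1 : L (consL m (1, 0)) = consL m (1, 0)) {ε : ℝ} (hε : 0 < ε) :
    ∃ l : List (E (m + 1) →L[ℝ] E (m + 1)), (∀ B ∈ l, ‖B - 1‖ < ε ∧
      B (consL m (1, 0)) = consL m (1, 0)) ∧ l.prod = L := by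
  set L' : (ℝ × E m) →L[ℝ] (ℝ × E m) := (((consL m).symm : E (m + 1) →L[ℝ] (ℝ × E m)) ∘L L) ∘L
    (consL m : (ℝ × E m) →L[ℝ] E (m + 1)) with hL'
  have hLa : ∀ p, L (consL m p) = consL m (L' p) := by
    intro p
    simp [hL']
  have h1' : L' (1, 0) = (1, 0) := by
    apply (consL m).injective
    rw [← hLa, h1]
  have hdet : L'.det = L.det := by
    have := LinearMap.det_conj (L : E (m + 1) →ₗ[ℝ] E (m + 1)) (consL m).symm.toLinearEquiv
    exact this
  have hB : 0 < (blk L').det := by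
    rw [← det_upper L' h1', hdet]
    exact hL
  set B := blk L' with hBdef
  obtain ⟨Bq, hBq⟩ := exists_equiv_of_det hB.ne'
  set β : E m →L[ℝ] ℝ := (((ContinuousLinearMap.fst ℝ ℝ (E m)) ∘L L') ∘L
    (ContinuousLinearMap.inr ℝ ℝ (E m))) ∘L (Bq.symm : E m →L[ℝ] E m) with hβ
  set S : E (m + 1) →L[ℝ] E (m + 1) := (((consL m : (ℝ × E m) →L[ℝ] E (m + 1)) ∘L
    (ContinuousLinearMap.inl ℝ ℝ (E m))) ∘L (β ∘L (ContinuousLinearMap.snd ℝ ℝ (E m)))) ∘L
    ((consL m).symm : E (m + 1) →L[ℝ] (ℝ × E m)) with hS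
  have hSa : ∀ s x, S (consL m (s, x)) = consL m (β x, 0) := by
    intro s x
    simp [hS]
  have hSS : S * S = 0 := by
    ext1 u
    obtain ⟨⟨s, x⟩, rfl⟩ := (consL m).surjective u
    change S (S (consL m (s, x))) = 0
    rw [hSa, hSa, map_zero]
    simp
  have hfac : L = (1 + S) * extL B := by
    ext1 u
    obtain ⟨⟨s, x⟩, rfl⟩ := (consL m).surjective u
    change L (consL m (s, x)) = extL B (consL m (s, x)) + S (extL B (consL m (s, x)))
    rw [extL_apply, hSa, ← map_add, hLa]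
    congr 1
    have h2 : L' (s, x) = s • L' (1, 0) + L' (0, x) := by
      rw [← map_smul, ← map_add]
      congr 1
      simp
    have h3 : B x = (L' (0, x)).2 := rfl
    have h4 : Bq.symm (B x) = x := by
      rw [← hBq]
      exact Bq.symm_apply_apply x
    have h5 : β (B x) = (L' (0, x)).1 := by
      simp only [hβ, ContinuousLinearMap.comp_apply, ContinuousLinearEquiv.coe_coe, h4]
      simp
    rw [h2, h1', h3, ← h3, h5]
    apply Prod.ext
    · simp
    · simp [h3]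
  obtain ⟨l, hl, hl'⟩ := gl_pos_gen hB hε
  obtain ⟨N, hN⟩ := exists_nat_gt (‖S‖ / ε)
  have hNpos : (0 : ℝ) < N := lt_of_le_of_lt (by positivity) hN
  have hNS : ‖((N : ℝ)⁻¹) • S‖ < ε := by
    rw [norm_smul, Real.norm_eq_abs, abs_of_pos (by positivity)]
    rw [div_lt_iff₀ hε] at hN
    rw [inv_mul_lt_iff₀ hNpos]
    exact hN
  refine ⟨List.replicate N (1 + ((N : ℝ)⁻¹) • S) ++ l.map extL, ?_, ?_⟩
  · intro A hA
    rw [List.mem_append] at hA
    rcases hA with hA | hA
    · rw [List.mem_replicate] at hA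
      rw [hA.2]
      constructor
      · rw [add_sub_cancel_left]
        exact hNS
      · change consL m (1, 0) + (N : ℝ)⁻¹ • S (consL m (1, 0)) = _
        rw [hSa, map_zero]
        have : consL m ((0 : ℝ), (0 : E m)) = 0 := map_zero _
        rw [this, smul_zero, add_zero]
    · rw [List.mem_map] at hA
      obtain ⟨C, hC, rfl⟩ := hA
      refine ⟨lt_of_le_of_lt (norm_extL C) (hl C hC), ?_⟩
      rw [extL_apply, map_zero]
  · rw [List.prod_append, List.prod_replicate, extL_prod, hl', pow_nil hSS,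
      mul_inv_cancel₀ hNpos.ne', one_smul]
    exact hfac.symm

theorem axis_germ {m : ℕ} {G : OPH (E (m + 1)) (E (m + 1))} (hG : PD (m + 1) G) {a : ℝ}
    (ha : consL m (a, 0) ∈ G.source) {δ₀ : ℝ} (hδ₀ : 0 < δ₀)
    (hax : ∀ s, |s - a| < δ₀ → G (consL m (s, 0)) = consL m (s, 0)) {ρ : ℝ} (hρ : 0 < ρ) :
    ∃ h : E (m + 1) ≃ₜ E (m + 1), PD (m + 1) h.toOpenPartialHomeomorph ∧
      (∀ v, ρ ≤ ‖v - consL m (a, 0)‖ → h v = v) ∧ (∀ s : ℝ, h (consL m (s, 0)) = consL m (s, 0)) ∧
      ∃ δ > 0, ∀ v, ‖v - consL m (a, 0)‖ < δ → h v = G v := by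
  obtain ⟨ε₀, hε₀, hgerm⟩ := germ_of_list (m + 1)
  set w := consL m (a, 0) with hw
  set G' : OPH (E (m + 1)) (E (m + 1)) :=
    ((trH w).toOpenPartialHomeomorph.trans G).trans (trH (-w)).toOpenPartialHomeomorph with hG'
  have hG'a : ∀ v, G' v = G (v + w) - w := by
    intro v
    change trH (-w) (G (trH w v)) = _
    rw [trH_apply, trH_apply, sub_eq_add_neg]
  have hG'pd : PD (m + 1) G' := ((pd_trH w).trans hG).trans (pd_trH (-w))
  have hG's : (0 : E (m + 1)) ∈ G'.source := by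
    rw [hG', OpenPartialHomeomorph.trans_source, OpenPartialHomeomorph.trans_source]
    refine ⟨⟨mem_univ _, ?_⟩, mem_univ _⟩
    have : trH w 0 ∈ G.source := by
      rw [trH_apply, zero_add]
      exact ha
    exact this
  have hline : ∀ s : ℝ, consL m (s, 0) + w = consL m (s + a, 0) := by
    intro s
    rw [hw, ← map_add]
    congr 1
    simp
  have hG'ax : ∀ s : ℝ, |s| < δ₀ → G' (consL m (s, 0)) = consL m (s, 0) := by
    intro s hs
    rw [hG'a, hline, hax (s + a) (by simpa using hs), ← hline, add_sub_cancel_right]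
  have hG'0 : G' 0 = 0 := by
    have h0 : consL m ((0 : ℝ), (0 : E m)) = 0 := map_zero _
    rw [← h0]
    exact hG'ax 0 (by simpa using hδ₀)
  have hpd0 := pdAt_model.1 (hG'pd.pdAt hG's)
  have hd0 : HasFDerivAt G' (fderiv ℝ G' 0) 0 := (hpd0.1.differentiableAt (by simp)).hasFDerivAt
  -- the derivative fixes the axis
  have hfix : fderiv ℝ G' 0 (consL m (1, 0)) = consL m (1, 0) := by
    have h0 : HasDerivAt (fun s : ℝ => s • consL m (1, 0)) (consL m (1, 0)) 0 := by
      simpa using (hasDerivAt_id (0 : ℝ)).smul_const (consL m (1, 0))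
    have h2 : HasFDerivAt G' (fderiv ℝ G' 0) ((fun s : ℝ => s • consL m (1, 0)) 0) := by
      simpa using hd0
    have h3 := h2.comp_hasDerivAt (0 : ℝ) h0
    have h4 : (G' ∘ fun s : ℝ => s • consL m (1, 0)) =ᶠ[𝓝 0] fun s : ℝ => s • consL m (1, 0) := by
      have : Metric.ball (0 : ℝ) δ₀ ∈ 𝓝 (0 : ℝ) := Metric.ball_mem_nhds _ hδ₀
      filter_upwards [this] with s hs
      rw [Metric.mem_ball, Real.dist_eq, sub_zero] at hs
      have := hG'ax s hs
      rw [consL_axis] at this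
      exact this
    exact (h3.congr_of_eventuallyEq h4.symm).unique h0
  obtain ⟨l, hl, hl'⟩ := axis_list hpd0.2 hfix hε₀
  obtain ⟨k, k1, k2, ⟨δ, hδ, k3⟩, k4⟩ := hgerm G' hG'pd hG's hG'0 l (fun B hB => (hl B hB).1) hl'
    (min ρ δ₀) (lt_min hρ hδ₀)
  have hkax : ∀ s : ℝ, k (consL m (s, 0)) = consL m (s, 0) := by
    intro s
    apply k4
    · intro B hB
      rw [consL_axis, map_smul, (hl B hB).2]
    · intro hs
      rw [norm_axis] at hs
      exact hG'ax s (lt_of_lt_of_le hs (min_le_right _ _))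
  refine ⟨((trH (-w)).trans k).trans (trH w), ((pd_trH (-w)).homeo_trans k1).homeo_trans (pd_trH w),
    ?_, ?_, δ, hδ, ?_⟩
  · intro v hv
    change k (v + -w) + w = v
    rw [← sub_eq_add_neg, k2 _ ((min_le_left _ _).trans hv), sub_add_cancel]
  · intro s
    change k (consL m (s, 0) + -w) + w = consL m (s, 0)
    have h5 : consL m (s, 0) + -w = consL m (s - a, 0) := by
      rw [← sub_eq_add_neg, sub_eq_iff_eq_add, hline, sub_add_cancel]
    rw [h5, hkax, hline, sub_add_cancel]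
  · intro v hv
    change k (v + -w) + w = G v
    rw [← sub_eq_add_neg, k3 _ hv, hG'a, sub_add_cancel, sub_add_cancel]

end Pool.Agent.CSM
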