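import Pool.Agent.CSM.C6C

/-!
C6D. Make the local tubes agree near the nodes k/N.
-/

open scoped Manifold ContDiff Topology
open Set

namespace Pool.Agent.CSM

variable {m : ℕ} {X : Type*} [TopologicalSpace X] [ChartedSpace (E (m + 1)) X]

theorem shift_int {N : ℕ} {ψ : ℤ → OPH (E (m + 1)) X}
    (h : ∀ (k : ℤ) (u : E (m + 1)), (u + consL m (1, 0) ∈ (ψ (k + N)).source ↔ u ∈ (ψ k).source) ∧
      ψ (k + N) (u + consL m (1, 0)) = ψ k u) (q : ℤ) :
    ∀ (k : ℤ) (u : E (m + 1)), ψ (k + q * N) (u + (q : ℝ) • consL m (1, 0)) = ψ k u := by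
  induction q using Int.induction_on with
  | zero =>
    intro k u
    simp
  | succ i ih =>
    intro k u
    have h1 := (h (k + i * N) (u + (i : ℝ) • consL m (1, 0))).2
    have h2 : k + ((i : ℤ) + 1) * N = k + i * N + N := by ring
    have h3 : u + (((i : ℤ) + 1 : ℤ) : ℝ) • consL m (1, 0) =
        u + (i : ℝ) • consL m (1, 0) + consL m (1, 0) := by
      push_cast
      rw [add_smul, one_smul, add_assoc]
    rw [h2, h3, h1]
    exact_mod_cast ih k u
  | pred i ih =>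
    intro k u
    have h1 := (h (k + (-(i : ℤ) - 1) * N) (u + (((-(i : ℤ) - 1 : ℤ)) : ℝ) • consL m (1, 0))).2
    have h2 : k + (-(i : ℤ) - 1) * N + N = k + (-(i : ℤ)) * N := by ring
    have h3 : u + (((-(i : ℤ) - 1 : ℤ)) : ℝ) • consL m (1, 0) + consL m (1, 0) =
        u + ((-(i : ℤ) : ℤ) : ℝ) • consL m (1, 0) := by
      push_cast
      rw [sub_smul, one_smul]
      abel
    rw [← h1, h2, h3]
    exact ih k u

variable [HasGroupoid X (orG (m + 1))] [T2Space X]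

theorem matched_fam {N : ℕ} (hN : 1 ≤ N) {c : ℝ → X} {ψ : ℤ → OPH (E (m + 1)) X}
    (h : TubeFam N c ψ) :
    ∃ ψ' : ℤ → OPH (E (m + 1)) X, TubeFam N c ψ' ∧ ∀ k : ℤ, ∃ δ > 0, ∀ v : E (m + 1),
      ‖v - consL m ((k : ℝ) / N, 0)‖ < δ → ψ' (k - 1) v = ψ' k v := by
  have hNpos : (0 : ℝ) < N := by exact_mod_cast hN
  have hNz : (N : ℤ) ≠ 0 := by omega
  have hNzp : (0 : ℤ) < N := by omega
  have h1N : (0 : ℝ) < 1 / N := by positivity
  have h2N : (0 : ℝ) < 1 / (2 * N) := by positivity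
  have h12 : 1 / (2 * (N : ℝ)) + 1 / (2 * N) = 1 / N := by field_simp; norm_num
  have h21 : (2 : ℝ) / N = 1 / N + 1 / N := by ring
  set e₀ : E (m + 1) := consL m (1, 0) with he₀
  set G : ℤ → OPH (E (m + 1)) (E (m + 1)) := fun k => (ψ (k - 1)).trans (ψ k).symm with hG
  have hpred : ∀ k : ℤ, (((k - 1 : ℤ)) : ℝ) / N = (k : ℝ) / N - 1 / N := by
    intro k
    push_cast
    rw [sub_div]
  have hin1 : ∀ (k : ℤ) (s : ℝ), |s - (k : ℝ) / N| < 1 / N → |s - (((k - 1 : ℤ)) : ℝ) / N| < 2 / N := by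
    intro k s hs
    rw [hpred, h21]
    rw [abs_lt] at hs ⊢
    constructor <;> linarith [hs.1, hs.2]
  have hin0 : ∀ (k : ℤ) (s : ℝ), |s - (k : ℝ) / N| < 1 / N → |s - (k : ℝ) / N| < 2 / N := by
    intro k s hs
    rw [h21]
    linarith
  have hGsrc : ∀ (k : ℤ) (s : ℝ), |s - (k : ℝ) / N| < 1 / N →
      consL m (s, 0) ∈ (G k).source ∧ G k (consL m (s, 0)) = consL m (s, 0) := by
    intro k s hs
    have a1 := h.src (k - 1) s (hin1 k s hs)
    have a2 := h.axis (k - 1) s (hin1 k s hs)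
    have b1 := h.src k s (hin0 k s hs)
    have b2 := h.axis k s (hin0 k s hs)
    constructor
    · rw [OpenPartialHomeomorph.trans_source]
      refine ⟨a1, ?_⟩
      change ψ (k - 1) (consL m (s, 0)) ∈ (ψ k).target
      rw [a2, ← b2]
      exact (ψ k).map_source b1
    · change (ψ k).symm (ψ (k - 1) (consL m (s, 0))) = _
      rw [a2, ← b2]
      exact (ψ k).left_inv b1
  have hGpd : ∀ k, PD (m + 1) (G k) := fun k => (h.pd (k - 1)).trans (h.pd k).symm
  have hself : ∀ k : ℤ, |(k : ℝ) / N - (k : ℝ) / N| < 1 / N := by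
    intro k
    rw [sub_self, abs_zero]
    exact h1N
  have hA : ∀ k : ℤ, ∃ g : E (m + 1) ≃ₜ E (m + 1), PD (m + 1) g.toOpenPartialHomeomorph ∧
      (∀ v, 1 / (2 * (N : ℝ)) ≤ ‖v - consL m ((k : ℝ) / N, 0)‖ → g v = v) ∧
      (∀ s : ℝ, g (consL m (s, 0)) = consL m (s, 0)) ∧
      ∃ δ > 0, ∀ v, ‖v - consL m ((k : ℝ) / N, 0)‖ < δ → g v = G k v := fun k =>
    axis_germ (hGpd k) (hGsrc k _ (hself k)).1 h1N (fun s hs => (hGsrc k s hs).2) h2N
  choose H H1 H2 H3 D D1 D2 using hA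
  -- the periodic family
  set g : ℤ → E (m + 1) ≃ₜ E (m + 1) := fun k =>
    ((trH (-(((k / N : ℤ) : ℝ) • e₀))).trans (H (k % N))).trans (trH (((k / N : ℤ) : ℝ) • e₀)) with hg
  have hga : ∀ k v, g k v = H (k % N) (v - ((k / N : ℤ) : ℝ) • e₀) + ((k / N : ℤ) : ℝ) • e₀ := by
    intro k v
    rw [sub_eq_add_neg]
    rfl
  have hgpd : ∀ k, PD (m + 1) (g k).toOpenPartialHomeomorph := fun k =>
    ((pd_trH _).homeo_trans (H1 _)).homeo_trans (pd_trH _)
  have hkN : ∀ k : ℤ, (k : ℝ) / N = ((k / N : ℤ) : ℝ) + ((k % N : ℤ) : ℝ) / N := by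
    intro k
    have h7 : (k : ℝ) = N * ((k / N : ℤ) : ℝ) + ((k % N : ℤ) : ℝ) := by
      exact_mod_cast (Int.mul_ediv_add_emod k N).symm
    rw [h7]
    field_simp
  have hnode : ∀ k : ℤ, consL m ((k : ℝ) / N, 0) =
      consL m (((k % N : ℤ) : ℝ) / N, 0) + ((k / N : ℤ) : ℝ) • e₀ := by
    intro k
    rw [consL_axis ((k : ℝ) / N), consL_axis (((k % N : ℤ) : ℝ) / N), hkN k, add_smul]
    exact add_comm _ _
  have hg2 : ∀ (k : ℤ) (v : E (m + 1)), 1 / (2 * (N : ℝ)) ≤ ‖v - consL m ((k : ℝ) / N, 0)‖ → g k v = v := by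
    intro k v hv
    rw [hga, H2, sub_add_cancel]
    rw [hnode k] at hv
    rwa [sub_sub, add_comm (((k / N : ℤ) : ℝ) • e₀)]
  have hg3 : ∀ (k : ℤ) (s : ℝ), g k (consL m (s, 0)) = consL m (s, 0) := by
    intro k s
    have h4 : consL m (s, 0) - ((k / N : ℤ) : ℝ) • e₀ = consL m (s - ((k / N : ℤ) : ℝ), 0) := by
      rw [consL_axis s, consL_axis (s - _), sub_smul]
    rw [hga, h4, H3, ← h4, sub_add_cancel]
  have hgN : ∀ (k : ℤ) (v : E (m + 1)), g (k + N) (v + e₀) = g k v + e₀ := by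
    intro k v
    have h1 : (k + N) % (N : ℤ) = k % N := by simp
    have h2 : (k + N) / (N : ℤ) = k / N + 1 := by
      rw [Int.add_ediv_of_dvd_right (dvd_refl _), Int.ediv_self hNz]
    rw [hga, hga, h1, h2]
    push_cast
    rw [add_smul, one_smul]
    have h5 : v + e₀ - (((k / N : ℤ) : ℝ) • e₀ + e₀) = v - ((k / N : ℤ) : ℝ) • e₀ := by abel
    rw [h5]
    abel
  set ψ' : ℤ → OPH (E (m + 1)) X := fun k => (g k).toOpenPartialHomeomorph.trans (ψ k) with hψ'
  have hψa : ∀ k v, ψ' k v = ψ k (g k v) := fun k v => rfl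
  have hψs : ∀ k v, v ∈ (ψ' k).source ↔ g k v ∈ (ψ k).source := by
    intro k v
    rw [hψ', OpenPartialHomeomorph.trans_source]
    exact ⟨fun h => h.2, fun h => ⟨mem_univ _, h⟩⟩
  have hfam : TubeFam N c ψ' := by
    constructor
    · intro k
      exact (hgpd k).trans (h.pd k)
    · intro k s hs
      rw [hψs, hg3]
      exact h.src k s hs
    · intro k s hs
      rw [hψa, hg3]
      exact h.axis k s hs
    · intro k u
      constructor
      · rw [hψs, hψs, hgN]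
        exact (h.shift k (g k u)).1
      · rw [hψa, hψa, hgN]
        exact (h.shift k (g k u)).2
  refine ⟨ψ', hfam, ?_⟩
  -- the nodes 0 ≤ r < N
  have hnode0 : ∀ r : ℤ, 0 ≤ r → r < N → ∃ δ > 0, ∀ v : E (m + 1),
      ‖v - consL m ((r : ℝ) / N, 0)‖ < δ → ψ' (r - 1) v = ψ' r v := by
    intro r hr0 hr1
    have hrm : r % N = r := Int.emod_eq_of_lt hr0 hr1
    have hrd : r / N = 0 := Int.ediv_eq_zero_of_lt hr0 hr1
    have hgr : ∀ v, g r v = H r v := by
      intro v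
      rw [hga, hrm, hrd]
      simp
    obtain ⟨δ₁, hδ₁, hb⟩ := Metric.isOpen_iff.1 (G r).open_source _ (hGsrc r _ (hself r)).1
    refine ⟨min (min δ₁ (D r)) (1 / (2 * N)), by
      have := D1 r
      positivity, ?_⟩
    intro v hv
    have v1 : ‖v - consL m ((r : ℝ) / N, 0)‖ < δ₁ := lt_of_lt_of_le hv ((min_le_left _ _).trans (min_le_left _ _))
    have v2 : ‖v - consL m ((r : ℝ) / N, 0)‖ < D r := lt_of_lt_of_le hv ((min_le_left _ _).trans (min_le_right _ _))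
    have v3 : ‖v - consL m ((r : ℝ) / N, 0)‖ < 1 / (2 * N) := lt_of_lt_of_le hv (min_le_right _ _)
    have hvs : v ∈ (G r).source := hb (by rwa [Metric.mem_ball, dist_eq_norm])
    rw [hG] at hvs
    simp only [OpenPartialHomeomorph.trans_source, mem_inter_iff, mem_preimage] at hvs
    have e1 : ψ' r v = ψ (r - 1) v := by
      rw [hψa, hgr, D2 r v v2]
      change ψ r ((ψ r).symm (ψ (r - 1) v)) = _
      exact (ψ r).right_inv hvs.2
    have e2 : ψ' (r - 1) v = ψ (r - 1) v := by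
      rw [hψa, hg2]
      have h6 : ‖consL m ((r : ℝ) / N, 0) - consL m ((((r - 1 : ℤ)) : ℝ) / N, 0)‖ = 1 / N := by
        rw [← map_sub, Prod.mk_sub_mk, sub_zero, norm_axis, hpred, sub_sub_cancel, abs_of_pos h1N]
      have h7 : ‖consL m ((r : ℝ) / N, 0) - consL m ((((r - 1 : ℤ)) : ℝ) / N, 0)‖ ≤
          ‖v - consL m ((((r - 1 : ℤ)) : ℝ) / N, 0)‖ + ‖v - consL m ((r : ℝ) / N, 0)‖ := by
        have h8 : consL m ((r : ℝ) / N, 0) - consL m ((((r - 1 : ℤ)) : ℝ) / N, 0) =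
            (v - consL m ((((r - 1 : ℤ)) : ℝ) / N, 0)) - (v - consL m ((r : ℝ) / N, 0)) := by abel
        rw [h8]
        exact norm_sub_le _ _
      linarith
    rw [e1, e2]
  intro k
  obtain ⟨δ, hδ, hd⟩ := hnode0 (k % N) (Int.emod_nonneg k hNz) (Int.emod_lt_of_pos k hNzp)
  refine ⟨δ, hδ, fun v hv => ?_⟩
  have hs := shift_int hfam.shift (k / N)
  have hk : k % N + k / N * N = k := by
    have := Int.mul_ediv_add_emod k N
    linarith
  have hu : v = (v - ((k / N : ℤ) : ℝ) • e₀) + ((k / N : ℤ) : ℝ) • e₀ := by rw [sub_add_cancel]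
  have h1 := hs (k % N) (v - ((k / N : ℤ) : ℝ) • e₀)
  have h2 := hs (k % N - 1) (v - ((k / N : ℤ) : ℝ) • e₀)
  have hk2 : k % N - 1 + k / N * N = k - 1 := by linarith
  rw [hk, ← hu] at h1
  rw [hk2, ← hu] at h2
  rw [h1, h2]
  apply hd
  rw [hnode k] at hv
  rwa [sub_sub, add_comm (((k / N : ℤ) : ℝ) • e₀)]

end Pool.Agent.CSM
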