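import Pool.Agent.CSM.C6D

/-!
C6E. The patched map.
-/

open scoped Manifold ContDiff Topology
open Set

namespace Pool.Agent.CSM

variable {m : ℕ} {X : Type*} [TopologicalSpace X] [ChartedSpace (E (m + 1)) X]
  [HasGroupoid X (orG (m + 1))] [T2Space X]

theorem patched_map (hm : 1 ≤ m) {c : ℝ → X} (hc : ∀ t, RegAt (m + 1) c t)
    (hp : ∀ t, c (t + 1) = c t) :
    ∃ f : ℝ → E m → X, (∀ s x, f (s + 1) x = f s x) ∧ (∀ s, f s 0 = c s) ∧
      ∀ s₀ : ℝ, ∃ Φ : OPH (E (m + 1)) X, PD (m + 1) Φ ∧ ∃ δ > 0, ∀ (s : ℝ) (x : E m),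
        |s - s₀| < δ → ‖x‖ < δ → consL m (s, x) ∈ Φ.source ∧ f s x = Φ (consL m (s, x)) := by
  obtain ⟨N, hN, ψ₀, hψ₀⟩ := exists_tubeFam hm hc hp
  obtain ⟨ψ, hψ, hmatch⟩ := matched_fam hN hψ₀
  have hNpos : (0 : ℝ) < N := by exact_mod_cast hN
  have h1N : (0 : ℝ) < 1 / N := by positivity
  have h21 : (2 : ℝ) / N = 1 / N + 1 / N := by ring
  set f : ℝ → E m → X := fun s x => ψ ⌊(N : ℝ) * s⌋ (consL m (s, x)) with hf
  have hfl : ∀ s : ℝ, |s - ((⌊(N : ℝ) * s⌋ : ℤ) : ℝ) / N| < 2 / N := by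
    intro s
    have h1 := Int.floor_le ((N : ℝ) * s)
    have h2 := Int.lt_floor_add_one ((N : ℝ) * s)
    have h3 : ((⌊(N : ℝ) * s⌋ : ℤ) : ℝ) / N ≤ s := by
      rw [div_le_iff₀ hNpos]; linarith
    have h4 : s < ((⌊(N : ℝ) * s⌋ : ℤ) : ℝ) / N + 1 / N := by
      rw [← add_div, lt_div_iff₀ hNpos]; linarith
    rw [abs_lt, h21]
    constructor <;> linarith
  refine ⟨f, ?_, ?_, ?_⟩
  · intro s x
    simp only [hf]
    have h1 : ⌊(N : ℝ) * (s + 1)⌋ = ⌊(N : ℝ) * s⌋ + N := by
      rw [mul_add, mul_one]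
      exact Int.floor_add_natCast _ _
    have h2 : consL m (s + 1, x) = consL m (s, x) + consL m (1, 0) := by
      rw [← map_add]
      congr 1
      simp
    rw [h1, h2]
    exact (hψ.shift _ _).2
  · intro s
    exact hψ.axis _ s (hfl s)
  · intro s₀
    set k := ⌊(N : ℝ) * s₀⌋ with hk
    have hsrc : consL m (s₀, 0) ∈ (ψ k).source := hψ.src k s₀ (hfl s₀)
    have hopen : IsOpen ((consL m) ⁻¹' (ψ k).source) := (ψ k).open_source.preimage (consL m).continuous
    obtain ⟨δ₁, hδ₁, hb₁⟩ := Metric.isOpen_iff.1 hopen (s₀, 0) hsrc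
    have hpair : ∀ (δ : ℝ) (s : ℝ) (x : E m), |s - s₀| < δ → ‖x‖ < δ → (s, x) ∈ Metric.ball (s₀, (0 : E m)) δ := by
      intro δ s x hs hx
      rw [Metric.mem_ball, Prod.dist_eq, max_lt_iff]
      constructor
      · rwa [Real.dist_eq]
      · rwa [dist_zero_right]
    have hk1 := Int.floor_le ((N : ℝ) * s₀)
    have hk2 := Int.lt_floor_add_one ((N : ℝ) * s₀)
    rw [← hk] at hk1 hk2
    -- the upper margin
    have hup : 0 < ((k : ℝ) + 1) / N - s₀ := by
      rw [sub_pos, lt_div_iff₀ hNpos]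
      linarith
    refine ⟨ψ k, hψ.pd k, ?_⟩
    rcases eq_or_lt_of_le hk1 with hcase | hcase
    · -- s₀ is a node
      have hs0 : (k : ℝ) / N = s₀ := by
        rw [div_eq_iff hNpos.ne']; linarith
      obtain ⟨δ₂, hδ₂, hm2⟩ := hmatch k
      have hopen2 : IsOpen {p : ℝ × E m | ‖consL m p - consL m ((k : ℝ) / N, 0)‖ < δ₂} := by
        have h1 : Continuous fun p : ℝ × E m => ‖consL m p - consL m ((k : ℝ) / N, 0)‖ := by fun_prop
        exact isOpen_lt h1 continuous_const
      obtain ⟨δ₃, hδ₃, hb₃⟩ := Metric.isOpen_iff.1 hopen2 (s₀, 0) (by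
        change ‖consL m (s₀, 0) - consL m ((k : ℝ) / N, 0)‖ < δ₂
        rw [hs0, sub_self, norm_zero]
        exact hδ₂)
      refine ⟨min (min δ₁ δ₃) (1 / N), by positivity, fun s x hs hx => ?_⟩
      have s1 : |s - s₀| < δ₁ := lt_of_lt_of_le hs ((min_le_left _ _).trans (min_le_left _ _))
      have s3 : |s - s₀| < δ₃ := lt_of_lt_of_le hs ((min_le_left _ _).trans (min_le_right _ _))
      have s4 : |s - s₀| < 1 / N := lt_of_lt_of_le hs (min_le_right _ _)
      have x1 : ‖x‖ < δ₁ := lt_of_lt_of_le hx ((min_le_left _ _).trans (min_le_left _ _))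
      have x3 : ‖x‖ < δ₃ := lt_of_lt_of_le hx ((min_le_left _ _).trans (min_le_right _ _))
      refine ⟨hb₁ (hpair δ₁ s x s1 x1), ?_⟩
      have hagree : ψ (k - 1) (consL m (s, x)) = ψ k (consL m (s, x)) :=
        hm2 _ (hb₃ (hpair δ₃ s x s3 x3))
      rw [abs_lt] at s4
      simp only [hf]
      rcases le_or_gt s₀ s with hle | hlt
      · have : ⌊(N : ℝ) * s⌋ = k := by
          rw [Int.floor_eq_iff]
          constructor
          · rw [hcase]
            exact mul_le_mul_of_nonneg_left hle hNpos.le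
          · have h5 : s < s₀ + 1 / N := by linarith
            have h6 := mul_lt_mul_of_pos_left h5 hNpos
            rw [mul_add, mul_one_div_cancel hNpos.ne', ← hcase] at h6
            exact h6
        rw [this]
      · have : ⌊(N : ℝ) * s⌋ = k - 1 := by
          rw [Int.floor_eq_iff]
          push_cast
          constructor
          · have h5 : s₀ - 1 / N ≤ s := by linarith
            have h6 := mul_le_mul_of_nonneg_left h5 hNpos.le
            rw [mul_sub, mul_one_div_cancel hNpos.ne', ← hcase] at h6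
            exact h6
          · rw [sub_add_cancel, hcase]
            exact mul_lt_mul_of_pos_left hlt hNpos
        rw [this, hagree]
    · -- s₀ is between two nodes
      have hlow : 0 < s₀ - (k : ℝ) / N := by
        rw [sub_pos, div_lt_iff₀ hNpos]
        linarith
      refine ⟨min δ₁ (min (((k : ℝ) + 1) / N - s₀) (s₀ - (k : ℝ) / N)), by positivity,
        fun s x hs hx => ?_⟩
      have s1 : |s - s₀| < δ₁ := lt_of_lt_of_le hs (min_le_left _ _)
      have x1 : ‖x‖ < δ₁ := lt_of_lt_of_le hx (min_le_left _ _)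
      have s2 : |s - s₀| < ((k : ℝ) + 1) / N - s₀ :=
        lt_of_lt_of_le hs ((min_le_right _ _).trans (min_le_left _ _))
      have s3 : |s - s₀| < s₀ - (k : ℝ) / N :=
        lt_of_lt_of_le hs ((min_le_right _ _).trans (min_le_right _ _))
      refine ⟨hb₁ (hpair δ₁ s x s1 x1), ?_⟩
      rw [abs_lt] at s2 s3
      simp only [hf]
      have : ⌊(N : ℝ) * s⌋ = k := by
        rw [Int.floor_eq_iff]
        constructor
        · have h5 : (k : ℝ) / N ≤ s := by linarith
          rw [div_le_iff₀ hNpos] at h5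
          linarith
        · have h5 : s < ((k : ℝ) + 1) / N := by linarith
          rw [lt_div_iff₀ hNpos] at h5
          linarith
      rw [this]

end Pool.Agent.CSM
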