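import Pool.Agent.CSM.Core2

/-!
CSM chunk C, module CAO: maps which are orientation preserving local diffeomorphisms are open; an injective one is
an open partial homeomorphism.
-/

open scoped Manifold ContDiff Topology
open Set

namespace Pool.Agent.CSM

section

variable {n : ℕ} {X Y : Type*} [TopologicalSpace X] [TopologicalSpace Y] [ChartedSpace (E n) X]
  [ChartedSpace (E n) Y]

/-- The local form of openness. -/
theorem PDAt.map_nhds {f : X → Y} {x : X} (h : PDAt n f x) : Filter.map f (𝓝 x) = 𝓝 (f x) := by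
  set e := chartAt (E n) x with he
  set e' := chartAt (E n) (f x) with he'
  have hx : x ∈ e.source := mem_chart_source _ _
  have hx' : f x ∈ e'.source := mem_chart_source _ _
  obtain ⟨h1, h2⟩ := h.2 e (chart_mem_atlas _ _) e' (chart_mem_atlas _ _) hx hx'
  obtain ⟨B, hB⟩ := exists_equiv_of_det h2.ne'
  have hs : HasStrictFDerivAt (e' ∘ f ∘ e.symm) (B : E n →L[ℝ] E n) (e x) := by
    rw [hB]
    exact h1.hasStrictFDerivAt (by simp)
  have h3 : Filter.map (e' ∘ f ∘ e.symm) (𝓝 (e x)) = 𝓝 (e' (f x)) := by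
    rw [hs.map_nhds_eq_of_equiv]
    simp [e.left_inv hx]
  have h4 : Filter.map e.symm (𝓝 (e x)) = 𝓝 x := by
    rw [e.symm.map_nhds_eq (e.map_source hx), e.left_inv hx]
  have h5 : Filter.map (e' ∘ f) (𝓝 x) = 𝓝 (e' (f x)) := by
    rw [← h3, ← h4, Filter.map_map]
    rfl
  have h6 : Filter.map e'.symm (Filter.map (e' ∘ f) (𝓝 x)) = Filter.map f (𝓝 x) := by
    rw [Filter.map_map]
    refine Filter.map_congr ?_
    filter_upwards [h.1.eventually (e'.open_source.mem_nhds hx')] with y hy
    simp [e'.left_inv hy]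
  rw [← h6, h5, e'.symm.map_nhds_eq (e'.map_source hx'), e'.left_inv hx']

/-- An injective local diffeomorphism is an open partial homeomorphism. -/
theorem exists_oph [Nonempty X] {f : X → Y} {s : Set X} (hs : IsOpen s) (hinj : InjOn f s)
    (hf : ∀ x ∈ s, PDAt n f x) :
    ∃ e : OPH X Y, PD n e ∧ e.source = s ∧ e.target = f '' s ∧ ∀ x, e x = f x := by
  have hc : ContinuousOn f s := fun x hx => (hf x hx).1.continuousWithinAt
  have ho : IsOpenMap (s.restrict f) := by
    rw [isOpenMap_iff_nhds_le]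
    intro a
    have h1 : Filter.map (s.restrict f) (𝓝 a) = Filter.map f (Filter.map Subtype.val (𝓝 a)) := by
      rw [Filter.map_map]
      rfl
    rw [h1, map_nhds_subtype_coe_eq_nhds a.2 (hs.mem_nhds a.2), (hf a a.2).map_nhds]
    exact le_rfl
  refine ⟨OpenPartialHomeomorph.ofContinuousOpenRestrict (hinj.toPartialEquiv f s) hc ho hs,
    ?_, rfl, rfl, fun x => rfl⟩
  rw [pd_iff]
  intro x hx
  exact hf x hx

/-- A bijective local diffeomorphism is a diffeomorphism. -/
theorem exists_homeo_of_bij [Nonempty X] {f : X → Y} (hb : Function.Bijective f) (hf : ∀ x, PDAt n f x) :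
    ∃ h : X ≃ₜ Y, (∀ x, h x = f x) ∧ PD n h.toOpenPartialHomeomorph := by
  obtain ⟨e, he, hs, ht, hfe⟩ := exists_oph isOpen_univ hb.1.injOn fun x _ => hf x
  have ht' : e.target = univ := by
    rw [ht, image_univ, hb.2.range_eq]
  obtain ⟨D, h1, h2⟩ := exists_homeo e hs ht'
  exact ⟨D, fun x => by rw [h1, hfe], h2 he⟩

theorem PD.homeo_trans [HasGroupoid Y (orG n)] {Z : Type*} [TopologicalSpace Z] [ChartedSpace (E n) Z]
    {g : X ≃ₜ Y} {h : Y ≃ₜ Z} (hg : PD n g.toOpenPartialHomeomorph) (hh : PD n h.toOpenPartialHomeomorph) :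
    PD n (g.trans h).toOpenPartialHomeomorph := by
  refine (hg.trans hh).congr ?_ fun x _ => rfl
  simp

theorem PD.homeo_symm {g : X ≃ₜ Y} (hg : PD n g.toOpenPartialHomeomorph) :
    PD n g.symm.toOpenPartialHomeomorph := by
  refine hg.symm.congr ?_ fun x _ => rfl
  simp

end

end Pool.Agent.CSM
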