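import Pool.Agent.CSM.CMB

/-!
CMC. Smooth Gram-Schmidt for loops.
-/

open scoped Manifold ContDiff Topology RealInnerProductSpace
open Set

namespace Pool.Agent.CSM

theorem tC_apply {m : ℕ} (A : Matrix (Fin m) (Fin m) ℝ) (x : E m) (i : Fin m) :
    tC A x i = ∑ j, A i j * x j := by
  have h : tC A x i = (A.mulVec (WithLp.ofLp x)) i := rfl
  rw [h, Matrix.mulVec, dotProduct]

theorem contDiff_tC {m : ℕ} {M : ℝ → Matrix (Fin m) (Fin m) ℝ}
    (hM : ∀ i j, ContDiff ℝ ∞ fun t => M t i j) : ContDiff ℝ ∞ fun t => tC (M t) := by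
  rw [contDiff_clm_apply_iff]
  intro y
  rw [contDiff_euclidean]
  intro i
  simp only [tC_apply]
  exact ContDiff.sum fun j _ => (hM i j).mul contDiff_const

/-- Orthogonalised images of the standard basis. -/
noncomputable def gsv {m : ℕ} (A : E m →L[ℝ] E m) (j : Fin m) : E m :=
  InnerProductSpace.gramSchmidt ℝ (fun k => A (EuclideanSpace.single k 1)) j

/-- Orthonormalised images of the standard basis. -/
noncomputable def ons {m : ℕ} (A : E m →L[ℝ] E m) (j : Fin m) : E m := ‖gsv A j‖⁻¹ • gsv A j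

theorem linInd {m : ℕ} {A : E m →L[ℝ] E m} (hA : A.det ≠ 0) :
    LinearIndependent ℝ (fun k : Fin m => A (EuclideanSpace.single k (1 : ℝ))) := by
  obtain ⟨B, hB⟩ := exists_equiv_of_det hA
  have h1 := ((EuclideanSpace.basisFun (Fin m) ℝ).toBasis.map B.toLinearEquiv).linearIndependent
  have h2 : (fun k : Fin m => A (EuclideanSpace.single k (1 : ℝ))) =
      ⇑((EuclideanSpace.basisFun (Fin m) ℝ).toBasis.map B.toLinearEquiv) := by
    funext k
    rw [Module.Basis.map_apply, ← hB]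
    simp
  rw [h2]
  exact h1

theorem gsv_ne {m : ℕ} {A : E m →L[ℝ] E m} (hA : A.det ≠ 0) (j : Fin m) : gsv A j ≠ 0 :=
  InnerProductSpace.gramSchmidt_ne_zero j (linInd hA)

theorem gsv_smooth {m : ℕ} {A : ℝ → E m →L[ℝ] E m} (hA : ContDiff ℝ ∞ A)
    (hd : ∀ t, (A t).det ≠ 0) : ∀ j : Fin m, ContDiff ℝ ∞ fun t => gsv (A t) j := by
  intro j
  induction j using WellFoundedLT.induction with
  | ind j ih =>
  have h1 : ∀ t, gsv (A t) j = A t (EuclideanSpace.single j 1) - ∑ i ∈ Finset.Iio j,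
      (⟪gsv (A t) i, A t (EuclideanSpace.single j 1)⟫ / ‖gsv (A t) i‖ ^ 2) • gsv (A t) i := by
    intro t
    have := InnerProductSpace.gramSchmidt_def'' ℝ
      (fun k => A t (EuclideanSpace.single k (1 : ℝ))) j
    simp only [gsv]
    rw [eq_sub_iff_add_eq]
    exact this.symm
  simp only [h1]
  have h2 : ∀ k : Fin m, ContDiff ℝ ∞ fun t => A t (EuclideanSpace.single k (1 : ℝ)) :=
    fun k => hA.clm_apply contDiff_const
  refine (h2 j).sub (ContDiff.sum fun i hi => ?_)
  have h3 := ih i (Finset.mem_Iio.1 hi)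
  refine ContDiff.smul (ContDiff.div (h3.inner ℝ (h2 j)) (h3.norm_sq ℝ) fun t => ?_) h3
  exact pow_ne_zero 2 (norm_ne_zero_iff.2 (gsv_ne (hd t) i))

theorem ons_smooth {m : ℕ} {A : ℝ → E m →L[ℝ] E m} (hA : ContDiff ℝ ∞ A)
    (hd : ∀ t, (A t).det ≠ 0) (j : Fin m) : ContDiff ℝ ∞ fun t => ons (A t) j := by
  have h1 := gsv_smooth hA hd j
  exact ((h1.norm ℝ fun t => gsv_ne (hd t) j).inv fun t => norm_ne_zero_iff.2 (gsv_ne (hd t) j)).smul h1

theorem ons_basis {m : ℕ} {A : E m →L[ℝ] E m} (hA : A.det ≠ 0) :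
    ∃ B : OrthonormalBasis (Fin m) ℝ (E m), ∀ j, B j = ons A j := by
  have h1 := InnerProductSpace.gramSchmidtNormed_orthonormal (𝕜 := ℝ) (linInd hA)
  have h2 : Submodule.span ℝ (Set.range (InnerProductSpace.gramSchmidtNormed ℝ
      (fun k : Fin m => A (EuclideanSpace.single k (1 : ℝ))))) = ⊤ :=
    h1.linearIndependent.span_eq_top_of_card_eq_finrank' (by simp)
  refine ⟨OrthonormalBasis.mk h1 h2.ge, fun j => ?_⟩
  rw [OrthonormalBasis.coe_mk]
  rfl

theorem inner_ons {m : ℕ} {A : E m →L[ℝ] E m} {i j : Fin m} (hij : j < i) :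
    ⟪ons A i, A (EuclideanSpace.single j 1)⟫ = 0 := by
  rw [ons, real_inner_smul_left, gsv,
    InnerProductSpace.gramSchmidt_inv_triangular ℝ (fun k => A (EuclideanSpace.single k (1 : ℝ))) hij,
    mul_zero]

theorem inner_ons_self {m : ℕ} {A : E m →L[ℝ] E m} (hA : A.det ≠ 0) (i : Fin m) :
    0 < ⟪ons A i, A (EuclideanSpace.single i 1)⟫ := by
  have h1 := InnerProductSpace.gramSchmidt_def'' ℝ
      (fun k => A (EuclideanSpace.single k (1 : ℝ))) i
  have h2 : ⟪gsv A i, A (EuclideanSpace.single i 1)⟫ = ‖gsv A i‖ ^ 2 := by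
    rw [h1, inner_add_right, inner_sum, Finset.sum_eq_zero, add_zero]
    · exact real_inner_self_eq_norm_sq _
    · intro k hk
      rw [real_inner_smul_right, gsv, InnerProductSpace.gramSchmidt_orthogonal ℝ
        (fun k => A (EuclideanSpace.single k (1 : ℝ))) (Finset.mem_Iio.1 hk).ne', mul_zero]
  have h3 : 0 < ‖gsv A i‖ := norm_pos_iff.2 (gsv_ne hA i)
  rw [ons, real_inner_smul_left, h2]
  positivity

theorem gs_loop {m : ℕ} {A : ℝ → E m →L[ℝ] E m} (hA : ContDiff ℝ ∞ A)
    (hp : ∀ t, A (t + 1) = A t) (hd : ∀ t, 0 < (A t).det) :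
    ∃ (τ : Twist m) (R : ℝ → E m →L[ℝ] E m), ContDiff ℝ ∞ R ∧ (∀ t, R (t + 1) = R t) ∧
      (∀ t, A t = τ.O t * R t) ∧ ∀ s ∈ Icc (0 : ℝ) 1, ∀ t, 0 < ((1 - s) • 1 + s • R t).det := by
  have hd' : ∀ t, (A t).det ≠ 0 := fun t => (hd t).ne'
  set O : ℝ → E m →L[ℝ] E m := fun t => tC (Matrix.of fun i j => ons (A t) j i) with hO
  set M : ℝ → Matrix (Fin m) (Fin m) ℝ := fun t => Matrix.of fun i j =>
    ⟪ons (A t) i, A t (EuclideanSpace.single j 1)⟫ with hM
  have hOs : ContDiff ℝ ∞ O := by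
    refine contDiff_tC fun i j => ?_
    simp only [Matrix.of_apply]
    exact contDiff_euclidean.1 (ons_smooth hA hd' j) i
  have hRs : ContDiff ℝ ∞ fun t => tC (M t) := by
    refine contDiff_tC fun i j => ?_
    simp only [hM, Matrix.of_apply]
    exact (ons_smooth hA hd' i).inner ℝ (hA.clm_apply contDiff_const)
  have hOx : ∀ t x, O t x = ∑ j, x j • ons (A t) j := by
    intro t x
    ext i
    simp only [hO, tC_apply, Matrix.of_apply]
    rw [WithLp.ofLp_sum, Finset.sum_apply]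
    refine Finset.sum_congr rfl fun j _ => ?_
    simp [mul_comm]
  have hRx : ∀ t y i, tC (M t) y i = ⟪ons (A t) i, A t y⟫ := by
    intro t y i
    have hy : y = ∑ j, y j • EuclideanSpace.single j (1 : ℝ) := by
      have := (EuclideanSpace.basisFun (Fin m) ℝ).sum_repr y
      simpa using this.symm
    rw [tC_apply]
    conv_rhs => rw [hy]
    rw [map_sum, inner_sum]
    refine Finset.sum_congr rfl fun j _ => ?_
    rw [map_smul, real_inner_smul_right, mul_comm]
    rfl
  have hseg : ∀ s ∈ Icc (0 : ℝ) 1, ∀ t, 0 < ((1 - s) • 1 + s • tC (M t)).det := by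
    intro s hs t
    rw [tC_seg, det_tC]
    have htri : ((1 - s) • (1 : Matrix (Fin m) (Fin m) ℝ) + s • M t).IsUpperTriangular := by
      intro i j hij
      have hij' : j < i := hij
      simp only [Matrix.add_apply, Matrix.smul_apply, Matrix.one_apply, hij'.ne', if_false, smul_eq_mul,
        mul_zero, zero_add, hM, Matrix.of_apply]
      rw [inner_ons hij', mul_zero]
    rw [Matrix.det_of_isUpperTriangular htri]
    apply Finset.prod_pos
    intro i _
    have h1 : 0 < M t i i := inner_ons_self (hd' t) i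
    simp only [Matrix.add_apply, Matrix.smul_apply, Matrix.one_apply_eq, smul_eq_mul, mul_one]
    rcases eq_or_lt_of_le hs.1 with h0 | h0
    · rw [← h0]; norm_num
    · have := mul_pos h0 h1
      linarith [hs.2]
  have hmul : ∀ t, A t = O t * tC (M t) := by
    intro t
    ext1 y
    obtain ⟨B, hB⟩ := ons_basis (hd' t)
    change A t y = O t (tC (M t) y)
    rw [hOx]
    simp only [hRx]
    have := B.sum_repr' (A t y)
    simp only [hB] at this
    exact this.symm
  have hRdet : ∀ t, 0 < (tC (M t)).det := by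
    intro t
    have := hseg 1 (by simp) t
    have h1 : ((1 - (1 : ℝ)) • 1 + (1 : ℝ) • tC (M t)) = tC (M t) := by
      ext1 x
      simp
    rwa [h1] at this
  have hOdet : ∀ t, 0 < (O t).det := by
    intro t
    have h1 := hd t
    rw [hmul t] at h1
    have h2 : (O t * tC (M t)).det = (O t).det * (tC (M t)).det := det_comp' _ _
    rw [h2] at h1
    exact (pos_iff_pos_of_mul_pos h1).2 (hRdet t)
  refine ⟨⟨O, hOs, ?_, ?_, hOdet⟩, fun t => tC (M t), hRs, ?_, hmul, hseg⟩
  · intro t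
    simp only [hO, hp]
  · intro t x
    obtain ⟨B, hB⟩ := ons_basis (hd' t)
    rw [hOx]
    have := B.sum_repr_symm x
    simp only [hB] at this
    rw [this]
    exact B.repr.symm.norm_map x
  · intro t
    simp only [hM, hp]

end Pool.Agent.CSM
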