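import Pool.Agent.CSM.CMA
import Pool.Agent.CSM.CMC

/-!
CMD. Loops of matrices with positive determinant: a loop of rotations times small loops. (15 lines; `gs_loop`, `loop_seg`)
-/

open scoped Manifold ContDiff Topology
open Set

namespace Pool.Agent.CSM

theorem loop_factor {m : ℕ} {A : ℝ → E m →L[ℝ] E m} (hA : ContDiff ℝ ∞ A)
    (hp : ∀ t, A (t + 1) = A t) (hd : ∀ t, 0 < (A t).det) {ε : ℝ} (hε : 0 < ε) :
    ∃ (τ : Twist m) (l : List (ℝ → E m →L[ℝ] E m)), (∀ S ∈ l, SmallLoop ε S) ∧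
      ∀ t, A t = τ.O t * (l.map fun S => S t).prod := by
  obtain ⟨τ, R, hR, hRp, h1, h2⟩ := gs_loop hA hp hd
  obtain ⟨l, hl, hl'⟩ := loop_seg hR hRp (fun s hs t => (h2 s hs t).ne') hε
  exact ⟨τ, l, hl, fun t => by rw [h1, hl']⟩

end Pool.Agent.CSM
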