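import Pool.Agent.CSM.CLD
import Pool.Agent.CSM.CMD

/-!
Germs along the core of the solid torus: up to a loop of rotations they extend to diffeomorphisms supported near the
core.
-/

open scoped Manifold ContDiff Topology
open Set

namespace Pool.Agent.CSM

variable {m : ℕ} [HasGroupoid (T m) (orG (m + 1))]

/-- Germs tangent to the identity along the core. -/
theorem core_id_germ {P : T m → T m} {U : Set (T m)} (hU : IsOpen U) (hcU : ∀ θ : ℝ, mkT θ 0 ∈ U)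
    (hP : ∀ p ∈ U, PDAt (m + 1) P p) (h1 : ∀ θ, LD P θ 1) {ρ : ℝ} (hρ : 0 < ρ) :
    ∃ F : T m ≃ₜ T m, PD (m + 1) F.toOpenPartialHomeomorph ∧ (∀ p : T m, ρ ≤ ‖p.2‖ → F p = p) ∧
      ∃ δ > 0, ∀ v : ℝ × E m, ‖v.2‖ < δ → F (qT v) = P (qT v) := by
  have hc : ∀ θ : ℝ, P (mkT θ 0) = mkT θ 0 := fun θ => (h1 θ).fix
  obtain ⟨r, hr, hr2⟩ := liftP_near hU hcU hP hc
  have hbC := bC_nonneg m
  have hcore : ∀ θ : ℝ, ContDiffAt ℝ ∞ (liftP P) (θ, 0) := fun θ =>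
    (hr2 (θ, 0) (show ‖(0 : E m)‖ < r by rw [norm_zero]; exact hr)).2.1
  obtain ⟨ε, hε, hερ, D, D1, D2, D3⟩ := core_small (W := fun v => liftP P v - v) hr
    (fun v hv => (hr2 v hv).2.1.sub contDiffAt_id) (fun v k => by
      rw [liftP_add_int]
      abel) (fun θ => by rw [liftP_core (hc θ), sub_self]) (η := (2 * (1 + bC m))⁻¹) (fun θ => by
      have h2 : HasFDerivAt (liftP P) (1 : (ℝ × E m) →L[ℝ] (ℝ × E m)) (θ, 0) := by
        rw [← (LD.of_lift (hcore θ) (hc θ)).unique (h1 θ)]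
        exact ((hcore θ).differentiableAt (by simp)).hasFDerivAt
      have h3 : fderiv ℝ (fun v => liftP P v - v) (θ, 0) =
          (1 : (ℝ × E m) →L[ℝ] (ℝ × E m)) - ContinuousLinearMap.id ℝ (ℝ × E m) :=
        (h2.sub (hasFDerivAt_id (𝕜 := ℝ) ((θ, 0) : ℝ × E m))).fderiv
      have h4 : (1 : (ℝ × E m) →L[ℝ] (ℝ × E m)) - ContinuousLinearMap.id ℝ (ℝ × E m) = 0 := sub_self _
      rw [h3, h4, norm_zero]
      positivity) (by
      apply le_of_eq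
      field_simp) hρ
  refine ⟨D, D1, fun p hp => D2 p (hερ.trans hp), ε / 2, half_pos hε, fun v hv => ?_⟩
  have h5 : v + (liftP P v - v) = liftP P v := by abel
  have h6 := D3 v hv.le
  simp only [h5] at h6
  rw [h6, liftP_qT]

omit [HasGroupoid (T m) (orG (m + 1))] in
theorem twist_LD (τ : Twist m) {D : T m ≃ₜ T m} (hD : ∀ p, D p = τ.map p) (θ : ℝ) :
    LD D θ (mt 0 (τ.O θ)) := by
  have hs : ContDiff ℝ ∞ (fun v : ℝ × E m => (v.1, τ.O v.1 v.2)) :=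
    contDiff_fst.prodMk ((τ.smooth.comp contDiff_fst).clm_apply contDiff_snd)
  refine ⟨fun v => (v.1, τ.O v.1 v.2), hs.contDiffAt, ?_, ?_, Filter.Eventually.of_forall fun v => ?_⟩
  · show (θ, τ.O θ 0) = (θ, 0)
    rw [map_zero]
  · have hc : HasFDerivAt (fun v : ℝ × E m => τ.O v.1) (fderiv ℝ (fun v : ℝ × E m => τ.O v.1) (θ, 0)) (θ, 0) :=
      (((τ.smooth.comp contDiff_fst).differentiable (by simp)) (θ, 0)).hasFDerivAt
    have hu : HasFDerivAt (fun v : ℝ × E m => v.2) (ContinuousLinearMap.snd ℝ ℝ (E m)) (θ, 0) := hasFDerivAt_snd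
    have hf : HasFDerivAt (fun v : ℝ × E m => v.1) (ContinuousLinearMap.fst ℝ ℝ (E m)) (θ, 0) := hasFDerivAt_fst
    have h3 : HasFDerivAt (fun v : ℝ × E m => (v.1, τ.O v.1 v.2)) (mt 0 (τ.O θ)) (θ, 0) := by
      refine (hf.prodMk (hc.clm_apply hu)).congr_fderiv ?_
      refine ContinuousLinearMap.ext fun w => ?_
      rw [mt_apply]
      refine Prod.ext ?_ ?_
      · show w.1 = w.1 + 0
        rw [add_zero]
      · show τ.O θ w.2 + (fderiv ℝ (fun v : ℝ × E m => τ.O v.1) (θ, 0) w) 0 = τ.O θ w.2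
        rw [map_zero, add_zero]
    exact h3.fderiv
  · rw [hD, twist_qT]

omit [HasGroupoid (T m) (orG (m + 1))] in
theorem twist_norm (τ : Twist m) (p : T m) : ‖(τ.map p).2‖ = ‖p.2‖ := by
  obtain ⟨v, rfl⟩ := qT_surj p
  rw [twist_qT]
  exact τ.isom v.1 v.2

/-- Germs along the core. -/
theorem core_germ {G : OPH (T m) (T m)} (hG : PD (m + 1) G) (hs : ∀ θ : ℝ, mkT θ 0 ∈ G.source)
    (hc : ∀ θ : ℝ, G (mkT θ 0) = mkT θ 0) {ρ : ℝ} (hρ : 0 < ρ) :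
    ∃ (h : T m ≃ₜ T m) (τ : Twist m), PD (m + 1) h.toOpenPartialHomeomorph ∧ (∀ p : T m, ρ ≤ ‖p.2‖ → h p = p) ∧
      ∃ δ > 0, ∀ (θ : ℝ) (x : E m), ‖x‖ < δ → h (G (mkT θ x)) = τ.map (mkT θ x) := by
  have hbC := bC_nonneg m
  obtain ⟨r, hr, hr2⟩ := liftP_near G.open_source hs (fun p hp => hG.pdAt hp) hc
  have hcore : ∀ θ : ℝ, ContDiffAt ℝ ∞ (liftP G) (θ, 0) ∧ 0 < (fderiv ℝ (liftP G) (θ, 0)).det := fun θ =>
    (hr2 (θ, 0) (show ‖(0 : E m)‖ < r by rw [norm_zero]; exact hr)).2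
  set A : ℝ → (ℝ × E m) →L[ℝ] (ℝ × E m) := fun θ => fderiv ℝ (liftP G) (θ, 0) with hA
  have hemb : ContDiff ℝ ∞ (fun θ : ℝ => ((θ, 0) : ℝ × E m)) := contDiff_id.prodMk contDiff_const
  have hAs : ContDiff ℝ ∞ A := by
    rw [contDiff_iff_contDiffAt]
    intro θ
    have h1 : ContDiffAt ℝ ∞ (fderiv ℝ (liftP G)) (θ, 0) := (hcore θ).1.fderiv_right (by simp)
    exact h1.comp θ hemb.contDiffAt
  have hAp : ∀ θ, A (θ + 1) = A θ := by
    intro θ
    have h1 : (((θ + 1, 0) : ℝ × E m)) = (θ, 0) + ((1 : ℝ), (0 : E m)) := by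
      refine Prod.ext rfl ?_
      show (0 : E m) = 0 + 0
      rw [add_zero]
    show fderiv ℝ (liftP G) (θ + 1, 0) = fderiv ℝ (liftP G) (θ, 0)
    rw [h1, ← fderiv_comp_add_right]
    have h2 : (fun v : ℝ × E m => liftP G (v + ((1 : ℝ), (0 : E m)))) = fun v => liftP G v + ((1 : ℝ), (0 : E m)) := by
      funext v
      have := liftP_add_int G v 1
      rw [Int.cast_one] at this
      exact this
    rw [h2, fderiv_add_const]
  have hA1 : ∀ θ, A θ (1, 0) = (1, 0) := by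
    intro θ
    have h1 : HasDerivAt (fun t : ℝ => ((t, 0) : ℝ × E m)) ((1 : ℝ), (0 : E m)) θ :=
      (hasDerivAt_id θ).prodMk (hasDerivAt_const θ _)
    have h2 : HasDerivAt (fun t : ℝ => liftP G (t, 0)) (A θ (1, 0)) θ :=
      HasFDerivAt.comp_hasDerivAt (l := liftP G) θ (((hcore θ).1.differentiableAt (by simp)).hasFDerivAt) h1
    have h3 : (fun t : ℝ => liftP G (t, 0)) = fun t : ℝ => ((t, 0) : ℝ × E m) := by
      funext t
      exact liftP_core (hc t)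
    rw [h3] at h2
    exact h2.unique h1
  have hLs : ContDiff ℝ ∞ (fun θ => blk (A θ)) := by
    have : (fun θ => blk (A θ)) = fun θ =>
        ((ContinuousLinearMap.snd ℝ ℝ (E m)).comp ((A θ).comp (ContinuousLinearMap.inr ℝ ℝ (E m)))) := by
      funext θ
      refine ContinuousLinearMap.ext fun x => ?_
      rw [blk_apply]
      rfl
    rw [this]
    exact contDiff_const.clm_comp (hAs.clm_comp contDiff_const)
  have hLd : ∀ θ, 0 < (blk (A θ)).det := by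
    intro θ
    rw [← det_upper (A θ) (hA1 θ)]
    exact (hcore θ).2
  set η : ℝ := (2 * (1 + bC m))⁻¹ with hη
  have hη0 : 0 < η := by positivity
  have hη1 : (1 + bC m) * η ≤ 1 / 2 := by
    apply le_of_eq
    rw [hη]
    field_simp
  obtain ⟨τ, l, hl, hl2⟩ := loop_factor hLs (fun θ => by rw [hAp]) hLd hη0
  set a : ℝ → E m →L[ℝ] ℝ := fun θ =>
    (ContinuousLinearMap.fst ℝ ℝ (E m)).comp ((A θ).comp (ContinuousLinearMap.inr ℝ ℝ (E m))) with ha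
  have has : ContDiff ℝ ∞ a := contDiff_const.clm_comp (hAs.clm_comp contDiff_const)
  obtain ⟨K₁, k1, k2, k3⟩ := CD.main hη0 hη1 hρ l hl has (fun θ => by simp only [ha, hAp])
  obtain ⟨Dτ, t1, t2⟩ := twist_homeo τ
  set M : T m ≃ₜ T m := K₁.trans Dτ with hM
  have hMp : PD (m + 1) M.toOpenPartialHomeomorph := k1.homeo_trans t2
  have hML : ∀ θ, LD M θ (A θ) := by
    intro θ
    have h1 : LD M θ (mt 0 (τ.O θ) * mt (a θ) (l.map fun S => S θ).prod) := (twist_LD τ t1 θ).comp (k3 θ)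
    have h2 : mt 0 (τ.O θ) * mt (a θ) (l.map fun S => S θ).prod = A θ := by
      rw [mt_mul, mt_of (hA1 θ), hl2 θ]
      congr 1
      refine ContinuousLinearMap.ext fun y => ?_
      show a θ y + 0 = a θ y
      rw [add_zero]
    rw [h2] at h1
    exact h1
  have hNL : ∀ θ, LD (M.symm ∘ G) θ 1 := by
    intro θ
    obtain ⟨B, b1, b2, -⟩ := (hML θ).symm hMp
    have h1 := b1.comp (LD.of_lift (hcore θ).1 (hc θ))
    rw [show B * fderiv ℝ (liftP G) (θ, 0) = 1 from b2] at h1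
    exact h1
  have hNp : ∀ p ∈ G.source, PDAt (m + 1) (M.symm ∘ G) p := fun p hp =>
    (hMp.homeo_symm.pdAt (x := G p) (by simp)).comp (hG.pdAt hp)
  obtain ⟨F, f1, f2, δ, hδ, f3⟩ := core_id_germ G.open_source hs hNp hNL hρ
  set K : T m ≃ₜ T m := F.trans K₁ with hK
  have hKp : PD (m + 1) K.toOpenPartialHomeomorph := f1.homeo_trans k1
  refine ⟨(Dτ.symm.trans K.symm).trans Dτ, τ, (t2.homeo_symm.homeo_trans hKp.homeo_symm).homeo_trans t2,
    fun p hp => ?_, δ, hδ, fun θ x hx => ?_⟩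
  · show Dτ (K.symm (Dτ.symm p)) = p
    have h1 : ‖(Dτ.symm p).2‖ = ‖p.2‖ := by
      have h2 := twist_norm τ (Dτ.symm p)
      rw [← t1, Dτ.apply_symm_apply] at h2
      exact h2.symm
    have h3 : K (Dτ.symm p) = Dτ.symm p := by
      show K₁ (F (Dτ.symm p)) = Dτ.symm p
      rw [f2 _ (by rw [h1]; exact hp), k2 _ (by rw [h1]; exact hp)]
    have h4 : K.symm (Dτ.symm p) = Dτ.symm p := by
      rw [Homeomorph.symm_apply_eq, h3]
    rw [h4, Dτ.apply_symm_apply]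
  · show Dτ (K.symm (Dτ.symm (G (mkT θ x)))) = τ.map (mkT θ x)
    have h1 : F (mkT θ x) = M.symm (G (mkT θ x)) := f3 (θ, x) hx
    have h2 : G (mkT θ x) = Dτ (K (mkT θ x)) := by
      show G (mkT θ x) = M (F (mkT θ x))
      rw [h1, M.apply_symm_apply]
    rw [h2, Dτ.symm_apply_apply, K.symm_apply_apply, t1]

section

variable {X : Type*} [TopologicalSpace X] [ChartedSpace (E (m + 1)) X] [HasGroupoid X (orG (m + 1))] [T2Space X]

/-- (C5) Uniqueness of tubes with a given core up to a loop of rotations. -/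
theorem tube_unique' {e₀ e₁ : OPH (T m) X} (h₀ : PD (m + 1) e₀) (h₁ : PD (m + 1) e₁)
    (s₀ : ∀ θ : ℝ, mkT θ 0 ∈ e₀.source) (s₁ : ∀ θ : ℝ, mkT θ 0 ∈ e₁.source)
    (hc : ∀ θ : ℝ, e₀ (mkT θ 0) = e₁ (mkT θ 0)) {O : Set X} (hO : IsOpen O) (hcO : ∀ θ : ℝ, e₀ (mkT θ 0) ∈ O) :
    ∃ (D : X ≃ₜ X) (τ : Twist m), PD (m + 1) D.toOpenPartialHomeomorph ∧ (∀ x ∉ O, D x = x) ∧
      ∃ δ > 0, ∀ (θ : ℝ) (x : E m), ‖x‖ < δ → D (e₀ (mkT θ x)) = e₁ (τ.map (mkT θ x)) := by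
  have hF : Fact ((0 : ℝ) < 1) := ⟨one_pos⟩
  obtain ⟨δ₁, hδ₁, hb⟩ := core_nhd (e₁.isOpen_inter_preimage hO) (fun θ => ⟨s₁ θ, by
    show e₁ (mkT θ 0) ∈ O
    rw [← hc]
    exact hcO θ⟩)
  have hb' : ∀ p : T m, ‖p.2‖ < δ₁ → p ∈ e₁.source ∩ e₁ ⁻¹' O := by
    intro p hp
    obtain ⟨v, rfl⟩ := qT_surj p
    exact hb v.1 v.2 hp
  set K : Set (T m) := {p : T m | ‖p.2‖ ≤ δ₁ / 2} with hK
  have hKc : IsCompact K := by
    have h1 : IsCompact ((univ : Set (AddCircle (1 : ℝ))) ×ˢ (Metric.closedBall (0 : E m) (δ₁ / 2))) :=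
      isCompact_univ.prod (isCompact_closedBall 0 _)
    have h2 : K = ((univ : Set (AddCircle (1 : ℝ))) ×ˢ (Metric.closedBall (0 : E m) (δ₁ / 2))) := by
      ext p
      constructor
      · intro hp
        exact ⟨trivial, mem_closedBall_zero_iff.2 hp⟩
      · intro hp
        exact mem_closedBall_zero_iff.1 hp.2
    rw [h2]
    exact h1
  have hKs : ∀ p ∈ K, p ∈ e₁.source ∩ e₁ ⁻¹' O := fun p hp => hb' p (lt_of_le_of_lt hp (by linarith))
  set G : OPH (T m) (T m) := e₀.trans e₁.symm with hG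
  have hGs : ∀ p, p ∈ G.source ↔ p ∈ e₀.source ∧ e₀ p ∈ e₁.target := by
    intro p
    rw [hG, OpenPartialHomeomorph.trans_source]
    rfl
  have hGc : ∀ θ : ℝ, mkT θ 0 ∈ G.source := fun θ => (hGs _).2 ⟨s₀ θ, by rw [hc]; exact e₁.map_source (s₁ θ)⟩
  have hGf : ∀ θ : ℝ, G (mkT θ 0) = mkT θ 0 := by
    intro θ
    show e₁.symm (e₀ (mkT θ 0)) = mkT θ 0
    rw [hc, e₁.left_inv (s₁ θ)]
  obtain ⟨h, τ, h1, h2, δ, hδ, h3⟩ := core_germ (h₀.trans h₁.symm) hGc hGf (half_pos hδ₁)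
  obtain ⟨D, D1, D2, D3⟩ := exists_ext e₁ h hKc (fun p hp => (hKs p hp).1) (fun p hp => by
    have hp' : δ₁ / 2 < ‖p.2‖ := not_le.1 hp
    exact h2 p hp'.le)
  obtain ⟨δ₂, hδ₂, hb₂⟩ := core_nhd G.open_source hGc
  refine ⟨D, τ, D3 h₁ h1, fun x hx => D2 x ?_, min δ δ₂, lt_min hδ hδ₂, fun θ x hx => ?_⟩
  · rintro ⟨p, hp, rfl⟩
    exact hx (hKs p hp).2
  · have hx1 : ‖x‖ < δ := lt_of_lt_of_le hx (min_le_left _ _)
    have hx2 : mkT θ x ∈ G.source := hb₂ θ x (lt_of_lt_of_le hx (min_le_right _ _))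
    have h4 : e₀ (mkT θ x) = e₁ (G (mkT θ x)) := (e₁.right_inv ((hGs _).1 hx2).2).symm
    have h5 : G (mkT θ x) ∈ e₁.source := G.map_source hx2 |>.1
    rw [h4, D1 _ h5]
    exact congrArg e₁ (h3 θ x hx1)

end

end Pool.Agent.CSM
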