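import Pool.Agent.CSM.CSD

/-!
CSM chunk C, module CCU: cut off functions and cut off of a small vector field.
-/

open scoped Manifold ContDiff Topology
open Set

namespace Pool.Agent.CSM

/-- The cut off function: `1` on the ball of radius `1/2`, `0` outside the unit ball. -/
noncomputable def bmp (m : ℕ) : ContDiffBump (0 : E m) := ⟨1 / 2, 1, by norm_num, by norm_num⟩

theorem bmp_contDiff (m : ℕ) : ContDiff ℝ ∞ (bmp m) := (bmp m).contDiff

theorem bmp_nonneg (m : ℕ) (x : E m) : 0 ≤ bmp m x := (bmp m).nonneg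

theorem bmp_le_one (m : ℕ) (x : E m) : bmp m x ≤ 1 := (bmp m).le_one

theorem bmp_eq_one {m : ℕ} {x : E m} (h : ‖x‖ ≤ 1 / 2) : bmp m x = 1 :=
  (bmp m).one_of_mem_closedBall (by simpa [bmp] using h)

theorem bmp_eq_zero {m : ℕ} {x : E m} (h : 1 ≤ ‖x‖) : bmp m x = 0 :=
  (bmp m).zero_of_le_dist (by simpa [bmp] using h)

theorem exists_bC (m : ℕ) : ∃ C : ℝ, 0 ≤ C ∧ ∀ x, ‖fderiv ℝ (bmp m) x‖ ≤ C := by
  have h1 : Continuous (fderiv ℝ (bmp m)) := (bmp_contDiff m).continuous_fderiv (by simp)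
  have h2 : HasCompactSupport (fderiv ℝ (bmp m)) := (bmp m).hasCompactSupport.fderiv ℝ
  obtain ⟨C, hC⟩ := h2.exists_bound_of_continuous h1
  exact ⟨C, (norm_nonneg _).trans (hC 0), hC⟩

/-- A bound for the derivative of the cut off function. -/
noncomputable def bC (m : ℕ) : ℝ := Classical.choose (exists_bC m)

theorem bC_nonneg (m : ℕ) : 0 ≤ bC m := (Classical.choose_spec (exists_bC m)).1

theorem bC_spec (m : ℕ) (x : E m) : ‖fderiv ℝ (bmp m) x‖ ≤ bC m := (Classical.choose_spec (exists_bC m)).2 x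

section

variable {V : Type*} [NormedAddCommGroup V] [NormedSpace ℝ V] {m : ℕ}

theorem cut_eq_zero {π : V →L[ℝ] E m} {ε : ℝ} (hε : 0 < ε) {W : V → V} {v : V} (h : ε ≤ ‖π v‖) :
    bmp m (ε⁻¹ • π v) • W v = 0 := by
  rw [bmp_eq_zero, zero_smul]
  rw [norm_smul, norm_inv, Real.norm_eq_abs, abs_of_pos hε, ← div_eq_inv_mul, le_div_iff₀ hε, one_mul]
  exact h

theorem cut_eq_self {π : V →L[ℝ] E m} {ε : ℝ} (hε : 0 < ε) {W : V → V} {v : V} (h : ‖π v‖ ≤ ε / 2) :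
    bmp m (ε⁻¹ • π v) • W v = W v := by
  rw [bmp_eq_one, one_smul]
  rw [norm_smul, norm_inv, Real.norm_eq_abs, abs_of_pos hε, ← div_eq_inv_mul, div_le_iff₀ hε]
  linarith

/-- Cut off of a small vector field `W`. -/
theorem cutoff {π : V →L[ℝ] E m} (hπ : ‖π‖ ≤ 1) {ε η : ℝ} (hε : 0 < ε) (hη : 0 ≤ η) {W : V → V}
    (hW : ∀ v, ‖π v‖ < 2 * ε → ContDiffAt ℝ ∞ W v) (h1 : ∀ v, ‖π v‖ ≤ ε → ‖W v‖ ≤ η * ε)
    (h2 : ∀ v, ‖π v‖ ≤ ε → ‖fderiv ℝ W v‖ ≤ η) :
    ContDiff ℝ ∞ (fun v => bmp m (ε⁻¹ • π v) • W v) ∧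
      ∀ v, ‖fderiv ℝ (fun v => bmp m (ε⁻¹ • π v) • W v) v‖ ≤ (1 + bC m) * η := by
  have hb : ContDiff ℝ ∞ (fun v => bmp m (ε⁻¹ • π v)) :=
    (bmp_contDiff m).comp (π.contDiff.const_smul ε⁻¹)
  have hz : ∀ v, ε < ‖π v‖ → (fun v => bmp m (ε⁻¹ • π v) • W v) =ᶠ[𝓝 v] fun _ => 0 := by
    intro v hv
    have ho : IsOpen {u : V | ε < ‖π u‖} := isOpen_lt continuous_const (by fun_prop)
    filter_upwards [ho.mem_nhds hv] with u hu
    exact cut_eq_zero hε (le_of_lt hu)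
  constructor
  · rw [contDiff_iff_contDiffAt]
    intro v
    by_cases hv : ‖π v‖ < 2 * ε
    · exact hb.contDiffAt.smul (hW v hv)
    · have : ε < ‖π v‖ := by
        push Not at hv
        linarith
      exact contDiffAt_const.congr_of_eventuallyEq (hz v this)
  · intro v
    by_cases hv : ‖π v‖ ≤ ε
    · have hWd : HasFDerivAt W (fderiv ℝ W v) v :=
        ((hW v (by linarith)).differentiableAt (by simp)).hasFDerivAt
      have hinner : HasFDerivAt (fun v => ε⁻¹ • π v) (ε⁻¹ • π) v := π.hasFDerivAt.const_smul ε⁻¹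
      have hbd : HasFDerivAt (fun v => bmp m (ε⁻¹ • π v))
          ((fderiv ℝ (bmp m) (ε⁻¹ • π v)).comp (ε⁻¹ • π)) v :=
        HasFDerivAt.comp (g := bmp m) v
          (((bmp_contDiff m).differentiable (by simp)) (ε⁻¹ • π v)).hasFDerivAt hinner
      have h3 := hbd.smul hWd
      have h4 : fderiv ℝ (fun v => bmp m (ε⁻¹ • π v) • W v) v = _ := h3.fderiv
      rw [h4]
      refine (norm_add_le _ _).trans ?_
      have h5 : ‖bmp m (ε⁻¹ • π v) • fderiv ℝ W v‖ ≤ η := by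
        rw [norm_smul, Real.norm_eq_abs, abs_of_nonneg (bmp_nonneg m _)]
        calc bmp m (ε⁻¹ • π v) * ‖fderiv ℝ W v‖ ≤ 1 * ‖fderiv ℝ W v‖ :=
              mul_le_mul_of_nonneg_right (bmp_le_one m _) (norm_nonneg _)
          _ ≤ η := by rw [one_mul]; exact h2 v hv
      have h6 : ‖((fderiv ℝ (bmp m) (ε⁻¹ • π v)).comp (ε⁻¹ • π)).smulRight (W v)‖ ≤ bC m * η := by
        rw [ContinuousLinearMap.norm_smulRight_apply]
        have h7 : ‖(fderiv ℝ (bmp m) (ε⁻¹ • π v)).comp (ε⁻¹ • π)‖ ≤ bC m * ε⁻¹ := by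
          refine (ContinuousLinearMap.opNorm_comp_le _ _).trans ?_
          refine mul_le_mul (bC_spec m _) ?_ (norm_nonneg _) (bC_nonneg m)
          rw [norm_smul, norm_inv, Real.norm_eq_abs, abs_of_pos hε]
          calc ε⁻¹ * ‖π‖ ≤ ε⁻¹ * 1 := mul_le_mul_of_nonneg_left hπ (by positivity)
            _ = ε⁻¹ := mul_one _
        calc ‖(fderiv ℝ (bmp m) (ε⁻¹ • π v)).comp (ε⁻¹ • π)‖ * ‖W v‖
            ≤ (bC m * ε⁻¹) * (η * ε) :=
              mul_le_mul h7 (h1 v hv) (norm_nonneg _) (mul_nonneg (bC_nonneg m) (by positivity))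
          _ = bC m * η := by field_simp
      linarith
    · push Not at hv
      rw [(hz v hv).fderiv_eq]
      simp only [fderiv_fun_const, Pi.zero_apply, norm_zero]
      exact mul_nonneg (by linarith [bC_nonneg m]) hη

end

end Pool.Agent.CSM
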