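import Pool.Agent.CSM.CRD
import Pool.Agent.CSM.CPG

/-!
(C) Existence of discs; transitivity of the group of orientation preserving diffeomorphisms.
-/

open scoped Manifold ContDiff Topology
open Set

namespace Pool.Agent.CSM

/-- translations -/
theorem pd_trans_homeo {n : ℕ} (c : E n) : PD n (Homeomorph.addLeft c).toOpenPartialHomeomorph := by
  apply pd_model_of
  · exact (contDiff_const.add contDiff_id).contDiffOn
  · intro x _
    have h : HasFDerivAt (fun v : E n => c + v) (ContinuousLinearMap.id ℝ (E n)) x :=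
      (hasFDerivAt_id x).const_add c
    have h2 : fderiv ℝ ((Homeomorph.addLeft c).toOpenPartialHomeomorph) x = ContinuousLinearMap.id ℝ (E n) := h.fderiv
    rw [h2, det_id']
    exact one_pos

section

variable {n : ℕ} {X : Type*} [TopologicalSpace X] [ChartedSpace (E n) X] [HasGroupoid X (orG n)]

/-- (C1) Discs exist. -/
theorem exists_disc' {x : X} {O : Set X} (hO : IsOpen O) (hx : x ∈ O) :
    ∃ i : OPH (E n) X, PD n i ∧ i.source = univ ∧ i 0 = x ∧ i.target ⊆ O := by
  set e : OPH X (E n) := chartAt (E n) x with he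
  have hxe : x ∈ e.source := mem_chart_source _ _
  have hPe : PD n e := pd_chart (chart_mem_atlas _ _)
  have h1 : IsOpen (e.symm.source ∩ e.symm ⁻¹' O) := e.symm.isOpen_inter_preimage hO
  have h2 : e x ∈ e.symm.source ∩ e.symm ⁻¹' O := by
    refine ⟨e.map_source hxe, ?_⟩
    show e.symm (e x) ∈ O
    rw [e.left_inv hxe]
    exact hx
  obtain ⟨δ, hδ, hb⟩ := Metric.isOpen_iff.1 h1 _ h2
  obtain ⟨s, s1, s2, s3, s4, -⟩ := exists_radial n hδ
  have hin : ∀ v : E n, e x + s v ∈ e.symm.source ∩ e.symm ⁻¹' O := by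
    intro v
    apply hb
    have : s v ∈ s.target := s.map_source (by rw [s2]; trivial)
    rw [s3, mem_ball_zero_iff] at this
    rw [Metric.mem_ball, dist_eq_norm, add_sub_cancel_left]
    exact this
  set i : OPH (E n) X := (s.trans (Homeomorph.addLeft (e x)).toOpenPartialHomeomorph).trans e.symm with hi
  have hsrc : i.source = univ := by
    rw [eq_univ_iff_forall]
    intro v
    rw [hi, OpenPartialHomeomorph.trans_source]
    refine ⟨?_, (hin v).1⟩
    rw [OpenPartialHomeomorph.trans_source]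
    exact ⟨by rw [s2]; trivial, trivial⟩
  have hiv : ∀ v, i v = e.symm (e x + s v) := fun _ => rfl
  refine ⟨i, (s1.trans (pd_trans_homeo _)).trans hPe.symm, hsrc, ?_, ?_⟩
  · rw [hiv, s4 0 (by simp; positivity), add_zero, e.left_inv hxe]
  · intro y hy
    have h3 : i (i.symm y) = y := i.right_inv hy
    rw [← h3, hiv]
    exact (hin _).2

variable [T2Space X]

/-- Moving points inside a disc. -/
theorem move_local (x : X) : ∃ U : Set X, IsOpen U ∧ x ∈ U ∧ ∀ y ∈ U, ∃ D : X ≃ₜ X,
    PD n D.toOpenPartialHomeomorph ∧ D x = y := by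
  obtain ⟨i, i1, i2, i3, -⟩ := exists_disc' (n := n) (x := x) isOpen_univ (mem_univ x)
  have hbC := bC_nonneg n
  set c : ℝ := (2 * (1 + bC n))⁻¹ with hc
  have hcp : 0 < c := by positivity
  refine ⟨i '' Metric.ball 0 c, ?_, ⟨0, by simpa using hcp, i3⟩, ?_⟩
  · exact i.isOpen_image_of_subset_source Metric.isOpen_ball (by rw [i2]; exact subset_univ _)
  · rintro _ ⟨w, hw, rfl⟩
    rw [mem_ball_zero_iff] at hw
    have h0 : ‖(ContinuousLinearMap.id ℝ (E n))‖ ≤ 1 := ContinuousLinearMap.norm_id_le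
    obtain ⟨h1, h2⟩ := cutoff (W := fun _ : E n => w) (η := ‖w‖) h0 one_pos (norm_nonneg _)
      (fun v _ => contDiffAt_const) (fun v _ => by rw [mul_one]) (fun v _ => by simp)
    have hg : ContDiff ℝ ∞ (fun v : E n => v + bmp n ((1 : ℝ)⁻¹ • v) • w) := contDiff_id.add h1
    obtain ⟨h, h3, h4⟩ := small_diffeo hg (fun v => by
      have h7 : fderiv ℝ (fun v : E n => v + bmp n ((1 : ℝ)⁻¹ • v) • w) v - 1
          = fderiv ℝ (fun v : E n => bmp n ((1 : ℝ)⁻¹ • v) • w) v := by
        have h8 : fderiv ℝ (fun v : E n => v + bmp n ((1 : ℝ)⁻¹ • v) • w) v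
            = 1 + fderiv ℝ (fun v : E n => bmp n ((1 : ℝ)⁻¹ • v) • w) v :=
          ((hasFDerivAt_id (𝕜 := ℝ) v).add ((h1.differentiable (by simp)) v).hasFDerivAt).fderiv
        rw [h8, add_sub_cancel_left]
      rw [h7]
      refine (h2 v).trans ?_
      calc (1 + bC n) * ‖w‖ ≤ (1 + bC n) * c := mul_le_mul_of_nonneg_left hw.le (by positivity)
        _ = 1 / 2 := by rw [hc]; field_simp)
    obtain ⟨D, D1, -, D3⟩ := exists_ext i h (K := Metric.closedBall 0 1) (isCompact_closedBall 0 1)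
      (by rw [i2]; exact subset_univ _) (fun q hq => by
        rw [mem_closedBall_zero_iff, not_le] at hq
        rw [h3]
        have : bmp n ((1 : ℝ)⁻¹ • q) = 0 := bmp_eq_zero (by simpa using hq.le)
        rw [this, zero_smul, add_zero])
    refine ⟨D, D3 i1 h4, ?_⟩
    rw [← i3, D1 0 (by rw [i2]; trivial), h3]
    have : bmp n ((1 : ℝ)⁻¹ • (0 : E n)) = 1 := bmp_eq_one (by simp)
    rw [this, one_smul, zero_add]

/-- Transitivity. -/
theorem move_points [ConnectedSpace X] (x y : X) : ∃ D : X ≃ₜ X, PD n D.toOpenPartialHomeomorph ∧ D x = y := by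
  set R : X → Set X := fun x => {y | ∃ D : X ≃ₜ X, PD n D.toOpenPartialHomeomorph ∧ D x = y} with hR
  have hrefl : ∀ x, x ∈ R x := fun x => by
    refine ⟨Homeomorph.refl X, ?_, rfl⟩
    refine (PD.refl (X := X)).congr ?_ fun x _ => rfl
    simp
  have htrans : ∀ x y z, y ∈ R x → z ∈ R y → z ∈ R x := by
    rintro x y z ⟨D, h1, h2⟩ ⟨D', h1', h2'⟩
    exact ⟨D.trans D', h1.homeo_trans h1', by rw [← h2', ← h2]; rfl⟩
  have hsymm : ∀ x y, y ∈ R x → x ∈ R y := by
    rintro x y ⟨D, h1, h2⟩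
    exact ⟨D.symm, h1.homeo_symm, by rw [← h2, D.symm_apply_apply]⟩
  have hopen : ∀ x, IsOpen (R x) := by
    intro x
    rw [isOpen_iff_mem_nhds]
    intro y hy
    obtain ⟨U, hU, hyU, hU2⟩ := move_local (n := n) y
    refine Filter.mem_of_superset (hU.mem_nhds hyU) fun z hz => ?_
    exact htrans x y z hy (hU2 z hz)
  have hclosed : IsClosed (R x) := by
    rw [← isOpen_compl_iff, isOpen_iff_mem_nhds]
    intro y hy
    refine Filter.mem_of_superset ((hopen y).mem_nhds (hrefl y)) fun z hz hz' => hy ?_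
    exact htrans x z y hz' (hsymm y z hz)
  have h := IsClopen.eq_univ ⟨hclosed, hopen x⟩ ⟨x, hrefl x⟩
  have : y ∈ R x := by rw [h]; trivial
  exact this

end

end Pool.Agent.CSM
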