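import Pool.Agent.CSM.CMA

/-!
CMB. Matrices with positive determinant are products of matrices near 1.
-/

open scoped Manifold ContDiff Topology
open Set

namespace Pool.Agent.CSM

/-- A product of maps arbitrarily near 1. -/
def Gen {m : ℕ} (A : E m →L[ℝ] E m) : Prop :=
  ∀ ε : ℝ, 0 < ε → ∃ l : List (E m →L[ℝ] E m), (∀ B ∈ l, ‖B - 1‖ < ε) ∧ l.prod = A

theorem Gen.mul {m : ℕ} {A B : E m →L[ℝ] E m} (hA : Gen A) (hB : Gen B) : Gen (A * B) := by
  intro ε hε
  obtain ⟨l, hl, rfl⟩ := hA ε hε
  obtain ⟨l', hl', rfl⟩ := hB ε hε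
  refine ⟨l ++ l', ?_, List.prod_append⟩
  intro C hC
  rw [List.mem_append] at hC
  rcases hC with hC | hC
  · exact hl C hC
  · exact hl' C hC

theorem seg_gen {m : ℕ} {B : E m →L[ℝ] E m}
    (hd : ∀ s ∈ Icc (0 : ℝ) 1, ((1 - s) • 1 + s • B).det ≠ 0) : Gen B := by
  intro ε hε
  obtain ⟨l, hl, hl'⟩ := loop_seg (R := fun _ => B) contDiff_const (fun _ => rfl)
    (fun s hs _ => hd s hs) hε
  refine ⟨l.map fun S => S 0, ?_, hl' 0⟩
  intro C hC
  rw [List.mem_map] at hC
  obtain ⟨S, hS, rfl⟩ := hC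
  exact (hl S hS).2.2 0

/-- Matrices as continuous linear maps. -/
noncomputable def tC {m : ℕ} (A : Matrix (Fin m) (Fin m) ℝ) : E m →L[ℝ] E m :=
  Matrix.toEuclideanCLM (n := Fin m) (𝕜 := ℝ) A

theorem det_tC {m : ℕ} (A : Matrix (Fin m) (Fin m) ℝ) : (tC A).det = A.det := by
  have h : ((tC A : E m →L[ℝ] E m) : E m →ₗ[ℝ] E m) =
      Matrix.toLin (EuclideanSpace.basisFun (Fin m) ℝ).toBasis
        (EuclideanSpace.basisFun (Fin m) ℝ).toBasis A := rfl
  rw [ContinuousLinearMap.det, h, LinearMap.det_toLin]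

theorem exists_tC {m : ℕ} (B : E m →L[ℝ] E m) : ∃ A, tC A = B :=
  ⟨(Matrix.toEuclideanCLM (n := Fin m) (𝕜 := ℝ)).symm B,
    (Matrix.toEuclideanCLM (n := Fin m) (𝕜 := ℝ)).apply_symm_apply B⟩

theorem tC_mul {m : ℕ} (A B : Matrix (Fin m) (Fin m) ℝ) : tC (A * B) = tC A * tC B :=
  map_mul (Matrix.toEuclideanCLM (n := Fin m) (𝕜 := ℝ)) A B

theorem tC_seg {m : ℕ} (s : ℝ) (A : Matrix (Fin m) (Fin m) ℝ) :
    (1 - s) • 1 + s • tC A = tC ((1 - s) • 1 + s • A) := by
  simp only [tC, map_add, map_smul, map_one]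

theorem gen_transvection {m : ℕ} {i j : Fin m} (hij : i ≠ j) (c : ℝ) :
    Gen (tC (Matrix.transvection i j c)) := by
  apply seg_gen
  intro s _
  have h : (1 - s) • (1 : Matrix (Fin m) (Fin m) ℝ) + s • Matrix.transvection i j c =
      Matrix.transvection i j (s * c) := by
    rw [Matrix.transvection, Matrix.transvection, smul_add, ← add_assoc, ← add_smul,
      sub_add_cancel, one_smul, Matrix.smul_single, smul_eq_mul]
  rw [tC_seg, h, det_tC, Matrix.det_transvection_of_ne _ _ hij]
  exact one_ne_zero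

theorem gen_diag_pos {m : ℕ} {D : Fin m → ℝ} (hD : ∀ i, 0 < D i) : Gen (tC (Matrix.diagonal D)) := by
  apply seg_gen
  intro s hs
  have h : (1 - s) • (1 : Matrix (Fin m) (Fin m) ℝ) + s • Matrix.diagonal D =
      Matrix.diagonal (fun i => (1 - s) + s * D i) := by
    ext a b
    by_cases hab : a = b
    · subst hab; simp
    · simp [hab]
  rw [tC_seg, h, det_tC, Matrix.det_diagonal]
  apply Finset.prod_ne_zero_iff.2
  intro i _
  have h1 := hs.1
  have h2 := hs.2
  have h3 := hD i
  rcases eq_or_lt_of_le h1 with h4 | h4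
  · rw [← h4]; norm_num
  · have : 0 < s * D i := mul_pos h4 h3
    linarith

theorem sign_eq {m : ℕ} {i j : Fin m} (hij : i ≠ j) :
    Matrix.diagonal (fun k => if k = i ∨ k = j then (-1 : ℝ) else 1) =
      (Matrix.transvection i j (-1) * Matrix.transvection j i 1 * Matrix.transvection i j (-1)) *
      (Matrix.transvection i j (-1) * Matrix.transvection j i 1 * Matrix.transvection i j (-1)) := by
  set a : Matrix (Fin m) (Fin m) ℝ := Matrix.single i j 1 with ha
  set b : Matrix (Fin m) (Fin m) ℝ := Matrix.single j i 1 with hb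
  have e1 : Matrix.transvection i j (-1 : ℝ) = 1 - a := by
    rw [Matrix.transvection, ha, sub_eq_add_neg]
    congr 1
    ext x y
    simp [Matrix.single_apply]
    split_ifs <;> simp
  have e2 : Matrix.transvection j i (1 : ℝ) = 1 + b := rfl
  have aa : a * a = 0 := by rw [ha, Matrix.single_mul_single_of_ne _ _ _ _ hij.symm]
  have bb : b * b = 0 := by rw [hb, Matrix.single_mul_single_of_ne _ _ _ _ hij]
  have ab : a * b = Matrix.single i i 1 := by rw [ha, hb, Matrix.single_mul_single_same, mul_one]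
  have ba : b * a = Matrix.single j j 1 := by rw [ha, hb, Matrix.single_mul_single_same, mul_one]
  have aba : a * b * a = a := by rw [ab, ha, Matrix.single_mul_single_same, mul_one]
  have bab : b * a * b = b := by rw [ba, hb, Matrix.single_mul_single_same, mul_one]
  have aba' : a * (b * a) = a := by rw [← mul_assoc, aba]
  have bab' : b * (a * b) = b := by rw [← mul_assoc, bab]
  have hW : (1 - a) * (1 + b) * (1 - a) = 1 - a + b - a * b - b * a := by
    have : (1 - a) * (1 + b) * (1 - a) = 1 - a + b - a * b - a + a * a - b * a + a * b * a := by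
      noncomm_ring
    rw [this, aa, aba]
    abel
  rw [e1, e2, hW]
  have h2 : (1 - a + b - a * b - b * a) * (1 - a + b - a * b - b * a) =
      1 - 2 • (a * b) - 2 • (b * a) := by
    have r1 : (a * b) * (a * b) = a * b := by rw [← mul_assoc, aba]
    have r2 : (b * a) * (b * a) = b * a := by rw [← mul_assoc, bab]
    have r3 : (a * b) * (b * a) = 0 := by rw [mul_assoc, ← mul_assoc b b a, bb, zero_mul, mul_zero]
    have r4 : (b * a) * (a * b) = 0 := by rw [mul_assoc, ← mul_assoc a a b, aa, zero_mul, mul_zero]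
    have r5 : a * (a * b) = 0 := by rw [← mul_assoc, aa, zero_mul]
    have r6 : b * (b * a) = 0 := by rw [← mul_assoc, bb, zero_mul]
    have r7 : (a * b) * b = 0 := by rw [mul_assoc, bb, mul_zero]
    have r8 : (b * a) * a = 0 := by rw [mul_assoc, aa, mul_zero]
    simp only [mul_add, add_mul, mul_sub, sub_mul, one_mul, mul_one, aa, bb, r1, r2, r3, r4, r5, r6,
      r7, r8, aba, bab, aba', bab']
    abel
  rw [h2, ab, ba]
  ext x y
  by_cases hxy : x = y
  · subst hxy
    by_cases h1 : x = i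
    · subst h1
      simp [hij.symm]
      norm_num
    · by_cases h3 : x = j
      · subst h3
        simp [hij]
        norm_num
      · simp [h1, h3, Ne.symm h1, Ne.symm h3]
  · have h5 : ¬ (i = x ∧ i = y) := fun h => hxy (h.1.symm.trans h.2)
    have h6 : ¬ (j = x ∧ j = y) := fun h => hxy (h.1.symm.trans h.2)
    simp [hxy, h5, h6]

theorem gen_sign {m : ℕ} {i j : Fin m} (hij : i ≠ j) :
    Gen (tC (Matrix.diagonal (fun k => if k = i ∨ k = j then (-1 : ℝ) else 1))) := by
  rw [sign_eq hij]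
  simp only [tC_mul]
  have h1 := gen_transvection hij (-1)
  have h2 := gen_transvection hij.symm 1
  exact ((h1.mul h2).mul h1).mul ((h1.mul h2).mul h1)

theorem prod_sign {m : ℕ} {i j : Fin m} (hij : i ≠ j) :
    ∏ k : Fin m, (if k = i ∨ k = j then (-1 : ℝ) else 1) = 1 := by
  have h := congrArg Matrix.det (sign_eq hij)
  rw [Matrix.det_diagonal] at h
  rw [h]
  simp only [Matrix.det_mul, Matrix.det_transvection_of_ne _ _ hij,
    Matrix.det_transvection_of_ne _ _ hij.symm]
  norm_num

theorem gen_diag {m : ℕ} : ∀ (n : ℕ) (D : Fin m → ℝ), (Finset.univ.filter fun i => D i < 0).card = n →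
    0 < ∏ i, D i → Gen (tC (Matrix.diagonal D)) := by
  intro n
  induction n using Nat.strong_induction_on with
  | _ n ih =>
  intro D hn hD
  by_cases hneg : ∀ i, 0 < D i
  · exact gen_diag_pos hneg
  push Not at hneg
  obtain ⟨i, hi⟩ := hneg
  have hne : ∀ k, D k ≠ 0 := fun k h => hD.ne' (Finset.prod_eq_zero (Finset.mem_univ k) h)
  have hi' : D i < 0 := lt_of_le_of_ne hi (hne i)
  obtain ⟨j, hji, hj⟩ : ∃ j, j ≠ i ∧ D j < 0 := by
    by_contra hcon
    push Not at hcon
    have h1 : 0 < ∏ k ∈ Finset.univ.erase i, D k := by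
      apply Finset.prod_pos
      intro k hk
      exact lt_of_le_of_ne (hcon k (Finset.ne_of_mem_erase hk)) (hne k).symm
    rw [← Finset.mul_prod_erase _ _ (Finset.mem_univ i)] at hD
    have h2 := mul_neg_of_neg_of_pos hi' h1
    linarith
  have hij : i ≠ j := hji.symm
  set σ : Fin m → ℝ := fun k => if k = i ∨ k = j then (-1 : ℝ) else 1 with hσ
  have hσσ : ∀ k, σ k * σ k = 1 := by
    intro k
    simp only [hσ]
    split_ifs <;> norm_num
  have hfac : Matrix.diagonal D = Matrix.diagonal σ * Matrix.diagonal (fun k => σ k * D k) := by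
    rw [Matrix.diagonal_mul_diagonal]
    congr 1
    funext k
    rw [← mul_assoc, hσσ, one_mul]
  rw [hfac, tC_mul]
  apply (gen_sign hij).mul
  apply ih ((Finset.univ.filter fun k => σ k * D k < 0).card) ?_ _ rfl
  · rw [Finset.prod_mul_distrib, prod_sign hij, one_mul]
    exact hD
  · rw [← hn]
    apply Finset.card_lt_card
    rw [Finset.ssubset_iff_of_subset]
    · refine ⟨i, by simp [hi'], ?_⟩
      simp only [Finset.mem_filter, Finset.mem_univ, true_and, hσ, true_or, if_true]
      linarith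
    · intro k hk
      simp only [Finset.mem_filter, Finset.mem_univ, true_and] at hk ⊢
      by_cases hk2 : k = i ∨ k = j
      · rcases hk2 with rfl | rfl
        · exact hi'
        · exact hj
      · simp only [hσ, if_neg hk2, one_mul] at hk
        exact hk

theorem gl_pos_gen {m : ℕ} {A : E m →L[ℝ] E m} (hA : 0 < A.det) {ε : ℝ} (hε : 0 < ε) :
    ∃ l : List (E m →L[ℝ] E m), (∀ B ∈ l, ‖B - 1‖ < ε) ∧ l.prod = A := by
  obtain ⟨M, rfl⟩ := exists_tC A
  rw [det_tC] at hA
  have : Gen (tC M) := by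
    apply Matrix.diagonal_transvection_induction (fun N => Gen (tC N)) M
    · intro D hD
      rw [Matrix.det_diagonal] at hD
      exact gen_diag _ D rfl (by rw [hD]; exact hA)
    · intro t
      exact gen_transvection t.hij t.c
    · intro N N' h1 h2
      rw [tC_mul]
      exact h1.mul h2
  exact this ε hε

/-- Maps near 1 have positive determinant: the segment from 1 to B consists of units and the
determinant is continuous, nonzero on it and 1 at the start. -/
theorem det_pos_of_near {m : ℕ} {B : E m →L[ℝ] E m} (hB : ‖B - 1‖ < 1) : 0 < B.det := by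
  set f : ℝ → ℝ := fun s => (1 + s • (B - 1)).det with hf
  have hfc : Continuous f := by
    apply ContinuousLinearMap.continuous_det.comp
    fun_prop
  have h0 : f 0 = 1 := by
    have h : (1 + (0 : ℝ) • (B - 1)) = ContinuousLinearMap.id ℝ (E m) := by
      ext1 x
      simp
    simp only [hf]
    rw [h]
    exact det_id'
  have h1 : f 1 = B.det := by
    simp only [hf, one_smul]
    congr 1
    abel
  have hne : ∀ s ∈ Icc (0 : ℝ) 1, f s ≠ 0 := by
    intro s hs
    have hs' : ‖s • (B - 1)‖ < 1 := by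
      rw [norm_smul, Real.norm_eq_abs, abs_of_nonneg hs.1]
      calc s * ‖B - 1‖ ≤ 1 * ‖B - 1‖ := mul_le_mul_of_nonneg_right hs.2 (norm_nonneg _)
        _ < 1 := by rw [one_mul]; exact hB
    have hu : IsUnit (1 + s • (B - 1)) := by
      have := isUnit_one_sub_of_norm_lt_one (x := -(s • (B - 1))) (by rw [norm_neg]; exact hs')
      rwa [sub_neg_eq_add] at this
    simp only [hf]
    obtain ⟨u, hu⟩ := hu
    rw [← hu]
    have h2 : (u : E m →L[ℝ] E m).det * ((u⁻¹ : (E m →L[ℝ] E m)ˣ) : E m →L[ℝ] E m).det = 1 := by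
      rw [← det_comp']
      have : (u : E m →L[ℝ] E m) ∘L ((u⁻¹ : (E m →L[ℝ] E m)ˣ) : E m →L[ℝ] E m) = 1 := u.mul_inv
      rw [this]
      exact det_id'
    exact left_ne_zero_of_mul_eq_one h2
  rw [← h1]
  by_contra hcon
  push Not at hcon
  have := intermediate_value_Icc' (zero_le_one' ℝ) hfc.continuousOn
  obtain ⟨s, hs, hs0⟩ := this ⟨hcon, by rw [h0]; exact zero_le_one⟩
  exact hne s hs hs0

end Pool.Agent.CSM
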