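import Pool.Agent.CSM.CDO
import Pool.Agent.CSM.CMB

/-!
(C3) Disc theorem.
-/

open scoped Manifold ContDiff Topology
open Set

namespace Pool.Agent.CSM

/-- The germ of `G` at a fixed point extends to a compactly supported diffeomorphism. -/
theorem point_germ {n : ℕ} {G : OPH (E n) (E n)} (hG : PD n G) (h0 : (0 : E n) ∈ G.source) (hG0 : G 0 = 0)
    {ρ : ℝ} (hρ : 0 < ρ) :
    ∃ h : E n ≃ₜ E n, PD n h.toOpenPartialHomeomorph ∧ (∀ v, ρ ≤ ‖v‖ → h v = v) ∧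
      ∃ δ > 0, ∀ v, ‖v‖ < δ → h v = G v := by
  obtain ⟨ε₀, hε₀, H⟩ := germ_of_list n
  have hdet : 0 < (fderiv ℝ G 0).det := (pdAt_model.1 (hG.pdAt h0)).2
  obtain ⟨l, hl, hl'⟩ := gl_pos_gen hdet hε₀
  obtain ⟨h, h1, h2, h3, -⟩ := H G hG h0 hG0 l hl hl' ρ hρ
  exact ⟨h, h1, h2, h3⟩

section

variable {n : ℕ} {X : Type*} [TopologicalSpace X] [ChartedSpace (E n) X] [HasGroupoid X (orG n)] [T2Space X]

/-- (C3) Disc theorem. -/
theorem disc_unique' [ConnectedSpace X] {i₀ i₁ : OPH (E n) X} (h₀ : PD n i₀) (h₁ : PD n i₁)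
    (s₀ : (0 : E n) ∈ i₀.source) (s₁ : (0 : E n) ∈ i₁.source) :
    ∃ D : X ≃ₜ X, PD n D.toOpenPartialHomeomorph ∧ ∃ δ > 0, ∀ v : E n, ‖v‖ < δ → D (i₀ v) = i₁ v := by
  obtain ⟨D₁, p₁, hD₁⟩ := move_points (n := n) (i₀ 0) (i₁ 0)
  set G : OPH (E n) (E n) := (i₀.trans D₁.toOpenPartialHomeomorph).trans i₁.symm with hG
  have hGv : ∀ v, G v = i₁.symm (D₁ (i₀ v)) := fun _ => rfl
  have hGs : ∀ v, v ∈ G.source ↔ v ∈ i₀.source ∧ D₁ (i₀ v) ∈ i₁.target := by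
    intro v
    rw [hG, OpenPartialHomeomorph.trans_source, OpenPartialHomeomorph.trans_source]
    constructor
    · rintro ⟨⟨h1, -⟩, h2⟩
      exact ⟨h1, h2⟩
    · rintro ⟨h1, h2⟩
      exact ⟨⟨h1, trivial⟩, h2⟩
  have hG0s : (0 : E n) ∈ G.source := by
    rw [hGs]
    exact ⟨s₀, by rw [hD₁]; exact i₁.map_source s₁⟩
  have hG0 : G 0 = 0 := by
    rw [hGv, hD₁, i₁.left_inv s₁]
  have hGp : PD n G := (h₀.trans p₁).trans h₁.symm
  obtain ⟨r, hr, hrb⟩ := Metric.isOpen_iff.1 i₁.open_source 0 s₁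
  obtain ⟨h, k1, k2, δ, hδ, k3⟩ := point_germ hGp hG0s hG0 (half_pos hr)
  have hK : Metric.closedBall (0 : E n) (r / 2) ⊆ i₁.source :=
    (Metric.closedBall_subset_ball (by linarith)).trans hrb
  obtain ⟨D₂, e1, -, e3⟩ := exists_ext i₁ h (isCompact_closedBall 0 (r / 2)) hK (fun q hq => by
    rw [mem_closedBall_zero_iff, not_le] at hq
    exact k2 q hq.le)
  obtain ⟨r', hr', hrb'⟩ := Metric.isOpen_iff.1 G.open_source 0 hG0s
  refine ⟨D₁.trans D₂.symm, p₁.homeo_trans (e3 h₁ k1).homeo_symm, min δ (min r r'), by positivity, fun v hv => ?_⟩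
  have hv1 : ‖v‖ < δ := lt_of_lt_of_le hv (min_le_left _ _)
  have hv2 : ‖v‖ < r := lt_of_lt_of_le hv ((min_le_right _ _).trans (min_le_left _ _))
  have hv3 : ‖v‖ < r' := lt_of_lt_of_le hv ((min_le_right _ _).trans (min_le_right _ _))
  have hvs : v ∈ i₁.source := hrb (mem_ball_zero_iff.2 hv2)
  have hvG : v ∈ G.source := hrb' (mem_ball_zero_iff.2 hv3)
  show D₂.symm (D₁ (i₀ v)) = i₁ v
  rw [Homeomorph.symm_apply_eq, e1 v hvs, k3 v hv1, hGv, i₁.right_inv ((hGs v).1 hvG).2]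

end

end Pool.Agent.CSM
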