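import Pool.Agent.CSM.CDT
import Pool.Agent.CSM.CCG
import Pool.Agent.CSM.InstT

/-!
Chunk C: discs and tubes, final statements (C1, C3, C4, C5; C2 is `exists_radial` in `CRD`).
-/

open scoped Manifold ContDiff Topology
open Set

namespace Pool.Agent.CSM

section C

variable {n : ℕ} {X : Type*} [TopologicalSpace X] [ChartedSpace (E n) X] [HasGroupoid X (orG n)] [T2Space X]

/-- (C1) Discs exist. -/
theorem exists_disc {x : X} {O : Set X} (hO : IsOpen O) (hx : x ∈ O) :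
    ∃ i : OPH (E n) X, PD n i ∧ i.source = univ ∧ i 0 = x ∧ i.target ⊆ O :=
  exists_disc' hO hx

/-- (C3) Disc theorem. -/
theorem disc_unique [ConnectedSpace X] (hn : 1 ≤ n) {i₀ i₁ : OPH (E n) X} (h₀ : PD n i₀) (h₁ : PD n i₁)
    (s₀ : (0 : E n) ∈ i₀.source) (s₁ : (0 : E n) ∈ i₁.source) :
    ∃ D : X ≃ₜ X, PD n D.toOpenPartialHomeomorph ∧ ∃ δ > 0, ∀ v : E n, ‖v‖ < δ → D (i₀ v) = i₁ v := by
  have _ := hn
  exact disc_unique' h₀ h₁ s₀ s₁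

end C

section C'

variable {m : ℕ} {X : Type*} [TopologicalSpace X] [ChartedSpace (E (m + 1)) X] [HasGroupoid X (orG (m + 1))]
  [T2Space X]

/-- (C4) Shrinking a tube. -/
theorem tube_shrink {e : OPH (T m) X} (he : PD (m + 1) e) (hs : ∀ θ : ℝ, mkT θ 0 ∈ e.source) {O : Set X}
    (hO : IsOpen O) (hc : ∀ θ : ℝ, e (mkT θ 0) ∈ O) :
    ∃ e' : OPH (T m) X, PD (m + 1) e' ∧ e'.source = univ ∧ e'.target ⊆ O ∧ e'.target ⊆ e.target ∧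
      ∃ δ > 0, ∀ (θ : ℝ) (x : E m), ‖x‖ < δ → e' (mkT θ x) = e (mkT θ x) :=
  tube_shrink' he hs hO hc

/-- (C5) Uniqueness of tubes with a given core up to a loop of rotations. -/
theorem tube_unique (hm : 1 ≤ m) {e₀ e₁ : OPH (T m) X} (h₀ : PD (m + 1) e₀) (h₁ : PD (m + 1) e₁)
    (s₀ : ∀ θ : ℝ, mkT θ 0 ∈ e₀.source) (s₁ : ∀ θ : ℝ, mkT θ 0 ∈ e₁.source)
    (hc : ∀ θ : ℝ, e₀ (mkT θ 0) = e₁ (mkT θ 0)) {O : Set X} (hO : IsOpen O) (hcO : ∀ θ : ℝ, e₀ (mkT θ 0) ∈ O) :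
    ∃ (D : X ≃ₜ X) (τ : Twist m), PD (m + 1) D.toOpenPartialHomeomorph ∧ (∀ x ∉ O, D x = x) ∧
      ∃ δ > 0, ∀ (θ : ℝ) (x : E m), ‖x‖ < δ → D (e₀ (mkT θ x)) = e₁ (τ.map (mkT θ x)) := by
  have _ := hm
  exact tube_unique' h₀ h₁ s₀ s₁ hc hO hcO

end C'

end Pool.Agent.CSM
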