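import Pool.Agent.CSM.Core

/-!
CMA. A smooth loop of matrices that is joined to 1 by the straight segment inside the invertible
matrices is a product of small smooth loops.
-/

open scoped Manifold ContDiff Topology
open Set

namespace Pool.Agent.CSM

/-- A small loop of matrices. -/
def SmallLoop {m : ℕ} (ε : ℝ) (S : ℝ → E m →L[ℝ] E m) : Prop :=
  ContDiff ℝ ∞ S ∧ (∀ t, S (t + 1) = S t) ∧ ∀ t, ‖S t - 1‖ < ε

theorem isUnit_of_det {m : ℕ} {A : E m →L[ℝ] E m} (h : A.det ≠ 0) : IsUnit A := by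
  obtain ⟨B, hB⟩ := exists_equiv_of_det h
  refine ⟨(ContinuousLinearEquiv.unitsEquiv ℝ (E m)).symm B, ?_⟩
  rw [← hB]
  rfl

theorem loop_seg {m : ℕ} {R : ℝ → E m →L[ℝ] E m} (hR : ContDiff ℝ ∞ R)
    (hp : ∀ t, R (t + 1) = R t) (hd : ∀ s ∈ Icc (0 : ℝ) 1, ∀ t, ((1 - s) • 1 + s • R t).det ≠ 0)
    {ε : ℝ} (hε : 0 < ε) :
    ∃ l : List (ℝ → E m →L[ℝ] E m), (∀ S ∈ l, SmallLoop ε S) ∧
      ∀ t, (l.map fun S => S t).prod = R t := by
  set G : ℝ → ℝ → E m →L[ℝ] E m := fun s t => (1 - s) • 1 + s • R t with hG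
  have hGu : ∀ s ∈ Icc (0 : ℝ) 1, ∀ t, IsUnit (G s t) := fun s hs t => isUnit_of_det (hd s hs t)
  have hGc : Continuous (fun p : ℝ × ℝ => G p.1 p.2) := by
    have := hR.continuous
    simp only [hG]
    fun_prop
  have hGs : ∀ s, ContDiff ℝ ∞ (G s) := fun s => by
    have h1 : ContDiff ℝ ∞ (fun t => s • R t) := hR.const_smul s
    exact contDiff_const.add h1
  have hGp : ∀ s t, G s (t + 1) = G s t := fun s t => by simp only [hG, hp]
  -- the ratio function
  set F : ℝ × ℝ × ℝ → E m →L[ℝ] E m := fun p => G p.2.1 p.2.2 * Ring.inverse (G p.1 p.2.2) with hF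
  have hFc : ContinuousOn F (Icc 0 1 ×ˢ Icc 0 1 ×ˢ Icc 0 1) := by
    intro p hp'
    apply ContinuousAt.continuousWithinAt
    simp only [hF]
    obtain ⟨u, hu⟩ := hGu p.1 hp'.1 p.2.2
    have h1 : ContinuousAt (fun p : ℝ × ℝ × ℝ => G p.2.1 p.2.2) p :=
      (hGc.comp (f := fun p : ℝ × ℝ × ℝ => ((p.2.1, p.2.2) : ℝ × ℝ)) (by fun_prop)).continuousAt
    have h2 : ContinuousAt (fun p : ℝ × ℝ × ℝ => G p.1 p.2.2) p :=
      (hGc.comp (f := fun p : ℝ × ℝ × ℝ => ((p.1, p.2.2) : ℝ × ℝ)) (by fun_prop)).continuousAt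
    have h3 : ContinuousAt Ring.inverse (G p.1 p.2.2) := by
      rw [← hu]
      exact NormedRing.inverse_continuousAt u
    exact h1.mul (ContinuousAt.comp (f := fun p : ℝ × ℝ × ℝ => G p.1 p.2.2) h3 h2)
  have hK : IsCompact (Icc (0 : ℝ) 1 ×ˢ Icc (0 : ℝ) 1 ×ˢ Icc (0 : ℝ) 1) :=
    isCompact_Icc.prod (isCompact_Icc.prod isCompact_Icc)
  have hU := hK.uniformContinuousOn_of_continuous hFc
  rw [Metric.uniformContinuousOn_iff] at hU
  obtain ⟨δ, hδ, hU⟩ := hU ε hε
  obtain ⟨N, hN⟩ := exists_nat_one_div_lt hδ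
  have hN1 : (0 : ℝ) < (N : ℝ) + 1 := by positivity
  -- smallness
  have hsm : ∀ k : ℕ, k ≤ N → ∀ t, ‖G (((k : ℝ) + 1) / (N + 1)) t * Ring.inverse (G ((k : ℝ) / (N + 1)) t) - 1‖ < ε := by
    intro k hk t
    have hkN : (k : ℝ) ≤ N := by exact_mod_cast hk
    have hk0 : (0 : ℝ) ≤ k := Nat.cast_nonneg k
    have h0 : (k : ℝ) / (N + 1) ∈ Icc (0 : ℝ) 1 := by
      constructor
      · positivity
      · rw [div_le_one hN1]; linarith
    have h1 : ((k : ℝ) + 1) / (N + 1) ∈ Icc (0 : ℝ) 1 := by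
      constructor
      · positivity
      · rw [div_le_one hN1]; linarith
    have hper : ∀ s, Function.Periodic (G s) 1 := fun s t => hGp s t
    have ht : ∀ s, G s t = G s (Int.fract t) := by
      intro s
      have := (hper s).sub_int_mul_eq (x := t) ⌊t⌋
      rw [← this]
      congr 1
      rw [mul_one]
      exact (Int.self_sub_floor t)
    rw [ht, ht]
    set t' := Int.fract t
    have ht' : t' ∈ Icc (0 : ℝ) 1 := ⟨Int.fract_nonneg t, (Int.fract_lt_one t).le⟩
    have h2 := hU ((k : ℝ) / (N + 1), ((k : ℝ) + 1) / (N + 1), t') ⟨h0, h1, ht'⟩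
      ((k : ℝ) / (N + 1), (k : ℝ) / (N + 1), t') ⟨h0, h0, ht'⟩ (by
        rw [Prod.dist_eq, Prod.dist_eq]
        simp only [dist_self]
        rw [Real.dist_eq, ← sub_div, add_sub_cancel_left, abs_of_pos (by positivity)]
        rw [max_eq_right (by positivity), max_eq_left (by positivity)]
        exact hN)
    rw [dist_eq_norm] at h2
    simp only [hF] at h2
    rwa [Ring.mul_inverse_cancel _ (hGu _ h0 t')] at h2
  -- the induction
  have main : ∀ n : ℕ, n ≤ N + 1 → ∃ l : List (ℝ → E m →L[ℝ] E m), (∀ S ∈ l, SmallLoop ε S) ∧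
      ∀ t, (l.map fun S => S t).prod = G ((n : ℝ) / (N + 1)) t := by
    intro n
    induction n with
    | zero =>
      intro _
      refine ⟨[], by simp, fun t => ?_⟩
      have h0 : ((0 : ℕ) : ℝ) / (N + 1) = 0 := by simp
      rw [h0]
      change (1 : E m →L[ℝ] E m) = (1 - (0 : ℝ)) • 1 + (0 : ℝ) • R t
      ext1 x
      simp
    | succ n ih =>
      intro hn
      obtain ⟨l, hl, hl'⟩ := ih (by omega)
      have hnN : n ≤ N := by omega
      have h0 : (n : ℝ) / (N + 1) ∈ Icc (0 : ℝ) 1 := by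
        have hkN : (n : ℝ) ≤ N := by exact_mod_cast hnN
        constructor
        · positivity
        · rw [div_le_one hN1]; linarith
      refine ⟨(fun t => G (((n : ℝ) + 1) / (N + 1)) t * Ring.inverse (G ((n : ℝ) / (N + 1)) t)) :: l, ?_, ?_⟩
      · intro S hS
        rw [List.mem_cons] at hS
        rcases hS with rfl | hS
        · refine ⟨?_, ?_, hsm n hnN⟩
          · refine (hGs _).mul ?_
            rw [contDiff_iff_contDiffAt]
            intro t
            obtain ⟨u, hu⟩ := hGu _ h0 t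
            have h3 : ContDiffAt ℝ ∞ Ring.inverse (G ((n : ℝ) / (N + 1)) t) := by
              rw [← hu]
              exact contDiffAt_ringInverse ℝ u
            exact h3.comp t (hGs _).contDiffAt
          · intro t
            simp only [hGp]
        · exact hl S hS
      · intro t
        rw [List.map_cons, List.prod_cons, hl' t, mul_assoc, Ring.inverse_mul_cancel _ (hGu _ h0 t), mul_one]
        push_cast
        rfl
  obtain ⟨l, hl, hl'⟩ := main (N + 1) le_rfl
  refine ⟨l, hl, fun t => ?_⟩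
  rw [hl' t]
  push_cast
  rw [div_self hN1.ne']
  change (1 - (1 : ℝ)) • (1 : E m →L[ℝ] E m) + (1 : ℝ) • R t = R t
  ext1 x
  simp

end Pool.Agent.CSM
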