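import Pool.Agent.CSM.CUN
import Pool.Agent.CSM.CMA
import Pool.Agent.CSM.CDB

/-!
Derivatives along the core; diffeomorphisms supported near the core with given derivative along the core.
-/

open scoped Manifold ContDiff Topology
open Set

namespace Pool.Agent.CSM

variable {m : ℕ}

/-- `P` fixes the core point with angle `θ` and its lift has derivative `A` there. -/
def LD (P : T m → T m) (θ : ℝ) (A : (ℝ × E m) →L[ℝ] (ℝ × E m)) : Prop :=
  ∃ g : ℝ × E m → ℝ × E m, ContDiffAt ℝ ∞ g (θ, 0) ∧ g (θ, 0) = (θ, 0) ∧ fderiv ℝ g (θ, 0) = A ∧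
    ∀ᶠ u in 𝓝 ((θ, 0) : ℝ × E m), P (qT u) = qT (g u)

theorem LD.fix {P : T m → T m} {θ : ℝ} {A : (ℝ × E m) →L[ℝ] (ℝ × E m)} (h : LD P θ A) :
    P (mkT θ 0) = mkT θ 0 := by
  obtain ⟨g, -, g2, -, g4⟩ := h
  have := g4.self_of_nhds
  rw [g2] at this
  exact this

theorem LD.comp {P Q : T m → T m} {θ : ℝ} {A B : (ℝ × E m) →L[ℝ] (ℝ × E m)} (hP : LD P θ A) (hQ : LD Q θ B) :
    LD (P ∘ Q) θ (A * B) := by
  obtain ⟨g, g1, g2, g3, g4⟩ := hP
  obtain ⟨f, f1, f2, f3, f4⟩ := hQ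
  have g1' : ContDiffAt ℝ ∞ g (f (θ, 0)) := by rw [f2]; exact g1
  refine ⟨g ∘ f, g1'.comp _ f1, ?_, ?_, ?_⟩
  · show g (f (θ, 0)) = (θ, 0)
    rw [f2, g2]
  · rw [fderiv_comp _ (g1'.differentiableAt (by simp)) (f1.differentiableAt (by simp)), f2, g3, f3]
    rfl
  · have h1 : Filter.Tendsto f (𝓝 ((θ, 0) : ℝ × E m)) (𝓝 ((θ, 0) : ℝ × E m)) := by
      have := f1.continuousAt
      unfold ContinuousAt at this
      rwa [f2] at this
    filter_upwards [f4, h1.eventually g4] with u hu hu'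
    show P (Q (qT u)) = qT (g (f u))
    rw [hu, hu']

theorem LD.congr {P Q : T m → T m} {θ : ℝ} {A : (ℝ × E m) →L[ℝ] (ℝ × E m)} (hP : LD P θ A)
    (h : Q =ᶠ[𝓝 (mkT θ 0)] P) : LD Q θ A := by
  obtain ⟨g, g1, g2, g3, g4⟩ := hP
  refine ⟨g, g1, g2, g3, ?_⟩
  have h1 : Filter.Tendsto (qT : ℝ × E m → T m) (𝓝 ((θ, 0) : ℝ × E m)) (𝓝 (mkT θ 0)) :=
    continuous_qT.continuousAt
  filter_upwards [g4, h1.eventually h] with u hu hu'
  rw [hu', hu]

theorem LD.unique {P : T m → T m} {θ : ℝ} {A B : (ℝ × E m) →L[ℝ] (ℝ × E m)} (hA : LD P θ A) (hB : LD P θ B) :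
    A = B := by
  obtain ⟨g, g1, g2, g3, g4⟩ := hA
  obtain ⟨f, f1, f2, f3, f4⟩ := hB
  have hc : ContinuousAt (fun u => (f u).1 - (g u).1) ((θ, 0) : ℝ × E m) :=
    (continuous_fst.continuousAt.comp f1.continuousAt).sub (continuous_fst.continuousAt.comp g1.continuousAt)
  have h0 : (fun u => (f u).1 - (g u).1) ((θ, 0) : ℝ × E m) ∈ Ioo (-1 : ℝ) 1 := by
    show (f (θ, 0)).1 - (g (θ, 0)).1 ∈ Ioo (-1 : ℝ) 1
    rw [f2, g2]
    simp
  have h1 : g =ᶠ[𝓝 ((θ, 0) : ℝ × E m)] f := by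
    filter_upwards [g4, f4, hc.preimage_mem_nhds (isOpen_Ioo.mem_nhds h0)] with u hu hu' hu''
    have h2 : qT (g u) = qT (f u) := by rw [← hu, ← hu']
    obtain ⟨k, hk⟩ := qT_eq_iff.1 h2
    have h3 : (f u).1 - (g u).1 ∈ Ioo (-1 : ℝ) 1 := hu''
    rw [hk] at h3
    have h4 : (g u + ((k : ℝ), 0)).1 - (g u).1 = (k : ℝ) := by
      show (g u).1 + (k : ℝ) - (g u).1 = k
      ring
    rw [h4] at h3
    have h5 : k < 1 := by exact_mod_cast h3.2
    have h6 : -1 < k := by exact_mod_cast h3.1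
    have h7 : k = 0 := by omega
    rw [hk, h7]
    simp
  rw [← g3, ← f3, h1.fderiv_eq]

theorem LD.id (θ : ℝ) : LD (id : T m → T m) θ 1 :=
  ⟨_root_.id, contDiffAt_id, rfl, fderiv_id, Filter.Eventually.of_forall fun _ => rfl⟩

theorem LD.of_lift {P : T m → T m} {θ : ℝ} (h : ContDiffAt ℝ ∞ (liftP P) (θ, 0))
    (h0 : P (mkT θ 0) = mkT θ 0) : LD P θ (fderiv ℝ (liftP P) (θ, 0)) :=
  ⟨liftP P, h, liftP_core h0, rfl, Filter.Eventually.of_forall fun _ => (liftP_qT P _).symm⟩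

section

variable [HasGroupoid (T m) (orG (m + 1))]

theorem LD.exists {P : T m → T m} {θ : ℝ} (h : PDAt (m + 1) P (mkT θ 0)) (h0 : P (mkT θ 0) = mkT θ 0) :
    ∃ A, LD P θ A ∧ 0 < A.det := by
  obtain ⟨g, g1, g2, g3, g4⟩ := exists_lift (v := (θ, 0)) (u₀ := (θ, 0)) h (by
    show mkT θ 0 = P (mkT θ 0)
    rw [h0])
  exact ⟨fderiv ℝ g (θ, 0), ⟨g, g1, g3, rfl, g4⟩, g2⟩

theorem LD.symm {D : T m ≃ₜ T m} (hD : PD (m + 1) D.toOpenPartialHomeomorph) {θ : ℝ}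
    {A : (ℝ × E m) →L[ℝ] (ℝ × E m)} (h : LD D θ A) : ∃ B, LD D.symm θ B ∧ B * A = 1 ∧ A * B = 1 := by
  have h0 : D.symm (mkT θ 0) = mkT θ 0 := by
    rw [Homeomorph.symm_apply_eq]
    exact h.fix.symm
  obtain ⟨B, hB', -⟩ := LD.exists (hD.homeo_symm.pdAt (x := mkT θ 0) (by simp)) h0
  have hB : LD (⇑D.symm) θ B := hB'
  refine ⟨B, hB, ?_, ?_⟩
  · have h1 := hB.comp h
    have h2 : (⇑D.symm ∘ ⇑D) = (_root_.id : T m → T m) := by
      funext p
      exact D.symm_apply_apply p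
    rw [h2] at h1
    exact h1.unique (LD.id θ)
  · have h1 := h.comp hB
    have h2 : (⇑D ∘ ⇑D.symm) = (_root_.id : T m → T m) := by
      funext p
      exact D.apply_symm_apply p
    rw [h2] at h1
    exact h1.unique (LD.id θ)

end

/-- There is a diffeomorphism supported in `‖x‖ < ρ` with derivative `A` along the core. -/
def CD (ρ : ℝ) (A : ℝ → (ℝ × E m) →L[ℝ] (ℝ × E m)) : Prop :=
  ∃ D : T m ≃ₜ T m, PD (m + 1) D.toOpenPartialHomeomorph ∧ (∀ p : T m, ρ ≤ ‖p.2‖ → D p = p) ∧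
    ∀ θ, LD D θ (A θ)

section

variable [HasGroupoid (T m) (orG (m + 1))]

theorem CD.one (ρ : ℝ) : CD ρ (fun _ => (1 : (ℝ × E m) →L[ℝ] (ℝ × E m))) := by
  refine ⟨Homeomorph.refl _, ?_, fun _ _ => rfl, fun θ => LD.id θ⟩
  refine (PD.refl (X := T m)).congr ?_ fun x _ => rfl
  simp

theorem CD.mul {ρ : ℝ} {A B : ℝ → (ℝ × E m) →L[ℝ] (ℝ × E m)} (hA : CD ρ A) (hB : CD ρ B) :
    CD ρ (fun θ => A θ * B θ) := by
  obtain ⟨D, d1, d2, d3⟩ := hA
  obtain ⟨D', e1, e2, e3⟩ := hB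
  refine ⟨D'.trans D, e1.homeo_trans d1, fun p hp => ?_, fun θ => (d3 θ).comp (e3 θ)⟩
  show D (D' p) = p
  rw [e2 p hp, d2 p hp]

omit [HasGroupoid (T m) (orG (m + 1))] in
theorem CD.congr {ρ : ℝ} {A B : ℝ → (ℝ × E m) →L[ℝ] (ℝ × E m)} (hA : CD ρ A) (h : ∀ θ, B θ = A θ) :
    CD ρ B := by
  obtain ⟨D, d1, d2, d3⟩ := hA
  exact ⟨D, d1, d2, fun θ => by rw [h]; exact d3 θ⟩

/-- small factors -/
theorem CD.small {J : ℝ → E m →L[ℝ] (ℝ × E m)} (hJ : ContDiff ℝ ∞ J) (hp : ∀ t, J (t + 1) = J t) {η : ℝ}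
    (h1 : ∀ t, ‖J t‖ < η) (hη : (1 + bC m) * η ≤ 1 / 2) {ρ : ℝ} (hρ : 0 < ρ) :
    CD ρ (fun θ => 1 + (J θ).comp (ContinuousLinearMap.snd ℝ ℝ (E m))) := by
  set W : ℝ × E m → ℝ × E m := fun v => J v.1 v.2 with hW
  have hWs : ContDiff ℝ ∞ W := (hJ.comp contDiff_fst).clm_apply contDiff_snd
  have hJp : ∀ (k : ℤ) (t : ℝ), J (t + k) = J t := by
    intro k t
    have hper : Function.Periodic J 1 := hp
    have := hper.int_mul k t
    rwa [mul_one] at this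
  have hW0 : ∀ θ, W (θ, 0) = 0 := fun θ => map_zero _
  have hWd : ∀ θ, HasFDerivAt W ((J θ).comp (ContinuousLinearMap.snd ℝ ℝ (E m))) (θ, 0) := by
    intro θ
    have hc : HasFDerivAt (fun v : ℝ × E m => J v.1) (fderiv ℝ (fun v : ℝ × E m => J v.1) (θ, 0)) (θ, 0) :=
      (((hJ.comp contDiff_fst).differentiable (by simp)) (θ, 0)).hasFDerivAt
    have hu : HasFDerivAt (fun v : ℝ × E m => v.2) (ContinuousLinearMap.snd ℝ ℝ (E m)) (θ, 0) := hasFDerivAt_snd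
    have h2 := hc.clm_apply hu
    have h3 : HasFDerivAt W _ (θ, 0) := h2
    refine h3.congr_fderiv ?_
    refine ContinuousLinearMap.ext fun w => ?_
    show J θ w.2 + (fderiv ℝ (fun v : ℝ × E m => J v.1) (θ, 0) w) 0 = J θ w.2
    rw [map_zero, add_zero]
  obtain ⟨ε, hε, hερ, D, D1, D2, D3⟩ := core_small (W := W) one_pos (fun v _ => hWs.contDiffAt) (fun v k => by
    show J (v.1 + k) (v.2 + 0) = J v.1 v.2
    rw [hJp, add_zero]) hW0 (η := η) (fun θ => by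
    rw [(hWd θ).fderiv]
    refine (ContinuousLinearMap.opNorm_comp_le _ _).trans_lt ?_
    calc ‖J θ‖ * ‖ContinuousLinearMap.snd ℝ ℝ (E m)‖ ≤ ‖J θ‖ * 1 :=
          mul_le_mul_of_nonneg_left (ContinuousLinearMap.norm_snd_le _ _ _) (norm_nonneg _)
      _ < η := by rw [mul_one]; exact h1 θ) hη hρ
  refine ⟨D, D1, fun p hp => D2 p (hερ.trans hp), fun θ => ?_⟩
  refine ⟨fun v => v + W v, (contDiff_id.add hWs).contDiffAt, ?_, ?_, ?_⟩
  · show (θ, (0 : E m)) + W (θ, 0) = (θ, 0)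
    rw [hW0, add_zero]
  · exact ((hasFDerivAt_id (𝕜 := ℝ) ((θ, 0) : ℝ × E m)).add (hWd θ)).fderiv
  · have h5 : IsOpen {v : ℝ × E m | ‖v.2‖ < ε / 2} := isOpen_lt (by fun_prop) continuous_const
    filter_upwards [h5.mem_nhds (show ‖(0 : E m)‖ < ε / 2 by rw [norm_zero]; positivity)] with u hu
    exact D3 u (le_of_lt hu)

end

/-- block matrices -/
noncomputable def mt (a : E m →L[ℝ] ℝ) (R : E m →L[ℝ] E m) : (ℝ × E m) →L[ℝ] (ℝ × E m) :=
  (ContinuousLinearMap.fst ℝ ℝ (E m) + a.comp (ContinuousLinearMap.snd ℝ ℝ (E m))).prod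
    (R.comp (ContinuousLinearMap.snd ℝ ℝ (E m)))

theorem mt_apply (a : E m →L[ℝ] ℝ) (R : E m →L[ℝ] E m) (v : ℝ × E m) : mt a R v = (v.1 + a v.2, R v.2) := rfl

theorem mt_mul (a a' : E m →L[ℝ] ℝ) (R R' : E m →L[ℝ] E m) :
    mt a R * mt a' R' = mt (a' + a.comp R') (R * R') := by
  refine ContinuousLinearMap.ext fun v => ?_
  show mt a R (mt a' R' v) = _
  rw [mt_apply, mt_apply, mt_apply]
  refine Prod.ext ?_ rfl
  show v.1 + a' v.2 + a (R' v.2) = v.1 + (a' v.2 + a (R' v.2))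
  ring

theorem mt_one : mt (0 : E m →L[ℝ] ℝ) (1 : E m →L[ℝ] E m) = 1 := by
  refine ContinuousLinearMap.ext fun v => ?_
  rw [mt_apply]
  refine Prod.ext ?_ rfl
  show v.1 + 0 = v.1
  ring

theorem mt_small (a : E m →L[ℝ] ℝ) (R : E m →L[ℝ] E m) :
    mt a R = 1 + (a.prod (R - 1)).comp (ContinuousLinearMap.snd ℝ ℝ (E m)) := by
  refine ContinuousLinearMap.ext fun v => ?_
  rw [mt_apply]
  refine Prod.ext ?_ ?_
  · rfl
  · show R v.2 = v.2 + (R v.2 - v.2)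
    abel

theorem mt_of {A : (ℝ × E m) →L[ℝ] (ℝ × E m)} (h : A (1, 0) = (1, 0)) :
    A = mt ((ContinuousLinearMap.fst ℝ ℝ (E m)).comp (A.comp (ContinuousLinearMap.inr ℝ ℝ (E m)))) (blk A) := by
  refine ContinuousLinearMap.ext fun v => ?_
  rw [mt_apply]
  have h1 : v = v.1 • ((1 : ℝ), (0 : E m)) + (0, v.2) := by
    refine Prod.ext ?_ ?_
    · show v.1 = v.1 • 1 + 0
      simp
    · show v.2 = v.1 • 0 + v.2
      simp
  conv_lhs => rw [h1]
  rw [map_add, map_smul, h]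
  refine Prod.ext ?_ ?_
  · show v.1 • (1 : ℝ) + (A (0, v.2)).1 = v.1 + (A (0, v.2)).1
    simp
  · show v.1 • (0 : E m) + (A (0, v.2)).2 = blk A v.2
    rw [blk_apply]
    simp

section

variable [HasGroupoid (T m) (orG (m + 1))]

theorem CD.loops {η : ℝ} (hη : (1 + bC m) * η ≤ 1 / 2) {ρ : ℝ} (hρ : 0 < ρ)
    (l : List (ℝ → E m →L[ℝ] E m)) (hl : ∀ S ∈ l, SmallLoop η S) :
    CD ρ (fun θ => mt 0 (l.map fun S => S θ).prod) := by
  induction l with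
  | nil =>
    refine (CD.one ρ).congr fun θ => ?_
    rw [List.map_nil, List.prod_nil, mt_one]
  | cons S l ih =>
    obtain ⟨s1, s2, s3⟩ := hl S List.mem_cons_self
    have h1 : CD ρ (fun θ => mt 0 (S θ)) := by
      have h2 := CD.small (J := fun θ => (0 : E m →L[ℝ] ℝ).prod (S θ - 1)) (by
        have h3 : (fun θ => (0 : E m →L[ℝ] ℝ).prod (S θ - 1)) = fun θ =>
            (ContinuousLinearMap.compL ℝ (E m) (E m) (ℝ × E m) (ContinuousLinearMap.inr ℝ ℝ (E m))) (S θ - 1) := by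
          funext θ
          ext1 y
          rfl
        rw [h3]
        exact (ContinuousLinearMap.contDiff _).comp (s1.sub contDiff_const)) (fun t => by simp only [s2]) (η := η)
        (fun t => by
          rw [ContinuousLinearMap.opNorm_prod, Prod.norm_def]
          simp only [norm_zero]
          exact max_lt ((norm_nonneg _).trans_lt (s3 t)) (s3 t)) hη hρ
      exact h2.congr fun θ => mt_small _ _
    refine (h1.mul (ih fun S' hS' => hl S' (List.mem_cons_of_mem _ hS'))).congr fun θ => ?_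
    rw [mt_mul, List.map_cons, List.prod_cons]
    simp

theorem CD.shear {η : ℝ} (hη0 : 0 < η) (hη : (1 + bC m) * η ≤ 1 / 2) {ρ : ℝ} (hρ : 0 < ρ)
    {a : ℝ → E m →L[ℝ] ℝ} (ha : ContDiff ℝ ∞ a) (hp : ∀ t, a (t + 1) = a t) :
    CD ρ (fun θ => mt (a θ) 1) := by
  have hper : Function.Periodic a 1 := hp
  obtain ⟨C, hC⟩ : ∃ C : ℝ, ∀ t, ‖a t‖ ≤ C := by
    have h1 := hper.isBounded_of_continuous one_ne_zero ha.continuous
    obtain ⟨C, hC⟩ := h1.exists_norm_le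
    exact ⟨C, fun t => hC _ (mem_range_self t)⟩
  obtain ⟨N, hN⟩ := exists_nat_gt (C / η)
  have hC0 : 0 ≤ C := (norm_nonneg _).trans (hC 0)
  have hN0 : (0 : ℝ) < N := lt_of_le_of_lt (by positivity) hN
  have h1 : CD ρ (fun θ => mt ((N : ℝ)⁻¹ • a θ) 1) := by
    have h2 := CD.small (J := fun θ => ((N : ℝ)⁻¹ • a θ).prod ((1 : E m →L[ℝ] E m) - 1)) (by
      have h3 : (fun θ => ((N : ℝ)⁻¹ • a θ).prod ((1 : E m →L[ℝ] E m) - 1)) = fun θ =>
          (ContinuousLinearMap.compL ℝ (E m) ℝ (ℝ × E m) (ContinuousLinearMap.inl ℝ ℝ (E m))) ((N : ℝ)⁻¹ • a θ) := by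
        funext θ
        ext1 y
        refine Prod.ext rfl ?_
        show ((1 : E m →L[ℝ] E m) - 1) y = 0
        simp
      rw [h3]
      exact (ContinuousLinearMap.contDiff _).comp (ha.const_smul _)) (fun t => by simp only [hp]) (η := η)
      (fun t => by
        rw [ContinuousLinearMap.opNorm_prod, Prod.norm_def]
        simp only [sub_self, norm_zero]
        refine max_lt ?_ hη0
        rw [norm_smul, norm_inv, Real.norm_natCast]
        rw [div_lt_iff₀ hη0] at hN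
        rw [inv_mul_lt_iff₀ hN0]
        exact (hC t).trans_lt hN) hη hρ
    exact h2.congr fun θ => mt_small _ _
  have h2 : ∀ k : ℕ, CD ρ (fun θ => mt (((k : ℝ) * (N : ℝ)⁻¹) • a θ) 1) := by
    intro k
    induction k with
    | zero =>
      refine (CD.one ρ).congr fun θ => ?_
      rw [Nat.cast_zero, zero_mul, zero_smul, mt_one]
    | succ k ih =>
      refine (ih.mul h1).congr fun θ => ?_
      rw [mt_mul, mul_one]
      congr 1
      ext1 y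
      show (((k + 1 : ℕ) : ℝ) * (N : ℝ)⁻¹) • a θ y = (N : ℝ)⁻¹ • a θ y + ((k : ℝ) * (N : ℝ)⁻¹) • a θ y
      rw [← add_smul]
      congr 1
      push_cast
      ring
  refine (h2 N).congr fun θ => ?_
  rw [mul_inv_cancel₀ hN0.ne', one_smul]

/-- All factors together. -/
theorem CD.main {η : ℝ} (hη0 : 0 < η) (hη : (1 + bC m) * η ≤ 1 / 2) {ρ : ℝ} (hρ : 0 < ρ)
    (l : List (ℝ → E m →L[ℝ] E m)) (hl : ∀ S ∈ l, SmallLoop η S)
    {a : ℝ → E m →L[ℝ] ℝ} (ha : ContDiff ℝ ∞ a) (hp : ∀ t, a (t + 1) = a t) :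
    CD ρ (fun θ => mt (a θ) (l.map fun S => S θ).prod) := by
  refine ((CD.loops hη hρ l hl).mul (CD.shear hη0 hη hρ ha hp)).congr fun θ => ?_
  rw [mt_mul, mul_one]
  congr 1
  ext1 y
  show a θ y = a θ y + 0
  rw [add_zero]

end

end Pool.Agent.CSM
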