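import Pool.Agent.CSM.CTS

/-!
Lifts near the core of maps of the solid torus which fix the core.
-/

open scoped Manifold ContDiff Topology
open Set

namespace Pool.Agent.CSM

theorem exists_sg (z : AddCircle (1 : ℝ)) : ∃ t : ℝ, t ∈ Ioc (-(1 / 2) : ℝ) (1 / 2) ∧ (t : AddCircle (1 : ℝ)) = z := by
  have : Fact ((0 : ℝ) < 1) := ⟨one_pos⟩
  have h : z ∈ ((↑) : ℝ → AddCircle (1 : ℝ)) '' Ioc (-(1 / 2) : ℝ) (-(1 / 2) + 1) := by
    rw [AddCircle.coe_image_Ioc_eq]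
    trivial
  obtain ⟨t, ht, rfl⟩ := h
  exact ⟨t, ⟨ht.1, by linarith [ht.2]⟩, rfl⟩

/-- The representative in `(-1/2, 1/2]`. -/
noncomputable def sg (z : AddCircle (1 : ℝ)) : ℝ := (exists_sg z).choose

theorem sg_mem (z : AddCircle (1 : ℝ)) : sg z ∈ Ioc (-(1 / 2) : ℝ) (1 / 2) := (exists_sg z).choose_spec.1

theorem sg_coe (z : AddCircle (1 : ℝ)) : ((sg z : ℝ) : AddCircle (1 : ℝ)) = z := (exists_sg z).choose_spec.2

theorem coe_eq_iff {s t : ℝ} : (s : AddCircle (1 : ℝ)) = t ↔ ∃ k : ℤ, s = t + k := by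
  constructor
  · intro h
    have h1 : ((s - t : ℝ) : AddCircle (1 : ℝ)) = 0 := by rw [AddCircle.coe_sub, h, sub_self]
    rw [AddCircle.coe_eq_zero_iff] at h1
    obtain ⟨k, hk⟩ := h1
    refine ⟨k, ?_⟩
    have : (k : ℝ) = s - t := by simpa using hk
    linarith
  · rintro ⟨k, rfl⟩
    have h1 : (((k : ℝ)) : AddCircle (1 : ℝ)) = 0 := by
      rw [AddCircle.coe_eq_zero_iff]
      exact ⟨k, by simp⟩
    rw [AddCircle.coe_add, h1, add_zero]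

theorem sg_of_mem {t : ℝ} (h : t ∈ Ioc (-(1 / 2) : ℝ) (1 / 2)) : sg (t : AddCircle (1 : ℝ)) = t := by
  obtain ⟨k, hk⟩ := coe_eq_iff.1 (sg_coe (t : AddCircle (1 : ℝ)))
  have h1 := sg_mem (t : AddCircle (1 : ℝ))
  have h2 : (k : ℝ) < 1 := by linarith [h1.2, h.1]
  have h3 : (-1 : ℝ) < k := by linarith [h1.1, h.2]
  have h4 : k < 1 := by exact_mod_cast h2
  have h5 : -1 < k := by exact_mod_cast h3
  have h6 : k = 0 := by omega
  rw [hk, h6]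
  simp

theorem sg_zero : sg 0 = 0 := by
  have := sg_of_mem (t := 0) ⟨by norm_num, by norm_num⟩
  simpa using this

theorem sg_lt {z : AddCircle (1 : ℝ)} (h : z ≠ ((1 / 2 : ℝ) : AddCircle (1 : ℝ))) : sg z < 1 / 2 := by
  refine lt_of_le_of_ne (sg_mem z).2 fun h1 => h ?_
  rw [← h1, sg_coe]

variable {m : ℕ}

/-- The lift of `P` that moves the first coordinate by an element of `(-1/2, 1/2]`. -/
noncomputable def liftP (P : T m → T m) (v : ℝ × E m) : ℝ × E m :=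
  (v.1 + sg ((P (qT v)).1 - (v.1 : AddCircle (1 : ℝ))), (P (qT v)).2)

theorem liftP_qT (P : T m → T m) (v : ℝ × E m) : qT (liftP P v) = P (qT v) := by
  have h1 : (((v.1 + sg ((P (qT v)).1 - (v.1 : AddCircle (1 : ℝ))) : ℝ)) : AddCircle (1 : ℝ)) = (P (qT v)).1 := by
    rw [AddCircle.coe_add, sg_coe]
    abel
  exact Prod.ext h1 rfl

theorem liftP_add_int (P : T m → T m) (v : ℝ × E m) (k : ℤ) :
    liftP P (v + ((k : ℝ), 0)) = liftP P v + ((k : ℝ), 0) := by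
  have h1 : (((v + ((k : ℝ), (0 : E m))).1 : ℝ) : AddCircle (1 : ℝ)) = (v.1 : AddCircle (1 : ℝ)) :=
    coe_eq_iff.2 ⟨k, rfl⟩
  unfold liftP
  rw [h1, qT_add_int]
  refine Prod.ext ?_ ?_
  · show v.1 + (k : ℝ) + _ = v.1 + _ + (k : ℝ)
    ring
  · show _ = _ + (0 : E m)
    rw [add_zero]

theorem liftP_core {P : T m → T m} {θ : ℝ} (h : P (mkT θ 0) = mkT θ 0) : liftP P (θ, 0) = (θ, 0) := by
  have h1 : P (qT ((θ, 0) : ℝ × E m)) = mkT θ 0 := by rw [qT_mk, h]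
  unfold liftP
  rw [h1]
  refine Prod.ext ?_ rfl
  show θ + sg ((θ : AddCircle (1 : ℝ)) - (θ : AddCircle (1 : ℝ))) = θ
  rw [sub_self, sg_zero, add_zero]

variable [HasGroupoid (T m) (orG (m + 1))]

theorem liftP_smooth {P : T m → T m} {v : ℝ × E m} (h : PDAt (m + 1) P (qT v))
    (hs : (P (qT v)).1 - (v.1 : AddCircle (1 : ℝ)) ≠ ((1 / 2 : ℝ) : AddCircle (1 : ℝ))) :
    ContDiffAt ℝ ∞ (liftP P) v ∧ 0 < (fderiv ℝ (liftP P) v).det := by
  obtain ⟨g, g1, g2, g3, g4⟩ := exists_lift h (liftP_qT P v)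
  have hc : ContinuousAt (fun u => (g u).1 - u.1) v :=
    (continuous_fst.continuousAt.comp g1.continuousAt).sub continuous_fst.continuousAt
  have h1 : (g v).1 - v.1 = sg ((P (qT v)).1 - (v.1 : AddCircle (1 : ℝ))) := by
    rw [g3]
    show v.1 + _ - v.1 = _
    ring
  have h2 : (g v).1 - v.1 ∈ Ioo (-(1 / 2) : ℝ) (1 / 2) := by
    rw [h1]
    exact ⟨(sg_mem _).1, sg_lt hs⟩
  have h3 : liftP P =ᶠ[𝓝 v] g := by
    filter_upwards [g4, hc.preimage_mem_nhds (isOpen_Ioo.mem_nhds h2)] with u hu hu'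
    have e1 : P (qT u) = qT (g u) := hu
    have hu2 : (g u).1 - u.1 ∈ Ioo (-(1 / 2) : ℝ) (1 / 2) := hu'
    have e2 : (P (qT u)).1 - (u.1 : AddCircle (1 : ℝ)) = (((g u).1 - u.1 : ℝ) : AddCircle (1 : ℝ)) := by
      rw [e1, AddCircle.coe_sub]
      rfl
    unfold liftP
    rw [e2, sg_of_mem ⟨hu2.1, hu2.2.le⟩, e1]
    refine Prod.ext ?_ rfl
    show u.1 + ((g u).1 - u.1) = (g u).1
    ring
  refine ⟨g1.congr_of_eventuallyEq h3, ?_⟩
  rw [h3.fderiv_eq]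
  exact g2

/-- The lift is smooth near the core. -/
theorem liftP_near {P : T m → T m} {U : Set (T m)} (hU : IsOpen U) (hcU : ∀ θ : ℝ, mkT θ 0 ∈ U)
    (hP : ∀ p ∈ U, PDAt (m + 1) P p) (hc : ∀ θ : ℝ, P (mkT θ 0) = mkT θ 0) :
    ∃ r > 0, ∀ v : ℝ × E m, ‖v.2‖ < r → qT v ∈ U ∧ ContDiffAt ℝ ∞ (liftP P) v ∧ 0 < (fderiv ℝ (liftP P) v).det := by
  have hPc : ContinuousOn P U := fun p hp => (hP p hp).1.continuousWithinAt
  have h1 : ContinuousOn (fun p : T m => ((P p).1 : AddCircle (1 : ℝ)) - (p.1 : AddCircle (1 : ℝ))) U := by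
    have h2 : Continuous (fun p : T m => (p.1 : AddCircle (1 : ℝ))) :=
      (continuous_fst : Continuous (Prod.fst : AddCircle (1 : ℝ) × E m → AddCircle (1 : ℝ)))
    exact (h2.comp_continuousOn hPc).sub h2.continuousOn
  have h3 : IsOpen (U ∩ (fun p : T m => ((P p).1 : AddCircle (1 : ℝ)) - (p.1 : AddCircle (1 : ℝ))) ⁻¹'
      {((1 / 2 : ℝ) : AddCircle (1 : ℝ))}ᶜ) := h1.isOpen_inter_preimage hU isOpen_compl_singleton
  obtain ⟨r, hr, hb⟩ := core_nhd h3 (fun θ => by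
    refine ⟨hcU θ, ?_⟩
    show (P (mkT θ 0)).1 - (mkT θ (0 : E m)).1 ≠ ((1 / 2 : ℝ) : AddCircle (1 : ℝ))
    rw [hc, sub_self]
    intro h
    have h4 := sg_of_mem (t := 1 / 2) ⟨by norm_num, le_rfl⟩
    rw [← h, sg_zero] at h4
    norm_num at h4)
  refine ⟨r, hr, fun v hv => ?_⟩
  have h5 := hb v.1 v.2 hv
  exact ⟨h5.1, liftP_smooth (hP _ h5.1) h5.2⟩

end Pool.Agent.CSM
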