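import Pool.Agent.CSM.Defs3
import Pool.Agent.CSM.Core2
import Pool.Agent.CSM.CAO

/-!
(C) Radial embedding of `E n` onto a ball, existence of discs.
-/

open scoped Manifold ContDiff Topology InnerProductSpace
open Set

namespace Pool.Agent.CSM

/-- smooth step from `u = 1/4` to `u = 1/2` -/
noncomputable def rdS (u : ℝ) : ℝ := Real.smoothTransition (4 * u - 1)

/-- the square of the radial factor -/
noncomputable def rdA (u : ℝ) : ℝ := 1 + rdS u * (2 / (2 * u + 1) - 1)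

theorem rdS_contDiff : ContDiff ℝ ∞ rdS := by
  unfold rdS
  exact Real.smoothTransition.contDiff.comp (by fun_prop)

theorem rdS_zero {u : ℝ} (h : u ≤ 1 / 4) : rdS u = 0 :=
  Real.smoothTransition.zero_of_nonpos (by linarith)

theorem rdS_one {u : ℝ} (h : 1 / 2 ≤ u) : rdS u = 1 :=
  Real.smoothTransition.one_of_one_le (by linarith)

theorem rdS_nonneg (u : ℝ) : 0 ≤ rdS u := Real.smoothTransition.nonneg _

theorem rdS_le (u : ℝ) : rdS u ≤ 1 := Real.smoothTransition.le_one _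

theorem rdS_mono : Monotone rdS := fun a b h => Real.smoothTransition.monotone (by linarith)

theorem rdS_hasDeriv (u : ℝ) : HasDerivAt rdS (deriv rdS u) u :=
  (rdS_contDiff.differentiable (by simp) u).hasDerivAt

theorem rdS_deriv_nonneg (u : ℝ) : 0 ≤ deriv rdS u := rdS_mono.deriv_nonneg

theorem rdS_deriv_zero {u : ℝ} (h : 1 / 2 < u) : deriv rdS u = 0 := by
  have : rdS =ᶠ[𝓝 u] fun _ => (1 : ℝ) := by
    filter_upwards [lt_mem_nhds h] with w hw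
    exact rdS_one hw.le
  rw [this.deriv_eq]
  simp

theorem rdA_pos {u : ℝ} (hu : 0 ≤ u) : 0 < rdA u := by
  have h0 : rdA u = (1 - rdS u) + rdS u * (2 / (2 * u + 1)) := by
    unfold rdA; ring
  rw [h0]
  have h1 := rdS_nonneg u
  have h2 := rdS_le u
  have h3 : 0 < 2 / (2 * u + 1) := by positivity
  rcases h1.eq_or_lt with h | h
  · rw [← h]; simp
  · have := mul_pos h h3
    linarith

theorem rdA_contDiffAt {u : ℝ} (hu : 0 ≤ u) : ContDiffAt ℝ ∞ rdA u := by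
  unfold rdA
  refine contDiffAt_const.add (rdS_contDiff.contDiffAt.mul (ContDiffAt.sub (ContDiffAt.div contDiffAt_const (by fun_prop) ?_) contDiffAt_const))
  positivity

theorem rdA_hasDeriv {u : ℝ} (hu : 0 ≤ u) : HasDerivAt rdA (deriv rdS u * (2 / (2 * u + 1) - 1) +
    rdS u * (-(4 / (2 * u + 1) ^ 2))) u := by
  have h1 : HasDerivAt (fun u : ℝ => 2 * u + 1) 2 u := by
    simpa using ((hasDerivAt_id u).const_mul 2).add_const 1
  have h0 : (2 * u + 1) ≠ 0 := by positivity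
  have h2 : HasDerivAt (fun u : ℝ => 2 / (2 * u + 1) - 1) (-(4 / (2 * u + 1) ^ 2)) u := by
    have h : HasDerivAt (fun u : ℝ => 2 / (2 * u + 1) - 1) ((0 * (2 * u + 1) - 2 * 2) / (2 * u + 1) ^ 2) u :=
      ((hasDerivAt_const u (2 : ℝ)).div h1 h0).sub_const 1
    refine h.congr_deriv ?_
    ring
  have h3 := ((rdS_hasDeriv u).mul h2).const_add 1
  exact h3

/-- `b(u) = u a(u)` has positive derivative. -/
theorem rdB_deriv_pos {u : ℝ} (hu : 0 ≤ u) : 0 < rdA u + u * (deriv rdS u * (2 / (2 * u + 1) - 1) +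
    rdS u * (-(4 / (2 * u + 1) ^ 2))) := by
  have h0 : (2 * u + 1) ≠ 0 := by positivity
  have e : rdA u + u * (deriv rdS u * (2 / (2 * u + 1) - 1) + rdS u * (-(4 / (2 * u + 1) ^ 2))) =
      (1 - rdS u) + rdS u * (2 / (2 * u + 1) ^ 2) + u * (deriv rdS u * ((1 - 2 * u) / (2 * u + 1))) := by
    unfold rdA
    field_simp
    ring
  rw [e]
  have h1 := rdS_nonneg u
  have h2 := rdS_le u
  have h3 : 0 < 2 / (2 * u + 1) ^ 2 := by positivity
  have h4 : 0 ≤ u * (deriv rdS u * ((1 - 2 * u) / (2 * u + 1))) := by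
    rcases le_or_gt u (1 / 2) with h | h
    · have : 0 ≤ (1 - 2 * u) / (2 * u + 1) := div_nonneg (by linarith) (by linarith)
      have := rdS_deriv_nonneg u
      positivity
    · rw [rdS_deriv_zero h]; simp
  rcases h1.eq_or_lt with h | h
  · rw [← h]; simp only [zero_mul, add_zero, sub_zero]; linarith
  · have := mul_pos h h3
    linarith

theorem rdB_hasDeriv {u : ℝ} (hu : 0 ≤ u) : HasDerivAt (fun u => u * rdA u) (rdA u + u * (deriv rdS u * (2 / (2 * u + 1) - 1) +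
    rdS u * (-(4 / (2 * u + 1) ^ 2)))) u := by
  have h : HasDerivAt (fun u => u * rdA u) (1 * rdA u + u * (deriv rdS u * (2 / (2 * u + 1) - 1) +
      rdS u * (-(4 / (2 * u + 1) ^ 2)))) u := (hasDerivAt_id u).mul (rdA_hasDeriv hu)
  rwa [one_mul] at h

theorem rdB_strictMono : StrictMonoOn (fun u => u * rdA u) (Ici 0) := by
  apply strictMonoOn_of_deriv_pos (convex_Ici 0)
  · intro u hu
    exact (rdB_hasDeriv hu).continuousAt.continuousWithinAt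
  · intro u hu
    rw [interior_Ici] at hu
    have hu' : 0 ≤ u := le_of_lt hu
    rw [(rdB_hasDeriv hu').deriv]
    exact rdB_deriv_pos hu'

theorem rdB_large {u : ℝ} (hu : 1 / 2 ≤ u) : u * rdA u = 2 * u / (2 * u + 1) := by
  have h0 : (2 * u + 1) ≠ 0 := by positivity
  rw [rdA, rdS_one hu]
  field_simp
  ring

theorem rdB_lt_one {u : ℝ} (hu : 0 ≤ u) : u * rdA u < 1 := by
  rcases le_or_gt (1 / 2) u with h | h
  · rw [rdB_large h, div_lt_one (by linarith)]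
    linarith
  · have h1 := rdB_strictMono (a := u) hu (b := 1 / 2) (by simp) h
    have h2 := rdB_large (u := 1 / 2) le_rfl
    simp only at h1
    rw [h2] at h1
    norm_num at h1
    linarith

theorem rdB_surj {y : ℝ} (h0 : 0 ≤ y) (h1 : y < 1) : ∃ u, 0 ≤ u ∧ u * rdA u = y := by
  set U : ℝ := 1 / (1 - y) with hU
  have hU1 : 1 ≤ U := by
    rw [hU, le_div_iff₀ (by linarith)]
    linarith
  have h2 : y ≤ U * rdA U := by
    rw [rdB_large (by linarith), le_div_iff₀ (by linarith)]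
    have : (1 - y) * U = 1 := by
      rw [hU]; field_simp [show (1 - y) ≠ 0 by linarith]
    nlinarith
  have h3 : ContinuousOn (fun u => u * rdA u) (Icc 0 U) := fun u hu =>
    (rdB_hasDeriv hu.1).continuousAt.continuousWithinAt
  have h4 := intermediate_value_Icc (by linarith : (0 : ℝ) ≤ U) h3
  have h5 : y ∈ Icc ((0 : ℝ) * rdA 0) (U * rdA U) := ⟨by simpa using h0, h2⟩
  obtain ⟨u, hu, hu'⟩ := h4 h5
  exact ⟨u, hu.1, hu'⟩

/-- the radial map -/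
noncomputable def rdV {n : ℕ} (δ : ℝ) (v : E n) : E n := Real.sqrt (rdA (‖v‖ ^ 2 / δ ^ 2)) • v

theorem rd_arg_nonneg {n : ℕ} (δ : ℝ) (v : E n) : 0 ≤ ‖v‖ ^ 2 / δ ^ 2 := by positivity

theorem rdV_contDiff {n : ℕ} (δ : ℝ) : ContDiff ℝ ∞ (rdV δ : E n → E n) := by
  rw [contDiff_iff_contDiffAt]
  intro v
  unfold rdV
  have h0 : ContDiff ℝ ∞ (fun v : E n => ‖v‖ ^ 2 / δ ^ 2) := (contDiff_norm_sq ℝ).div_const _
  have h : ContDiffAt ℝ ∞ (fun v : E n => rdA (‖v‖ ^ 2 / δ ^ 2)) v :=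
    ContDiffAt.comp (g := rdA) v (rdA_contDiffAt (rd_arg_nonneg δ v)) h0.contDiffAt
  exact (h.sqrt (rdA_pos (rd_arg_nonneg δ v)).ne').smul contDiffAt_id

theorem rdV_norm {n : ℕ} {δ : ℝ} (hδ : 0 < δ) (v : E n) : ‖rdV δ v‖ ^ 2 = δ ^ 2 * ((‖v‖ ^ 2 / δ ^ 2) * rdA (‖v‖ ^ 2 / δ ^ 2)) := by
  rw [rdV, norm_smul, mul_pow, Real.norm_of_nonneg (Real.sqrt_nonneg _), Real.sq_sqrt (rdA_pos (rd_arg_nonneg δ v)).le]
  field_simp

theorem rdV_inj {n : ℕ} {δ : ℝ} (hδ : 0 < δ) : Function.Injective (rdV δ : E n → E n) := by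
  intro v w h
  have h1 := rdV_norm hδ v
  have h2 := rdV_norm hδ w
  rw [h, h2] at h1
  have h3 : (‖w‖ ^ 2 / δ ^ 2) * rdA (‖w‖ ^ 2 / δ ^ 2) = (‖v‖ ^ 2 / δ ^ 2) * rdA (‖v‖ ^ 2 / δ ^ 2) :=
    mul_left_cancel₀ (by positivity) h1
  have h4 := rdB_strictMono.injOn (rd_arg_nonneg δ w) (rd_arg_nonneg δ v) h3
  unfold rdV at h
  rw [h4] at h
  have h5 : Real.sqrt (rdA (‖v‖ ^ 2 / δ ^ 2)) ≠ 0 := (Real.sqrt_pos.2 (rdA_pos (rd_arg_nonneg δ v))).ne'
  exact smul_right_injective _ h5 h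

theorem rdV_range {n : ℕ} {δ : ℝ} (hδ : 0 < δ) : range (rdV δ : E n → E n) = Metric.ball 0 δ := by
  ext w
  rw [mem_ball_zero_iff, mem_range]
  constructor
  · rintro ⟨v, rfl⟩
    have h1 := rdV_norm hδ v
    have h2 := rdB_lt_one (rd_arg_nonneg δ v)
    have h3 : ‖rdV δ v‖ ^ 2 < δ ^ 2 := by
      rw [h1]
      have : 0 < δ ^ 2 := by positivity
      nlinarith
    exact lt_of_pow_lt_pow_left₀ 2 hδ.le h3
  · intro hw
    obtain ⟨u, hu, hu'⟩ := rdB_surj (y := ‖w‖ ^ 2 / δ ^ 2) (by positivity) (by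
      rw [div_lt_one (by positivity)]
      exact pow_lt_pow_left₀ hw (norm_nonneg _) (by norm_num))
    have hA := rdA_pos hu
    have hs : 0 < Real.sqrt (rdA u) := Real.sqrt_pos.2 hA
    refine ⟨(Real.sqrt (rdA u))⁻¹ • w, ?_⟩
    have h1 : ‖(Real.sqrt (rdA u))⁻¹ • w‖ ^ 2 / δ ^ 2 = u := by
      rw [norm_smul, mul_pow, norm_inv, Real.norm_of_nonneg hs.le, inv_pow, Real.sq_sqrt hA.le, mul_div_assoc,
        ← hu']
      field_simp
    rw [rdV, h1, smul_smul, mul_inv_cancel₀ hs.ne', one_smul]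

theorem rdV_self {n : ℕ} {δ : ℝ} (hδ : 0 < δ) {v : E n} (h : ‖v‖ ≤ δ / 2) : rdV δ v = v := by
  have h1 : ‖v‖ ^ 2 / δ ^ 2 ≤ 1 / 4 := by
    rw [div_le_iff₀ (by positivity)]
    have := pow_le_pow_left₀ (norm_nonneg v) h 2
    nlinarith
  rw [rdV, rdA, rdS_zero h1]
  simp

theorem rdV_det_ne {n : ℕ} {δ : ℝ} (hδ : 0 < δ) (v : E n) : (fderiv ℝ (rdV δ) v).det ≠ 0 := by
  set u : ℝ := ‖v‖ ^ 2 / δ ^ 2 with hu
  have hu0 : 0 ≤ u := rd_arg_nonneg δ v
  have hA := rdA_pos hu0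
  set a' : ℝ := deriv rdS u * (2 / (2 * u + 1) - 1) + rdS u * (-(4 / (2 * u + 1) ^ 2)) with ha'
  have h1 : HasDerivAt (fun u => Real.sqrt (rdA u)) (a' / (2 * Real.sqrt (rdA u))) u :=
    (rdA_hasDeriv hu0).sqrt hA.ne'
  have h2 : HasFDerivAt (fun v : E n => ‖v‖ ^ 2 / δ ^ 2) ((δ ^ 2)⁻¹ • (2 • innerSL ℝ v)) v := by
    have h : HasFDerivAt (fun v : E n => (δ ^ 2)⁻¹ • ‖v‖ ^ 2) ((δ ^ 2)⁻¹ • (2 • innerSL ℝ v)) v :=
      (hasStrictFDerivAt_norm_sq v).hasFDerivAt.const_smul ((δ ^ 2)⁻¹)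
    have e : (fun v : E n => ‖v‖ ^ 2 / δ ^ 2) = fun v : E n => (δ ^ 2)⁻¹ • ‖v‖ ^ 2 := by
      funext w
      rw [smul_eq_mul, div_eq_inv_mul]
    rw [e]
    exact h
  have h3 := h1.comp_hasFDerivAt v h2
  have h4 := h3.smul (hasFDerivAt_id v)
  have h5 : (fun w : E n => (Real.sqrt ∘ rdA) (‖w‖ ^ 2 / δ ^ 2) • w) = rdV δ := by
    funext w; rfl
  have h6 : HasFDerivAt (rdV δ) _ v := h4
  rw [h6.fderiv]
  intro hdet
  have h7 := LinearMap.bot_lt_ker_of_det_eq_zero hdet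
  obtain ⟨w, hw, hw0⟩ := (Submodule.ne_bot_iff _).1 h7.ne'
  apply hw0
  rw [LinearMap.mem_ker] at hw
  set g : ℝ := Real.sqrt (rdA u) with hg
  have hg0 : 0 < g := Real.sqrt_pos.2 hA
  have hgg : g * g = rdA u := Real.mul_self_sqrt hA.le
  have h8 : g • w + ((a' / (2 * g)) * ((δ ^ 2)⁻¹ * (2 * ⟪v, w⟫_ℝ))) • v = 0 := by
    simpa [smul_smul, mul_assoc, hg, hu] using hw
  have h9 : ⟪v, g • w + ((a' / (2 * g)) * ((δ ^ 2)⁻¹ * (2 * ⟪v, w⟫_ℝ))) • v⟫_ℝ = 0 := by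
    rw [h8]; simp
  rw [inner_add_right, real_inner_smul_right, real_inner_smul_right, real_inner_self_eq_norm_sq] at h9
  have h10 : ⟪v, w⟫_ℝ * (rdA u + u * a') = 0 := by
    have : g * (g * ⟪v, w⟫_ℝ + (a' / (2 * g)) * ((δ ^ 2)⁻¹ * (2 * ⟪v, w⟫_ℝ)) * ‖v‖ ^ 2) = 0 := by
      rw [h9, mul_zero]
    rw [← hgg, hu, ← this]
    field_simp
  have h11 : 0 < rdA u + u * a' := rdB_deriv_pos hu0
  have h12 : ⟪v, w⟫_ℝ = 0 := by
    rcases mul_eq_zero.1 h10 with h | h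
    · exact h
    · exact absurd h h11.ne'
  rw [h12] at h8
  simp only [mul_zero, zero_smul, add_zero] at h8
  exact (smul_eq_zero.1 h8).resolve_left hg0.ne'

theorem rdV_det_pos {n : ℕ} {δ : ℝ} (hδ : 0 < δ) (v : E n) : 0 < (fderiv ℝ (rdV δ) v).det := by
  have hc : Continuous fun v : E n => (fderiv ℝ (rdV δ) v).det :=
    ContinuousLinearMap.continuous_det.comp ((rdV_contDiff δ).continuous_fderiv (by simp))
  by_contra h
  push Not at h
  have h0 : (fderiv ℝ (rdV δ) (0 : E n)).det = 1 := by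
    have : (rdV δ : E n → E n) =ᶠ[𝓝 0] id := by
      filter_upwards [Metric.ball_mem_nhds (0 : E n) (half_pos hδ)] with w hw
      exact rdV_self hδ (mem_ball_zero_iff.1 hw).le
    rw [this.fderiv_eq, fderiv_id]
    exact det_id'
  obtain ⟨w, hw⟩ := mem_range_of_exists_le_of_exists_ge hc ⟨v, h⟩ ⟨0, by rw [h0]; norm_num⟩
  exact rdV_det_ne hδ w hw

/-- (C2) Radial embedding of `E n` onto a ball, the identity near the origin. -/
theorem exists_radial (n : ℕ) {δ : ℝ} (hδ : 0 < δ) :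
    ∃ s : OPH (E n) (E n), PD n s ∧ s.source = univ ∧ s.target = Metric.ball 0 δ ∧
      (∀ v, ‖v‖ ≤ δ / 2 → s v = v) ∧ ∀ v, ∃ r : ℝ, 0 < r ∧ s v = r • v := by
  obtain ⟨s, h1, h2, h3, h4⟩ := exists_oph (n := n) (f := (rdV δ : E n → E n)) isOpen_univ
    (rdV_inj hδ).injOn (fun x _ => pdAt_model.2 ⟨(rdV_contDiff δ).contDiffAt, rdV_det_pos hδ x⟩)
  refine ⟨s, h1, h2, ?_, fun v hv => ?_, fun v => ?_⟩
  · rw [h3, image_univ, rdV_range hδ]
  · rw [h4, rdV_self hδ hv]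
  · exact ⟨_, Real.sqrt_pos.2 (rdA_pos (rd_arg_nonneg δ v)), h4 v⟩

end Pool.Agent.CSM
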