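import Pool.Agent.CSM.CAO

/-!
CSM chunk C, module CSD: small perturbations of the identity are diffeomorphisms.
-/

open scoped Manifold ContDiff Topology
open Set

namespace Pool.Agent.CSM

section general

variable {V : Type*} [NormedAddCommGroup V] [NormedSpace ℝ V] [FiniteDimensional ℝ V]

/-- Linear maps near the identity have positive determinant. -/
theorem det_pos_near {B : V →L[ℝ] V} (hB : ‖B - 1‖ < 1) : 0 < B.det := by
  have : CompleteSpace V := FiniteDimensional.complete ℝ V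
  have hu : ∀ s ∈ Icc (0 : ℝ) 1, ((1 : V →L[ℝ] V) + s • (B - 1)).det ≠ 0 := by
    intro s hs
    have h1 : ‖-(s • (B - 1))‖ < 1 := by
      rw [norm_neg, norm_smul, Real.norm_eq_abs, abs_of_nonneg hs.1]
      nlinarith [norm_nonneg (B - 1), hs.2]
    have h2 : IsUnit ((1 : V →L[ℝ] V) + s • (B - 1)) := by
      have := isUnit_one_sub_of_norm_lt_one h1
      rwa [sub_neg_eq_add] at this
    obtain ⟨u, hu⟩ := h2
    rw [← hu]
    have h3 : (u : V →L[ℝ] V).det * ((u⁻¹ : (V →L[ℝ] V)ˣ) : V →L[ℝ] V).det = 1 := by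
      have h4 := LinearMap.det_comp ((u : V →L[ℝ] V) : V →ₗ[ℝ] V)
        (((u⁻¹ : (V →L[ℝ] V)ˣ) : V →L[ℝ] V) : V →ₗ[ℝ] V)
      have h5 : ((u : V →L[ℝ] V) : V →ₗ[ℝ] V) ∘ₗ (((u⁻¹ : (V →L[ℝ] V)ˣ) : V →L[ℝ] V) : V →ₗ[ℝ] V)
          = LinearMap.id := by
        have h6 : (u : V →L[ℝ] V) * ((u⁻¹ : (V →L[ℝ] V)ˣ) : V →L[ℝ] V) = 1 := u.mul_inv
        ext v
        exact congrArg (fun T : V →L[ℝ] V => T v) h6
      rw [h5, LinearMap.det_id] at h4
      exact h4.symm
    exact left_ne_zero_of_mul (by rw [h3]; exact one_ne_zero)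
  have hc : Continuous fun s : ℝ => ((1 : V →L[ℝ] V) + s • (B - 1)).det :=
    ContinuousLinearMap.continuous_det.comp (by fun_prop)
  have h0 : ((1 : V →L[ℝ] V) + (0 : ℝ) • (B - 1)).det = 1 := by
    rw [zero_smul, add_zero]
    exact LinearMap.det_id
  have h1 : ((1 : V →L[ℝ] V) + (1 : ℝ) • (B - 1)) = B := by
    rw [one_smul]
    abel
  by_contra hneg
  push Not at hneg
  have hiv := intermediate_value_Icc' (zero_le_one (α := ℝ)) hc.continuousOn
  have hmem : (0 : ℝ) ∈ Icc (((1 : V →L[ℝ] V) + (1 : ℝ) • (B - 1)).det)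
      (((1 : V →L[ℝ] V) + (0 : ℝ) • (B - 1)).det) := by
    rw [h0, h1]
    exact ⟨hneg, zero_le_one⟩
  obtain ⟨s, hs, hs0⟩ := hiv hmem
  exact hu s hs hs0

/-- `x ↦ x + w x` with `‖Dw‖ ≤ 1/2` is a diffeomorphism. -/
theorem small_homeo {w : V → V} (hw : ContDiff ℝ ∞ w) (hd : ∀ x, ‖fderiv ℝ w x‖ ≤ 1 / 2) :
    ∃ G : V ≃ₜ V, (∀ x, G x = x + w x) ∧ ContDiff ℝ ∞ G ∧ ContDiff ℝ ∞ G.symm ∧
      ∀ x, 0 < (fderiv ℝ G x).det := by
  have : CompleteSpace V := FiniteDimensional.complete ℝ V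
  have hdiff : Differentiable ℝ w := hw.differentiable (by simp)
  have hlip : LipschitzWith (1 / 2) w := lipschitzWith_of_nnnorm_fderiv_le hdiff fun x => by
    have := hd x
    rw [← NNReal.coe_le_coe, coe_nnnorm]
    simpa using this
  have happ : ApproximatesLinearOn (fun x => x + w x)
      ((ContinuousLinearEquiv.refl ℝ V : V ≃L[ℝ] V) : V →L[ℝ] V) univ (1 / 2) := by
    intro x _ y _
    have h1 : x + w x - (y + w y) - ((ContinuousLinearEquiv.refl ℝ V : V ≃L[ℝ] V) : V →L[ℝ] V) (x - y)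
        = w x - w y := by
      simp only [ContinuousLinearEquiv.coe_refl, ContinuousLinearMap.coe_id', id_eq]
      abel
    rw [h1]
    simpa [dist_eq_norm] using hlip.dist_le_mul x y
  have hN : Subsingleton V ∨ (1 / 2 : NNReal) <
      ‖((ContinuousLinearEquiv.refl ℝ V).symm : V →L[ℝ] V)‖₊⁻¹ := by
    rcases subsingleton_or_nontrivial V with h | h
    · exact Or.inl h
    · right
      have h1 : ‖((ContinuousLinearEquiv.refl ℝ V).symm : V →L[ℝ] V)‖₊ = 1 := by
        have : ((ContinuousLinearEquiv.refl ℝ V).symm : V →L[ℝ] V) = ContinuousLinearMap.id ℝ V := rfl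
        rw [this]
        exact ContinuousLinearMap.nnnorm_id
      rw [h1, inv_one]
      rw [← NNReal.coe_lt_coe]
      norm_num
  let G : V ≃ₜ V := happ.toHomeomorph _ hN
  have hG : ∀ x, G x = x + w x := fun x => rfl
  have hGe : (G : V → V) = fun x => x + w x := funext hG
  have hGc : ContDiff ℝ ∞ G := by
    rw [hGe]
    exact contDiff_id.add hw
  have hfd : ∀ x, fderiv ℝ G x = 1 + fderiv ℝ w x := by
    intro x
    rw [hGe]
    exact ((hasFDerivAt_id x).add (hdiff x).hasFDerivAt).fderiv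
  have hdet : ∀ x, 0 < (fderiv ℝ G x).det := by
    intro x
    rw [hfd]
    apply det_pos_near
    rw [add_sub_cancel_left]
    exact lt_of_le_of_lt (hd x) (by norm_num)
  refine ⟨G, hG, hGc, ?_, hdet⟩
  have hequiv : ∀ x, ∃ B : V ≃L[ℝ] V, (B : V →L[ℝ] V) = fderiv ℝ G x := by
    intro x
    have h1 : IsUnit (LinearMap.det ((fderiv ℝ G x : V →L[ℝ] V) : V →ₗ[ℝ] V)) :=
      IsUnit.mk0 _ (hdet x).ne'
    refine ⟨(LinearMap.equivOfIsUnitDet h1).toContinuousLinearEquiv, ?_⟩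
    ext v
    simp
  choose B hB using hequiv
  refine G.contDiff_symm (f₀' := B) (fun x => ?_) hGc
  rw [hB]
  exact (hGc.differentiable (by simp) x).hasFDerivAt

end general

/-- The version on the model space. -/
theorem small_diffeo {n : ℕ} {g : E n → E n} (hg : ContDiff ℝ ∞ g) (hd : ∀ x, ‖fderiv ℝ g x - 1‖ ≤ 1 / 2) :
    ∃ h : E n ≃ₜ E n, (∀ x, h x = g x) ∧ PD n h.toOpenPartialHomeomorph := by
  have hw : ContDiff ℝ ∞ (fun x => g x - x) := hg.sub contDiff_id
  have hwd : ∀ x, ‖fderiv ℝ (fun x => g x - x) x‖ ≤ 1 / 2 := by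
    intro x
    have h1 : fderiv ℝ (fun x => g x - x) x = fderiv ℝ g x - 1 :=
      (((hg.differentiable (by simp)) x).hasFDerivAt.sub (hasFDerivAt_id x)).fderiv
    rw [h1]
    exact hd x
  obtain ⟨G, h1, h2, -, h4⟩ := small_homeo hw hwd
  refine ⟨G, fun x => by rw [h1]; abel, ?_⟩
  refine pd_model_of (f := G.toOpenPartialHomeomorph) ?_ ?_
  · exact h2.contDiffOn
  · intro x _
    exact h4 x

end Pool.Agent.CSM
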