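import Pool.Agent.CSM.CSD
import Pool.Agent.CSM.CTQ

/-!
CSM chunk C, module CST: diffeomorphisms of the solid torus: small perturbations of the identity, twists, products.
-/

open scoped Manifold ContDiff Topology
open Set

namespace Pool.Agent.CSM

variable {m : ℕ} [HasGroupoid (T m) (orG (m + 1))]

/-- Small periodic perturbations of the identity. -/
theorem small_T {w : ℝ × E m → ℝ × E m} (hw : ContDiff ℝ ∞ w) (hp : ∀ v, w (v + (1, 0)) = w v)
    (hd : ∀ v, ‖fderiv ℝ w v‖ ≤ 1 / 2) :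
    ∃ D : T m ≃ₜ T m, (∀ v, D (qT v) = qT (v + w v)) ∧ PD (m + 1) D.toOpenPartialHomeomorph := by
  obtain ⟨G, h1, h2, -, h4⟩ := small_homeo hw hd
  obtain ⟨D, hD, hD'⟩ := homeo_of_lift G.bijective h2 h4 (fun v => by
    rw [h1, h1, hp]
    abel)
  exact ⟨D, fun v => by rw [hD, h1], hD'⟩

/-- The same with support in a solid torus of radius `R`. -/
theorem exists_smallT {w : ℝ × E m → ℝ × E m} (hw : ContDiff ℝ ∞ w) (hp : ∀ θ x, w (θ + 1, x) = w (θ, x))
    {R : ℝ} (h0 : ∀ θ x, R ≤ ‖x‖ → w (θ, x) = 0) (hd : ∀ v, ‖fderiv ℝ w v‖ ≤ 1 / 2) :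
    ∃ D : T m ≃ₜ T m, PD (m + 1) D.toOpenPartialHomeomorph ∧
      (∀ θ x, D (mkT θ x) = mkT (θ + (w (θ, x)).1) (x + (w (θ, x)).2)) ∧
      ∀ p : T m, R ≤ ‖p.2‖ → D p = p := by
  obtain ⟨D, h1, h2⟩ := small_T hw (fun v => by
    have h3 := hp v.1 v.2
    have h4 : v + (1, 0) = (v.1 + 1, v.2) := by ext <;> simp
    rw [h4]
    exact h3) hd
  refine ⟨D, h2, fun θ x => h1 (θ, x), fun p hpR => ?_⟩
  obtain ⟨v, rfl⟩ := qT_surj p
  have h3 : w v = 0 := h0 v.1 v.2 hpR
  rw [h1, h3, add_zero]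

omit [HasGroupoid (T m) (orG (m + 1))] in
theorem fderiv_prod_lower {G : ℝ × E m → E m} {v : ℝ × E m} (hG : DifferentiableAt ℝ G v)
    {B : E m →L[ℝ] E m} (hB : HasFDerivAt (fun x => G (v.1, x)) B v.2) :
    (fderiv ℝ (fun u : ℝ × E m => (u.1, G u)) v).det = B.det := by
  have h1 : HasFDerivAt (fun u : ℝ × E m => (u.1, G u))
      ((ContinuousLinearMap.fst ℝ ℝ (E m)).prod (fderiv ℝ G v)) v :=
    hasFDerivAt_fst.prodMk hG.hasFDerivAt
  rw [h1.fderiv, det_lower]
  · congr 1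
    refine ContinuousLinearMap.ext fun x => ?_
    rw [blk_apply]
    show fderiv ℝ G v (0, x) = B x
    have h2 : HasFDerivAt (fun x : E m => ((v.1, x) : ℝ × E m)) (ContinuousLinearMap.inr ℝ ℝ (E m)) v.2 :=
      hasFDerivAt_prodMk_right v.1 v.2
    have h3 : HasFDerivAt (fun x => G (v.1, x)) ((fderiv ℝ G v).comp (ContinuousLinearMap.inr ℝ ℝ (E m))) v.2 :=
      HasFDerivAt.comp (g := G) v.2 hG.hasFDerivAt h2
    rw [hB.unique h3]
    rfl
  · intro x
    rfl
  · rfl

omit [HasGroupoid (T m) (orG (m + 1))] in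
theorem twist_qT (τ : Twist m) (v : ℝ × E m) : τ.map (qT v) = qT (v.1, τ.O v.1 v.2) := rfl

/-- Twists are diffeomorphisms of the solid torus. -/
theorem twist_homeo (τ : Twist m) :
    ∃ D : T m ≃ₜ T m, (∀ p, D p = τ.map p) ∧ PD (m + 1) D.toOpenPartialHomeomorph := by
  have hc : ContDiff ℝ ∞ (fun v : ℝ × E m => τ.O v.1 v.2) :=
    (τ.smooth.comp contDiff_fst).clm_apply contDiff_snd
  have hinj : ∀ t, Function.Injective (τ.O t) := by
    intro t
    rw [injective_iff_map_eq_zero]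
    intro x hx
    have := τ.isom t x
    rw [hx, norm_zero] at this
    exact norm_eq_zero.1 this.symm
  have hsurj : ∀ t, Function.Surjective (τ.O t) := fun t =>
    LinearMap.surjective_of_injective (f := (τ.O t : E m →ₗ[ℝ] E m)) (hinj t)
  have hb : Function.Bijective (fun v : ℝ × E m => (v.1, τ.O v.1 v.2)) := by
    constructor
    · rintro ⟨a, x⟩ ⟨b, y⟩ h
      have h1 : a = b := congrArg Prod.fst h
      subst h1
      have h2 : τ.O a x = τ.O a y := congrArg Prod.snd h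
      rw [hinj a h2]
    · rintro ⟨a, y⟩
      obtain ⟨x, hx⟩ := hsurj a y
      exact ⟨(a, x), Prod.ext rfl hx⟩
  have hdet : ∀ v : ℝ × E m, 0 < (fderiv ℝ (fun v : ℝ × E m => (v.1, τ.O v.1 v.2)) v).det := by
    intro v
    rw [fderiv_prod_lower (hc.differentiable (by simp) v) (B := τ.O v.1) (τ.O v.1).hasFDerivAt]
    exact τ.pos v.1
  have hper : ∀ v : ℝ × E m, (fun v : ℝ × E m => (v.1, τ.O v.1 v.2)) (v + (1, 0))
      = (fun v : ℝ × E m => (v.1, τ.O v.1 v.2)) v + (1, 0) := by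
    intro v
    refine Prod.ext (by simp) ?_
    show τ.O (v + (1, 0)).1 (v + (1, 0)).2 = (((v.1, τ.O v.1 v.2) : ℝ × E m) + (1, 0)).2
    simp [τ.per]
  obtain ⟨D, h1, h2⟩ := homeo_of_lift hb (contDiff_fst.prodMk hc) hdet hper
  refine ⟨D, fun p => ?_, h2⟩
  obtain ⟨v, rfl⟩ := qT_surj p
  rw [h1, twist_qT]

/-- The product of the identity of the circle and a map. -/
def mapT (f : E m → E m) (p : T m) : T m := Prod.mk (α := AddCircle (1 : ℝ)) (β := E m) p.1 (f p.2)

omit [HasGroupoid (T m) (orG (m + 1))] in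
theorem mapT_qT (f : E m → E m) (v : ℝ × E m) : mapT f (qT v) = qT (v.1, f v.2) := rfl

/-- The product of the identity of the circle and a diffeomorphism of `E m` onto an open set. -/
theorem prod_T {s : OPH (E m) (E m)} (hs : PD m s) (hu : s.source = univ) :
    ∃ R : OPH (T m) (T m), PD (m + 1) R ∧ R.source = univ ∧ R.target = {p | p.2 ∈ s.target} ∧
      ∀ (θ : ℝ) (x : E m), R (mkT θ x) = mkT θ (s x) := by
  obtain ⟨⟨a1, a2⟩, -⟩ := mem_orG.1 (pd_model.1 hs)
  rw [hu] at a1 a2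
  have hsc : ContDiff ℝ ∞ s := contDiffOn_univ.1 a1
  have hc : ContDiff ℝ ∞ (fun v : ℝ × E m => s v.2) := hsc.comp contDiff_snd
  have hne : Nonempty (T m) := ⟨qT 0⟩
  have hinj : InjOn (mapT s) univ := by
    rintro p - p' - h
    have h1 : p.1 = p'.1 := by
      have := congrArg (fun q : T m => q.1) h
      exact this
    have h2 : s p.2 = s p'.2 := by
      have := congrArg (fun q : T m => q.2) h
      exact this
    have h3 : p.2 = p'.2 := s.injOn (by rw [hu]; trivial) (by rw [hu]; trivial) h2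
    exact Prod.ext h1 h3
  have hpd : ∀ p ∈ (univ : Set (T m)), PDAt (m + 1) (mapT s) p := by
    intro p _
    obtain ⟨v, rfl⟩ := qT_surj p
    refine pdAt_of_lift (g := fun v : ℝ × E m => (v.1, s v.2)) (contDiff_fst.prodMk hc).contDiffAt ?_
      (Filter.Eventually.of_forall fun u => mapT_qT s u)
    rw [fderiv_prod_lower (G := fun v : ℝ × E m => s v.2) (hc.differentiable (by simp) v)
      (B := fderiv ℝ s v.2) (hsc.differentiable (by simp) v.2).hasFDerivAt]
    exact a2 _ trivial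
  obtain ⟨R, h1, h2, h3, h4⟩ := exists_oph isOpen_univ hinj hpd
  refine ⟨R, h1, h2, ?_, fun θ x => by rw [h4]; rfl⟩
  rw [h3]
  ext p
  constructor
  · rintro ⟨q, -, rfl⟩
    exact s.map_source (by rw [hu]; trivial)
  · intro hp
    refine ⟨mapT s.symm p, trivial, ?_⟩
    exact Prod.ext rfl (s.right_inv hp)

end Pool.Agent.CSM
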