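import Pool.Agent.CSM.CRD
import Pool.Agent.CSM.CST

/-!
(C4) Shrinking tubes.
-/

open scoped Manifold ContDiff Topology
open Set

namespace Pool.Agent.CSM

/-- An open set which contains the core contains a uniform neighbourhood of the core. -/
theorem core_nhd {m : ℕ} {U : Set (T m)} (hU : IsOpen U) (h : ∀ θ : ℝ, mkT θ 0 ∈ U) :
    ∃ δ > 0, ∀ (θ : ℝ) (x : E m), ‖x‖ < δ → mkT θ x ∈ U := by
  have : Fact ((0 : ℝ) < 1) := ⟨one_pos⟩
  have h1 : (univ : Set (AddCircle (1 : ℝ))) ×ˢ ({0} : Set (E m)) ⊆ (U : Set (AddCircle (1 : ℝ) × E m)) := by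
    rintro ⟨z, x⟩ ⟨-, hx⟩
    have hx' : x = 0 := hx
    subst hx'
    obtain ⟨θ, rfl⟩ := QuotientAddGroup.mk_surjective z
    exact h θ
  obtain ⟨u, v, -, hv, hu1, hv1, huv⟩ := generalized_tube_lemma isCompact_univ isCompact_singleton
    (hU : IsOpen (U : Set (AddCircle (1 : ℝ) × E m))) h1
  obtain ⟨δ, hδ, hb⟩ := Metric.isOpen_iff.1 hv 0 (hv1 rfl)
  refine ⟨δ, hδ, fun θ x hx => huv (a := ((θ : AddCircle (1 : ℝ)), x)) ⟨hu1 trivial, hb (mem_ball_zero_iff.2 hx)⟩⟩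

section

variable {m : ℕ} {X : Type*} [TopologicalSpace X] [ChartedSpace (E (m + 1)) X]

/-- (C4) Shrinking a tube. -/
theorem tube_shrink' [HasGroupoid (T m) (orG (m + 1))] {e : OPH (T m) X} (he : PD (m + 1) e)
    (hs : ∀ θ : ℝ, mkT θ 0 ∈ e.source) {O : Set X} (hO : IsOpen O) (hc : ∀ θ : ℝ, e (mkT θ 0) ∈ O) :
    ∃ e' : OPH (T m) X, PD (m + 1) e' ∧ e'.source = univ ∧ e'.target ⊆ O ∧ e'.target ⊆ e.target ∧
      ∃ δ > 0, ∀ (θ : ℝ) (x : E m), ‖x‖ < δ → e' (mkT θ x) = e (mkT θ x) := by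
  have hU : IsOpen (e.source ∩ e ⁻¹' O) := e.isOpen_inter_preimage hO
  obtain ⟨δ, hδ, hb⟩ := core_nhd hU fun θ => ⟨hs θ, hc θ⟩
  obtain ⟨s, s1, s2, s3, s4, -⟩ := exists_radial m hδ
  obtain ⟨R, R1, R2, R3, R4⟩ := prod_T s1 s2
  have hR : ∀ p : T m, R p ∈ e.source ∩ e ⁻¹' O := by
    intro p
    have h1 : R p ∈ R.target := R.map_source (by rw [R2]; trivial)
    rw [R3] at h1
    obtain ⟨v, hv⟩ := qT_surj (R p)
    rw [← hv]
    have h2 : v.2 ∈ s.target := by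
      have : (R p).2 ∈ s.target := h1
      rw [← hv] at this
      exact this
    rw [s3, mem_ball_zero_iff] at h2
    exact hb v.1 v.2 h2
  refine ⟨R.trans e, R1.trans he, ?_, ?_, ?_, δ / 2, half_pos hδ, fun θ x hx => ?_⟩
  · rw [eq_univ_iff_forall]
    intro p
    rw [OpenPartialHomeomorph.trans_source]
    exact ⟨by rw [R2]; trivial, (hR p).1⟩
  · intro y hy
    have h3 := (R.trans e).right_inv hy
    rw [← h3]
    exact (hR _).2
  · intro y hy
    have h3 := (R.trans e).right_inv hy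
    rw [← h3]
    exact e.map_source (hR _).1
  · show e (R (mkT θ x)) = e (mkT θ x)
    rw [R4, s4 x hx.le]

end

end Pool.Agent.CSM
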