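import Pool.Agent.CSM.CLF
import Pool.Agent.CSM.CCU

/-!
Small diffeomorphisms supported near the core of the solid torus.
-/

open scoped Manifold ContDiff Topology
open Set

namespace Pool.Agent.CSM

variable {m : ℕ}

/-- Uniform smallness near the core. -/
theorem core_unif_small {W : ℝ × E m → ℝ × E m} {r : ℝ} (hr : 0 < r) (hW : ∀ v, ‖v.2‖ < r → ContDiffAt ℝ ∞ W v)
    (hp : ∀ v (k : ℤ), W (v + ((k : ℝ), 0)) = W v) (h0 : ∀ θ, W (θ, 0) = 0) {η : ℝ}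
    (h1 : ∀ θ, ‖fderiv ℝ W (θ, 0)‖ < η) {ρ : ℝ} (hρ : 0 < ρ) :
    ∃ ε, 0 < ε ∧ ε ≤ ρ ∧ 2 * ε ≤ r ∧ (∀ v, ‖v.2‖ ≤ ε → ‖fderiv ℝ W v‖ ≤ η) ∧
      ∀ v, ‖v.2‖ ≤ ε → ‖W v‖ ≤ η * ε := by
  have hη : 0 < η := (norm_nonneg _).trans_lt (h1 0)
  have hopen : IsOpen {v : ℝ × E m | ‖v.2‖ < r} := isOpen_lt (by fun_prop) continuous_const
  have hcont : ContinuousOn (fun v => ‖fderiv ℝ W v‖) {v : ℝ × E m | ‖v.2‖ < r} := fun v hv =>
    ((hW v hv).continuousAt_fderiv (by simp)).norm.continuousWithinAt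
  have hn : IsOpen ({v : ℝ × E m | ‖v.2‖ < r} ∩ (fun v => ‖fderiv ℝ W v‖) ⁻¹' Iio η) :=
    hcont.isOpen_inter_preimage hopen isOpen_Iio
  have hsub : Icc (0 : ℝ) 1 ×ˢ ({0} : Set (E m)) ⊆
      {v : ℝ × E m | ‖v.2‖ < r} ∩ (fun v => ‖fderiv ℝ W v‖) ⁻¹' Iio η := by
    rintro ⟨θ, x⟩ ⟨-, hx⟩
    have hx' : x = 0 := hx
    subst hx'
    exact ⟨by simpa using hr, h1 θ⟩
  obtain ⟨U, V, -, hV, hU1, hV1, hUV⟩ := generalized_tube_lemma isCompact_Icc isCompact_singleton hn hsub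
  obtain ⟨δ, hδ, hb⟩ := Metric.isOpen_iff.1 hV 0 (hV1 rfl)
  set ε : ℝ := min ρ (min (δ / 2) (r / 4)) with hε
  have hεp : 0 < ε := by positivity
  have hε1 : ε ≤ ρ := min_le_left _ _
  have hε2 : ε ≤ δ / 2 := (min_le_right _ _).trans (min_le_left _ _)
  have hε3 : ε ≤ r / 4 := (min_le_right _ _).trans (min_le_right _ _)
  have hbd : ∀ v : ℝ × E m, ‖v.2‖ ≤ ε → ‖fderiv ℝ W v‖ ≤ η := by
    intro v hv
    have h2 : v = (Int.fract v.1, v.2) + (((⌊v.1⌋ : ℤ) : ℝ), (0 : E m)) := by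
      refine Prod.ext ?_ ?_
      · show v.1 = Int.fract v.1 + (⌊v.1⌋ : ℝ)
        exact (Int.fract_add_floor v.1).symm
      · show v.2 = v.2 + 0
        rw [add_zero]
    have h3 : fderiv ℝ W v = fderiv ℝ W (Int.fract v.1, v.2) := by
      conv_lhs => rw [h2]
      rw [← fderiv_comp_add_right]
      congr 1
      funext u
      exact hp u _
    rw [h3]
    have h4 : ((Int.fract v.1, v.2) : ℝ × E m) ∈ U ×ˢ V :=
      ⟨hU1 ⟨Int.fract_nonneg _, (Int.fract_lt_one _).le⟩, hb (mem_ball_zero_iff.2 (by linarith))⟩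
    exact (le_of_lt (hUV h4).2)
  refine ⟨ε, hεp, hε1, by linarith, hbd, fun v hv => ?_⟩
  have hconv : Convex ℝ {v : ℝ × E m | ‖v.2‖ ≤ ε} := by
    have h5 := (convex_closedBall (0 : E m) ε).linear_preimage (LinearMap.snd ℝ ℝ (E m))
    have h6 : (⇑(LinearMap.snd ℝ ℝ (E m)) ⁻¹' Metric.closedBall (0 : E m) ε) = {v : ℝ × E m | ‖v.2‖ ≤ ε} := by
      ext u
      simp
    rwa [h6] at h5
  have h7 := hconv.norm_image_sub_le_of_norm_fderiv_le (𝕜 := ℝ) (f := W) (C := η)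
    (x := (v.1, 0)) (y := v) (fun u hu => (hW u (by
      have : ‖u.2‖ ≤ ε := hu
      linarith)).differentiableAt (by simp)) (fun u hu => hbd u hu)
    (show ‖(0 : E m)‖ ≤ ε by rw [norm_zero]; exact hεp.le) hv
  rw [h0, sub_zero] at h7
  have h8 : ‖v - (v.1, 0)‖ = ‖v.2‖ := by
    have : v - (v.1, 0) = (0, v.2) := by
      refine Prod.ext ?_ ?_
      · show v.1 - v.1 = 0
        ring
      · show v.2 - 0 = v.2
        rw [sub_zero]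
    rw [this, Prod.norm_def]
    simp
  rw [h8] at h7
  exact h7.trans (mul_le_mul_of_nonneg_left hv hη.le)

variable [HasGroupoid (T m) (orG (m + 1))]

/-- A small map near the core, cut off. -/
theorem core_small {W : ℝ × E m → ℝ × E m} {r : ℝ} (hr : 0 < r) (hW : ∀ v, ‖v.2‖ < r → ContDiffAt ℝ ∞ W v)
    (hp : ∀ v (k : ℤ), W (v + ((k : ℝ), 0)) = W v) (h0 : ∀ θ, W (θ, 0) = 0) {η : ℝ}
    (h1 : ∀ θ, ‖fderiv ℝ W (θ, 0)‖ < η) (hη2 : (1 + bC m) * η ≤ 1 / 2) {ρ : ℝ} (hρ : 0 < ρ) :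
    ∃ ε, 0 < ε ∧ ε ≤ ρ ∧ ∃ D : T m ≃ₜ T m, PD (m + 1) D.toOpenPartialHomeomorph ∧
      (∀ p : T m, ε ≤ ‖p.2‖ → D p = p) ∧ ∀ v : ℝ × E m, ‖v.2‖ ≤ ε / 2 → D (qT v) = qT (v + W v) := by
  obtain ⟨ε, hε, hερ, hεr, e1, e2⟩ := core_unif_small hr hW hp h0 h1 hρ
  have hη : 0 < η := (norm_nonneg _).trans_lt (h1 0)
  have hπ : ‖(ContinuousLinearMap.snd ℝ ℝ (E m))‖ ≤ 1 := ContinuousLinearMap.norm_snd_le _ _ _
  obtain ⟨c1, c2⟩ := cutoff (W := W) hπ hε hη.le (fun v hv => hW v (lt_of_lt_of_le hv hεr)) e2 e1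
  obtain ⟨D, D1, D2⟩ := small_T c1 (fun v => by
    have h2 : (v + ((1 : ℝ), (0 : E m))) = v + (((1 : ℤ) : ℝ), 0) := by simp
    have h3 : W (v + ((1 : ℝ), (0 : E m))) = W v := by rw [h2, hp]
    show bmp m (ε⁻¹ • (v.2 + 0)) • W (v + ((1 : ℝ), (0 : E m))) = bmp m (ε⁻¹ • v.2) • W v
    rw [h3, add_zero]) (fun v => (c2 v).trans hη2)
  refine ⟨ε, hε, hερ, D, D2, fun p hp' => ?_, fun v hv => ?_⟩
  · obtain ⟨v, rfl⟩ := qT_surj p
    rw [D1]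
    have h4 : bmp m (ε⁻¹ • (ContinuousLinearMap.snd ℝ ℝ (E m)) v) • W v = 0 :=
      cut_eq_zero (π := ContinuousLinearMap.snd ℝ ℝ (E m)) hε hp'
    rw [h4, add_zero]
  · rw [D1]
    have h4 : bmp m (ε⁻¹ • (ContinuousLinearMap.snd ℝ ℝ (E m)) v) • W v = W v :=
      cut_eq_self (π := ContinuousLinearMap.snd ℝ ℝ (E m)) hε hv
    rw [h4]

end Pool.Agent.CSM
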