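import Pool.Agent.CSM.Core2

/-!
Calculus of replacements (`Repl`): uniqueness, naturality, dependence on the germ only, disjoint replacements commute.
-/

open scoped Manifold ContDiff Topology
open Set

namespace Pool.Agent.CSM

/-- `Repl` with the new piece `d` made explicit. -/
structure ReplD (n : ℕ) {Q Q' : Type} [TopologicalSpace Q] [ChartedSpace (E n) Q] [TopologicalSpace Q']
    [ChartedSpace (E n) Q'] (μ : Mod n Q Q') {X X' : Type*} [TopologicalSpace X] [ChartedSpace (E n) X]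
    [TopologicalSpace X'] [ChartedSpace (E n) X'] (e : OPH Q X) (φ : OPH X X') (d : OPH Q' X') : Prop where
  pde : PD n e
  se : e.source = μ.κ.source ∪ μ.C
  pdφ : PD n φ
  sφ : φ.source = (e '' μ.C)ᶜ
  pdd : PD n d
  sd : d.source = μ.κ.target ∪ μ.C'
  tφ : φ.target = (d '' μ.C')ᶜ
  glue : ∀ q ∈ μ.κ.source, φ (e q) = d (μ.κ q)

section

variable {n : ℕ} {Q Q' : Type} [TopologicalSpace Q] [ChartedSpace (E n) Q] [TopologicalSpace Q']
  [ChartedSpace (E n) Q'] {μ : Mod n Q Q'}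
  {X X₁ X₂ Y : Type*} [TopologicalSpace X] [TopologicalSpace X₁] [TopologicalSpace X₂] [TopologicalSpace Y]
  [ChartedSpace (E n) X] [ChartedSpace (E n) X₁] [ChartedSpace (E n) X₂] [ChartedSpace (E n) Y]

theorem Repl.exd {e : OPH Q X} {φ : OPH X X₁} (h : Repl n μ e φ) : ∃ d, ReplD n μ e φ d := by
  obtain ⟨d, h1, h2, h3, h4⟩ := h.ex
  exact ⟨d, h.pde, h.se, h.pdφ, h.sφ, h1, h2, h3, h4⟩

theorem ReplD.repl {e : OPH Q X} {φ : OPH X X₁} {d : OPH Q' X₁} (h : ReplD n μ e φ d) : Repl n μ e φ :=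
  ⟨h.pde, h.se, h.pdφ, h.sφ, d, h.pdd, h.sd, h.tφ, h.glue⟩

namespace ReplD

variable {e : OPH Q X} {φ : OPH X X₁} {d : OPH Q' X₁}

theorem ms (h : ReplD n μ e φ d) {q : Q} (hq : q ∈ μ.κ.source) : q ∈ e.source := by
  rw [h.se]; exact Or.inl hq

theorem mC (h : ReplD n μ e φ d) {q : Q} (hq : q ∈ μ.C) : q ∈ e.source := by
  rw [h.se]; exact Or.inr hq

theorem mt (h : ReplD n μ e φ d) {q : Q'} (hq : q ∈ μ.κ.target) : q ∈ d.source := by
  rw [h.sd]; exact Or.inl hq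

theorem mC' (h : ReplD n μ e φ d) {q : Q'} (hq : q ∈ μ.C') : q ∈ d.source := by
  rw [h.sd]; exact Or.inr hq

/-- Points of the punctured piece lie in the domain of `φ`. -/
theorem mφ (h : ReplD n μ e φ d) {q : Q} (hq : q ∈ μ.κ.source) : e q ∈ φ.source := by
  rw [h.sφ]
  rintro ⟨q', hq', he⟩
  have := e.injOn (h.mC hq') (h.ms hq) he
  subst this
  exact (disjoint_left.1 μ.disj hq) hq'

theorem cover (h : ReplD n μ e φ d) : φ.target ∪ d.target = univ := by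
  rw [h.tφ, eq_univ_iff_forall]
  intro y
  by_cases hy : y ∈ d '' μ.C'
  · right
    obtain ⟨q, hq, rfl⟩ := hy
    exact d.map_source (h.mC' hq)
  · exact Or.inl hy

/-- A common point of the two pieces of the result. -/
theorem key (h : ReplD n μ e φ d) {x : X} (hx : x ∈ φ.source) {q' : Q'} (hq' : q' ∈ d.source)
    (hxq : φ x = d q') : ∃ q ∈ μ.κ.source, x = e q ∧ q' = μ.κ q := by
  have hq'' : q' ∉ μ.C' := by
    intro hc
    have : φ x ∈ φ.target := φ.map_source hx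
    rw [h.tφ] at this
    exact this ⟨q', hc, hxq.symm⟩
  rw [h.sd] at hq'
  have hq3 : q' ∈ μ.κ.target := hq'.resolve_right hq''
  refine ⟨μ.κ.symm q', μ.κ.map_target hq3, ?_, (μ.κ.right_inv hq3).symm⟩
  have h4 : φ (e (μ.κ.symm q')) = φ x := by
    rw [h.glue _ (μ.κ.map_target hq3), μ.κ.right_inv hq3, hxq]
  exact (φ.injOn (h.mφ (μ.κ.map_target hq3)) hx h4).symm

end ReplD

/-- Gluing two isomorphisms of the pieces: general lemma. `f : OPH X₁ X₂` and `g : OPH X₁ X₂` cover everything. -/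
theorem exists_homeo_of_glue {f g : OPH X₁ X₂} (hf : PD n f) (hg : PD n g)
    (h : ∀ x ∈ f.source, x ∈ g.source → f x = g x) (hinj : ∀ x ∈ f.source, ∀ y ∈ g.source, f x = g y → x = y)
    (hs : f.source ∪ g.source = univ) (ht : f.target ∪ g.target = univ) :
    ∃ D : X₁ ≃ₜ X₂, PD n D.toOpenPartialHomeomorph ∧ (∀ x ∈ f.source, D x = f x) ∧ ∀ x ∈ g.source, D x = g x := by
  obtain ⟨k, ks, kt, kf, kg, -, -⟩ := exists_glue f g h hinj
  obtain ⟨D, hD, hDp⟩ := exists_homeo k (by rw [ks, hs]) (by rw [kt, ht])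
  exact ⟨D, hDp (pd_glue hf hg ks.subset kf kg), fun x hx => by rw [hD, kf x hx],
    fun x hx => by rw [hD, kg x hx]⟩

/-- Uniqueness of the result. -/
theorem Repl.unique [HasGroupoid X (orG n)] [HasGroupoid Q' (orG n)] {e : OPH Q X} {φ₁ : OPH X X₁}
    {φ₂ : OPH X X₂} (h₁ : Repl n μ e φ₁) (h₂ : Repl n μ e φ₂) :
    ∃ h : X₁ ≃ₜ X₂, PD n h.toOpenPartialHomeomorph ∧ ∀ x ∈ φ₁.source, h (φ₁ x) = φ₂ x := by
  obtain ⟨d₁, k₁⟩ := h₁.exd
  obtain ⟨d₂, k₂⟩ := h₂.exd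
  have hss : φ₁.source = φ₂.source := by rw [k₁.sφ, k₂.sφ]
  have hdd : d₁.source = d₂.source := by rw [k₁.sd, k₂.sd]
  have fsrc : (φ₁.symm.trans φ₂).source = φ₁.target := by
    rw [OpenPartialHomeomorph.trans_source, OpenPartialHomeomorph.symm_source, inter_eq_left]
    intro y hy
    show φ₁.symm y ∈ φ₂.source
    rw [← hss]; exact φ₁.map_target hy
  have gsrc : (d₁.symm.trans d₂).source = d₁.target := by
    rw [OpenPartialHomeomorph.trans_source, OpenPartialHomeomorph.symm_source, inter_eq_left]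
    intro y hy
    show d₁.symm y ∈ d₂.source
    rw [← hdd]; exact d₁.map_target hy
  have ftgt : (φ₁.symm.trans φ₂).target = φ₂.target := by
    rw [OpenPartialHomeomorph.trans_target, inter_eq_left]
    intro y hy
    show φ₂.symm y ∈ φ₁.symm.target
    rw [OpenPartialHomeomorph.symm_target, hss]; exact φ₂.map_target hy
  have gtgt : (d₁.symm.trans d₂).target = d₂.target := by
    rw [OpenPartialHomeomorph.trans_target, inter_eq_left]
    intro y hy
    show d₂.symm y ∈ d₁.symm.target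
    rw [OpenPartialHomeomorph.symm_target, hdd]; exact d₂.map_target hy
  obtain ⟨D, hDp, hDf, -⟩ := exists_homeo_of_glue (k₁.pdφ.symm.trans k₂.pdφ) (k₁.pdd.symm.trans k₂.pdd)
    (by
      intro y hy hy'
      rw [fsrc] at hy
      rw [gsrc] at hy'
      obtain ⟨q, hq, e1, e2⟩ := k₁.key (φ₁.map_target hy) (d₁.map_target hy')
        (by rw [φ₁.right_inv hy, d₁.right_inv hy'])
      show φ₂ (φ₁.symm y) = d₂ (d₁.symm y)
      rw [e1, e2, k₂.glue q hq])
    (by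
      intro y hy z hz hyz
      rw [fsrc] at hy
      rw [gsrc] at hz
      have hyz' : φ₂ (φ₁.symm y) = d₂ (d₁.symm z) := hyz
      obtain ⟨q, hq, e1, e2⟩ := k₂.key (hss ▸ φ₁.map_target hy : φ₁.symm y ∈ φ₂.source)
        (hdd ▸ d₁.map_target hz : d₁.symm z ∈ d₂.source) hyz'
      have : φ₁ (e q) = d₁ (μ.κ q) := k₁.glue q hq
      rw [← e1, ← e2, φ₁.right_inv hy, d₁.right_inv hz] at this
      exact this)
    (by rw [fsrc, gsrc, k₁.cover]) (by rw [ftgt, gtgt, k₂.cover])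
  refine ⟨D, hDp, fun x hx => ?_⟩
  rw [hDf _ (by rw [fsrc]; exact φ₁.map_source hx)]
  show φ₂ (φ₁.symm (φ₁ x)) = φ₂ x
  rw [φ₁.left_inv hx]

/-- Naturality. -/
theorem Repl.map [HasGroupoid X (orG n)] {e : OPH Q X} {φ : OPH X X₁} (h : Repl n μ e φ) (D : X ≃ₜ Y)
    (hD : PD n D.toOpenPartialHomeomorph) :
    Repl n μ (e.trans D.toOpenPartialHomeomorph) (D.symm.toOpenPartialHomeomorph.trans φ) := by
  obtain ⟨d, k⟩ := h.exd
  refine (ReplD.mk (d := d) (k.pde.trans hD) ?_ (hD.symm.trans k.pdφ) ?_ k.pdd k.sd ?_ ?_).repl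
  · rw [OpenPartialHomeomorph.trans_source]
    simp [k.se]
  · rw [OpenPartialHomeomorph.trans_source, k.sφ]
    ext y
    constructor
    · rintro ⟨-, h1⟩ ⟨q, hq, rfl⟩
      exact h1 ⟨q, hq, (D.symm_apply_apply _).symm⟩
    · intro h1
      refine ⟨trivial, ?_⟩
      rintro ⟨q, hq, he⟩
      refine h1 ⟨q, hq, ?_⟩
      have he' : e q = D.symm y := he
      show D (e q) = y
      rw [he']; simp
  · rw [OpenPartialHomeomorph.trans_target]
    simp [k.tφ]
  · intro q hq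
    simp [k.glue q hq]

/-- Only the germ of `e` along the core matters. -/
theorem Repl.germ [T2Space Q'] [HasGroupoid X (orG n)] [HasGroupoid Q (orG n)] {e₁ e₂ : OPH Q X} {φ : OPH X X₁}
    (h : Repl n μ e₁ φ) (pd₂ : PD n e₂) (s₂ : e₂.source = μ.κ.source ∪ μ.C) {W : Set Q} (hW : IsOpen W)
    (hCW : μ.C ⊆ W) (he : ∀ q ∈ W, q ∈ μ.κ.source ∪ μ.C → e₂ q = e₁ q) : Repl n μ e₂ φ := by
  obtain ⟨d, k⟩ := h.exd
  have hC : e₂ '' μ.C = e₁ '' μ.C := image_congr fun q hq => he q (hCW hq) (Or.inr hq)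
  have m₂ : ∀ q ∈ μ.κ.source, e₂ q ∈ φ.source := by
    intro q hq
    rw [k.sφ, ← hC]
    rintro ⟨p, hp, hpe⟩
    have := e₂.injOn (by rw [s₂]; exact Or.inr hp) (by rw [s₂]; exact Or.inl hq) hpe
    subst this
    exact (disjoint_left.1 μ.disj hq) hp
  obtain ⟨K, hK, hKs, N', hN', hCN', hN's, hNK⟩ := μ.prop
  -- the neighbourhood of the new core which only sees `W`
  have hKW : IsCompact (K \ W) := hK.diff hW
  have hKWs : K \ W ⊆ μ.κ.source := fun q hq => (hKs hq.1).resolve_right fun hc => hq.2 (hCW hc)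
  have hcl : IsClosed (μ.κ '' (K \ W)) :=
    (hKW.image_of_continuousOn (μ.κ.continuousOn.mono hKWs)).isClosed
  set N'' : Set Q' := N' \ μ.κ '' (K \ W) with hN''
  have oN : IsOpen N'' := hN'.sdiff hcl
  have cN : μ.C' ⊆ N'' := by
    intro q hq
    refine ⟨hCN' hq, ?_⟩
    rintro ⟨p, hp, rfl⟩
    exact (disjoint_left.1 μ.disj' (μ.κ.map_source (hKWs hp))) hq
  have wN : ∀ q ∈ N'', q ∈ μ.κ.target → μ.κ.symm q ∈ W := by
    intro q hq hqt
    by_contra hw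
    have h1 : q ∉ μ.C' := disjoint_left.1 μ.disj' hqt
    have h2 : μ.κ.symm q ∈ K := hNK ⟨q, ⟨hq.1, h1⟩, rfl⟩
    exact hq.2 ⟨_, ⟨h2, hw⟩, μ.κ.right_inv hqt⟩
  -- the two pieces of the new `d`
  set f : OPH Q' X₁ := μ.κ.symm.trans (e₂.trans φ) with hf
  set g : OPH Q' X₁ := d.restrOpen N'' oN with hg
  have fs : ∀ q, q ∈ f.source ↔ q ∈ μ.κ.target := by
    intro q
    rw [hf, OpenPartialHomeomorph.trans_source, OpenPartialHomeomorph.trans_source]
    constructor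
    · exact fun hq => hq.1
    · intro hq
      have hq' : μ.κ.symm q ∈ μ.κ.source := μ.κ.map_target hq
      exact ⟨hq, by rw [s₂]; exact Or.inl hq', m₂ _ hq'⟩
  have fa : ∀ q, f q = φ (e₂ (μ.κ.symm q)) := fun q => rfl
  have gs : ∀ q, q ∈ g.source ↔ q ∈ N'' := by
    intro q
    rw [hg, OpenPartialHomeomorph.restrOpen_source, k.sd]
    exact ⟨fun h => h.2, fun h => ⟨hN's h.1, h⟩⟩
  have ga : ∀ q, g q = d q := fun q => rfl
  have agree : ∀ q ∈ N'', q ∈ μ.κ.target → φ (e₂ (μ.κ.symm q)) = d q := by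
    intro q hq hqt
    rw [he _ (wN q hq hqt) (Or.inl (μ.κ.map_target hqt)), k.glue _ (μ.κ.map_target hqt), μ.κ.right_inv hqt]
  obtain ⟨d₂, ds, dt, df, dg, -, -⟩ := exists_glue f g
    (fun q hq hq' => by rw [fa, ga]; exact agree q ((gs q).1 hq') ((fs q).1 hq))
    (fun q hq p hp hqp => by
      rw [fa, ga] at hqp
      have hq' := (fs q).1 hq
      have hp' := (gs p).1 hp
      have hps : p ∈ d.source := by rw [k.sd]; exact hN's hp'.1
      obtain ⟨r, hr, e1, e2⟩ := k.key (m₂ _ (μ.κ.map_target hq')) hps hqp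
      have hpt : p ∈ μ.κ.target := by rw [e2]; exact μ.κ.map_source hr
      have h5 := agree p hp' hpt
      rw [← hqp] at h5
      have h6 := φ.injOn (m₂ _ (μ.κ.map_target hpt)) (m₂ _ (μ.κ.map_target hq')) h5
      have h7 := e₂.injOn (by rw [s₂]; exact Or.inl (μ.κ.map_target hpt))
        (by rw [s₂]; exact Or.inl (μ.κ.map_target hq')) h6
      have h8 := congrArg μ.κ h7
      rw [μ.κ.right_inv hpt, μ.κ.right_inv hq'] at h8
      exact h8.symm)
  have fpd : PD n f := μ.pd.symm.trans (pd₂.trans k.pdφ)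
  have gpd : PD n g := k.pdd.restrOpen _ _
  have dC : ∀ q ∈ μ.C', d₂ q = d q := fun q hq => by rw [dg q ((gs q).2 (cN hq)), ga]
  refine (ReplD.mk (d := d₂) pd₂ s₂ k.pdφ ?_ (pd_glue fpd gpd ds.subset df dg) ?_ ?_ ?_).repl
  · rw [k.sφ, hC]
  · rw [ds]
    ext q
    constructor
    · rintro (hq | hq)
      · exact Or.inl ((fs q).1 hq)
      · exact hN's ((gs q).1 hq).1
    · rintro (hq | hq)
      · exact Or.inl ((fs q).2 hq)
      · exact Or.inr ((gs q).2 (cN hq))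
  · rw [k.tφ, image_congr dC]
  · intro q hq
    rw [df _ ((fs _).2 (μ.κ.map_source hq)), fa, μ.κ.left_inv hq]

/-- Composition with an isomorphism of the result. -/
theorem Repl.mapR [HasGroupoid X₁ (orG n)] {e : OPH Q X} {φ : OPH X X₁} (h : Repl n μ e φ) (D : X₁ ≃ₜ Y)
    (hD : PD n D.toOpenPartialHomeomorph) : Repl n μ e (φ.trans D.toOpenPartialHomeomorph) := by
  obtain ⟨d, k⟩ := h.exd
  refine (ReplD.mk (d := d.trans D.toOpenPartialHomeomorph) k.pde k.se (k.pdφ.trans hD) ?_ (k.pdd.trans hD) ?_ ?_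
    ?_).repl
  · rw [OpenPartialHomeomorph.trans_source]
    simp [k.sφ]
  · rw [OpenPartialHomeomorph.trans_source]
    simp [k.sd]
  · rw [OpenPartialHomeomorph.trans_target, k.tφ]
    ext y
    constructor
    · rintro ⟨-, h1⟩ ⟨q, hq, rfl⟩
      exact h1 ⟨q, hq, (D.symm_apply_apply _).symm⟩
    · intro h1
      refine ⟨trivial, ?_⟩
      rintro ⟨q, hq, he⟩
      refine h1 ⟨q, hq, ?_⟩
      have he' : d q = D.symm y := he
      show D (d q) = y
      rw [he']; simp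
  · intro q hq
    simp [k.glue q hq]

end

/-- Replacements with disjoint supports commute. -/
theorem Repl.comm {n : ℕ} {Q₁ Q₁' Q₂ Q₂' : Type} [TopologicalSpace Q₁] [ChartedSpace (E n) Q₁]
    [TopologicalSpace Q₁'] [ChartedSpace (E n) Q₁'] [TopologicalSpace Q₂] [ChartedSpace (E n) Q₂]
    [TopologicalSpace Q₂'] [ChartedSpace (E n) Q₂'] {μ₁ : Mod n Q₁ Q₁'} {μ₂ : Mod n Q₂ Q₂'}
    {X X₁ X₂ X₁₂ : Type*} [TopologicalSpace X] [TopologicalSpace X₁] [TopologicalSpace X₂] [TopologicalSpace X₁₂]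
    [ChartedSpace (E n) X] [ChartedSpace (E n) X₁] [ChartedSpace (E n) X₂] [ChartedSpace (E n) X₁₂]
    [HasGroupoid X (orG n)] [HasGroupoid X₁ (orG n)] [HasGroupoid X₂ (orG n)] [HasGroupoid Q₂' (orG n)]
    {e₁ : OPH Q₁ X} {e₂ : OPH Q₂ X} (hdis : Disjoint e₁.target e₂.target) {φ₁ : OPH X X₁} (h₁ : Repl n μ₁ e₁ φ₁)
    {φ₂ : OPH X X₂} (h₂ : Repl n μ₂ e₂ φ₂) {φ₁₂ : OPH X₁ X₁₂} (h₁₂ : Repl n μ₂ (e₂.trans φ₁) φ₁₂) :
    ∃ φ₂₁ : OPH X₂ X₁₂, Repl n μ₁ (e₁.trans φ₂) φ₂₁ ∧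
      ∀ x ∈ φ₁.source, x ∈ φ₂.source → φ₂₁ (φ₂ x) = φ₁₂ (φ₁ x) := by
  obtain ⟨d₁, k₁⟩ := h₁.exd
  obtain ⟨d₂, k₂⟩ := h₂.exd
  obtain ⟨d₁₂, k₁₂⟩ := h₁₂.exd
  have hd : ∀ q ∈ e₁.source, ∀ p ∈ e₂.source, e₁ q ≠ e₂ p := fun q hq p hp h =>
    disjoint_left.1 hdis (e₁.map_source hq) (h ▸ e₂.map_source hp)
  -- domains
  have m1 : ∀ p ∈ e₂.source, e₂ p ∈ φ₁.source := by
    intro p hp
    rw [k₁.sφ]
    rintro ⟨q, hq, he⟩
    exact hd q (k₁.mC hq) p hp he
  have m2 : ∀ q ∈ e₁.source, e₁ q ∈ φ₂.source := by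
    intro q hq
    rw [k₂.sφ]
    rintro ⟨p, hp, he⟩
    exact hd q hq p (k₂.mC hp) he.symm
  have s12 : ∀ x ∈ φ₁.source, φ₁ x ∈ φ₁₂.source ↔ x ∉ e₂ '' μ₂.C := by
    intro x hx
    rw [k₁₂.sφ]
    constructor
    · rintro h ⟨p, hp, rfl⟩
      exact h ⟨p, hp, rfl⟩
    · rintro h ⟨p, hp, he⟩
      have : φ₁ (e₂ p) = φ₁ x := he
      exact h ⟨p, hp, φ₁.injOn (m1 p (k₂.mC hp)) hx this⟩
  set f : OPH X₂ X₁₂ := φ₂.symm.trans (φ₁.trans φ₁₂) with hf
  set g : OPH X₂ X₁₂ := d₂.symm.trans d₁₂ with hg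
  have fs : ∀ y, y ∈ f.source ↔ y ∈ φ₂.target ∧ φ₂.symm y ∈ φ₁.source := by
    intro y
    rw [hf, OpenPartialHomeomorph.trans_source, OpenPartialHomeomorph.trans_source]
    constructor
    · exact fun h => ⟨h.1, h.2.1⟩
    · rintro ⟨h1, h2⟩
      refine ⟨h1, h2, ?_⟩
      show φ₁ (φ₂.symm y) ∈ φ₁₂.source
      rw [s12 _ h2, ← mem_compl_iff, ← k₂.sφ]
      exact φ₂.map_target h1
  have fa : ∀ y, f y = φ₁₂ (φ₁ (φ₂.symm y)) := fun y => rfl
  have gs : ∀ y, y ∈ g.source ↔ y ∈ d₂.target := by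
    intro y
    rw [hg, OpenPartialHomeomorph.trans_source]
    constructor
    · exact fun h => h.1
    · intro h
      refine ⟨h, ?_⟩
      show d₂.symm y ∈ d₁₂.source
      rw [k₁₂.sd, ← k₂.sd]
      exact d₂.map_target h
  have ga : ∀ y, g y = d₁₂ (d₂.symm y) := fun y => rfl
  obtain ⟨φ₂₁, ks, kt, kf, kg, -, -⟩ := exists_glue f g
    (by
      intro y hy hy'
      rw [fs] at hy
      rw [gs] at hy'
      obtain ⟨q, hq, e1, e2⟩ := k₂.key (φ₂.map_target hy.1) (d₂.map_target hy')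
        (by rw [φ₂.right_inv hy.1, d₂.right_inv hy'])
      rw [fa, ga, e1, e2, ← k₁₂.glue q hq]
      rfl)
    (by
      intro y hy z hz hyz
      rw [fs] at hy
      rw [gs] at hz
      rw [fa, ga] at hyz
      have hx : φ₁ (φ₂.symm y) ∈ φ₁₂.source := by
        rw [s12 _ hy.2, ← mem_compl_iff, ← k₂.sφ]
        exact φ₂.map_target hy.1
      have hz' : d₂.symm z ∈ d₁₂.source := by
        rw [k₁₂.sd, ← k₂.sd]
        exact d₂.map_target hz
      obtain ⟨q, hq, e1, e2⟩ := k₁₂.key hx hz' hyz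
      have e1' : φ₁ (φ₂.symm y) = φ₁ (e₂ q) := e1
      have e3 : φ₂.symm y = e₂ q := φ₁.injOn hy.2 (m1 q (k₂.ms hq)) e1'
      have e4 : φ₂ (e₂ q) = d₂ (μ₂.κ q) := k₂.glue q hq
      rw [← e3, ← e2, φ₂.right_inv hy.1, d₂.right_inv hz] at e4
      exact e4)
  have fpd : PD n f := k₂.pdφ.symm.trans (k₁.pdφ.trans k₁₂.pdφ)
  have gpd : PD n g := k₂.pdd.symm.trans k₁₂.pdd
  -- the new piece
  have md : ∀ q ∈ d₁.source, d₁ q ∈ φ₁₂.source := by
    intro q hq
    rw [k₁₂.sφ]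
    rintro ⟨p, hp, he⟩
    have he' : φ₁ (e₂ p) = d₁ q := he
    obtain ⟨r, hr, e1, -⟩ := k₁.key (m1 p (k₂.mC hp)) hq he'
    exact hd r (k₁.ms hr) p (k₂.mC hp) e1.symm
  refine ⟨φ₂₁, (ReplD.mk (d := d₁.trans φ₁₂) (k₁.pde.trans k₂.pdφ) ?_ (pd_glue fpd gpd ks.subset kf kg) ?_
    (k₁.pdd.trans k₁₂.pdφ) ?_ ?_ ?_).repl, ?_⟩
  · rw [OpenPartialHomeomorph.trans_source, show e₁.source ∩ e₁ ⁻¹' φ₂.source = e₁.source from inter_eq_left.2 m2,
      k₁.se]
  · -- source of φ₂₁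
    rw [ks]
    ext y
    constructor
    · rintro (hy | hy) ⟨q, hq, he⟩
      · rw [fs] at hy
        have he' : φ₂ (e₁ q) = y := he
        rw [← he', φ₂.left_inv (m2 q (k₁.mC hq)), k₁.sφ] at hy
        exact hy.2 ⟨q, hq, rfl⟩
      · rw [gs] at hy
        have he' : φ₂ (e₁ q) = y := he
        obtain ⟨r, hr, e1, -⟩ := k₂.key (m2 q (k₁.mC hq)) (d₂.map_target hy)
          (by rw [d₂.right_inv hy]; exact he')
        exact hd q (k₁.mC hq) r (k₂.ms hr) e1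
    · intro hy
      have hc : y ∈ φ₂.target ∪ d₂.target := by rw [k₂.cover]; trivial
      rcases hc with hc | hc
      · left
        rw [fs]
        refine ⟨hc, ?_⟩
        rw [k₁.sφ]
        rintro ⟨q, hq, he⟩
        refine hy ⟨q, hq, ?_⟩
        show φ₂ (e₁ q) = y
        rw [he, φ₂.right_inv hc]
      · exact Or.inr ((gs y).2 hc)
  · rw [OpenPartialHomeomorph.trans_source, show d₁.source ∩ d₁ ⁻¹' φ₁₂.source = d₁.source from inter_eq_left.2 md,
      k₁.sd]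
  · -- target of φ₂₁
    rw [kt]
    ext z
    have ft : ∀ z, z ∈ f.target ↔ ∃ x, x ∈ φ₁.source ∧ x ∈ φ₂.source ∧ φ₁₂ (φ₁ x) = z := by
      intro z
      constructor
      · intro hz
        have h1 := f.map_target hz
        have h2 := f.right_inv hz
        rw [fs] at h1
        rw [fa] at h2
        exact ⟨_, h1.2, φ₂.map_target h1.1, h2⟩
      · rintro ⟨x, hx1, hx2, rfl⟩
        have h1 : φ₂ x ∈ f.source := by
          rw [fs, φ₂.left_inv hx2]
          exact ⟨φ₂.map_source hx2, hx1⟩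
        have h2 := f.map_source h1
        rwa [fa, φ₂.left_inv hx2] at h2
    have gt : ∀ z, z ∈ g.target ↔ z ∈ d₁₂.target := by
      intro z
      constructor
      · intro hz
        have h1 := g.map_target hz
        have h2 := g.right_inv hz
        rw [gs] at h1
        rw [ga] at h2
        rw [← h2]
        refine d₁₂.map_source ?_
        rw [k₁₂.sd, ← k₂.sd]
        exact d₂.map_target h1
      · intro hz
        have h0 : d₁₂.symm z ∈ d₂.source := by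
          rw [k₂.sd, ← k₁₂.sd]; exact d₁₂.map_target hz
        have h1 : d₂ (d₁₂.symm z) ∈ g.source := by
          rw [gs]
          exact d₂.map_source h0
        have h2 := g.map_source h1
        rw [ga, d₂.left_inv h0, d₁₂.right_inv hz] at h2
        exact h2
    constructor
    · rintro (hz | hz) ⟨q, hq, he⟩
      · rw [ft] at hz
        obtain ⟨x, hx1, hx2, rfl⟩ := hz
        have he' : φ₁₂ (d₁ q) = φ₁₂ (φ₁ x) := he
        have h3 := φ₁₂.injOn (md q (k₁.mC' hq)) (by rw [s12 x hx1, ← mem_compl_iff, ← k₂.sφ]; exact hx2) he'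
        have h4 := φ₁.map_source hx1
        rw [k₁.tφ] at h4
        exact h4 ⟨q, hq, h3⟩
      · rw [gt] at hz
        have he' : φ₁₂ (d₁ q) = z := he
        obtain ⟨r, hr, e1, -⟩ := k₁₂.key (md q (k₁.mC' hq)) (d₁₂.map_target hz)
          (by rw [d₁₂.right_inv hz]; exact he')
        have e1' : d₁ q = φ₁ (e₂ r) := e1
        have h4 := φ₁.map_source (m1 r (k₂.ms hr))
        rw [k₁.tφ] at h4
        exact h4 ⟨q, hq, e1'⟩
    · intro hz
      have hc : z ∈ φ₁₂.target ∪ d₁₂.target := by rw [k₁₂.cover]; trivial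
      rcases hc with hc | hc
      · left
        rw [ft]
        have h1 := φ₁₂.map_target hc
        have hc1 : φ₁₂.symm z ∈ φ₁.target := by
          rw [k₁.tφ]
          rintro ⟨q, hq, he⟩
          refine hz ⟨q, hq, ?_⟩
          show φ₁₂ (d₁ q) = z
          rw [he, φ₁₂.right_inv hc]
        refine ⟨φ₁.symm (φ₁₂.symm z), φ₁.map_target hc1, ?_, ?_⟩
        · rw [k₂.sφ]
          refine (s12 _ (φ₁.map_target hc1)).1 ?_
          rw [φ₁.right_inv hc1]; exact h1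
        · rw [φ₁.right_inv hc1, φ₁₂.right_inv hc]
      · exact Or.inr ((gt z).2 hc)
  · intro q hq
    have h1 : φ₂ (e₁ q) ∈ f.source := by
      rw [fs, φ₂.left_inv (m2 q (k₁.ms hq))]
      exact ⟨φ₂.map_source (m2 q (k₁.ms hq)), k₁.mφ hq⟩
    show φ₂₁ (φ₂ (e₁ q)) = φ₁₂ (d₁ (μ₁.κ q))
    rw [kf _ h1, fa, φ₂.left_inv (m2 q (k₁.ms hq)), k₁.glue q hq]
  · intro x hx1 hx2
    have h1 : φ₂ x ∈ f.source := by
      rw [fs, φ₂.left_inv hx2]
      exact ⟨φ₂.map_source hx2, hx1⟩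
    rw [kf _ h1, fa, φ₂.left_inv hx2]

end Pool.Agent.CSM
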