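import Pool.Agent.CSM.CalcR
import Pool.Agent.CSM.Adp
import Pool.Agent.CSM.All

/-!
Calculus of connected sums (`IsCS`): symmetry, dependence on germs only, uniqueness, compatibility with replacements,
the standard sphere is neutral.
-/

open scoped Manifold ContDiff Topology
open Set

namespace Pool.Agent.CSM

theorem inv_ne' {n : ℕ} {v : E n} (hv : v ≠ 0) : inv n v ≠ 0 := by
  intro h
  have h1 := norm_inv' n v
  rw [h, norm_zero] at h1
  exact (inv_ne_zero (norm_ne_zero_iff.2 hv)) h1.symm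

theorem norm_inv_lt {n : ℕ} {v : E n} {ε : ℝ} (hε : 0 < ε) (hv : ε⁻¹ < ‖v‖) : ‖inv n v‖ < ε := by
  rw [norm_inv']
  exact (inv_lt_comm₀ hε (lt_trans (inv_pos.2 hε) hv)).1 hv

section

variable {n : ℕ} {M N X : Type*} [TopologicalSpace M] [TopologicalSpace N] [TopologicalSpace X]
  [ChartedSpace (E n) M] [ChartedSpace (E n) N] [ChartedSpace (E n) X]

namespace IsCS

variable {i : OPH (E n) M} {j : OPH (E n) N} {φ : OPH M X} {ψ : OPH N X}

theorem mi (h : IsCS n i j φ ψ) (v : E n) : v ∈ i.source := by rw [h.si]; trivial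

theorem mj (h : IsCS n i j φ ψ) (v : E n) : v ∈ j.source := by rw [h.sj]; trivial

theorem mφ (h : IsCS n i j φ ψ) {v : E n} (hv : v ≠ 0) : i v ∈ φ.source := by
  rw [h.sφ]
  intro h1
  exact hv (i.injOn (h.mi v) (h.mi 0) h1)

theorem mψ (h : IsCS n i j φ ψ) {v : E n} (hv : v ≠ 0) : j v ∈ ψ.source := by
  rw [h.sψ]
  intro h1
  exact hv (j.injOn (h.mj v) (h.mj 0) h1)

theorem key (h : IsCS n i j φ ψ) {x : M} (hx : x ∈ φ.source) {y : N} (hy : y ∈ ψ.source) (hxy : φ x = ψ y) :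
    ∃ v : E n, v ≠ 0 ∧ x = i v ∧ y = j (inv n v) := by
  have h1 : φ x ∈ φ.target ∩ ψ.target := ⟨φ.map_source hx, hxy ▸ ψ.map_source hy⟩
  rw [h.inter] at h1
  obtain ⟨_, ⟨v, hv, rfl⟩, hw⟩ := h1
  have hv' : v ≠ 0 := hv
  have h2 : x = i v := φ.injOn hx (h.mφ hv') hw.symm
  refine ⟨v, hv', h2, ψ.injOn hy (h.mψ (inv_ne' hv')) ?_⟩
  rw [← hxy, h2, h.glue v hv']

theorem symm (h : IsCS n i j φ ψ) : IsCS n j i ψ φ where
  pdi := h.pdj
  pdj := h.pdi
  pdφ := h.pdψ
  pdψ := h.pdφ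
  si := h.sj
  sj := h.si
  sφ := h.sψ
  sψ := h.sφ
  cover := by rw [union_comm]; exact h.cover
  inter := by
    rw [inter_comm, h.inter]
    ext z
    constructor
    · rintro ⟨_, ⟨v, hv, rfl⟩, rfl⟩
      exact ⟨_, ⟨inv n v, inv_ne' hv, rfl⟩, (h.glue v hv).symm⟩
    · rintro ⟨_, ⟨v, hv, rfl⟩, rfl⟩
      refine ⟨_, ⟨inv n v, inv_ne' hv, rfl⟩, ?_⟩
      rw [h.glue _ (inv_ne' hv), inv_inv' n v]
  glue v hv := by
    rw [h.glue _ (inv_ne' hv), inv_inv' n v]

theorem mapM [HasGroupoid M (orG n)] (h : IsCS n i j φ ψ) {M₂ : Type*} [TopologicalSpace M₂]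
    [ChartedSpace (E n) M₂] (D : M ≃ₜ M₂) (hD : PD n D.toOpenPartialHomeomorph) :
    IsCS n (i.trans D.toOpenPartialHomeomorph) j (D.symm.toOpenPartialHomeomorph.trans φ) ψ where
  pdi := h.pdi.trans hD
  pdj := h.pdj
  pdφ := hD.symm.trans h.pdφ
  pdψ := h.pdψ
  si := by rw [OpenPartialHomeomorph.trans_source]; simp [h.si]
  sj := h.sj
  sφ := by
    rw [OpenPartialHomeomorph.trans_source, h.sφ]
    ext y
    constructor
    · rintro ⟨-, h1⟩ h2
      refine h1 ?_
      have h3 : y = D (i 0) := h2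
      show D.symm y = i 0
      rw [h3]; simp
    · intro h1
      refine ⟨trivial, fun h2 => h1 ?_⟩
      have h3 : D.symm y = i 0 := h2
      show y = D (i 0)
      rw [← h3]; simp
  sψ := h.sψ
  cover := by rw [OpenPartialHomeomorph.trans_target]; simpa using h.cover
  inter := by
    rw [OpenPartialHomeomorph.trans_target]
    have h1 : φ.target ∩ φ.symm ⁻¹' D.symm.toOpenPartialHomeomorph.target = φ.target := by simp
    rw [h1, h.inter]
    ext z
    constructor
    · rintro ⟨_, ⟨v, hv, rfl⟩, rfl⟩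
      exact ⟨_, ⟨v, hv, rfl⟩, by simp⟩
    · rintro ⟨_, ⟨v, hv, rfl⟩, rfl⟩
      exact ⟨_, ⟨v, hv, rfl⟩, by simp⟩
  glue v hv := by simpa using h.glue v hv

theorem mapX [HasGroupoid X (orG n)] (h : IsCS n i j φ ψ) {X₂ : Type*} [TopologicalSpace X₂]
    [ChartedSpace (E n) X₂] (D : X ≃ₜ X₂) (hD : PD n D.toOpenPartialHomeomorph) :
    IsCS n i j (φ.trans D.toOpenPartialHomeomorph) (ψ.trans D.toOpenPartialHomeomorph) where
  pdi := h.pdi
  pdj := h.pdj
  pdφ := h.pdφ.trans hD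
  pdψ := h.pdψ.trans hD
  si := h.si
  sj := h.sj
  sφ := by rw [OpenPartialHomeomorph.trans_source]; simp [h.sφ]
  sψ := by rw [OpenPartialHomeomorph.trans_source]; simp [h.sψ]
  cover := by
    rw [OpenPartialHomeomorph.trans_target, OpenPartialHomeomorph.trans_target, eq_univ_iff_forall]
    intro z
    have h1 : D.symm z ∈ φ.target ∪ ψ.target := by rw [h.cover]; trivial
    rcases h1 with h1 | h1
    · exact Or.inl ⟨trivial, h1⟩
    · exact Or.inr ⟨trivial, h1⟩
  inter := by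
    rw [OpenPartialHomeomorph.trans_target, OpenPartialHomeomorph.trans_target]
    ext z
    constructor
    · rintro ⟨⟨-, h1⟩, ⟨-, h2⟩⟩
      have h3 : D.symm z ∈ φ.target ∩ ψ.target := ⟨h1, h2⟩
      rw [h.inter] at h3
      obtain ⟨w, hw, he⟩ := h3
      refine ⟨w, hw, ?_⟩
      show D (φ w) = z
      rw [he]; simp
    · rintro ⟨w, hw, rfl⟩
      have h3 : φ w ∈ φ.target ∩ ψ.target := by rw [h.inter]; exact ⟨w, hw, rfl⟩
      have h4 : D.symm (D (φ w)) = φ w := by simp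
      exact ⟨⟨trivial, by show D.symm (D (φ w)) ∈ φ.target; rw [h4]; exact h3.1⟩,
        ⟨trivial, by show D.symm (D (φ w)) ∈ ψ.target; rw [h4]; exact h3.2⟩⟩
  glue v hv := by simpa using h.glue v hv

/-- Only the germ of the disc at the origin matters. -/
theorem germ [T2Space N] [HasGroupoid N (orG n)] [HasGroupoid M (orG n)] (_hn : 1 ≤ n) {i₂ : OPH (E n) M}
    (h : IsCS n i j φ ψ) (pd₂ : PD n i₂) (s₂ : i₂.source = univ) {ε : ℝ} (hε : 0 < ε)
    (he : ∀ v, ‖v‖ < ε → i₂ v = i v) : ∃ ψ₂ : OPH N X, IsCS n i₂ j φ ψ₂ ∧ ∀ y, y ∉ j.target → ψ₂ y = ψ y := by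
  have h0 : i₂ 0 = i 0 := he 0 (by rw [norm_zero]; exact hε)
  obtain ⟨k, kpd, ks, kt, ka⟩ : ∃ k : OPH (E n) (E n), PD n k ∧ k.source = {0}ᶜ ∧ k.target = {0}ᶜ ∧
      ∀ v, v ≠ 0 → k v = inv n v := ⟨invO n, pd_invO n, rfl, rfl, fun _ _ => rfl⟩
  set R : ℝ := (ε / 2)⁻¹ with hR
  have hR0 : 0 < R := inv_pos.2 (by linarith)
  have hcl : IsClosed (j '' Metric.closedBall 0 R) :=
    ((isCompact_closedBall (0 : E n) R).image_of_continuousOn
      (j.continuousOn.mono (by rw [h.sj]; exact subset_univ _))).isClosed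
  have m2 : ∀ v : E n, v ≠ 0 → i₂ v ∈ φ.source := by
    intro v hv
    rw [h.sφ, ← h0]
    intro h1
    exact hv (i₂.injOn (by rw [s₂]; trivial) (by rw [s₂]; trivial) h1)
  set f : OPH N X := ψ.restrOpen (j '' Metric.closedBall 0 R)ᶜ hcl.isOpen_compl with hf
  set g : OPH N X := j.symm.trans (k.trans (i₂.trans φ)) with hg
  have fs : ∀ y, y ∈ f.source ↔ y ∉ j '' Metric.closedBall 0 R := by
    intro y
    rw [hf, OpenPartialHomeomorph.restrOpen_source, h.sψ]
    constructor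
    · exact fun h => h.2
    · intro h1
      refine ⟨?_, h1⟩
      intro h2
      have h3 : y = j 0 := h2
      exact h1 ⟨0, Metric.mem_closedBall_self hR0.le, h3.symm⟩
  have fa : ∀ y, f y = ψ y := fun y => rfl
  have gs : ∀ y, y ∈ g.source ↔ ∃ w : E n, w ≠ 0 ∧ y = j w := by
    intro y
    rw [hg, OpenPartialHomeomorph.trans_source, OpenPartialHomeomorph.trans_source,
      OpenPartialHomeomorph.trans_source, ks]
    constructor
    · rintro ⟨h1, h2, -⟩
      exact ⟨j.symm y, h2, (j.right_inv h1).symm⟩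
    · rintro ⟨w, hw, rfl⟩
      refine ⟨j.map_source (h.mj w), ?_, ?_, ?_⟩
      · show j.symm (j w) ∈ ({0}ᶜ : Set (E n))
        rw [j.left_inv (h.mj w)]; exact hw
      · show k (j.symm (j w)) ∈ i₂.source
        rw [s₂]; trivial
      · show i₂ (k (j.symm (j w))) ∈ φ.source
        rw [j.left_inv (h.mj w), ka w hw]
        exact m2 _ (inv_ne' hw)
  have ga : ∀ w : E n, w ≠ 0 → g (j w) = φ (i₂ (inv n w)) := by
    intro w hw
    show φ (i₂ (k (j.symm (j w)))) = _
    rw [j.left_inv (h.mj w), ka w hw]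
  have far : ∀ w : E n, j w ∉ j '' Metric.closedBall 0 R → ‖inv n w‖ < ε := by
    intro w hw
    have h1 : R < ‖w‖ := by
      by_contra h2
      push Not at h2
      exact hw ⟨w, by simpa using h2, rfl⟩
    have h2 : ‖inv n w‖ < ε / 2 := norm_inv_lt (by linarith) h1
    linarith
  obtain ⟨ψ₂, ps, pt, pf, pg, -, -⟩ := exists_glue f g
    (by
      intro y hy hy'
      obtain ⟨w, hw, rfl⟩ := (gs y).1 hy'
      rw [fa, ga w hw, he _ (far w ((fs _).1 hy)), h.glue _ (inv_ne' hw), inv_inv' n w])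
    (by
      intro y hy z hz hyz
      obtain ⟨w, hw, rfl⟩ := (gs z).1 hz
      rw [fa, ga w hw] at hyz
      have hy' : y ∈ ψ.source := by
        rw [h.sψ]
        intro h2
        have h3 : y = j 0 := h2
        exact (fs y).1 hy ⟨0, Metric.mem_closedBall_self hR0.le, h3.symm⟩
      obtain ⟨u, hu, e1, e2⟩ := h.key (m2 _ (inv_ne' hw)) hy' hyz.symm
      have h5 : ‖inv n (inv n u)‖ < ε := by
        apply far
        rw [← e2]; exact (fs y).1 hy
      rw [inv_inv' n u] at h5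
      rw [← he u h5] at e1
      have h6 := i₂.injOn (by rw [s₂]; trivial) (by rw [s₂]; trivial) e1
      rw [e2, ← h6, inv_inv' n w])
  have fpd : PD n f := h.pdψ.restrOpen _ _
  have gpd : PD n g := h.pdj.symm.trans (kpd.trans (pd₂.trans h.pdφ))
  have hinv : ∀ v : E n, v ≠ 0 → φ (i₂ v) = ψ₂ (j (inv n v)) := by
    intro v hv
    rw [pg _ ((gs _).2 ⟨_, inv_ne' hv, rfl⟩), ga _ (inv_ne' hv), inv_inv' n v]
  have hsrc : ∀ y, y ∈ ψ₂.source ↔ y ≠ j 0 := by
    intro y
    rw [ps]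
    constructor
    · rintro (hy | hy) rfl
      · exact (fs _).1 hy ⟨0, Metric.mem_closedBall_self hR0.le, rfl⟩
      · obtain ⟨w, hw, he'⟩ := (gs _).1 hy
        exact hw (j.injOn (h.mj w) (h.mj 0) he'.symm)
    · intro hy
      by_cases h1 : y ∈ j '' Metric.closedBall 0 R
      · obtain ⟨w, hw, rfl⟩ := h1
        exact Or.inr ((gs _).2 ⟨w, fun h0 => hy (by rw [h0]), rfl⟩)
      · exact Or.inl ((fs y).2 h1)
  refine ⟨ψ₂, ⟨pd₂, h.pdj, h.pdφ, pd_glue fpd gpd ps.subset pf pg, s₂, h.sj, ?_, ?_, ?_, ?_, hinv⟩, ?_⟩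
  · rw [h.sφ, h0]
  · ext y; rw [hsrc]; rfl
  · rw [eq_univ_iff_forall]
    intro z
    have h1 : z ∈ φ.target ∪ ψ.target := by rw [h.cover]; trivial
    rcases h1 with h1 | h1
    · exact Or.inl h1
    · by_cases h2 : ψ.symm z ∈ j '' Metric.closedBall 0 R
      · left
        obtain ⟨w, hw, he'⟩ := h2
        have hw0 : w ≠ 0 := by
          rintro rfl
          have h3 := ψ.map_target h1
          rw [← he', h.sψ] at h3
          exact h3 rfl
        rw [← ψ.right_inv h1, ← he', ← inv_inv' n w, ← h.glue _ (inv_ne' hw0)]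
        exact φ.map_source (h.mφ (inv_ne' hw0))
      · right
        have h3 : ψ.symm z ∈ ψ₂.source := by rw [ps]; exact Or.inl ((fs _).2 h2)
        have h4 := ψ₂.map_source h3
        rw [pf _ ((fs _).2 h2), fa, ψ.right_inv h1] at h4
        exact h4
  · ext z
    constructor
    · rintro ⟨h1, h2⟩
      have h3 := ψ₂.map_target h2
      rw [ps] at h3
      rcases h3 with h3 | h3
      · have h4 : ψ (ψ₂.symm z) = z := by rw [← fa, ← pf _ h3, ψ₂.right_inv h2]
        have h5 : ψ₂.symm z ∈ ψ.source := by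
          rw [h.sψ]
          intro h6
          have h7 : ψ₂.symm z = j 0 := h6
          exact (fs _).1 h3 ⟨0, Metric.mem_closedBall_self hR0.le, h7.symm⟩
        obtain ⟨u, hu, e1, e2⟩ := h.key (φ.map_target h1) h5 (by rw [φ.right_inv h1, h4])
        have h8 : ‖inv n (inv n u)‖ < ε := by
          apply far
          rw [← e2]; exact (fs _).1 h3
        rw [inv_inv' n u] at h8
        refine ⟨_, ⟨u, hu, rfl⟩, ?_⟩
        rw [he u h8, ← e1, φ.right_inv h1]
      · obtain ⟨w, hw, he'⟩ := (gs _).1 h3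
        refine ⟨_, ⟨inv n w, inv_ne' hw, rfl⟩, ?_⟩
        rw [← ga w hw, ← he', ← pg _ h3, ψ₂.right_inv h2]
    · rintro ⟨_, ⟨v, hv, rfl⟩, rfl⟩
      refine ⟨φ.map_source (m2 v hv), ?_⟩
      rw [hinv v hv]
      exact ψ₂.map_source ((hsrc _).2 fun h1 => inv_ne' hv (j.injOn (h.mj _) (h.mj 0) h1))
  · intro y hy
    have h1 : y ∉ j '' Metric.closedBall 0 R := by
      rintro ⟨w, -, rfl⟩
      exact hy (j.map_source (h.mj w))
    rw [pf y ((fs y).2 h1), fa]

/-- Uniqueness for fixed discs. -/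
theorem unique [HasGroupoid M (orG n)] [HasGroupoid N (orG n)] (h : IsCS n i j φ ψ) {X₂ : Type*}
    [TopologicalSpace X₂] [ChartedSpace (E n) X₂] {φ₂ : OPH M X₂} {ψ₂ : OPH N X₂} (h₂ : IsCS n i j φ₂ ψ₂) :
    ∃ D : X ≃ₜ X₂, PD n D.toOpenPartialHomeomorph ∧ (∀ x ∈ φ.source, D (φ x) = φ₂ x) ∧
      ∀ y ∈ ψ.source, D (ψ y) = ψ₂ y := by
  have hss : φ.source = φ₂.source := by rw [h.sφ, h₂.sφ]
  have hdd : ψ.source = ψ₂.source := by rw [h.sψ, h₂.sψ]
  have fsrc : (φ.symm.trans φ₂).source = φ.target := by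
    rw [OpenPartialHomeomorph.trans_source, OpenPartialHomeomorph.symm_source, inter_eq_left]
    intro y hy
    show φ.symm y ∈ φ₂.source
    rw [← hss]; exact φ.map_target hy
  have gsrc : (ψ.symm.trans ψ₂).source = ψ.target := by
    rw [OpenPartialHomeomorph.trans_source, OpenPartialHomeomorph.symm_source, inter_eq_left]
    intro y hy
    show ψ.symm y ∈ ψ₂.source
    rw [← hdd]; exact ψ.map_target hy
  have ftgt : (φ.symm.trans φ₂).target = φ₂.target := by
    rw [OpenPartialHomeomorph.trans_target, inter_eq_left]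
    intro y hy
    show φ₂.symm y ∈ φ.symm.target
    rw [OpenPartialHomeomorph.symm_target, hss]; exact φ₂.map_target hy
  have gtgt : (ψ.symm.trans ψ₂).target = ψ₂.target := by
    rw [OpenPartialHomeomorph.trans_target, inter_eq_left]
    intro y hy
    show ψ₂.symm y ∈ ψ.symm.target
    rw [OpenPartialHomeomorph.symm_target, hdd]; exact ψ₂.map_target hy
  obtain ⟨D, hDp, hDf, hDg⟩ := exists_homeo_of_glue (h.pdφ.symm.trans h₂.pdφ) (h.pdψ.symm.trans h₂.pdψ)
    (by
      intro y hy hy'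
      rw [fsrc] at hy
      rw [gsrc] at hy'
      obtain ⟨v, hv, e1, e2⟩ := h.key (φ.map_target hy) (ψ.map_target hy')
        (by rw [φ.right_inv hy, ψ.right_inv hy'])
      show φ₂ (φ.symm y) = ψ₂ (ψ.symm y)
      rw [e1, e2, h₂.glue v hv])
    (by
      intro y hy z hz hyz
      rw [fsrc] at hy
      rw [gsrc] at hz
      have hyz' : φ₂ (φ.symm y) = ψ₂ (ψ.symm z) := hyz
      obtain ⟨v, hv, e1, e2⟩ := h₂.key (hss ▸ φ.map_target hy : φ.symm y ∈ φ₂.source)
        (hdd ▸ ψ.map_target hz : ψ.symm z ∈ ψ₂.source) hyz'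
      have := h.glue v hv
      rw [← e1, ← e2, φ.right_inv hy, ψ.right_inv hz] at this
      exact this)
    (by rw [fsrc, gsrc, h.cover]) (by rw [ftgt, gtgt, h₂.cover])
  refine ⟨D, hDp, fun x hx => ?_, fun y hy => ?_⟩
  · rw [hDf _ (by rw [fsrc]; exact φ.map_source hx)]
    show φ₂ (φ.symm (φ x)) = φ₂ x
    rw [φ.left_inv hx]
  · rw [hDg _ (by rw [gsrc]; exact ψ.map_source hy)]
    show ψ₂ (ψ.symm (ψ y)) = ψ₂ y
    rw [ψ.left_inv hy]

/-- The disc in a connected `M` may be changed. -/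
theorem change [T2Space M] [T2Space N] [HasGroupoid N (orG n)] [HasGroupoid M (orG n)] [ConnectedSpace M]
    (hn : 1 ≤ n) (h : IsCS n i j φ ψ) {i₂ : OPH (E n) M} (pd₂ : PD n i₂) (s₂ : i₂.source = univ) :
    ∃ (φ₂ : OPH M X) (ψ₂ : OPH N X), IsCS n i₂ j φ₂ ψ₂ ∧ ∀ y, y ∉ j.target → ψ₂ y = ψ y := by
  obtain ⟨D, hD, δ, hδ, hDe⟩ := disc_unique hn h.pdi pd₂ (h.mi 0) (by rw [s₂]; trivial)
  obtain ⟨ψ₂, h₂, hy⟩ := (h.mapM D hD).germ hn pd₂ s₂ hδ (fun v hv => by
    show i₂ v = D (i v)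
    rw [hDe v hv])
  exact ⟨_, ψ₂, h₂, hy⟩

/-- Connected sum and replacement in the first summand away from the disc. -/
theorem repl {Q Q' : Type} [TopologicalSpace Q] [ChartedSpace (E n) Q] [TopologicalSpace Q']
    [ChartedSpace (E n) Q'] {μ : Mod n Q Q'} [HasGroupoid M (orG n)] [HasGroupoid N (orG n)]
    [HasGroupoid X (orG n)] [HasGroupoid Q' (orG n)] (h : IsCS n i j φ ψ) {e : OPH Q M}
    (hdis : Disjoint e.target i.target) {M₁ X₁ : Type*} [TopologicalSpace M₁] [ChartedSpace (E n) M₁]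
    [TopologicalSpace X₁] [ChartedSpace (E n) X₁] {φ₁ : OPH M M₁} (h₁ : Repl n μ e φ₁) {Φ : OPH X X₁}
    (hX : Repl n μ (e.trans φ) Φ) :
    ∃ φ' : OPH M₁ X₁, IsCS n (i.trans φ₁) j φ' (ψ.trans Φ) ∧
      ∀ x ∈ φ₁.source, x ≠ i 0 → φ' (φ₁ x) = Φ (φ x) := by
  obtain ⟨d₁, k₁⟩ := h₁.exd
  obtain ⟨d, k⟩ := hX.exd
  have hd : ∀ q ∈ e.source, ∀ v : E n, e q ≠ i v := fun q hq v hqv =>
    disjoint_left.1 hdis (e.map_source hq) (hqv ▸ i.map_source (h.mi v))
  have me : ∀ q ∈ e.source, e q ∈ φ.source := by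
    intro q hq
    rw [h.sφ]
    exact hd q hq 0
  have sΦ : ∀ x ∈ φ.source, φ x ∈ Φ.source ↔ x ∉ e '' μ.C := by
    intro x hx
    rw [k.sφ]
    constructor
    · rintro h1 ⟨q, hq, rfl⟩
      exact h1 ⟨q, hq, rfl⟩
    · rintro h1 ⟨q, hq, he⟩
      have he' : φ (e q) = φ x := he
      exact h1 ⟨q, hq, φ.injOn (me q (k₁.mC hq)) hx he'⟩
  have sΨ : ∀ y ∈ ψ.source, ψ y ∈ Φ.source := by
    intro y hy
    rw [k.sφ]
    rintro ⟨q, hq, he⟩
    have he' : φ (e q) = ψ y := he
    obtain ⟨v, -, e1, -⟩ := h.key (me q (k₁.mC hq)) hy he'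
    exact hd q (k₁.mC hq) v e1
  have i₁ : ∀ v : E n, i v ∈ φ₁.source := by
    intro v
    rw [k₁.sφ]
    rintro ⟨q, hq, he⟩
    exact hd q (k₁.mC hq) v he
  set f : OPH M₁ X₁ := φ₁.symm.trans (φ.trans Φ) with hf
  set g : OPH M₁ X₁ := d₁.symm.trans d with hg
  have fs : ∀ y, y ∈ f.source ↔ y ∈ φ₁.target ∧ φ₁.symm y ∈ φ.source := by
    intro y
    rw [hf, OpenPartialHomeomorph.trans_source, OpenPartialHomeomorph.trans_source]
    constructor
    · exact fun h => ⟨h.1, h.2.1⟩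
    · rintro ⟨h1, h2⟩
      refine ⟨h1, h2, ?_⟩
      show φ (φ₁.symm y) ∈ Φ.source
      rw [sΦ _ h2, ← mem_compl_iff, ← k₁.sφ]
      exact φ₁.map_target h1
  have fa : ∀ y, f y = Φ (φ (φ₁.symm y)) := fun y => rfl
  have gs : ∀ y, y ∈ g.source ↔ y ∈ d₁.target := by
    intro y
    rw [hg, OpenPartialHomeomorph.trans_source]
    constructor
    · exact fun h => h.1
    · intro h1
      refine ⟨h1, ?_⟩
      show d₁.symm y ∈ d.source
      rw [k.sd, ← k₁.sd]
      exact d₁.map_target h1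
  have ga : ∀ y, g y = d (d₁.symm y) := fun y => rfl
  obtain ⟨φ', ps, pt, pf, pg, -, -⟩ := exists_glue f g
    (by
      intro y hy hy'
      rw [fs] at hy
      rw [gs] at hy'
      obtain ⟨q, hq, e1, e2⟩ := k₁.key (φ₁.map_target hy.1) (d₁.map_target hy')
        (by rw [φ₁.right_inv hy.1, d₁.right_inv hy'])
      rw [fa, ga, e1, e2, ← k.glue q hq]
      rfl)
    (by
      intro y hy z hz hyz
      rw [fs] at hy
      rw [gs] at hz
      rw [fa, ga] at hyz
      have hx : φ (φ₁.symm y) ∈ Φ.source := by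
        rw [sΦ _ hy.2, ← mem_compl_iff, ← k₁.sφ]
        exact φ₁.map_target hy.1
      have hz' : d₁.symm z ∈ d.source := by
        rw [k.sd, ← k₁.sd]
        exact d₁.map_target hz
      obtain ⟨q, hq, e1, e2⟩ := k.key hx hz' hyz
      have e1' : φ (φ₁.symm y) = φ (e q) := e1
      have e3 : φ₁.symm y = e q := φ.injOn hy.2 (me q (k₁.ms hq)) e1'
      have e4 : φ₁ (e q) = d₁ (μ.κ q) := k₁.glue q hq
      rw [← e3, ← e2, φ₁.right_inv hy.1, d₁.right_inv hz] at e4
      exact e4)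
  have fpd : PD n f := k₁.pdφ.symm.trans (h.pdφ.trans k.pdφ)
  have gpd : PD n g := k₁.pdd.symm.trans k.pdd
  have hφ' : ∀ x ∈ φ₁.source, x ≠ i 0 → φ' (φ₁ x) = Φ (φ x) := by
    intro x hx hxi
    have h1 : φ₁ x ∈ f.source := by
      rw [fs, φ₁.left_inv hx, h.sφ]
      exact ⟨φ₁.map_source hx, hxi⟩
    rw [pf _ h1, fa, φ₁.left_inv hx]
  have hsrc : ∀ y, y ∈ φ'.source ↔ y ≠ φ₁ (i 0) := by
    intro y
    rw [ps]
    constructor
    · rintro (hy | hy) rfl
      · rw [fs, φ₁.left_inv (i₁ 0), h.sφ] at hy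
        exact hy.2 rfl
      · rw [gs] at hy
        obtain ⟨q, hq, e1, -⟩ := k₁.key (i₁ 0) (d₁.map_target hy) (by rw [d₁.right_inv hy])
        exact hd q (k₁.ms hq) 0 e1.symm
    · intro hy
      have hc : y ∈ φ₁.target ∪ d₁.target := by rw [k₁.cover]; trivial
      rcases hc with hc | hc
      · left
        rw [fs]
        refine ⟨hc, ?_⟩
        rw [h.sφ]
        intro h1
        have h2 : φ₁.symm y = i 0 := h1
        exact hy (by rw [← h2, φ₁.right_inv hc])
      · exact Or.inr ((gs y).2 hc)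
  have hiφ : ∀ v : E n, v ≠ 0 → φ' (φ₁ (i v)) = Φ (φ (i v)) := by
    intro v hv
    exact hφ' _ (i₁ v) fun h1 => hv (i.injOn (h.mi v) (h.mi 0) h1)
  refine ⟨φ', ⟨h.pdi.trans k₁.pdφ, h.pdj, pd_glue fpd gpd ps.subset pf pg, h.pdψ.trans k.pdφ, ?_, h.sj, ?_, ?_, ?_, ?_,
    ?_⟩, hφ'⟩
  · rw [OpenPartialHomeomorph.trans_source, h.si, univ_inter, eq_univ_iff_forall]
    exact i₁
  · ext y; rw [hsrc]; rfl
  · rw [OpenPartialHomeomorph.trans_source, show ψ.source ∩ ψ ⁻¹' Φ.source = ψ.source from inter_eq_left.2 sΨ,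
      h.sψ]
  · rw [eq_univ_iff_forall]
    intro z
    have hc : z ∈ Φ.target ∪ d.target := by rw [k.cover]; trivial
    rcases hc with hc | hc
    · have h1 : Φ.symm z ∈ φ.target ∪ ψ.target := by rw [h.cover]; trivial
      rcases h1 with h1 | h1
      · left
        set w := φ.symm (Φ.symm z) with hw
        have hw1 : w ∈ φ.source := φ.map_target h1
        have hw2 : φ w = Φ.symm z := φ.right_inv h1
        have hw3 : w ∈ φ₁.source := by
          rw [k₁.sφ]
          refine (sΦ w hw1).1 ?_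
          rw [hw2]; exact Φ.map_target hc
        have hw4 : w ≠ i 0 := by
          have := hw1
          rw [h.sφ] at this
          exact this
        have h5 : φ₁ w ∈ φ'.source := (hsrc _).2 fun h6 => hw4 (φ₁.injOn hw3 (i₁ 0) h6)
        have h6 := φ'.map_source h5
        rw [hφ' w hw3 hw4, hw2, Φ.right_inv hc] at h6
        exact h6
      · right
        rw [OpenPartialHomeomorph.trans_target]
        exact ⟨hc, h1⟩
    · left
      have h0 : d.symm z ∈ d₁.source := by rw [k₁.sd, ← k.sd]; exact d.map_target hc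
      have h1 : d₁ (d.symm z) ∈ g.source := (gs _).2 (d₁.map_source h0)
      have h2 : d₁ (d.symm z) ∈ φ'.source := by rw [ps]; exact Or.inr h1
      have h3 := φ'.map_source h2
      rw [pg _ h1, ga, d₁.left_inv h0, d.right_inv hc] at h3
      exact h3
  · ext z
    rw [OpenPartialHomeomorph.trans_target]
    constructor
    · rintro ⟨h1, h2, h3⟩
      have h3' : Φ.symm z ∈ ψ.target := h3
      have h4 := φ'.map_target h1
      have h5 := φ'.right_inv h1
      rw [ps] at h4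
      rcases h4 with h4 | h4
      · rw [pf _ h4, fa] at h5
        rw [fs] at h4
        have h6 : φ (φ₁.symm (φ'.symm z)) ∈ Φ.source := by
          rw [sΦ _ h4.2, ← mem_compl_iff, ← k₁.sφ]
          exact φ₁.map_target h4.1
        have h7 : φ (φ₁.symm (φ'.symm z)) = Φ.symm z := by
          have h8 := congrArg Φ.symm h5
          rwa [Φ.left_inv h6] at h8
        obtain ⟨v, hv, e1, -⟩ := h.key h4.2 (ψ.map_target h3') (by rw [h7, ψ.right_inv h3'])
        refine ⟨_, ⟨v, hv, rfl⟩, ?_⟩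
        show φ' (φ₁ (i v)) = z
        rw [← e1, φ₁.right_inv h4.1, φ'.right_inv h1]
      · rw [pg _ h4, ga] at h5
        rw [gs] at h4
        have h6 : d₁.symm (φ'.symm z) ∈ d.source := by rw [k.sd, ← k₁.sd]; exact d₁.map_target h4
        obtain ⟨q, hq, e1, -⟩ := k.key (Φ.map_target h2) h6 (by rw [Φ.right_inv h2, h5])
        have e1' : Φ.symm z = φ (e q) := e1
        obtain ⟨v, -, e2, -⟩ := h.key (me q (k₁.ms hq)) (ψ.map_target h3') (by rw [ψ.right_inv h3', e1'])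
        exact absurd e2 (hd q (k₁.ms hq) v)
    · rintro ⟨_, ⟨v, hv, rfl⟩, rfl⟩
      have h1 : φ₁ (i v) ∈ φ'.source := (hsrc _).2 fun h6 => hv (i.injOn (h.mi v) (h.mi 0) (φ₁.injOn (i₁ v) (i₁ 0) h6))
      have h2 : φ' ((i.trans φ₁) v) = Φ (φ (i v)) := hiφ v hv
      have h4 : φ (i v) ∈ Φ.source := by
        rw [h.glue v hv]
        exact sΨ _ (h.mψ (inv_ne' hv))
      refine ⟨φ'.map_source h1, ?_, ?_⟩
      · rw [h2]; exact Φ.map_source h4
      · show Φ.symm (φ' ((i.trans φ₁) v)) ∈ ψ.target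
        rw [h2, Φ.left_inv h4, h.glue v hv]
        exact ψ.map_source (h.mψ (inv_ne' hv))
  · intro v hv
    show φ' (φ₁ (i v)) = Φ (ψ (j (inv n v)))
    rw [hiφ v hv, h.glue v hv]

/-- The standard sphere is neutral. -/
theorem neutral [T2Space M] [T2Space N] [HasGroupoid N (orG n)] [HasGroupoid M (orG n)] [ConnectedSpace M]
    (hn : 1 ≤ n) (h : IsCS n i j φ ψ) (hS : IsSph n M) :
    ∃ D : N ≃ₜ X, PD n D.toOpenPartialHomeomorph ∧ ∀ y, y ∉ j.target → D y = ψ y := by
  obtain ⟨i₀, j₀, pi, pj, si, sj, hc, hi, hg⟩ := hS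
  obtain ⟨φ₂, ψ₂, h₂, hy⟩ := h.change hn pi si
  have n0 : i₀ 0 ∉ j₀.target := by
    intro h1
    have h2 : i₀ 0 ∈ i₀.target ∩ j₀.target := ⟨i₀.map_source (by rw [si]; trivial), h1⟩
    rw [hi] at h2
    obtain ⟨v, hv, he⟩ := h2
    exact hv (i₀.injOn (by rw [si]; trivial) (by rw [si]; trivial) he)
  have mj : ∀ w : E n, j₀ w ∈ φ₂.source := by
    intro w
    rw [h₂.sφ]
    intro h1
    have h3 : j₀ w = i₀ 0 := h1
    exact n0 (h3 ▸ j₀.map_source (by rw [sj]; trivial))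
  have gs : ∀ y, y ∈ (j.symm.trans (j₀.trans φ₂)).source ↔ y ∈ j.target := by
    intro y
    rw [OpenPartialHomeomorph.trans_source, OpenPartialHomeomorph.trans_source]
    constructor
    · exact fun h => h.1
    · intro h1
      refine ⟨h1, ?_, mj _⟩
      show j.symm y ∈ j₀.source
      rw [sj]; trivial
  have agree : ∀ w : E n, w ≠ 0 → ψ₂ (j w) = φ₂ (j₀ w) := by
    intro w hw
    have h1 := h₂.glue (inv n w) (inv_ne' hw)
    rw [inv_inv' n w, hg _ (inv_ne' hw), inv_inv' n w] at h1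
    exact h1.symm
  obtain ⟨D, hDp, hDf, -⟩ := exists_homeo_of_glue (f := ψ₂) (g := j.symm.trans (j₀.trans φ₂)) h₂.pdψ
    (h.pdj.symm.trans (pj.trans h₂.pdφ))
    (by
      intro y hy1 hy2
      rw [gs] at hy2
      rw [h₂.sψ] at hy1
      show ψ₂ y = φ₂ (j₀ (j.symm y))
      rw [← agree _ ?_, j.right_inv hy2]
      intro h3
      refine hy1 ?_
      show y = j 0
      rw [← h3, j.right_inv hy2])
    (by
      intro y hy1 z hz hyz
      rw [gs] at hz
      have hyz' : ψ₂ y = φ₂ (j₀ (j.symm z)) := hyz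
      obtain ⟨v, hv, e1, e2⟩ := h₂.key (mj _) hy1 hyz'.symm
      rw [hg v hv] at e1
      have h3 := j₀.injOn (by rw [sj]; trivial) (by rw [sj]; trivial) e1
      rw [e2, ← h3, j.right_inv hz])
    (by
      rw [h₂.sψ, eq_univ_iff_forall]
      intro y
      by_cases h1 : y = j 0
      · right
        rw [gs, h1]
        exact j.map_source (h.mj 0)
      · exact Or.inl h1)
    (by
      rw [eq_univ_iff_forall]
      intro z
      have h1 : z ∈ φ₂.target ∪ ψ₂.target := by rw [h₂.cover]; trivial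
      rcases h1 with h1 | h1
      · right
        set x := φ₂.symm z with hx
        have hx1 : x ∈ φ₂.source := φ₂.map_target h1
        have hx2 : x ∈ j₀.target := by
          have h3 : x ∈ i₀.target ∪ j₀.target := by rw [hc]; trivial
          rcases h3 with h3 | h3
          · have h4 : i₀.symm x ≠ 0 := by
              intro h5
              rw [h₂.sφ] at hx1
              refine hx1 ?_
              show x = i₀ 0
              rw [← h5, i₀.right_inv h3]
            have h6 : x ∈ i₀.target ∩ j₀.target := by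
              rw [hi]
              exact ⟨_, h4, i₀.right_inv h3⟩
            exact h6.2
          · exact h3
        have h7 : j (j₀.symm x) ∈ (j.symm.trans (j₀.trans φ₂)).source := by
          rw [gs]; exact j.map_source (h.mj _)
        have h8 := (j.symm.trans (j₀.trans φ₂)).map_source h7
        have h9 : (j.symm.trans (j₀.trans φ₂)) (j (j₀.symm x)) = z := by
          show φ₂ (j₀ (j.symm (j (j₀.symm x)))) = z
          rw [j.left_inv (h.mj _), j₀.right_inv hx2, hx, φ₂.right_inv h1]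
        rw [h9] at h8
        exact h8
      · exact Or.inl h1)
  refine ⟨D, hDp, fun y hy1 => ?_⟩
  have h1 : y ∈ ψ₂.source := by
    rw [h₂.sψ]
    intro h2
    have h3 : y = j 0 := h2
    exact hy1 (h3 ▸ j.map_source (h.mj 0))
  rw [hDf y h1, hy y hy1]

end IsCS

end

end Pool.Agent.CSM
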