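import Pool.Agent.CSM.CalcS

/-!
Associativity of the connected sum for disjoint discs.
-/

open scoped Manifold ContDiff Topology
open Set

namespace Pool.Agent.CSM

/-- `(M # N) # K = M # (N # K)` if the two discs of `N` are disjoint. -/
theorem IsCS.assoc {n : ℕ} {M N K X W Z : Type*} [TopologicalSpace M] [TopologicalSpace N] [TopologicalSpace K]
    [TopologicalSpace X] [TopologicalSpace W] [TopologicalSpace Z] [ChartedSpace (E n) M] [ChartedSpace (E n) N]
    [ChartedSpace (E n) K] [ChartedSpace (E n) X] [ChartedSpace (E n) W] [ChartedSpace (E n) Z]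
    [HasGroupoid M (orG n)] [HasGroupoid N (orG n)] [HasGroupoid K (orG n)] [HasGroupoid X (orG n)]
    {i : OPH (E n) M} {j : OPH (E n) N} {φ : OPH M X} {ψ : OPH N X} (h : IsCS n i j φ ψ)
    {j' : OPH (E n) N} {k : OPH (E n) K} (hdis : Disjoint j'.target j.target) {α : OPH N W} {β : OPH K W}
    (hW : IsCS n j' k α β) {φ' : OPH X Z} {ψ' : OPH K Z} (hZ : IsCS n (j'.trans ψ) k φ' ψ') :
    ∃ ψ₂ : OPH W Z, IsCS n i (j.trans α) (φ.trans φ') ψ₂ := by
  have hd : ∀ u v : E n, j' u ≠ j v := fun u v huv =>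
    disjoint_left.1 hdis (j'.map_source (hW.mi u)) (huv ▸ j.map_source (h.mj v))
  have mj' : ∀ v : E n, j' v ∈ ψ.source := by
    intro v
    rw [h.sψ]
    exact hd v 0
  have jα : ∀ v : E n, j v ∈ α.source := by
    intro v
    rw [hW.sφ]
    exact fun h1 => hd 0 v (Eq.symm h1)
  have sφ' : ∀ x ∈ φ.source, φ x ∈ φ'.source := by
    intro x hx
    rw [hZ.sφ]
    intro h1
    have h2 : φ x = ψ (j' 0) := h1
    obtain ⟨v, -, -, e2⟩ := h.key hx (mj' 0) h2
    exact hd 0 _ e2
  have sψ' : ∀ y ∈ ψ.source, ψ y ∈ φ'.source ↔ y ≠ j' 0 := by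
    intro y hy
    rw [hZ.sφ]
    constructor
    · rintro h1 rfl
      exact h1 rfl
    · intro h1 h2
      have h3 : ψ y = ψ (j' 0) := h2
      exact h1 (ψ.injOn hy (mj' 0) h3)
  set f : OPH W Z := α.symm.trans (ψ.trans φ') with hf
  set g : OPH W Z := β.symm.trans ψ' with hg
  have fs : ∀ y, y ∈ f.source ↔ y ∈ α.target ∧ α.symm y ∈ ψ.source := by
    intro y
    rw [hf, OpenPartialHomeomorph.trans_source, OpenPartialHomeomorph.trans_source]
    constructor
    · exact fun h => ⟨h.1, h.2.1⟩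
    · rintro ⟨h1, h2⟩
      refine ⟨h1, h2, ?_⟩
      show ψ (α.symm y) ∈ φ'.source
      rw [sψ' _ h2]
      have h3 := α.map_target h1
      rw [hW.sφ] at h3
      exact h3
  have fa : ∀ y, f y = φ' (ψ (α.symm y)) := fun y => rfl
  have gs : ∀ y, y ∈ g.source ↔ y ∈ β.target := by
    intro y
    rw [hg, OpenPartialHomeomorph.trans_source]
    constructor
    · exact fun h => h.1
    · intro h1
      refine ⟨h1, ?_⟩
      show β.symm y ∈ ψ'.source
      rw [hZ.sψ, ← hW.sψ]
      exact β.map_target h1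
  have ga : ∀ y, g y = ψ' (β.symm y) := fun y => rfl
  obtain ⟨ψ₂, ps, pt, pf, pg, -, -⟩ := exists_glue f g
    (by
      intro y hy hy'
      rw [fs] at hy
      rw [gs] at hy'
      obtain ⟨v, hv, e1, e2⟩ := hW.key (α.map_target hy.1) (β.map_target hy')
        (by rw [α.right_inv hy.1, β.right_inv hy'])
      rw [fa, ga, e1, e2, ← hZ.glue v hv]
      rfl)
    (by
      intro y hy z hz hyz
      rw [fs] at hy
      rw [gs] at hz
      rw [fa, ga] at hyz
      have hx : ψ (α.symm y) ∈ φ'.source := by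
        rw [sψ' _ hy.2]
        have h3 := α.map_target hy.1
        rw [hW.sφ] at h3
        exact h3
      have hz' : β.symm z ∈ ψ'.source := by
        rw [hZ.sψ, ← hW.sψ]
        exact β.map_target hz
      obtain ⟨v, hv, e1, e2⟩ := hZ.key hx hz' hyz
      have e1' : ψ (α.symm y) = ψ (j' v) := e1
      have e3 : α.symm y = j' v := ψ.injOn hy.2 (mj' v) e1'
      have e4 : α (j' v) = β (k (inv n v)) := hW.glue v hv
      rw [← e3, ← e2, α.right_inv hy.1, β.right_inv hz] at e4
      exact e4)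
  have fpd : PD n f := hW.pdφ.symm.trans (h.pdψ.trans hZ.pdφ)
  have gpd : PD n g := hW.pdψ.symm.trans hZ.pdψ
  have hψ₂ : ∀ y ∈ α.source, y ∈ ψ.source → ψ₂ (α y) = φ' (ψ y) := by
    intro y hy hy'
    have h1 : α y ∈ f.source := by
      rw [fs, α.left_inv hy]
      exact ⟨α.map_source hy, hy'⟩
    rw [pf _ h1, fa, α.left_inv hy]
  have hsrc : ∀ y, y ∈ ψ₂.source ↔ y ≠ α (j 0) := by
    intro y
    rw [ps]
    constructor
    · rintro (hy | hy) rfl
      · rw [fs, α.left_inv (jα 0), h.sψ] at hy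
        exact hy.2 rfl
      · rw [gs] at hy
        obtain ⟨v, -, e1, -⟩ := hW.key (jα 0) (β.map_target hy) (by rw [β.right_inv hy])
        exact hd v 0 e1.symm
    · intro hy
      have hc : y ∈ α.target ∪ β.target := by rw [hW.cover]; trivial
      rcases hc with hc | hc
      · left
        rw [fs]
        refine ⟨hc, ?_⟩
        rw [h.sψ]
        intro h1
        have h2 : α.symm y = j 0 := h1
        exact hy (by rw [← h2, α.right_inv hc])
      · exact Or.inr ((gs y).2 hc)
  have hjψ : ∀ v : E n, v ≠ 0 → ψ₂ (α (j v)) = φ' (ψ (j v)) := by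
    intro v hv
    exact hψ₂ _ (jα v) (h.mψ hv)
  refine ⟨ψ₂, ⟨h.pdi, h.pdj.trans hW.pdφ, h.pdφ.trans hZ.pdφ, pd_glue fpd gpd ps.subset pf pg, h.si, ?_, ?_, ?_, ?_,
    ?_, ?_⟩⟩
  · rw [OpenPartialHomeomorph.trans_source, h.sj, univ_inter, eq_univ_iff_forall]
    exact jα
  · rw [OpenPartialHomeomorph.trans_source, show φ.source ∩ φ ⁻¹' φ'.source = φ.source from inter_eq_left.2 sφ',
      h.sφ]
  · ext y; rw [hsrc]; rfl
  · rw [eq_univ_iff_forall]
    intro z
    have hc : z ∈ φ'.target ∪ ψ'.target := by rw [hZ.cover]; trivial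
    rcases hc with hc | hc
    · have h1 : φ'.symm z ∈ φ.target ∪ ψ.target := by rw [h.cover]; trivial
      rcases h1 with h1 | h1
      · left
        rw [OpenPartialHomeomorph.trans_target]
        exact ⟨hc, h1⟩
      · right
        set w := ψ.symm (φ'.symm z) with hw
        have hw1 : w ∈ ψ.source := ψ.map_target h1
        have hw2 : ψ w = φ'.symm z := ψ.right_inv h1
        have hw3 : w ∈ α.source := by
          rw [hW.sφ]
          refine (sψ' w hw1).1 ?_
          rw [hw2]; exact φ'.map_target hc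
        have hw4 : w ≠ j 0 := by
          have := hw1
          rw [h.sψ] at this
          exact this
        have h5 : α w ∈ ψ₂.source := (hsrc _).2 fun h6 => hw4 (α.injOn hw3 (jα 0) h6)
        have h6 := ψ₂.map_source h5
        rw [hψ₂ w hw3 hw1, hw2, φ'.right_inv hc] at h6
        exact h6
    · right
      have h0 : ψ'.symm z ∈ β.source := by rw [hW.sψ, ← hZ.sψ]; exact ψ'.map_target hc
      have h1 : β (ψ'.symm z) ∈ g.source := (gs _).2 (β.map_source h0)
      have h2 : β (ψ'.symm z) ∈ ψ₂.source := by rw [ps]; exact Or.inr h1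
      have h3 := ψ₂.map_source h2
      rw [pg _ h1, ga, β.left_inv h0, ψ'.right_inv hc] at h3
      exact h3
  · ext z
    rw [OpenPartialHomeomorph.trans_target]
    constructor
    · rintro ⟨⟨h2, h3⟩, h1⟩
      have h3' : φ'.symm z ∈ φ.target := h3
      have h4 := ψ₂.map_target h1
      have h5 := ψ₂.right_inv h1
      rw [ps] at h4
      rcases h4 with h4 | h4
      · rw [pf _ h4, fa] at h5
        rw [fs] at h4
        have h6 : ψ (α.symm (ψ₂.symm z)) ∈ φ'.source := by
          rw [sψ' _ h4.2]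
          have h7 := α.map_target h4.1
          rw [hW.sφ] at h7
          exact h7
        have h7 : ψ (α.symm (ψ₂.symm z)) = φ'.symm z := by
          have h8 := congrArg φ'.symm h5
          rwa [φ'.left_inv h6] at h8
        obtain ⟨v, hv, e1, -⟩ := h.key (φ.map_target h3') h4.2 (by rw [h7, φ.right_inv h3'])
        refine ⟨_, ⟨v, hv, rfl⟩, ?_⟩
        show φ' (φ (i v)) = z
        rw [← e1, φ.right_inv h3', φ'.right_inv h2]
      · rw [pg _ h4, ga] at h5
        rw [gs] at h4
        have h6 : β.symm (ψ₂.symm z) ∈ ψ'.source := by rw [hZ.sψ, ← hW.sψ]; exact β.map_target h4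
        obtain ⟨v, hv, e1, -⟩ := hZ.key (φ'.map_target h2) h6 (by rw [φ'.right_inv h2, h5])
        have e1' : φ'.symm z = ψ (j' v) := e1
        obtain ⟨u, -, -, e2⟩ := h.key (φ.map_target h3') (mj' v) (by rw [φ.right_inv h3', e1'])
        exact absurd e2 (hd v _)
    · rintro ⟨_, ⟨v, hv, rfl⟩, rfl⟩
      have h1 : α (j (inv n v)) ∈ ψ₂.source := (hsrc _).2 fun h6 =>
        inv_ne' hv (j.injOn (h.mj _) (h.mj 0) (α.injOn (jα _) (jα 0) h6))
      have h2 : (φ.trans φ') (i v) = ψ₂ (α (j (inv n v))) := by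
        show φ' (φ (i v)) = _
        rw [hjψ _ (inv_ne' hv), h.glue v hv]
      have h4 : φ (i v) ∈ φ'.source := sφ' _ (h.mφ hv)
      refine ⟨⟨φ'.map_source h4, ?_⟩, ?_⟩
      · show φ'.symm (φ' (φ (i v))) ∈ φ.target
        rw [φ'.left_inv h4]
        exact φ.map_source (h.mφ hv)
      · rw [h2]
        exact ψ₂.map_source h1
  · intro v hv
    show φ' (φ (i v)) = ψ₂ (α (j (inv n v)))
    rw [hjψ _ (inv_ne' hv), h.glue v hv]

end Pool.Agent.CSM
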