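import Pool.Agent.CSM.Defs2

/-!
Core: basic calculus of orientation preserving smooth maps (pointwise notion `PDAt`), of `PD`, gluing of two
compatible partial diffeomorphisms, extension by the identity.
-/

open scoped Manifold ContDiff Topology
open Set

namespace Pool.Agent.CSM

/-! ### The groupoid -/

theorem mem_orG {n : ℕ} {f : OPH (E n) (E n)} : f ∈ orG n ↔
    (ContDiffOn ℝ ∞ f f.source ∧ ∀ x ∈ f.source, 0 < (fderiv ℝ f x).det) ∧
      ContDiffOn ℝ ∞ f.symm f.target ∧ ∀ x ∈ f.target, 0 < (fderiv ℝ f.symm x).det :=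
  mem_groupoid_of_pregroupoid

theorem det_comp' {n : ℕ} (A B : E n →L[ℝ] E n) : (A ∘L B).det = A.det * B.det :=
  LinearMap.det_comp (A : E n →ₗ[ℝ] E n) (B : E n →ₗ[ℝ] E n)

theorem det_id' {n : ℕ} : (ContinuousLinearMap.id ℝ (E n)).det = 1 := by
  simp [ContinuousLinearMap.det]

/-- A continuous linear map with nonzero determinant as an equivalence. -/
theorem exists_equiv_of_det {n : ℕ} {A : E n →L[ℝ] E n} (h : A.det ≠ 0) :
    ∃ B : E n ≃L[ℝ] E n, (B : E n →L[ℝ] E n) = A := by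
  have h1 : IsUnit (LinearMap.det (A : E n →ₗ[ℝ] E n)) := IsUnit.mk0 _ h
  refine ⟨(LinearMap.equivOfIsUnitDet h1).toContinuousLinearEquiv, ?_⟩
  ext x
  simp

/-- Smooth with positive determinant on the source implies membership. -/
theorem mem_orG_of {n : ℕ} {f : OPH (E n) (E n)} (h1 : ContDiffOn ℝ ∞ f f.source)
    (h2 : ∀ x ∈ f.source, 0 < (fderiv ℝ f x).det) : f ∈ orG n := by
  have key : ∀ y ∈ f.target, ContDiffAt ℝ ∞ f.symm y ∧ 0 < (fderiv ℝ f.symm y).det := by
    intro y hy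
    have hx : f.symm y ∈ f.source := f.map_target hy
    have hc : ContDiffAt ℝ ∞ f (f.symm y) := (h1 _ hx).contDiffAt (f.open_source.mem_nhds hx)
    obtain ⟨B, hB⟩ := exists_equiv_of_det (h2 _ hx).ne'
    have hd : HasFDerivAt f (B : E n →L[ℝ] E n) (f.symm y) := by
      rw [hB]
      exact (hc.differentiableAt (by simp)).hasFDerivAt
    have hs : ContDiffAt ℝ ∞ f.symm y := f.contDiffAt_symm hy hd hc
    refine ⟨hs, ?_⟩
    have hds := (hs.differentiableAt (by simp)).hasFDerivAt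
    have h3 : HasFDerivAt (f.symm ∘ f) ((fderiv ℝ f.symm y) ∘L (B : E n →L[ℝ] E n)) (f.symm y) := by
      refine HasFDerivAt.comp _ ?_ hd
      rw [f.right_inv hy]
      exact hds
    have h4 : (f.symm ∘ f) =ᶠ[𝓝 (f.symm y)] id :=
      Filter.eventually_of_mem (f.open_source.mem_nhds hx) fun z hz => f.left_inv hz
    have h5 := h3.unique ((hasFDerivAt_id (𝕜 := ℝ) (f.symm y)).congr_of_eventuallyEq h4)
    have h6 := det_comp' (fderiv ℝ f.symm y) (B : E n →L[ℝ] E n)
    rw [h5, det_id', hB] at h6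
    have h7 := h2 _ hx
    by_contra h8
    push Not at h8
    nlinarith
  exact mem_orG.2 ⟨⟨h1, h2⟩, fun y hy => (key y hy).1.contDiffWithinAt, fun y hy => (key y hy).2⟩

instance instClosedOrG (n : ℕ) : ClosedUnderRestriction (orG n) where
  closedUnderRestriction {e} he s hs := by
    obtain ⟨⟨h1, h2⟩, -⟩ := mem_orG.1 he
    refine mem_orG_of ?_ ?_
    · refine (h1.mono ?_)
      intro x hx
      rw [OpenPartialHomeomorph.restr_source] at hx
      exact hx.1
    · intro x hx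
      rw [OpenPartialHomeomorph.restr_source] at hx
      exact h2 x hx.1

/-! ### Pointwise notion -/

section pdat

variable {n : ℕ} {X Y Z : Type*} [TopologicalSpace X] [TopologicalSpace Y] [TopologicalSpace Z]
  [ChartedSpace (E n) X] [ChartedSpace (E n) Y] [ChartedSpace (E n) Z]

/-- `f` is smooth at `x` with positive determinant, in all charts. -/
def PDAt (n : ℕ) {X Y : Type*} [TopologicalSpace X] [TopologicalSpace Y] [ChartedSpace (E n) X]
    [ChartedSpace (E n) Y] (f : X → Y) (x : X) : Prop :=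
  ContinuousAt f x ∧ ∀ e ∈ atlas (E n) X, ∀ e' ∈ atlas (E n) Y, x ∈ e.source → f x ∈ e'.source →
    ContDiffAt ℝ ∞ (e' ∘ f ∘ e.symm) (e x) ∧ 0 < (fderiv ℝ (e' ∘ f ∘ e.symm) (e x)).det

theorem pd_iff {f : OPH X Y} : PD n f ↔ ∀ x ∈ f.source, PDAt n f x := by
  constructor
  · intro h x hx
    refine ⟨f.continuousAt hx, fun e he e' he' hxe hxe' => ?_⟩
    obtain ⟨⟨h1, h2⟩, -⟩ := mem_orG.1 (h e he e' he')
    have hm : e x ∈ (e.symm ≫ₕ f ≫ₕ e').source := by
      simp only [OpenPartialHomeomorph.trans_source, OpenPartialHomeomorph.symm_source, mem_inter_iff, mem_preimage]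
      refine ⟨e.map_source hxe, ?_, ?_⟩
      · rw [e.left_inv hxe]; exact hx
      · rw [e.left_inv hxe]; exact hxe'
    exact ⟨(h1 _ hm).contDiffAt ((e.symm ≫ₕ f ≫ₕ e').open_source.mem_nhds hm), h2 _ hm⟩
  · intro h e he e' he'
    have key : ∀ y ∈ (e.symm ≫ₕ f ≫ₕ e').source, ContDiffAt ℝ ∞ (e' ∘ f ∘ e.symm) y ∧
        0 < (fderiv ℝ (e' ∘ f ∘ e.symm) y).det := by
      intro y hy
      simp only [OpenPartialHomeomorph.trans_source, OpenPartialHomeomorph.symm_source, mem_inter_iff, mem_preimage] at hy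
      have := (h (e.symm y) hy.2.1).2 e he e' he' (e.map_target hy.1) hy.2.2
      rwa [e.right_inv hy.1] at this
    refine mem_orG_of (fun y hy => (key y hy).1.contDiffWithinAt) fun y hy => (key y hy).2

theorem PD.pdAt {f : OPH X Y} (h : PD n f) {x : X} (hx : x ∈ f.source) : PDAt n f x := pd_iff.1 h x hx

/-- In the model space. -/
theorem pdAt_model {f : E n → E n} {x : E n} : PDAt n f x ↔ ContDiffAt ℝ ∞ f x ∧ 0 < (fderiv ℝ f x).det := by
  constructor
  · intro h
    have := h.2 (OpenPartialHomeomorph.refl (E n)) (by simp) (OpenPartialHomeomorph.refl (E n)) (by simp)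
      (by simp) (by simp)
    simpa using this
  · intro h
    refine ⟨h.1.continuousAt, fun e he e' he' _ _ => ?_⟩
    rw [chartedSpaceSelf_atlas] at he he'
    subst he he'
    simpa using h

/-- Chart independence: charts of the maximal atlas may be used. -/
theorem PDAt.of_max [HasGroupoid X (orG n)] [HasGroupoid Y (orG n)] {f : X → Y} {x : X} (hc : ContinuousAt f x)
    {e : OPH X (E n)} {e' : OPH Y (E n)} (he : e ∈ (orG n).maximalAtlas X) (he' : e' ∈ (orG n).maximalAtlas Y)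
    (hx : x ∈ e.source) (hx' : f x ∈ e'.source) (h1 : ContDiffAt ℝ ∞ (e' ∘ f ∘ e.symm) (e x))
    (h2 : 0 < (fderiv ℝ (e' ∘ f ∘ e.symm) (e x)).det) : PDAt n f x := by
  refine ⟨hc, fun c hcX c' hcY hxc hxc' => ?_⟩
  have g1 : (c.symm ≫ₕ e) ∈ orG n := (mem_maximalAtlas_iff.1 he c hcX).2
  have g2 : (e'.symm ≫ₕ c') ∈ orG n := (mem_maximalAtlas_iff.1 he' c' hcY).1
  obtain ⟨⟨a1, a2⟩, -⟩ := mem_orG.1 g1
  obtain ⟨⟨b1, b2⟩, -⟩ := mem_orG.1 g2
  have m1 : c x ∈ (c.symm ≫ₕ e).source := by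
    simp only [OpenPartialHomeomorph.trans_source, OpenPartialHomeomorph.symm_source, mem_inter_iff, mem_preimage]
    exact ⟨c.map_source hxc, by rw [c.left_inv hxc]; exact hx⟩
  have m2 : e' (f x) ∈ (e'.symm ≫ₕ c').source := by
    simp only [OpenPartialHomeomorph.trans_source, OpenPartialHomeomorph.symm_source, mem_inter_iff, mem_preimage]
    exact ⟨e'.map_source hx', by rw [e'.left_inv hx']; exact hxc'⟩
  have s1 : ContDiffAt ℝ ∞ (c.symm ≫ₕ e) (c x) :=
    (a1 _ m1).contDiffAt ((c.symm ≫ₕ e).open_source.mem_nhds m1)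
  have s2 : ContDiffAt ℝ ∞ (e'.symm ≫ₕ c') (e' (f x)) :=
    (b1 _ m2).contDiffAt ((e'.symm ≫ₕ c').open_source.mem_nhds m2)
  have q1 : (c.symm ≫ₕ e) (c x) = e x := by simp [c.left_inv hxc]
  have q2 : (e' ∘ f ∘ e.symm) (e x) = e' (f x) := by simp [e.left_inv hx]
  -- the composite
  have s3 : ContDiffAt ℝ ∞ ((e' ∘ f ∘ e.symm) ∘ (c.symm ≫ₕ e)) (c x) := by
    refine ContDiffAt.comp _ ?_ s1
    rw [q1]; exact h1
  have s4 : ContDiffAt ℝ ∞ ((e'.symm ≫ₕ c') ∘ ((e' ∘ f ∘ e.symm) ∘ (c.symm ≫ₕ e))) (c x) := by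
    refine ContDiffAt.comp _ ?_ s3
    rw [Function.comp_apply, q1, q2]; exact s2
  have hev : (c' ∘ f ∘ c.symm) =ᶠ[𝓝 (c x)] (e'.symm ≫ₕ c') ∘ ((e' ∘ f ∘ e.symm) ∘ (c.symm ≫ₕ e)) := by
    have w1 : ∀ᶠ y in 𝓝 (c x), c.symm y ∈ e.source := by
      refine (c.continuousAt_symm (c.map_source hxc)).eventually ?_
      rw [c.left_inv hxc]
      exact e.open_source.mem_nhds hx
    have w2 : ∀ᶠ y in 𝓝 (c x), f (c.symm y) ∈ e'.source := by
      have : ContinuousAt (f ∘ c.symm) (c x) := by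
        refine ContinuousAt.comp ?_ (c.continuousAt_symm (c.map_source hxc))
        rw [c.left_inv hxc]; exact hc
      refine this.eventually ?_
      rw [Function.comp_apply, c.left_inv hxc]
      exact e'.open_source.mem_nhds hx'
    filter_upwards [w1, w2] with y hy1 hy2
    simp [e.left_inv hy1, e'.left_inv hy2]
  refine ⟨s4.congr_of_eventuallyEq hev, ?_⟩
  rw [hev.fderiv_eq]
  have d1 : DifferentiableAt ℝ (c.symm ≫ₕ e) (c x) := s1.differentiableAt (by simp)
  have d2 : DifferentiableAt ℝ (e' ∘ f ∘ e.symm) ((c.symm ≫ₕ e) (c x)) := by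
    rw [q1]; exact h1.differentiableAt (by simp)
  have d3 : DifferentiableAt ℝ (e'.symm ≫ₕ c') (((e' ∘ f ∘ e.symm) ∘ (c.symm ≫ₕ e)) (c x)) := by
    rw [Function.comp_apply, q1, q2]; exact s2.differentiableAt (by simp)
  rw [fderiv_comp _ d3 (d2.comp _ d1), fderiv_comp _ d2 d1, det_comp', det_comp', Function.comp_apply, q1, q2]
  exact mul_pos (b2 _ m2) (mul_pos h2 (a2 _ m1))

theorem PDAt.max [HasGroupoid X (orG n)] [HasGroupoid Y (orG n)] {f : X → Y} {x : X} (h : PDAt n f x)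
    {e : OPH X (E n)} {e' : OPH Y (E n)} (he : e ∈ (orG n).maximalAtlas X) (he' : e' ∈ (orG n).maximalAtlas Y)
    (hx : x ∈ e.source) (hx' : f x ∈ e'.source) :
    ContDiffAt ℝ ∞ (e' ∘ f ∘ e.symm) (e x) ∧ 0 < (fderiv ℝ (e' ∘ f ∘ e.symm) (e x)).det := by
  have hm := h.2 (chartAt (E n) x) (chart_mem_atlas _ x) (chartAt (E n) (f x)) (chart_mem_atlas _ (f x))
    (mem_chart_source _ x) (mem_chart_source _ (f x))
  set c := chartAt (E n) x
  set c' := chartAt (E n) (f x)
  have hxc : x ∈ c.source := mem_chart_source _ x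
  have hxc' : f x ∈ c'.source := mem_chart_source _ (f x)
  have g1 : (e.symm ≫ₕ c) ∈ orG n := (mem_maximalAtlas_iff.1 he c (chart_mem_atlas _ x)).1
  have g2 : (c'.symm ≫ₕ e') ∈ orG n := (mem_maximalAtlas_iff.1 he' c' (chart_mem_atlas _ (f x))).2
  obtain ⟨⟨a1, a2⟩, -⟩ := mem_orG.1 g1
  obtain ⟨⟨b1, b2⟩, -⟩ := mem_orG.1 g2
  have m1 : e x ∈ (e.symm ≫ₕ c).source := by
    simp only [OpenPartialHomeomorph.trans_source, OpenPartialHomeomorph.symm_source, mem_inter_iff, mem_preimage]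
    exact ⟨e.map_source hx, by rw [e.left_inv hx]; exact hxc⟩
  have m2 : c' (f x) ∈ (c'.symm ≫ₕ e').source := by
    simp only [OpenPartialHomeomorph.trans_source, OpenPartialHomeomorph.symm_source, mem_inter_iff, mem_preimage]
    exact ⟨c'.map_source hxc', by rw [c'.left_inv hxc']; exact hx'⟩
  have s1 : ContDiffAt ℝ ∞ (e.symm ≫ₕ c) (e x) :=
    (a1 _ m1).contDiffAt ((e.symm ≫ₕ c).open_source.mem_nhds m1)
  have s2 : ContDiffAt ℝ ∞ (c'.symm ≫ₕ e') (c' (f x)) :=
    (b1 _ m2).contDiffAt ((c'.symm ≫ₕ e').open_source.mem_nhds m2)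
  have q1 : (e.symm ≫ₕ c) (e x) = c x := by simp [e.left_inv hx]
  have q2 : (c' ∘ f ∘ c.symm) (c x) = c' (f x) := by simp [c.left_inv hxc]
  have s3 : ContDiffAt ℝ ∞ ((c' ∘ f ∘ c.symm) ∘ (e.symm ≫ₕ c)) (e x) := by
    refine ContDiffAt.comp _ ?_ s1
    rw [q1]; exact hm.1
  have s4 : ContDiffAt ℝ ∞ ((c'.symm ≫ₕ e') ∘ ((c' ∘ f ∘ c.symm) ∘ (e.symm ≫ₕ c))) (e x) := by
    refine ContDiffAt.comp _ ?_ s3
    rw [Function.comp_apply, q1, q2]; exact s2
  have hev : (e' ∘ f ∘ e.symm) =ᶠ[𝓝 (e x)] (c'.symm ≫ₕ e') ∘ ((c' ∘ f ∘ c.symm) ∘ (e.symm ≫ₕ c)) := by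
    have w1 : ∀ᶠ y in 𝓝 (e x), e.symm y ∈ c.source := by
      refine (e.continuousAt_symm (e.map_source hx)).eventually ?_
      rw [e.left_inv hx]
      exact c.open_source.mem_nhds hxc
    have w2 : ∀ᶠ y in 𝓝 (e x), f (e.symm y) ∈ c'.source := by
      have : ContinuousAt (f ∘ e.symm) (e x) := by
        refine ContinuousAt.comp ?_ (e.continuousAt_symm (e.map_source hx))
        rw [e.left_inv hx]; exact h.1
      refine this.eventually ?_
      rw [Function.comp_apply, e.left_inv hx]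
      exact c'.open_source.mem_nhds hxc'
    filter_upwards [w1, w2] with y hy1 hy2
    simp [c.left_inv hy1, c'.left_inv hy2]
  refine ⟨s4.congr_of_eventuallyEq hev, ?_⟩
  rw [hev.fderiv_eq]
  have d1 : DifferentiableAt ℝ (e.symm ≫ₕ c) (e x) := s1.differentiableAt (by simp)
  have d2 : DifferentiableAt ℝ (c' ∘ f ∘ c.symm) ((e.symm ≫ₕ c) (e x)) := by
    rw [q1]; exact hm.1.differentiableAt (by simp)
  have d3 : DifferentiableAt ℝ (c'.symm ≫ₕ e') (((c' ∘ f ∘ c.symm) ∘ (e.symm ≫ₕ c)) (e x)) := by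
    rw [Function.comp_apply, q1, q2]; exact s2.differentiableAt (by simp)
  rw [fderiv_comp _ d3 (d2.comp _ d1), fderiv_comp _ d2 d1, det_comp', det_comp', Function.comp_apply, q1, q2]
  exact mul_pos (b2 _ m2) (mul_pos hm.2 (a2 _ m1))

theorem PDAt.comp [HasGroupoid Y (orG n)] {g : Y → Z} {f : X → Y} {x : X} (hg : PDAt n g (f x))
    (hf : PDAt n f x) : PDAt n (g ∘ f) x := by
  refine ⟨hg.1.comp hf.1, fun e he e' he' hx hx' => ?_⟩
  set c := chartAt (E n) (f x)
  have hc : c ∈ atlas (E n) Y := chart_mem_atlas _ _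
  have hxc : f x ∈ c.source := mem_chart_source _ _
  have a := hf.2 e he c hc hx hxc
  have b := hg.2 c hc e' he' hxc hx'
  have q : (c ∘ f ∘ e.symm) (e x) = c (f x) := by simp [e.left_inv hx]
  have hev : (e' ∘ (g ∘ f) ∘ e.symm) =ᶠ[𝓝 (e x)] (e' ∘ g ∘ c.symm) ∘ (c ∘ f ∘ e.symm) := by
    have w2 : ∀ᶠ y in 𝓝 (e x), f (e.symm y) ∈ c.source := by
      have : ContinuousAt (f ∘ e.symm) (e x) := by
        refine ContinuousAt.comp ?_ (e.continuousAt_symm (e.map_source hx))
        rw [e.left_inv hx]; exact hf.1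
      refine this.eventually ?_
      rw [Function.comp_apply, e.left_inv hx]
      exact c.open_source.mem_nhds hxc
    filter_upwards [w2] with y hy2
    simp [c.left_inv hy2]
  have b1 : ContDiffAt ℝ ∞ (e' ∘ g ∘ c.symm) ((c ∘ f ∘ e.symm) (e x)) := by rw [q]; exact b.1
  refine ⟨(b1.comp _ a.1).congr_of_eventuallyEq hev, ?_⟩
  rw [hev.fderiv_eq, fderiv_comp _ (b1.differentiableAt (by simp)) (a.1.differentiableAt (by simp)), det_comp', q]
  exact mul_pos b.2 a.2

theorem PDAt.congr {f g : X → Y} {x : X} (hf : PDAt n f x) (h : g =ᶠ[𝓝 x] f) : PDAt n g x := by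
  have hfx : g x = f x := h.self_of_nhds
  refine ⟨hf.1.congr h.symm, fun e he e' he' hx hx' => ?_⟩
  rw [hfx] at hx'
  have a := hf.2 e he e' he' hx hx'
  have hev : (e' ∘ g ∘ e.symm) =ᶠ[𝓝 (e x)] (e' ∘ f ∘ e.symm) := by
    have h' : ∀ᶠ z in 𝓝 (e.symm (e x)), g z = f z := by
      rw [e.left_inv hx]; exact h
    have w : ∀ᶠ y in 𝓝 (e x), g (e.symm y) = f (e.symm y) :=
      (e.continuousAt_symm (e.map_source hx)).eventually h'
    filter_upwards [w] with y hy
    simp [hy]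
  exact ⟨a.1.congr_of_eventuallyEq hev, by rw [hev.fderiv_eq]; exact a.2⟩

theorem pdAt_id [HasGroupoid X (orG n)] (x : X) : PDAt n (id : X → X) x := by
  refine ⟨continuousAt_id, fun e he e' he' hx hx' => ?_⟩
  obtain ⟨⟨h1, h2⟩, -⟩ := mem_orG.1 (HasGroupoid.compatible (G := orG n) he he')
  have m1 : e x ∈ (e.symm ≫ₕ e').source := by
    simp only [OpenPartialHomeomorph.trans_source, OpenPartialHomeomorph.symm_source, mem_inter_iff, mem_preimage]
    exact ⟨e.map_source hx, by rw [e.left_inv hx]; exact hx'⟩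
  exact ⟨(h1 _ m1).contDiffAt ((e.symm ≫ₕ e').open_source.mem_nhds m1), h2 _ m1⟩

end pdat

/-! ### Calculus of `PD` -/

section pd

variable {n : ℕ} {X Y Z : Type*} [TopologicalSpace X] [TopologicalSpace Y] [TopologicalSpace Z]
  [ChartedSpace (E n) X] [ChartedSpace (E n) Y] [ChartedSpace (E n) Z]

theorem PD.refl [HasGroupoid X (orG n)] : PD n (OpenPartialHomeomorph.refl X) :=
  pd_iff.2 fun x _ => pdAt_id x

theorem PD.symm {f : OPH X Y} (h : PD n f) : PD n f.symm := by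
  intro e he e' he'
  have := (orG n).symm (h e' he' e he)
  refine (orG n).mem_of_eqOnSource this ?_
  rw [OpenPartialHomeomorph.trans_symm_eq_symm_trans_symm, OpenPartialHomeomorph.trans_symm_eq_symm_trans_symm,
    OpenPartialHomeomorph.symm_symm, OpenPartialHomeomorph.trans_assoc]

theorem PD.trans [HasGroupoid Y (orG n)] {f : OPH X Y} {g : OPH Y Z} (hf : PD n f) (hg : PD n g) :
    PD n (f.trans g) := by
  rw [pd_iff]
  intro x hx
  rw [OpenPartialHomeomorph.trans_source] at hx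
  exact (hg.pdAt hx.2).comp (hf.pdAt hx.1)

theorem PD.congr {f g : OPH X Y} (hf : PD n f) (hs : g.source ⊆ f.source) (h : ∀ x ∈ g.source, g x = f x) :
    PD n g := by
  rw [pd_iff]
  intro x hx
  exact (hf.pdAt (hs hx)).congr (Filter.eventually_of_mem (g.open_source.mem_nhds hx) h)

theorem PD.restr {f : OPH X Y} (hf : PD n f) (s : Set X) : PD n (f.restr s) := by
  refine hf.congr ?_ fun x _ => rfl
  rw [OpenPartialHomeomorph.restr_source]
  exact inter_subset_left

theorem PD.restrOpen {f : OPH X Y} (hf : PD n f) (s : Set X) (hs : IsOpen s) : PD n (f.restrOpen s hs) := by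
  refine hf.congr ?_ fun x _ => rfl
  rw [OpenPartialHomeomorph.restrOpen_source]
  exact inter_subset_left

/-- `PD` is local. -/
theorem PD.of_local {f : OPH X Y} (h : ∀ x ∈ f.source, ∃ g : OPH X Y, PD n g ∧ x ∈ g.source ∧
    ∀ y ∈ g.source, f y = g y) : PD n f := by
  rw [pd_iff]
  intro x hx
  obtain ⟨g, hg, hxg, he⟩ := h x hx
  exact (hg.pdAt hxg).congr (Filter.eventually_of_mem (g.open_source.mem_nhds hxg) he)

/-- Charts are orientation preserving. -/
theorem pd_of_max [HasGroupoid X (orG n)] {e : OPH X (E n)} (he : e ∈ (orG n).maximalAtlas X) : PD n e := by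
  intro c hc c' hc'
  rw [chartedSpaceSelf_atlas] at hc'
  subst hc'
  have h := (mem_maximalAtlas_iff.1 he c hc).2
  simpa using h

theorem pd_chart [HasGroupoid X (orG n)] {e : OPH X (E n)} (he : e ∈ atlas (E n) X) : PD n e :=
  pd_of_max ((orG n).subset_maximalAtlas he)

theorem max_of_pd [HasGroupoid X (orG n)] {e : OPH X (E n)} (he : PD n e) : e ∈ (orG n).maximalAtlas X := by
  rw [mem_maximalAtlas_iff]
  intro c hc
  have h := he c hc (OpenPartialHomeomorph.refl (E n)) (by simp)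
  have h' : c.symm ≫ₕ e ∈ orG n := by simpa using h
  refine ⟨?_, h'⟩
  have := (orG n).symm h'
  rwa [OpenPartialHomeomorph.trans_symm_eq_symm_trans_symm, OpenPartialHomeomorph.symm_symm] at this

theorem pd_model {f : OPH (E n) (E n)} : PD n f ↔ f ∈ orG n := by
  constructor
  · intro h
    have := h (OpenPartialHomeomorph.refl (E n)) (by simp) (OpenPartialHomeomorph.refl (E n)) (by simp)
    simpa using this
  · intro h e he e' he'
    rw [chartedSpaceSelf_atlas] at he he'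
    subst he he'
    simpa using h

/-- Constructor in the model space. -/
theorem pd_model_of {f : OPH (E n) (E n)} (h1 : ContDiffOn ℝ ∞ f f.source)
    (h2 : ∀ x ∈ f.source, 0 < (fderiv ℝ f x).det) : PD n f := pd_model.2 (mem_orG_of h1 h2)

theorem iso_iff {M N : OMan n} : M.Iso N ↔ ∃ h : M ≃ₜ N, PD n h.toOpenPartialHomeomorph := by
  constructor
  · rintro ⟨s⟩
    exact ⟨s.toHomeomorph, fun e he e' he' => s.mem_groupoid e e' he he'⟩
  · rintro ⟨h, hh⟩
    exact ⟨{ h with mem_groupoid := fun e e' he he' => hh e he e' he' }⟩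

theorem OMan.Iso.refl (M : OMan n) : M.Iso M := iso_iff.2 ⟨Homeomorph.refl _, PD.refl⟩

theorem OMan.Iso.symm {M N : OMan n} (h : M.Iso N) : N.Iso M := by
  obtain ⟨f, hf⟩ := iso_iff.1 h
  exact iso_iff.2 ⟨f.symm, hf.symm⟩

theorem OMan.Iso.trans {M N K : OMan n} (h : M.Iso N) (h' : N.Iso K) : M.Iso K := by
  obtain ⟨f, hf⟩ := iso_iff.1 h
  obtain ⟨g, hg⟩ := iso_iff.1 h'
  refine iso_iff.2 ⟨f.trans g, ?_⟩
  refine (hf.trans hg).congr ?_ fun x _ => rfl
  simp

end pd

end Pool.Agent.CSM
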