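import Pool.Agent.CSM.DGeo
import Pool.Agent.CSM.Inv

/-!
Project CSM, chunk D, module DCS: connected sums and transports.
-/

open scoped Topology
open Set

namespace Pool.Agent.CSM.D

section basic

variable {M N X : Type} [TopologicalSpace M] [TopologicalSpace N] [TopologicalSpace X] {n : ℕ}
  [ChartedSpace (E n) M] [ChartedSpace (E n) N] [ChartedSpace (E n) X] {i : OPH (E n) M} {j : OPH (E n) N}
  {φ : OPH M X} {ψ : OPH N X}

theorem inv_ne {v : E n} (hv : v ≠ 0) : inv n v ≠ 0 := by
  intro h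
  have h2 := inv_inv' n v
  rw [h] at h2
  apply hv
  rw [← h2]
  ext i
  simp [inv]

theorem cs_sub_left (h : IsCS n i j φ ψ) : i '' {0}ᶜ ⊆ φ.source := by
  rw [h.sφ, ← disc_inter h.si]
  exact inter_subset_left

theorem cs_sub_right (h : IsCS n i j φ ψ) : j '' {0}ᶜ ⊆ ψ.source := by
  rw [h.sψ, ← disc_inter h.sj]
  exact inter_subset_left

theorem cs_inter_right (h : IsCS n i j φ ψ) : φ.target ∩ ψ.target = ψ '' (j '' {0}ᶜ) := by
  rw [h.inter]
  ext x
  constructor
  · rintro ⟨_, ⟨v, hv, rfl⟩, rfl⟩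
    exact ⟨j (inv n v), ⟨inv n v, inv_ne hv, rfl⟩, (h.glue v hv).symm⟩
  · rintro ⟨_, ⟨v, hv, rfl⟩, rfl⟩
    refine ⟨i (inv n v), ⟨inv n v, inv_ne hv, rfl⟩, ?_⟩
    rw [h.glue _ (inv_ne hv), inv_inv']

theorem cs_neck (hn : 2 ≤ n) (h : IsCS n i j φ ψ) : IsPathConnected (φ.target ∩ ψ.target) := by
  rw [h.inter]
  exact (isPathConnected_neck hn h.si).image' (φ.continuousOn.mono (cs_sub_left h))

/-- paths in the target of a chart are images of paths in the source -/
theorem isP_symm {X Y : Type} [TopologicalSpace X] [TopologicalSpace Y] (e : OPH X Y) {c : ℝ → Y}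
    (hc : IsP e.target c) : IsP e.source (fun t => e.symm (c t)) :=
  hc.comp e.symm.continuousOn (fun _ hp => e.map_target hp)

theorem isP_symm' {X Y : Type} [TopologicalSpace X] [TopologicalSpace Y] (e : OPH X Y) {U : Set X}
    (hU : U ⊆ e.source) {c : ℝ → Y} (hc : IsP (e '' U) c) : IsP U (fun t => e.symm (c t)) := by
  refine hc.comp (e.symm.continuousOn.mono ?_) ?_
  · rintro _ ⟨x, hx, rfl⟩
    exact e.map_source (hU hx)
  · rintro _ ⟨x, hx, rfl⟩
    rw [e.left_inv (hU hx)]
    exact hx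

/-- Gluing of transports on a connected sum. -/
theorem cs_glue (h : IsCS n i j φ ψ) {H : Type} [Group H] (u : Hol ({i 0}ᶜ : Set M) H)
    (v : Hol ({j 0}ᶜ : Set N) H) (hu : ∀ c, IsP (i '' {0}ᶜ) c → u c = 1) (hv : ∀ c, IsP (j '' {0}ᶜ) c → v c = 1) :
    ∃ r : Hol (univ : Set X) H, (∀ c, IsP ({i 0}ᶜ : Set M) c → r (fun t => φ (c t)) = u c) ∧
      ∀ c, IsP ({j 0}ᶜ : Set N) c → r (fun t => ψ (c t)) = v c := by
  obtain ⟨w, hw1, hw2⟩ := exists_glue φ.open_target ψ.open_target
    (u.pull φ.symm φ.symm.continuousOn (fun p hp => by rw [← h.sφ]; exact φ.map_target hp))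
    (v.pull ψ.symm ψ.symm.continuousOn (fun p hp => by rw [← h.sψ]; exact ψ.map_target hp)) (by
      intro c hc
      rw [Hol.pull_apply, Hol.pull_apply, hu _ ?_, hv _ ?_]
      · refine isP_symm' ψ (cs_sub_right h) ?_
        rw [← cs_inter_right h]
        exact hc
      · refine isP_symm' φ (cs_sub_left h) ?_
        rw [← h.inter]
        exact hc)
  have hw' : ∃ w' : Hol (univ : Set X) H, ∀ c, w' c = w c := by
    rw [← h.cover]
    exact ⟨w, fun c => rfl⟩
  obtain ⟨w', hw'⟩ := hw'
  refine ⟨w', ?_, ?_⟩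
  · intro c hc
    rw [← h.sφ] at hc
    rw [hw', hw1 _ (hc.comp φ.continuousOn (fun p hp => φ.map_source hp)), Hol.pull_apply]
    exact u.congr fun t ht => φ.left_inv (hc.2 t ht)
  · intro c hc
    rw [← h.sψ] at hc
    rw [hw', hw2 _ (hc.comp ψ.continuousOn (fun p hp => ψ.map_source hp)), Hol.pull_apply]
    exact v.congr fun t ht => ψ.left_inv (hc.2 t ht)

omit [ChartedSpace (E n) M] in
/-- A gauge which makes a transport trivial on a disc, with value one at a given point. -/
theorem exists_normal {i : OPH (E n) M} (si : i.source = univ) {H : Type} [Group H] (w : Hol (univ : Set M) H)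
    (b : M) : ∃ k : M → H, k b = 1 ∧ ∀ c, IsP i.target c → k (c 1) * w c * (k (c 0))⁻¹ = 1 := by
  classical
  obtain ⟨f, hf⟩ := trivHol_disc si H (w.mono (subset_univ _))
  refine ⟨fun x => f b * (f x)⁻¹, by simp, fun c hc => ?_⟩
  have h1 := hf c hc
  rw [Hol.mono_apply] at h1
  rw [h1]
  group

end basic

section universal

/-- The transport of a connected sum with values in the free product of the fundamental groups; it is universal. -/
theorem cs_universal {n : ℕ} (hn : 3 ≤ n) {M N X : Type} [TopologicalSpace M] [TopologicalSpace N]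
    [TopologicalSpace X] [ChartedSpace (E n) M] [ChartedSpace (E n) N] [ChartedSpace (E n) X] [T2Space M]
    [T2Space N] [ConnectedSpace M] [ConnectedSpace N] [LocallyPathConnectedSpace M] [LocallyPathConnectedSpace N]
    {i : OPH (E n) M} {j : OPH (E n) N} {φ : OPH M X} {ψ : OPH N X} (h : IsCS n i j φ ψ) {b : M} (hb : b ≠ i 0)
    {y : N} (hy : y ≠ j 0) {uM : Hol (univ : Set M) (FundamentalGroup M b)} (huM : IsTaut b uM)
    {uN : Hol (univ : Set N) (FundamentalGroup N y)} (huN : IsTaut y uN) :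
    ∃ r : Hol (univ : Set X) (Monoid.Coprod (FundamentalGroup M b) (FundamentalGroup N y)),
      (∀ c, IsP ({i 0}ᶜ : Set M) c → c 0 = b → c 1 = b → r (fun t => φ (c t)) = Monoid.Coprod.inl (uM c)) ∧
      (∀ c, IsP ({j 0}ᶜ : Set N) c → c 0 = y → c 1 = y → r (fun t => ψ (c t)) = Monoid.Coprod.inr (uN c)) ∧
      ∀ (H : Type) [Group H] (w : Hol (univ : Set X) H),
        ∃ (σ : Monoid.Coprod (FundamentalGroup M b) (FundamentalGroup N y) →* H) (k : X → H),
          ∀ c, IsP univ c → w c = k (c 1) * σ (r c) * (k (c 0))⁻¹ := by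
  classical
  obtain ⟨k1, hk1, hk1'⟩ := exists_normal h.si uM b
  obtain ⟨k2, hk2, hk2'⟩ := exists_normal h.sj uN y
  set UM := (uM.gauge k1).mono (subset_univ ({i 0}ᶜ : Set M)) with hUM
  set UN := (uN.gauge k2).mono (subset_univ ({j 0}ᶜ : Set N)) with hUN
  have hdi : i '' {0}ᶜ ⊆ i.target := by
    rw [← disc_inter h.si]
    exact inter_subset_right
  have hdj : j '' {0}ᶜ ⊆ j.target := by
    rw [← disc_inter h.sj]
    exact inter_subset_right
  have tM : ∀ c, IsP (i '' {0}ᶜ) c → UM c = 1 := fun c hc => hk1' c (hc.mono hdi)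
  have tN : ∀ c, IsP (j '' {0}ᶜ) c → UN c = 1 := fun c hc => hk2' c (hc.mono hdj)
  obtain ⟨r, hr1, hr2⟩ := cs_glue h
    (UM.map (Monoid.Coprod.inl : FundamentalGroup M b →* Monoid.Coprod (FundamentalGroup M b) (FundamentalGroup N y)))
    (UN.map (Monoid.Coprod.inr : FundamentalGroup N y →* Monoid.Coprod (FundamentalGroup M b) (FundamentalGroup N y)))
    (fun c hc => by rw [Hol.map_apply, tM c hc, map_one]) (fun c hc => by rw [Hol.map_apply, tN c hc, map_one])
  refine ⟨r, ?_, ?_, ?_⟩
  · intro c hc h0 h1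
    rw [hr1 c hc, Hol.map_apply, hUM, Hol.mono_apply, Hol.gauge_apply, h0, h1, hk1, one_mul, inv_one, mul_one]
  · intro c hc h0 h1
    rw [hr2 c hc, Hol.map_apply, hUN, Hol.mono_apply, Hol.gauge_apply, h0, h1, hk2, one_mul, inv_one, mul_one]
  · intro H _ w
    -- the two homomorphisms
    have sφ := h.sφ
    have sψ := h.sψ
    obtain ⟨m1, hm1⟩ := (ext_point hn h.si).ex H
      (w.pull (V := ({i 0}ᶜ : Set M)) φ (by rw [← sφ]; exact φ.continuousOn) (mapsTo_univ _ _))
    obtain ⟨m2, hm2⟩ := (ext_point hn h.sj).ex H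
      (w.pull (V := ({j 0}ᶜ : Set N)) ψ (by rw [← sψ]; exact ψ.continuousOn) (mapsTo_univ _ _))
    set σ1 := homOf m1 b with hσ1
    set σ2 := homOf m2 y with hσ2
    have bφ : b ∈ φ.source := by rw [sφ]; exact hb
    have yψ : y ∈ ψ.source := by rw [sψ]; exact hy
    have pφ : IsPathConnected φ.target := by
      rw [← φ.image_source_eq_target]
      refine IsPathConnected.image' ?_ φ.continuousOn
      rw [sφ]
      exact isPathConnected_compl_point (by omega) h.si
    have pψ : IsPathConnected ψ.target := by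
      rw [← ψ.image_source_eq_target]
      refine IsPathConnected.image' ?_ ψ.continuousOn
      rw [sψ]
      exact isPathConnected_compl_point (by omega) h.sj
    -- the first part
    set R1 : Hol φ.target H := (UM.map σ1).pull φ.symm φ.symm.continuousOn
      (fun p hp => by rw [← sφ]; exact φ.map_target hp) with hR1
    set R2 : Hol ψ.target H := (UN.map σ2).pull ψ.symm ψ.symm.continuousOn
      (fun p hp => by rw [← sψ]; exact ψ.map_target hp) with hR2
    have a1 : AgreeAt φ.target (φ b) R1 w := by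
      intro c hc h0 h1
      have hc' := isP_symm φ hc
      have e0 : φ.symm (c 0) = b := by rw [h0, φ.left_inv bφ]
      have e1 : φ.symm (c 1) = b := by rw [h1, φ.left_inv bφ]
      rw [hR1, Hol.pull_apply, Hol.map_apply, hUM, Hol.mono_apply, Hol.gauge_apply, e0, e1, hk1,
        huM.loop _ hc'.1 e0 e1, one_mul, inv_one, mul_one, hσ1, homOf_lcls, hm1 _ (by rw [← sφ]; exact hc'),
        Hol.pull_apply]
      exact w.congr fun t ht => φ.right_inv (hc.2 t ht)
    have a2 : AgreeAt ψ.target (ψ y) R2 w := by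
      intro c hc h0 h1
      have hc' := isP_symm ψ hc
      have e0 : ψ.symm (c 0) = y := by rw [h0, ψ.left_inv yψ]
      have e1 : ψ.symm (c 1) = y := by rw [h1, ψ.left_inv yψ]
      rw [hR2, Hol.pull_apply, Hol.map_apply, hUN, Hol.mono_apply, Hol.gauge_apply, e0, e1, hk2,
        huN.loop _ hc'.1 e0 e1, one_mul, inv_one, mul_one, hσ2, homOf_lcls, hm2 _ (by rw [← sψ]; exact hc'),
        Hol.pull_apply]
      exact w.congr fun t ht => ψ.right_inv (hc.2 t ht)
    obtain ⟨l1, -, -, hl1⟩ := exists_gauge_of_agree pφ subset_rfl (subset_univ _) (φ.map_source bφ) R1 w a1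
    obtain ⟨l2, -, -, hl2⟩ := exists_gauge_of_agree pψ subset_rfl (subset_univ _) (ψ.map_source yψ) R2 w a2
    -- on the neck
    have hR1n : ∀ c, IsP (φ.target ∩ ψ.target) c → R1 c = 1 := by
      intro c hc
      rw [hR1, Hol.pull_apply, Hol.map_apply, tM _ ?_, map_one]
      refine isP_symm' φ (cs_sub_left h) ?_
      rw [← h.inter]
      exact hc
    have hR2n : ∀ c, IsP (φ.target ∩ ψ.target) c → R2 c = 1 := by
      intro c hc
      rw [hR2, Hol.pull_apply, Hol.map_apply, tN _ ?_, map_one]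
      refine isP_symm' ψ (cs_sub_right h) ?_
      rw [← cs_inter_right h]
      exact hc
    have pI := cs_neck (by omega) h
    obtain ⟨x0, hx0⟩ := pI.nonempty
    set z : H := (l2 x0)⁻¹ * l1 x0 with hz
    have hl : ∀ x ∈ φ.target ∩ ψ.target, l1 x = l2 x * z := by
      intro x hx
      obtain ⟨c, hc, h0, h1⟩ := exists_isP pI hx0 hx
      have e1 := hl1 c (hc.mono inter_subset_left)
      have e2 := hl2 c (hc.mono inter_subset_right)
      rw [hR1n c hc, h0, h1] at e1
      rw [hR2n c hc, h0, h1, e1] at e2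
      rw [hz]
      calc l1 x = (l1 x * 1 * (l1 x0)⁻¹) * l1 x0 := by group
        _ = (l2 x * 1 * (l2 x0)⁻¹) * l1 x0 := by rw [e2]
        _ = _ := by group
    set σ : Monoid.Coprod (FundamentalGroup M b) (FundamentalGroup N y) →* H :=
      Monoid.Coprod.lift σ1 ((MulAut.conj z⁻¹).toMonoidHom.comp σ2) with hσ
    set k : X → H := fun x => if x ∈ φ.target then l1 x else l2 x * z with hk
    have kφ : ∀ x ∈ φ.target, k x = l1 x := fun x hx => if_pos hx
    have kψ : ∀ x ∈ ψ.target, k x = l2 x * z := by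
      intro x hx
      by_cases hxφ : x ∈ φ.target
      · rw [kφ x hxφ, hl x ⟨hxφ, hx⟩]
      · exact if_neg hxφ
    refine ⟨σ, k, ?_⟩
    have hcov : univ ⊆ φ.target ∪ ψ.target := by rw [h.cover]
    have hcov' : φ.target ∪ ψ.target ⊆ (univ : Set X) := subset_univ _
    have hg := glue_unique φ.open_target ψ.open_target (w.mono hcov') (((r.map σ).gauge k).mono hcov') ?_ ?_
    · intro c hc
      exact hg c (hc.mono hcov)
    · intro c hc
      rw [Hol.mono_apply, Hol.mono_apply, Hol.gauge_apply, Hol.map_apply, kφ _ hc.zero_mem, kφ _ hc.one_mem,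
        hl1 c hc]
      have hc' := isP_symm φ hc
      rw [sφ] at hc'
      have e1 := hr1 _ hc'
      rw [r.congr (c := c) (c' := fun t => φ (φ.symm (c t))) (fun t ht => (φ.right_inv (hc.2 t ht)).symm), e1,
        Hol.map_apply, hσ, Monoid.Coprod.lift_apply_inl, hR1, Hol.pull_apply, Hol.map_apply]
    · intro c hc
      rw [Hol.mono_apply, Hol.mono_apply, Hol.gauge_apply, Hol.map_apply, kψ _ hc.zero_mem, kψ _ hc.one_mem,
        hl2 c hc]
      have hc' := isP_symm ψ hc
      rw [sψ] at hc'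
      have e1 := hr2 _ hc'
      rw [r.congr (c := c) (c' := fun t => ψ (ψ.symm (c t))) (fun t ht => (ψ.right_inv (hc.2 t ht)).symm), e1,
        Hol.map_apply, hσ, Monoid.Coprod.lift_apply_inr, hR2, Hol.pull_apply, Hol.map_apply]
      simp only [MonoidHom.comp_apply, MulEquiv.coe_toMonoidHom, MulAut.conj_apply]
      group

end universal

end Pool.Agent.CSM.D
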