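import Pool.Agent.CSM.Defs2

/-!
Project CSM, chunk D: nonabelian singular 1-cocycles (Hols).

A `Hol U H` is a function on the paths `c : ℝ → X` (only `c|[0,1]` matters) with values in the group `H`; for paths
in `U` it is the transport along the path from `c 0` to `c 1`, first `c` then `c'` has the value `w c' * w c`. The only
axiom is the cocycle rule for singular triangles in `U`.
-/

open scoped Topology
open Set

namespace Pool.Agent.CSM.D

/-- The standard triangle. -/
def Tri : Set (ℝ × ℝ) := {p | 0 ≤ p.1 ∧ 0 ≤ p.2 ∧ p.1 + p.2 ≤ 1}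

section IsP

variable {X Y : Type} [TopologicalSpace X] [TopologicalSpace Y]

/-- `c`, restricted to `[0,1]`, is a path in `U`. -/
def IsP (U : Set X) (c : ℝ → X) : Prop := ContinuousOn c (Icc 0 1) ∧ ∀ t ∈ Icc (0 : ℝ) 1, c t ∈ U

theorem IsP.mono {U V : Set X} (h : U ⊆ V) {c : ℝ → X} (hc : IsP U c) : IsP V c :=
  ⟨hc.1, fun t ht => h (hc.2 t ht)⟩

theorem IsP.comp {U : Set X} {V : Set Y} {f : X → Y} (hf : ContinuousOn f U) (hm : MapsTo f U V) {c : ℝ → X}
    (hc : IsP U c) : IsP V (fun t => f (c t)) :=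
  ⟨hf.comp hc.1 fun t ht => hc.2 t ht, fun t ht => hm (hc.2 t ht)⟩

theorem IsP.zero_mem {U : Set X} {c : ℝ → X} (hc : IsP U c) : c 0 ∈ U := hc.2 0 (by simp)

theorem IsP.one_mem {U : Set X} {c : ℝ → X} (hc : IsP U c) : c 1 ∈ U := hc.2 1 (by simp)

theorem IsP.const {U : Set X} {x : X} (hx : x ∈ U) : IsP U (fun _ => x) := ⟨continuousOn_const, fun _ _ => hx⟩

theorem isP_of_continuous {U : Set X} {c : ℝ → X} (hc : Continuous c) (h : ∀ t, c t ∈ U) : IsP U c :=
  ⟨hc.continuousOn, fun t _ => h t⟩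

/-- The reversed path. -/
def rev (c : ℝ → X) : ℝ → X := fun t => c (1 - t)

omit [TopologicalSpace X] in
@[simp] theorem rev_zero (c : ℝ → X) : rev c 0 = c 1 := by simp [rev]

omit [TopologicalSpace X] in
@[simp] theorem rev_one (c : ℝ → X) : rev c 1 = c 0 := by simp [rev]

/-- First `c`, then `c'`. -/
noncomputable def cat (c c' : ℝ → X) : ℝ → X := fun t => if t ≤ 1 / 2 then c (2 * t) else c' (2 * t - 1)

omit [TopologicalSpace X] in
@[simp] theorem cat_zero (c c' : ℝ → X) : cat c c' 0 = c 0 := by simp [cat]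

omit [TopologicalSpace X] in
@[simp] theorem cat_one (c c' : ℝ → X) : cat c c' 1 = c' 1 := by norm_num [cat]

theorem IsP.rev {U : Set X} {c : ℝ → X} (hc : IsP U c) : IsP U (rev c) := by
  refine ⟨hc.1.comp (by fun_prop) fun t ht => ?_, fun t ht => hc.2 _ ?_⟩
  · exact ⟨by linarith [ht.2], by linarith [ht.1]⟩
  · exact ⟨by linarith [ht.2], by linarith [ht.1]⟩

theorem IsP.cat {U : Set X} {c c' : ℝ → X} (hc : IsP U c) (hc' : IsP U c') (h : c 1 = c' 0) :
    IsP U (cat c c') := by
  constructor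
  · have h1 : ContinuousOn (fun t : ℝ => c (2 * t)) (Icc 0 (1 / 2)) :=
      hc.1.comp (by fun_prop) fun t ht => ⟨by linarith [ht.1], by linarith [ht.2]⟩
    have h2 : ContinuousOn (fun t : ℝ => c' (2 * t - 1)) (Icc (1 / 2) 1) :=
      hc'.1.comp (by fun_prop) fun t ht => ⟨by linarith [ht.1], by linarith [ht.2]⟩
    have h3 : ContinuousOn (D.cat c c') (Icc 0 (1 / 2)) := by
      refine h1.congr fun t ht => ?_
      simp only [D.cat, if_pos ht.2]
    have h4 : ContinuousOn (D.cat c c') (Icc (1 / 2) 1) := by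
      refine h2.congr fun t ht => ?_
      by_cases h5 : t ≤ 1 / 2
      · have h6 : t = 1 / 2 := le_antisymm h5 ht.1
        subst h6
        simp only [D.cat, if_pos h5]
        norm_num
        exact h
      · simp only [D.cat, if_neg h5]
    have h5 : Icc (0 : ℝ) 1 = Icc 0 (1 / 2) ∪ Icc (1 / 2) 1 := by
      rw [Icc_union_Icc_eq_Icc] <;> norm_num
    rw [h5]
    exact h3.union_of_isClosed h4 isClosed_Icc isClosed_Icc
  · intro t ht
    by_cases h5 : t ≤ 1 / 2
    · simp only [D.cat, if_pos h5]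
      exact hc.2 _ ⟨by linarith [ht.1], by linarith⟩
    · simp only [D.cat, if_neg h5]
      exact hc'.2 _ ⟨by linarith, by linarith [ht.2]⟩

theorem IsP.seg {U : Set X} {c : ℝ → X} (hc : IsP U c) {a b : ℝ} (ha : a ∈ Icc (0 : ℝ) 1) (hb : b ∈ Icc (0 : ℝ) 1) :
    IsP U (fun t => c ((1 - t) * a + t * b)) := by
  have h : ∀ t ∈ Icc (0 : ℝ) 1, (1 - t) * a + t * b ∈ Icc (0 : ℝ) 1 := by
    intro t ht
    have h1 := ht.1
    have h2 := ht.2
    exact ⟨by nlinarith [ha.1, hb.1], by nlinarith [ha.2, hb.2]⟩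
  exact ⟨hc.1.comp (by fun_prop) h, fun t ht => hc.2 _ (h t ht)⟩

theorem exists_isP_of_joinedIn {U : Set X} {x y : X} (h : JoinedIn U x y) :
    ∃ c : ℝ → X, Continuous c ∧ (∀ t, c t ∈ U) ∧ c 0 = x ∧ c 1 = y := by
  obtain ⟨p, hp⟩ := h
  refine ⟨p.extend, p.continuous_extend, fun t => ?_, by simp, by simp⟩
  rw [Path.extend]
  exact hp _

theorem exists_isP {U : Set X} (h : IsPathConnected U) {x y : X} (hx : x ∈ U) (hy : y ∈ U) :
    ∃ c : ℝ → X, IsP U c ∧ c 0 = x ∧ c 1 = y := by
  obtain ⟨c, h1, h2, h3, h4⟩ := exists_isP_of_joinedIn (h.joinedIn x hx y hy)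
  exact ⟨c, isP_of_continuous h1 h2, h3, h4⟩

end IsP

/-- A transport on the paths in `U` with values in the group `H`. -/
structure Hol {X : Type} [TopologicalSpace X] (U : Set X) (H : Type) [Group H] where
  w : (ℝ → X) → H
  congr' : ∀ c c' : ℝ → X, (∀ t ∈ Icc (0 : ℝ) 1, c t = c' t) → w c = w c'
  tri' : ∀ F : ℝ × ℝ → X, ContinuousOn F Tri → MapsTo F Tri U →
    w (fun t => F (1 - t, t)) * w (fun t => F (t, 0)) = w (fun t => F (0, t))

namespace Hol

variable {X Y : Type} [TopologicalSpace X] [TopologicalSpace Y] {H K : Type} [Group H] [Group K]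

instance {U : Set X} : CoeFun (Hol U H) (fun _ => (ℝ → X) → H) := ⟨Hol.w⟩

theorem congr {U : Set X} (w : Hol U H) {c c' : ℝ → X} (h : ∀ t ∈ Icc (0 : ℝ) 1, c t = c' t) : w c = w c' :=
  w.congr' c c' h

/-- The cocycle rule for three points of a convex set. -/
theorem seg {U : Set X} (w : Hol U H) {V : Type} [AddCommGroup V] [Module ℝ V] [TopologicalSpace V]
    [ContinuousAdd V] [ContinuousSMul ℝ V] {K : Set V} (hK : Convex ℝ K) {F : V → X} (hF : ContinuousOn F K)
    (hm : MapsTo F K U) {x y z : V} (hx : x ∈ K) (hy : y ∈ K) (hz : z ∈ K) :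
    w (fun t => F ((1 - t) • y + t • z)) * w (fun t => F ((1 - t) • x + t • y)) =
      w (fun t => F ((1 - t) • x + t • z)) := by
  have hmem : ∀ p ∈ Tri, (1 - p.1 - p.2) • x + p.1 • y + p.2 • z ∈ K := by
    intro p hp
    have h := hK.sum_mem (t := (Finset.univ : Finset (Fin 3))) (w := ![1 - p.1 - p.2, p.1, p.2]) (z := ![x, y, z])
      (by
        intro i _
        fin_cases i
        · simp only [Fin.zero_eta, Matrix.cons_val_zero]
          linarith [hp.2.2]
        · exact hp.1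
        · exact hp.2.1)
      (by
        simp only [Fin.sum_univ_three, Matrix.cons_val_zero, Matrix.cons_val_one, Matrix.cons_val]
        ring)
      (by
        intro i _
        fin_cases i
        · exact hx
        · exact hy
        · exact hz)
    simpa [Fin.sum_univ_three] using h
  have hG : ContinuousOn (fun p : ℝ × ℝ => F ((1 - p.1 - p.2) • x + p.1 • y + p.2 • z)) Tri :=
    hF.comp (by fun_prop) hmem
  have h := w.tri' (fun p : ℝ × ℝ => F ((1 - p.1 - p.2) • x + p.1 • y + p.2 • z)) hG fun p hp => hm (hmem p hp)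
  have e1 : (fun t : ℝ => F ((1 - (1 - t, t).1 - (1 - t, t).2) • x + (1 - t, t).1 • y + (1 - t, t).2 • z)) =
      fun t => F ((1 - t) • y + t • z) := by
    funext t
    simp
  have e2 : (fun t : ℝ => F ((1 - (t, (0 : ℝ)).1 - (t, (0 : ℝ)).2) • x + (t, (0 : ℝ)).1 • y + (t, (0 : ℝ)).2 • z)) =
      fun t => F ((1 - t) • x + t • y) := by
    funext t
    simp
  have e3 : (fun t : ℝ => F ((1 - ((0 : ℝ), t).1 - ((0 : ℝ), t).2) • x + ((0 : ℝ), t).1 • y + ((0 : ℝ), t).2 • z)) =
      fun t => F ((1 - t) • x + t • z) := by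
    funext t
    simp
  rw [e1, e2, e3] at h
  exact h

/-- The cocycle rule for three points of a path. -/
theorem seg' {U : Set X} (w : Hol U H) {c : ℝ → X} (hc : IsP U c) {x y z : ℝ} (hx : x ∈ Icc (0 : ℝ) 1)
    (hy : y ∈ Icc (0 : ℝ) 1) (hz : z ∈ Icc (0 : ℝ) 1) :
    w (fun t => c ((1 - t) * y + t * z)) * w (fun t => c ((1 - t) * x + t * y)) =
      w (fun t => c ((1 - t) * x + t * z)) := by
  have h := w.seg (convex_Icc (0 : ℝ) 1) hc.1 (fun t ht => hc.2 t ht) hx hy hz
  simpa [smul_eq_mul] using h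

theorem const {U : Set X} (w : Hol U H) {x : X} (hx : x ∈ U) : w (fun _ => x) = 1 := by
  have h := w.tri' (fun _ => x) continuousOn_const fun _ _ => hx
  simpa using h

theorem rev {U : Set X} (w : Hol U H) {c : ℝ → X} (hc : IsP U c) : w (rev c) = (w c)⁻¹ := by
  have h := w.seg' hc (x := 0) (y := 1) (z := 0) (by simp) (by simp) (by simp)
  have e1 : (fun t : ℝ => c ((1 - t) * 1 + t * 0)) = D.rev c := by
    funext t
    simp [D.rev]
  have e2 : (fun t : ℝ => c ((1 - t) * 0 + t * 1)) = c := by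
    funext t
    simp
  have e3 : (fun t : ℝ => c ((1 - t) * 0 + t * 0)) = fun _ => c 0 := by
    funext t
    simp
  rw [e1, e2, e3, w.const hc.zero_mem] at h
  exact eq_inv_of_mul_eq_one_left h

theorem cat {U : Set X} (w : Hol U H) {c c' : ℝ → X} (hc : IsP U c) (hc' : IsP U c') (h : c 1 = c' 0) :
    w (cat c c') = w c' * w c := by
  have h1 := w.seg' (hc.cat hc' h) (x := 0) (y := 1 / 2) (z := 1) (by simp) (by constructor <;> norm_num) (by simp)
  have e1 : w (fun t : ℝ => D.cat c c' ((1 - t) * (1 / 2) + t * 1)) = w c' := by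
    refine w.congr fun t ht => ?_
    by_cases h2 : (1 - t) * (1 / 2) + t * 1 ≤ 1 / 2
    · have h3 : t = 0 := le_antisymm (by linarith) ht.1
      subst h3
      simp only [D.cat, if_pos h2]
      norm_num
      exact h
    · simp only [D.cat, if_neg h2]
      congr 1
      ring
  have e2 : w (fun t : ℝ => D.cat c c' ((1 - t) * 0 + t * (1 / 2))) = w c := by
    refine w.congr fun t ht => ?_
    have h2 : (1 - t) * 0 + t * (1 / 2) ≤ 1 / 2 := by linarith [ht.2]
    simp only [D.cat, if_pos h2]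
    congr 1
    ring
  have e3 : (fun t : ℝ => D.cat c c' ((1 - t) * 0 + t * 1)) = D.cat c c' := by
    funext t
    simp
  rw [e1, e2, e3] at h1
  exact h1.symm

/-- The rule for a singular square. -/
theorem square {U : Set X} (w : Hol U H) {F : ℝ → ℝ → X}
    (hF : ContinuousOn (fun p : ℝ × ℝ => F p.1 p.2) (Icc 0 1 ×ˢ Icc 0 1))
    (hm : ∀ s ∈ Icc (0 : ℝ) 1, ∀ t ∈ Icc (0 : ℝ) 1, F s t ∈ U) :
    w (fun t => F 1 t) * w (fun s => F s 0) = w (fun s => F s 1) * w (fun t => F 0 t) := by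
  have hK : Convex ℝ (Icc (0 : ℝ) 1 ×ˢ Icc (0 : ℝ) 1) := (convex_Icc 0 1).prod (convex_Icc 0 1)
  have hm' : MapsTo (fun p : ℝ × ℝ => F p.1 p.2) (Icc 0 1 ×ˢ Icc 0 1) U := fun p hp => hm _ hp.1 _ hp.2
  have h1 := w.seg hK hF hm' (x := (0, 0)) (y := (1, 0)) (z := (1, 1)) (by simp) (by simp) (by simp)
  have h2 := w.seg hK hF hm' (x := (0, 0)) (y := (0, 1)) (z := (1, 1)) (by simp) (by simp) (by simp)
  have h3 := h1.trans h2.symm
  simpa using h3

/-- Homotopy with fixed end points. -/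
theorem htpy {U : Set X} (w : Hol U H) {F : ℝ → ℝ → X}
    (hF : ContinuousOn (fun p : ℝ × ℝ => F p.1 p.2) (Icc 0 1 ×ˢ Icc 0 1))
    (hm : ∀ s ∈ Icc (0 : ℝ) 1, ∀ t ∈ Icc (0 : ℝ) 1, F s t ∈ U) {x y : X}
    (h0 : ∀ s ∈ Icc (0 : ℝ) 1, F s 0 = x) (h1 : ∀ s ∈ Icc (0 : ℝ) 1, F s 1 = y) :
    w (fun t => F 1 t) = w (fun t => F 0 t) := by
  have h := w.square hF hm
  have hx : x ∈ U := by
    rw [← h0 0 (by simp)]
    exact hm 0 (by simp) 0 (by simp)
  have hy : y ∈ U := by
    rw [← h1 0 (by simp)]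
    exact hm 0 (by simp) 1 (by simp)
  have e1 : w (fun s => F s 0) = 1 := by
    rw [w.congr (c' := fun _ => x) h0]
    exact w.const hx
  have e2 : w (fun s => F s 1) = 1 := by
    rw [w.congr (c' := fun _ => y) h1]
    exact w.const hy
  rw [e1, e2, mul_one, one_mul] at h
  exact h

/-- Restriction. -/
def mono {U V : Set X} (h : U ⊆ V) (w : Hol V H) : Hol U H where
  w := w.w
  congr' := w.congr'
  tri' F hF hm := w.tri' F hF (hm.mono_right h)

@[simp] theorem mono_apply {U V : Set X} (h : U ⊆ V) (w : Hol V H) (c : ℝ → X) : w.mono h c = w c := rfl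

/-- Composition with a homomorphism. -/
def map {U : Set X} (f : H →* K) (w : Hol U H) : Hol U K where
  w c := f (w.w c)
  congr' c c' h := by rw [w.congr' c c' h]
  tri' F hF hm := by rw [← map_mul, w.tri' F hF hm]

@[simp] theorem map_apply {U : Set X} (f : H →* K) (w : Hol U H) (c : ℝ → X) : w.map f c = f (w c) := rfl

/-- Pull back. -/
def pull {U : Set X} {V : Set Y} (f : Y → X) (hf : ContinuousOn f V) (hm : MapsTo f V U) (w : Hol U H) :
    Hol V H where
  w c := w.w (fun t => f (c t))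
  congr' c c' h := w.congr' _ _ fun t ht => by rw [h t ht]
  tri' F hF hF' := w.tri' (fun p => f (F p)) (hf.comp hF hF') fun p hp => hm (hF' hp)

@[simp] theorem pull_apply {U : Set X} {V : Set Y} (f : Y → X) (hf : ContinuousOn f V) (hm : MapsTo f V U)
    (w : Hol U H) (c : ℝ → Y) : w.pull f hf hm c = w (fun t => f (c t)) := rfl

/-- Change of gauge. -/
def gauge {U : Set X} (k : X → H) (w : Hol U H) : Hol U H where
  w c := k (c 1) * w.w c * (k (c 0))⁻¹
  congr' c c' h := by rw [w.congr' c c' h, h 0 (by simp), h 1 (by simp)]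
  tri' F hF hm := by
    rw [← w.tri' F hF hm]
    norm_num
    group

@[simp] theorem gauge_apply {U : Set X} (k : X → H) (w : Hol U H) (c : ℝ → X) :
    w.gauge k c = k (c 1) * w c * (k (c 0))⁻¹ := rfl

/-- The coboundary of a function. -/
def cob (U : Set X) (f : X → H) : Hol U H where
  w c := f (c 1) * (f (c 0))⁻¹
  congr' c c' h := by rw [h 0 (by simp), h 1 (by simp)]
  tri' F hF hm := by
    norm_num

@[simp] theorem cob_apply (U : Set X) (f : X → H) (c : ℝ → X) : cob U f c = f (c 1) * (f (c 0))⁻¹ := rfl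

end Hol

section defs

variable {X : Type} [TopologicalSpace X]

/-- `w` and `w'` agree on the loops at `b` in `U`. -/
def AgreeAt {H : Type} [Group H] {V V' : Set X} (U : Set X) (b : X) (w : Hol V H) (w' : Hol V' H) : Prop :=
  ∀ c : ℝ → X, IsP U c → c 0 = b → c 1 = b → w c = w' c

/-- Every transport on `U` is a coboundary. -/
def TrivHol (U : Set X) : Prop :=
  ∀ (H : Type) [Group H] (w : Hol U H), ∃ f : X → H, ∀ c : ℝ → X, IsP U c → w c = f (c 1) * (f (c 0))⁻¹

/-- `U ⊆ V` induces an isomorphism of the fundamental groups: every transport on `U` extends to `V`, and two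
transports on `V` which agree on the loops in `U` at some point agree on the loops in `V` at this point. -/
structure Ext (U V : Set X) : Prop where
  sub : U ⊆ V
  ex : ∀ (H : Type) [Group H] (u : Hol U H), ∃ w : Hol V H, ∀ c : ℝ → X, IsP U c → w c = u c
  uniq : ∀ (H : Type) [Group H] (w w' : Hol V H), ∀ b ∈ U, AgreeAt U b w w' → AgreeAt V b w w'

end defs

end Pool.Agent.CSM.D
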