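import Pool.Agent.CSM.DPi
import Pool.Agent.CSM.Core2

/-!
Project CSM, chunk D, module DFree: free homotopies and conjugacy.
-/

open scoped Topology unitInterval
open Set CategoryTheory

namespace Pool.Agent.CSM.D

variable {X : Type} [TopologicalSpace X] {H : Type} [Group H]

theorem freeHtpy_of_square {O : Set X} {c c' : ℝ → X} (hp : ∀ t, c (t + 1) = c t) (hp' : ∀ t, c' (t + 1) = c' t)
    (G : ℝ → ℝ → X) (hG : ContinuousOn (fun p : ℝ × ℝ => G p.1 p.2) (Icc 0 1 ×ˢ Icc 0 1))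
    (hm : ∀ s ∈ Icc (0 : ℝ) 1, ∀ t ∈ Icc (0 : ℝ) 1, G s t ∈ O) (h01 : ∀ s ∈ Icc (0 : ℝ) 1, G s 0 = G s 1)
    (h0 : ∀ t ∈ Icc (0 : ℝ) 1, G 0 t = c t) (h1 : ∀ t ∈ Icc (0 : ℝ) 1, G 1 t = c' t) : FreeHtpy O c c' := by
  set q : ℝ → ℝ := fun s => (projIcc (0 : ℝ) 1 zero_le_one s : ℝ) with hq
  have hqc : Continuous q := continuous_subtype_val.comp continuous_projIcc
  have hqm : ∀ s, q s ∈ Icc (0 : ℝ) 1 := fun s => (projIcc (0 : ℝ) 1 zero_le_one s).2
  have hf : ∀ t : ℝ, Int.fract t ∈ Icc (0 : ℝ) 1 := fun t => ⟨Int.fract_nonneg t, (Int.fract_lt_one t).le⟩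
  have hper : ∀ (d : ℝ → X), (∀ t, d (t + 1) = d t) → ∀ t, d (Int.fract t) = d t := by
    intro d hd t
    have h2 : Function.Periodic d 1 := hd
    have h3 := h2.sub_zsmul_eq (x := t) ⌊t⌋
    rw [Int.fract, ← h3]
    simp
  refine ⟨fun s t => G (q s) (Int.fract t), ?_, ?_, ?_, ?_, ?_⟩
  · have h2 : ContinuousOn (Function.uncurry fun s t => G (q s) t) (univ ×ˢ Icc (0 : ℝ) 1) := by
      refine hG.comp (f := fun p : ℝ × ℝ => (q p.1, p.2)) (by fun_prop) ?_
      intro p hp
      exact ⟨hqm _, hp.2⟩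
    exact h2.comp_fract' fun s => h01 _ (hqm s)
  · intro s t
    simp only [Int.fract_add_one]
  · intro t
    have : q 0 = 0 := by simp [hq]
    simp only [this]
    rw [h0 _ (hf t), hper c hp]
  · intro t
    have : q 1 = 1 := by simp [hq]
    simp only [this]
    rw [h1 _ (hf t), hper c' hp']
  · intro s t
    exact hm _ (hqm s) _ (hf t)

theorem conj_of_freeHtpy {O : Set X} {c c' : ℝ → X} (h : FreeHtpy O c c') (w : Hol O H) :
    ∃ g : H, w c = g * w c' * g⁻¹ := by
  obtain ⟨G, hG, hper, h0, h1, hm⟩ := h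
  have h2 := w.square (F := G) (by
    have : Continuous fun p : ℝ × ℝ => G p.1 p.2 := hG
    exact this.continuousOn) (fun s _ t _ => hm s t)
  have e1 : (fun s => G s 1) = fun s => G s 0 := by
    funext s
    have := hper s 0
    rwa [zero_add] at this
  have e2 : (fun t => G 1 t) = c' := funext h1
  have e3 : (fun t => G 0 t) = c := funext h0
  rw [e1] at h2
  change w (fun t => G 1 t) * w (fun s => G s 0) = w (fun s => G s 0) * w (fun t => G 0 t) at h2
  rw [e2, e3] at h2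
  refine ⟨(w fun s => G s 0)⁻¹, ?_⟩
  rw [mul_assoc, inv_inv, h2]
  group

/-- The properties of the tautological transport. -/
structure IsTaut (b : X) (u : Hol (univ : Set X) (FundamentalGroup X b)) : Prop where
  loop : ∀ (c : ℝ → X) (hc : ContinuousOn c (Icc 0 1)) (h0 : c 0 = b) (h1 : c 1 = b), u c = lcls hc h0 h1
  faithful : ∀ c c' : ℝ → X, ContinuousOn c (Icc 0 1) → ContinuousOn c' (Icc 0 1) → c 0 = c' 0 → c 1 = c' 1 →
    u c = u c' → ∃ G : ℝ → ℝ → X, (Continuous fun p : ℝ × ℝ => G p.1 p.2) ∧ (∀ t ∈ Icc (0 : ℝ) 1, G 0 t = c t) ∧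
      (∀ t ∈ Icc (0 : ℝ) 1, G 1 t = c' t) ∧ (∀ s, G s 0 = c 0) ∧ ∀ s, G s 1 = c 1

theorem exists_isTaut [PathConnectedSpace X] (b : X) :
    ∃ u : Hol (univ : Set X) (FundamentalGroup X b), IsTaut b u := by
  obtain ⟨p, u, hp, hu⟩ := exists_taut b
  refine ⟨u, ?_, ?_⟩
  · intro c hc h0 h1
    rw [hu c hc b b h0 h1, hp]
    change 𝟙 _ ≫ cls hc h0 h1 ≫ Groupoid.inv (𝟙 _) = _
    simp [lcls]
  · intro c c' hc hc' h0 h1 h
    rw [hu c hc (c 0) (c 1) rfl rfl, hu c' hc' (c 0) (c 1) h0.symm h1.symm] at h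
    have h2 : cls hc (x := c 0) (y := c 1) rfl rfl = cls hc' (x := c 0) (y := c 1) h0.symm h1.symm := by
      have h3 := (cancel_epi _).1 h
      exact (cancel_mono _).1 h3
    have h3 : (Path.ofLine hc (x := c 0) (y := c 1) rfl rfl).Homotopic
        (Path.ofLine hc' (x := c 0) (y := c 1) h0.symm h1.symm) := Path.Homotopic.Quotient.exact h2
    obtain ⟨F⟩ := h3
    refine ⟨fun s t => F (projIcc 0 1 zero_le_one s, projIcc 0 1 zero_le_one t), ?_, ?_, ?_, ?_, ?_⟩
    · exact F.continuous.comp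
        ((continuous_projIcc.comp continuous_fst).prodMk (continuous_projIcc.comp continuous_snd))
    · intro t ht
      simp only [projIcc_left]
      have h4 := F.apply_zero (projIcc 0 1 zero_le_one t)
      have h5 : (Path.ofLine hc (x := c 0) (y := c 1) rfl rfl) (projIcc 0 1 zero_le_one t) = c t := by
        change c (projIcc 0 1 zero_le_one t) = c t
        rw [projIcc_of_mem _ ht]
      exact h4.trans h5
    · intro t ht
      simp only [projIcc_right]
      have h4 := F.apply_one (projIcc 0 1 zero_le_one t)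
      have h5 : (Path.ofLine hc' (x := c 0) (y := c 1) h0.symm h1.symm) (projIcc 0 1 zero_le_one t) = c' t := by
        change c' (projIcc 0 1 zero_le_one t) = c' t
        rw [projIcc_of_mem _ ht]
      exact h4.trans h5
    · intro s
      simp only [projIcc_left]
      exact F.source _
    · intro s
      simp only [projIcc_right]
      exact F.target _

/-- The square between `d⁻¹ c d` and `c`. -/
private theorem square_conj {c d : ℝ → X} (hc : ContinuousOn c (Icc 0 1)) (hd : ContinuousOn d (Icc 0 1))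
    (h0 : c 0 = d 0) (h1 : c 1 = d 0) :
    ∃ G : ℝ → ℝ → X, ContinuousOn (fun p : ℝ × ℝ => G p.1 p.2) (Icc 0 1 ×ˢ Icc 0 1) ∧
      (∀ s ∈ Icc (0 : ℝ) 1, G s 0 = G s 1) ∧ (∀ t, G 0 t = cat (cat (rev d) c) d t) ∧
      (∀ t, G 1 t = cat (cat (fun _ => d 0) c) (fun _ => d 0) t) := by
  set q : ℝ → ℝ := fun s => (projIcc (0 : ℝ) 1 zero_le_one s : ℝ) with hq
  have hqc : Continuous q := continuous_subtype_val.comp continuous_projIcc
  have hqm : ∀ s, q s ∈ Icc (0 : ℝ) 1 := fun s => (projIcc (0 : ℝ) 1 zero_le_one s).2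
  have hq0 : ∀ s, s ∈ Icc (0 : ℝ) 1 → q s = s := fun s hs => by
    simp only [hq]
    rw [projIcc_of_mem _ hs]
  have hC : Continuous fun s => c (q s) := hc.comp_continuous hqc hqm
  have hD : Continuous fun s => d (q s) := hd.comp_continuous hqc hqm
  refine ⟨fun s t => if t ≤ 1 / 2 then (if 2 * t ≤ 1 / 2 then d ((1 - s) * (1 - 2 * (2 * t))) else c (2 * (2 * t) - 1))
    else d ((1 - s) * (2 * t - 1)), ?_, ?_, ?_, ?_⟩
  · have hH : Continuous fun p : ℝ × ℝ => if p.2 ≤ 1 / 2 then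
        (if 2 * p.2 ≤ 1 / 2 then d (q ((1 - p.1) * (1 - 2 * (2 * p.2)))) else c (q (2 * (2 * p.2) - 1)))
        else d (q ((1 - p.1) * (2 * p.2 - 1))) := by
      refine Continuous.if_le ?_ (hD.comp (by fun_prop)) (by fun_prop) continuous_const ?_
      · refine Continuous.if_le (hD.comp (by fun_prop)) (hC.comp (by fun_prop)) (by fun_prop) continuous_const ?_
        intro p hp
        rw [hp]
        have e1 : (1 - p.1) * (1 - 2 * (1 / 2)) = 0 := by ring
        have e2 : (2 * (1 / 2) - 1 : ℝ) = 0 := by norm_num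
        rw [e1, e2, hq0 0 (by simp), h0]
      · intro p hp
        rw [hp]
        have e0 : ¬ ((2 : ℝ) * (1 / 2) ≤ 1 / 2) := by norm_num
        rw [if_neg e0]
        have e1 : (1 - p.1) * (2 * (1 / 2) - 1) = 0 := by ring
        have e2 : (2 * (2 * (1 / 2)) - 1 : ℝ) = 1 := by norm_num
        rw [e1, e2, hq0 0 (by simp), hq0 1 (by simp), h1]
    refine hH.continuousOn.congr ?_
    rintro ⟨s, t⟩ ⟨⟨hs0, hs1⟩, ⟨ht0, ht1⟩⟩
    simp only at hs0 hs1 ht0 ht1 ⊢
    by_cases h2 : t ≤ 1 / 2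
    · rw [if_pos h2, if_pos h2]
      by_cases h3 : 2 * t ≤ 1 / 2
      · rw [if_pos h3, if_pos h3, hq0]
        exact ⟨mul_nonneg (by linarith) (by linarith), by nlinarith⟩
      · rw [if_neg h3, if_neg h3, hq0]
        exact ⟨by linarith, by linarith⟩
    · rw [if_neg h2, if_neg h2, hq0]
      exact ⟨mul_nonneg (by linarith) (by linarith), by nlinarith⟩
  · intro s hs
    norm_num
  · intro t
    simp only [cat, rev]
    norm_num
  · intro t
    simp only [cat]
    norm_num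

/-- Loops with conjugate classes are freely homotopic. -/
theorem IsTaut.freeHtpy [PathConnectedSpace X] {b : X} {u : Hol (univ : Set X) (FundamentalGroup X b)}
    (hu : IsTaut b u) {c c' : ℝ → X} (hc : Continuous c) (hc' : Continuous c') (hp : ∀ t, c (t + 1) = c t)
    (hp' : ∀ t, c' (t + 1) = c' t) {g : FundamentalGroup X b} (h : u c = g * u c' * g⁻¹) :
    FreeHtpy univ c c' := by
  have P : ∀ {d : ℝ → X}, ContinuousOn d (Icc 0 1) → IsP univ d := fun hd => ⟨hd, fun _ _ => trivial⟩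
  have c1 : c 1 = c 0 := by simpa using hp 0
  have c1' : c' 1 = c' 0 := by simpa using hp' 0
  -- a path `d` from `c' 0` to `c 0` with `u d = g`
  obtain ⟨e, he, he0, he1⟩ := exists_isP (isPathConnected_univ (X := X)) (x := c' 0) (y := c 0) trivial trivial
  obtain ⟨f, hf, hf0, hf1⟩ := exists_isP (isPathConnected_univ (X := X)) (x := b) (y := c 0) trivial trivial
  obtain ⟨l, hl, hl0, hl1, hlg⟩ := exists_lcls ((u f)⁻¹ * g * (u e)⁻¹ * u f)
  have hul : u l = (u f)⁻¹ * g * (u e)⁻¹ * u f := by rw [hu.loop l hl.continuousOn hl0 hl1, ← hlg]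
  have a1 : rev f 1 = l 0 := by rw [rev_one, hf0, hl0]
  have a2 : cat (rev f) l 1 = f 0 := by rw [cat_one, hl1, hf0]
  have a3 : e 1 = cat (cat (rev f) l) f 0 := by rw [cat_zero, cat_zero, rev_zero, he1, hf1]
  have b1 := hf.rev.cat (P hl.continuousOn) a1
  have b2 := b1.cat hf a2
  set d := cat e (cat (cat (rev f) l) f) with hd
  have b3 : IsP univ d := he.cat b2 a3
  have hud : u d = g := by
    rw [hd, u.cat he b2 a3, u.cat b1 hf a2, u.cat hf.rev (P hl.continuousOn) a1, u.rev hf, hul]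
    group
  have hd0 : d 0 = c' 0 := by rw [hd, cat_zero, he0]
  have hd1 : d 1 = c 0 := by rw [hd, cat_one, cat_one, hf1]
  -- the conjugated loop
  have k1 : rev d 1 = c' 0 := by rw [rev_one, hd0]
  have k2 : cat (rev d) c' 1 = d 0 := by rw [cat_one, c1', hd0]
  have m1 := b3.rev.cat (P hc'.continuousOn) k1
  have m2 : IsP univ (cat (cat (rev d) c') d) := m1.cat b3 k2
  have hL : u (cat (cat (rev d) c') d) = u c := by
    rw [u.cat m1 b3 k2, u.cat b3.rev (P hc'.continuousOn) k1, u.rev b3, hud, h]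
    group
  -- the periodic extensions
  have hper : ∀ (d : ℝ → X), ∀ t, d (Int.fract (t + 1)) = d (Int.fract t) := fun d t => by
    rw [Int.fract_add_one]
  have hfr : ∀ (d : ℝ → X), d 0 = d 1 → ∀ t ∈ Icc (0 : ℝ) 1, d t = d (Int.fract t) := by
    intro d hd t ht
    rcases ht.2.eq_or_lt with h1 | h1
    · rw [h1]
      simp [hd]
    · rw [Int.fract_eq_self.2 ⟨ht.1, h1⟩]
  set L1 : ℝ → X := fun t => cat (cat (rev d) c') d (Int.fract t) with hL1
  set L2 : ℝ → X := fun t => cat (cat (fun _ => d 0) c') (fun _ => d 0) (Int.fract t) with hL2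
  have pL1 : ∀ t, L1 (t + 1) = L1 t := fun t => hper (cat (cat (rev d) c') d) t
  have pL2 : ∀ t, L2 (t + 1) = L2 t := fun t => hper (cat (cat (fun _ => d 0) c') (fun _ => d 0)) t
  have hL01 : cat (cat (rev d) c') d 0 = cat (cat (rev d) c') d 1 := by simp
  have hL02 : cat (cat (fun _ => d 0) c') (fun _ => d 0) 0 = cat (cat (fun _ => d 0) c') (fun _ => d 0) 1 := by simp
  have s1 : FreeHtpy univ c L1 := by
    obtain ⟨G, hG, hG0, hG1, hG2, hG3⟩ := hu.faithful c (cat (cat (rev d) c') d) hc.continuousOn m2.1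
      (by simp [hd1]) (by simp [c1, hd1]) hL.symm
    refine freeHtpy_of_square hp pL1 G hG.continuousOn (fun _ _ _ _ => trivial)
      (fun s _ => by rw [hG2, hG3, c1]) hG0 ?_
    intro t ht
    rw [hG1 t ht, hfr _ hL01 t ht]
  have s2 : FreeHtpy univ L1 L2 := by
    obtain ⟨G, hG, hG01, hG0, hG1⟩ := square_conj (c := c') (d := d) hc'.continuousOn b3.1 (by rw [hd0])
      (by rw [c1', hd0])
    refine freeHtpy_of_square pL1 pL2 G hG (fun _ _ _ _ => trivial) hG01 ?_ ?_
    · intro t ht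
      rw [hG0 t, hfr _ hL01 t ht]
    · intro t ht
      rw [hG1 t, hfr _ hL02 t ht]
  have s3 : FreeHtpy univ L2 c' := by
    have n0 : IsP (univ : Set X) (fun _ : ℝ => d 0) := IsP.const trivial
    have n1 := n0.cat (P hc'.continuousOn) hd0
    have k3 : cat (fun _ => d 0) c' 1 = d 0 := by rw [cat_one, c1', hd0]
    have n2 := n1.cat n0 k3
    have hu2 : u (cat (cat (fun _ => d 0) c') (fun _ => d 0)) = u c' := by
      rw [u.cat n1 n0 k3, u.cat n0 (P hc'.continuousOn) hd0, u.const trivial]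
      simp
    obtain ⟨G, hG, hG0, hG1, hG2, hG3⟩ := hu.faithful _ c' n2.1 hc'.continuousOn (by simp [hd0])
      (by simp [c1', hd0]) hu2
    refine freeHtpy_of_square pL2 hp' G hG.continuousOn (fun _ _ _ _ => trivial)
      (fun s _ => by rw [hG2, hG3]; simp) ?_ hG1
    intro t ht
    rw [hG0 t ht, hfr _ hL02 t ht]
  exact (s1.trans s2).trans s3

end Pool.Agent.CSM.D
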