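import Pool.Agent.CSM.DFree

/-!
Project CSM, chunk D, module DGen: generation of the fundamental group from uniqueness of transports.
-/

open scoped Topology unitInterval
open Set CategoryTheory

namespace Pool.Agent.CSM.D

/-- A subgroup is everything if homomorphisms are determined by their restrictions to it. -/
theorem eq_top_of_epi {G : Type} [Group G] (S : Subgroup G)
    (h : ∀ (H : Type) [Group H] (f g : G →* H), (∀ s ∈ S, f s = g s) → f = g) : S = ⊤ := by
  have he : Epi (GrpCat.ofHom S.subtype) := by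
    constructor
    intro K a b hab
    have h1 := h K a.hom b.hom (fun s hs => by
      have h2 := congrArg (fun k => k.hom ⟨s, hs⟩) hab
      exact h2)
    exact GrpCat.hom_ext h1
  rw [GrpCat.epi_iff_surjective] at he
  rw [Subgroup.eq_top_iff']
  intro x
  obtain ⟨s, hs⟩ := he x
  rw [← hs]
  exact s.2

variable {X : Type} [TopologicalSpace X]

/-- Periodic extension of a loop. -/
theorem exists_periodic {U : Set X} {c : ℝ → X} (hc : IsP U c) (h01 : c 0 = c 1) :
    ∃ c' : ℝ → X, Continuous c' ∧ (∀ t, c' (t + 1) = c' t) ∧ (∀ t, c' t ∈ U) ∧ ∀ t ∈ Icc (0 : ℝ) 1, c' t = c t := by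
  refine ⟨fun t => c (Int.fract t), ?_, ?_, ?_, ?_⟩
  · exact hc.1.comp_fract'' h01
  · intro t
    simp only [Int.fract_add_one]
  · intro t
    exact hc.2 _ ⟨Int.fract_nonneg t, (Int.fract_lt_one t).le⟩
  · intro t ht
    rcases ht.2.eq_or_lt with h1 | h1
    · rw [h1]
      simp [h01]
    · exact congrArg c (Int.fract_eq_self.2 ⟨ht.1, h1⟩)

/-- Loops in `U` represent everything if transports are determined on them. -/
theorem IsTaut.exists_loop_in {b : X} {u : Hol (univ : Set X) (FundamentalGroup X b)} (hu : IsTaut b u)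
    {U : Set X} (hb : b ∈ U)
    (hun : ∀ (H : Type) [Group H] (w w' : Hol (univ : Set X) H), AgreeAt U b w w' → AgreeAt univ b w w')
    (g : FundamentalGroup X b) :
    ∃ c : ℝ → X, Continuous c ∧ (∀ t, c (t + 1) = c t) ∧ (∀ t, c t ∈ U) ∧ c 0 = b ∧ u c = g := by
  let S : Subgroup (FundamentalGroup X b) :=
    { carrier := {g | ∃ c : ℝ → X, IsP U c ∧ c 0 = b ∧ c 1 = b ∧ u c = g}
      one_mem' := ⟨fun _ => b, IsP.const hb, rfl, rfl, u.const trivial⟩
      mul_mem' := by
        rintro _ _ ⟨c, hc, h0, h1, rfl⟩ ⟨c', hc', h0', h1', rfl⟩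
        have e : c' 1 = c 0 := by rw [h1', h0]
        exact ⟨cat c' c, hc'.cat hc e, by simpa using h0', by simpa using h1,
          u.cat (hc'.mono (subset_univ _)) (hc.mono (subset_univ _)) e⟩
      inv_mem' := by
        rintro _ ⟨c, hc, h0, h1, rfl⟩
        exact ⟨rev c, hc.rev, by simpa using h1, by simpa using h0, u.rev (hc.mono (subset_univ _))⟩ }
  have hS : S = ⊤ := by
    apply eq_top_of_epi
    intro H _ f f' hff
    ext g
    obtain ⟨c, hc, h0, h1, rfl⟩ := exists_lcls g
    have h2 := hun H (u.map f) (u.map f') (by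
      intro c hc h0 h1
      exact hff _ ⟨c, hc, h0, h1, rfl⟩) c (isP_of_continuous hc fun _ => trivial) h0 h1
    rw [Hol.map_apply, Hol.map_apply, hu.loop c hc.continuousOn h0 h1] at h2
    exact h2
  have hg : g ∈ S := by rw [hS]; trivial
  obtain ⟨c, hc, h0, h1, hcg⟩ := hg
  obtain ⟨c', h2, h3, h4, h5⟩ := exists_periodic hc (by rw [h0, h1])
  exact ⟨c', h2, h3, h4, by rw [h5 0 (by simp), h0], by rw [u.congr h5, hcg]⟩

/-- The class of `c` generates together with the class of `a` if transports are determined by their values on them. -/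
theorem IsTaut.closure_eq_top {b : X} {u : Hol (univ : Set X) (FundamentalGroup X b)} (hu : IsTaut b u)
    {x y : FundamentalGroup X b}
    (hun : ∀ (H : Type) [Group H] (f f' : FundamentalGroup X b →* H), f x = f' x → f y = f' y →
      AgreeAt univ b (u.map f) (u.map f')) : Subgroup.closure {x, y} = ⊤ := by
  apply eq_top_of_epi
  intro H _ f f' hff
  ext g
  obtain ⟨c, hc, h0, h1, rfl⟩ := exists_lcls g
  have h2 := hun H f f' (hff x (Subgroup.subset_closure (by simp))) (hff y (Subgroup.subset_closure (by simp))) c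
    (isP_of_continuous hc fun _ => trivial) h0 h1
  rw [Hol.map_apply, Hol.map_apply, hu.loop c hc.continuousOn h0 h1] at h2
  exact h2

end Pool.Agent.CSM.D
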