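import Pool.Agent.CSM.DGen
import Pool.Agent.CSM.Circ

/-!
Project CSM, chunk D, module DGeo: removing a point or a circle, surgery on a circle, connected sums.
-/

open scoped Topology
open Set

namespace Pool.Agent.CSM.D

section conn

variable {X : Type} [TopologicalSpace X]

theorem isPathConnected_left [ConnectedSpace X] [LocallyPathConnectedSpace X] {U W : Set X} (hU : IsOpen U)
    (hW : IsOpen W) (hUW : U ∪ W = univ) (h : IsPathConnected (U ∩ W)) : IsPathConnected U := by
  obtain ⟨b, hb⟩ := h.nonempty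
  rw [← hU.isConnected_iff_isPathConnected]
  refine ⟨⟨b, hb.1⟩, ?_⟩
  rw [isPreconnected_iff_subset_of_disjoint]
  have key : ∀ A B : Set X, IsOpen A → IsOpen B → U ⊆ A ∪ B → U ∩ (A ∩ B) = ∅ → U ∩ W ⊆ A → U ⊆ A := by
    intro A B hA hB hAB hd hs
    have h1 : IsPreconnected (univ : Set X) := isPreconnected_univ
    rw [isPreconnected_iff_subset_of_disjoint] at h1
    have h2 := h1 ((U ∩ A) ∪ W) (U ∩ B) ((hU.inter hA).union hW) (hU.inter hB) (by
      intro x _
      have hx : x ∈ U ∪ W := by rw [hUW]; trivial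
      rcases hx with hx | hx
      · rcases hAB hx with h3 | h3
        · exact Or.inl (Or.inl ⟨hx, h3⟩)
        · exact Or.inr ⟨hx, h3⟩
      · exact Or.inl (Or.inr hx)) (by
      rw [univ_inter, eq_empty_iff_forall_notMem]
      rintro x ⟨h3, h4, h5⟩
      rcases h3 with h3 | h3
      · have : x ∈ U ∩ (A ∩ B) := ⟨h4, h3.2, h5⟩
        rw [hd] at this
        exact this
      · have : x ∈ U ∩ (A ∩ B) := ⟨h4, hs ⟨h4, h3⟩, h5⟩
        rw [hd] at this
        exact this)
    rcases h2 with h2 | h2
    · intro x hx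
      rcases h2 (mem_univ x) with h3 | h3
      · exact h3.2
      · exact hs ⟨hx, h3⟩
    · exfalso
      have h3 := h2 (mem_univ b)
      have : b ∈ U ∩ (A ∩ B) := ⟨hb.1, hs hb, h3.2⟩
      rw [hd] at this
      exact this
  intro A B hA hB hAB hd
  have h1 := h.isConnected.isPreconnected
  rw [isPreconnected_iff_subset_of_disjoint] at h1
  rcases h1 A B hA hB (inter_subset_left.trans hAB) (by
    rw [eq_empty_iff_forall_notMem]
    rintro x ⟨h3, h4⟩
    have : x ∈ U ∩ (A ∩ B) := ⟨h3.1, h4⟩
    rw [hd] at this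
    exact this) with h2 | h2
  · exact Or.inl (key A B hA hB hAB hd h2)
  · exact Or.inr (key B A hB hA (by rwa [union_comm]) (by rwa [inter_comm B A]) h2)

theorem Ext.of_triv {U V : Set X} (hUV : U ⊆ V) (hU : TrivHol U) (hV : TrivHol V) : Ext U V := by
  refine ⟨hUV, ?_, ?_⟩
  · intro H _ u
    obtain ⟨f, hf⟩ := hU H u
    exact ⟨Hol.cob V f, fun c hc => (hf c hc).symm⟩
  · intro H _ w w' b _ _ c hc h0 h1
    obtain ⟨f, hf⟩ := hV H w
    obtain ⟨g, hg⟩ := hV H w'
    rw [hf c hc, hg c hc, h0, h1]
    simp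

end conn

section point

variable {X : Type} [TopologicalSpace X] [T2Space X] [ConnectedSpace X] [LocallyPathConnectedSpace X] {n : ℕ}

omit [T2Space X] [ConnectedSpace X] [LocallyPathConnectedSpace X] in
theorem disc_inter {i : OPH (E n) X} (si : i.source = univ) : {i 0}ᶜ ∩ i.target = i '' {0}ᶜ := by
  ext x
  constructor
  · rintro ⟨h1, h2⟩
    refine ⟨i.symm x, fun h3 => h1 ?_, i.right_inv h2⟩
    rw [mem_singleton_iff] at h3 ⊢
    rw [← h3, i.right_inv h2]
  · rintro ⟨v, hv, rfl⟩
    refine ⟨fun h1 => hv ?_, i.map_source (by rw [si]; trivial)⟩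
    exact i.injOn (by rw [si]; trivial) (by rw [si]; trivial) h1

omit [T2Space X] [ConnectedSpace X] [LocallyPathConnectedSpace X] in
theorem disc_union {i : OPH (E n) X} (si : i.source = univ) : {i 0}ᶜ ∪ i.target = univ := by
  rw [eq_univ_iff_forall]
  intro x
  by_cases h : x = i 0
  · right
    rw [h]
    exact i.map_source (by rw [si]; trivial)
  · exact Or.inl h

omit [T2Space X] [ConnectedSpace X] [LocallyPathConnectedSpace X] in
theorem isPathConnected_neck (hn : 2 ≤ n) {i : OPH (E n) X} (si : i.source = univ) :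
    IsPathConnected (i '' {0}ᶜ) :=
  (isPathConnected_punct hn).image' (i.continuousOn.mono (by rw [si]; exact subset_univ _))

omit [T2Space X] [ConnectedSpace X] [LocallyPathConnectedSpace X] in
theorem trivHol_neck (hn : 3 ≤ n) {i : OPH (E n) X} (si : i.source = univ) : TrivHol (i '' {0}ᶜ) :=
  TrivHol.image i (by rw [si]; exact subset_univ _) (trivHol_punct hn)

omit [T2Space X] [ConnectedSpace X] [LocallyPathConnectedSpace X] in
theorem trivHol_disc {i : OPH (E n) X} (si : i.source = univ) : TrivHol i.target := by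
  have h := TrivHol.image i (U := univ) (by rw [si]) (trivHol_univ n)
  rwa [← si, i.image_source_eq_target] at h

omit [T2Space X] [ConnectedSpace X] [LocallyPathConnectedSpace X] in
theorem isPathConnected_disc {i : OPH (E n) X} (si : i.source = univ) : IsPathConnected i.target := by
  have h := (isPathConnected_univ (X := E n)).image' (f := i) (i.continuousOn.mono (by rw [si]))
  rwa [← si, i.image_source_eq_target] at h

theorem isPathConnected_compl_point (hn : 2 ≤ n) {i : OPH (E n) X} (si : i.source = univ) :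
    IsPathConnected ({i 0}ᶜ : Set X) := by
  refine isPathConnected_left isOpen_compl_singleton i.open_target (disc_union si) ?_
  rw [disc_inter si]
  exact isPathConnected_neck hn si

/-- The fundamental group does not change when a point is removed. -/
theorem ext_point (hn : 3 ≤ n) {i : OPH (E n) X} (si : i.source = univ) : Ext ({i 0}ᶜ : Set X) univ := by
  rw [← disc_union si]
  refine Ext.union isOpen_compl_singleton i.open_target (isPathConnected_compl_point (by omega) si)
    (isPathConnected_disc si) ?_ ?_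
  · rw [disc_inter si]
    exact isPathConnected_neck (by omega) si
  · refine Ext.of_triv inter_subset_right ?_ (trivHol_disc si)
    rw [disc_inter si]
    exact trivHol_neck hn si

end point

section tube

variable {X : Type} [TopologicalSpace X] [T2Space X] [ConnectedSpace X] [LocallyPathConnectedSpace X] {m : ℕ}

omit [ConnectedSpace X] [LocallyPathConnectedSpace X] in
theorem isClosed_tcore {e : OPH (T m) X} (se : e.source = univ) : IsClosed (e '' {p : T m | p.2 = 0}) := by
  have h1 : IsCompact {p : T m | p.2 = 0} := by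
    have h2 : IsCompact ((fun θ : AddCircle (1 : ℝ) => ((θ, 0) : AddCircle (1 : ℝ) × E m)) '' univ) :=
      isCompact_univ.image (by fun_prop)
    have h3 : ((fun θ : AddCircle (1 : ℝ) => ((θ, 0) : AddCircle (1 : ℝ) × E m)) '' univ) =
        {p : AddCircle (1 : ℝ) × E m | p.2 = 0} := by
      ext ⟨θ, x⟩
      simp
      exact eq_comm
    rw [h3] at h2
    exact h2
  exact (h1.image_of_continuousOn (e.continuousOn.mono (by rw [se]; exact subset_univ _))).isClosed

omit [T2Space X] [ConnectedSpace X] [LocallyPathConnectedSpace X] in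
theorem tube_inter {e : OPH (T m) X} (se : e.source = univ) :
    (e '' {p : T m | p.2 = 0})ᶜ ∩ e.target = e '' {p : T m | p.2 ≠ 0} := by
  ext x
  constructor
  · rintro ⟨h1, h2⟩
    exact ⟨e.symm x, fun h3 => h1 ⟨e.symm x, h3, e.right_inv h2⟩, e.right_inv h2⟩
  · rintro ⟨v, hv, rfl⟩
    refine ⟨?_, e.map_source (by rw [se]; trivial)⟩
    rintro ⟨v', hv', h1⟩
    have h2 := e.injOn (by rw [se]; trivial) (by rw [se]; trivial) h1
    rw [h2] at hv'
    exact hv hv'

omit [T2Space X] [ConnectedSpace X] [LocallyPathConnectedSpace X] in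
theorem tube_union {e : OPH (T m) X} (se : e.source = univ) :
    (e '' {p : T m | p.2 = 0})ᶜ ∪ e.target = univ := by
  rw [eq_univ_iff_forall]
  intro x
  by_cases h : x ∈ e '' {p : T m | p.2 = 0}
  · right
    obtain ⟨v, -, rfl⟩ := h
    exact e.map_source (by rw [se]; trivial)
  · exact Or.inl h

omit [T2Space X] [ConnectedSpace X] [LocallyPathConnectedSpace X] in
theorem isPathConnected_tneck (hm : 2 ≤ m) {e : OPH (T m) X} (se : e.source = univ) :
    IsPathConnected (e '' {p : T m | p.2 ≠ 0}) :=
  (isPathConnected_core hm).image' (e.continuousOn.mono (by rw [se]; exact subset_univ _))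

omit [T2Space X] [ConnectedSpace X] [LocallyPathConnectedSpace X] in
theorem isPathConnected_tube {e : OPH (T m) X} (se : e.source = univ) : IsPathConnected e.target := by
  have h := (isPathConnected_T m).image' (f := e) (e.continuousOn.mono (by rw [se]))
  rwa [← se, e.image_source_eq_target] at h

omit [T2Space X] [ConnectedSpace X] [LocallyPathConnectedSpace X] in
theorem ext_tube_local (hm : 3 ≤ m) {e : OPH (T m) X} (se : e.source = univ) :
    Ext (e '' {p : T m | p.2 ≠ 0}) e.target := by
  have h := Ext.image e (V := univ) (by rw [se]) (ext_T hm)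
  have h2 : e '' univ = e.target := by rw [← se, e.image_source_eq_target]
  rwa [h2] at h

theorem isPathConnected_compl_tcore (hm : 2 ≤ m) {e : OPH (T m) X} (se : e.source = univ) :
    IsPathConnected ((e '' {p : T m | p.2 = 0})ᶜ) := by
  refine isPathConnected_left (isClosed_tcore se).isOpen_compl e.open_target (tube_union se) ?_
  rw [tube_inter se]
  exact isPathConnected_tneck hm se

/-- The fundamental group does not change when a circle is removed. -/
theorem ext_tube (hm : 3 ≤ m) {e : OPH (T m) X} (se : e.source = univ) :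
    Ext ((e '' {p : T m | p.2 = 0})ᶜ) univ := by
  rw [← tube_union se]
  refine Ext.union (isClosed_tcore se).isOpen_compl e.open_target (isPathConnected_compl_tcore (by omega) se)
    (isPathConnected_tube se) ?_ ?_
  · rw [tube_inter se]
    exact isPathConnected_tneck (by omega) se
  · rw [tube_inter se]
    exact ext_tube_local hm se

end tube

section surg

variable {X X' : Type} [TopologicalSpace X] [TopologicalSpace X'] {m : ℕ}

/-- The topological content of a surgery on a circle. -/
structure Surg (m : ℕ) (e : OPH (T m) X) (χ : OPH X X') : Prop where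
  se : e.source = univ
  sχ : χ.source = (e '' {p : T m | p.2 = 0})ᶜ
  ex : ∃ W : Set X', IsOpen W ∧ IsPathConnected W ∧ TrivHol W ∧ χ.target ∪ W = univ ∧
    χ.target ∩ W = χ '' (e '' {p : T m | p.2 ≠ 0})

theorem surg_of_repl (hm : 3 ≤ m) [ChartedSpace (E (m + 1)) X] [ChartedSpace (E (m + 1)) X'] {e : OPH (T m) X}
    {χ : OPH X X'} (h : Repl (m + 1) (circ m) e χ) : Surg m e χ := by
  obtain ⟨-, se, -, sφ, d, -, sd, td, hd⟩ := h
  have h1 : (circ m).κ.source ∪ (circ m).C = univ := by
    rw [circ_source, circ_C, eq_univ_iff_forall]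
    intro p
    by_cases hp : p.2 = 0
    · exact Or.inr hp
    · exact Or.inl hp
  have se' : e.source = univ := by rw [se, h1]
  have hdual : d.source = dualT m := by
    rw [sd, circ_target]
    ext v
    constructor
    · rintro (⟨h2, -⟩ | h2)
      · exact h2
      · rw [circ_C'] at h2
        intro h3
        have h4 := h2.2
        rw [show tl m v = 0 from h3] at h4
        simp at h4
    · intro h2
      by_cases h3 : v ∈ (circ m).C'
      · exact Or.inr h3
      · exact Or.inl ⟨h2, h3⟩
  have himg : d '' (dualT m) = d.target := by rw [← hdual, d.image_source_eq_target]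
  refine ⟨se', by rw [sφ, circ_C], d.target, d.open_target, ?_, ?_, ?_, ?_⟩
  · rw [← himg]
    exact (isPathConnected_dualT (by omega)).image' (d.continuousOn.mono (by rw [hdual]))
  · rw [← himg]
    exact TrivHol.image d (by rw [hdual]) (trivHol_dualT hm)
  · rw [td, eq_univ_iff_forall]
    intro x
    by_cases hx : x ∈ d '' (circ m).C'
    · right
      obtain ⟨v, hv, rfl⟩ := hx
      apply d.map_source
      rw [sd]
      exact Or.inr hv
    · exact Or.inl hx
  · rw [td]
    ext x
    constructor
    · rintro ⟨h2, h3⟩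
      have h4 : d.symm x ∈ (circ m).κ.target := by
        have h5 : d.symm x ∈ d.source := d.map_target h3
        rw [sd] at h5
        rcases h5 with h5 | h5
        · exact h5
        · exact absurd ⟨d.symm x, h5, d.right_inv h3⟩ h2
      refine ⟨e ((circ m).κ.symm (d.symm x)), ⟨(circ m).κ.symm (d.symm x), ?_, rfl⟩, ?_⟩
      · have h6 := (circ m).κ.map_target h4
        rw [circ_source] at h6
        exact h6
      · rw [hd _ ((circ m).κ.map_target h4), (circ m).κ.right_inv h4, d.right_inv h3]
    · rintro ⟨_, ⟨q, hq, rfl⟩, rfl⟩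
      have hq' : q ∈ (circ m).κ.source := by rw [circ_source]; exact hq
      rw [hd q hq']
      have h7 : (circ m).κ q ∈ (circ m).κ.target := (circ m).κ.map_source hq'
      have h8 : (circ m).κ q ∈ d.source := by rw [sd]; exact Or.inl h7
      refine ⟨?_, d.map_source h8⟩
      rintro ⟨v, hv, h9⟩
      have h10 : v ∈ d.source := by rw [sd]; exact Or.inr hv
      have h11 := d.injOn h10 h8 h9
      rw [← h11, circ_target] at h7
      exact h7.2 hv

variable {e : OPH (T m) X} {χ : OPH X X'}

theorem Surg.tneck_sub (h : Surg m e χ) : e '' {p : T m | p.2 ≠ 0} ⊆ χ.source := by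
  rw [h.sχ, ← tube_inter h.se]
  exact inter_subset_left

theorem mkT_isP {x : E m} {U : Set (T m)} (h : ∀ t : ℝ, mkT t x ∈ U) : IsP U (fun t => mkT t x) := by
  have h1 : Continuous fun t : ℝ => ((t : AddCircle (1 : ℝ)), x) :=
    (AddCircle.continuous_mk' 1).prodMk continuous_const
  exact isP_of_continuous h1 h

theorem Surg.par_isP (h : Surg m e χ) {x : E m} (hx : x ≠ 0) :
    IsP (e '' {p : T m | p.2 ≠ 0}) (fun t => e (mkT t x)) :=
  (mkT_isP (U := {p : T m | p.2 ≠ 0}) fun _ => hx).comp (e.continuousOn.mono (by rw [h.se]; exact subset_univ _))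
    (show MapsTo e {p : T m | p.2 ≠ 0} (e '' {p : T m | p.2 ≠ 0}) from fun p hp => ⟨p, hp, rfl⟩)

theorem mkT_one (x : E m) : mkT 1 x = mkT 0 x := by
  unfold mkT
  rw [AddCircle.coe_period]
  rfl

/-- A parallel copy of the core dies under the surgery. -/
theorem Surg.null (h : Surg m e χ) {H : Type} [Group H] (w : Hol (univ : Set X') H) {x : E m} (hx : x ≠ 0) :
    w (fun t => χ (e (mkT t x))) = 1 := by
  obtain ⟨W, hW, pW, tW, hU, hI⟩ := h.ex
  obtain ⟨f, hf⟩ := tW H (w.mono (subset_univ _))
  have hm' : MapsTo χ (e '' {p : T m | p.2 ≠ 0}) W := fun p hp => by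
    have h2 : χ p ∈ χ.target ∩ W := by
      rw [hI]
      exact ⟨p, hp, rfl⟩
    exact h2.2
  have h1 := (h.par_isP hx).comp (χ.continuousOn.mono h.tneck_sub) hm'
  have h2 := hf _ h1
  rw [Hol.mono_apply] at h2
  rw [h2, mkT_one]
  simp

/-- Extension of transports over a surgery. -/
theorem Surg.ext (hm : 3 ≤ m) (h : Surg m e χ) {H : Type} [Group H] (u : Hol χ.source H) {x : E m} (hx : x ≠ 0)
    (hu : u (fun t => e (mkT t x)) = 1) :
    ∃ w : Hol (univ : Set X') H, ∀ c, IsP χ.source c → w (fun t => χ (c t)) = u c := by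
  obtain ⟨W, hW, pW, tW, hU, hI⟩ := h.ex
  have pI : IsPathConnected (χ.target ∩ W) := by
    rw [hI]
    exact (isPathConnected_tneck (by omega) h.se).image' (χ.continuousOn.mono h.tneck_sub)
  have hb0 : e (mkT 0 x) ∈ e '' {p : T m | p.2 ≠ 0} := ⟨mkT 0 x, hx, rfl⟩
  have hb : χ (e (mkT 0 x)) ∈ χ.target ∩ W := by
    rw [hI]
    exact ⟨_, hb0, rfl⟩
  set u' : Hol χ.target H := u.pull χ.symm χ.symm.continuousOn (fun p hp => χ.map_target hp) with hu'
  have hag : AgreeAt (χ.target ∩ W) (χ (e (mkT 0 x))) u' (Hol.cob W fun _ => (1 : H)) := by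
    intro c hc h0 h1
    rw [Hol.cob_apply, hu', Hol.pull_apply]
    -- pull back to the torus
    have hmap : ∀ t ∈ Icc (0 : ℝ) 1, ∃ p : T m, p.2 ≠ 0 ∧ χ (e p) = c t := by
      intro t ht
      have h2 := hc.2 t ht
      rw [hI] at h2
      obtain ⟨_, ⟨p, hp, rfl⟩, h3⟩ := h2
      exact ⟨p, hp, h3⟩
    have hsym : ∀ t ∈ Icc (0 : ℝ) 1, χ.symm (c t) ∈ e '' {p : T m | p.2 ≠ 0} := by
      intro t ht
      obtain ⟨p, hp, h3⟩ := hmap t ht
      rw [← h3, χ.left_inv (h.tneck_sub ⟨p, hp, rfl⟩)]
      exact ⟨p, hp, rfl⟩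
    have hc1 : IsP (e '' {p : T m | p.2 ≠ 0}) (fun t => χ.symm (c t)) :=
      ⟨χ.symm.continuousOn.comp hc.1 (fun t ht => (hc.2 t ht).1), hsym⟩
    have hc2 : IsP {p : T m | p.2 ≠ 0} (fun t => e.symm (χ.symm (c t))) := by
      refine hc1.comp (f := e.symm) (e.symm.continuousOn.mono ?_) ?_
      · rintro _ ⟨p, hp, rfl⟩
        exact e.map_source (by rw [h.se]; trivial)
      · rintro _ ⟨p, hp, rfl⟩
        rw [e.left_inv (by rw [h.se]; trivial)]
        exact hp
    have hse : mkT 0 x ∈ e.source := by rw [h.se]; trivial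
    have hend : ∀ t : ℝ, c t = χ (e (mkT 0 x)) → e.symm (χ.symm (c t)) = mkT 0 x := by
      intro t h4
      rw [h4, χ.left_inv (h.tneck_sub hb0), e.left_inv hse]
    obtain ⟨k, hk⟩ := loop_T' hm hx hc2 (hend 0 h0) (hend 1 h1)
    have h5 := hk H (u.pull e (e.continuousOn.mono (by rw [h.se]; exact subset_univ _))
      (show MapsTo e {p : T m | p.2 ≠ 0} χ.source from fun p hp => h.tneck_sub ⟨p, hp, rfl⟩))
    rw [Hol.pull_apply, Hol.pull_apply, hu, one_zpow] at h5
    rw [← u.congr (c := fun t => e (e.symm (χ.symm (c t)))) (c' := fun t => χ.symm (c t)), h5]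
    · simp
    · intro t ht
      obtain ⟨p, hp, h6⟩ := hsym t ht
      rw [← h6, e.left_inv (by rw [h.se]; trivial)]
  obtain ⟨w, k, -, hw, -⟩ := vk_exists χ.open_target hW pI hb u' (Hol.cob W fun _ => (1 : H)) hag
  have hw' : ∃ w' : Hol (univ : Set X') H, ∀ c, w' c = w c := by
    rw [← hU]
    exact ⟨w, fun c => rfl⟩
  obtain ⟨w', hw'⟩ := hw'
  refine ⟨w', fun c hc => ?_⟩
  have h6 : IsP χ.target (fun t => χ (c t)) := hc.comp χ.continuousOn (fun p hp => χ.map_source hp)
  rw [hw', hw _ h6, hu', Hol.pull_apply]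
  exact u.congr fun t ht => χ.left_inv (hc.2 t ht)

/-- Uniqueness of transports after a surgery. -/
theorem Surg.uniq (hm : 3 ≤ m) (h : Surg m e χ) (pχ : IsPathConnected χ.source) {b : X} (hb : b ∈ χ.source)
    {H : Type} [Group H] (w w' : Hol (univ : Set X') H) (hag : AgreeAt χ.target (χ b) w w') :
    AgreeAt univ (χ b) w w' := by
  obtain ⟨W, hW, pW, tW, hU, hI⟩ := h.ex
  have hx : ∃ x : E m, x ≠ 0 := by
    refine ⟨EuclideanSpace.single (⟨0, by omega⟩ : Fin m) (1 : ℝ), ?_⟩
    simp
  obtain ⟨x, hx⟩ := hx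
  have pI : IsPathConnected (χ.target ∩ W) := by
    rw [hI]
    exact (isPathConnected_tneck (by omega) h.se).image' (χ.continuousOn.mono h.tneck_sub)
  have pT : IsPathConnected χ.target := by
    rw [← χ.image_source_eq_target]
    exact pχ.image' χ.continuousOn
  have hb0 : e (mkT 0 x) ∈ e '' {p : T m | p.2 ≠ 0} := ⟨mkT 0 x, hx, rfl⟩
  have hb1 : χ (e (mkT 0 x)) ∈ χ.target ∩ W := by
    rw [hI]
    exact ⟨_, hb0, rfl⟩
  obtain ⟨d, hd, hd0, hd1⟩ := exists_isP pT (χ.map_source hb) hb1.1
  refine uniq_base (subset_univ _) hd hd0 hd1 ?_ w w' hag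
  rw [← hU]
  intro w w' hag
  refine vk_unique χ.open_target hW pT pW pI hb1 w w' hag ?_
  intro c hc h0 h1
  obtain ⟨f, hf⟩ := tW H (w.mono subset_union_right)
  obtain ⟨g, hg⟩ := tW H (w'.mono subset_union_right)
  have h2 := hf c hc
  have h3 := hg c hc
  rw [Hol.mono_apply] at h2 h3
  rw [h2, h3, h0, h1]
  simp

end surg

end Pool.Agent.CSM.D
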