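import Pool.Agent.CSM.DPrim

/-!
Project CSM, chunk D, module DGlue: gluing of transports (van Kampen for groupoids).
-/

open scoped Topology
open Set

namespace Pool.Agent.CSM.D

section

variable {X : Type} [TopologicalSpace X] {H : Type} [Group H] {V : Type} [NormedAddCommGroup V] [NormedSpace ℝ V]

omit [NormedSpace ℝ V] in
private theorem lebesgue {U W : Set X} (hU : IsOpen U) (hW : IsOpen W) {K : Set V} (hK : IsCompact K) {F : V → X}
    (hF : ContinuousOn F K) (hm : MapsTo F K (U ∪ W)) :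
    ∃ δ > 0, ∀ x ∈ K, (∀ y ∈ K, dist y x < δ → F y ∈ U) ∨ (∀ y ∈ K, dist y x < δ → F y ∈ W) := by
  have h1 : ∀ x : V, x ∈ K → ∃ r > 0, (∀ y ∈ K, dist y x < r → F y ∈ U) ∨ (∀ y ∈ K, dist y x < r → F y ∈ W) := by
    intro x hx
    have hc : ContinuousWithinAt F K x := hF x hx
    rcases hm hx with h | h
    · have h2 : F ⁻¹' U ∈ 𝓝[K] x := hc (hU.mem_nhds h)
      rw [Metric.mem_nhdsWithin_iff] at h2
      obtain ⟨r, hr, h3⟩ := h2
      exact ⟨r, hr, Or.inl fun y hy hd => h3 ⟨hd, hy⟩⟩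
    · have h2 : F ⁻¹' W ∈ 𝓝[K] x := hc (hW.mem_nhds h)
      rw [Metric.mem_nhdsWithin_iff] at h2
      obtain ⟨r, hr, h3⟩ := h2
      exact ⟨r, hr, Or.inr fun y hy hd => h3 ⟨hd, hy⟩⟩
  choose! r hr h2 using h1
  obtain ⟨δ, hδ, h3⟩ := lebesgue_number_lemma_of_metric (c := fun x : K => Metric.ball (x : V) (r x)) hK
    (fun _ => Metric.isOpen_ball) (fun x hx => mem_iUnion.2 ⟨⟨x, hx⟩, Metric.mem_ball_self (hr x hx)⟩)
  refine ⟨δ, hδ, fun x hx => ?_⟩
  obtain ⟨⟨z, hz⟩, h4⟩ := h3 x hx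
  rcases h2 z hz with h5 | h5
  · exact Or.inl fun y hy hd => h5 y hy (h4 hd)
  · exact Or.inr fun y hy hd => h5 y hy (h4 hd)

open Classical in
private noncomputable def hh {U W : Set X} (u : Hol U H) (v : Hol W H) (c : ℝ → X) : H :=
  if ∀ t ∈ Icc (0 : ℝ) 1, c t ∈ U then u c else v c

/-- The local transport. -/
private noncomputable def gg {U W : Set X} (u : Hol U H) (v : Hol W H) (F : V → X) (x y : V) : H :=
  hh u v (fun t => F ((1 - t) • x + t • y))

private theorem seg_mem {K : Set V} (hK : Convex ℝ K) {x y : V} (hx : x ∈ K) (hy : y ∈ K) {t : ℝ}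
    (ht : t ∈ Icc (0 : ℝ) 1) : (1 - t) • x + t • y ∈ K :=
  hK hx hy (by linarith [ht.2]) ht.1 (by ring)

private theorem gg_eq_u {U W : Set X} (u : Hol U H) (v : Hol W H) {K : Set V} (hK : Convex ℝ K) {F : V → X}
    (hm : MapsTo F K U) {x y : V} (hx : x ∈ K) (hy : y ∈ K) :
    gg u v F x y = u (fun t => F ((1 - t) • x + t • y)) :=
  if_pos fun _ ht => hm (seg_mem hK hx hy ht)

private theorem gg_eq_v {U W : Set X} (u : Hol U H) (v : Hol W H)
    (huv : ∀ c : ℝ → X, IsP (U ∩ W) c → u c = v c) {K : Set V} (hK : Convex ℝ K) {F : V → X}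
    (hF : ContinuousOn F K) (hm : MapsTo F K W) {x y : V} (hx : x ∈ K) (hy : y ∈ K) :
    gg u v F x y = v (fun t => F ((1 - t) • x + t • y)) := by
  unfold gg hh
  split_ifs with h
  · apply huv
    refine ⟨hF.comp (by fun_prop) fun t ht => seg_mem hK hx hy ht, fun t ht => ⟨h t ht, hm (seg_mem hK hx hy ht)⟩⟩
  · rfl

private def IsPrim {U W : Set X} (u : Hol U H) (v : Hol W H) (K : Set V) (F : V → X) (f : V → H) : Prop :=
  ∃ ε > 0, ∀ x ∈ K, ∀ y ∈ K, dist x y < ε → f y = gg u v F x y * f x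

private theorem exists_isPrim {U W : Set X} (hU : IsOpen U) (hW : IsOpen W) (u : Hol U H) (v : Hol W H)
    (huv : ∀ c : ℝ → X, IsP (U ∩ W) c → u c = v c) {K : Set V} (hKc : IsCompact K) (hK : Convex ℝ K) {F : V → X}
    (hF : ContinuousOn F K) (hm : MapsTo F K (U ∪ W)) : ∃ f, IsPrim u v K F f := by
  obtain ⟨δ, hδ, h⟩ := lebesgue hU hW hKc hF hm
  obtain ⟨f, ε, hε, hf⟩ := exists_primitive hKc hK (gg u v F) hδ (by
    intro x hx y hy z hz hxy hxz hyz
    set K' := K ∩ Metric.ball x δ with hK'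
    have hK'c : Convex ℝ K' := hK.inter (convex_ball x δ)
    have hx' : x ∈ K' := ⟨hx, Metric.mem_ball_self hδ⟩
    have hy' : y ∈ K' := ⟨hy, by rw [Metric.mem_ball, dist_comm]; exact hxy⟩
    have hz' : z ∈ K' := ⟨hz, by rw [Metric.mem_ball, dist_comm]; exact hxz⟩
    have hF' : ContinuousOn F K' := hF.mono inter_subset_left
    rcases h x hx with h1 | h1
    · have hm' : MapsTo F K' U := fun p hp => h1 p hp.1 hp.2
      rw [gg_eq_u u v hK'c hm' hy' hz', gg_eq_u u v hK'c hm' hx' hy', gg_eq_u u v hK'c hm' hx' hz']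
      exact u.seg hK'c hF' hm' hx' hy' hz'
    · have hm' : MapsTo F K' W := fun p hp => h1 p hp.1 hp.2
      rw [gg_eq_v u v huv hK'c hF' hm' hy' hz', gg_eq_v u v huv hK'c hF' hm' hx' hy',
        gg_eq_v u v huv hK'c hF' hm' hx' hz']
      exact v.seg hK'c hF' hm' hx' hy' hz')
  exact ⟨f, ε, hε, hf⟩

private theorem isPrim_unique {U W : Set X} {u : Hol U H} {v : Hol W H} {K : Set V} (hK : Convex ℝ K)
    {F : V → X} {f f' : V → H} (h : IsPrim u v K F f) (h' : IsPrim u v K F f') {x y : V} (hx : x ∈ K)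
    (hy : y ∈ K) : f y * (f x)⁻¹ = f' y * (f' x)⁻¹ := by
  obtain ⟨ε, hε, h1⟩ := h
  obtain ⟨ε', hε', h2⟩ := h'
  have h3 := const_of_local hK (lt_min hε hε') (h := fun x => (f x)⁻¹ * f' x) (by
    intro a ha b hb hab
    rw [h1 a ha b hb (lt_of_lt_of_le hab (min_le_left _ _)), h2 a ha b hb (lt_of_lt_of_le hab (min_le_right _ _))]
    group) x hx y hy
  have h4 : f' y = f y * ((f x)⁻¹ * f' x) := by
    rw [h3]
    group
  rw [h4]
  group

/-- restriction of a primitive to a segment -/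
private theorem IsPrim.restrict {U W : Set X} {u : Hol U H} {v : Hol W H} {K : Set V} (hK : Convex ℝ K)
    {F : V → X} {f : V → H} (h : IsPrim u v K F f) {a b : V} (ha : a ∈ K) (hb : b ∈ K) :
    IsPrim u v (Icc (0 : ℝ) 1) (fun t : ℝ => F ((1 - t) • a + t • b)) (fun t : ℝ => f ((1 - t) • a + t • b)) := by
  obtain ⟨ε, hε, h1⟩ := h
  refine ⟨ε / (‖b - a‖ + 1), by positivity, fun x hx y hy hxy => ?_⟩
  have hpos : 0 < ‖b - a‖ + 1 := by positivity
  have hd : dist ((1 - x) • a + x • b) ((1 - y) • a + y • b) < ε := by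
    have e1 : ((1 - x) • a + x • b) - ((1 - y) • a + y • b) = (x - y) • (b - a) := by module
    rw [dist_eq_norm, e1, norm_smul, Real.norm_eq_abs, ← Real.dist_eq]
    rw [lt_div_iff₀ hpos] at hxy
    have h2 : 0 ≤ dist x y := dist_nonneg
    nlinarith [norm_nonneg (b - a)]
  have h2 := h1 _ (seg_mem hK ha hb hx) _ (seg_mem hK ha hb hy) hd
  change f ((1 - y) • a + y • b) = gg u v (fun t => F ((1 - t) • a + t • b)) x y * f ((1 - x) • a + x • b)
  rw [h2]
  congr 1
  have e2 : ∀ t : ℝ, (1 - t) • ((1 - x) • a + x • b) + t • ((1 - y) • a + y • b) =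
      (1 - ((1 - t) • x + t • y)) • a + ((1 - t) • x + t • y) • b := by
    intro t
    simp only [smul_eq_mul]
    module
  unfold gg
  congr 1
  funext t
  exact congrArg F (e2 t)

private theorem tri_convex : Convex ℝ Tri := by
  intro p hp q hq a b ha hb hab
  obtain ⟨h1, h2, h3⟩ := hp
  obtain ⟨h4, h5, h6⟩ := hq
  refine ⟨?_, ?_, ?_⟩
  · simp only [Prod.fst_add, Prod.smul_fst, smul_eq_mul]
    positivity
  · simp only [Prod.snd_add, Prod.smul_snd, smul_eq_mul]
    positivity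
  · simp only [Prod.fst_add, Prod.smul_fst, Prod.snd_add, Prod.smul_snd, smul_eq_mul]
    nlinarith

private theorem tri_compact : IsCompact Tri := by
  have h1 : IsClosed Tri := by
    have e : Tri = {p : ℝ × ℝ | 0 ≤ p.1} ∩ ({p : ℝ × ℝ | 0 ≤ p.2} ∩ {p : ℝ × ℝ | p.1 + p.2 ≤ 1}) := rfl
    rw [e]
    exact (isClosed_le continuous_const continuous_fst).inter
      ((isClosed_le continuous_const continuous_snd).inter
        (isClosed_le (continuous_fst.add continuous_snd) continuous_const))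
  refine (isCompact_Icc (a := ((0 : ℝ), (0 : ℝ))) (b := ((1 : ℝ), (1 : ℝ)))).of_isClosed_subset h1 ?_
  intro p hp
  obtain ⟨h2, h3, h4⟩ := hp
  exact ⟨⟨h2, h3⟩, ⟨by simpa using by linarith, by simpa using by linarith⟩⟩

open Classical in
private noncomputable def wG {U W : Set X} (hU : IsOpen U) (hW : IsOpen W) (u : Hol U H) (v : Hol W H)
    (huv : ∀ c : ℝ → X, IsP (U ∩ W) c → u c = v c) (c : ℝ → X) : H :=
  if h : IsP (U ∪ W) c then
    (exists_isPrim hU hW u v huv isCompact_Icc (convex_Icc (0 : ℝ) 1) h.1 (fun t ht => h.2 t ht)).choose 1 *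
      ((exists_isPrim hU hW u v huv isCompact_Icc (convex_Icc (0 : ℝ) 1) h.1 (fun t ht => h.2 t ht)).choose 0)⁻¹
  else 1

private theorem wG_eq {U W : Set X} (hU : IsOpen U) (hW : IsOpen W) (u : Hol U H) (v : Hol W H)
    (huv : ∀ c : ℝ → X, IsP (U ∩ W) c → u c = v c) {c : ℝ → X} (hc : IsP (U ∪ W) c) {f : ℝ → H}
    (hf : IsPrim u v (Icc (0 : ℝ) 1) c f) : wG hU hW u v huv c = f 1 * (f 0)⁻¹ := by
  unfold wG
  rw [dif_pos hc]
  exact isPrim_unique (convex_Icc (0 : ℝ) 1)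
    (exists_isPrim hU hW u v huv isCompact_Icc (convex_Icc (0 : ℝ) 1) hc.1 (fun t ht => hc.2 t ht)).choose_spec hf
    (by simp) (by simp)

private theorem isPrim_congr {U W : Set X} {u : Hol U H} {v : Hol W H} {c c' : ℝ → X} {f : ℝ → H}
    (h : ∀ t ∈ Icc (0 : ℝ) 1, c t = c' t) (hf : IsPrim u v (Icc (0 : ℝ) 1) c f) :
    IsPrim u v (Icc (0 : ℝ) 1) c' f := by
  obtain ⟨ε, hε, h1⟩ := hf
  refine ⟨ε, hε, fun x hx y hy hxy => ?_⟩
  rw [h1 x hx y hy hxy]
  congr 1
  have h2 : ∀ t ∈ Icc (0 : ℝ) 1, c ((1 - t) • x + t • y) = c' ((1 - t) • x + t • y) := fun t ht =>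
    h _ (seg_mem (convex_Icc (0 : ℝ) 1) hx hy ht)
  unfold gg hh
  by_cases h3 : ∀ t ∈ Icc (0 : ℝ) 1, c ((1 - t) • x + t • y) ∈ U
  · have h4 : ∀ t ∈ Icc (0 : ℝ) 1, c' ((1 - t) • x + t • y) ∈ U := fun t ht => by
      rw [← h2 t ht]
      exact h3 t ht
    rw [if_pos h3, if_pos h4]
    exact u.congr h2
  · have h4 : ¬ ∀ t ∈ Icc (0 : ℝ) 1, c' ((1 - t) • x + t • y) ∈ U := fun h5 => h3 fun t ht => by
      rw [h2 t ht]
      exact h5 t ht
    rw [if_neg h3, if_neg h4]
    exact v.congr h2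

end

variable {X : Type} [TopologicalSpace X] {H : Type} [Group H]

/-- Existence of the glued transport. -/
theorem exists_glue {U W : Set X} (hU : IsOpen U) (hW : IsOpen W) (u : Hol U H) (v : Hol W H)
    (huv : ∀ c : ℝ → X, IsP (U ∩ W) c → u c = v c) :
    ∃ w : Hol (U ∪ W) H, (∀ c, IsP U c → w c = u c) ∧ ∀ c, IsP W c → w c = v c := by
  have hwc : ∀ c c' : ℝ → X, (∀ t ∈ Icc (0 : ℝ) 1, c t = c' t) →
      wG hU hW u v huv c = wG hU hW u v huv c' := by
    intro c c' h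
    by_cases hc : IsP (U ∪ W) c
    · have hc' : IsP (U ∪ W) c' := ⟨hc.1.congr fun t ht => (h t ht).symm, fun t ht => by
        rw [← h t ht]
        exact hc.2 t ht⟩
      obtain ⟨f, hf⟩ := exists_isPrim hU hW u v huv isCompact_Icc (convex_Icc (0 : ℝ) 1) hc.1
        (fun t ht => hc.2 t ht)
      rw [wG_eq hU hW u v huv hc hf, wG_eq hU hW u v huv hc' (isPrim_congr h hf)]
    · have hc' : ¬ IsP (U ∪ W) c' := fun hc' => hc ⟨hc'.1.congr fun t ht => h t ht, fun t ht => by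
        rw [h t ht]
        exact hc'.2 t ht⟩
      unfold wG
      rw [dif_neg hc, dif_neg hc']
  refine ⟨⟨wG hU hW u v huv, hwc, ?_⟩, ?_, ?_⟩
  · intro F hF hm
    obtain ⟨f, hf⟩ := exists_isPrim hU hW u v huv tri_compact tri_convex hF hm
    have m0 : ((0 : ℝ), (0 : ℝ)) ∈ Tri := by norm_num [Tri]
    have m1 : ((1 : ℝ), (0 : ℝ)) ∈ Tri := by norm_num [Tri]
    have m2 : ((0 : ℝ), (1 : ℝ)) ∈ Tri := by norm_num [Tri]
    have key : ∀ a ∈ Tri, ∀ b ∈ Tri,
        wG hU hW u v huv (fun t : ℝ => F ((1 - t) • a + t • b)) = f b * (f a)⁻¹ := by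
      intro a ha b hb
      have hp : IsP (U ∪ W) (fun t : ℝ => F ((1 - t) • a + t • b)) :=
        ⟨hF.comp (by fun_prop) fun t ht => seg_mem tri_convex ha hb ht, fun t ht =>
          hm (seg_mem tri_convex ha hb ht)⟩
      rw [wG_eq hU hW u v huv hp (IsPrim.restrict tri_convex hf ha hb)]
      simp
    have e1 : (fun t : ℝ => F (1 - t, t)) = fun t : ℝ => F ((1 - t) • ((1 : ℝ), (0 : ℝ)) + t • ((0 : ℝ), (1 : ℝ))) := by
      funext t
      simp
    have e2 : (fun t : ℝ => F (t, 0)) = fun t : ℝ => F ((1 - t) • ((0 : ℝ), (0 : ℝ)) + t • ((1 : ℝ), (0 : ℝ))) := by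
      funext t
      simp
    have e3 : (fun t : ℝ => F (0, t)) = fun t : ℝ => F ((1 - t) • ((0 : ℝ), (0 : ℝ)) + t • ((0 : ℝ), (1 : ℝ))) := by
      funext t
      simp
    rw [e1, e2, e3, key _ m1 _ m2, key _ m0 _ m1, key _ m0 _ m2]
    group
  · intro c hc
    have hcU : IsP (U ∪ W) c := hc.mono subset_union_left
    have hf : IsPrim u v (Icc (0 : ℝ) 1) c (fun s => u (fun t => c ((1 - t) * 0 + t * s))) := by
      refine ⟨1, one_pos, fun x hx y hy _ => ?_⟩
      rw [gg_eq_u u v (convex_Icc (0 : ℝ) 1) (fun t ht => hc.2 t ht) hx hy]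
      exact (u.seg' hc (x := 0) (by simp) hx hy).symm
    have h := wG_eq hU hW u v huv hcU hf
    change wG hU hW u v huv c = _
    rw [h]
    have e0 : (fun t : ℝ => c ((1 - t) * 0 + t * 0)) = fun _ => c 0 := by
      funext t
      simp
    have e1 : (fun t : ℝ => c ((1 - t) * 0 + t * 1)) = c := by
      funext t
      simp
    simp only [e0, e1, u.const hc.zero_mem]
    simp
  · intro c hc
    have hcU : IsP (U ∪ W) c := hc.mono subset_union_right
    have hf : IsPrim u v (Icc (0 : ℝ) 1) c (fun s => v (fun t => c ((1 - t) * 0 + t * s))) := by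
      refine ⟨1, one_pos, fun x hx y hy _ => ?_⟩
      rw [gg_eq_v u v huv (convex_Icc (0 : ℝ) 1) hc.1 (fun t ht => hc.2 t ht) hx hy]
      exact (v.seg' hc (x := 0) (by simp) hx hy).symm
    have h := wG_eq hU hW u v huv hcU hf
    change wG hU hW u v huv c = _
    rw [h]
    have e0 : (fun t : ℝ => c ((1 - t) * 0 + t * 0)) = fun _ => c 0 := by
      funext t
      simp
    have e1 : (fun t : ℝ => c ((1 - t) * 0 + t * 1)) = c := by
      funext t
      simp
    simp only [e0, e1, v.const hc.zero_mem]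
    simp

/-- Uniqueness of the glued transport. -/
theorem glue_unique {U W : Set X} (hU : IsOpen U) (hW : IsOpen W) (w w' : Hol (U ∪ W) H)
    (h1 : ∀ c, IsP U c → w c = w' c) (h2 : ∀ c, IsP W c → w c = w' c) : ∀ c, IsP (U ∪ W) c → w c = w' c := by
  intro c hc
  obtain ⟨δ, hδ, h⟩ := lebesgue hU hW isCompact_Icc hc.1 (fun t ht => hc.2 t ht)
  have key := const_of_local (convex_Icc (0 : ℝ) 1) hδ
    (h := fun s => (w (fun t => c ((1 - t) * 0 + t * s)))⁻¹ * w' (fun t => c ((1 - t) * 0 + t * s))) (by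
      intro x hx y hy hxy
      have e1 := w.seg' hc (x := 0) (by simp) hx hy
      have e2 := w'.seg' hc (x := 0) (by simp) hx hy
      rw [← e1, ← e2]
      have e3 : w (fun t => c ((1 - t) * x + t * y)) = w' (fun t => c ((1 - t) * x + t * y)) := by
        have hK : Convex ℝ (Icc (0 : ℝ) 1 ∩ Metric.ball x δ) := (convex_Icc (0 : ℝ) 1).inter (convex_ball x δ)
        have hx' : x ∈ Icc (0 : ℝ) 1 ∩ Metric.ball x δ := ⟨hx, Metric.mem_ball_self hδ⟩
        have hy' : y ∈ Icc (0 : ℝ) 1 ∩ Metric.ball x δ := ⟨hy, by rw [Metric.mem_ball, dist_comm]; exact hxy⟩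
        have hs : ∀ t ∈ Icc (0 : ℝ) 1, (1 - t) * x + t * y ∈ Icc (0 : ℝ) 1 ∩ Metric.ball x δ := fun t ht => by
          have := seg_mem hK hx' hy' ht
          simpa using this
        rcases h x hx with h5 | h5
        · exact h1 _ ⟨(hc.seg hx hy).1, fun t ht => h5 _ (hs t ht).1 (hs t ht).2⟩
        · exact h2 _ ⟨(hc.seg hx hy).1, fun t ht => h5 _ (hs t ht).1 (hs t ht).2⟩
      rw [e3]
      group) 0 (by simp) 1 (by simp)
  have e0 : (fun t : ℝ => c ((1 - t) * 0 + t * 0)) = fun _ => c 0 := by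
    funext t
    simp
  have e1 : (fun t : ℝ => c ((1 - t) * 0 + t * 1)) = c := by
    funext t
    simp
  simp only [e0, e1, w.const hc.zero_mem, w'.const hc.zero_mem] at key
  simp only [inv_one, mul_one] at key
  exact (inv_mul_eq_one.1 key.symm)

end Pool.Agent.CSM.D
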