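import Pool.Agent.CSM.Defs2

/-!
More internal definitions: `S^1 × S^m` as a union of two solid tori, the algebraic property of the loop `c`.
-/

open scoped Manifold ContDiff Topology
open Set

namespace Pool.Agent.CSM

/-- The second and following coordinates. -/
noncomputable def tl (m : ℕ) (v : E (m + 1)) : E m := ((consL m).symm v).2

/-- `Y = S^1 × S^m` as the union of two open solid tori. -/
structure IsS1S (m : ℕ) {Y : Type*} [TopologicalSpace Y] [ChartedSpace (E (m + 1)) Y] (A B : OPH (T m) Y) :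
    Prop where
  pdA : PD (m + 1) A
  pdB : PD (m + 1) B
  sA : A.source = univ
  sB : B.source = univ
  cover : A.target ∪ B.target = univ
  inter : A.target ∩ B.target = A '' {p : T m | p.2 ≠ 0}
  glue : ∀ (θ : ℝ) (x : E m), x ≠ 0 → A (mkT θ x) = B (mkT θ (inv m x))

/-- `c` is a loop whose class `t` in the fundamental group satisfies `t a t⁻¹ = a²` for some `a ≠ 1`, and all
solutions of `τ α τ⁻¹ = α²`, `α ≠ 1`, have `τ` conjugate to `t`. -/
def BSProp {M : Type*} [TopologicalSpace M] (c : ℝ → M) : Prop :=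
  Continuous c ∧ (∀ t, c (t + 1) = c t) ∧ ∃ p : Path (c 0) (c 0), (∀ s : unitInterval, p s = c s) ∧
    ∃ a : FundamentalGroup M (c 0), a ≠ 1 ∧
      FundamentalGroup.fromPath (Path.Homotopic.Quotient.mk p) * a * (FundamentalGroup.fromPath (Path.Homotopic.Quotient.mk p))⁻¹ = a ^ 2 ∧
      ∀ τ α : FundamentalGroup M (c 0), α ≠ 1 → τ * α * τ⁻¹ = α ^ 2 →
        ∃ g : FundamentalGroup M (c 0), τ = g * FundamentalGroup.fromPath (Path.Homotopic.Quotient.mk p) * g⁻¹

end Pool.Agent.CSM
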