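import Mathlib

/-!
# The group `⟨t, a | t a t⁻¹ = a ^ 2⟩`: all solutions of `τ α τ⁻¹ = α ^ 2`, `α ≠ 1`, have `τ` conjugate to `t`
-/

namespace Pool.Agent.CSM

section BS

variable {G : Type*} [Group G] {t a : G}

private theorem bs_conj_nat (h : t * a * t⁻¹ = a ^ 2) (j : ℕ) (m : ℤ) :
    t ^ j * a ^ m = a ^ (m * 2 ^ j) * t ^ j := by
  induction j generalizing m with
  | zero => simp
  | succ j ih =>
    have h1 : t * a ^ m * t⁻¹ = a ^ (m * 2) := by
      rw [← conj_zpow, h, ← zpow_natCast, ← zpow_mul]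
      congr 1
      push_cast
      ring
    have h2 : t * a ^ m = a ^ (m * 2) * t := by
      rw [← h1]; group
    rw [pow_succ t j, mul_assoc, h2, ← mul_assoc, ih, mul_assoc]
    congr 2
    ring

/-- Normal form. -/
private theorem bs_form (hg : Subgroup.closure {t, a} = ⊤) (h : t * a * t⁻¹ = a ^ 2) (x : G) :
    ∃ (k l : ℕ) (m : ℤ), x = (t ^ k)⁻¹ * a ^ m * t ^ l := by
  have hx : x ∈ Subgroup.closure ({t, a} : Set G) := by rw [hg]; trivial
  induction hx using Subgroup.closure_induction with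
  | mem x hx =>
    rcases hx with rfl | hx
    · exact ⟨0, 1, 0, by simp⟩
    · rw [Set.mem_singleton_iff] at hx
      subst hx
      exact ⟨0, 0, 1, by simp⟩
  | one => exact ⟨0, 0, 0, by simp⟩
  | mul x y _ _ hx hy =>
    obtain ⟨k, l, m, rfl⟩ := hx
    obtain ⟨k', l', m', rfl⟩ := hy
    rcases le_total k' l with hle | hle
    · obtain ⟨d, rfl⟩ := Nat.exists_eq_add_of_le hle
      refine ⟨k, d + l', m + m' * 2 ^ d, ?_⟩
      have h1 : t ^ (k' + d) * (t ^ k')⁻¹ = t ^ d := by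
        rw [add_comm, pow_add]; group
      calc (t ^ k)⁻¹ * a ^ m * t ^ (k' + d) * ((t ^ k')⁻¹ * a ^ m' * t ^ l')
          = (t ^ k)⁻¹ * a ^ m * ((t ^ (k' + d) * (t ^ k')⁻¹) * a ^ m') * t ^ l' := by group
        _ = (t ^ k)⁻¹ * a ^ m * (a ^ (m' * 2 ^ d) * t ^ d) * t ^ l' := by rw [h1, bs_conj_nat h]
        _ = _ := by rw [zpow_add, pow_add]; group
    · obtain ⟨d, rfl⟩ := Nat.exists_eq_add_of_le hle
      refine ⟨k + d, l', m * 2 ^ d + m', ?_⟩
      have h1 : t ^ l * (t ^ (l + d))⁻¹ = (t ^ d)⁻¹ := by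
        rw [add_comm l d, pow_add]; group
      have h2 : a ^ m * (t ^ d)⁻¹ = (t ^ d)⁻¹ * a ^ (m * 2 ^ d) := by
        have := bs_conj_nat h d m
        calc a ^ m * (t ^ d)⁻¹ = (t ^ d)⁻¹ * (t ^ d * a ^ m) * (t ^ d)⁻¹ := by group
          _ = _ := by rw [this]; group
      calc (t ^ k)⁻¹ * a ^ m * t ^ l * ((t ^ (l + d))⁻¹ * a ^ m' * t ^ l')
          = (t ^ k)⁻¹ * (a ^ m * (t ^ l * (t ^ (l + d))⁻¹)) * a ^ m' * t ^ l' := by group
        _ = (t ^ k)⁻¹ * ((t ^ d)⁻¹ * a ^ (m * 2 ^ d)) * a ^ m' * t ^ l' := by rw [h1, h2]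
        _ = _ := by
          rw [zpow_add, add_comm k d, pow_add]; group
  | inv x _ hx =>
    obtain ⟨k, l, m, rfl⟩ := hx
    exact ⟨l, k, -m, by rw [zpow_neg]; group⟩

variable (Φ : G →* Equiv.Perm ℚ)

private theorem phi_inv (x : G) (q : ℚ) : Φ x⁻¹ (Φ x q) = q := by
  rw [← Equiv.Perm.mul_apply, ← map_mul, inv_mul_cancel, map_one, Equiv.Perm.one_apply]

private theorem phi_mul (x y : G) (q : ℚ) : Φ (x * y) q = Φ x (Φ y q) := by
  rw [map_mul, Equiv.Perm.mul_apply]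

private theorem phi_pow (ht : ∀ x, Φ t x = 2 * x) (k : ℕ) (q : ℚ) : Φ (t ^ k) q = 2 ^ k * q := by
  induction k generalizing q with
  | zero => simp
  | succ k ih =>
    rw [pow_succ, phi_mul, ht, ih]
    ring

private theorem phi_pow_inv (ht : ∀ x, Φ t x = 2 * x) (k : ℕ) (q : ℚ) : Φ (t ^ k)⁻¹ q = q / 2 ^ k := by
  have h1 := phi_inv Φ (t ^ k) (q / 2 ^ k)
  rw [phi_pow Φ ht] at h1
  rw [← h1]
  congr 1
  field_simp

private theorem phi_nat (ha : ∀ x, Φ a x = x + 1) (m : ℕ) (q : ℚ) : Φ (a ^ m) q = q + m := by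
  induction m generalizing q with
  | zero => simp
  | succ m ih =>
    rw [pow_succ, phi_mul, ha, ih]
    push_cast
    ring

private theorem phi_zpow (ha : ∀ x, Φ a x = x + 1) (m : ℤ) (q : ℚ) : Φ (a ^ m) q = q + m := by
  obtain ⟨n, rfl | rfl⟩ := m.eq_nat_or_neg
  · rw [zpow_natCast, phi_nat Φ ha]
    push_cast
    ring
  · rw [zpow_neg, zpow_natCast]
    have h1 := phi_inv Φ (a ^ n) (q - n)
    rw [phi_nat Φ ha] at h1
    rw [show q - (n : ℚ) + n = q by ring] at h1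
    rw [h1]
    push_cast
    ring

private theorem phi_form (ht : ∀ x, Φ t x = 2 * x) (ha : ∀ x, Φ a x = x + 1) (k l : ℕ) (m : ℤ) (q : ℚ) :
    Φ ((t ^ k)⁻¹ * a ^ m * t ^ l) q = (2 ^ l * q + m) / 2 ^ k := by
  rw [phi_mul, phi_mul, phi_pow Φ ht, phi_zpow Φ ha, phi_pow_inv Φ ht]

/-- In a group generated by `t, a` with `t a t⁻¹ = a ^ 2`, acting on `ℚ` by `t x = 2 x`, `a x = x + 1`, all solutions
of `τ α τ⁻¹ = α ^ 2`, `α ≠ 1`, have `τ` conjugate to `t`. -/
theorem bs_unique (hg : Subgroup.closure {t, a} = ⊤) (h : t * a * t⁻¹ = a ^ 2)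
    (ht : ∀ x, Φ t x = 2 * x) (ha : ∀ x, Φ a x = x + 1) :
    a ≠ 1 ∧ ∀ τ α : G, α ≠ 1 → τ * α * τ⁻¹ = α ^ 2 → ∃ g, τ = g * t * g⁻¹ := by
  have hinj : ∀ x : G, (∀ q, Φ x q = q) → x = 1 := by
    intro x hx
    obtain ⟨k, l, m, rfl⟩ := bs_form hg h x
    have h0 := hx 0
    have h1 := hx 1
    rw [phi_form Φ ht ha] at h0 h1
    have h2 : (m : ℚ) = 0 := by
      have : (2 : ℚ) ^ k ≠ 0 := by positivity
      field_simp at h0
      simpa using h0
    have h3 : m = 0 := by exact_mod_cast h2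
    subst h3
    have h4 : (2 : ℚ) ^ l = 2 ^ k := by
      have : (2 : ℚ) ^ k ≠ 0 := by positivity
      field_simp at h1
      simpa using h1
    have h5 : l = k := by
      have h6 : (2 : ℕ) ^ l = 2 ^ k := by exact_mod_cast h4
      exact Nat.pow_right_injective le_rfl h6
    subst h5
    simp
  refine ⟨?_, ?_⟩
  · intro h1
    have h2 := ha 0
    rw [h1] at h2
    simp at h2
  · intro τ α hα hrel
    obtain ⟨k, l, m, hk⟩ := bs_form hg h τ
    obtain ⟨k', l', m', hk'⟩ := bs_form hg h α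
    have e1 : ∀ q, Φ τ q = (2 ^ l / 2 ^ k) * q + m / 2 ^ k := by
      intro q
      rw [hk, phi_form Φ ht ha]
      ring
    have e2 : ∀ q, Φ α q = (2 ^ l' / 2 ^ k') * q + m' / 2 ^ k' := by
      intro q
      rw [hk', phi_form Φ ht ha]
      ring
    have hu : (2 ^ l / 2 ^ k : ℚ) ≠ 0 := by positivity
    have hs : (2 ^ l' / 2 ^ k' : ℚ) ≠ 0 := by positivity
    generalize (2 ^ l / 2 ^ k : ℚ) = u at e1 hu
    generalize (2 ^ l' / 2 ^ k' : ℚ) = s at e2 hs
    set v : ℚ := m / 2 ^ k with hv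
    generalize (m' / 2 ^ k' : ℚ) = o at e2
    have hrel' : τ * α = α * (α * τ) := by
      calc τ * α = (τ * α * τ⁻¹) * τ := by group
        _ = _ := by rw [hrel, pow_two]; group
    have e3 : ∀ q, u * (s * q + o) + v = s * (s * (u * q + v) + o) + o := by
      intro q
      have := congrArg (fun x : G => Φ x q) hrel'
      simp only [phi_mul, e1, e2] at this
      exact this
    have e4 := e3 0
    have e5 := e3 1
    have hs1 : s = 1 := by
      have h1 : u * s * (s - 1) = 0 := by linear_combination e4 - e5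
      rcases mul_eq_zero.1 h1 with h2 | h2
      · exact absurd h2 (mul_ne_zero hu hs)
      · linarith
    subst hs1
    have ho : o ≠ 0 := by
      rintro rfl
      apply hα
      apply hinj
      intro q
      rw [e2]
      ring
    have hu2 : u = 2 := by
      have h1 : o * (u - 2) = 0 := by linear_combination e4
      rcases mul_eq_zero.1 h1 with h2 | h2
      · exact absurd h2 ho
      · linarith
    subst hu2
    have hgq : ∀ q, Φ ((t ^ k)⁻¹ * a ^ (-m) * t ^ k) q = q - v := by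
      intro q
      rw [phi_form Φ ht ha, hv]
      push_cast
      field_simp
      ring
    refine ⟨(t ^ k)⁻¹ * a ^ (-m) * t ^ k, ?_⟩
    set g := (t ^ k)⁻¹ * a ^ (-m) * t ^ k with hgdef
    have hg' : ∀ q, Φ g⁻¹ q = q + v := by
      intro q
      have h1 := phi_inv Φ g (q + v)
      rw [hgq, show q + v - v = q by ring] at h1
      exact h1
    have h1 : g * t * g⁻¹ * τ⁻¹ = 1 := by
      apply hinj
      intro q
      have h2 : ∀ q, Φ τ⁻¹ q = (q - v) / 2 := by
        intro q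
        have h3 := phi_inv Φ τ ((q - v) / 2)
        rw [e1, show 2 * ((q - v) / 2) + v = q by ring] at h3
        exact h3
      rw [phi_mul, phi_mul, phi_mul, h2, hg', ht, hgq]
      ring
    exact (mul_inv_eq_one.1 h1).symm

end BS

end Pool.Agent.CSM
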