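import Pool.Agent.CSM.E1
import Pool.Agent.CSM.E2

/-!
# Chunk E: group theory, in the form used by chunk D
-/

namespace Pool.Agent.CSM

/-- A pair with `τ α τ⁻¹ = α ^ 2`, `α ≠ 1`, in a free product lies in a conjugate of a factor. -/
theorem elliptic {G B : Type} [Group G] [Group B] (tau al : Monoid.Coprod G B) (h1 : al ≠ 1)
    (h2 : tau * al * tau⁻¹ = al ^ 2) :
    (∃ (g : Monoid.Coprod G B) (t a : G), tau = g * Monoid.Coprod.inl t * g⁻¹ ∧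
      al = g * Monoid.Coprod.inl a * g⁻¹) ∨
    (∃ (g : Monoid.Coprod G B) (t a : B), tau = g * Monoid.Coprod.inr t * g⁻¹ ∧
      al = g * Monoid.Coprod.inr a * g⁻¹) := by
  obtain ⟨g, ⟨t, a, -, -, h3, h4⟩ | ⟨t, a, -, -, h3, h4⟩⟩ := elliptic_coprod h1 h2
  · exact Or.inl ⟨g, t, a, h3, h4⟩
  · exact Or.inr ⟨g, t, a, h3, h4⟩

/-- The Baumslag–Solitar lemma. -/
theorem bs_lemma {G : Type} [Group G] (t a : G) (hgen : Subgroup.closure {t, a} = ⊤) (hrel : t * a * t⁻¹ = a ^ 2)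
    (f : G →* Equiv.Perm ℚ) (ht : ∀ x, f t x = 2 * x) (ha : ∀ x, f a x = x + 1) :
    a ≠ 1 ∧ ∀ tau al : G, al ≠ 1 → tau * al * tau⁻¹ = al ^ 2 → ∃ g : G, tau = g * t * g⁻¹ :=
  bs_unique f hgen hrel ht ha

end Pool.Agent.CSM
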