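import Pool.Agent.CSM.DCS
import Pool.Agent.CSM.E
import Pool.Agent.CSM.Defs3

/-!
Project CSM, chunk D, module DOne: the dichotomy (D1).
-/

open scoped Topology
open Set

namespace Pool.Agent.CSM.D

theorem bsProp_iff {M : Type} [TopologicalSpace M] {c : ℝ → M} {u : Hol (univ : Set M) (FundamentalGroup M (c 0))}
    (hu : IsTaut (c 0) u) :
    BSProp c ↔ Continuous c ∧ (∀ t, c (t + 1) = c t) ∧ ∃ a : FundamentalGroup M (c 0), a ≠ 1 ∧
      u c * a * (u c)⁻¹ = a ^ 2 ∧ ∀ τ α : FundamentalGroup M (c 0), α ≠ 1 → τ * α * τ⁻¹ = α ^ 2 →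
        ∃ g : FundamentalGroup M (c 0), τ = g * u c * g⁻¹ := by
  constructor
  · rintro ⟨hc, hp, p, hps, a, ha, h1, h2⟩
    have h01 : c 1 = c 0 := by simpa using hp 0
    have e : u c = FundamentalGroup.fromPath (Path.Homotopic.Quotient.mk p) := by
      rw [hu.loop c hc.continuousOn rfl h01]
      unfold lcls cls
      have : Path.ofLine (x := c 0) (y := c 0) hc.continuousOn rfl h01 = p := by
        ext t
        exact (hps t).symm
      rw [this]
    rw [← e] at h1 h2
    exact ⟨hc, hp, a, ha, h1, h2⟩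
  · rintro ⟨hc, hp, a, ha, h1, h2⟩
    have h01 : c 1 = c 0 := by simpa using hp 0
    have e : u c = FundamentalGroup.fromPath (Path.Homotopic.Quotient.mk
        (Path.ofLine (x := c 0) (y := c 0) hc.continuousOn rfl h01)) := by
      rw [hu.loop c hc.continuousOn rfl h01]
      rfl
    rw [e] at h1 h2
    exact ⟨hc, hp, Path.ofLine hc.continuousOn rfl h01, fun s => rfl, a, ha, h1, h2⟩

theorem lpc {n : ℕ} (M : OMan n) : LocallyPathConnectedSpace M := ChartedSpace.locallyPathConnectedSpace (E n) M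

theorem pcs {n : ℕ} (M : OMan n) : PathConnectedSpace M := by
  have := lpc M
  exact pathConnectedSpace_iff_connectedSpace.2 inferInstance

/-- (D1) A homeomorphism of connected sums moves `c` to `c` or into `N'`, up to free homotopy. -/
theorem dichotomy {n : ℕ} (hn : 3 ≤ n) {M N N' X X' : OMan n} {i : OPH (E n) M} {j : OPH (E n) N} {φ : OPH M X}
    {ψ : OPH N X} (h : IsCS n i j φ ψ) {i' : OPH (E n) M} {j' : OPH (E n) N'} {φ' : OPH M X'}
    {ψ' : OPH N' X'} (h' : IsCS n i' j' φ' ψ') {c : ℝ → M} (hc : BSProp c) (hi : ∀ t, c t ≠ i 0)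
    (hi' : ∀ t, c t ≠ i' 0) (F : X ≃ₜ X') :
    FreeHtpy univ (fun t => F (φ (c t))) (fun t => φ' (c t)) ∨
    ∃ k : ℝ → N', Continuous k ∧ (∀ t, k (t + 1) = k t) ∧ (∀ t, k t ≠ j' 0) ∧
      FreeHtpy univ (fun t => F (φ (c t))) (fun t => ψ' (k t)) := by
  have := lpc M
  have := lpc N
  have := lpc N'
  have := lpc X'
  have := pcs M
  have := pcs N
  have := pcs N'
  have := pcs X'
  obtain ⟨uM, huM⟩ := exists_isTaut (X := M) (c 0)
  obtain ⟨hcc, hcp, a, ha, hrel, huniq⟩ := (bsProp_iff huM).1 hc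
  have c01 : c 1 = c 0 := by simpa using hcp 0
  -- points off the centres
  have hne : ∃ v : E n, v ≠ 0 := by
    refine ⟨EuclideanSpace.single (⟨0, by omega⟩ : Fin n) (1 : ℝ), ?_⟩
    simp
  obtain ⟨v, hv⟩ := hne
  have offc : ∀ {Q : Type} [TopologicalSpace Q] (e : OPH (E n) Q), e.source = univ → e v ≠ e 0 := by
    intro Q _ e se h1
    exact hv (e.injOn (by rw [se]; trivial) (by rw [se]; trivial) h1)
  obtain ⟨uN', huN'⟩ := exists_isTaut (X := N') (j' v)
  obtain ⟨uN, huN⟩ := exists_isTaut (X := N) (j v)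
  obtain ⟨r, hr1, hr2, hr3⟩ := cs_universal hn h' (hi' 0) (offc j' h'.sj) huM huN'
  obtain ⟨r0, hr01, hr02, hr03⟩ := cs_universal hn h (hi 0) (offc j h.sj) huM huN
  -- the transport of `X` with values in the fundamental group of `M`
  set s : Hol (univ : Set X) (FundamentalGroup M (c 0)) :=
    r0.map (Monoid.Coprod.lift (MonoidHom.id _) 1) with hs
  have hs1 : ∀ d, IsP ({i 0}ᶜ : Set M) d → d 0 = c 0 → d 1 = c 0 → s (fun t => φ (d t)) = uM d := by
    intro d hd h0 h1
    rw [hs, Hol.map_apply, hr01 d hd h0 h1, Monoid.Coprod.lift_apply_inl]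
    rfl
  obtain ⟨σ, l, hσ⟩ := hr3 _ (s.pull (fun x => F.symm x) (by fun_prop) (mapsTo_univ _ _))
  -- the transport on `M`
  have φc : ContinuousOn (fun x => F (φ x)) ({i 0}ᶜ : Set M) := by
    rw [← h.sφ]
    exact F.continuous.comp_continuousOn φ.continuousOn
  obtain ⟨m1, hm1⟩ := (ext_point hn h.si).ex _ (r.pull (V := ({i 0}ᶜ : Set M)) (fun x => F (φ x)) φc (mapsTo_univ _ _))
  have hcP : IsP ({i 0}ᶜ : Set M) c := isP_of_continuous hcc hi
  have hcP' : IsP ({i' 0}ᶜ : Set M) c := isP_of_continuous hcc hi'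
  set μ := homOf m1 (c 0) with hμ
  have hμu : ∀ d, ContinuousOn d (Icc 0 1) → d 0 = c 0 → d 1 = c 0 → μ (uM d) = m1 d := by
    intro d hd h0 h1
    rw [huM.loop d hd h0 h1, hμ, homOf_lcls]
  have hτ : μ (uM c) = r (fun t => F (φ (c t))) := by
    rw [hμu c hcc.continuousOn rfl c01, hm1 c hcP, Hol.pull_apply]
  -- injectivity
  have hinj : μ a ≠ 1 := by
    intro hμa
    apply ha
    set κ := l (F (φ (c 0))) with hκ
    have h1 : AgreeAt ({i 0}ᶜ : Set M) (c 0) uM ((m1.map σ).gauge fun _ => κ) := by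
      intro d hd h0 h1
      have h2 := hσ (fun t => F (φ (d t))) (hd.comp φc (mapsTo_univ _ _))
      rw [Hol.pull_apply] at h2
      simp only [Homeomorph.symm_apply_apply] at h2
      rw [hs1 d hd h0 h1, h0, h1] at h2
      rw [Hol.gauge_apply, Hol.map_apply, hm1 d hd, Hol.pull_apply, h2]
    have h2 := (ext_point hn h.si).uniq _ _ _ (c 0) (hi 0) h1
    obtain ⟨d, hd, h0, h1', had⟩ := exists_lcls a
    have h3 := h2 d (isP_of_continuous hd fun _ => trivial) h0 h1'
    rw [Hol.gauge_apply, Hol.map_apply, ← hμu d hd.continuousOn h0 h1', huM.loop d hd.continuousOn h0 h1', ← had,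
      hμa, map_one, mul_one, mul_inv_cancel] at h3
    exact h3
  have hrel' : μ (uM c) * μ a * (μ (uM c))⁻¹ = μ a ^ 2 := by
    rw [← map_inv, ← map_mul, ← map_mul, hrel, map_pow]
  -- conjugate values of `r` give freely homotopic loops
  obtain ⟨u', hu'⟩ := exists_isTaut (X := X') (φ' (c 0))
  obtain ⟨σ', l', hσ'⟩ := hr3 _ u'
  have hconj : ∀ d d' : ℝ → X', Continuous d → Continuous d' → (∀ t, d (t + 1) = d t) → (∀ t, d' (t + 1) = d' t) →
      ∀ g, r d = g * r d' * g⁻¹ → FreeHtpy univ d d' := by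
    intro d d' hd hd' hp hp' g hg
    have e1 := hσ' d (isP_of_continuous hd fun _ => trivial)
    have e2 := hσ' d' (isP_of_continuous hd' fun _ => trivial)
    have d1 : d 1 = d 0 := by simpa using hp 0
    have d1' : d' 1 = d' 0 := by simpa using hp' 0
    rw [hg, d1] at e1
    rw [d1'] at e2
    refine hu'.freeHtpy hd hd' hp hp' (g := l' (d 0) * σ' g * (l' (d' 0))⁻¹) ?_
    rw [e1, e2]
    simp only [map_mul, map_inv]
    group
  have hFc : Continuous (fun t => F (φ (c t))) := φc.comp_continuous hcc hi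
  have hFp : ∀ t, F (φ (c (t + 1))) = F (φ (c t)) := fun t => by rw [hcp]
  rcases elliptic _ _ hinj hrel' with ⟨g, t0, a0, h1, h2⟩ | ⟨g, t0, a0, h1, h2⟩
  · left
    have ha0 : a0 ≠ 1 := by
      rintro rfl
      apply hinj
      rw [h2]
      simp only [map_one, mul_one, mul_inv_cancel]
    have hrel0 : t0 * a0 * t0⁻¹ = a0 ^ 2 := by
      apply Monoid.Coprod.inl_injective (N := FundamentalGroup N' (j' v))
      rw [h1, h2] at hrel'
      simp only [map_mul, map_inv, map_pow]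
      have h3 : g * (Monoid.Coprod.inl t0 * Monoid.Coprod.inl a0 * (Monoid.Coprod.inl t0)⁻¹) * g⁻¹ =
          g * (Monoid.Coprod.inl a0 ^ 2) * g⁻¹ := by
        calc _ = (g * Monoid.Coprod.inl t0 * g⁻¹) * (g * Monoid.Coprod.inl a0 * g⁻¹) * (g * Monoid.Coprod.inl t0 * g⁻¹)⁻¹ := by group
          _ = (g * Monoid.Coprod.inl a0 * g⁻¹) ^ 2 := hrel'
          _ = _ := by
            rw [pow_two, pow_two]
            group
      exact mul_left_cancel (mul_right_cancel h3)
    obtain ⟨g0, hg0⟩ := huniq t0 a0 ha0 hrel0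
    have φ'c : ContinuousOn φ' ({i' 0}ᶜ : Set M) := by
      rw [← h'.sφ]
      exact φ'.continuousOn
    refine hconj _ _ hFc (φ'c.comp_continuous hcc hi') hFp (fun t => by rw [hcp]) (g * Monoid.Coprod.inl g0) ?_
    rw [← hτ, h1, hr1 c hcP' rfl c01, hg0]
    simp only [map_mul, map_inv]
    group
  · right
    obtain ⟨k, hk, hkp, hkj, hk0, hku⟩ := huN'.exists_loop_in (U := ({j' 0}ᶜ : Set N')) (offc j' h'.sj)
      (fun H _ w w' hag => (ext_point hn h'.sj).uniq H w w' _ (offc j' h'.sj) hag) t0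
    have ψ'c : ContinuousOn ψ' ({j' 0}ᶜ : Set N') := by
      rw [← h'.sψ]
      exact ψ'.continuousOn
    refine ⟨k, hk, hkp, hkj, hconj _ _ hFc (ψ'c.comp_continuous hk hkj) hFp (fun t => by rw [hkp]) g ?_⟩
    rw [← hτ, h1, hr2 k (isP_of_continuous hk hkj) hk0 (by have := hkp 0; rw [zero_add] at this; rw [this, hk0]), hku]

end Pool.Agent.CSM.D
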