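import Pool.Agent.CSM.DTor

/-!
Project CSM, chunk D, module DPi: the tautological transport with values in the fundamental group, the homomorphism
given by a transport.
-/

open scoped Topology unitInterval
open Set CategoryTheory

namespace Pool.Agent.CSM.D

variable {X : Type} [TopologicalSpace X]

/-- The class of a path. -/
noncomputable def cls {c : ℝ → X} (hc : ContinuousOn c (Icc 0 1)) {x y : X} (h0 : c 0 = x) (h1 : c 1 = y) :
    FundamentalGroupoid.mk x ⟶ FundamentalGroupoid.mk y :=
  FundamentalGroupoid.fromPath (Path.Homotopic.Quotient.mk (Path.ofLine hc h0 h1))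

private theorem contOn_extend {x y : X} (p : Path x y) : ContinuousOn (p.extend : ℝ → X) (Icc 0 1) :=
  p.continuous_extend.continuousOn

theorem cls_extend {x y : X} (p : Path x y) :
    cls (c := p.extend) (contOn_extend p) (by simp) (by simp) =
      FundamentalGroupoid.fromPath (Path.Homotopic.Quotient.mk p) := by
  unfold cls
  rw [Path.ofLine_extend]

theorem cls_congr {c c' : ℝ → X} (hc : ContinuousOn c (Icc 0 1)) (hc' : ContinuousOn c' (Icc 0 1))
    (h : ∀ t ∈ Icc (0 : ℝ) 1, c t = c' t) {x y : X} (h0 : c 0 = x) (h1 : c 1 = y) (h0' : c' 0 = x)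
    (h1' : c' 1 = y) : cls hc h0 h1 = cls hc' h0' h1' := by
  have : Path.ofLine hc h0 h1 = Path.ofLine hc' h0' h1' := by
    ext t
    exact h t t.2
  unfold cls
  rw [this]

private theorem tri_convex : Convex ℝ Tri := by
  intro p hp q hq a b ha hb hab
  obtain ⟨h1, h2, h3⟩ := hp
  obtain ⟨h4, h5, h6⟩ := hq
  refine ⟨?_, ?_, ?_⟩
  · simp only [Prod.fst_add, Prod.smul_fst, smul_eq_mul]
    positivity
  · simp only [Prod.snd_add, Prod.smul_snd, smul_eq_mul]
    positivity
  · simp only [Prod.fst_add, Prod.smul_fst, Prod.snd_add, Prod.smul_snd, smul_eq_mul]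
    nlinarith

/-- The cocycle rule for classes. -/
theorem cls_tri {F : ℝ × ℝ → X} (hF : ContinuousOn F Tri) (h1 : ContinuousOn (fun t : ℝ => F (t, 0)) (Icc 0 1))
    (h2 : ContinuousOn (fun t : ℝ => F (1 - t, t)) (Icc 0 1)) (h3 : ContinuousOn (fun t : ℝ => F (0, t)) (Icc 0 1)) :
    cls h1 (x := F (0, 0)) (y := F (1, 0)) rfl rfl ≫
      cls h2 (x := F (1, 0)) (y := F (0, 1)) (by simp) (by simp) =
      cls h3 (x := F (0, 0)) (y := F (0, 1)) rfl rfl := by
  have hne : Tri.Nonempty := ⟨(0, 0), by norm_num [Tri]⟩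
  have : ContractibleSpace Tri := tri_convex.contractibleSpace hne
  have m0 : ((0 : ℝ), (0 : ℝ)) ∈ Tri := by norm_num [Tri]
  have m1 : ((1 : ℝ), (0 : ℝ)) ∈ Tri := by norm_num [Tri]
  have m2 : ((0 : ℝ), (1 : ℝ)) ∈ Tri := by norm_num [Tri]
  let l1 : Path (⟨(0, 0), m0⟩ : Tri) ⟨(1, 0), m1⟩ :=
    { toFun := fun t => ⟨((t : ℝ), 0), t.2.1, le_rfl, by simpa using t.2.2⟩
      continuous_toFun := by fun_prop
      source' := by simp
      target' := by simp }
  let l2 : Path (⟨(1, 0), m1⟩ : Tri) ⟨(0, 1), m2⟩ :=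
    { toFun := fun t => ⟨(1 - (t : ℝ), (t : ℝ)), by simpa using t.2.2, t.2.1, by simp⟩
      continuous_toFun := by fun_prop
      source' := by simp
      target' := by simp }
  let l3 : Path (⟨(0, 0), m0⟩ : Tri) ⟨(0, 1), m2⟩ :=
    { toFun := fun t => ⟨(0, (t : ℝ)), le_rfl, t.2.1, by simpa using t.2.2⟩
      continuous_toFun := by fun_prop
      source' := by simp
      target' := by simp }
  have h4 : (l1.trans l2).Homotopic l3 := SimplyConnectedSpace.paths_homotopic _ _
  let f : C(Tri, X) := ⟨Tri.domRestrict F, continuousOn_iff_continuous_domRestrict.1 hF⟩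
  have h5 := h4.map f
  rw [Path.map_trans] at h5
  have h6 : FundamentalGroupoid.fromPath (Path.Homotopic.Quotient.mk ((l1.map f.continuous).trans (l2.map f.continuous))) =
      FundamentalGroupoid.fromPath (Path.Homotopic.Quotient.mk (l3.map f.continuous)) :=
    Quotient.sound h5
  exact h6

/-- The tautological transport. -/
theorem exists_taut [PathConnectedSpace X] (b : X) :
    ∃ (p : ∀ x : X, Path b x) (u : Hol (univ : Set X) (FundamentalGroup X b)), p b = Path.refl b ∧
      ∀ (c : ℝ → X) (hc : ContinuousOn c (Icc 0 1)) (x y : X) (h0 : c 0 = x) (h1 : c 1 = y),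
        u c = FundamentalGroupoid.fromPath (Path.Homotopic.Quotient.mk (p x)) ≫ cls hc h0 h1 ≫
          Groupoid.inv (FundamentalGroupoid.fromPath (Path.Homotopic.Quotient.mk (p y))) := by
  classical
  obtain ⟨p, hp⟩ : ∃ p : ∀ x : X, Path b x, p b = Path.refl b := by
    refine ⟨fun x => if h : b = x then (Path.refl b).cast rfl h.symm else PathConnectedSpace.somePath b x, ?_⟩
    simp
  set P : ∀ x : X, FundamentalGroupoid.mk b ⟶ FundamentalGroupoid.mk x := fun x =>
    FundamentalGroupoid.fromPath (Path.Homotopic.Quotient.mk (p x)) with hP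
  set w : (ℝ → X) → FundamentalGroup X b := fun c =>
    if hc : ContinuousOn c (Icc 0 1) then P (c 0) ≫ cls hc rfl rfl ≫ Groupoid.inv (P (c 1)) else 𝟙 _ with hw
  have hwc : ∀ (c : ℝ → X) (hc : ContinuousOn c (Icc 0 1)) (x y : X) (h0 : c 0 = x) (h1 : c 1 = y),
      w c = P x ≫ cls hc h0 h1 ≫ Groupoid.inv (P y) := by
    intro c hc x y h0 h1
    subst h0 h1
    simp only [hw]
    rw [dif_pos hc]
  refine ⟨p, ⟨w, ?_, ?_⟩, hp, hwc⟩
  · intro c c' h
    by_cases hc : ContinuousOn c (Icc 0 1)
    · have hc' : ContinuousOn c' (Icc 0 1) := hc.congr fun t ht => (h t ht).symm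
      rw [hwc c hc (c 0) (c 1) rfl rfl, hwc c' hc' (c 0) (c 1) (h 0 (by simp)).symm (h 1 (by simp)).symm,
        cls_congr hc hc' h]
    · have hc' : ¬ ContinuousOn c' (Icc 0 1) := fun hc' => hc (hc'.congr fun t ht => h t ht)
      simp only [hw]
      rw [dif_neg hc, dif_neg hc']
  · intro F hF _
    have h1 : ContinuousOn (fun t : ℝ => F (t, 0)) (Icc 0 1) :=
      hF.comp (by fun_prop) fun t ht => ⟨ht.1, le_rfl, by simpa using ht.2⟩
    have h2 : ContinuousOn (fun t : ℝ => F (1 - t, t)) (Icc 0 1) :=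
      hF.comp (by fun_prop) fun t ht => ⟨by simpa using ht.2, ht.1, by simp⟩
    have h3 : ContinuousOn (fun t : ℝ => F (0, t)) (Icc 0 1) :=
      hF.comp (by fun_prop) fun t ht => ⟨le_rfl, ht.1, by simpa using ht.2⟩
    rw [hwc _ h1 (F (0, 0)) (F (1, 0)) rfl rfl, hwc _ h2 (F (1, 0)) (F (0, 1)) (by simp) (by simp),
      hwc _ h3 (F (0, 0)) (F (0, 1)) rfl rfl, ← cls_tri hF h1 h2 h3]
    change (P (F (0, 0)) ≫ cls h1 rfl rfl ≫ Groupoid.inv (P (F (1, 0)))) ≫ (P (F (1, 0)) ≫ _ ≫ _) = _
    simp

section hom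

variable {H : Type} [Group H]

private theorem w_htpy (w : Hol (univ : Set X) H) {x y : X} {p q : Path x y} (h : p.Homotopic q) :
    w (p.extend : ℝ → X) = w (q.extend : ℝ → X) := by
  obtain ⟨F⟩ := h
  have h1 := w.htpy (F := fun s t => F (projIcc 0 1 zero_le_one s, projIcc 0 1 zero_le_one t)) (x := x) (y := y)
    (by
      apply Continuous.continuousOn
      exact F.continuous.comp ((continuous_projIcc.comp continuous_fst).prodMk (continuous_projIcc.comp continuous_snd)))
    (fun _ _ _ _ => trivial)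
    (fun s _ => by
      rw [projIcc_left]
      exact F.source _)
    (fun s _ => by
      rw [projIcc_right]
      exact F.target _)
  rw [projIcc_right, projIcc_left] at h1
  have e1 : (fun t : ℝ => F ((1 : I), projIcc 0 1 zero_le_one t)) = (q.extend : ℝ → X) := by
    funext t
    have := F.apply_one (projIcc 0 1 zero_le_one t)
    exact this
  have e2 : (fun t : ℝ => F ((0 : I), projIcc 0 1 zero_le_one t)) = (p.extend : ℝ → X) := by
    funext t
    have := F.apply_zero (projIcc 0 1 zero_le_one t)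
    exact this
  change w (fun t : ℝ => F ((1 : I), projIcc 0 1 zero_le_one t)) = w (fun t : ℝ => F ((0 : I), projIcc 0 1 zero_le_one t)) at h1
  rw [e1, e2] at h1
  exact h1.symm

private theorem isP_extend {x y : X} (p : Path x y) : IsP (univ : Set X) (p.extend : ℝ → X) :=
  isP_of_continuous p.continuous_extend fun _ => trivial

private theorem extend_trans {x y z : X} (p : Path x y) (q : Path y z) (t : ℝ) (ht : t ∈ Icc (0 : ℝ) 1) :
    (p.trans q).extend t = cat (p.extend : ℝ → X) (q.extend : ℝ → X) t := by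
  rw [Path.extend_apply _ ht, Path.trans_apply]
  unfold cat
  by_cases h : t ≤ 1 / 2
  · rw [dif_pos h, if_pos h, Path.extend_apply _ ⟨by linarith [ht.1], by linarith⟩]
  · rw [dif_neg h, if_neg h, Path.extend_apply _ ⟨by linarith, by linarith [ht.2]⟩]

/-- The homomorphism of the fundamental group given by a transport. -/
noncomputable def homOf (w : Hol (univ : Set X) H) (b : X) : FundamentalGroup X b →* H where
  toFun q := Quotient.lift (fun p : Path b b => w (p.extend : ℝ → X)) (fun _ _ h => w_htpy w h) q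
  map_one' := by
    change w ((Path.refl b).extend : ℝ → X) = 1
    have : ((Path.refl b).extend : ℝ → X) = fun _ => b := rfl
    rw [this]
    exact w.const trivial
  map_mul' q r := by
    induction q using Quotient.inductionOn with
    | h q =>
      induction r using Quotient.inductionOn with
      | h r =>
        change w ((r.trans q).extend : ℝ → X) = w (q.extend : ℝ → X) * w (r.extend : ℝ → X)
        rw [← w.cat (isP_extend r) (isP_extend q) (by simp)]
        exact w.congr fun t ht => extend_trans r q t ht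

theorem homOf_mk (w : Hol (univ : Set X) H) {b : X} (p : Path b b) :
    homOf w b (FundamentalGroup.fromPath (Path.Homotopic.Quotient.mk p)) = w (p.extend : ℝ → X) := rfl

/-- The class of a loop. -/
noncomputable def lcls {c : ℝ → X} (hc : ContinuousOn c (Icc 0 1)) {b : X} (h0 : c 0 = b) (h1 : c 1 = b) :
    FundamentalGroup X b := cls hc h0 h1

theorem homOf_lcls (w : Hol (univ : Set X) H) {b : X} {c : ℝ → X} (hc : ContinuousOn c (Icc 0 1)) (h0 : c 0 = b)
    (h1 : c 1 = b) : homOf w b (lcls hc h0 h1) = w c := by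
  change w ((Path.ofLine hc h0 h1).extend : ℝ → X) = w c
  refine w.congr fun t ht => ?_
  rw [Path.extend_apply _ ht]
  rfl

theorem exists_lcls {b : X} (g : FundamentalGroup X b) :
    ∃ (c : ℝ → X) (hc : Continuous c) (h0 : c 0 = b) (h1 : c 1 = b), g = lcls hc.continuousOn h0 h1 := by
  induction g using Quotient.inductionOn with
  | h p =>
    refine ⟨p.extend, p.continuous_extend, by simp, by simp, ?_⟩
    exact (cls_extend p).symm

theorem homOf_comp {K : Type} [Group K] (f : H →* K) (w : Hol (univ : Set X) H) (b : X) :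
    homOf (w.map f) b = f.comp (homOf w b) := by
  ext g
  obtain ⟨c, hc, h0, h1, rfl⟩ := exists_lcls g
  rw [homOf_lcls, MonoidHom.comp_apply, homOf_lcls, Hol.map_apply]

end hom

end Pool.Agent.CSM.D
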