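import Pool.Agent.CSM.DDefs

/-!
Project CSM, chunk D, module DPrim: local to global on compact convex sets.
-/

open scoped Topology
open Set

namespace Pool.Agent.CSM.D

variable {V : Type} [NormedAddCommGroup V] [NormedSpace ℝ V]

/-- A locally constant function on a convex set is constant. -/
theorem const_of_local {α : Type} {K : Set V} (hK : Convex ℝ K) {ε : ℝ} (hε : 0 < ε) {h : V → α}
    (hl : ∀ x ∈ K, ∀ y ∈ K, dist x y < ε → h x = h y) : ∀ x ∈ K, ∀ y ∈ K, h x = h y := by
  intro x hx y hy
  obtain ⟨n, hn⟩ := exists_nat_gt (dist x y / ε)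
  have hn0 : (0 : ℝ) < n := lt_of_le_of_lt (div_nonneg dist_nonneg hε.le) hn
  have hn0' : (n : ℝ) ≠ 0 := hn0.ne'
  set P : ℕ → V := fun i => x + ((i : ℝ) / n) • (y - x) with hP
  have hPK : ∀ i, i ≤ n → P i ∈ K := by
    intro i hi
    have h1 : (i : ℝ) / n ≤ 1 := by
      rw [div_le_one hn0]
      exact_mod_cast hi
    have h2 : 0 ≤ (i : ℝ) / n := by positivity
    have h3 := hK hx hy (a := 1 - (i : ℝ) / n) (b := (i : ℝ) / n) (by linarith) h2 (by ring)
    have h4 : P i = (1 - (i : ℝ) / n) • x + ((i : ℝ) / n) • y := by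
      simp only [hP]
      module
    rw [h4]
    exact h3
  have hd : ∀ i, dist (P i) (P (i + 1)) < ε := by
    intro i
    have h1 : P i - P (i + 1) = (1 / (n : ℝ)) • (x - y) := by
      simp only [hP]
      push_cast
      rw [add_div]
      module
    rw [dist_eq_norm, h1, norm_smul, ← dist_eq_norm, Real.norm_eq_abs, abs_of_pos (by positivity)]
    rw [div_lt_iff₀ hε] at hn
    rw [one_div, inv_mul_lt_iff₀ hn0]
    exact hn
  have hall : ∀ i, i ≤ n → h x = h (P i) := by
    intro i
    induction i with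
    | zero =>
      intro _
      simp [hP]
    | succ i ih =>
      intro hi
      rw [ih (by omega)]
      exact hl _ (hPK i (by omega)) _ (hPK _ hi) (hd i)
  have h5 := hall n le_rfl
  have h6 : P n = y := by
    simp only [hP]
    rw [div_self hn0']
    simp
  rw [h6] at h5
  exact h5

/-- A local multiplicative cocycle on a compact convex set has a primitive. -/
theorem exists_primitive {K : Set V} (hKc : IsCompact K) (hK : Convex ℝ K) {H : Type} [Group H] (g : V → V → H)
    {δ : ℝ} (hδ : 0 < δ)
    (hg : ∀ x ∈ K, ∀ y ∈ K, ∀ z ∈ K, dist x y < δ → dist x z < δ → dist y z < δ → g y z * g x y = g x z) :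
    ∃ f : V → H, ∃ ε > 0, ∀ x ∈ K, ∀ y ∈ K, dist x y < ε → f y = g x y * f x := by
  rcases K.eq_empty_or_nonempty with rfl | ⟨x0, hx0⟩
  · exact ⟨fun _ => 1, 1, one_pos, fun x hx => absurd hx (by simp)⟩
  obtain ⟨R, hR⟩ := hKc.isBounded.subset_closedBall x0
  obtain ⟨n, hn⟩ := exists_nat_gt (3 * R / δ)
  have hR0 : 0 ≤ R := by
    have := hR hx0
    simpa using this
  have hn0 : (0 : ℝ) < n := lt_of_le_of_lt (div_nonneg (by linarith) hδ.le) hn
  -- subdivision points
  set P : V → ℕ → V := fun x i => x0 + ((i : ℝ) / n) • (x - x0) with hP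
  have hPK : ∀ x ∈ K, ∀ i, i ≤ n → P x i ∈ K := by
    intro x hx i hi
    have h1 : (i : ℝ) / n ≤ 1 := by
      rw [div_le_one hn0]
      exact_mod_cast hi
    have h2 : 0 ≤ (i : ℝ) / n := by positivity
    have h3 := hK hx0 hx (a := 1 - (i : ℝ) / n) (b := (i : ℝ) / n) (by linarith) h2 (by ring)
    have h4 : P x i = (1 - (i : ℝ) / n) • x0 + ((i : ℝ) / n) • x := by
      simp only [hP]
      module
    rw [h4]
    exact h3
  have hd1 : ∀ x ∈ K, ∀ i, dist (P x i) (P x (i + 1)) < δ / 3 := by
    intro x hx i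
    have h1 : P x i - P x (i + 1) = (1 / (n : ℝ)) • (x0 - x) := by
      simp only [hP]
      push_cast
      rw [add_div]
      module
    have h2 : dist x0 x ≤ R := by
      have := hR hx
      rw [Metric.mem_closedBall] at this
      rw [dist_comm]
      exact this
    rw [dist_eq_norm, h1, norm_smul, ← dist_eq_norm, Real.norm_eq_abs, abs_of_pos (by positivity)]
    rw [div_lt_iff₀ hδ] at hn
    rw [one_div, inv_mul_lt_iff₀ hn0]
    nlinarith
  have hd2 : ∀ x y : V, ∀ i, i ≤ n → dist (P x i) (P y i) ≤ dist x y := by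
    intro x y i hi
    have h1 : P x i - P y i = ((i : ℝ) / n) • (x - y) := by
      simp only [hP]
      module
    have h2 : (i : ℝ) / n ≤ 1 := by
      rw [div_le_one hn0]
      exact_mod_cast hi
    have h3 : 0 ≤ (i : ℝ) / n := by positivity
    rw [dist_eq_norm, h1, norm_smul, ← dist_eq_norm, Real.norm_eq_abs, abs_of_nonneg h3]
    exact mul_le_of_le_one_left dist_nonneg h2
  have hone : ∀ x ∈ K, g x x = 1 := by
    intro x hx
    have h := hg x hx x hx x hx (by simpa using hδ) (by simpa using hδ) (by simpa using hδ)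
    simpa using h
  -- products
  let Q : V → ℕ → H := fun x i => Nat.rec 1 (fun j q => g (P x j) (P x (j + 1)) * q) i
  have hQ0 : ∀ x, Q x 0 = 1 := fun x => rfl
  have hQs : ∀ x i, Q x (i + 1) = g (P x i) (P x (i + 1)) * Q x i := fun x i => rfl
  refine ⟨fun x => Q x n, δ / 3, by positivity, ?_⟩
  intro x hx y hy hxy
  have key : ∀ i, i ≤ n → Q y i = g (P x i) (P y i) * Q x i := by
    intro i
    induction i with
    | zero =>
      intro _
      rw [hQ0, hQ0]
      have e1 : P x 0 = x0 := by simp [hP]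
      have e2 : P y 0 = x0 := by simp [hP]
      rw [e1, e2, hone x0 hx0]
      simp
    | succ i ih =>
      intro hi
      have a1 := hPK x hx i (by omega)
      have a2 := hPK x hx (i + 1) hi
      have a3 := hPK y hy i (by omega)
      have a4 := hPK y hy (i + 1) hi
      have b1 := hd1 x hx i
      have b2 := hd1 y hy i
      have b3 := lt_of_le_of_lt (hd2 x y i (by omega)) hxy
      have b4 := lt_of_le_of_lt (hd2 x y (i + 1) hi) hxy
      have b5 : dist (P x i) (P y (i + 1)) < δ := by
        have := dist_triangle (P x i) (P y i) (P y (i + 1))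
        linarith
      have c1 := hg _ a1 _ a2 _ a4 (by linarith) b5 (by linarith)
      have c2 := hg _ a1 _ a3 _ a4 (by linarith) b5 (by linarith)
      rw [hQs, hQs, ih (by omega), ← mul_assoc, ← mul_assoc, c2, c1]
  have h := key n le_rfl
  have e1 : P x n = x := by
    simp only [hP]
    rw [div_self hn0.ne']
    simp
  have e2 : P y n = y := by
    simp only [hP]
    rw [div_self hn0.ne']
    simp
  rw [e1, e2] at h
  exact h

end Pool.Agent.CSM.D
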