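import Pool.Agent.CSM.DYY

/-!
Project CSM, chunk D, module DThree: the relator loop (D3).
-/

open scoped Topology
open Set

namespace Pool.Agent.CSM.D

section tubes

variable {X : Type} [TopologicalSpace X] {m : ℕ}

theorem tcore_eq {e : OPH (T m) X} {c : ℝ → X} (h : ∀ θ : ℝ, e (mkT θ 0) = c θ) :
    e '' {p : T m | p.2 = 0} = range c := by
  ext y
  constructor
  · rintro ⟨p, hp, rfl⟩
    obtain ⟨θ, hθ⟩ := QuotientAddGroup.mk_surjective (s := AddSubgroup.zmultiples (1 : ℝ)) p.1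
    refine ⟨θ, ?_⟩
    rw [← h θ]
    congr 1
    exact Prod.ext hθ (Eq.symm hp)
  · rintro ⟨θ, rfl⟩
    exact ⟨mkT θ 0, rfl, h θ⟩

theorem continuous_mkT (x : E m) : Continuous fun t : ℝ => mkT t x := by
  have h1 : Continuous fun t : ℝ => ((t : AddCircle (1 : ℝ)), x) :=
    (AddCircle.continuous_mk' 1).prodMk continuous_const
  exact h1

theorem mkT_add_one (t : ℝ) (x : E m) : mkT (t + 1) x = mkT t x := by
  unfold mkT
  rw [AddCircle.coe_add_period]

theorem parallel_free {e : OPH (T m) X} (se : e.source = univ) (x : E m) :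
    FreeHtpy univ (fun t => e (mkT t 0)) (fun t => e (mkT t x)) := by
  have ec : Continuous e := by
    rw [← continuousOn_univ, ← se]
    exact e.continuousOn
  refine ⟨fun s t => e (mkT t (s • x)), ?_, ?_, ?_, ?_, ?_⟩
  · have h1 : Continuous fun p : ℝ × ℝ => (((p.2 : ℝ) : AddCircle (1 : ℝ)), p.1 • x) :=
      ((AddCircle.continuous_mk' 1).comp continuous_snd).prodMk (continuous_fst.smul continuous_const)
    exact ec.comp h1
  · intro s t
    beta_reduce
    rw [mkT_add_one]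
  · intro t
    beta_reduce
    rw [zero_smul]
  · intro t
    beta_reduce
    rw [one_smul]
  · intro s t
    trivial

/-- A tube with total source around the core of a solid torus, off a point. -/
theorem exists_tube0 {Y Z : Type} [TopologicalSpace Y] [TopologicalSpace Z] {A : OPH (T m) Y} (sA : A.source = univ)
    {φ : OPH Y Z} {p0 : Y} (sφ : φ.source = {p0}ᶜ) (hp : ∀ θ : ℝ, A (mkT θ 0) ≠ p0) :
    ∃ e : OPH (T m) Z, e.source = univ ∧ ∀ θ : ℝ, e (mkT θ 0) = φ (A (mkT θ 0)) := by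
  obtain ⟨ρ, hρ, hρ'⟩ : ∃ ρ > 0, ∀ p : T m, ‖p.2‖ < ρ → A p ≠ p0 := by
    by_cases h : p0 ∈ A.target
    · refine ⟨‖(A.symm p0).2‖, ?_, ?_⟩
      · rw [gt_iff_lt, norm_pos_iff]
        intro h0
        obtain ⟨θ, hθ⟩ := QuotientAddGroup.mk_surjective (s := AddSubgroup.zmultiples (1 : ℝ)) (A.symm p0).1
        apply hp θ
        have h1 : mkT θ 0 = A.symm p0 := Prod.ext hθ h0.symm
        rw [h1, A.right_inv h]
      · intro p hp h1
        rw [← h1, A.left_inv (by rw [sA]; trivial)] at hp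
        exact lt_irrefl _ hp
    · refine ⟨1, one_pos, fun p _ h1 => h ?_⟩
      rw [← h1]
      exact A.map_source (by rw [sA]; trivial)
  let S : OPH (T m) (T m) :=
    ((OpenPartialHomeomorph.refl (AddCircle (1 : ℝ))).prod (OpenPartialHomeomorph.univBall (0 : E m) ρ) :
      OPH (AddCircle (1 : ℝ) × E m) (AddCircle (1 : ℝ) × E m))
  have hS1 : S.source = univ := by
    change ((OpenPartialHomeomorph.refl (AddCircle (1 : ℝ))).prod (OpenPartialHomeomorph.univBall (0 : E m) ρ)).source = _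
    rw [OpenPartialHomeomorph.prod_source, OpenPartialHomeomorph.univBall_source,
      OpenPartialHomeomorph.refl_source, univ_prod_univ]
    rfl
  have hS2 : ∀ p : T m, ‖(S p).2‖ < ρ := by
    intro p
    have h1 : OpenPartialHomeomorph.univBall (0 : E m) ρ p.2 ∈ (OpenPartialHomeomorph.univBall (0 : E m) ρ).target :=
      (OpenPartialHomeomorph.univBall (0 : E m) ρ).map_source (by rw [OpenPartialHomeomorph.univBall_source]; trivial)
    rw [OpenPartialHomeomorph.univBall_target _ hρ, mem_ball_zero_iff] at h1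
    exact h1
  have hS3 : ∀ θ : ℝ, S (mkT θ 0) = mkT θ 0 := by
    intro θ
    refine Prod.ext rfl ?_
    exact OpenPartialHomeomorph.univBall_apply_zero (0 : E m) ρ
  refine ⟨(S.trans A).trans φ, ?_, ?_⟩
  · rw [OpenPartialHomeomorph.trans_source, OpenPartialHomeomorph.trans_source, hS1, sA, sφ]
    rw [eq_univ_iff_forall]
    intro p
    exact ⟨⟨trivial, trivial⟩, hρ' _ (hS2 p)⟩
  · intro θ
    change φ (A (S (mkT θ 0))) = _
    rw [hS3]

end tubes

section relator

variable {m : ℕ} {Y₁ Y : OMan (m + 1)} {A B : OPH (T m) Y₁} {i j : OPH (E (m + 1)) Y₁} {φ ψ : OPH Y₁ Y}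

/-- the loop `k` -/
theorem exists_k (hm : 3 ≤ m) (hY₁ : IsS1S m A B) (h : IsCS (m + 1) i j φ ψ) (hi : ∀ θ : ℝ, A (mkT θ 0) ∉ i.target)
    (hj : ∀ θ : ℝ, A (mkT θ 0) ∉ j.target) {x0 : Y} {d1 d2 : ℝ → Y} (D : Dt A φ ψ x0 d1 d2) :
    ∃ k : ℝ → Y, Continuous k ∧ (∀ t, k (t + 1) = k t) ∧ (∀ s t, k s ≠ φ (A (mkT t 0))) ∧
      ∀ (H : Type) [Group H] (w : Hol (univ : Set Y) H),
        w k = (w d2 * w d1) * (w (lpA A ψ d1 d2) * w (lpA A ψ d1 d2) * w (fun t => φ (A (mkT t 0))) *
          (w (lpA A ψ d1 d2))⁻¹ * (w (fun t => φ (A (mkT t 0))))⁻¹) * (w d2 * w d1)⁻¹ := by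
  have := lpc Y
  have := pcs Y
  set T0 : ℝ → Y := fun t => φ (A (mkT t 0)) with hT0
  set L : ℝ → Y := lpA A ψ d1 d2 with hL
  have q1 : IsP univ d1 := D.p1.mono (subset_univ _)
  have q2 : IsP univ d2 := D.p2.mono (subset_univ _)
  have e1 : d1 1 = d2 0 := by rw [D.o1, D.z2]
  have q3 := q1.cat q2 e1
  have qT : IsP univ T0 := (ct_isP hY₁ h hi).mono (subset_univ _)
  have T1 : T0 1 = T0 0 := by
    simp only [hT0]
    rw [mkT_one]
  obtain ⟨qL, L0, L1, -⟩ := lpA_apply hY₁ h hj D (Hol.cob (univ : Set Y) fun _ => (1 : Multiplicative ℤ))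
  rw [← hL] at qL L0 L1
  have L0' : L 0 = T0 0 := L0
  have L1' : L 1 = T0 0 := L1
  -- the word
  have f1 : L 1 = L 0 := by rw [L1', L0']
  have g1 := qL.cat qL f1
  have f2 : T0 1 = cat L L 0 := by rw [cat_zero, T1, L0']
  have g2 := qT.cat g1 f2
  have f3 : rev L 1 = cat T0 (cat L L) 0 := by rw [rev_one, cat_zero, L0']
  have g3 := qL.rev.cat g2 f3
  have f4 : rev T0 1 = cat (rev L) (cat T0 (cat L L)) 0 := by rw [rev_one, cat_zero, rev_zero, L1']
  have g4 := qT.rev.cat g3 f4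
  set W : ℝ → Y := cat (rev T0) (cat (rev L) (cat T0 (cat L L))) with hW
  have W0 : W 0 = T0 0 := by rw [hW, cat_zero, rev_zero, T1]
  have W1 : W 1 = T0 0 := by rw [hW, cat_one, cat_one, cat_one, cat_one, L1']
  -- based at the second core
  have z1 : cat d1 d2 0 = T0 0 := by rw [cat_zero, D.z1]
  have f5 : rev (cat d1 d2) 1 = W 0 := by rw [rev_one, z1, W0]
  have g5 := q3.rev.cat g4 f5
  have f6 : cat (rev (cat d1 d2)) W 1 = cat d1 d2 0 := by rw [cat_one, W1, z1]
  have g6 := g5.cat q3 f6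
  set V : ℝ → Y := cat (cat (rev (cat d1 d2)) W) (cat d1 d2) with hV
  have V0 : V 0 = ψ (A (mkT 0 0)) := by rw [hV, cat_zero, cat_zero, rev_zero, cat_one, D.o2]
  have V1 : V 1 = ψ (A (mkT 0 0)) := by rw [hV, cat_one, cat_one, D.o2]
  have hval : ∀ (H : Type) [Group H] (w : Hol (univ : Set Y) H),
      w V = (w d2 * w d1) * (w L * w L * w T0 * (w L)⁻¹ * (w T0)⁻¹) * (w d2 * w d1)⁻¹ := by
    intro H _ w
    rw [hV, w.cat g5 q3 f6, w.cat q3.rev g4 f5, w.rev q3, w.cat q1 q2 e1, hW, w.cat qT.rev g3 f4,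
      w.cat qL.rev g2 f3, w.cat qT g1 f2, w.cat qL qL f1, w.rev qT, w.rev qL]
    group
  -- a tube around the first core
  obtain ⟨e0, se0, he0⟩ := exists_tube0 (A := A) (φ := φ) hY₁.sA h.sφ (fun θ hθ => hi θ (by
    rw [hθ]
    exact i.map_source (by rw [h.si]; trivial)))
  have hcore : e0 '' {p : T m | p.2 = 0} = range T0 := tcore_eq he0
  obtain ⟨u, hu⟩ := exists_isTaut (X := Y) (ψ (A (mkT 0 0)))
  have hb : ψ (A (mkT 0 0)) ∈ (range T0)ᶜ := by
    rintro ⟨t, ht⟩
    apply ct_notMem h hi t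
    change T0 t ∈ _
    rw [ht]
    exact (ca_isP hY₁ h hj).zero_mem
  obtain ⟨k, hk, hkp, hkU, hk0, hku⟩ := hu.exists_loop_in (U := (range T0)ᶜ) hb (by
    intro H _ w w' hag
    rw [← hcore] at hag hb
    exact (ext_tube hm se0).uniq H w w' _ hb hag) (lcls g6.1 V0 V1)
  have hk1 : k 1 = ψ (A (mkT 0 0)) := by
    have := hkp 0
    rw [zero_add] at this
    rw [this, hk0]
  refine ⟨k, hk, hkp, fun s t hst => hkU s ⟨t, hst.symm⟩, fun H _ w => ?_⟩
  rw [← hval H w]
  rw [← homOf_lcls w hk.continuousOn hk0 hk1, ← homOf_lcls w g6.1 V0 V1, ← hku, hu.loop k hk.continuousOn hk0 hk1]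

/-- conjugates of one -/
theorem eq_one_of_conj {H : Type} [Group H] {x y : H} (h : ∃ g : H, x = g * y * g⁻¹) (hx : x = 1) : y = 1 := by
  obtain ⟨g, hg⟩ := h
  have : y = g⁻¹ * x * g := by
    rw [hg]
    group
  rw [this, hx]
  group

/-- (D3) The relator loop in `(S^1 × S^m) # (S^1 × S^m)`. -/
theorem exists_relator {m : ℕ} (hm : 3 ≤ m) {Y₁ Y : OMan (m + 1)} {A B : OPH (T m) Y₁} (hY₁ : IsS1S m A B)
    {i j : OPH (E (m + 1)) Y₁} {φ ψ : OPH Y₁ Y} (h : IsCS (m + 1) i j φ ψ)
    (hi : ∀ θ : ℝ, A (mkT θ 0) ∉ i.target) (hj : ∀ θ : ℝ, A (mkT θ 0) ∉ j.target) :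
    ∃ k : ℝ → Y, Continuous k ∧ (∀ t, k (t + 1) = k t) ∧ (∀ s t, k s ≠ φ (A (mkT t 0))) ∧
      (∀ r : ℝ → Y, Emb (m + 1) r → FreeHtpy {y | ∀ t : ℝ, y ≠ φ (A (mkT t 0))} k r →
        (∀ (e : OPH (T m) Y), (∀ θ : ℝ, e (mkT θ 0) = r θ) → (∀ θ : ℝ, φ (A (mkT θ 0)) ∉ e.target) →
          ∀ (M : OMan (m + 1)) (χ : OPH Y M), Repl (m + 1) (circ m) e χ →
            BSProp fun t => χ (φ (A (mkT t 0)))) ∧
        (∀ (e : OPH (T m) Y), (∀ θ : ℝ, e (mkT θ 0) = φ (A (mkT θ 0))) → (∀ θ : ℝ, r θ ∉ e.target) →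
          ∀ (Y' : OMan (m + 1)) (χ : OPH Y Y'), Repl (m + 1) (circ m) e χ →
            FreeHtpy univ (fun t => χ (r t)) (fun t => χ (ψ (A (mkT t 0)))))) := by
  have := lpc Y
  have := pcs Y
  obtain ⟨x0, d1, d2, D⟩ := exists_Dt hm hY₁ h hi hj
  obtain ⟨k, hk, hkp, hkT, hkw⟩ := exists_k hm hY₁ h hi hj D
  obtain ⟨x, hx⟩ := exists_ne m (by omega)
  set L : ℝ → Y := lpA A ψ d1 d2 with hL
  obtain ⟨qL, L0, L1, -⟩ := lpA_apply hY₁ h hj D (Hol.cob (univ : Set Y) fun _ => (1 : Multiplicative ℤ))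
  rw [← hL] at qL L0 L1
  have qT : IsP univ (fun t => φ (A (mkT t 0))) := (ct_isP hY₁ h hi).mono (subset_univ _)
  have Tc : Continuous fun t => φ (A (mkT t 0)) := by
    have Ac : Continuous A := by
      rw [← continuousOn_univ, ← hY₁.sA]
      exact A.continuousOn
    refine φ.continuousOn.comp_continuous (Ac.comp (continuous_mkT 0)) fun t => ?_
    rw [h.sφ]
    intro h1
    have h2 : A (mkT t 0) = i 0 := h1
    apply hi t
    rw [h2]
    exact i.map_source (by rw [h.si]; trivial)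
  have ψAc : Continuous fun t => ψ (A (mkT t 0)) := by
    have Ac : Continuous A := by
      rw [← continuousOn_univ, ← hY₁.sA]
      exact A.continuousOn
    refine ψ.continuousOn.comp_continuous (Ac.comp (continuous_mkT 0)) fun t => ?_
    rw [h.sψ]
    intro h1
    have h2 : A (mkT t 0) = j 0 := h1
    apply hj t
    rw [h2]
    exact j.map_source (by rw [h.sj]; trivial)
  refine ⟨k, hk, hkp, hkT, fun r hr hkr => ⟨?_, ?_⟩⟩
  · intro e he hce M χ hRepl
    have S : Surg m e χ := surg_of_repl hm hRepl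
    have := lpc M
    have := pcs M
    have hTs : ∀ t : ℝ, φ (A (mkT t 0)) ∈ (e '' {p : T m | p.2 = 0})ᶜ := by
      rintro t ⟨p, -, hp⟩
      apply hce t
      rw [← hp]
      exact e.map_source (by rw [S.se]; trivial)
    have χc : ContinuousOn χ ((e '' {p : T m | p.2 = 0})ᶜ) := by rw [← S.sχ]; exact χ.continuousOn
    have pT : IsP ((e '' {p : T m | p.2 = 0})ᶜ) (fun t => φ (A (mkT t 0))) := isP_of_continuous Tc hTs
    obtain ⟨u, hu⟩ := exists_isTaut (X := M) (χ (φ (A (mkT 0 0))))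
    obtain ⟨v, hv⟩ := (ext_tube hm S.se).ex _ (u.pull (V := (e '' {p : T m | p.2 = 0})ᶜ) χ χc (mapsTo_univ _ _))
    have hv' : ∀ c, IsP ((e '' {p : T m | p.2 = 0})ᶜ) c → v c = u (fun t => χ (c t)) := fun c hc => by
      rw [hv c hc, Hol.pull_apply]
    -- values on the parallel copy
    have hpar : IsP ((e '' {p : T m | p.2 = 0})ᶜ) (fun t => e (mkT t x)) := by
      have h1 := S.par_isP hx
      rw [← tube_inter S.se] at h1
      exact h1.mono inter_subset_left
    have he' : (fun t : ℝ => e (mkT t 0)) = r := funext he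
    have toOne : ∀ (H : Type) [Group H] (w : Hol (univ : Set Y) H), (w (fun t => e (mkT t x)) = 1 ↔ w k = 1) := by
      intro H _ w
      have c1 := conj_of_freeHtpy (hkr.mono (subset_univ _)) w
      have c2 := conj_of_freeHtpy (parallel_free S.se x) w
      rw [he'] at c2
      have c3 := conj_of_freeHtpy (hkr.mono (subset_univ _)).symm w
      have c4 := conj_of_freeHtpy (parallel_free S.se x).symm w
      rw [he'] at c4
      constructor
      · intro h1
        exact eq_one_of_conj c3 (eq_one_of_conj c4 h1)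
      · intro h1
        exact eq_one_of_conj c2 (eq_one_of_conj c1 h1)
    have hvk : v k = 1 := (toOne _ v).1 (by rw [hv' _ hpar, S.null u hx])
    set t0 := u (fun t => χ (φ (A (mkT t 0)))) with ht0
    set a := v L with ha
    have hvT : v (fun t => φ (A (mkT t 0))) = t0 := by rw [hv' _ pT]
    have hword : ∀ (H : Type) [Group H] (w : Hol (univ : Set Y) H), (w k = 1 ↔
        w L * w L * w (fun t => φ (A (mkT t 0))) * (w L)⁻¹ * (w (fun t => φ (A (mkT t 0))))⁻¹ = 1) := by
      intro H _ w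
      rw [hkw H w]
      constructor
      · intro h1
        exact eq_one_of_conj ⟨w d2 * w d1, rfl⟩ h1
      · intro h1
        rw [h1]
        group
    have hrel : t0 * a * t0⁻¹ = a ^ 2 := by
      have h1 := (hword _ v).1 hvk
      rw [hvT, ← ha] at h1
      calc t0 * a * t0⁻¹ = (a * a * t0 * a⁻¹ * t0⁻¹)⁻¹ * (a * a) := by group
        _ = a ^ 2 := by
          rw [h1, inv_one, one_mul, pow_two]
    -- the action on the line
    set dq : Equiv.Perm ℚ := Equiv.mulLeft₀ (2 : ℚ) two_ne_zero with hdq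
    set sq : Equiv.Perm ℚ := Equiv.addRight (1 : ℚ) with hsq
    have hq : sq * sq * dq * sq⁻¹ * dq⁻¹ = 1 := by
      have h1 : sq * sq * dq = dq * sq := by
        ext y
        simp only [Equiv.Perm.coe_mul, Function.comp_apply, hdq, hsq, Equiv.coe_addRight, Equiv.mulLeft₀_apply]
        ring
      rw [h1]
      group
    obtain ⟨w, hwT, hwL⟩ := y_exists hm hY₁ h hi hj D dq sq
    rw [← hL] at hwL
    have hwk : w k = 1 := (hword _ w).2 (by rw [hwT, hwL]; exact hq)
    have hwp : w (fun t => e (mkT t x)) = 1 := (toOne _ w).2 hwk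
    obtain ⟨w', hw'⟩ := S.ext hm (w.mono (subset_univ χ.source)) hx hwp
    have bsrc : φ (A (mkT 0 0)) ∈ χ.source := by rw [S.sχ]; exact hTs 0
    set f := homOf w' (χ (φ (A (mkT 0 0)))) with hf
    have hfu : ∀ c, IsP ((e '' {p : T m | p.2 = 0})ᶜ) c → c 0 = φ (A (mkT 0 0)) → c 1 = φ (A (mkT 0 0)) →
        f (u (fun t => χ (c t))) = w c := by
      intro c hc h0 h1
      have hc2 : ContinuousOn (fun t => χ (c t)) (Icc 0 1) := χc.comp hc.1 hc.2
      have h0' : (fun t => χ (c t)) 0 = χ (φ (A (mkT 0 0))) := by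
        change χ (c 0) = _
        rw [h0]
      have h1' : (fun t => χ (c t)) 1 = χ (φ (A (mkT 0 0))) := by
        change χ (c 1) = _
        rw [h1]
      rw [hu.loop _ hc2 h0' h1', hf, homOf_lcls]
      have hc3 := hc
      rw [← S.sχ] at hc3
      rw [hw' c hc3, Hol.mono_apply]
    have T1 : φ (A (mkT 1 0)) = φ (A (mkT 0 0)) := by rw [mkT_one]
    have hft : f t0 = dq := by
      rw [ht0, hfu _ pT rfl T1, hwT]
    have hfa : f a = sq := by
      have h1 : AgreeAt ((e '' {p : T m | p.2 = 0})ᶜ) (φ (A (mkT 0 0))) (v.map f) w := by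
        intro c hc h0 h1
        rw [Hol.map_apply, hv' c hc, hfu c hc h0 h1]
      have h2 := (ext_tube hm S.se).uniq _ _ _ _ (hTs 0) h1 L qL L0 L1
      rw [Hol.map_apply, hwL] at h2
      exact h2
    have pχ : IsPathConnected χ.source := by
      rw [S.sχ]
      exact isPathConnected_compl_tcore (by omega) S.se
    have hgen : Subgroup.closure {t0, a} = ⊤ := by
      refine hu.closure_eq_top fun H _ f1 f2 e1 e2 => ?_
      refine S.uniq hm pχ bsrc _ _ ?_
      intro c hc h0 h1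
      have hc' := isP_symm χ hc
      have hyu := y_uniq hm hY₁ h hi hj D (v.map f1) (v.map f2) (by
        rw [Hol.map_apply, Hol.map_apply, hvT, e1]) (by rw [Hol.map_apply, Hol.map_apply, ← hL, ← ha, e2])
      have h2 := hyu (fun t => χ.symm (c t)) (hc'.mono (subset_univ _)) (by rw [h0, χ.left_inv bsrc])
        (by rw [h1, χ.left_inv bsrc])
      rw [S.sχ] at hc'
      rw [Hol.map_apply, Hol.map_apply, hv' _ hc', u.congr (fun t ht => χ.right_inv (hc.2 t ht))] at h2
      exact h2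
    obtain ⟨hb1, hb2⟩ := bs_lemma t0 a hgen hrel f (fun y => by rw [hft, hdq]; rfl) (fun y => by rw [hfa, hsq]; rfl)
    have hfin := bsProp_iff (c := fun t => χ (φ (A (mkT t 0)))) hu
    rw [hfin]
    exact ⟨χc.comp_continuous Tc hTs, fun t => by simp only [mkT_add_one], a, hb1, hrel, hb2⟩
  · intro e he hre Y' χ hRepl
    have S : Surg m e χ := surg_of_repl hm hRepl
    have := lpc Y'
    have := pcs Y'
    have hcore : e '' {p : T m | p.2 = 0} = range fun t => φ (A (mkT t 0)) := tcore_eq he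
    have hset : (e '' {p : T m | p.2 = 0})ᶜ = {y : Y | ∀ t : ℝ, y ≠ φ (A (mkT t 0))} := by
      rw [hcore]
      ext y
      constructor
      · intro h1 t h2
        exact h1 ⟨t, h2.symm⟩
      · rintro h1 ⟨t, h2⟩
        exact h1 t h2.symm
    have χc : ContinuousOn χ ((e '' {p : T m | p.2 = 0})ᶜ) := by rw [← S.sχ]; exact χ.continuousOn
    obtain ⟨u, hu⟩ := exists_isTaut (X := Y') (χ (ψ (A (mkT 0 0))))
    obtain ⟨v, hv⟩ := (ext_tube hm S.se).ex _ (u.pull (V := (e '' {p : T m | p.2 = 0})ᶜ) χ χc (mapsTo_univ _ _))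
    have hv' : ∀ c, IsP ((e '' {p : T m | p.2 = 0})ᶜ) c → v c = u (fun t => χ (c t)) := fun c hc => by
      rw [hv c hc, Hol.pull_apply]
    have hpar : IsP ((e '' {p : T m | p.2 = 0})ᶜ) (fun t => e (mkT t x)) := by
      have h1 := S.par_isP hx
      rw [← tube_inter S.se] at h1
      exact h1.mono inter_subset_left
    have he' : (fun t : ℝ => e (mkT t 0)) = fun t => φ (A (mkT t 0)) := funext he
    have hvT : v (fun t => φ (A (mkT t 0))) = 1 := by
      have c4 := conj_of_freeHtpy (parallel_free S.se x).symm v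
      rw [he'] at c4
      exact eq_one_of_conj c4 (by rw [hv' _ hpar, S.null u hx])
    have hcas : ∀ t : ℝ, ψ (A (mkT t 0)) ∈ (e '' {p : T m | p.2 = 0})ᶜ := by
      intro t
      rw [hset]
      intro s h1
      apply ct_notMem h hi s
      rw [← h1]
      have hsrc : A (mkT t 0) ∈ ψ.source := by
        rw [h.sψ]
        intro h1
        have h2 : A (mkT t 0) = j 0 := h1
        apply hj t
        rw [h2]
        exact j.map_source (by rw [h.sj]; trivial)
      exact ψ.map_source hsrc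
    have hks : ∀ t : ℝ, k t ∈ (e '' {p : T m | p.2 = 0})ᶜ := by
      intro t
      rw [hset]
      exact fun s => hkT t s
    have hrs : ∀ t : ℝ, r t ∈ (e '' {p : T m | p.2 = 0})ᶜ := by
      rintro t ⟨p, -, hp⟩
      apply hre t
      rw [← hp]
      exact e.map_source (by rw [S.se]; trivial)
    have hvk : v k = v (fun t => ψ (A (mkT t 0))) := by
      have h1 := hkw _ v
      obtain ⟨-, -, -, h2⟩ := lpA_apply hY₁ h hj D v
      rw [hL, h2, hvT] at h1
      rw [h1]
      group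
    have e1 : u (fun t => χ (k t)) = u (fun t => χ (ψ (A (mkT t 0)))) := by
      rw [← hv' _ (isP_of_continuous hk hks), hvk, hv' _ (isP_of_continuous ψAc hcas)]
    have f1 : FreeHtpy univ (fun t => χ (k t)) (fun t => χ (ψ (A (mkT t 0)))) := by
      refine hu.freeHtpy (χc.comp_continuous hk hks) (χc.comp_continuous ψAc hcas) (fun t => by rw [hkp])
        (fun t => by simp only [mkT_add_one]) (g := 1) ?_
      rw [e1]
      group
    have f2 : FreeHtpy univ (fun t => χ (k t)) (fun t => χ (r t)) := by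
      rw [← hset] at hkr
      exact (hkr.map χc (mapsTo_univ _ _))
    exact f2.symm.trans f1

end relator

end Pool.Agent.CSM.D
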