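import Pool.Agent.CSM.DTriv

/-!
Project CSM, chunk D, module DTor: the circle and the open solid torus.
-/

open scoped Topology
open Set

namespace Pool.Agent.CSM.D

section circle

/-- Lifting of paths from the circle to the line. -/
theorem exists_lift {c : ℝ → AddCircle (1 : ℝ)} (hc : ContinuousOn c (Icc 0 1)) (h0 : c 0 = 0) :
    ∃ g : ℝ → ℝ, Continuous g ∧ g 0 = 0 ∧ ∀ t ∈ Icc (0 : ℝ) 1, ((g t : ℝ) : AddCircle (1 : ℝ)) = c t := by
  have cov : IsCoveringMap ((↑) : ℝ → AddCircle (1 : ℝ)) := AddCircle.isCoveringMap_coe 1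
  let γ : C(unitInterval, AddCircle (1 : ℝ)) := ⟨fun t => c t, continuousOn_iff_continuous_domRestrict.1 hc⟩
  obtain ⟨Γ, h1, h2⟩ := cov.exists_path_lifts γ (0 : ℝ) (by
    change c ((0 : unitInterval) : ℝ) = _
    simp [h0])
  refine ⟨fun t => Γ (projIcc 0 1 zero_le_one t), Γ.continuous.comp continuous_projIcc, ?_, fun t ht => ?_⟩
  · have : projIcc (0 : ℝ) 1 zero_le_one 0 = 0 := projIcc_left zero_le_one
    beta_reduce
    rw [this]
    exact h2
  · have h3 := congrFun h1 (projIcc 0 1 zero_le_one t)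
    simp only [Function.comp_apply] at h3
    rw [h3]
    change c (projIcc 0 1 zero_le_one t) = c t
    rw [projIcc_of_mem _ ht]

/-- Every loop on the circle is, for all transports, a power of the standard loop. -/
theorem circle_loop {c : ℝ → AddCircle (1 : ℝ)} (hc : IsP univ c) (h0 : c 0 = 0) (h1 : c 1 = 0) :
    ∃ n : ℤ, ∀ (H : Type) [Group H] (w : Hol (univ : Set (AddCircle (1 : ℝ))) H),
      w c = (w fun t : ℝ => (t : AddCircle (1 : ℝ))) ^ n := by
  obtain ⟨g, hg, hg0, hgc⟩ := exists_lift hc.1 h0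
  have h2 : ((g 1 : ℝ) : AddCircle (1 : ℝ)) = 0 := by rw [hgc 1 (by simp), h1]
  rw [AddCircle.coe_eq_zero_iff] at h2
  obtain ⟨n, hn⟩ := h2
  have hn' : g 1 = (n : ℝ) := by simpa using hn.symm
  refine ⟨n, fun H _ w => ?_⟩
  have hcont : Continuous ((↑) : ℝ → AddCircle (1 : ℝ)) := AddCircle.continuous_mk' 1
  obtain ⟨f, hf⟩ := trivHol_convex (V := ℝ) convex_univ ⟨0, trivial⟩ H
    (w.pull ((↑) : ℝ → AddCircle (1 : ℝ)) hcont.continuousOn (mapsTo_univ _ _))
  set a : H := w fun t : ℝ => (t : AddCircle (1 : ℝ)) with ha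
  have hstep : ∀ j : ℤ, f ((j : ℝ) + 1) = a * f j := by
    intro j
    have h3 := hf (fun t => (j : ℝ) + t) (isP_of_continuous (by fun_prop) fun _ => trivial)
    rw [Hol.pull_apply] at h3
    have e : (fun t : ℝ => (((j : ℝ) + t : ℝ) : AddCircle (1 : ℝ))) = fun t : ℝ => (t : AddCircle (1 : ℝ)) := by
      funext t
      rw [AddCircle.coe_add]
      have : ((j : ℝ) : AddCircle (1 : ℝ)) = 0 := by
        rw [AddCircle.coe_eq_zero_iff]
        exact ⟨j, by simp⟩
      rw [this, zero_add]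
    rw [e, ← ha, add_zero] at h3
    rw [h3]
    group
  have hpow : ∀ j : ℤ, f (j : ℝ) = a ^ j * f 0 := by
    intro j
    induction j using Int.induction_on with
    | zero => simp
    | succ i ih =>
      have h3 := hstep (i : ℤ)
      push_cast at h3 ih ⊢
      rw [h3, ih, ← mul_assoc, add_comm, zpow_add, zpow_one]
    | pred i ih =>
      have h3 := hstep (-(i : ℤ) - 1)
      push_cast at h3 ih ⊢
      rw [sub_add_cancel, ih] at h3
      have h4 : f (-(i : ℝ) - 1) = a⁻¹ * (a ^ (-(i : ℤ)) * f 0) := by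
        rw [h3]
        group
      rw [h4, sub_eq_add_neg, add_comm (-(i : ℤ)) (-1), zpow_add, zpow_neg_one]
      group
  have h4 := hf g (isP_of_continuous hg fun _ => trivial)
  rw [Hol.pull_apply, w.congr hgc, hg0, hn', hpow n] at h4
  rw [h4]
  group

/-- Transports on the circle with arbitrary value on the standard loop. -/
theorem exists_circle_hol {H : Type} [Group H] (h : H) :
    ∃ w : Hol (univ : Set (AddCircle (1 : ℝ))) H, (w fun t : ℝ => (t : AddCircle (1 : ℝ))) = h := by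
  classical
  have hcont : Continuous ((↑) : ℝ → AddCircle (1 : ℝ)) := AddCircle.continuous_mk' 1
  have hopen : IsOpenMap ((↑) : ℝ → AddCircle (1 : ℝ)) := QuotientAddGroup.isOpenMap_coe
  set S : Set (AddCircle (1 : ℝ)) := ((↑) : ℝ → AddCircle (1 : ℝ)) '' Ioo (1 / 2) 1 with hS
  set S' : Set (AddCircle (1 : ℝ)) := ((↑) : ℝ → AddCircle (1 : ℝ)) '' Ioo 0 (1 / 2) with hS'
  have oS : IsOpen S := hopen _ isOpen_Ioo
  have oS' : IsOpen S' := hopen _ isOpen_Ioo
  have hinj : ∀ a b : ℝ, ((a : ℝ) : AddCircle (1 : ℝ)) = (b : AddCircle (1 : ℝ)) → |a - b| < 1 → a = b := by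
    intro a b hab hlt
    have h1 : (((a - b : ℝ)) : AddCircle (1 : ℝ)) = 0 := by rw [AddCircle.coe_sub, hab, sub_self]
    rw [AddCircle.coe_eq_zero_iff] at h1
    obtain ⟨k, hk⟩ := h1
    have hk' : (k : ℝ) = a - b := by simpa using hk
    rw [← hk'] at hlt
    have : |k| < 1 := by exact_mod_cast hlt
    have h2 : k = 0 := Int.abs_lt_one_iff.1 this
    rw [h2] at hk'
    push_cast at hk'
    linarith
  have hdisj : ∀ x ∈ S', x ∉ S := by
    rintro x ⟨a, ha, rfl⟩ ⟨b, hb, hab⟩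
    have := hinj b a hab (by rw [abs_lt]; constructor <;> linarith [ha.1, ha.2, hb.1, hb.2])
    linarith [ha.2, hb.1]
  set U : Set (AddCircle (1 : ℝ)) := {x | x ≠ 0} with hU
  set W : Set (AddCircle (1 : ℝ)) := {x | x ≠ ((1 / 2 : ℝ) : AddCircle (1 : ℝ))} with hW
  have oU : IsOpen U := isOpen_ne
  have oW : IsOpen W := isOpen_ne
  have hcov : U ∪ W = univ := by
    rw [eq_univ_iff_forall]
    intro x
    by_cases hx : x = 0
    · right
      rw [hx]
      intro h1
      have := hinj 0 (1 / 2) (by simpa using h1) (by rw [abs_lt]; constructor <;> norm_num)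
      norm_num at this
    · exact Or.inl hx
  have hUW : U ∩ W ⊆ S ∪ S' := by
    rintro x ⟨hx1, hx2⟩
    obtain ⟨r, hr, rfl⟩ : ∃ r ∈ Ico (0 : ℝ) (0 + 1), ((r : ℝ) : AddCircle (1 : ℝ)) = x := by
      have := AddCircle.coe_image_Ico_eq (p := (1 : ℝ)) 0
      have hx : x ∈ ((↑) : ℝ → AddCircle (1 : ℝ)) '' Ico 0 (0 + 1) := by rw [this]; trivial
      exact hx
    have h1 : r ≠ 0 := fun h1 => hx1 (by rw [h1]; rfl)
    have h2 : r ≠ 1 / 2 := fun h2 => hx2 (by rw [h2])
    rcases lt_or_gt_of_ne h2 with h3 | h3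
    · exact Or.inr ⟨r, ⟨lt_of_le_of_ne hr.1 (Ne.symm h1), h3⟩, rfl⟩
    · exact Or.inl ⟨r, ⟨h3, by simpa using hr.2⟩, rfl⟩
  set f : AddCircle (1 : ℝ) → H := fun x => if x ∈ S then h⁻¹ else 1 with hf
  have fS : ∀ x ∈ S, f x = h⁻¹ := fun x hx => if_pos hx
  have fS' : ∀ x, x ∉ S → f x = 1 := fun x hx => if_neg hx
  obtain ⟨w, hw1, hw2⟩ := exists_glue oU oW (Hol.cob U fun _ => (1 : H)) (Hol.cob W f) (by
    intro c hc
    rw [Hol.cob_apply, Hol.cob_apply]
    have hpre : IsPreconnected (c '' Icc 0 1) := isPreconnected_Icc.image c hc.1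
    have hsub : c '' Icc 0 1 ⊆ S ∪ S' := by
      rintro _ ⟨t, ht, rfl⟩
      exact hUW (hc.2 t ht)
    have hd : Disjoint S S' := by
      rw [Set.disjoint_left]
      intro x hx hx'
      exact hdisj x hx' hx
    have m0 : c 0 ∈ c '' Icc 0 1 := ⟨0, by simp, rfl⟩
    have m1 : c 1 ∈ c '' Icc 0 1 := ⟨1, by simp, rfl⟩
    rcases hsub m0 with h0 | h0
    · have h2 : c '' Icc 0 1 ⊆ S := hpre.subset_left_of_subset_union oS oS' hd hsub ⟨c 0, m0, h0⟩
      rw [fS _ h0, fS _ (h2 m1)]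
      simp
    · have h2 : c '' Icc 0 1 ⊆ S' := hpre.subset_right_of_subset_union oS oS' hd hsub ⟨c 0, m0, h0⟩
      rw [fS' _ (hdisj _ h0), fS' _ (hdisj _ (h2 m1))])
  have hw : ∃ w' : Hol (univ : Set (AddCircle (1 : ℝ))) H, ∀ c, w' c = w c := by
    rw [← hcov]
    exact ⟨w, fun c => rfl⟩
  obtain ⟨w', hw'⟩ := hw
  refine ⟨w', ?_⟩
  have hstd : IsP (univ : Set (AddCircle (1 : ℝ))) (fun t : ℝ => (t : AddCircle (1 : ℝ))) :=
    isP_of_continuous hcont fun _ => trivial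
  have q1 : (1 / 4 : ℝ) ∈ Icc (0 : ℝ) 1 := by constructor <;> norm_num
  have q3 : (3 / 4 : ℝ) ∈ Icc (0 : ℝ) 1 := by constructor <;> norm_num
  have s1 := w'.seg' hstd (x := 0) (y := 1 / 4) (z := 1) (by simp) q1 (by simp)
  have s2 := w'.seg' hstd (x := 1 / 4) (y := 3 / 4) (z := 1) q1 q3 (by simp)
  have e0 : (fun t : ℝ => (((1 - t) * 0 + t * 1 : ℝ) : AddCircle (1 : ℝ))) = fun t : ℝ => (t : AddCircle (1 : ℝ)) := by
    funext t
    simp
  rw [e0, ← s2] at s1
  rw [← s1]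
  have c1 : w' (fun t : ℝ => (((1 - t) * 0 + t * (1 / 4) : ℝ) : AddCircle (1 : ℝ))) = 1 := by
    rw [hw', hw2 _ ?_]
    · rw [Hol.cob_apply, fS' _ ?_, fS' _ ?_]
      · simp
      · rintro ⟨b, hb, hab⟩
        have := hinj b 0 (by simpa using hab) (by rw [abs_lt]; constructor <;> linarith [hb.1, hb.2])
        linarith [hb.1]
      · rintro ⟨b, hb, hab⟩
        have := hinj b (1 / 4) (by simpa using hab) (by rw [abs_lt]; constructor <;> linarith [hb.1, hb.2])
        linarith [hb.1]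
    · refine ⟨(hcont.comp (by fun_prop)).continuousOn, fun t ht hab => ?_⟩
      have := hinj _ _ hab (by rw [abs_lt]; constructor <;> linarith [ht.1, ht.2])
      linarith [ht.1, ht.2]
  have c2 : w' (fun t : ℝ => (((1 - t) * (1 / 4) + t * (3 / 4) : ℝ) : AddCircle (1 : ℝ))) = 1 := by
    rw [hw', hw1 _ ?_]
    · rw [Hol.cob_apply]
      simp
    · refine ⟨(hcont.comp (by fun_prop)).continuousOn, fun t ht hab => ?_⟩
      have hab' : (((1 - t) * (1 / 4) + t * (3 / 4) : ℝ) : AddCircle (1 : ℝ)) = ((0 : ℝ) : AddCircle (1 : ℝ)) := hab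
      have := hinj _ 0 hab' (by rw [abs_lt]; constructor <;> linarith [ht.1, ht.2])
      linarith [ht.1, ht.2]
  have c3 : w' (fun t : ℝ => (((1 - t) * (3 / 4) + t * 1 : ℝ) : AddCircle (1 : ℝ))) = h := by
    rw [hw', hw2 _ ?_]
    · rw [Hol.cob_apply, fS' _ ?_, fS _ ?_]
      · simp
      · exact ⟨3 / 4, ⟨by norm_num, by norm_num⟩, by norm_num⟩
      · rintro ⟨b, hb, hab⟩
        have := hinj b 1 (by simpa using hab) (by rw [abs_lt]; constructor <;> linarith [hb.1, hb.2])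
        linarith [hb.2]
    · refine ⟨(hcont.comp (by fun_prop)).continuousOn, fun t ht hab => ?_⟩
      have := hinj _ _ hab (by rw [abs_lt]; constructor <;> linarith [ht.1, ht.2])
      linarith [ht.1, ht.2]
  rw [c1, c2, c3]
  simp

end circle

section torus

variable {Y : Type} [TopologicalSpace Y]

private theorem prod_loop {B : Set Y} (pB : IsPathConnected B) (hB : TrivHol B) {y0 : Y} (hy0 : y0 ∈ B)
    {c : ℝ → AddCircle (1 : ℝ) × Y} (hc : IsP (univ ×ˢ B) c) (h0 : c 0 = (0, y0)) (h1 : c 1 = (0, y0)) :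
    ∃ n : ℤ, ∀ (H : Type) [Group H] (w : Hol ((univ : Set (AddCircle (1 : ℝ))) ×ˢ B) H),
      w c = (w fun t : ℝ => ((t : AddCircle (1 : ℝ)), y0)) ^ n := by
  obtain ⟨n, hn⟩ := circle_loop (c := fun t => (c t).1) (hc.comp (by fun_prop) (mapsTo_univ _ _))
    (by rw [h0]) (by rw [h1])
  refine ⟨n, fun H _ w => ?_⟩
  obtain ⟨k, hk, hk'⟩ := prod_lemma pB hB hy0 w
  have h2 := hn H (w.pull (fun θ => (θ, y0)) (by fun_prop)
    (show MapsTo (fun θ => (θ, y0)) univ ((univ : Set (AddCircle (1 : ℝ))) ×ˢ B) from fun _ _ => ⟨trivial, hy0⟩))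
  rw [Hol.pull_apply, Hol.pull_apply] at h2
  rw [hk' c hc, h0, h1, hk 0 trivial, h2]
  simp

private theorem prod_ext {B : Set Y} (pB : IsPathConnected B) (hB : TrivHol B) (pY : IsPathConnected (univ : Set Y))
    (hY : TrivHol (univ : Set Y)) :
    Ext ((univ : Set (AddCircle (1 : ℝ))) ×ˢ B) (univ : Set (AddCircle (1 : ℝ) × Y)) := by
  obtain ⟨y0, hy0⟩ := pB.nonempty
  refine ⟨subset_univ _, ?_, ?_⟩
  · intro H _ u
    obtain ⟨k, hk, hk'⟩ := prod_lemma pB hB hy0 u
    refine ⟨(u.pull (fun p : AddCircle (1 : ℝ) × Y => (p.1, y0)) (by fun_prop)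
      (show MapsTo (fun p : AddCircle (1 : ℝ) × Y => (p.1, y0)) univ ((univ : Set (AddCircle (1 : ℝ))) ×ˢ B) from
        fun _ _ => ⟨trivial, hy0⟩)).gauge k, fun c hc => ?_⟩
    rw [Hol.gauge_apply, Hol.pull_apply]
    exact (hk' c hc).symm
  · rintro H _ w w' ⟨θ, y⟩ hb hag c hc h0 h1
    have key : ∀ w : Hol (univ : Set (AddCircle (1 : ℝ) × Y)) H, w c = w (fun t => ((c t).1, y)) := by
      intro w
      obtain ⟨k, hk, hk'⟩ := prod_lemma (A := (univ : Set (AddCircle (1 : ℝ)))) (B := (univ : Set Y)) pY hY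
        (b0 := y) trivial (w.mono (subset_univ _))
      have h2 := hk' c ⟨hc.1, fun t ht => ⟨trivial, trivial⟩⟩
      rw [Hol.mono_apply, Hol.mono_apply, h0, h1, hk θ trivial] at h2
      simpa using h2
    rw [key w, key w']
    refine hag _ ?_ (by simp [h0]) (by simp [h1])
    exact ⟨(continuous_fst.comp_continuousOn hc.1).prodMk continuousOn_const, fun t ht => ⟨trivial, hb.2⟩⟩

theorem isPathConnected_circle : IsPathConnected (univ : Set (AddCircle (1 : ℝ))) := by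
  have h := (isPathConnected_univ (X := ℝ)).image (f := ((↑) : ℝ → AddCircle (1 : ℝ))) (AddCircle.continuous_mk' 1)
  rw [image_univ, (QuotientAddGroup.mk_surjective).range_eq] at h
  exact h

private theorem core_eq (m : ℕ) : {p : AddCircle (1 : ℝ) × E m | p.2 ≠ 0} = (univ : Set (AddCircle (1 : ℝ))) ×ˢ ({0}ᶜ : Set (E m)) := by
  ext p
  simp

theorem isOpen_core (m : ℕ) : IsOpen {p : T m | p.2 ≠ 0} := by
  have h : IsOpen {p : AddCircle (1 : ℝ) × E m | p.2 ≠ 0} := isOpen_ne_fun continuous_snd continuous_const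
  exact h

theorem isPathConnected_core {m : ℕ} (hm : 2 ≤ m) : IsPathConnected {p : T m | p.2 ≠ 0} := by
  have h : IsPathConnected {p : AddCircle (1 : ℝ) × E m | p.2 ≠ 0} := by
    rw [core_eq]
    exact isPathConnected_circle.prod (isPathConnected_punct hm)
  exact h

theorem isPathConnected_T (m : ℕ) : IsPathConnected (univ : Set (T m)) := by
  have h : IsPathConnected (univ : Set (AddCircle (1 : ℝ) × E m)) := by
    rw [← univ_prod_univ]
    exact isPathConnected_circle.prod isPathConnected_univ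
  exact h

/-- The fundamental group does not change when the core of the solid torus is removed. -/
theorem ext_T {m : ℕ} (hm : 3 ≤ m) : Ext {p : T m | p.2 ≠ 0} univ := by
  have h : Ext {p : AddCircle (1 : ℝ) × E m | p.2 ≠ 0} (univ : Set (AddCircle (1 : ℝ) × E m)) := by
    rw [core_eq]
    exact prod_ext (isPathConnected_punct (by omega)) (trivHol_punct hm) isPathConnected_univ (trivHol_univ m)
  exact h

theorem loop_T {m : ℕ} {x0 : E m} {c : ℝ → T m} (hc : IsP univ c) (h0 : c 0 = mkT 0 x0) (h1 : c 1 = mkT 0 x0) :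
    ∃ n : ℤ, ∀ (H : Type) [Group H] (w : Hol (univ : Set (T m)) H), w c = (w fun t => mkT t x0) ^ n := by
  obtain ⟨n, hn⟩ := prod_loop (B := (univ : Set (E m))) isPathConnected_univ (trivHol_univ m) (y0 := x0) trivial
    (c := c) ⟨hc.1, fun _ _ => ⟨trivial, trivial⟩⟩ h0 h1
  refine ⟨n, fun H _ w => ?_⟩
  exact hn H (Hol.mono (X := AddCircle (1 : ℝ) × E m) (subset_univ _) w)

theorem loop_T' {m : ℕ} (hm : 3 ≤ m) {x0 : E m} (hx0 : x0 ≠ 0) {c : ℝ → T m} (hc : IsP {p : T m | p.2 ≠ 0} c)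
    (h0 : c 0 = mkT 0 x0) (h1 : c 1 = mkT 0 x0) :
    ∃ n : ℤ, ∀ (H : Type) [Group H] (w : Hol {p : T m | p.2 ≠ 0} H), w c = (w fun t => mkT t x0) ^ n := by
  obtain ⟨n, hn⟩ := prod_loop (B := ({0}ᶜ : Set (E m))) (isPathConnected_punct (by omega)) (trivHol_punct hm)
    (y0 := x0) hx0 (c := c) ⟨hc.1, fun t ht => ⟨trivial, hc.2 t ht⟩⟩ h0 h1
  refine ⟨n, fun H _ w => ?_⟩
  exact hn H (Hol.mono (X := AddCircle (1 : ℝ) × E m) (core_eq m).ge w)

end torus

end Pool.Agent.CSM.D
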