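import Pool.Agent.CSM.DVK

/-!
Project CSM, chunk D, module DTriv: star shaped sets, products, `E m` minus the origin.
-/

open scoped Topology
open Set

namespace Pool.Agent.CSM.D

section star

variable {V : Type} [NormedAddCommGroup V] [NormedSpace ℝ V]

theorem trivHol_of_starConvex {K : Set V} {z : V} (hz : z ∈ K) (hK : StarConvex ℝ z K) : TrivHol K := by
  intro H _ w
  refine ⟨fun x => w (fun s => (1 - s) • z + s • x), fun c hc => ?_⟩
  have hm : ∀ s ∈ Icc (0 : ℝ) 1, ∀ t ∈ Icc (0 : ℝ) 1, (1 - s) • z + s • c t ∈ K := fun s hs t ht =>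
    hK (hc.2 t ht) (by linarith [hs.2]) hs.1 (by ring)
  have hF : ContinuousOn (fun p : ℝ × ℝ => (1 - p.1) • z + p.1 • c p.2) (Icc 0 1 ×ˢ Icc 0 1) := by
    have h1 : ContinuousOn (fun p : ℝ × ℝ => c p.2) (Icc 0 1 ×ˢ Icc 0 1) :=
      hc.1.comp continuous_snd.continuousOn fun p hp => hp.2
    exact ContinuousOn.add (by fun_prop) (ContinuousOn.smul continuous_fst.continuousOn h1)
  have h := w.square (F := fun s t => (1 - s) • z + s • c t) hF hm
  have e1 : (fun t : ℝ => ((1 - (1 : ℝ)) • z + (1 : ℝ) • c t)) = c := by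
    funext t
    simp
  have e2 : (fun t : ℝ => ((1 - (0 : ℝ)) • z + (0 : ℝ) • c t)) = fun _ => z := by
    funext t
    simp
  rw [e1, e2, w.const hz, mul_one] at h
  exact eq_mul_inv_of_mul_eq h

theorem trivHol_convex {K : Set V} (hK : Convex ℝ K) (hne : K.Nonempty) : TrivHol K := by
  obtain ⟨z, hz⟩ := hne
  exact trivHol_of_starConvex hz (hK hz)

end star

section prod

variable {X Y : Type} [TopologicalSpace X] [TopologicalSpace Y] {H : Type} [Group H]

/-- Transports on a product with a factor without nontrivial transports. -/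
theorem prod_lemma {A : Set X} {B : Set Y} (pB : IsPathConnected B) (hB : TrivHol B) {b0 : Y} (hb0 : b0 ∈ B)
    (w : Hol (A ×ˢ B) H) :
    ∃ k : X × Y → H, (∀ a ∈ A, k (a, b0) = 1) ∧
      ∀ c, IsP (A ×ˢ B) c → w c = k (c 1) * w (fun t => ((c t).1, b0)) * (k (c 0))⁻¹ := by
  have h1 : ∀ y : Y, y ∈ B → ∃ d : ℝ → Y, IsP B d ∧ d 0 = b0 ∧ d 1 = y := fun y hy => exists_isP pB hb0 hy
  choose! d hd hd0 hd1 using h1
  have hw : ∀ a ∈ A, ∃ g : Y → H, ∀ c, IsP B c → w (fun t => (a, c t)) = g (c 1) * (g (c 0))⁻¹ := by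
    intro a ha
    exact hB H (w.pull (fun y => (a, y)) (by fun_prop)
      (show MapsTo (fun y => (a, y)) B (A ×ˢ B) from fun y hy => ⟨ha, hy⟩))
  choose! g hg using hw
  refine ⟨fun p => w (fun t => (p.1, d p.2 t)), ?_, ?_⟩
  · intro a ha
    simp only
    rw [hg a ha _ (hd b0 hb0), hd0 b0 hb0, hd1 b0 hb0]
    group
  · intro c hc
    have hc1 : IsP A (fun t => (c t).1) := hc.comp (by fun_prop) (fun p hp => hp.1)
    have hc2 : IsP B (fun t => (c t).2) := hc.comp (by fun_prop) (fun p hp => hp.2)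
    -- decomposition
    have hF : ContinuousOn (fun p : ℝ × ℝ => ((c p.1).1, (c p.2).2)) (Icc 0 1 ×ˢ Icc 0 1) :=
      (hc1.1.comp continuous_fst.continuousOn fun p hp => hp.1).prodMk
        (hc2.1.comp continuous_snd.continuousOn fun p hp => hp.2)
    have hK : Convex ℝ (Icc (0 : ℝ) 1 ×ˢ Icc (0 : ℝ) 1) := (convex_Icc 0 1).prod (convex_Icc 0 1)
    have h2 := w.seg hK hF (fun p hp => ⟨hc1.2 _ hp.1, hc2.2 _ hp.2⟩) (x := (0, 0)) (y := (1, 0)) (z := (1, 1))
      (by simp) (by simp) (by simp)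
    have e1 : (fun t : ℝ => ((c ((1 - t) • ((1 : ℝ), (0 : ℝ)) + t • ((1 : ℝ), (1 : ℝ))).1).1,
        (c ((1 - t) • ((1 : ℝ), (0 : ℝ)) + t • ((1 : ℝ), (1 : ℝ))).2).2)) = fun t => ((c 1).1, (c t).2) := by
      funext t
      simp
    have e2 : (fun t : ℝ => ((c ((1 - t) • ((0 : ℝ), (0 : ℝ)) + t • ((1 : ℝ), (0 : ℝ))).1).1,
        (c ((1 - t) • ((0 : ℝ), (0 : ℝ)) + t • ((1 : ℝ), (0 : ℝ))).2).2)) = fun t => ((c t).1, (c 0).2) := by
      funext t
      simp
    have e3 : (fun t : ℝ => ((c ((1 - t) • ((0 : ℝ), (0 : ℝ)) + t • ((1 : ℝ), (1 : ℝ))).1).1,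
        (c ((1 - t) • ((0 : ℝ), (0 : ℝ)) + t • ((1 : ℝ), (1 : ℝ))).2).2)) = c := by
      funext t
      simp
    rw [e1, e2, e3] at h2
    -- the square
    have hx := hc.zero_mem
    have hy := hc.one_mem
    have hG : ContinuousOn (fun p : ℝ × ℝ => ((c p.2).1, d (c 0).2 p.1)) (Icc 0 1 ×ˢ Icc 0 1) :=
      (hc1.1.comp continuous_snd.continuousOn fun p hp => hp.2).prodMk
        ((hd _ hx.2).1.comp continuous_fst.continuousOn fun p hp => hp.1)
    have h3 := w.square (F := fun s t => ((c t).1, d (c 0).2 s)) hG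
      (fun s hs t ht => ⟨hc1.2 t ht, (hd _ hx.2).2 s hs⟩)
    simp only [hd0 _ hx.2, hd1 _ hx.2] at h3
    have h4 := hg (c 1).1 hy.1 (fun t => (c t).2) hc2
    have h5 := hg (c 1).1 hy.1 (d (c 1).2) (hd _ hy.2)
    have h6 := hg (c 1).1 hy.1 (d (c 0).2) (hd _ hx.2)
    rw [hd0 _ hy.2, hd1 _ hy.2] at h5
    rw [hd0 _ hx.2, hd1 _ hx.2] at h6
    have h7 : w (fun t => ((c t).1, (c 0).2)) = w (fun t => ((c 1).1, d (c 0).2 t)) *
        w (fun t => ((c t).1, b0)) * (w (fun t => ((c 0).1, d (c 0).2 t)))⁻¹ := by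
      rw [← h3]
      group
    beta_reduce
    rw [← h2, h7, h4, h5, h6]
    group

theorem TrivHol.prod {A : Set X} {B : Set Y} (pB : IsPathConnected B) (hA : TrivHol A) (hB : TrivHol B) :
    TrivHol (A ×ˢ B) := by
  intro H _ w
  obtain ⟨b0, hb0⟩ := pB.nonempty
  obtain ⟨k, hk, hk'⟩ := prod_lemma pB hB hb0 w
  obtain ⟨f, hf⟩ := hA H (w.pull (fun x => (x, b0)) (by fun_prop)
    (show MapsTo (fun x => (x, b0)) A (A ×ˢ B) from fun x hx => ⟨hx, hb0⟩))
  refine ⟨fun p => k p * f p.1, fun c hc => ?_⟩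
  have h1 := hf (fun t => (c t).1) (hc.comp (by fun_prop) (fun p hp => hp.1))
  rw [Hol.pull_apply] at h1
  rw [hk' c hc, h1]
  group

end prod

section punct

theorem isPathConnected_punct {m : ℕ} (hm : 2 ≤ m) : IsPathConnected ({0}ᶜ : Set (E m)) := by
  apply isPathConnected_compl_singleton_of_one_lt_rank
  rw [← Module.finrank_eq_rank]
  simp only [finrank_euclideanSpace, Fintype.card_fin]
  exact_mod_cast hm

/-- The complement of the closed half line spanned by `σ e_0`. -/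
private def halfc (m : ℕ) (σ : ℝ) : Set (E m) := {x | (∀ i : Fin m, (i : ℕ) ≠ 0 → x i = 0) ∧ ∀ i : Fin m, (i : ℕ) = 0 → 0 ≤ σ * x i}ᶜ

private theorem isOpen_halfc (m : ℕ) (σ : ℝ) : IsOpen (halfc m σ) := by
  have h : IsClosed {x : E m | (∀ i : Fin m, (i : ℕ) ≠ 0 → x i = 0) ∧ ∀ i : Fin m, (i : ℕ) = 0 → 0 ≤ σ * x i} := by
    have e : {x : E m | (∀ i : Fin m, (i : ℕ) ≠ 0 → x i = 0) ∧ ∀ i : Fin m, (i : ℕ) = 0 → 0 ≤ σ * x i} =
        (⋂ i : Fin m, {x | (i : ℕ) ≠ 0 → x i = 0}) ∩ ⋂ i : Fin m, {x | (i : ℕ) = 0 → 0 ≤ σ * x i} := by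
      ext x
      simp
    rw [e]
    refine (isClosed_iInter fun i => ?_).inter (isClosed_iInter fun i => ?_)
    · by_cases h : (i : ℕ) = 0
      · simp [h]
      · simp only [h, not_false_eq_true, ne_eq, forall_const]
        exact isClosed_eq (by fun_prop) continuous_const
    · by_cases h : (i : ℕ) = 0
      · simp only [h, forall_const]
        exact isClosed_le continuous_const (by fun_prop)
      · simp [h]
  exact h.isOpen_compl

private theorem trivHol_halfc {m : ℕ} (hm : 1 ≤ m) {σ : ℝ} (hσ : σ ≠ 0) : TrivHol (halfc m σ) := by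
  have hm0 : 0 < m := hm
  set z : E m := EuclideanSpace.single (⟨0, hm0⟩ : Fin m) (-σ) with hz
  have hz0 : ∀ i : Fin m, (i : ℕ) = 0 → z i = -σ := by
    intro i hi
    have : i = ⟨0, hm0⟩ := Fin.ext hi
    subst this
    simp [hz]
  have hz1 : ∀ i : Fin m, (i : ℕ) ≠ 0 → z i = 0 := by
    intro i hi
    have : i ≠ ⟨0, hm0⟩ := fun h => hi (by rw [h])
    simp [hz, this]
  have hσσ : 0 < σ * σ := mul_self_pos.2 hσ
  refine trivHol_of_starConvex (z := z) ?_ ?_
  · intro h
    have := h.2 ⟨0, hm0⟩ rfl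
    rw [hz0 _ rfl] at this
    nlinarith
  · intro x hx a b ha hb hab h
    apply hx
    have hb0 : 0 < b := by
      rcases hb.eq_or_lt with h0 | h0
      · exfalso
        have ha1 : a = 1 := by linarith
        subst ha1
        rw [← h0] at h
        have := h.2 ⟨0, hm0⟩ rfl
        simp only [one_smul, zero_smul, add_zero] at this
        rw [hz0 _ rfl] at this
        nlinarith
      · exact h0
    refine ⟨fun i hi => ?_, fun i hi => ?_⟩
    · have := h.1 i hi
      simp only [PiLp.add_apply, PiLp.smul_apply, smul_eq_mul, hz1 i hi, mul_zero, zero_add] at this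
      exact (mul_eq_zero.1 this).resolve_left hb0.ne'
    · have := h.2 i hi
      simp only [PiLp.add_apply, PiLp.smul_apply, smul_eq_mul, hz0 i hi] at this
      have h2 : 0 ≤ b * (σ * x i) := by nlinarith
      exact nonneg_of_mul_nonneg_right h2 hb0

theorem trivHol_punct {m : ℕ} (hm : 3 ≤ m) : TrivHol ({0}ᶜ : Set (E m)) := by
  have hm0 : 0 < m := by omega
  have h1 : halfc m 1 ∪ halfc m (-1) = ({0}ᶜ : Set (E m)) := by
    rw [halfc, halfc, ← compl_inter]
    congr 1
    ext x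
    simp only [mem_inter_iff, mem_ofPred_eq, mem_singleton_iff]
    constructor
    · rintro ⟨⟨h2, h3⟩, -, h4⟩
      ext i
      by_cases hi : (i : ℕ) = 0
      · have h5 := h3 i hi
        have h6 := h4 i hi
        simp only [PiLp.zero_apply]
        linarith
      · exact h2 i hi
    · rintro rfl
      simp
  have h2 : halfc m 1 ∩ halfc m (-1) = ((ℝ ∙ (EuclideanSpace.single (⟨0, hm0⟩ : Fin m) (1 : ℝ)) : Submodule ℝ (E m)) : Set (E m))ᶜ := by
    rw [halfc, halfc, ← compl_union]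
    congr 1
    ext x
    simp only [mem_union, mem_ofPred_eq, SetLike.mem_coe, Submodule.mem_span_singleton]
    constructor
    · intro h
      have h3 : ∀ i : Fin m, (i : ℕ) ≠ 0 → x i = 0 := by
        rcases h with h | h
        · exact h.1
        · exact h.1
      refine ⟨x ⟨0, hm0⟩, ?_⟩
      ext i
      by_cases hi : (i : ℕ) = 0
      · have : i = ⟨0, hm0⟩ := Fin.ext hi
        subst this
        simp
      · have h4 : i ≠ ⟨0, hm0⟩ := fun h => hi (by rw [h])
        simp [h4, h3 i hi]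
    · rintro ⟨a, rfl⟩
      have h3 : ∀ i : Fin m, (i : ℕ) ≠ 0 → (a • EuclideanSpace.single (⟨0, hm0⟩ : Fin m) (1 : ℝ)) i = 0 := by
        intro i hi
        have h4 : i ≠ ⟨0, hm0⟩ := fun h => hi (by rw [h])
        simp [h4]
      have h4 : ∀ i : Fin m, (i : ℕ) = 0 → (a • EuclideanSpace.single (⟨0, hm0⟩ : Fin m) (1 : ℝ)) i = a := by
        intro i hi
        have : i = ⟨0, hm0⟩ := Fin.ext hi
        subst this
        simp
      rcases le_total 0 a with ha | ha
      · left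
        refine ⟨h3, fun i hi => ?_⟩
        rw [h4 i hi]
        linarith
      · right
        refine ⟨h3, fun i hi => ?_⟩
        rw [h4 i hi]
        linarith
  rw [← h1]
  refine TrivHol.union (isOpen_halfc m 1) (isOpen_halfc m (-1)) ?_ (trivHol_halfc hm0 one_ne_zero)
    (trivHol_halfc hm0 (by norm_num))
  rw [h2]
  apply isPathConnected_compl_of_one_lt_codim
  rw [← Module.finrank_eq_rank]
  have h3 := Submodule.finrank_quotient_add_finrank (ℝ ∙ (EuclideanSpace.single (⟨0, hm0⟩ : Fin m) (1 : ℝ)) : Submodule ℝ (E m))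
  rw [finrank_span_singleton (by simp), finrank_euclideanSpace, Fintype.card_fin] at h3
  have h4 : 1 < Module.finrank ℝ (E m ⧸ (ℝ ∙ (EuclideanSpace.single (⟨0, hm0⟩ : Fin m) (1 : ℝ)) : Submodule ℝ (E m))) := by
    omega
  exact_mod_cast h4

theorem trivHol_univ (m : ℕ) : TrivHol (univ : Set (E m)) := trivHol_convex convex_univ ⟨0, trivial⟩

/-- The dual tube. -/
def dualT (m : ℕ) : Set (E (m + 1)) := {v | ((consL m).symm v).2 ≠ 0}

theorem isOpen_dualT (m : ℕ) : IsOpen (dualT m) := by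
  have : Continuous fun v : E (m + 1) => ((consL m).symm v).2 := by fun_prop
  exact (isClosed_singleton.preimage this).isOpen_compl

theorem dualT_eq (m : ℕ) : dualT m = (consL m) '' (univ ×ˢ ({0}ᶜ : Set (E m))) := by
  ext v
  constructor
  · intro h
    exact ⟨(consL m).symm v, ⟨trivial, h⟩, by simp⟩
  · rintro ⟨p, hp, rfl⟩
    simp only [dualT, mem_ofPred_eq, ContinuousLinearEquiv.symm_apply_apply]
    exact hp.2

theorem isPathConnected_dualT {m : ℕ} (hm : 2 ≤ m) : IsPathConnected (dualT m) := by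
  rw [dualT_eq]
  exact (isPathConnected_univ.prod (isPathConnected_punct hm)).image (consL m).continuous

theorem trivHol_dualT {m : ℕ} (hm : 3 ≤ m) : TrivHol (dualT m) := by
  rw [dualT_eq]
  have h1 : TrivHol (univ ×ˢ ({0}ᶜ : Set (E m)) : Set (ℝ × E m)) :=
    TrivHol.prod (isPathConnected_punct (by omega)) (trivHol_convex convex_univ ⟨0, trivial⟩) (trivHol_punct hm)
  exact TrivHol.image (consL m).toHomeomorph.toOpenPartialHomeomorph (by simp) h1

end punct

end Pool.Agent.CSM.D
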