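import Pool.Agent.CSM.DGlue

/-!
Project CSM, chunk D, module DVK: van Kampen with base points, extensions, trivial transports.
-/

open scoped Topology
open Set

namespace Pool.Agent.CSM.D

variable {X Y : Type} [TopologicalSpace X] [TopologicalSpace Y] {H : Type} [Group H]

/-- Transports which agree on the loops at a point of a path connected set are gauge equivalent. -/
theorem exists_gauge_of_agree {V A B : Set X} (hV : IsPathConnected V) (hVA : V ⊆ A) (hVB : V ⊆ B) {b : X}
    (hb : b ∈ V) (w : Hol A H) (w' : Hol B H) (hag : AgreeAt V b w w') :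
    ∃ k : X → H, k b = 1 ∧ (∀ c, IsP V c → c 0 = b → w' c = k (c 1) * w c) ∧
      ∀ c, IsP V c → w' c = k (c 1) * w c * (k (c 0))⁻¹ := by
  have h1 : ∀ y : X, y ∈ V → ∃ d : ℝ → X, IsP V d ∧ d 0 = b ∧ d 1 = y := fun y hy => exists_isP hV hb hy
  choose! d hd hd0 hd1 using h1
  have key : ∀ c, IsP V c → c 0 = b → w' c = w' (d (c 1)) * (w (d (c 1)))⁻¹ * w c := by
    intro c hc h0
    have hy := hc.one_mem
    have hr := (hd _ hy).rev
    have hm : c 1 = rev (d (c 1)) 0 := by rw [rev_zero, hd1 _ hy]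
    have h2 := hag (cat c (rev (d (c 1)))) (hc.cat hr hm) (by simpa using h0) (by simp [hd0 _ hy])
    rw [w.cat (hc.mono hVA) (hr.mono hVA) hm, w'.cat (hc.mono hVB) (hr.mono hVB) hm,
      w.rev ((hd _ hy).mono hVA), w'.rev ((hd _ hy).mono hVB)] at h2
    rw [mul_assoc, h2]
    group
  refine ⟨fun y => w' (d y) * (w (d y))⁻¹, ?_, key, ?_⟩
  · have h2 := key (fun _ => b) (IsP.const hb) rfl
    rw [w.const (hVA hb), w'.const (hVB hb)] at h2
    simpa using h2.symm
  · intro c hc
    have hx := hc.zero_mem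
    have h3 : d (c 0) 1 = c 0 := hd1 _ hx
    have h2 := key (cat (d (c 0)) c) ((hd _ hx).cat hc h3) (by simp [hd0 _ hx])
    have h4 := key (d (c 0)) (hd _ hx) (hd0 _ hx)
    rw [w.cat ((hd _ hx).mono hVA) (hc.mono hVA) h3, w'.cat ((hd _ hx).mono hVB) (hc.mono hVB) h3, cat_one] at h2
    rw [h3] at h4
    have h5 : w' c = w' (d (c 1)) * (w (d (c 1)))⁻¹ * (w c * w (d (c 0))) * (w' (d (c 0)))⁻¹ := by
      rw [← h2]
      group
    rw [h5]
    group

theorem AgreeAt.symm {U A B : Set X} {b : X} {w : Hol A H} {w' : Hol B H} (h : AgreeAt U b w w') :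
    AgreeAt U b w' w := fun c hc h0 h1 => (h c hc h0 h1).symm

theorem AgreeAt.mono {U U' A B : Set X} (hU : U' ⊆ U) {b : X} {w : Hol A H} {w' : Hol B H}
    (h : AgreeAt U b w w') : AgreeAt U' b w w' := fun c hc h0 h1 => h c (hc.mono hU) h0 h1

/-- Change of the base point. -/
theorem AgreeAt.base {V A B : Set X} (hVA : V ⊆ A) (hVB : V ⊆ B) {b b' : X} {w : Hol A H} {w' : Hol B H}
    (hag : AgreeAt V b w w') {d : ℝ → X} (hd : IsP V d) (h0 : d 0 = b) (h1 : d 1 = b') (hw : w d = w' d) :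
    AgreeAt V b' w w' := by
  intro c hc hc0 hc1
  have e1 : d 1 = c 0 := by rw [h1, hc0]
  have e2 : cat d c 1 = rev d 0 := by rw [cat_one, rev_zero, hc1, h1]
  have h2 := hag (cat (cat d c) (rev d)) ((hd.cat hc e1).cat hd.rev e2) (by simpa using h0) (by simpa using h0)
  rw [w.cat ((hd.cat hc e1).mono hVA) (hd.rev.mono hVA) e2, w'.cat ((hd.cat hc e1).mono hVB) (hd.rev.mono hVB) e2,
    w.cat (hd.mono hVA) (hc.mono hVA) e1, w'.cat (hd.mono hVB) (hc.mono hVB) e1, w.rev (hd.mono hVA),
    w'.rev (hd.mono hVB), hw] at h2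
  simpa using h2

/-- Uniqueness part of van Kampen's theorem. -/
theorem vk_unique {U W : Set X} (hU : IsOpen U) (hW : IsOpen W) (pU : IsPathConnected U) (pW : IsPathConnected W)
    (pUW : IsPathConnected (U ∩ W)) {b : X} (hb : b ∈ U ∩ W) (w w' : Hol (U ∪ W) H) (h1 : AgreeAt U b w w')
    (h2 : AgreeAt W b w w') : AgreeAt (U ∪ W) b w w' := by
  classical
  obtain ⟨k, hk, hk1, hk2⟩ := exists_gauge_of_agree pU subset_union_left subset_union_left hb.1 w w' h1
  obtain ⟨l, hl, hl1, hl2⟩ := exists_gauge_of_agree pW subset_union_right subset_union_right hb.2 w w' h2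
  have hkl : ∀ y ∈ U ∩ W, k y = l y := by
    intro y hy
    obtain ⟨c, hc, h0, h1'⟩ := exists_isP pUW hb hy
    have e1 := hk1 c (hc.mono inter_subset_left) h0
    have e2 := hl1 c (hc.mono inter_subset_right) h0
    rw [e1, h1'] at e2
    exact mul_right_cancel e2
  set m : X → H := fun y => if y ∈ U then k y else l y with hm
  have hmU : ∀ y ∈ U, m y = k y := fun y hy => if_pos hy
  have hmW : ∀ y ∈ W, m y = l y := by
    intro y hy
    by_cases hyU : y ∈ U
    · rw [hmU y hyU, hkl y ⟨hyU, hy⟩]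
    · exact if_neg hyU
  have hglue := glue_unique hU hW (w.gauge m) w'
    (fun c hc => by
      rw [Hol.gauge_apply, hmU _ hc.zero_mem, hmU _ hc.one_mem, hk2 c hc])
    (fun c hc => by
      rw [Hol.gauge_apply, hmW _ hc.zero_mem, hmW _ hc.one_mem, hl2 c hc])
  intro c hc h0 h1'
  have h3 := hglue c hc
  rw [Hol.gauge_apply, h0, h1', hmU b hb.1, hk] at h3
  simpa using h3

/-- Existence part of van Kampen's theorem. -/
theorem vk_exists {U W : Set X} (hU : IsOpen U) (hW : IsOpen W) (pUW : IsPathConnected (U ∩ W)) {b : X}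
    (hb : b ∈ U ∩ W) (u : Hol U H) (v : Hol W H) (h : AgreeAt (U ∩ W) b u v) :
    ∃ (w : Hol (U ∪ W) H) (k : X → H), k b = 1 ∧ (∀ c, IsP U c → w c = u c) ∧
      ∀ c, IsP W c → w c = k (c 1) * v c * (k (c 0))⁻¹ := by
  obtain ⟨k, hk, hk1, hk2⟩ := exists_gauge_of_agree pUW inter_subset_right inter_subset_left hb v u h.symm
  obtain ⟨w, hw1, hw2⟩ := exists_glue hU hW u (v.gauge k) (fun c hc => hk2 c hc)
  exact ⟨w, k, hk, hw1, hw2⟩

/-- Unique extension does not depend on the base point. -/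
theorem uniq_base {U V : Set X} (hsub : U ⊆ V) {b b' : X} {d : ℝ → X} (hd : IsP U d) (h0 : d 0 = b)
    (h1 : d 1 = b') (h : ∀ w w' : Hol V H, AgreeAt U b' w w' → AgreeAt V b' w w') :
    ∀ w w' : Hol V H, AgreeAt U b w w' → AgreeAt V b w w' := by
  classical
  intro w w' hag
  by_cases hbb : b' = b
  · subst hbb
    exact h w w' hag
  · set k : X → H := fun x => if x = b' then w d * (w' d)⁻¹ else 1 with hk
    have hkb : k b = 1 := if_neg fun h2 => hbb h2.symm
    have hkb' : k b' = w d * (w' d)⁻¹ := if_pos rfl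
    have e1 : w d = w'.gauge k d := by
      rw [Hol.gauge_apply, h0, h1, hkb, hkb']
      group
    have h2 : AgreeAt U b w (w'.gauge k) := by
      intro c hc hc0 hc1
      rw [Hol.gauge_apply, hc0, hc1, hkb, hag c hc hc0 hc1]
      group
    have h3 : AgreeAt U b' w (w'.gauge k) := h2.base hsub hsub hd h0 h1 e1
    have h4 : AgreeAt V b' w (w'.gauge k) := h _ _ h3
    have h5 : AgreeAt V b w (w'.gauge k) := by
      have hdV : IsP V d := hd.mono hsub
      refine h4.base subset_rfl subset_rfl hdV.rev (by simpa using h1) (by simpa using h0) ?_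
      rw [w.rev hdV, (w'.gauge k).rev hdV, e1]
    intro c hc hc0 hc1
    have h6 := h5 c hc hc0 hc1
    rw [Hol.gauge_apply, hc0, hc1, hkb] at h6
    simpa using h6

theorem Ext.union {U W : Set X} (hU : IsOpen U) (hW : IsOpen W) (pU : IsPathConnected U)
    (pW : IsPathConnected W) (pUW : IsPathConnected (U ∩ W)) (h : Ext (U ∩ W) W) : Ext U (U ∪ W) := by
  refine ⟨subset_union_left, ?_, ?_⟩
  · intro H _ u
    obtain ⟨v, hv⟩ := h.ex H (u.mono inter_subset_left)
    obtain ⟨w, hw1, -⟩ := exists_glue hU hW u v (fun c hc => (hv c hc).symm)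
    exact ⟨w, hw1⟩
  · intro H _ w w' b hb hag
    obtain ⟨b', hb'⟩ := pUW.nonempty
    obtain ⟨d, hd, hd0, hd1⟩ := exists_isP pU hb hb'.1
    refine uniq_base subset_union_left hd hd0 hd1 ?_ w w' hag
    intro w w' hag
    refine vk_unique hU hW pU pW pUW hb' w w' hag ?_
    have h2 : AgreeAt (U ∩ W) b' (w.mono (subset_union_right : W ⊆ U ∪ W)) (w'.mono subset_union_right) :=
      fun c hc h0 h1 => hag c (hc.mono inter_subset_left) h0 h1
    exact h.uniq H _ _ b' hb' h2

/-- Transports on the union of two sets with trivial transports and path connected intersection are trivial. -/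
theorem TrivHol.union {U W : Set X} (hU : IsOpen U) (hW : IsOpen W) (pUW : IsPathConnected (U ∩ W))
    (h1 : TrivHol U) (h2 : TrivHol W) : TrivHol (U ∪ W) := by
  classical
  intro H _ w
  obtain ⟨f, hf⟩ := h1 H (w.mono subset_union_left)
  obtain ⟨g, hg⟩ := h2 H (w.mono subset_union_right)
  obtain ⟨b, hb⟩ := pUW.nonempty
  set g' : X → H := fun x => g x * (g b)⁻¹ * f b with hg'
  have hfg : ∀ y ∈ U ∩ W, f y = g' y := by
    intro y hy
    obtain ⟨c, hc, h0, h1'⟩ := exists_isP pUW hb hy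
    have e1 := hf c (hc.mono inter_subset_left)
    have e2 := hg c (hc.mono inter_subset_right)
    rw [Hol.mono_apply] at e1 e2
    rw [e1, h0, h1'] at e2
    simp only [hg', ← e2]
    group
  set F : X → H := fun x => if x ∈ U then f x else g' x with hF
  have hFU : ∀ y ∈ U, F y = f y := fun y hy => if_pos hy
  have hFW : ∀ y ∈ W, F y = g' y := by
    intro y hy
    by_cases hyU : y ∈ U
    · rw [hFU y hyU, hfg y ⟨hyU, hy⟩]
    · exact if_neg hyU
  refine ⟨F, glue_unique hU hW w (Hol.cob _ F) ?_ ?_⟩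
  · intro c hc
    rw [Hol.cob_apply, hFU _ hc.zero_mem, hFU _ hc.one_mem]
    exact hf c hc
  · intro c hc
    rw [Hol.cob_apply, hFW _ hc.zero_mem, hFW _ hc.one_mem]
    have := hg c hc
    rw [Hol.mono_apply] at this
    rw [this]
    simp only [hg']
    group

/-- The image under a chart. -/
theorem TrivHol.image (e : OpenPartialHomeomorph X Y) {U : Set X} (hU : U ⊆ e.source) (h : TrivHol U) :
    TrivHol (e '' U) := by
  intro H _ w
  have h1 : MapsTo e U (e '' U) := fun x hx => ⟨x, hx, rfl⟩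
  obtain ⟨f, hf⟩ := h H (w.pull e (e.continuousOn.mono hU) h1)
  refine ⟨fun y => f (e.symm y), fun c hc => ?_⟩
  have h2 : IsP U (fun t => e.symm (c t)) := by
    refine IsP.comp (V := U) (f := e.symm) (U := e '' U) (e.symm.continuousOn.mono ?_) ?_ hc
    · rintro _ ⟨x, hx, rfl⟩
      exact e.map_source (hU hx)
    · rintro _ ⟨x, hx, rfl⟩
      rw [e.left_inv (hU hx)]
      exact hx
  have h3 := hf _ h2
  rw [Hol.pull_apply] at h3
  rw [← h3]
  refine w.congr fun t ht => ?_
  obtain ⟨x, hx, hxt⟩ := hc.2 t ht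
  rw [← hxt, e.left_inv (hU hx)]

theorem Ext.image (e : OpenPartialHomeomorph X Y) {U V : Set X} (hV : V ⊆ e.source) (h : Ext U V) :
    Ext (e '' U) (e '' V) := by
  have hU : U ⊆ e.source := h.sub.trans hV
  have back : ∀ {W : Set X}, W ⊆ e.source → MapsTo e.symm (e '' W) W := by
    rintro W hW _ ⟨x, hx, rfl⟩
    rw [e.left_inv (hW hx)]
    exact hx
  have backc : ∀ {W : Set X}, W ⊆ e.source → ContinuousOn e.symm (e '' W) := by
    intro W hW
    refine e.symm.continuousOn.mono ?_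
    rintro _ ⟨x, hx, rfl⟩
    exact e.map_source (hW hx)
  have forth : ∀ {W : Set X}, MapsTo e W (e '' W) := fun {W} x hx => ⟨x, hx, rfl⟩
  have hcomp : ∀ {W : Set X}, W ⊆ e.source → ∀ c : ℝ → Y, IsP (e '' W) c → ∀ t ∈ Icc (0 : ℝ) 1,
      e (e.symm (c t)) = c t := by
    intro W hW c hc t ht
    obtain ⟨x, hx, hxt⟩ := hc.2 t ht
    rw [← hxt, e.left_inv (hW hx)]
  refine ⟨image_mono h.sub, ?_, ?_⟩
  · intro H _ u
    obtain ⟨w, hw⟩ := h.ex H (u.pull e (e.continuousOn.mono hU) forth)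
    refine ⟨w.pull e.symm (backc hV) (back hV), fun c hc => ?_⟩
    rw [Hol.pull_apply, hw _ (hc.comp (backc hU) (back hU)), Hol.pull_apply]
    exact u.congr (hcomp hU c hc)
  · intro H _ w w' b hb hag c hc h0 h1
    obtain ⟨x, hx, rfl⟩ := hb
    have h2 := h.uniq H (w.pull e (e.continuousOn.mono hV) forth) (w'.pull e (e.continuousOn.mono hV) forth) x hx
      (by
        intro c hc h0 h1
        rw [Hol.pull_apply, Hol.pull_apply]
        exact hag _ (hc.comp (e.continuousOn.mono hU) forth) (by rw [h0]) (by rw [h1]))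
      (fun t => e.symm (c t)) (hc.comp (backc hV) (back hV)) (by rw [h0, e.left_inv (hU hx)])
      (by rw [h1, e.left_inv (hU hx)])
    rw [Hol.pull_apply, Hol.pull_apply] at h2
    rw [w.congr (c' := fun t => e (e.symm (c t))) (fun t ht => (hcomp hV c hc t ht).symm),
      w'.congr (c' := fun t => e (e.symm (c t))) (fun t ht => (hcomp hV c hc t ht).symm)]
    exact h2

end Pool.Agent.CSM.D
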