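import Pool.Agent.CSM.DOne

/-!
Project CSM, chunk D, module DYY: transports on `Y₁ = S^1 × S^m` and on `Y = Y₁ # Y₁`.
-/

open scoped Topology
open Set

namespace Pool.Agent.CSM.D

section Y1

variable {m : ℕ} {Y : Type} [TopologicalSpace Y] [ChartedSpace (E (m + 1)) Y] {A B : OPH (T m) Y}

theorem exists_ne (m : ℕ) (hm : 1 ≤ m) : ∃ x : E m, x ≠ 0 := by
  refine ⟨EuclideanSpace.single (⟨0, by omega⟩ : Fin m) (1 : ℝ), ?_⟩
  simp

theorem y1_inter (h : IsS1S m A B) : A.target ∩ B.target = B '' {p : T m | p.2 ≠ 0} := by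
  rw [h.inter]
  have key : ∀ p : T m, ∃ θ : ℝ, p = mkT θ p.2 := by
    intro p
    obtain ⟨θ, hθ⟩ := QuotientAddGroup.mk_surjective (s := AddSubgroup.zmultiples (1 : ℝ)) p.1
    exact ⟨θ, Prod.ext hθ.symm rfl⟩
  ext y
  constructor
  · rintro ⟨p, hp, rfl⟩
    obtain ⟨θ, hθ⟩ := key p
    refine ⟨mkT θ (inv m p.2), inv_ne hp, ?_⟩
    rw [← h.glue θ p.2 hp, ← hθ]
  · rintro ⟨p, hp, rfl⟩
    obtain ⟨θ, hθ⟩ := key p
    refine ⟨mkT θ (inv m p.2), inv_ne hp, ?_⟩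
    rw [h.glue θ _ (inv_ne hp), inv_inv', ← hθ]

theorem y1_ext (hm : 3 ≤ m) (h : IsS1S m A B) : Ext A.target univ := by
  rw [← h.cover]
  refine Ext.union A.open_target B.open_target (isPathConnected_tube h.sA) (isPathConnected_tube h.sB) ?_ ?_
  · rw [h.inter]
    exact isPathConnected_tneck (by omega) h.sA
  · rw [y1_inter h]
    exact ext_tube_local hm h.sB

theorem core_isP (h : IsS1S m A B) : IsP A.target (fun t => A (mkT t 0)) :=
  (mkT_isP (U := univ) fun _ => trivial).comp (by rw [← h.sA]; exact A.continuousOn)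
    (fun p _ => A.map_source (by rw [h.sA]; trivial))

theorem y1_uniq (hm : 3 ≤ m) (h : IsS1S m A B) {H : Type} [Group H] (w w' : Hol (univ : Set Y) H)
    (hw : w (fun t => A (mkT t 0)) = w' (fun t => A (mkT t 0))) : AgreeAt univ (A (mkT 0 0)) w w' := by
  have hA0 : mkT 0 0 ∈ A.source := by rw [h.sA]; trivial
  refine (y1_ext hm h).uniq H w w' _ (A.map_source hA0) ?_
  intro c hc h0 h1
  have hc' := isP_symm A hc
  rw [h.sA] at hc'
  obtain ⟨n, hn⟩ := loop_T (x0 := (0 : E m)) hc' (by rw [h0, A.left_inv hA0]) (by rw [h1, A.left_inv hA0])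
  have hAc : ContinuousOn A (univ : Set (T m)) := by rw [← h.sA]; exact A.continuousOn
  have e1 := hn H (w.pull A hAc (mapsTo_univ _ _))
  have e2 := hn H (w'.pull A hAc (mapsTo_univ _ _))
  rw [Hol.pull_apply, Hol.pull_apply] at e1 e2
  rw [w.congr (c := c) (c' := fun t => A (A.symm (c t))) (fun t ht => (A.right_inv (hc.2 t ht)).symm),
    w'.congr (c := c) (c' := fun t => A (A.symm (c t))) (fun t ht => (A.right_inv (hc.2 t ht)).symm), e1, e2, hw]

theorem y1_exists (hm : 3 ≤ m) (h : IsS1S m A B) {H : Type} [Group H] (g : H) :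
    ∃ w : Hol (univ : Set Y) H, w (fun t => A (mkT t 0)) = g := by
  obtain ⟨v, hv⟩ := exists_circle_hol g
  have hfst : Continuous fun p : T m => p.1 := continuous_fst (X := AddCircle (1 : ℝ)) (Y := E m)
  obtain ⟨w, hw⟩ := (y1_ext hm h).ex H (v.pull (V := A.target) (fun y => (A.symm y).1)
    (hfst.comp_continuousOn A.symm.continuousOn) (mapsTo_univ _ _))
  refine ⟨w, ?_⟩
  rw [hw _ (core_isP h), Hol.pull_apply, ← hv]
  refine v.congr fun t _ => ?_
  rw [A.left_inv (by rw [h.sA]; trivial)]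
  rfl

end Y1

section Y

variable {m : ℕ} {Y₁ Y : OMan (m + 1)} {A B : OPH (T m) Y₁} {i j : OPH (E (m + 1)) Y₁} {φ ψ : OPH Y₁ Y}

/-- The data of the loops in `Y`: the paths `d1` from the first core to the neck and `d2` from the neck to the second
core. -/
structure Dt (A : OPH (T m) Y₁) (φ ψ : OPH Y₁ Y) (x0 : Y) (d1 d2 : ℝ → Y) : Prop where
  hx : x0 ∈ φ.target ∩ ψ.target
  p1 : IsP φ.target d1
  p2 : IsP ψ.target d2
  z1 : d1 0 = φ (A (mkT 0 0))
  o1 : d1 1 = x0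
  z2 : d2 0 = x0
  o2 : d2 1 = ψ (A (mkT 0 0))

/-- The second loop. -/
noncomputable def lpA (A : OPH (T m) Y₁) (ψ : OPH Y₁ Y) (d1 d2 : ℝ → Y) : ℝ → Y :=
  cat (cat (cat d1 d2) (fun t => ψ (A (mkT t 0)))) (rev (cat d1 d2))

section facts

variable (hm : 3 ≤ m) (hY₁ : IsS1S m A B) (h : IsCS (m + 1) i j φ ψ) (hi : ∀ θ : ℝ, A (mkT θ 0) ∉ i.target)
  (hj : ∀ θ : ℝ, A (mkT θ 0) ∉ j.target)

include hY₁ h hi in
theorem core1_isP : IsP ({i 0}ᶜ : Set Y₁) (fun t => A (mkT t 0)) := by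
  refine ⟨(core_isP hY₁).1, fun t _ h1 => hi t ?_⟩
  have h2 : A (mkT t 0) = i 0 := h1
  rw [h2]
  exact i.map_source (by rw [h.si]; trivial)

include hY₁ h hj in
theorem core2_isP : IsP ({j 0}ᶜ : Set Y₁) (fun t => A (mkT t 0)) := by
  refine ⟨(core_isP hY₁).1, fun t _ h1 => hj t ?_⟩
  have h2 : A (mkT t 0) = j 0 := h1
  rw [h2]
  exact j.map_source (by rw [h.sj]; trivial)

include hY₁ h hi in
theorem ct_isP : IsP φ.target (fun t => φ (A (mkT t 0))) := by
  have h1 := core1_isP hY₁ h hi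
  rw [← h.sφ] at h1
  exact h1.comp φ.continuousOn (fun p hp => φ.map_source hp)

include hY₁ h hj in
theorem ca_isP : IsP ψ.target (fun t => ψ (A (mkT t 0))) := by
  have h1 := core2_isP hY₁ h hj
  rw [← h.sψ] at h1
  exact h1.comp ψ.continuousOn (fun p hp => ψ.map_source hp)

include h hi in
/-- the first core is not in the neck -/
theorem ct_notMem (t : ℝ) : φ (A (mkT t 0)) ∉ ψ.target := by
  intro h1
  have hs : A (mkT t 0) ∈ φ.source := by
    rw [h.sφ]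
    intro h1
    rw [mem_singleton_iff] at h1
    apply hi t
    rw [h1]
    exact i.map_source (by rw [h.si]; trivial)
  have h2 : φ (A (mkT t 0)) ∈ φ.target ∩ ψ.target := ⟨φ.map_source hs, h1⟩
  rw [h.inter] at h2
  obtain ⟨_, ⟨v, hv, rfl⟩, h3⟩ := h2
  have h4 := φ.injOn (cs_sub_left h ⟨v, hv, rfl⟩) hs h3
  apply hi t
  rw [← h4]
  exact i.map_source (by rw [h.si]; trivial)

include h hj in
theorem ca_notMem (t : ℝ) : ψ (A (mkT t 0)) ∉ φ.target := by
  intro h1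
  have hs : A (mkT t 0) ∈ ψ.source := by
    rw [h.sψ]
    intro h1
    rw [mem_singleton_iff] at h1
    apply hj t
    rw [h1]
    exact j.map_source (by rw [h.sj]; trivial)
  have h2 : ψ (A (mkT t 0)) ∈ φ.target ∩ ψ.target := ⟨h1, ψ.map_source hs⟩
  rw [cs_inter_right h] at h2
  obtain ⟨_, ⟨v, hv, rfl⟩, h3⟩ := h2
  have h4 := ψ.injOn (cs_sub_right h ⟨v, hv, rfl⟩) hs h3
  apply hj t
  rw [← h4]
  exact j.map_source (by rw [h.sj]; trivial)

include hm h in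
theorem pφ : IsPathConnected φ.target := by
  have := lpc Y₁
  rw [← φ.image_source_eq_target]
  refine IsPathConnected.image' ?_ φ.continuousOn
  rw [h.sφ]
  exact isPathConnected_compl_point (by omega) h.si

include hm h in
theorem pψ : IsPathConnected ψ.target := by
  have := lpc Y₁
  rw [← ψ.image_source_eq_target]
  refine IsPathConnected.image' ?_ ψ.continuousOn
  rw [h.sψ]
  exact isPathConnected_compl_point (by omega) h.sj

include hm hY₁ h hi hj in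
theorem exists_Dt : ∃ (x0 : Y) (d1 d2 : ℝ → Y), Dt A φ ψ x0 d1 d2 := by
  obtain ⟨x0, hx0⟩ := (cs_neck (by omega) h).nonempty
  obtain ⟨d1, p1, z1, o1⟩ := exists_isP (pφ hm h) (ct_isP hY₁ h hi).zero_mem hx0.1
  obtain ⟨d2, p2, z2, o2⟩ := exists_isP (pψ hm h) hx0.2 (ca_isP hY₁ h hj).zero_mem
  exact ⟨x0, d1, d2, hx0, p1, p2, z1, o1, z2, o2⟩

include hm hY₁ h hi in
/-- agreement on the first part -/
theorem agree_left {H : Type} [Group H] (w w' : Hol (univ : Set Y) H)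
    (hw : w (fun t => φ (A (mkT t 0))) = w' (fun t => φ (A (mkT t 0)))) :
    AgreeAt φ.target (φ (A (mkT 0 0))) w w' := by
  have := lpc Y₁
  have φc : ContinuousOn φ ({i 0}ᶜ : Set Y₁) := by rw [← h.sφ]; exact φ.continuousOn
  obtain ⟨v, hv⟩ := (ext_point (by omega) h.si).ex H (w.pull (V := ({i 0}ᶜ : Set Y₁)) φ φc (mapsTo_univ _ _))
  obtain ⟨v', hv'⟩ := (ext_point (by omega) h.si).ex H (w'.pull (V := ({i 0}ᶜ : Set Y₁)) φ φc (mapsTo_univ _ _))
  have hc1 := core1_isP hY₁ h hi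
  have hag := y1_uniq hm hY₁ v v' (by rw [hv _ hc1, hv' _ hc1, Hol.pull_apply, Hol.pull_apply, hw])
  have hs : A (mkT 0 0) ∈ φ.source := by rw [h.sφ]; exact hc1.zero_mem
  intro c hc h0 h1
  have hc' := isP_symm φ hc
  have h2 := hag (fun t => φ.symm (c t)) (hc'.mono (subset_univ _)) (by rw [h0, φ.left_inv hs])
    (by rw [h1, φ.left_inv hs])
  rw [h.sφ] at hc'
  rw [hv _ hc', hv' _ hc', Hol.pull_apply, Hol.pull_apply] at h2
  rw [w.congr (c := c) (c' := fun t => φ (φ.symm (c t))) (fun t ht => (φ.right_inv (hc.2 t ht)).symm),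
    w'.congr (c := c) (c' := fun t => φ (φ.symm (c t))) (fun t ht => (φ.right_inv (hc.2 t ht)).symm), h2]

include hm hY₁ h hj in
theorem agree_right {H : Type} [Group H] (w w' : Hol (univ : Set Y) H)
    (hw : w (fun t => ψ (A (mkT t 0))) = w' (fun t => ψ (A (mkT t 0)))) :
    AgreeAt ψ.target (ψ (A (mkT 0 0))) w w' := by
  have := lpc Y₁
  have ψc : ContinuousOn ψ ({j 0}ᶜ : Set Y₁) := by rw [← h.sψ]; exact ψ.continuousOn
  obtain ⟨v, hv⟩ := (ext_point (by omega) h.sj).ex H (w.pull (V := ({j 0}ᶜ : Set Y₁)) ψ ψc (mapsTo_univ _ _))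
  obtain ⟨v', hv'⟩ := (ext_point (by omega) h.sj).ex H (w'.pull (V := ({j 0}ᶜ : Set Y₁)) ψ ψc (mapsTo_univ _ _))
  have hc1 := core2_isP hY₁ h hj
  have hag := y1_uniq hm hY₁ v v' (by rw [hv _ hc1, hv' _ hc1, Hol.pull_apply, Hol.pull_apply, hw])
  have hs : A (mkT 0 0) ∈ ψ.source := by rw [h.sψ]; exact hc1.zero_mem
  intro c hc h0 h1
  have hc' := isP_symm ψ hc
  have h2 := hag (fun t => ψ.symm (c t)) (hc'.mono (subset_univ _)) (by rw [h0, ψ.left_inv hs])
    (by rw [h1, ψ.left_inv hs])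
  rw [h.sψ] at hc'
  rw [hv _ hc', hv' _ hc', Hol.pull_apply, Hol.pull_apply] at h2
  rw [w.congr (c := c) (c' := fun t => ψ (ψ.symm (c t))) (fun t ht => (ψ.right_inv (hc.2 t ht)).symm),
    w'.congr (c := c) (c' := fun t => ψ (ψ.symm (c t))) (fun t ht => (ψ.right_inv (hc.2 t ht)).symm), h2]

end facts

/-- the value of a transport on the second loop -/
theorem lpA_apply (hY₁ : IsS1S m A B) (h : IsCS (m + 1) i j φ ψ) (hj : ∀ θ : ℝ, A (mkT θ 0) ∉ j.target)
    {x0 : Y} {d1 d2 : ℝ → Y} (D : Dt A φ ψ x0 d1 d2) {H : Type} [Group H] (w : Hol (univ : Set Y) H) :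
    IsP univ (lpA A ψ d1 d2) ∧ lpA A ψ d1 d2 0 = φ (A (mkT 0 0)) ∧ lpA A ψ d1 d2 1 = φ (A (mkT 0 0)) ∧
    w (lpA A ψ d1 d2) = (w d2 * w d1)⁻¹ * w (fun t => ψ (A (mkT t 0))) * (w d2 * w d1) := by
  have q1 : IsP univ d1 := D.p1.mono (subset_univ _)
  have q2 : IsP univ d2 := D.p2.mono (subset_univ _)
  have qa : IsP univ (fun t => ψ (A (mkT t 0))) := (ca_isP hY₁ h hj).mono (subset_univ _)
  have e1 : d1 1 = d2 0 := by rw [D.o1, D.z2]
  have q3 := q1.cat q2 e1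
  have e2 : cat d1 d2 1 = (fun t : ℝ => ψ (A (mkT t 0))) 0 := by rw [cat_one, D.o2]
  have q4 := q3.cat qa e2
  have e3 : cat (cat d1 d2) (fun t => ψ (A (mkT t 0))) 1 = rev (cat d1 d2) 0 := by
    rw [cat_one, rev_zero, cat_one, D.o2, mkT_one]
  refine ⟨q4.cat q3.rev e3, ?_, ?_, ?_⟩
  · rw [lpA, cat_zero, cat_zero, cat_zero, D.z1]
  · rw [lpA, cat_one, rev_one, cat_zero, D.z1]
  · rw [lpA, w.cat q4 q3.rev e3, w.cat q3 qa e2, w.rev q3, w.cat q1 q2 e1]
    group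

/-- Transports on `Y` are determined by their values on the two loops. -/
theorem y_uniq (hm : 3 ≤ m) (hY₁ : IsS1S m A B) (h : IsCS (m + 1) i j φ ψ) (hi : ∀ θ : ℝ, A (mkT θ 0) ∉ i.target)
    (hj : ∀ θ : ℝ, A (mkT θ 0) ∉ j.target) {x0 : Y} {d1 d2 : ℝ → Y} (D : Dt A φ ψ x0 d1 d2) {H : Type} [Group H]
    (w w' : Hol (univ : Set Y) H) (h1 : w (fun t => φ (A (mkT t 0))) = w' (fun t => φ (A (mkT t 0))))
    (h2 : w (lpA A ψ d1 d2) = w' (lpA A ψ d1 d2)) : AgreeAt univ (φ (A (mkT 0 0))) w w' := by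
  classical
  set bt := φ (A (mkT 0 0)) with hbt
  set ba := ψ (A (mkT 0 0)) with hba
  have n1 : bt ≠ x0 := fun e => ct_notMem h hi 0 (by rw [← hbt, e]; exact D.hx.2)
  have n2 : ba ≠ x0 := fun e => ca_notMem h hj 0 (by rw [← hba, e]; exact D.hx.1)
  have n3 : bt ≠ ba := fun e => ct_notMem h hi 0 (by
    rw [← hbt, e]
    exact (ca_isP hY₁ h hj).zero_mem)
  set k : Y → H := fun y => if y = x0 then w d1 * (w' d1)⁻¹ else if y = ba then
    w d2 * (w d1 * (w' d1)⁻¹) * (w' d2)⁻¹ else 1 with hk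
  have k0 : k x0 = w d1 * (w' d1)⁻¹ := if_pos rfl
  have ka : k ba = w d2 * (w d1 * (w' d1)⁻¹) * (w' d2)⁻¹ := (if_neg n2).trans (if_pos rfl)
  have kt : k bt = 1 := (if_neg n1).trans (if_neg n3)
  set v := w'.gauge k with hv
  have v1 : w d1 = v d1 := by
    rw [hv, Hol.gauge_apply, D.z1, D.o1, ← hbt, k0, kt]
    group
  have v2 : w d2 = v d2 := by
    rw [hv, Hol.gauge_apply, D.z2, D.o2, ← hba, k0, ka]
    group
  have v3 : w (fun t => φ (A (mkT t 0))) = v (fun t => φ (A (mkT t 0))) := by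
    rw [hv, Hol.gauge_apply, mkT_one, ← hbt, kt, h1]
    group
  have v4 : w (fun t => ψ (A (mkT t 0))) = v (fun t => ψ (A (mkT t 0))) := by
    obtain ⟨-, l0, l1, lw⟩ := lpA_apply hY₁ h hj D w
    obtain ⟨-, -, -, lv⟩ := lpA_apply hY₁ h hj D v
    have h3 : w (lpA A ψ d1 d2) = v (lpA A ψ d1 d2) := by
      rw [hv, Hol.gauge_apply, l0, l1, ← hbt, kt, h2]
      group
    rw [lw, lv, v1, v2] at h3
    exact mul_left_cancel (mul_right_cancel h3)
  have a1 : AgreeAt φ.target x0 w v :=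
    (agree_left hm hY₁ h hi w v v3).base (subset_univ _) (subset_univ _) D.p1 D.z1 D.o1 v1
  have a2 : AgreeAt ψ.target x0 w v := by
    refine (agree_right hm hY₁ h hj w v v4).base (subset_univ _) (subset_univ _) D.p2.rev (by rw [rev_zero, D.o2])
      (by rw [rev_one, D.z2]) ?_
    rw [w.rev (D.p2.mono (subset_univ _)), v.rev (D.p2.mono (subset_univ _)), v2]
  have a3 : AgreeAt univ x0 w v := by
    have hcov : φ.target ∪ ψ.target ⊆ (univ : Set Y) := subset_univ _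
    have h5 := vk_unique φ.open_target ψ.open_target (pφ hm h) (pψ hm h) (cs_neck (by omega) h) D.hx (w.mono hcov)
      (v.mono hcov) a1 a2
    intro c hc h0 h1
    exact h5 c (by rw [h.cover]; exact hc) h0 h1
  have a4 : AgreeAt univ bt w v := by
    refine a3.base (subset_univ _) (subset_univ _) (D.p1.mono (subset_univ _)).rev (by rw [rev_zero, D.o1])
      (by rw [rev_one, D.z1]) ?_
    rw [w.rev (D.p1.mono (subset_univ _)), v.rev (D.p1.mono (subset_univ _)), v1]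
  intro c hc h0 h1'
  have h5 := a4 c hc h0 h1'
  rw [hv, Hol.gauge_apply, h0, h1', kt] at h5
  rw [h5]
  group

/-- Transports on `Y` with arbitrary values on the two loops. -/
theorem y_exists (hm : 3 ≤ m) (hY₁ : IsS1S m A B) (h : IsCS (m + 1) i j φ ψ) (hi : ∀ θ : ℝ, A (mkT θ 0) ∉ i.target)
    (hj : ∀ θ : ℝ, A (mkT θ 0) ∉ j.target) {x0 : Y} {d1 d2 : ℝ → Y} (D : Dt A φ ψ x0 d1 d2) {H : Type} [Group H]
    (g1 g2 : H) : ∃ w : Hol (univ : Set Y) H, w (fun t => φ (A (mkT t 0))) = g1 ∧ w (lpA A ψ d1 d2) = g2 := by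
  obtain ⟨w1, hw1⟩ := y1_exists hm hY₁ g1
  obtain ⟨w2, hw2⟩ := y1_exists hm hY₁ g2
  obtain ⟨k1, hk1, hk1'⟩ := exists_normal h.si w1 (A (mkT 0 0))
  obtain ⟨k2, hk2, hk2'⟩ := exists_normal h.sj w2 (A (mkT 0 0))
  have hdi : i '' {0}ᶜ ⊆ i.target := by
    rw [← disc_inter h.si]
    exact inter_subset_right
  have hdj : j '' {0}ᶜ ⊆ j.target := by
    rw [← disc_inter h.sj]
    exact inter_subset_right
  set W1 := w1.gauge k1 with hW1
  set W2 := w2.gauge k2 with hW2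
  have m1 : IsP univ (fun t => φ.symm (d1 t)) := (isP_symm φ D.p1).mono (subset_univ _)
  set z : H := W1 (fun t => φ.symm (d1 t)) * W2 (fun t => ψ.symm (d2 t)) with hz
  obtain ⟨r, hr1, hr2⟩ := cs_glue h (W1.mono (subset_univ ({i 0}ᶜ : Set Y₁)))
    ((W2.gauge fun _ => z).mono (subset_univ ({j 0}ᶜ : Set Y₁)))
    (fun c hc => hk1' c (hc.mono hdi)) (fun c hc => by
      have := hk2' c (hc.mono hdj)
      rw [Hol.mono_apply, Hol.gauge_apply, hW2, Hol.gauge_apply, this, mul_one, mul_inv_cancel])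
  have r1 : r (fun t => φ (A (mkT t 0))) = g1 := by
    rw [hr1 _ (core1_isP hY₁ h hi), Hol.mono_apply, hW1, Hol.gauge_apply, mkT_one, hk1, hw1]
    group
  have r2 : r (fun t => ψ (A (mkT t 0))) = z * g2 * z⁻¹ := by
    rw [hr2 _ (core2_isP hY₁ h hj), Hol.mono_apply, Hol.gauge_apply, hW2, Hol.gauge_apply, mkT_one, hk2, hw2]
    group
  have s1 : r d1 = W1 (fun t => φ.symm (d1 t)) := by
    have hc' := isP_symm φ D.p1
    rw [h.sφ] at hc'
    rw [r.congr (c := d1) (c' := fun t => φ (φ.symm (d1 t))) (fun t ht => (φ.right_inv (D.p1.2 t ht)).symm),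
      hr1 _ hc', Hol.mono_apply]
  have s2 : r d2 = z * W2 (fun t => ψ.symm (d2 t)) * z⁻¹ := by
    have hc' := isP_symm ψ D.p2
    rw [h.sψ] at hc'
    rw [r.congr (c := d2) (c' := fun t => ψ (ψ.symm (d2 t))) (fun t ht => (ψ.right_inv (D.p2.2 t ht)).symm),
      hr2 _ hc', Hol.mono_apply, Hol.gauge_apply]
  refine ⟨r, r1, ?_⟩
  rw [(lpA_apply hY₁ h hj D r).2.2.2, r2, s1, s2, hz]
  group

end Y

end Pool.Agent.CSM.D
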