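import Mathlib

/-!
# Closed connected oriented smooth n-manifolds and the connected sum

Model space: Euclidean n-space `E n`.  An oriented smooth n-manifold is a charted space over `E n` whose transition
maps are smooth with smooth inverse and positive Jacobian determinant (the structure groupoid `orG n`).
-/

open scoped Manifold ContDiff Topology
open Set

namespace Pool.Agent.CSM

/-- Euclidean n-space. -/
abbrev E (n : ℕ) := EuclideanSpace ℝ (Fin n)

/-- The pregroupoid of smooth maps with positive Jacobian determinant. -/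
def orPre (n : ℕ) : Pregroupoid (E n) where
  property f s := ContDiffOn ℝ ∞ f s ∧ ∀ x ∈ s, 0 < (fderiv ℝ f x).det
  comp {f g u v} hf hg hu hv huv := by
    refine ⟨hg.1.comp (hf.1.mono inter_subset_left) fun x hx => hx.2, fun x hx => ?_⟩
    have h1 : DifferentiableAt ℝ f x :=
      ((hf.1 x hx.1).contDiffAt (hu.mem_nhds hx.1)).differentiableAt (by simp)
    have h2 : DifferentiableAt ℝ g (f x) :=
      ((hg.1 (f x) hx.2).contDiffAt (hv.mem_nhds hx.2)).differentiableAt (by simp)
    rw [fderiv_comp x h2 h1]
    have h3 := hf.2 x hx.1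
    have h4 := hg.2 (f x) hx.2
    have h5 : (fderiv ℝ g (f x) ∘L fderiv ℝ f x).det = (fderiv ℝ g (f x)).det * (fderiv ℝ f x).det :=
      LinearMap.det_comp (fderiv ℝ g (f x) : E n →ₗ[ℝ] E n) (fderiv ℝ f x : E n →ₗ[ℝ] E n)
    rw [h5]
    exact mul_pos h4 h3
  id_mem := by
    refine ⟨contDiffOn_id, fun x _ => ?_⟩
    rw [fderiv_id]
    simp [ContinuousLinearMap.det]
  locality {f u} hu h := by
    refine ⟨fun x hx => ?_, fun x hx => ?_⟩
    · obtain ⟨v, hv, hxv, h1, -⟩ := h x hx
      exact ((h1 x ⟨hx, hxv⟩).contDiffAt ((hu.inter hv).mem_nhds ⟨hx, hxv⟩)).contDiffWithinAt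
    · obtain ⟨v, hv, hxv, -, h2⟩ := h x hx
      exact h2 x ⟨hx, hxv⟩
  congr {f g u} hu h hf := by
    refine ⟨hf.1.congr h, fun x hx => ?_⟩
    have : g =ᶠ[𝓝 x] f := Filter.eventually_of_mem (hu.mem_nhds hx) h
    rw [this.fderiv_eq]
    exact hf.2 x hx

/-- The structure groupoid of orientation preserving smooth partial diffeomorphisms of `E n`. -/
def orG (n : ℕ) : StructureGroupoid (E n) := (orPre n).groupoid

/-- A closed (compact, without boundary), connected, nonempty, oriented smooth n-manifold. -/
structure OMan (n : ℕ) where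
  carrier : Type
  [top : TopologicalSpace carrier]
  [charted : ChartedSpace (E n) carrier]
  [grp : HasGroupoid carrier (orG n)]
  [t2 : T2Space carrier]
  [compact : CompactSpace carrier]
  [conn : ConnectedSpace carrier]

attribute [instance] OMan.top OMan.charted OMan.grp OMan.t2 OMan.compact OMan.conn

instance (n : ℕ) : CoeSort (OMan n) Type := ⟨OMan.carrier⟩

/-- Orientation preserving diffeomorphism of closed oriented manifolds. -/
def OMan.Iso {n : ℕ} (M N : OMan n) : Prop := Nonempty (Structomorph (orG n) M N)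

/-- An orientation preserving smooth open partial homeomorphism (diffeomorphism between open subsets). -/
def PD (n : ℕ) {X Y : Type*} [TopologicalSpace X] [TopologicalSpace Y] [ChartedSpace (E n) X]
    [ChartedSpace (E n) Y] (f : OpenPartialHomeomorph X Y) : Prop :=
  ∀ e ∈ atlas (E n) X, ∀ e' ∈ atlas (E n) Y, e.symm ≫ₕ f ≫ₕ e' ∈ orG n

/-- The reflection of `E n` in the coordinate with index 0. -/
noncomputable def rho (n : ℕ) (v : E n) : E n := WithLp.toLp 2 fun i => if (i : ℕ) = 0 then -v i else v i

/-- The reflected inversion `v ↦ ρ(v) / |v|²`: it preserves the orientation of `E n` minus the origin and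
exchanges the two ends. -/
noncomputable def inv (n : ℕ) (v : E n) : E n := (‖v‖ ^ 2)⁻¹ • rho n v

/-- `X = M # N`, by gluing along open collars: `i : E n → M` and `j : E n → N` are orientation preserving
open embeddings, `X` is the union of `M` minus `i 0` and `N` minus `j 0`, glued along
`i (v) = j (inv v)`, `v ≠ 0`. (`j ∘ ρ` reverses the orientation and `i (v) = (j ∘ ρ) (v / |v|²)`.) -/
structure IsCS (n : ℕ) {M N X : Type*} [TopologicalSpace M] [TopologicalSpace N] [TopologicalSpace X]
    [ChartedSpace (E n) M] [ChartedSpace (E n) N] [ChartedSpace (E n) X]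
    (i : OpenPartialHomeomorph (E n) M) (j : OpenPartialHomeomorph (E n) N)
    (φ : OpenPartialHomeomorph M X) (ψ : OpenPartialHomeomorph N X) : Prop where
  pdi : PD n i
  pdj : PD n j
  pdφ : PD n φ
  pdψ : PD n ψ
  si : i.source = univ
  sj : j.source = univ
  sφ : φ.source = {i 0}ᶜ
  sψ : ψ.source = {j 0}ᶜ
  cover : φ.target ∪ ψ.target = univ
  inter : φ.target ∩ ψ.target = φ '' (i '' {0}ᶜ)
  glue : ∀ v : E n, v ≠ 0 → φ (i v) = ψ (j (inv n v))

/-- `X` is a connected sum of the closed oriented manifolds `M` and `N`. -/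
def ConnSum {n : ℕ} (M N X : OMan n) : Prop :=
  ∃ (i : OpenPartialHomeomorph (E n) M) (j : OpenPartialHomeomorph (E n) N)
    (φ : OpenPartialHomeomorph M X) (ψ : OpenPartialHomeomorph N X), IsCS n i j φ ψ

end Pool.Agent.CSM
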