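import Pool.Agent.CSM.Defs

/-!
Internal definitions: the open solid torus `T m`, tubes, embedded circles, thin sets, free homotopies, twists,
replacement models (surgery), the standard sphere.
-/

open scoped Manifold ContDiff Topology
open Set

namespace Pool.Agent.CSM

/-- short name -/
abbrev OPH (X Y : Type*) [TopologicalSpace X] [TopologicalSpace Y] := OpenPartialHomeomorph X Y

/-! ### Coordinates -/

/-- `ℝ × E m ≃ E (m+1)`, `(s, x) ↦ (s, x_0, ..., x_{m-1})`. -/
noncomputable def consL (m : ℕ) : (ℝ × E m) ≃L[ℝ] E (m + 1) :=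
  LinearEquiv.toContinuousLinearEquiv
    { toFun := fun p => WithLp.toLp 2 (Fin.cons p.1 (fun i => p.2 i) : Fin (m + 1) → ℝ)
      map_add' := by
        intro p q
        ext i
        refine Fin.cases ?_ (fun j => ?_) i <;> simp
      map_smul' := by
        intro c p
        ext i
        refine Fin.cases ?_ (fun j => ?_) i <;> simp
      invFun := fun v => (v 0, WithLp.toLp 2 fun i => v (Fin.succ i))
      left_inv := by
        intro p
        refine Prod.ext (by simp) ?_
        ext i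
        simp
      right_inv := by
        intro v
        ext i
        refine Fin.cases ?_ (fun j => ?_) i <;> simp }

/-! ### The open solid torus -/

/-- `T m = S^1 × E m`, the open solid torus (circle of length 1). -/
def T (m : ℕ) : Type := AddCircle (1 : ℝ) × E m

instance (m : ℕ) : TopologicalSpace (T m) := inferInstanceAs (TopologicalSpace (AddCircle (1 : ℝ) × E m))

instance (m : ℕ) : T2Space (T m) := inferInstanceAs (T2Space (AddCircle (1 : ℝ) × E m))

/-- The point of `T m` with angle `θ` and coordinate `x`. -/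
def mkT {m : ℕ} (θ : ℝ) (x : E m) : T m := ((θ : AddCircle (1 : ℝ)), x)

/-- The chart of `T m` on the complement of the angle `a`. -/
noncomputable def chT (m : ℕ) (a : ℝ) : OPH (T m) (E (m + 1)) :=
  ((AddCircle.openPartialHomeomorphCoe (1 : ℝ) a).symm.prod (OpenPartialHomeomorph.refl (E m))).trans
    (consL m).toHomeomorph.toOpenPartialHomeomorph

theorem mem_chT_source {m : ℕ} (a : ℝ) (p : T m) : p ∈ (chT m a).source ↔ p.1 ≠ (a : AddCircle (1 : ℝ)) := by
  have h : (chT m a).source = ({(a : AddCircle (1 : ℝ))}ᶜ ×ˢ univ : Set (AddCircle (1 : ℝ) × E m)) := by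
    rw [chT, OpenPartialHomeomorph.trans_source]
    simp
  rw [h]
  exact ⟨fun h => h.1, fun h => ⟨h, trivial⟩⟩

theorem exists_chT {m : ℕ} (p : T m) : p ∈ (chT m (Function.surjInv QuotientAddGroup.mk_surjective p.1 - 1 / 2)).source := by
  rw [mem_chT_source]
  intro h
  have h1 : ((Function.surjInv (QuotientAddGroup.mk_surjective (s := AddSubgroup.zmultiples (1 : ℝ))) p.1 : ℝ) :
      AddCircle (1 : ℝ)) = p.1 := Function.surjInv_eq QuotientAddGroup.mk_surjective p.1
  have h2 : (((1 / 2 : ℝ)) : AddCircle (1 : ℝ)) = 0 := by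
    have h3 := h
    rw [AddCircle.coe_sub] at h3
    have h4 : p.1 = p.1 - (((1 / 2 : ℝ)) : AddCircle (1 : ℝ)) := by
      conv_lhs => rw [h3]
      rw [h1]
    have h5 : p.1 - (p.1 - (((1 / 2 : ℝ)) : AddCircle (1 : ℝ))) = 0 := by rw [← h4]; simp
    simpa using h5
  rw [AddCircle.coe_eq_zero_iff] at h2
  obtain ⟨k, hk⟩ := h2
  have h6 : (k : ℝ) = 1 / 2 := by simpa using hk
  have h7 : (2 * k : ℝ) = 1 := by linarith
  have h8 : (2 * k : ℤ) = 1 := by exact_mod_cast h7
  omega

noncomputable instance (m : ℕ) : ChartedSpace (E (m + 1)) (T m) where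
  atlas := range (chT m)
  chartAt p := chT m (Function.surjInv QuotientAddGroup.mk_surjective p.1 - 1 / 2)
  mem_chart_source p := exists_chT p
  chart_mem_atlas _ := mem_range_self _

/-! ### Curves -/

section curves

variable {X : Type*} [TopologicalSpace X]

/-- `c` is smooth at `t`. -/
def SmAt (n : ℕ) [ChartedSpace (E n) X] (c : ℝ → X) (t : ℝ) : Prop :=
  ContinuousAt c t ∧ ∀ e ∈ atlas (E n) X, c t ∈ e.source → ContDiffAt ℝ ∞ (e ∘ c) t

/-- `c` is smooth with nonzero derivative at `t`. -/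
def RegAt (n : ℕ) [ChartedSpace (E n) X] (c : ℝ → X) (t : ℝ) : Prop :=
  ContinuousAt c t ∧ ∀ e ∈ atlas (E n) X, c t ∈ e.source → ContDiffAt ℝ ∞ (e ∘ c) t ∧ deriv (e ∘ c) t ≠ 0

/-- `c` is a smoothly embedded circle, parametrised with period 1. -/
structure Emb (n : ℕ) [ChartedSpace (E n) X] (c : ℝ → X) : Prop where
  per : ∀ t, c (t + 1) = c t
  reg : ∀ t, RegAt n c t
  inj : ∀ s t, c s = c t → ∃ k : ℤ, t = s + k

/-- `L` is contained in a countable union of smooth curves (points are allowed). -/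
def Thin (n : ℕ) [ChartedSpace (E n) X] (L : Set X) : Prop :=
  ∃ κ : ℕ → ℝ → X, (∀ k t, SmAt n (κ k) t) ∧ L ⊆ ⋃ k, range (κ k)

/-- Free homotopy of loops of period 1 inside the set `O`. -/
def FreeHtpy (O : Set X) (c c' : ℝ → X) : Prop :=
  ∃ H : ℝ → ℝ → X, Continuous (Function.uncurry H) ∧ (∀ s t, H s (t + 1) = H s t) ∧
    (∀ t, H 0 t = c t) ∧ (∀ t, H 1 t = c' t) ∧ ∀ s t, H s t ∈ O

end curves

/-! ### Twists -/

/-- A smooth loop of rotations of `E m`. -/
structure Twist (m : ℕ) where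
  O : ℝ → E m →L[ℝ] E m
  smooth : ContDiff ℝ ∞ O
  per : ∀ t, O (t + 1) = O t
  isom : ∀ t x, ‖O t x‖ = ‖x‖
  pos : ∀ t, 0 < (O t).det

/-- The diffeomorphism `(z, x) ↦ (z, O(z) x)` of the solid torus. -/
noncomputable def Twist.map {m : ℕ} (τ : Twist m) (p : T m) : T m :=
  (p.1, (Function.Periodic.lift τ.per p.1 : E m →L[ℝ] E m) p.2)

/-! ### Replacement models -/

/-- A replacement model: the open set `κ.source ∪ C` of `Q` is to be replaced by the open set `κ.target ∪ C'`
of `Q'`. -/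
structure Mod (n : ℕ) (Q Q' : Type) [TopologicalSpace Q] [ChartedSpace (E n) Q] [TopologicalSpace Q']
    [ChartedSpace (E n) Q'] where
  κ : OPH Q Q'
  C : Set Q
  C' : Set Q'
  pd : PD n κ
  disj : Disjoint κ.source C
  disj' : Disjoint κ.target C'
  op : IsOpen (κ.source ∪ C)
  op' : IsOpen (κ.target ∪ C')
  cC : IsCompact C
  cC' : IsCompact C'
  prop : ∃ K : Set Q, IsCompact K ∧ K ⊆ κ.source ∪ C ∧
    ∃ N' : Set Q', IsOpen N' ∧ C' ⊆ N' ∧ N' ⊆ κ.target ∪ C' ∧ κ.symm '' (N' \ C') ⊆ K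
  prop' : ∃ K' : Set Q', IsCompact K' ∧ K' ⊆ κ.target ∪ C' ∧
    ∃ N : Set Q, IsOpen N ∧ C ⊆ N ∧ N ⊆ κ.source ∪ C ∧ κ '' (N \ C) ⊆ K'

/-- `X'` is obtained from `X` by replacing `e (κ.source ∪ C)` according to the model; `φ` is the identification
of the complement of `e '' C` with the complement of the new core. -/
structure Repl (n : ℕ) {Q Q' : Type} [TopologicalSpace Q] [ChartedSpace (E n) Q] [TopologicalSpace Q']
    [ChartedSpace (E n) Q'] (μ : Mod n Q Q') {X X' : Type*} [TopologicalSpace X] [ChartedSpace (E n) X]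
    [TopologicalSpace X'] [ChartedSpace (E n) X'] (e : OPH Q X) (φ : OPH X X') : Prop where
  pde : PD n e
  se : e.source = μ.κ.source ∪ μ.C
  pdφ : PD n φ
  sφ : φ.source = (e '' μ.C)ᶜ
  ex : ∃ d : OPH Q' X', PD n d ∧ d.source = μ.κ.target ∪ μ.C' ∧ φ.target = (d '' μ.C')ᶜ ∧
    ∀ q ∈ μ.κ.source, φ (e q) = d (μ.κ q)

/-! ### The standard sphere -/

/-- `S` is the standard n-sphere: two copies of `E n` glued by the reflected inversion. -/
def IsSph (n : ℕ) (S : Type*) [TopologicalSpace S] [ChartedSpace (E n) S] : Prop :=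
  ∃ i j : OPH (E n) S, PD n i ∧ PD n j ∧ i.source = univ ∧ j.source = univ ∧ i.target ∪ j.target = univ ∧
    i.target ∩ j.target = i '' {0}ᶜ ∧ ∀ v : E n, v ≠ 0 → i v = j (inv n v)

end Pool.Agent.CSM
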