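import Mathlib

/-!
# Free products: a pair with `τ α τ⁻¹ = α ^ 2`, `α ≠ 1`, lies in a conjugate of a factor

Normal forms in `Monoid.CoprodI`, written with lists.
-/

open Monoid

universe u

namespace Pool.Agent.CSM

namespace FP

variable {ι : Type*} {G : ι → Type*} [∀ i, Group (G i)]

/-- Reduced words. -/
def Red (L : List (Σ i, G i)) : Prop := (∀ l ∈ L, l.2 ≠ 1) ∧ L.IsChain fun l l' => l.1 ≠ l'.1

/-- The product of a word. -/
def pr (L : List (Σ i, G i)) : CoprodI G := (L.map fun l => CoprodI.of l.2).prod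

theorem pr_nil : pr ([] : List (Σ i, G i)) = 1 := rfl

theorem pr_cons (l : Σ i, G i) (L : List (Σ i, G i)) : pr (l :: L) = CoprodI.of l.2 * pr L := by
  simp [pr]

theorem pr_append (L L' : List (Σ i, G i)) : pr (L ++ L') = pr L * pr L' := by
  simp [pr]

theorem pr_single (l : Σ i, G i) : pr [l] = CoprodI.of l.2 := by
  simp [pr]

theorem exists_red (x : CoprodI G) : ∃ L, Red L ∧ pr L = x := by
  classical
  refine ⟨(CoprodI.Word.equiv x).toList, ⟨(CoprodI.Word.equiv x).ne_one, (CoprodI.Word.equiv x).chain_ne⟩, ?_⟩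
  exact CoprodI.Word.equiv.symm_apply_apply x

theorem red_unique {L L' : List (Σ i, G i)} (h : Red L) (h' : Red L') (e : pr L = pr L') : L = L' := by
  classical
  have h1 : (CoprodI.Word.equiv (M := G)).symm ⟨L, h.1, h.2⟩ = (CoprodI.Word.equiv (M := G)).symm ⟨L', h'.1, h'.2⟩ := e
  have h2 := (CoprodI.Word.equiv (M := G)).symm.injective h1
  exact congrArg CoprodI.Word.toList h2

/-- The length of the reduced word of `x`. -/
noncomputable def len (x : CoprodI G) : ℕ := (exists_red x).choose.length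

theorem len_pr {L : List (Σ i, G i)} (h : Red L) : len (pr L) = L.length := by
  have h1 := (exists_red (pr L)).choose_spec
  rw [len, red_unique h1.1 h h1.2]

theorem red_nil : Red ([] : List (Σ i, G i)) := ⟨by simp, List.isChain_nil⟩

theorem red_single {i : ι} {m : G i} (h : m ≠ 1) : Red [(⟨i, m⟩ : Σ i, G i)] :=
  ⟨by simpa using h, List.isChain_singleton _⟩

theorem Red.tail {l : Σ i, G i} {L : List (Σ i, G i)} (h : Red (l :: L)) : Red L :=
  ⟨fun x hx => h.1 x (List.mem_cons_of_mem _ hx), h.2.tail⟩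

theorem Red.left {L L' : List (Σ i, G i)} (h : Red (L ++ L')) : Red L :=
  ⟨fun x hx => h.1 x (List.mem_append_left _ hx), (List.isChain_append.1 h.2).1⟩

theorem len_cons_le (l : Σ i, G i) (x : CoprodI G) : len (CoprodI.of l.2 * x) ≤ len x + 1 := by
  classical
  obtain ⟨i, m⟩ := l
  obtain ⟨L, hL, rfl⟩ := exists_red x
  show len (CoprodI.of m * pr L) ≤ _
  by_cases hm : m = 1
  · rw [hm, map_one, one_mul]
    omega
  cases L with
  | nil =>
    rw [pr_nil, mul_one, ← pr_single ⟨i, m⟩, len_pr (red_single hm)]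
    simp
  | cons l' L' =>
    obtain ⟨j, k⟩ := l'
    rw [len_pr hL]
    by_cases hij : i = j
    · subst hij
      by_cases hk : m * k = 1
      · rw [pr_cons, ← mul_assoc, ← map_mul, hk, map_one, one_mul, len_pr hL.tail]
        simp only [List.length_cons]
        omega
      · have h1 : Red ((⟨i, m * k⟩ : Σ i, G i) :: L') := by
          refine ⟨?_, ?_⟩
          · intro x hx
            rcases List.mem_cons.1 hx with rfl | hx
            · exact hk
            · exact hL.1 x (List.mem_cons_of_mem _ hx)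
          · rw [List.isChain_cons]
            have := hL.2
            rw [List.isChain_cons] at this
            exact this
        rw [pr_cons, ← mul_assoc, ← map_mul]
        have h2 := len_pr h1
        rw [pr_cons] at h2
        rw [h2]
        simp
    · have h1 : Red ((⟨i, m⟩ : Σ i, G i) :: ⟨j, k⟩ :: L') := by
        refine ⟨?_, ?_⟩
        · intro x hx
          rcases List.mem_cons.1 hx with rfl | hx
          · exact hm
          · exact hL.1 x hx
        · exact List.isChain_cons_cons.2 ⟨hij, hL.2⟩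
      have h2 := len_pr h1
      rw [pr_cons] at h2
      rw [h2]
      simp

theorem len_one : len (1 : CoprodI G) = 0 := by
  rw [← pr_nil, len_pr red_nil]
  rfl

theorem len_pr_mul_le (L : List (Σ i, G i)) (x : CoprodI G) : len (pr L * x) ≤ L.length + len x := by
  induction L with
  | nil => simp [pr_nil]
  | cons l L ih =>
    rw [pr_cons, mul_assoc]
    refine (len_cons_le l _).trans ?_
    simp only [List.length_cons]
    omega

theorem len_pr_le (L : List (Σ i, G i)) : len (pr L) ≤ L.length := by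
  have := len_pr_mul_le L 1
  rwa [mul_one, len_one] at this

theorem len_mul_le (x y : CoprodI G) : len (x * y) ≤ len x + len y := by
  obtain ⟨L, hL, rfl⟩ := exists_red x
  rw [len_pr hL]
  exact len_pr_mul_le L y

/-- The word of the inverse. -/
def invL (L : List (Σ i, G i)) : List (Σ i, G i) := (L.map fun l => ⟨l.1, l.2⁻¹⟩).reverse

theorem pr_invL (L : List (Σ i, G i)) : pr (invL L) = (pr L)⁻¹ := by
  induction L with
  | nil => simp [invL, pr_nil]
  | cons l L ih =>
    have : invL (l :: L) = invL L ++ [⟨l.1, l.2⁻¹⟩] := by simp [invL]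
    rw [this, pr_append, pr_single, pr_cons, ih, mul_inv_rev, map_inv]

theorem length_invL (L : List (Σ i, G i)) : (invL L).length = L.length := by simp [invL]

theorem len_inv_le (x : CoprodI G) : len x⁻¹ ≤ len x := by
  obtain ⟨L, hL, rfl⟩ := exists_red x
  rw [len_pr hL, ← pr_invL, ← length_invL L]
  exact len_pr_le _

theorem red_invL {L : List (Σ i, G i)} (h : Red L) : Red (invL L) := by
  refine ⟨?_, ?_⟩
  · intro x hx
    simp only [invL, List.mem_reverse, List.mem_map] at hx
    obtain ⟨l, hl, rfl⟩ := hx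
    exact inv_ne_one.2 (h.1 l hl)
  · rw [invL, List.isChain_reverse, List.isChain_map]
    exact h.2.imp fun a b hab => hab.symm

theorem head_invL (L : List (Σ i, G i)) : (invL L).head?.map Sigma.fst = L.getLast?.map Sigma.fst := by
  simp [invL, List.head?_reverse, List.getLast?_map]
  rfl

theorem nil_or_append {α : Type*} (L : List α) : L = [] ∨ ∃ (L' : List α) (l : α), L = L' ++ [l] := by
  rcases List.eq_nil_or_concat L with h | ⟨L', l, h⟩
  · exact Or.inl h
  · exact Or.inr ⟨L', l, by rw [h, List.concat_eq_append]⟩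

/-- The factors are malnormal. -/
theorem malnormal {i : ι} {w v : G i} (hw : w ≠ 1) {x : CoprodI G}
    (h : x * CoprodI.of w * x⁻¹ = CoprodI.of v) : ∃ y : G i, x = CoprodI.of y := by
  classical
  -- write `x = x₀ * of y` where the word of `x₀` does not end in `G i`
  have key : ∃ (L : List (Σ i, G i)) (y : G i), Red L ∧ (∀ l ∈ L.getLast?, l.1 ≠ i) ∧ x = pr L * CoprodI.of y := by
    obtain ⟨L, hL, rfl⟩ := exists_red x
    rcases nil_or_append L with rfl | ⟨L', l, rfl⟩
    · exact ⟨[], 1, hL, by simp, by simp⟩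
    · obtain ⟨j, m⟩ := l
      by_cases hij : j = i
      · subst hij
        refine ⟨L', m, hL.left, ?_, ?_⟩
        · intro l hl
          have := (List.isChain_append.1 hL.2).2.2 l hl ⟨j, m⟩ (by simp)
          exact this
        · rw [pr_append, pr_single]
      · refine ⟨L' ++ [⟨j, m⟩], 1, hL, ?_, by simp⟩
        intro l hl
        simp only [List.getLast?_append, List.getLast?_singleton, Option.some_or, Option.mem_def,
          Option.some.injEq] at hl
        subst hl
        exact hij
  obtain ⟨L, y, hL, hl, rfl⟩ := key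
  have hw' : y * w * y⁻¹ ≠ 1 := by
    intro h1
    apply hw
    have : w = y⁻¹ * (y * w * y⁻¹) * y := by group
    rw [this, h1]
    group
  have h1 : pr (L ++ ([⟨i, y * w * y⁻¹⟩] ++ invL L)) = CoprodI.of v := by
    rw [pr_append, pr_append, pr_single, pr_invL, ← h]
    simp only [map_mul, map_inv, mul_inv_rev]
    group
  have h2 : Red (L ++ ([(⟨i, y * w * y⁻¹⟩ : Σ i, G i)] ++ invL L)) := by
    refine ⟨?_, ?_⟩
    · intro x hx
      rcases List.mem_append.1 hx with hx | hx
      · exact hL.1 x hx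
      · rcases List.mem_append.1 hx with hx | hx
        · rw [List.mem_singleton.1 hx]
          exact hw'
        · exact (red_invL hL).1 x hx
    · rw [List.isChain_append]
      refine ⟨hL.2, ?_, ?_⟩
      · rw [List.isChain_append]
        refine ⟨List.isChain_singleton _, (red_invL hL).2, ?_⟩
        intro a ha b hb
        simp only [List.getLast?_singleton, Option.mem_def, Option.some.injEq] at ha
        subst ha
        have h3 := head_invL L
        rw [Option.mem_def.1 hb] at h3
        simp only [Option.map_some] at h3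
        obtain ⟨c, hc, hcb⟩ := Option.map_eq_some_iff.1 h3.symm
        have := hl c hc
        rw [hcb] at this
        exact this.symm
      · intro a ha b hb
        simp only [List.singleton_append, List.head?_cons, Option.mem_def, Option.some.injEq] at hb
        subst hb
        exact hl a ha
  have hv : v ≠ 1 := by
    intro h3
    rw [h3, map_one] at h
    apply hw
    have h4 : CoprodI.of w = (pr L * CoprodI.of y)⁻¹ * 1 * (pr L * CoprodI.of y) := by
      rw [← h]; group
    have h5 : (CoprodI.of w : CoprodI G) = CoprodI.of (1 : G i) := by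
      rw [h4, map_one]; group
    exact CoprodI.of_injective i h5
  have h3 : L ++ ([(⟨i, y * w * y⁻¹⟩ : Σ i, G i)] ++ invL L) = [⟨i, v⟩] := by
    refine red_unique h2 (red_single hv) ?_
    rw [h1, pr_single]
  have h4 := congrArg List.length h3
  simp only [List.length_append, List.length_cons, List.length_nil, length_invL] at h4
  have h5 : L = [] := List.eq_nil_of_length_eq_zero (by omega)
  subst h5
  exact ⟨y, by rw [pr_nil, one_mul]⟩

/-- Powers of a cyclically reduced word. -/
theorem red_pow {L : List (Σ i, G i)} (h : Red L) (hc : ∀ a ∈ L.getLast?, ∀ b ∈ L.head?, a.1 ≠ b.1) (hn : L ≠ [])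
    (k : ℕ) : Red (List.replicate (k + 1) L).flatten ∧
      (List.replicate (k + 1) L).flatten.head? = L.head? := by
  induction k with
  | zero => simpa using h
  | succ k ih =>
    rw [List.replicate_succ, List.flatten_cons]
    refine ⟨⟨?_, ?_⟩, ?_⟩
    · intro x hx
      rcases List.mem_append.1 hx with hx | hx
      · exact h.1 x hx
      · exact ih.1.1 x hx
    · rw [List.isChain_append]
      refine ⟨h.2, ih.1.2, ?_⟩
      rw [ih.2]
      exact hc
    · rw [List.head?_append_of_ne_nil _ hn]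

theorem pr_pow (L : List (Σ i, G i)) (k : ℕ) : pr (List.replicate k L).flatten = pr L ^ k := by
  induction k with
  | zero => simp [pr_nil]
  | succ k ih => rw [List.replicate_succ, List.flatten_cons, pr_append, ih, pow_succ']

theorem conj_pow_two {H : Type*} [Group H] {τ α : H} (h : τ * α * τ⁻¹ = α ^ 2) (k : ℕ) :
    α ^ (2 ^ k) = τ ^ k * α * (τ⁻¹) ^ k := by
  induction k with
  | zero => simp
  | succ k ih =>
    rw [pow_succ 2 k, pow_mul, ih, pow_succ' τ, pow_succ τ⁻¹]
    have h1 : (τ ^ k * α * τ⁻¹ ^ k) ^ 2 = τ ^ k * α ^ 2 * τ⁻¹ ^ k := by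
      have h2 : τ⁻¹ ^ k = (τ ^ k)⁻¹ := by rw [inv_pow]
      rw [h2, pow_two, pow_two]
      group
    rw [h1, ← h]
    have h3 : τ ^ k * τ = τ * τ ^ k := (pow_succ τ k).symm.trans (pow_succ' τ k)
    have h4 : τ⁻¹ * τ⁻¹ ^ k = τ⁻¹ ^ k * τ⁻¹ := (pow_succ' τ⁻¹ k).symm.trans (pow_succ τ⁻¹ k)
    calc τ ^ k * (τ * α * τ⁻¹) * τ⁻¹ ^ k = (τ ^ k * τ) * α * (τ⁻¹ * τ⁻¹ ^ k) := by group
      _ = _ := by rw [h3, h4]

theorem exists_large (s : ℕ) : ∃ k : ℕ, k * s + 1 < 2 ^ k := by
  have h : ∀ k : ℕ, 4 ≤ k → k ^ 2 ≤ 2 ^ k := by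
    intro k hk
    induction k, hk using Nat.le_induction with
    | base => norm_num
    | succ k hk ih =>
      rw [pow_succ 2 k]
      nlinarith
  refine ⟨s + 4, ?_⟩
  have := h (s + 4) (by omega)
  nlinarith

theorem len_pow_le (x : CoprodI G) (k : ℕ) : len (x ^ k) ≤ k * len x := by
  induction k with
  | zero => simp [len_one]
  | succ k ih =>
    rw [pow_succ]
    refine (len_mul_le _ _).trans ?_
    rw [Nat.succ_mul]
    omega

/-- The elliptic lemma in a free product. -/
theorem elliptic_coprodI {τ α : CoprodI G} (h1 : α ≠ 1) (h : τ * α * τ⁻¹ = α ^ 2) :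
    ∃ (g : CoprodI G) (i : ι) (t' a' : G i), a' ≠ 1 ∧ t' * a' * t'⁻¹ = a' ^ 2 ∧
      τ = g * CoprodI.of t' * g⁻¹ ∧ α = g * CoprodI.of a' * g⁻¹ := by
  classical
  -- minimise the length in the conjugacy class
  have hex : ∃ n : ℕ, ∃ g : CoprodI G, len (g⁻¹ * α * g) = n := ⟨_, 1, rfl⟩
  obtain ⟨g, hg⟩ := Nat.find_spec hex
  have hmin : ∀ x : CoprodI G, len (g⁻¹ * α * g) ≤ len (x⁻¹ * α * x) := by
    intro x
    rw [hg]
    exact Nat.find_min' hex ⟨x, rfl⟩
  set β := g⁻¹ * α * g with hβ
  set σ := g⁻¹ * τ * g with hσ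
  have hαβ : α = g * β * g⁻¹ := by rw [hβ]; group
  have hτσ : τ = g * σ * g⁻¹ := by rw [hσ]; group
  have hβ1 : β ≠ 1 := by
    intro h2
    apply h1
    rw [hαβ, h2]
    group
  have hrel : σ * β * σ⁻¹ = β ^ 2 := by
    have h2 : σ * β * σ⁻¹ = g⁻¹ * (τ * α * τ⁻¹) * g := by rw [hσ, hβ]; group
    rw [h2, h, hβ, pow_two, pow_two]
    group
  obtain ⟨L, hL, hLβ⟩ := exists_red β
  have hlen : len β = L.length := by rw [← hLβ, len_pr hL]
  cases L with
  | nil => exact absurd hLβ.symm hβ1
  | cons l L' =>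
    obtain ⟨i, b⟩ := l
    rcases nil_or_append L' with rfl | ⟨L'', l', rfl⟩
    · -- one letter
      have hb : β = CoprodI.of b := by rw [← hLβ, pr_single]
      have hb1 : b ≠ 1 := hL.1 ⟨i, b⟩ (by simp)
      have h2 : σ * CoprodI.of b * σ⁻¹ = CoprodI.of (b ^ 2) := by
        rw [← hb, hrel, hb, map_pow]
      obtain ⟨s, hs⟩ := malnormal hb1 h2
      refine ⟨g, i, s, b, hb1, ?_, by rw [← hs]; exact hτσ, by rw [← hb]; exact hαβ⟩
      apply CoprodI.of_injective (M := G) i
      rw [map_mul, map_mul, map_inv, ← hs]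
      exact h2
    · exfalso
      obtain ⟨j, c⟩ := l'
      by_cases hij : j = i
      · subst hij
        have h2 := hmin (g * CoprodI.of b)
        have h3 : (g * CoprodI.of b)⁻¹ * α * (g * CoprodI.of b) = pr (L'' ++ [⟨j, c * b⟩]) := by
          rw [hαβ, ← hLβ, pr_cons, pr_append, pr_append, pr_single, pr_single, map_mul]
          group
        rw [h3, hlen] at h2
        have h4 := len_pr_le (L'' ++ [(⟨j, c * b⟩ : Σ i, G i)])
        simp only [List.length_cons, List.length_append, List.length_nil] at h2 h4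
        omega
      · have hc : ∀ a ∈ ((⟨i, b⟩ : Σ i, G i) :: (L'' ++ [⟨j, c⟩])).getLast?,
            ∀ b' ∈ ((⟨i, b⟩ : Σ i, G i) :: (L'' ++ [⟨j, c⟩])).head?, a.1 ≠ b'.1 := by
          intro a ha b' hb'
          simp only [List.head?_cons, Option.mem_def, Option.some.injEq] at hb'
          subst hb'
          rw [← List.cons_append, List.getLast?_append] at ha
          simp only [List.getLast?_singleton, Option.some_or, Option.mem_def, Option.some.injEq] at ha
          subst ha
          exact hij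
        obtain ⟨k, hk⟩ := exists_large (len σ)
        have h2 := conj_pow_two hrel k
        have h3 := (red_pow hL hc (by simp) (2 ^ k - 1)).1
        have h4 : 2 ^ k - 1 + 1 = 2 ^ k := Nat.sub_add_cancel Nat.one_le_two_pow
        rw [h4] at h3
        have h5 := len_pr h3
        rw [pr_pow, hLβ, h2] at h5
        have h6 : len (σ ^ k * β * σ⁻¹ ^ k) ≤ k * len σ + len β + k * len σ := by
          refine (len_mul_le _ _).trans ?_
          have h7 := (len_mul_le (σ ^ k) β)
          have h8 := len_pow_le σ k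
          have h9 := len_pow_le σ⁻¹ k
          have h10 := Nat.mul_le_mul_left k (len_inv_le σ)
          omega
        rw [h5, hlen] at h6
        simp only [List.length_flatten, List.map_replicate, List.sum_replicate, smul_eq_mul,
          List.length_cons, List.length_append, List.length_nil] at h6
        have h7 : 2 ≤ L''.length + (0 + 1) + 1 := by omega
        generalize L''.length + (0 + 1) + 1 = p at h6 h7
        generalize 2 ^ k = q at h6 hk
        generalize k * len σ = z at h6 hk
        have h11 : (z + 2) * p ≤ q * p := Nat.mul_le_mul_right p (by omega)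
        have h12 : z * 2 ≤ z * p := Nat.mul_le_mul_left z h7
        nlinarith

end FP

/-- The factors over `Bool`. -/
def Fam (G₁ G₂ : Type u) : Bool → Type u
  | true => G₁
  | false => G₂

instance (G₁ G₂ : Type u) [Group G₁] [Group G₂] : ∀ b, Group (Fam G₁ G₂ b)
  | true => inferInstanceAs (Group G₁)
  | false => inferInstanceAs (Group G₂)

variable {G G₁ G₂ : Type u} [Group G] [Group G₁] [Group G₂]

/-- The elliptic lemma for `Monoid.Coprod`. -/
theorem elliptic_coprod {τ α : Coprod G₁ G₂} (h1 : α ≠ 1) (h : τ * α * τ⁻¹ = α ^ 2) :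
    ∃ g : Coprod G₁ G₂,
      (∃ t' a' : G₁, a' ≠ 1 ∧ t' * a' * t'⁻¹ = a' ^ 2 ∧ τ = g * Coprod.inl t' * g⁻¹ ∧
        α = g * Coprod.inl a' * g⁻¹) ∨
      (∃ t' a' : G₂, a' ≠ 1 ∧ t' * a' * t'⁻¹ = a' ^ 2 ∧ τ = g * Coprod.inr t' * g⁻¹ ∧
        α = g * Coprod.inr a' * g⁻¹) := by
  let A : Coprod G₁ G₂ →* CoprodI (Fam G₁ G₂) :=
    Coprod.lift (CoprodI.of (M := Fam G₁ G₂) (i := true)) (CoprodI.of (M := Fam G₁ G₂) (i := false))
  let B : CoprodI (Fam G₁ G₂) →* Coprod G₁ G₂ :=
    CoprodI.lift fun b => match b with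
      | true => (Coprod.inl : G₁ →* Coprod G₁ G₂)
      | false => (Coprod.inr : G₂ →* Coprod G₁ G₂)
  have hB1 : ∀ x : G₁, B (CoprodI.of (M := Fam G₁ G₂) (i := true) x) = Coprod.inl x := fun x =>
    CoprodI.lift_of _ _
  have hB2 : ∀ x : G₂, B (CoprodI.of (M := Fam G₁ G₂) (i := false) x) = Coprod.inr x := fun x =>
    CoprodI.lift_of _ _
  have hBA : ∀ x, B (A x) = x := by
    intro x
    have : B.comp A = MonoidHom.id _ := by
      apply Coprod.hom_ext
      · ext x
        show B (A (Coprod.inl x)) = Coprod.inl x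
        rw [show A (Coprod.inl x) = CoprodI.of (M := Fam G₁ G₂) (i := true) x from Coprod.lift_apply_inl _ _ _, hB1]
      · ext x
        show B (A (Coprod.inr x)) = Coprod.inr x
        rw [show A (Coprod.inr x) = CoprodI.of (M := Fam G₁ G₂) (i := false) x from Coprod.lift_apply_inr _ _ _, hB2]
    exact DFunLike.congr_fun this x
  have h1' : A α ≠ 1 := by
    intro h2
    apply h1
    rw [← hBA α, h2, map_one]
  have h' : A τ * A α * (A τ)⁻¹ = A α ^ 2 := by
    rw [← map_inv, ← map_mul, ← map_mul, h, map_pow]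
  obtain ⟨g, i, t', a', h3, h4, h5, h6⟩ := FP.elliptic_coprodI h1' h'
  have h7 := congrArg B h5
  have h8 := congrArg B h6
  rw [hBA, map_mul, map_mul, map_inv] at h7 h8
  refine ⟨B g, ?_⟩
  match i, t', a', h3, h4, h7, h8 with
  | true, t', a', h3, h4, h7, h8 =>
    rw [hB1] at h7 h8
    exact Or.inl ⟨t', a', h3, h4, h7, h8⟩
  | false, t', a', h3, h4, h7, h8 =>
    rw [hB2] at h7 h8
    exact Or.inr ⟨t', a', h3, h4, h7, h8⟩

/-- The elliptic lemma for a group which is a free product of two groups. -/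
theorem elliptic_of_bijective (f₁ : G₁ →* G) (f₂ : G₂ →* G) (hb : Function.Bijective (Coprod.lift f₁ f₂)) {τ α : G}
    (h1 : α ≠ 1) (h : τ * α * τ⁻¹ = α ^ 2) :
    ∃ g : G,
      (∃ t' a' : G₁, a' ≠ 1 ∧ t' * a' * t'⁻¹ = a' ^ 2 ∧ τ = g * f₁ t' * g⁻¹ ∧ α = g * f₁ a' * g⁻¹) ∨
      (∃ t' a' : G₂, a' ≠ 1 ∧ t' * a' * t'⁻¹ = a' ^ 2 ∧ τ = g * f₂ t' * g⁻¹ ∧ α = g * f₂ a' * g⁻¹) := by
  obtain ⟨τ, rfl⟩ := hb.2 τ
  obtain ⟨α, rfl⟩ := hb.2 α
  have h1' : α ≠ 1 := by
    rintro rfl
    exact h1 (map_one _)
  have h' : τ * α * τ⁻¹ = α ^ 2 := by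
    apply hb.1
    rw [map_mul, map_mul, map_inv, map_pow]
    exact h
  obtain ⟨g, hg⟩ := elliptic_coprod h1' h'
  refine ⟨Coprod.lift f₁ f₂ g, ?_⟩
  rcases hg with ⟨t', a', h3, h4, rfl, rfl⟩ | ⟨t', a', h3, h4, rfl, rfl⟩
  · exact Or.inl ⟨t', a', h3, h4, by simp, by simp⟩
  · exact Or.inr ⟨t', a', h3, h4, by simp, by simp⟩

end Pool.Agent.CSM
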