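import Pool.Agent.CSM.Core2

/-!
(F, module FA) Determinant of `G • id` plus an operator of rank two: the positivity criterion used for all explicit
maps.
-/

open scoped Manifold ContDiff Topology
open Set

namespace Pool.Agent.CSM

theorem det_rank2 {n : ℕ} (G : ℝ) (hG : G ≠ 0) (f₁ f₂ : E n →ₗ[ℝ] ℝ) (a₁ a₂ : E n) :
    LinearMap.det (G • (LinearMap.id : E n →ₗ[ℝ] E n) + f₁.smulRight a₁ + f₂.smulRight a₂) =
      G ^ n * (((G + f₁ a₁) * (G + f₂ a₂) - f₁ a₂ * f₂ a₁) / G ^ 2) := by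
  classical
  set b := (EuclideanSpace.basisFun (Fin n) ℝ).toBasis with hb
  set L := G • (LinearMap.id : E n →ₗ[ℝ] E n) + f₁.smulRight a₁ + f₂.smulRight a₂ with hL
  have hrepr : ∀ (v : E n) i, b.repr v i = v i := by
    intro v i
    rw [hb]
    simp
  let U : Matrix (Fin n) (Fin 2) ℝ := Matrix.of fun i k => G⁻¹ * (![a₁, a₂] k) i
  let V : Matrix (Fin 2) (Fin n) ℝ := Matrix.of fun k j => (![f₁, f₂] k) (b j)
  have hU : ∀ i k, U i k = G⁻¹ * (![a₁, a₂] k) i := fun _ _ => rfl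
  have hV : ∀ k j, V k j = (![f₁, f₂] k) (b j) := fun _ _ => rfl
  have h1 : LinearMap.toMatrix b b L = G • (1 + U * V) := by
    ext i j
    have h3 : (b j) i = (1 : Matrix (Fin n) (Fin n) ℝ) i j := by
      rw [hb]
      simp [Matrix.one_apply]
    have h4 : L (b j) i = G * (b j) i + f₁ (b j) * a₁ i + f₂ (b j) * a₂ i := by
      simp [hL]
    have h5 : (U * V) i j = G⁻¹ * a₁ i * f₁ (b j) + G⁻¹ * a₂ i * f₂ (b j) := by
      rw [Matrix.mul_apply, Fin.sum_univ_two, hU, hU, hV, hV]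
      simp
    rw [LinearMap.toMatrix_apply, hrepr, h4, Matrix.smul_apply, Matrix.add_apply, h5, h3, smul_eq_mul]
    field_simp
    ring
  rw [← LinearMap.det_toMatrix b, h1, Matrix.det_smul, Matrix.det_one_add_mul_comm]
  have hVU : ∀ k l, (V * U) k l = G⁻¹ * (![f₁, f₂] k) (![a₁, a₂] l) := by
    intro k l
    rw [Matrix.mul_apply]
    have h4 : (![f₁, f₂] k) (![a₁, a₂] l) = ∑ j, (![a₁, a₂] l) j * (![f₁, f₂] k) (b j) := by
      conv_lhs => rw [← b.sum_repr (![a₁, a₂] l)]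
      rw [map_sum]
      refine Finset.sum_congr rfl fun j _ => ?_
      rw [map_smul, smul_eq_mul, hrepr]
    rw [h4, Finset.mul_sum]
    refine Finset.sum_congr rfl fun j _ => ?_
    rw [hU, hV]
    ring
  have e00 : ((1 : Matrix (Fin 2) (Fin 2) ℝ) + V * U) 0 0 = 1 + G⁻¹ * f₁ a₁ := by rw [Matrix.add_apply, hVU]; simp
  have e01 : ((1 : Matrix (Fin 2) (Fin 2) ℝ) + V * U) 0 1 = G⁻¹ * f₁ a₂ := by rw [Matrix.add_apply, hVU]; simp
  have e10 : ((1 : Matrix (Fin 2) (Fin 2) ℝ) + V * U) 1 0 = G⁻¹ * f₂ a₁ := by rw [Matrix.add_apply, hVU]; simp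
  have e11 : ((1 : Matrix (Fin 2) (Fin 2) ℝ) + V * U) 1 1 = 1 + G⁻¹ * f₂ a₂ := by rw [Matrix.add_apply, hVU]; simp
  rw [Matrix.det_fin_two, e00, e01, e10, e11, Fintype.card_fin]
  field_simp

/-- The positivity criterion used for all explicit maps. -/
theorem det_pos_rank2 {n : ℕ} {L : E n →L[ℝ] E n} {G : ℝ} (hG : 0 < G) (f₁ f₂ : E n →ₗ[ℝ] ℝ) (a₁ a₂ : E n)
    (hL : ∀ v, L v = G • v + f₁ v • a₁ + f₂ v • a₂)
    (h : 0 < (G + f₁ a₁) * (G + f₂ a₂) - f₁ a₂ * f₂ a₁) : 0 < L.det := by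
  have h1 : (L : E n →ₗ[ℝ] E n) = G • (LinearMap.id : E n →ₗ[ℝ] E n) + f₁.smulRight a₁ + f₂.smulRight a₂ := by
    ext1 v
    simp [hL v]
  rw [ContinuousLinearMap.det, h1, det_rank2 G hG.ne']
  exact mul_pos (pow_pos hG n) (div_pos h (pow_pos hG 2))

/-- A map which is smooth at `x` and whose derivative there is `G • id` plus an operator of rank two with positive
determinant. -/
theorem pdAt_rank2 {n : ℕ} {f : E n → E n} {x : E n} {L : E n →L[ℝ] E n} (hs : ContDiffAt ℝ ∞ f x)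
    (hd : HasFDerivAt f L x) {G : ℝ} (hG : 0 < G) (f₁ f₂ : E n →ₗ[ℝ] ℝ) (a₁ a₂ : E n)
    (hL : ∀ v, L v = G • v + f₁ v • a₁ + f₂ v • a₂)
    (h : 0 < (G + f₁ a₁) * (G + f₂ a₂) - f₁ a₂ * f₂ a₁) : PDAt n f x := by
  rw [pdAt_model]
  refine ⟨hs, ?_⟩
  rw [hd.fderiv]
  exact det_pos_rank2 hG f₁ f₂ a₁ a₂ hL h

/-- Linear maps with positive determinant. -/
theorem pdAt_linear {n : ℕ} {A : E n →L[ℝ] E n} (hA : 0 < A.det) (x : E n) : PDAt n A x := by
  rw [pdAt_model]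
  refine ⟨A.contDiff.contDiffAt, ?_⟩
  rw [A.fderiv]
  exact hA

/-- Translations. -/
theorem pdAt_add_const {n : ℕ} (c x : E n) : PDAt n (fun v => v + c) x := by
  rw [pdAt_model]
  refine ⟨contDiffAt_id.add contDiffAt_const, ?_⟩
  have : fderiv ℝ (fun v : E n => v + c) x = ContinuousLinearMap.id ℝ (E n) := by
    rw [fderiv_add_const]
    exact fderiv_fun_id
  rw [this, det_id']
  exact one_pos

end Pool.Agent.CSM
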