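import Pool.Agent.CSM.FA
import Pool.Agent.CSM.Defs3

/-!
(F, module FB) The solid torus `T m`: transition maps of the charts `chT m a` are translations by integers, hence
`HasGroupoid (T m) (orG (m+1))` (`instT`); the covering map `piT m : E (m+1) → T m`, `v ↦ mkT (v 0) (tl m v)`, is a
local orientation preserving diffeomorphism; maps out of `T m` and into `T m` may be tested with `piT`.
-/

open scoped Manifold ContDiff Topology
open Set

namespace Pool.Agent.CSM

theorem consL_symm_apply (m : ℕ) (v : E (m + 1)) : (consL m).symm v = (v 0, tl m v) := rfl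

theorem consL_eta (m : ℕ) (v : E (m + 1)) : consL m (v 0, tl m v) = v := by
  rw [← consL_symm_apply, ContinuousLinearEquiv.apply_symm_apply]

@[simp] theorem consL_zero (m : ℕ) (s : ℝ) (x : E m) : (consL m (s, x)) 0 = s := rfl

@[simp] theorem tl_consL (m : ℕ) (s : ℝ) (x : E m) : tl m (consL m (s, x)) = x := by
  have h := consL_symm_apply m (consL m (s, x))
  rw [ContinuousLinearEquiv.symm_apply_apply] at h
  exact (congrArg Prod.snd h).symm

theorem consL_ext {m : ℕ} {v w : E (m + 1)} (h0 : v 0 = w 0) (h1 : tl m v = tl m w) : v = w := by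
  rw [← consL_eta m v, ← consL_eta m w, h0, h1]

theorem tl_add (m : ℕ) (v w : E (m + 1)) : tl m (v + w) = tl m v + tl m w := by
  simp [tl]

theorem tl_smul (m : ℕ) (c : ℝ) (v : E (m + 1)) : tl m (c • v) = c • tl m v := by
  simp [tl]

/-- The covering map `E (m+1) → T m`. -/
noncomputable def piT (m : ℕ) (v : E (m + 1)) : T m := mkT (v 0) (tl m v)

theorem chT_symm (m : ℕ) (a : ℝ) (v : E (m + 1)) : (chT m a).symm v = piT m v := rfl

theorem piT_consL (m : ℕ) (θ : ℝ) (x : E m) : piT m (consL m (θ, x)) = mkT θ x := by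
  rw [piT, tl_consL, consL_zero]

theorem exists_piT {m : ℕ} (p : T m) : ∃ v, piT m v = p := by
  obtain ⟨θ, hθ⟩ := QuotientAddGroup.mk_surjective p.1
  refine ⟨consL m (θ, p.2), ?_⟩
  rw [piT_consL]
  exact Prod.ext hθ rfl

theorem chT_target_iff (m : ℕ) (a : ℝ) (v : E (m + 1)) : v ∈ (chT m a).target ↔ v 0 ∈ Ioo a (a + 1) := by
  rw [chT, OpenPartialHomeomorph.trans_target]
  simp only [Homeomorph.toOpenPartialHomeomorph_target, univ_inter, mem_preimage,
    OpenPartialHomeomorph.prod_target, OpenPartialHomeomorph.refl_target, OpenPartialHomeomorph.symm_target]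
  constructor
  · intro h
    exact h.1
  · intro h
    exact ⟨h, trivial⟩

theorem chT_piT {m : ℕ} {a : ℝ} {v : E (m + 1)} (h : v 0 ∈ Ioo a (a + 1)) : chT m a (piT m v) = v := by
  rw [← chT_symm m a]
  exact (chT m a).right_inv ((chT_target_iff m a v).2 h)

theorem piT_mem_source {m : ℕ} {a : ℝ} {v : E (m + 1)} (h : v 0 ∈ Ioo a (a + 1)) : piT m v ∈ (chT m a).source := by
  rw [← chT_symm m a]
  exact (chT m a).map_target ((chT_target_iff m a v).2 h)

theorem piT_add_int (m : ℕ) (v : E (m + 1)) (k : ℤ) : piT m (v + consL m ((k : ℝ), 0)) = piT m v := by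
  rw [piT, piT, tl_add, tl_consL, add_zero]
  refine Prod.ext ?_ rfl
  change (((v + consL m ((k : ℝ), 0)) 0 : ℝ) : AddCircle (1 : ℝ)) = ((v 0 : ℝ) : AddCircle (1 : ℝ))
  have h1 : (v + consL m ((k : ℝ), 0)) 0 = v 0 + (k : ℝ) := by
    rw [PiLp.add_apply, consL_zero]
  rw [h1, AddCircle.coe_add]
  have h2 : (((k : ℝ)) : AddCircle (1 : ℝ)) = 0 := by
    rw [AddCircle.coe_eq_zero_iff]
    exact ⟨k, by simp⟩
  rw [h2, add_zero]

theorem continuous_piT (m : ℕ) : Continuous (piT m) := by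
  have h1 : Continuous fun v : E (m + 1) => (((v 0 : ℝ) : AddCircle (1 : ℝ)), tl m v) := by
    refine Continuous.prodMk ?_ ?_
    · exact (AddCircle.continuous_mk' (1 : ℝ)).comp (by fun_prop)
    · exact continuous_snd.comp (consL m).symm.continuous
  exact h1

/-- Near every point of the source the transition map is a translation by an integer. -/
theorem chT_trans (m : ℕ) (a : ℝ) {v : E (m + 1)} (hv : piT m v ∈ (chT m a).source) :
    ∃ k : ℤ, (fun w => chT m a (piT m w)) =ᶠ[𝓝 v] fun w => w + consL m ((k : ℝ), 0) := by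
  have h0 := (chT m a).map_source hv
  have h1 : piT m (chT m a (piT m v)) = piT m v := by
    rw [← chT_symm m a]
    exact (chT m a).left_inv hv
  have h2 : ((((chT m a (piT m v)) 0 : ℝ)) : AddCircle (1 : ℝ)) = ((v 0 : ℝ) : AddCircle (1 : ℝ)) :=
    congrArg Prod.fst h1
  have h4 : (((chT m a (piT m v)) 0 - v 0 : ℝ) : AddCircle (1 : ℝ)) = 0 := by
    rw [AddCircle.coe_sub, h2, sub_self]
  rw [AddCircle.coe_eq_zero_iff] at h4
  obtain ⟨k, hk⟩ := h4
  have hk' : (chT m a (piT m v)) 0 = v 0 + (k : ℝ) := by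
    have : (k : ℝ) = (chT m a (piT m v)) 0 - v 0 := by simpa using hk
    linarith
  refine ⟨k, ?_⟩
  have h5 : v 0 + (k : ℝ) ∈ Ioo a (a + 1) := by
    rw [← hk']
    exact (chT_target_iff m a _).1 h0
  have h6 : ∀ᶠ w : E (m + 1) in 𝓝 v, w 0 + (k : ℝ) ∈ Ioo a (a + 1) := by
    have hc : Continuous fun w : E (m + 1) => w 0 + (k : ℝ) := by fun_prop
    exact hc.continuousAt.eventually (isOpen_Ioo.mem_nhds h5)
  filter_upwards [h6] with w hw
  rw [← piT_add_int m w k]
  refine chT_piT ?_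
  rw [PiLp.add_apply, consL_zero]
  exact hw

instance instT (m : ℕ) : HasGroupoid (T m) (orG (m + 1)) where
  compatible := by
    rintro e e' ⟨a, rfl⟩ ⟨b, rfl⟩
    have key : ∀ v ∈ ((chT m a).symm ≫ₕ chT m b).source, ContDiffAt ℝ ∞ ((chT m a).symm ≫ₕ chT m b) v ∧
        0 < (fderiv ℝ ((chT m a).symm ≫ₕ chT m b) v).det := by
      intro v hv
      rw [OpenPartialHomeomorph.trans_source] at hv
      obtain ⟨k, hk⟩ := chT_trans m b (v := v) hv.2
      have h1 : ((chT m a).symm ≫ₕ chT m b : E (m + 1) → E (m + 1)) =ᶠ[𝓝 v] fun w => w + consL m ((k : ℝ), 0) := hk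
      have h2 := pdAt_model.1 (pdAt_add_const (consL m ((k : ℝ), 0)) v)
      refine ⟨h2.1.congr_of_eventuallyEq h1, ?_⟩
      rw [h1.fderiv_eq]
      exact h2.2
    exact mem_orG_of (fun v hv => (key v hv).1.contDiffWithinAt) fun v hv => (key v hv).2

theorem pd_chT (m : ℕ) (a : ℝ) : PD (m + 1) (chT m a) := pd_chart ⟨a, rfl⟩

/-- `piT` is a local homeomorphism: a local section near `piT v` with value `v`. -/
theorem exists_section (m : ℕ) (v : E (m + 1)) : ∃ s : OPH (T m) (E (m + 1)), PD (m + 1) s ∧ piT m v ∈ s.source ∧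
    s (piT m v) = v ∧ (∀ p ∈ s.source, piT m (s p) = p) ∧ v ∈ s.target ∧ ∀ w, s.symm w = piT m w := by
  have h : v 0 ∈ Ioo (v 0 - 1 / 2) (v 0 - 1 / 2 + 1) := ⟨by linarith, by linarith⟩
  refine ⟨chT m (v 0 - 1 / 2), pd_chT m _, piT_mem_source h, chT_piT h, ?_, (chT_target_iff m _ v).2 h, fun w => rfl⟩
  intro p hp
  rw [← chT_symm m (v 0 - 1 / 2)]
  exact (chT m _).left_inv hp

/-- `piT` is orientation preserving. -/
theorem pdAt_piT (m : ℕ) (v : E (m + 1)) : PDAt (m + 1) (piT m) v := by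
  obtain ⟨s, h1, h2, h3, h4, h5, h6⟩ := exists_section m v
  have h7 : PDAt (m + 1) s.symm v := h1.symm.pdAt h5
  exact h7.congr (Filter.Eventually.of_forall fun w => (h6 w).symm)

/-- Maps out of `T m` are tested on the covering. -/
theorem PDAt.of_piT {m : ℕ} {Y : Type*} [TopologicalSpace Y] [ChartedSpace (E (m + 1)) Y] {f : T m → Y}
    {v : E (m + 1)} (h : PDAt (m + 1) (f ∘ piT m) v) : PDAt (m + 1) f (piT m v) := by
  obtain ⟨s, h1, h2, h3, h4, h5, h6⟩ := exists_section m v
  have h7 : PDAt (m + 1) ((f ∘ piT m) ∘ s) (piT m v) := by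
    refine PDAt.comp ?_ (h1.pdAt h2)
    rw [h3]
    exact h
  refine h7.congr ?_
  filter_upwards [s.open_source.mem_nhds h2] with p hp
  simp only [Function.comp_apply, h4 p hp]

end Pool.Agent.CSM
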