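import Pool.Agent.CSM.Core

/-!
# The reflected inversion as an orientation preserving partial diffeomorphism
-/

open scoped Manifold ContDiff Topology
open Set

namespace Pool.Agent.CSM

/-- `rho` as linear isometry equivalence. -/
noncomputable def rhoL (n : ℕ) : E n ≃ₗᵢ[ℝ] E n where
  toFun := rho n
  invFun := rho n
  map_add' x y := by
    ext i
    simp only [rho, PiLp.add_apply]
    split_ifs <;> ring
  map_smul' c x := by
    ext i
    simp only [rho, PiLp.smul_apply, smul_eq_mul, RingHom.id_apply]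
    split_ifs <;> ring
  left_inv x := by
    ext i
    simp only [rho]
    split_ifs <;> ring
  right_inv x := by
    ext i
    simp only [rho]
    split_ifs <;> ring
  norm_map' x := by
    show ‖rho n x‖ = ‖x‖
    rw [EuclideanSpace.norm_eq, EuclideanSpace.norm_eq]
    congr 1
    refine Finset.sum_congr rfl fun i _ => ?_
    simp only [rho]
    split_ifs
    · rw [norm_neg]
    · rfl

@[simp] theorem rhoL_apply (n : ℕ) (v : E n) : rhoL n v = rho n v := rfl

@[simp] theorem norm_rho (n : ℕ) (v : E n) : ‖rho n v‖ = ‖v‖ := (rhoL n).norm_map v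

@[simp] theorem rho_rho (n : ℕ) (v : E n) : rho n (rho n v) = v := (rhoL n).left_inv v

theorem rho_smul (n : ℕ) (c : ℝ) (v : E n) : rho n (c • v) = c • rho n v := (rhoL n).map_smul c v

@[simp] theorem rho_eq_zero (n : ℕ) {v : E n} : rho n v = 0 ↔ v = 0 := by
  rw [← norm_eq_zero, norm_rho, norm_eq_zero]

/-- The determinant of `rho`. -/
theorem det_rho {n : ℕ} (hn : 1 ≤ n) :
    (((rhoL n : E n ≃L[ℝ] E n) : E n →L[ℝ] E n)).det = -1 := by
  obtain ⟨m, rfl⟩ : ∃ m, n = m + 1 := ⟨n - 1, by omega⟩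
  show LinearMap.det ((rhoL (m + 1) : E (m + 1) ≃L[ℝ] E (m + 1)) : E (m + 1) →ₗ[ℝ] E (m + 1)) = -1
  rw [← LinearMap.det_toMatrix (EuclideanSpace.basisFun (Fin (m + 1)) ℝ).toBasis]
  have h : LinearMap.toMatrix (EuclideanSpace.basisFun (Fin (m + 1)) ℝ).toBasis
      (EuclideanSpace.basisFun (Fin (m + 1)) ℝ).toBasis
      ((rhoL (m + 1) : E (m + 1) ≃L[ℝ] E (m + 1)) : E (m + 1) →ₗ[ℝ] E (m + 1)) =
      Matrix.diagonal fun i : Fin (m + 1) => if (i : ℕ) = 0 then (-1 : ℝ) else 1 := by
    ext i j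
    rw [LinearMap.toMatrix_apply]
    simp only [OrthonormalBasis.coe_toBasis, EuclideanSpace.basisFun_apply,
      OrthonormalBasis.coe_toBasis_repr_apply, EuclideanSpace.basisFun_repr, Matrix.diagonal_apply]
    show rho (m + 1) (EuclideanSpace.single j 1) i = _
    simp only [rho, PiLp.single_apply]
    by_cases hij : i = j
    · subst hij
      simp
    · simp [hij]
  rw [h, Matrix.det_diagonal, Fin.prod_univ_succ]
  simp

theorem norm_inv' (n : ℕ) (v : E n) : ‖inv n v‖ = ‖v‖⁻¹ := by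
  rw [inv, norm_smul, norm_rho, norm_inv, norm_pow, norm_norm]
  by_cases h : ‖v‖ = 0
  · simp [h]
  · field_simp

theorem inv_inv' (n : ℕ) (v : E n) : inv n (inv n v) = v := by
  by_cases h : v = 0
  · subst h
    simp [inv]
  · have h1 : ‖v‖ ≠ 0 := norm_ne_zero_iff.2 h
    have h2 : inv n (inv n v) = (‖inv n v‖ ^ 2)⁻¹ • rho n (inv n v) := rfl
    rw [h2, norm_inv']
    rw [inv, rho_smul, rho_rho, smul_smul]
    have h3 : (‖v‖⁻¹ ^ 2)⁻¹ * (‖v‖ ^ 2)⁻¹ = 1 := by field_simp
    rw [h3, one_smul]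

@[simp] theorem inv_eq_zero' (n : ℕ) {v : E n} : inv n v = 0 ↔ v = 0 := by
  rw [← norm_eq_zero, norm_inv', inv_eq_zero, norm_eq_zero]

theorem inv_ne_zero' (n : ℕ) {v : E n} (h : v ≠ 0) : inv n v ≠ 0 := fun h' => h ((inv_eq_zero' n).1 h')

theorem inv_eq_rho_inversion (n : ℕ) (v : E n) : inv n v = rhoL n (EuclideanGeometry.inversion 0 1 v) := by
  rw [EuclideanGeometry.inversion]
  simp only [dist_zero_right, vsub_eq_sub, sub_zero, vadd_eq_add, add_zero, one_div]
  rw [inv, map_smul, rhoL_apply, inv_pow]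

theorem contDiffAt_inv (n : ℕ) {v : E n} (h : v ≠ 0) : ContDiffAt ℝ ∞ (inv n) v := by
  have h1 : inv n = fun v => rhoL n (EuclideanGeometry.inversion 0 1 v) := funext (inv_eq_rho_inversion n)
  rw [h1]
  exact (rhoL n).contDiff.contDiffAt.comp v
    (ContDiffAt.inversion contDiffAt_const contDiffAt_const contDiffAt_id h)

theorem det_inv_pos (n : ℕ) {v : E n} (h : v ≠ 0) : 0 < (fderiv ℝ (inv n) v).det := by
  have hn : 1 ≤ n := by
    by_contra h1
    have h2 : n = 0 := by omega
    subst h2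
    exact h (Subsingleton.elim _ _)
  have h1 : inv n = fun v => rhoL n (EuclideanGeometry.inversion 0 1 v) := funext (inv_eq_rho_inversion n)
  have h2 : HasFDerivAt (inv n) (((rhoL n : E n ≃L[ℝ] E n) : E n →L[ℝ] E n) ∘L
      ((1 / dist v 0) ^ 2 • (((ℝ ∙ (v - 0))ᗮ.reflection : E n ≃L[ℝ] E n) : E n →L[ℝ] E n))) v := by
    rw [h1]
    exact ((rhoL n : E n ≃L[ℝ] E n) : E n →L[ℝ] E n).hasFDerivAt.comp v
      (EuclideanGeometry.hasFDerivAt_inversion h)
  rw [h2.fderiv, det_comp', det_rho hn]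
  have h3 : ((1 / dist v 0) ^ 2 • (((ℝ ∙ (v - 0))ᗮ.reflection : E n ≃L[ℝ] E n) : E n →L[ℝ] E n)).det =
      ((1 / dist v 0) ^ 2) ^ n * -1 := by
    have h4 : LinearMap.det ((1 / dist v 0) ^ 2 • ((ℝ ∙ (v - 0))ᗮ.reflection.toLinearMap)) =
        ((1 / dist v 0) ^ 2) ^ n * -1 := by
      rw [LinearMap.det_smul, Submodule.det_reflection, finrank_euclideanSpace_fin,
        Submodule.orthogonal_orthogonal, sub_zero, finrank_span_singleton h, pow_one]
    exact h4
  rw [h3]
  have h5 : 0 < dist v 0 := dist_pos.2 h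
  have h6 : (0 : ℝ) < ((1 / dist v 0) ^ 2) ^ n := by positivity
  linarith

theorem continuousOn_inv (n : ℕ) : ContinuousOn (inv n) {0}ᶜ := fun _ hv =>
  (contDiffAt_inv n hv).continuousAt.continuousWithinAt

/-- The reflected inversion. -/
noncomputable def invO (n : ℕ) : OPH (E n) (E n) where
  toFun := inv n
  invFun := inv n
  source := {0}ᶜ
  target := {0}ᶜ
  map_source' v hv := inv_ne_zero' n hv
  map_target' v hv := inv_ne_zero' n hv
  left_inv' v _ := inv_inv' n v
  right_inv' v _ := inv_inv' n v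
  open_source := isOpen_compl_singleton
  open_target := isOpen_compl_singleton
  continuousOn_toFun := continuousOn_inv n
  continuousOn_invFun := continuousOn_inv n

@[simp] theorem invO_apply (n : ℕ) (v : E n) : invO n v = inv n v := rfl

@[simp] theorem invO_symm_apply (n : ℕ) (v : E n) : (invO n).symm v = inv n v := rfl

@[simp] theorem invO_source (n : ℕ) : (invO n).source = {0}ᶜ := rfl

@[simp] theorem invO_target (n : ℕ) : (invO n).target = {0}ᶜ := rfl

theorem pd_invO (n : ℕ) : PD n (invO n) :=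
  pd_model_of (fun _ hv => (contDiffAt_inv n hv).contDiffWithinAt) fun _ hv => det_inv_pos n hv

end Pool.Agent.CSM
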