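import Pool.Agent.CSM.FB
import Pool.Agent.CSM.GI

/-!
(F, module FC) Elementary facts on `rho`, `inv`, products and twists.

Proofs.  `det_tri`: `L ξ = (ξ₀, ξ₀ w + A ξ')` is the composition of `ξ ↦ ξ + ξ₀ (0, w)` (rank two lemma with
`f₂ = 0`) and of `id × A` (`LinearMap.det_prodMap`, `LinearMap.det_conj`).
-/

open scoped Manifold ContDiff Topology
open Set

namespace Pool.Agent.CSM

/-! ### Coordinates -/

/-- The first coordinate as a linear map. -/
noncomputable def hd (m : ℕ) : E (m + 1) →L[ℝ] ℝ := (ContinuousLinearMap.fst ℝ ℝ (E m)).comp ((consL m).symm : E (m + 1) →L[ℝ] ℝ × E m)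

/-- The other coordinates as a linear map. -/
noncomputable def tlL (m : ℕ) : E (m + 1) →L[ℝ] E m := (ContinuousLinearMap.snd ℝ ℝ (E m)).comp ((consL m).symm : E (m + 1) →L[ℝ] ℝ × E m)

@[simp] theorem hd_apply (m : ℕ) (v : E (m + 1)) : hd m v = v 0 := rfl

@[simp] theorem tlL_apply (m : ℕ) (v : E (m + 1)) : tlL m v = tl m v := rfl

/-- The first basis vector. -/
noncomputable def e0 (m : ℕ) : E (m + 1) := consL m (1, 0)

@[simp] theorem e0_zero (m : ℕ) : e0 m 0 = 1 := rfl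

@[simp] theorem tl_e0 (m : ℕ) : tl m (e0 m) = 0 := by rw [e0, tl_consL]

theorem consL_eq (m : ℕ) (s : ℝ) (x : E m) : consL m (s, x) = s • e0 m + consL m (0, x) := by
  refine consL_ext ?_ ?_
  · simp [PiLp.add_apply, PiLp.smul_apply]
  · rw [tl_add, tl_smul, tl_e0, tl_consL, tl_consL]
    simp

theorem inner_consL (m : ℕ) (v w : E (m + 1)) : inner ℝ v w = v 0 * w 0 + inner ℝ (tl m v) (tl m w) := by
  have h1 : ∀ i : Fin m, (tl m v) i = v i.succ := fun i => rfl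
  have h2 : ∀ i : Fin m, (tl m w) i = w i.succ := fun i => rfl
  simp only [PiLp.inner_apply, RCLike.inner_apply, conj_trivial, Fin.sum_univ_succ, h1, h2]
  ring

theorem norm_sq_consL (m : ℕ) (v : E (m + 1)) : ‖v‖ ^ 2 = v 0 ^ 2 + ‖tl m v‖ ^ 2 := by
  rw [← real_inner_self_eq_norm_sq, ← real_inner_self_eq_norm_sq, inner_consL]
  ring

/-! ### The reflection -/

theorem rho_apply {n : ℕ} (v : E n) (i : Fin n) : rho n v i = if (i : ℕ) = 0 then -v i else v i := rfl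

theorem continuous_rho (n : ℕ) : Continuous (rho n) := (rhoL n).continuous

@[simp] theorem rho_zero (n : ℕ) : rho n 0 = 0 := (rhoL n).map_zero

/-- In dimension `m + 1` the reflection changes the sign of the first coordinate. -/
theorem rho_succ (m : ℕ) (v : E (m + 1)) : rho (m + 1) v = consL m (-v 0, tl m v) := by
  refine consL_ext ?_ ?_
  · rw [rho_apply, consL_zero]
    simp
  · rw [tl_consL]
    ext i
    have h1 : (tl m (rho (m + 1) v)) i = rho (m + 1) v i.succ := rfl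
    have h2 : (tl m v) i = v i.succ := rfl
    rw [h1, h2, rho_apply]
    simp

theorem rho_succ' (m : ℕ) (v : E (m + 1)) : rho (m + 1) v = v - (2 * v 0) • e0 m := by
  rw [rho_succ]
  refine consL_ext ?_ ?_
  · rw [consL_zero, PiLp.sub_apply, PiLp.smul_apply, e0_zero, smul_eq_mul]
    ring
  · rw [tl_consL, sub_eq_add_neg, ← neg_smul, tl_add, tl_smul, tl_e0]
    simp

/-! ### The inversion -/

theorem pdAt_inv {n : ℕ} {v : E n} (hv : v ≠ 0) : PDAt n (inv n) v :=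
  pdAt_model.2 ⟨contDiffAt_inv n hv, det_inv_pos n hv⟩

/-! ### Products and twists -/

theorem det_tri {m : ℕ} {L : E (m + 1) →L[ℝ] E (m + 1)} {A : E m →L[ℝ] E m} {w : E m}
    (h : ∀ ξ, L ξ = consL m (ξ 0, ξ 0 • w + A (tl m ξ))) : L.det = A.det := by
  -- the shear
  set S : E (m + 1) →ₗ[ℝ] E (m + 1) := (1 : ℝ) • (LinearMap.id : E (m + 1) →ₗ[ℝ] E (m + 1)) +
    (hd m : E (m + 1) →ₗ[ℝ] ℝ).smulRight (consL m (0, w)) + (0 : E (m + 1) →ₗ[ℝ] ℝ).smulRight 0 with hS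
  have h1 : LinearMap.det S = 1 := by
    rw [hS, det_rank2 1 one_ne_zero]
    simp
  set B : ℝ × E m →ₗ[ℝ] ℝ × E m := (LinearMap.id : ℝ →ₗ[ℝ] ℝ).prodMap (A : E m →ₗ[ℝ] E m) with hB
  have h2 : LinearMap.det B = A.det := by
    rw [hB, LinearMap.det_prodMap, LinearMap.det_id, one_mul]
  set c : (ℝ × E m) ≃ₗ[ℝ] E (m + 1) := (consL m).toLinearEquiv with hc
  have h3 : LinearMap.det ((c : (ℝ × E m) →ₗ[ℝ] E (m + 1)) ∘ₗ B ∘ₗ (c.symm : E (m + 1) →ₗ[ℝ] ℝ × E m)) = A.det := by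
    rw [LinearMap.det_conj, h2]
  have h4 : (L : E (m + 1) →ₗ[ℝ] E (m + 1)) =
      S ∘ₗ ((c : (ℝ × E m) →ₗ[ℝ] E (m + 1)) ∘ₗ B ∘ₗ (c.symm : E (m + 1) →ₗ[ℝ] ℝ × E m)) := by
    ext1 ξ
    have h5 : ((c : (ℝ × E m) →ₗ[ℝ] E (m + 1)) ∘ₗ B ∘ₗ (c.symm : E (m + 1) →ₗ[ℝ] ℝ × E m)) ξ =
        consL m (ξ 0, A (tl m ξ)) := rfl
    rw [LinearMap.comp_apply, h5]
    simp only [hS, LinearMap.add_apply, LinearMap.id_apply, LinearMap.smulRight_apply,
      ContinuousLinearMap.coe_coe, hd_apply, consL_zero, one_smul, smul_zero, add_zero, h ξ]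
    refine consL_ext ?_ ?_
    · simp [PiLp.add_apply, PiLp.smul_apply]
    · simp only [tl_add, tl_smul, tl_consL]
      abel
  rw [ContinuousLinearMap.det, h4, LinearMap.det_comp, h1, one_mul, h3]

/-- The map `(θ, x) ↦ (θ, g(θ, x))` when `g(θ, ·)` is orientation preserving. -/
theorem pdAt_fib {m : ℕ} {g : ℝ × E m → E m} {θ : ℝ} {x : E m} (hg : ContDiffAt ℝ ∞ g (θ, x))
    (hdet : 0 < (fderiv ℝ (fun y => g (θ, y)) x).det) :
    PDAt (m + 1) (fun v => consL m (v 0, g (v 0, tl m v))) (consL m (θ, x)) := by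
  rw [pdAt_model]
  have hlin : ∀ v : E (m + 1), (v 0, tl m v) = (consL m).symm v := fun v => rfl
  have hg' : ContDiffAt ℝ ∞ (fun v : E (m + 1) => g (v 0, tl m v)) (consL m (θ, x)) := by
    have h1 : ContDiffAt ℝ ∞ g ((consL m).symm (consL m (θ, x))) := by
      rw [ContinuousLinearEquiv.symm_apply_apply]
      exact hg
    exact ContDiffAt.comp (consL m (θ, x)) h1 (consL m).symm.contDiff.contDiffAt
  have hs : ContDiffAt ℝ ∞ (fun v : E (m + 1) => consL m (v 0, g (v 0, tl m v))) (consL m (θ, x)) := by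
    have h2 : ContDiffAt ℝ ∞ (fun v : E (m + 1) => (v 0, g (v 0, tl m v))) (consL m (θ, x)) :=
      ContDiffAt.prodMk ((hd m).contDiff.contDiffAt) hg'
    exact (consL m).contDiff.contDiffAt.comp _ h2
  refine ⟨hs, ?_⟩
  have hgd : HasFDerivAt g (fderiv ℝ g (θ, x)) (θ, x) := (hg.differentiableAt (by simp)).hasFDerivAt
  have h3 : HasFDerivAt (fun v : E (m + 1) => g (v 0, tl m v))
      ((fderiv ℝ g (θ, x)).comp ((consL m).symm : E (m + 1) →L[ℝ] ℝ × E m)) (consL m (θ, x)) := by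
    refine HasFDerivAt.comp (g := g) (f := fun v : E (m + 1) => ((consL m).symm : E (m + 1) →L[ℝ] ℝ × E m) v)
      (consL m (θ, x)) ?_ ((consL m).symm : E (m + 1) →L[ℝ] ℝ × E m).hasFDerivAt
    rw [ContinuousLinearEquiv.coe_coe, ContinuousLinearEquiv.symm_apply_apply]
    exact hgd
  have h4 : HasFDerivAt (fun v : E (m + 1) => consL m (v 0, g (v 0, tl m v)))
      ((consL m : (ℝ × E m) →L[ℝ] E (m + 1)).comp ((hd m).prod
        ((fderiv ℝ g (θ, x)).comp ((consL m).symm : E (m + 1) →L[ℝ] ℝ × E m)))) (consL m (θ, x)) :=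
    (consL m : (ℝ × E m) →L[ℝ] E (m + 1)).hasFDerivAt.comp _ ((hd m).hasFDerivAt.prodMk h3)
  rw [h4.fderiv]
  have h5 : fderiv ℝ (fun y => g (θ, y)) x = (fderiv ℝ g (θ, x)).comp (ContinuousLinearMap.inr ℝ ℝ (E m)) := by
    have h6 : HasFDerivAt (fun y => g (θ, y)) ((fderiv ℝ g (θ, x)).comp (ContinuousLinearMap.inr ℝ ℝ (E m))) x :=
      HasFDerivAt.comp x hgd (hasFDerivAt_prodMk_right θ x)
    exact h6.fderiv
  have h7 := det_tri (L := (consL m : (ℝ × E m) →L[ℝ] E (m + 1)).comp ((hd m).prod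
        ((fderiv ℝ g (θ, x)).comp ((consL m).symm : E (m + 1) →L[ℝ] ℝ × E m))))
      (A := fderiv ℝ (fun y => g (θ, y)) x) (w := fderiv ℝ g (θ, x) (1, 0)) (by
        intro ξ
        rw [h5]
        have h8 : (consL m).symm ξ = ξ 0 • ((1 : ℝ), (0 : E m)) + (0, tl m ξ) := by
          rw [consL_symm_apply]
          simp
        have h9 : fderiv ℝ g (θ, x) ((consL m).symm ξ) =
            ξ 0 • fderiv ℝ g (θ, x) (1, 0) + fderiv ℝ g (θ, x) (0, tl m ξ) := by
          rw [h8, map_add, map_smul]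
        change consL m (ξ 0, fderiv ℝ g (θ, x) ((consL m).symm ξ)) = _
        rw [h9]
        rfl)
  rw [h7]
  exact hdet

theorem pdAt_prod {m : ℕ} {g : E m → E m} {v : E (m + 1)} (hg : PDAt m g (tl m v)) :
    PDAt (m + 1) (fun v => consL m (v 0, g (tl m v))) v := by
  rw [pdAt_model] at hg
  have h1 := pdAt_fib (g := fun p : ℝ × E m => g p.2) (θ := v 0) (x := tl m v)
    (ContDiffAt.comp (v 0, tl m v) hg.1 contDiffAt_snd) hg.2
  rwa [consL_eta] at h1

end Pool.Agent.CSM
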