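import Pool.Agent.CSM.FC

/-!
(F, module FD) Maps of the solid torus: `(z, x) ↦ (z, inv x)`, twists, their inverses, the twist conjugated by `rho`,
the half turn.
-/

open scoped Manifold ContDiff Topology
open Set

namespace Pool.Agent.CSM

theorem continuous_fstT (m : ℕ) : Continuous fun p : T m => p.1 := continuous_fst

theorem continuous_sndT (m : ℕ) : Continuous fun p : T m => p.2 := continuous_snd

@[simp] theorem mkT_fst {m : ℕ} (θ : ℝ) (x : E m) : (mkT θ x : T m).1 = (θ : AddCircle (1 : ℝ)) := rfl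

@[simp] theorem mkT_snd {m : ℕ} (θ : ℝ) (x : E m) : (mkT θ x : T m).2 = x := rfl

theorem exists_mkT {m : ℕ} (p : T m) : ∃ (θ : ℝ) (x : E m), mkT θ x = p := by
  obtain ⟨v, hv⟩ := exists_piT p
  exact ⟨_, _, hv⟩

/-- A map of `T m` covering a map of `E (m+1)`. -/
theorem pdAt_of_liftT {m : ℕ} {f : T m → T m} {F : E (m + 1) → E (m + 1)} {v : E (m + 1)}
    (h : ∀ᶠ w in 𝓝 v, f (piT m w) = piT m (F w)) (hF : PDAt (m + 1) F v) : PDAt (m + 1) f (piT m v) := by
  refine PDAt.of_piT ?_
  exact (PDAt.comp (pdAt_piT m (F v)) hF).congr h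

/-- `(z, x) ↦ (z, inv x)`. -/
noncomputable def invT (m : ℕ) : OPH (T m) (T m) where
  toFun p := (p.1, inv m p.2)
  invFun p := (p.1, inv m p.2)
  source := {p | p.2 ≠ 0}
  target := {p | p.2 ≠ 0}
  map_source' _ hp := inv_ne_zero' m hp
  map_target' _ hp := inv_ne_zero' m hp
  left_inv' p _ := Prod.ext rfl (inv_inv' m p.2)
  right_inv' p _ := Prod.ext rfl (inv_inv' m p.2)
  open_source := isOpen_ne_fun (continuous_sndT m) continuous_const
  open_target := isOpen_ne_fun (continuous_sndT m) continuous_const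
  continuousOn_toFun := by
    exact ((continuous_fstT m).continuousOn).prodMk
      ((continuousOn_inv m).comp (continuous_sndT m).continuousOn fun p hp => hp)
  continuousOn_invFun := by
    exact ((continuous_fstT m).continuousOn).prodMk
      ((continuousOn_inv m).comp (continuous_sndT m).continuousOn fun p hp => hp)

@[simp] theorem invT_apply {m : ℕ} (p : T m) : invT m p = (p.1, inv m p.2) := rfl

theorem invT_mkT {m : ℕ} (θ : ℝ) (x : E m) : invT m (mkT θ x) = mkT θ (inv m x) := rfl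

theorem pd_invT (m : ℕ) : PD (m + 1) (invT m) := by
  rw [pd_iff]
  intro p hp
  obtain ⟨v, rfl⟩ := exists_piT p
  refine pdAt_of_liftT (F := fun w => consL m (w 0, inv m (tl m w))) ?_ (pdAt_prod (pdAt_inv hp))
  refine Filter.Eventually.of_forall fun w => ?_
  rw [piT_consL]
  rfl

/-- Translation of the angle. -/
noncomputable def shT (m : ℕ) (c : ℝ) : T m ≃ₜ T m where
  toFun p := (p.1 + (c : AddCircle (1 : ℝ)), p.2)
  invFun p := (p.1 - (c : AddCircle (1 : ℝ)), p.2)
  left_inv p := Prod.ext (by simp) rfl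
  right_inv p := Prod.ext (by simp) rfl
  continuous_toFun := ((continuous_fstT m).add continuous_const).prodMk (continuous_sndT m)
  continuous_invFun := ((continuous_fstT m).sub continuous_const).prodMk (continuous_sndT m)

theorem shT_mkT {m : ℕ} (c θ : ℝ) (x : E m) : shT m c (mkT θ x) = mkT (θ + c) x := by
  refine Prod.ext ?_ rfl
  exact (AddCircle.coe_add (1 : ℝ) θ c).symm

theorem pd_shT (m : ℕ) (c : ℝ) : PD (m + 1) (shT m c).toOpenPartialHomeomorph := by
  rw [pd_iff]
  intro p hp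
  obtain ⟨v, rfl⟩ := exists_piT p
  refine pdAt_of_liftT (F := fun w => w + consL m (c, 0)) ?_ (pdAt_add_const _ _)
  refine Filter.Eventually.of_forall fun w => ?_
  change shT m c (piT m w) = _
  rw [piT, piT, shT_mkT, tl_add, tl_consL, add_zero, PiLp.add_apply, consL_zero]

/-! ### Twists -/

theorem Twist.map_mkT {m : ℕ} (τ : Twist m) (θ : ℝ) (x : E m) : τ.map (mkT θ x) = mkT θ (τ.O θ x) := rfl

theorem exists_equiv_pos {m : ℕ} {A : E m →L[ℝ] E m} (h : 0 < A.det) :
    ∃ B : E m ≃L[ℝ] E m, (B : E m →L[ℝ] E m) = A ∧ 0 < (B.symm : E m →L[ℝ] E m).det := by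
  obtain ⟨B, hB⟩ := exists_equiv_of_det h.ne'
  refine ⟨B, hB, ?_⟩
  have h1 : ((B.symm : E m →L[ℝ] E m) ∘L (B : E m →L[ℝ] E m)) = ContinuousLinearMap.id ℝ (E m) := by
    ext1 x
    simp
  have h2 := det_comp' (B.symm : E m →L[ℝ] E m) (B : E m →L[ℝ] E m)
  rw [h1, det_id', hB] at h2
  by_contra h3
  push Not at h3
  nlinarith

/-- The inverse twist. -/
theorem Twist.exists_inv {m : ℕ} (τ : Twist m) : ∃ σ : Twist m, (∀ t x, σ.O t (τ.O t x) = x) ∧
    ∀ t x, τ.O t (σ.O t x) = x := by
  choose B hB hBd using fun t => exists_equiv_pos (τ.pos t)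
  have h1 : ∀ t, ContinuousLinearMap.inverse (τ.O t) = ((B t).symm : E m →L[ℝ] E m) := by
    intro t
    rw [← hB t]
    exact ContinuousLinearMap.inverse_equiv (B t)
  have h2 : ∀ t x, ((B t).symm : E m →L[ℝ] E m) (τ.O t x) = x := by
    intro t x
    rw [← hB t]
    exact (B t).symm_apply_apply x
  have h3 : ∀ t x, τ.O t (((B t).symm : E m →L[ℝ] E m) x) = x := by
    intro t x
    rw [← hB t]
    exact (B t).apply_symm_apply x
  refine ⟨⟨fun t => ContinuousLinearMap.inverse (τ.O t), ?_, ?_, ?_, ?_⟩, ?_, ?_⟩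
  · rw [contDiff_iff_contDiffAt]
    intro t
    have h4 : ContDiffAt ℝ ∞ ContinuousLinearMap.inverse (τ.O t) := by
      rw [← hB t]
      exact contDiffAt_map_inverse (B t)
    exact ContDiffAt.comp t h4 τ.smooth.contDiffAt
  · intro t
    simp only [τ.per]
  · intro t x
    rw [h1]
    conv_rhs => rw [← h3 t x]
    rw [τ.isom]
  · intro t
    rw [h1]
    exact hBd t
  · intro t x
    change ContinuousLinearMap.inverse (τ.O t) (τ.O t x) = x
    rw [h1]
    exact h2 t x
  · intro t x
    change τ.O t (ContinuousLinearMap.inverse (τ.O t) x) = x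
    rw [h1]
    exact h3 t x

theorem Twist.pdAt {m : ℕ} (τ : Twist m) (p : T m) : PDAt (m + 1) τ.map p := by
  obtain ⟨v, rfl⟩ := exists_piT p
  have h1 : ContDiff ℝ ∞ fun q : ℝ × E m => τ.O q.1 q.2 :=
    ContDiff.clm_apply (τ.smooth.comp contDiff_fst) contDiff_snd
  have h2 := pdAt_fib (g := fun q : ℝ × E m => τ.O q.1 q.2) (θ := v 0) (x := tl m v) h1.contDiffAt (by
    have h3 : fderiv ℝ (fun y : E m => τ.O (v 0) y) (tl m v) = τ.O (v 0) := (τ.O (v 0)).fderiv
    rw [h3]
    exact τ.pos (v 0))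
  rw [consL_eta] at h2
  refine pdAt_of_liftT ?_ h2
  refine Filter.Eventually.of_forall fun w => ?_
  rw [piT_consL]
  rfl

theorem Twist.continuous_map {m : ℕ} (τ : Twist m) : Continuous τ.map :=
  continuous_iff_continuousAt.2 fun p => (τ.pdAt p).1

/-- A twist is an orientation preserving diffeomorphism of `T m`. -/
theorem Twist.exists_homeo {m : ℕ} (τ : Twist m) : ∃ D : T m ≃ₜ T m, PD (m + 1) D.toOpenPartialHomeomorph ∧
    ∀ p, D p = τ.map p := by
  obtain ⟨σ, h1, h2⟩ := τ.exists_inv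
  refine ⟨{ toFun := τ.map
            invFun := σ.map
            left_inv := ?_
            right_inv := ?_
            continuous_toFun := τ.continuous_map
            continuous_invFun := σ.continuous_map }, ?_, fun p => rfl⟩
  · intro p
    obtain ⟨θ, x, rfl⟩ := exists_mkT p
    rw [τ.map_mkT, σ.map_mkT, h1]
  · intro p
    obtain ⟨θ, x, rfl⟩ := exists_mkT p
    rw [σ.map_mkT, τ.map_mkT, h2]
  · exact pd_iff.2 fun p _ => τ.pdAt p

/-- The twist conjugated by the reflection. -/
theorem Twist.exists_conj {m : ℕ} (τ : Twist m) : ∃ σ : Twist m, ∀ t x, σ.O t x = rho m (τ.O t (rho m x)) := by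
  set R : E m →L[ℝ] E m := ((rhoL m).toContinuousLinearEquiv : E m →L[ℝ] E m) with hR
  have hRR : R ∘L R = ContinuousLinearMap.id ℝ (E m) := by
    ext1 x
    exact rho_rho m x
  refine ⟨⟨fun t => R ∘L ((τ.O t) ∘L R), ?_, ?_, ?_, ?_⟩, fun t x => rfl⟩
  · exact contDiff_const.clm_comp (τ.smooth.clm_comp contDiff_const)
  · intro t
    simp only [τ.per]
  · intro t x
    change ‖rho m (τ.O t (rho m x))‖ = ‖x‖
    rw [norm_rho, τ.isom, norm_rho]
  · intro t
    have h1 := det_comp' R R
    rw [hRR, det_id'] at h1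
    rw [det_comp', det_comp']
    have h2 : R.det * ((τ.O t).det * R.det) = (τ.O t).det * (R.det * R.det) := by ring
    rw [h2, ← h1, mul_one]
    exact τ.pos t

end Pool.Agent.CSM
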