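import Pool.Agent.CSM.FD

/-!
(F, module FE) The standard sphere `Sph n` in `E (n+1)`, its two stereographic parametrisations `sphI`, `sphJ` (with
`sphI v = sphJ (inv v)`), the oriented manifold `sphM`, statement (F4).
-/

open scoped Manifold ContDiff Topology
open Set

namespace Pool.Agent.CSM

/-- The standard n-sphere (a type synonym, to have our own charts). -/
def Sph (n : ℕ) : Type := Metric.sphere (0 : E (n + 1)) 1

instance (n : ℕ) : TopologicalSpace (Sph n) := inferInstanceAs (TopologicalSpace (Metric.sphere (0 : E (n + 1)) 1))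

instance (n : ℕ) : T2Space (Sph n) := inferInstanceAs (T2Space (Metric.sphere (0 : E (n + 1)) 1))

instance (n : ℕ) : CompactSpace (Sph n) := inferInstanceAs (CompactSpace (Metric.sphere (0 : E (n + 1)) 1))

/-- The first coordinate. -/
def sa {n : ℕ} (y : Sph n) : ℝ := (y.1 : E (n + 1)) 0

/-- The other coordinates. -/
noncomputable def sb {n : ℕ} (y : Sph n) : E n := tl n (y.1 : E (n + 1))

theorem s_sq {n : ℕ} (y : Sph n) : sa y ^ 2 + ‖sb y‖ ^ 2 = 1 := by
  have h : ‖(y.1 : E (n + 1))‖ = 1 := mem_sphere_zero_iff_norm.1 y.2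
  have h1 := norm_sq_consL n (y.1 : E (n + 1))
  rw [h] at h1
  rw [sa, sb, ← h1]
  norm_num

theorem s_ext {n : ℕ} {y y' : Sph n} (h : sa y = sa y') (h' : sb y = sb y') : y = y' :=
  Subtype.ext (consL_ext h h')

/-- The point of the sphere with given coordinates. -/
noncomputable def spt {n : ℕ} (a : ℝ) (b : E n) (h : a ^ 2 + ‖b‖ ^ 2 = 1) : Sph n :=
  ⟨consL n (a, b), by
    rw [mem_sphere_zero_iff_norm]
    have h1 := norm_sq_consL n (consL n (a, b))
    rw [consL_zero, tl_consL, h] at h1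
    have h2 : (0 : ℝ) ≤ ‖consL n (a, b)‖ := norm_nonneg _
    nlinarith⟩

@[simp] theorem sa_spt {n : ℕ} {a : ℝ} {b : E n} (h : a ^ 2 + ‖b‖ ^ 2 = 1) : sa (spt a b h) = a := rfl

@[simp] theorem sb_spt {n : ℕ} {a : ℝ} {b : E n} (h : a ^ 2 + ‖b‖ ^ 2 = 1) : sb (spt a b h) = b := tl_consL n a b

theorem continuous_sa (n : ℕ) : Continuous (sa : Sph n → ℝ) := by
  have h : Continuous fun y : Metric.sphere (0 : E (n + 1)) 1 => (y : E (n + 1)) 0 := by fun_prop
  exact h

theorem continuous_sb (n : ℕ) : Continuous (sb : Sph n → E n) := by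
  have h : Continuous fun y : Metric.sphere (0 : E (n + 1)) 1 => tlL n (y : E (n + 1)) := by fun_prop
  exact h

/-- Continuity of maps into the sphere. -/
theorem continuousOn_spt {n : ℕ} {X : Type*} [TopologicalSpace X] {a : X → ℝ} {b : X → E n}
    (h : ∀ x, a x ^ 2 + ‖b x‖ ^ 2 = 1) {s : Set X} (ha : ContinuousOn a s) (hb : ContinuousOn b s) :
    ContinuousOn (fun x => spt (a x) (b x) (h x)) s := by
  have h1 : ContinuousOn (fun x => consL n (a x, b x)) s := (consL n).continuous.comp_continuousOn (ha.prodMk hb)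
  rw [continuousOn_iff_continuous_domRestrict] at h1 ⊢
  exact h1.subtype_mk _

/-! ### The two parametrisations -/

theorem sphI_sq {n : ℕ} (v : E n) : ((1 - ‖v‖ ^ 2) / (1 + ‖v‖ ^ 2)) ^ 2 + ‖(2 / (1 + ‖v‖ ^ 2)) • v‖ ^ 2 = 1 := by
  rw [norm_smul, mul_pow, Real.norm_eq_abs, sq_abs]
  have : (1 + ‖v‖ ^ 2 : ℝ) ≠ 0 := by positivity
  field_simp
  ring

theorem sphJ_sq {n : ℕ} (v : E n) :
    (-((1 - ‖v‖ ^ 2) / (1 + ‖v‖ ^ 2))) ^ 2 + ‖(2 / (1 + ‖v‖ ^ 2)) • rho n v‖ ^ 2 = 1 := by
  rw [neg_sq, norm_smul, norm_rho, ← norm_smul]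
  exact sphI_sq v

theorem one_add_sa {n : ℕ} (v : E n) : 1 + (1 - ‖v‖ ^ 2) / (1 + ‖v‖ ^ 2) = 2 / (1 + ‖v‖ ^ 2) := by
  have : (1 + ‖v‖ ^ 2 : ℝ) ≠ 0 := by positivity
  field_simp
  ring

theorem norm_stereo {n : ℕ} {a : ℝ} {b : E n} (h : a ^ 2 + ‖b‖ ^ 2 = 1) (ha : a ≠ -1) :
    1 + ‖(1 + a)⁻¹ • b‖ ^ 2 = 2 / (1 + a) := by
  have h1 : 1 + a ≠ 0 := fun h0 => ha (by linarith)
  rw [norm_smul, mul_pow, Real.norm_eq_abs, sq_abs]
  have h2 : ‖b‖ ^ 2 = (1 - a) * (1 + a) := by linear_combination h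
  rw [h2]
  field_simp
  ring

/-- Stereographic parametrisation, `v ↦ ((1 - |v|²), 2 v) / (1 + |v|²)`. -/
noncomputable def sphI (n : ℕ) : OPH (E n) (Sph n) where
  toFun v := spt ((1 - ‖v‖ ^ 2) / (1 + ‖v‖ ^ 2)) ((2 / (1 + ‖v‖ ^ 2)) • v) (sphI_sq v)
  invFun y := (1 + sa y)⁻¹ • sb y
  source := univ
  target := {y | sa y ≠ -1}
  map_source' v _ := by
    rw [mem_ofPred_eq, sa_spt]
    intro h
    have h1 := one_add_sa v
    rw [h] at h1
    have : (0 : ℝ) < 2 / (1 + ‖v‖ ^ 2) := by positivity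
    linarith
  map_target' _ _ := trivial
  left_inv' v _ := by
    rw [sa_spt, sb_spt, one_add_sa, smul_smul]
    have : (1 + ‖v‖ ^ 2 : ℝ) ≠ 0 := by positivity
    rw [inv_mul_cancel₀ (by positivity), one_smul]
  right_inv' y hy := by
    have h1 : 1 + sa y ≠ 0 := fun h0 => hy (by linarith)
    have h2 := norm_stereo (s_sq y) hy
    refine s_ext ?_ ?_
    · rw [sa_spt]
      have h3 : 1 - ‖(1 + sa y)⁻¹ • sb y‖ ^ 2 = 2 - 2 / (1 + sa y) := by linarith
      rw [h2, h3]
      field_simp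
      ring
    · rw [sb_spt, h2, smul_smul]
      have : 2 / (2 / (1 + sa y)) * (1 + sa y)⁻¹ = 1 := by field_simp
      rw [this, one_smul]
  open_source := isOpen_univ
  open_target := isOpen_ne_fun (continuous_sa n) continuous_const
  continuousOn_toFun := by
    have h2 : ContinuousOn (fun v : E n => 2 / (1 + ‖v‖ ^ 2)) univ :=
      ContinuousOn.div (by fun_prop) (by fun_prop) fun v _ => by positivity
    refine continuousOn_spt _ ?_ (h2.smul continuousOn_id)
    exact ContinuousOn.div (by fun_prop) (by fun_prop) fun v _ => by positivity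
  continuousOn_invFun := by
    have h2 : ContinuousOn (fun y : Sph n => (1 + sa y)⁻¹) {y | sa y ≠ -1} := by
      refine ContinuousOn.inv₀ (continuous_const.add (continuous_sa n)).continuousOn fun y hy h0 => hy (by linarith)
    exact h2.smul (continuous_sb n).continuousOn

/-- The antipodal one, `v ↦ (-(1 - |v|²), 2 ρ v) / (1 + |v|²)`. -/
noncomputable def sphJ (n : ℕ) : OPH (E n) (Sph n) where
  toFun v := spt (-((1 - ‖v‖ ^ 2) / (1 + ‖v‖ ^ 2))) ((2 / (1 + ‖v‖ ^ 2)) • rho n v) (sphJ_sq v)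
  invFun y := (1 - sa y)⁻¹ • rho n (sb y)
  source := univ
  target := {y | sa y ≠ 1}
  map_source' v _ := by
    rw [mem_ofPred_eq, sa_spt]
    intro h
    have h1 := one_add_sa v
    have : (0 : ℝ) < 2 / (1 + ‖v‖ ^ 2) := by positivity
    linarith
  map_target' _ _ := trivial
  left_inv' v _ := by
    rw [sa_spt, sb_spt, sub_neg_eq_add, one_add_sa, rho_smul, rho_rho, smul_smul]
    rw [inv_mul_cancel₀ (by positivity), one_smul]
  right_inv' y hy := by
    have h1 : 1 + -sa y ≠ 0 := fun h0 => hy (by linarith)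
    have h2 := norm_stereo (a := -sa y) (b := rho n (sb y)) (by rw [norm_rho, neg_sq]; exact s_sq y)
      (fun h0 => hy (by linarith))
    rw [← sub_eq_add_neg] at h2 h1
    refine s_ext ?_ ?_
    · rw [sa_spt]
      have h3 : 1 - ‖(1 - sa y)⁻¹ • rho n (sb y)‖ ^ 2 = 2 - 2 / (1 - sa y) := by linarith
      rw [h2, h3]
      field_simp
      ring
    · rw [sb_spt, h2, rho_smul, rho_rho, smul_smul]
      have : 2 / (2 / (1 - sa y)) * (1 - sa y)⁻¹ = 1 := by field_simp
      rw [this, one_smul]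
  open_source := isOpen_univ
  open_target := isOpen_ne_fun (continuous_sa n) continuous_const
  continuousOn_toFun := by
    have h2 : ContinuousOn (fun v : E n => 2 / (1 + ‖v‖ ^ 2)) univ :=
      ContinuousOn.div (by fun_prop) (by fun_prop) fun v _ => by positivity
    refine continuousOn_spt _ ?_ (h2.smul (continuous_rho n).continuousOn)
    exact (ContinuousOn.div (by fun_prop) (by fun_prop) fun v _ => by positivity).neg
  continuousOn_invFun := by
    have h2 : ContinuousOn (fun y : Sph n => (1 - sa y)⁻¹) {y | sa y ≠ 1} := by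
      refine ContinuousOn.inv₀ (continuous_const.sub (continuous_sa n)).continuousOn fun y hy h0 => hy (by linarith)
    exact h2.smul ((continuous_rho n).comp (continuous_sb n)).continuousOn

theorem sphI_symm_apply {n : ℕ} (y : Sph n) : (sphI n).symm y = (1 + sa y)⁻¹ • sb y := rfl

theorem sphJ_symm_apply {n : ℕ} (y : Sph n) : (sphJ n).symm y = (1 - sa y)⁻¹ • rho n (sb y) := rfl

@[simp] theorem sphI_source (n : ℕ) : (sphI n).source = univ := rfl

@[simp] theorem sphJ_source (n : ℕ) : (sphJ n).source = univ := rfl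

@[simp] theorem mem_sphI_target {n : ℕ} (y : Sph n) : y ∈ (sphI n).target ↔ sa y ≠ -1 := Iff.rfl

@[simp] theorem mem_sphJ_target {n : ℕ} (y : Sph n) : y ∈ (sphJ n).target ↔ sa y ≠ 1 := Iff.rfl

theorem sph_glue {n : ℕ} {v : E n} (hv : v ≠ 0) : sphI n v = sphJ n (inv n v) := by
  have hN : (0 : ℝ) < ‖v‖ ^ 2 := by
    have := norm_pos_iff.2 hv
    positivity
  have h1 : ‖inv n v‖ ^ 2 = (‖v‖ ^ 2)⁻¹ := by rw [norm_inv', inv_pow]
  have h2 : rho n (inv n v) = (‖v‖ ^ 2)⁻¹ • v := by rw [inv, rho_smul, rho_rho]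
  change spt _ _ (sphI_sq v) = spt _ _ (sphJ_sq (inv n v))
  refine s_ext ?_ ?_
  · rw [sa_spt, sa_spt, h1]
    field_simp
    ring
  · rw [sb_spt, sb_spt, h1, h2, smul_smul]
    congr 1
    field_simp
    ring

theorem sa_sphI {n : ℕ} (v : E n) : sa (sphI n v) = (1 - ‖v‖ ^ 2) / (1 + ‖v‖ ^ 2) := rfl

theorem sa_sphI_eq_one {n : ℕ} {v : E n} : sa (sphI n v) = 1 ↔ v = 0 := by
  rw [sa_sphI, div_eq_one_iff_eq (by positivity)]
  constructor
  · intro h
    have : ‖v‖ ^ 2 = 0 := by linarith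
    simpa using this
  · rintro rfl
    simp

noncomputable instance instChSph (n : ℕ) : ChartedSpace (E n) (Sph n) where
  atlas := {(sphI n).symm, (sphJ n).symm}
  chartAt y := by
    classical
    exact if sa y = -1 then (sphJ n).symm else (sphI n).symm
  mem_chart_source y := by
    classical
    by_cases h : sa y = -1
    · simp only [h, if_true]
      change sa y ≠ 1
      rw [h]
      norm_num
    · simp only [h, if_false]
      exact h
  chart_mem_atlas y := by
    classical
    by_cases h : sa y = -1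
    · simp only [h, if_true]
      exact Or.inr rfl
    · simp only [h, if_false]
      exact Or.inl rfl

theorem mem_orG_of_pdAt {n : ℕ} {f : OPH (E n) (E n)} (h : ∀ x ∈ f.source, PDAt n f x) : f ∈ orG n :=
  pd_model.1 (pd_iff.2 h)

instance instGrSph (n : ℕ) : HasGroupoid (Sph n) (orG n) where
  compatible := by
    have key : ∀ (f : OPH (E n) (E n)), (∀ w ∈ f.source, f w = w) → f ∈ orG n := fun f hf =>
      mem_orG_of_pdAt fun x hx => (pdAt_id x).congr (Filter.eventually_of_mem (f.open_source.mem_nhds hx) hf)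
    have key' : ∀ (f : OPH (E n) (E n)), (∀ w ∈ f.source, w ≠ 0 ∧ f w = inv n w) → f ∈ orG n := fun f hf =>
      mem_orG_of_pdAt fun x hx => (pdAt_inv (hf x hx).1).congr
        (Filter.eventually_of_mem (f.open_source.mem_nhds hx) fun w hw => (hf w hw).2)
    rintro e e' (rfl | rfl) (rfl | rfl)
    · exact key _ fun w _ => (sphI n).left_inv trivial
    · refine key' _ fun w hw => ?_
      rw [OpenPartialHomeomorph.trans_source] at hw
      have h1 : sa (sphI n w) ≠ 1 := hw.2
      have h2 : w ≠ 0 := fun h => h1 (sa_sphI_eq_one.2 h)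
      refine ⟨h2, ?_⟩
      change (sphJ n).symm (sphI n w) = _
      rw [sph_glue h2]
      exact (sphJ n).left_inv trivial
    · refine key' _ fun w hw => ?_
      rw [OpenPartialHomeomorph.trans_source] at hw
      have h1 : sa (sphJ n w) ≠ -1 := hw.2
      have h2 : w ≠ 0 := by
        rintro rfl
        refine h1 ?_
        change -((1 - ‖(0 : E n)‖ ^ 2) / (1 + ‖(0 : E n)‖ ^ 2)) = -1
        simp
      refine ⟨h2, ?_⟩
      change (sphI n).symm (sphJ n w) = _
      have h3 := sph_glue (inv_ne_zero' n h2)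
      rw [inv_inv'] at h3
      rw [← h3]
      exact (sphI n).left_inv trivial
    · exact key _ fun w _ => (sphJ n).left_inv trivial

theorem pd_sphI (n : ℕ) : PD n (sphI n) := by
  have h : PD n (sphI n).symm := pd_chart (Or.inl rfl)
  have := h.symm
  rwa [OpenPartialHomeomorph.symm_symm] at this

theorem pd_sphJ (n : ℕ) : PD n (sphJ n) := by
  have h : PD n (sphJ n).symm := pd_chart (Or.inr rfl)
  have := h.symm
  rwa [OpenPartialHomeomorph.symm_symm] at this

theorem connected_sph {n : ℕ} (hn : 1 ≤ n) : ConnectedSpace (Sph n) := by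
  have h1 : 1 < Module.rank ℝ (E (n + 1)) := by
    rw [← Module.finrank_eq_rank, finrank_euclideanSpace_fin]
    have : (1 : ℕ) < n + 1 := by omega
    exact_mod_cast this
  have h2 : IsConnected (Metric.sphere (0 : E (n + 1)) 1) := isConnected_sphere h1 0 zero_le_one
  exact isConnected_iff_connectedSpace.1 h2

theorem isSph_sph (n : ℕ) : IsSph n (Sph n) := by
  refine ⟨sphI n, sphJ n, pd_sphI n, pd_sphJ n, rfl, rfl, ?_, ?_, fun v hv => sph_glue hv⟩
  · rw [eq_univ_iff_forall]
    intro y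
    by_cases h : sa y = -1
    · right
      rw [mem_sphJ_target, h]
      norm_num
    · left
      exact h
  · ext y
    constructor
    · rintro ⟨h1, h2⟩
      refine ⟨(sphI n).symm y, ?_, (sphI n).right_inv h1⟩
      intro h3
      have h4 : sa (sphI n ((sphI n).symm y)) = 1 := sa_sphI_eq_one.2 h3
      rw [(sphI n).right_inv h1] at h4
      exact h2 h4
    · rintro ⟨v, hv, rfl⟩
      exact ⟨(sphI n).map_source trivial, fun h => hv (sa_sphI_eq_one.1 h)⟩

/-- (F4) The n-sphere as closed oriented manifold. -/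
theorem exists_sph (n : ℕ) (hn : 1 ≤ n) : ∃ S : OMan n, IsSph n S ∧ Nonempty (S ≃ₜ Metric.sphere (0 : E (n + 1)) 1) := by
  have := connected_sph hn
  exact ⟨{ carrier := Sph n }, isSph_sph n, ⟨Homeomorph.refl _⟩⟩

end Pool.Agent.CSM
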