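import Pool.Agent.CSM.FD

/-!
(F, module FF) Cosine and sine on the circle `AddCircle 1`, the angle of a nonzero vector of the plane.
-/

open scoped Manifold ContDiff Topology
open Set

namespace Pool.Agent.CSM

/-- Cosine of an angle (period 1). -/
noncomputable def tcos (z : AddCircle (1 : ℝ)) : ℝ := (AddCircle.toCircle z : ℂ).re

/-- Sine of an angle (period 1). -/
noncomputable def tsin (z : AddCircle (1 : ℝ)) : ℝ := (AddCircle.toCircle z : ℂ).im

theorem tcos_coe (θ : ℝ) : tcos (θ : AddCircle (1 : ℝ)) = Real.cos (2 * Real.pi * θ) := by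
  rw [tcos, AddCircle.toCircle_apply_mk, Circle.coe_exp, Complex.exp_ofReal_mul_I_re, div_one]

theorem tsin_coe (θ : ℝ) : tsin (θ : AddCircle (1 : ℝ)) = Real.sin (2 * Real.pi * θ) := by
  rw [tsin, AddCircle.toCircle_apply_mk, Circle.coe_exp, Complex.exp_ofReal_mul_I_im, div_one]

theorem continuous_tcos : Continuous tcos :=
  Complex.continuous_re.comp (continuous_subtype_val.comp AddCircle.continuous_toCircle)

theorem continuous_tsin : Continuous tsin :=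
  Complex.continuous_im.comp (continuous_subtype_val.comp AddCircle.continuous_toCircle)

theorem tcos_sq_add (z : AddCircle (1 : ℝ)) : tcos z ^ 2 + tsin z ^ 2 = 1 := by
  obtain ⟨θ, rfl⟩ := QuotientAddGroup.mk_surjective z
  rw [tcos_coe, tsin_coe]
  exact Real.cos_sq_add_sin_sq _

theorem circ_ext {z w : AddCircle (1 : ℝ)} (h1 : tcos z = tcos w) (h2 : tsin z = tsin w) : z = w := by
  refine AddCircle.injective_toCircle one_ne_zero (Subtype.ext ?_)
  exact Complex.ext h1 h2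

/-- The angle of the vector `(c, s)`. -/
noncomputable def ang (c s : ℝ) : AddCircle (1 : ℝ) :=
  ((Complex.arg ⟨c, s⟩ / (2 * Real.pi) : ℝ) : AddCircle (1 : ℝ))

theorem norm_mk (c s : ℝ) : ‖(⟨c, s⟩ : ℂ)‖ = Real.sqrt (c ^ 2 + s ^ 2) := by
  rw [Complex.norm_def, Complex.normSq_mk, ← sq, ← sq]

theorem mk_ne_zero {c s : ℝ} (h : ¬(c = 0 ∧ s = 0)) : (⟨c, s⟩ : ℂ) ≠ 0 := by
  intro h1
  exact h ⟨congrArg Complex.re h1, congrArg Complex.im h1⟩

theorem tcos_ang {c s : ℝ} (h : ¬(c = 0 ∧ s = 0)) : Real.sqrt (c ^ 2 + s ^ 2) * tcos (ang c s) = c := by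
  have h1 := mk_ne_zero h
  have h2 : ‖(⟨c, s⟩ : ℂ)‖ ≠ 0 := norm_ne_zero_iff.2 h1
  have h3 : 2 * Real.pi * (Complex.arg ⟨c, s⟩ / (2 * Real.pi)) = Complex.arg ⟨c, s⟩ := by
    field_simp
  rw [ang, tcos_coe, h3, Complex.cos_arg h1, norm_mk, ← norm_mk]
  field_simp

theorem tsin_ang {c s : ℝ} (h : ¬(c = 0 ∧ s = 0)) : Real.sqrt (c ^ 2 + s ^ 2) * tsin (ang c s) = s := by
  have h1 := mk_ne_zero h
  have h2 : ‖(⟨c, s⟩ : ℂ)‖ ≠ 0 := norm_ne_zero_iff.2 h1
  have h3 : 2 * Real.pi * (Complex.arg ⟨c, s⟩ / (2 * Real.pi)) = Complex.arg ⟨c, s⟩ := by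
    field_simp
  rw [ang, tsin_coe, h3, Complex.sin_arg, norm_mk, ← norm_mk]
  field_simp

theorem sqrt_pos' {c s : ℝ} (h : ¬(c = 0 ∧ s = 0)) : 0 < Real.sqrt (c ^ 2 + s ^ 2) := by
  rw [← norm_mk]
  exact norm_pos_iff.2 (mk_ne_zero h)

theorem smul_circ_ne {r : ℝ} (hr : 0 < r) (z : AddCircle (1 : ℝ)) : ¬(r * tcos z = 0 ∧ r * tsin z = 0) := by
  rintro ⟨h1, h2⟩
  have h3 := tcos_sq_add z
  have h4 : tcos z = 0 := by
    rcases mul_eq_zero.1 h1 with h | h
    · exact absurd h hr.ne'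
    · exact h
  have h5 : tsin z = 0 := by
    rcases mul_eq_zero.1 h2 with h | h
    · exact absurd h hr.ne'
    · exact h
  rw [h4, h5] at h3
  norm_num at h3

theorem sqrt_smul_circ {r : ℝ} (hr : 0 ≤ r) (z : AddCircle (1 : ℝ)) :
    Real.sqrt ((r * tcos z) ^ 2 + (r * tsin z) ^ 2) = r := by
  have h : (r * tcos z) ^ 2 + (r * tsin z) ^ 2 = r ^ 2 := by
    have := tcos_sq_add z
    linear_combination r ^ 2 * this
  rw [h, Real.sqrt_sq hr]

theorem ang_smul {r : ℝ} (hr : 0 < r) (z : AddCircle (1 : ℝ)) : ang (r * tcos z) (r * tsin z) = z := by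
  have h := smul_circ_ne hr z
  have h1 := tcos_ang h
  have h2 := tsin_ang h
  rw [sqrt_smul_circ hr.le] at h1 h2
  exact circ_ext (mul_left_cancel₀ hr.ne' h1) (mul_left_cancel₀ hr.ne' h2)

theorem continuousAt_ang {p : ℝ × ℝ} (h : ¬(p.1 = 0 ∧ p.2 = 0)) :
    ContinuousAt (fun q : ℝ × ℝ => ang q.1 q.2) p := by
  have h1 : (⟨p.1, p.2⟩ : ℂ) ≠ 0 := mk_ne_zero h
  have h2 : Continuous fun q : ℝ × ℝ => (⟨q.1, q.2⟩ : ℂ) := Complex.equivRealProdCLM.symm.continuous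
  have h3 : ContinuousAt (fun q : ℝ × ℝ => ((Complex.arg ⟨q.1, q.2⟩ : ℝ) : Real.Angle)) p :=
    ContinuousAt.comp (f := fun q : ℝ × ℝ => (⟨q.1, q.2⟩ : ℂ)) (x := p) (Complex.continuousAt_arg_coe_angle h1)
      h2.continuousAt
  have hp : (2 * Real.pi : ℝ) ≠ 0 := by positivity
  have h4 : (fun q : ℝ × ℝ => ang q.1 q.2) = fun q : ℝ × ℝ =>
      AddCircle.homeomorphAddCircle (2 * Real.pi) 1 hp one_ne_zero
        ((Complex.arg ⟨q.1, q.2⟩ : ℝ) : AddCircle (2 * Real.pi)) := by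
    funext q
    rw [AddCircle.homeomorphAddCircle_apply_mk, ang, mul_one, div_eq_mul_inv]
  rw [h4]
  exact (AddCircle.homeomorphAddCircle (2 * Real.pi) 1 hp one_ne_zero).continuous.continuousAt.comp h3

theorem ang_real {c : ℝ} (hc : 0 < c) : ang c 0 = 0 := by
  have h1 := ang_smul hc (0 : AddCircle (1 : ℝ))
  have h2 : tcos (0 : AddCircle (1 : ℝ)) = 1 := by
    have := tcos_coe 0
    simpa using this
  have h3 : tsin (0 : AddCircle (1 : ℝ)) = 0 := by
    have := tsin_coe 0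
    simpa using this
  rwa [h2, h3, mul_one, mul_zero] at h1

end Pool.Agent.CSM
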