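import Pool.Agent.CSM.FN
import Pool.Agent.CSM.CalcR
import Pool.Agent.CSM.Inv
import Pool.Agent.CSM.InstT

/-!
(F) Final results of chunk F: `surg_twist_sph` (F3); `exists_S1S` (F2) is in `FI.lean`,
`exists_sph` (F4) in `FE.lean`, `circ` (F1) in `Circ.lean`, `exists_invH` (F6) in `Inv.lean`; `exists_twist` (F5)
is in `Adp.lean` (helper78).
-/

open scoped Manifold ContDiff Topology
open Set

namespace Pool.Agent.CSM

/-- A twist fixes the core. -/
theorem Twist.map_core {m : ℕ} (τ : Twist m) (θ : ℝ) : τ.map (mkT θ 0) = mkT θ 0 := by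
  rw [τ.map_mkT, map_zero]

/-- A twist preserves the norm of the second component. -/
theorem Twist.norm_map {m : ℕ} (τ : Twist m) (p : T m) : ‖(τ.map p).2‖ = ‖p.2‖ := by
  obtain ⟨θ, x, rfl⟩ := exists_mkT p
  rw [τ.map_mkT]
  exact τ.isom θ x

/-- Transport of an open set along two open partial homeomorphisms. -/
theorem exists_along {n : ℕ} {Q S X : Type*} [TopologicalSpace Q] [TopologicalSpace S] [TopologicalSpace X]
    [ChartedSpace (E n) Q] [ChartedSpace (E n) S] [ChartedSpace (E n) X] [HasGroupoid Q (orG n)]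
    {e₁ : OPH Q S} {e₂ : OPH Q X} (h₁ : PD n e₁) (h₂ : PD n e₂) {U : Set Q} (hU : IsOpen U) (hU1 : U ⊆ e₁.source)
    (hU2 : U ⊆ e₂.source) :
    ∃ g : OPH S X, PD n g ∧ g.source = e₁ '' U ∧ g.target = e₂ '' U ∧ ∀ v ∈ U, g (e₁ v) = e₂ v := by
  have s1 : (e₁.restrOpen U hU).source = U := by
    rw [OpenPartialHomeomorph.restrOpen_source, inter_eq_right.2 hU1]
  refine ⟨(e₁.restrOpen U hU).symm ≫ₕ e₂, (h₁.restrOpen U hU).symm.trans h₂, ?_, ?_, ?_⟩
  · ext y
    constructor
    · rintro ⟨h3, h4⟩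
      refine ⟨(e₁.restrOpen U hU).symm y, ?_, (e₁.restrOpen U hU).right_inv h3⟩
      have h5 := (e₁.restrOpen U hU).map_target h3
      rwa [s1] at h5
    · rintro ⟨v, hv, rfl⟩
      have h3 : v ∈ (e₁.restrOpen U hU).source := by rwa [s1]
      refine ⟨(e₁.restrOpen U hU).map_source h3, ?_⟩
      have h4 : (e₁.restrOpen U hU).symm (e₁ v) = v := (e₁.restrOpen U hU).left_inv h3
      change (e₁.restrOpen U hU).symm (e₁ v) ∈ e₂.source
      rw [h4]
      exact hU2 hv
  · ext z
    constructor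
    · rintro ⟨h3, h4⟩
      refine ⟨e₂.symm z, ?_, e₂.right_inv h3⟩
      have h5 : e₂.symm z ∈ (e₁.restrOpen U hU).source := h4
      rwa [s1] at h5
    · rintro ⟨v, hv, rfl⟩
      refine ⟨e₂.map_source (hU2 hv), ?_⟩
      change e₂.symm (e₂ v) ∈ (e₁.restrOpen U hU).source
      rw [e₂.left_inv (hU2 hv), s1]
      exact hv
  · intro v hv
    have h3 : v ∈ (e₁.restrOpen U hU).source := by rwa [s1]
    have h4 : (e₁.restrOpen U hU).symm (e₁ v) = v := (e₁.restrOpen U hU).left_inv h3
    change e₂ ((e₁.restrOpen U hU).symm (e₁ v)) = e₂ v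
    rw [h4]

/-- The property of being the standard sphere is invariant. -/
theorem IsSph.of_homeo {n : ℕ} {S X : Type*} [TopologicalSpace S] [TopologicalSpace X] [ChartedSpace (E n) S]
    [ChartedSpace (E n) X] [HasGroupoid S (orG n)] (h : IsSph n S) (F : S ≃ₜ X)
    (hF : PD n F.toOpenPartialHomeomorph) : IsSph n X := by
  obtain ⟨i, j, hi, hj, si, sj, hc, hI, hg⟩ := h
  refine ⟨i ≫ₕ F.toOpenPartialHomeomorph, j ≫ₕ F.toOpenPartialHomeomorph, hi.trans hF, hj.trans hF, ?_, ?_, ?_, ?_,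
    ?_⟩
  · rw [OpenPartialHomeomorph.trans_source, si]
    simp
  · rw [OpenPartialHomeomorph.trans_source, sj]
    simp
  · rw [eq_univ_iff_forall]
    intro x
    have hx : F.symm x ∈ i.target ∪ j.target := by rw [hc]; trivial
    rcases hx with hx | hx
    · left
      exact ⟨trivial, hx⟩
    · right
      exact ⟨trivial, hx⟩
  · ext x
    constructor
    · rintro ⟨h1, h2⟩
      have h3 : F.symm x ∈ i.target ∩ j.target := ⟨h1.2, h2.2⟩
      rw [hI] at h3
      obtain ⟨v, hv, hvx⟩ := h3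
      refine ⟨v, hv, ?_⟩
      change F (i v) = x
      rw [hvx, F.apply_symm_apply]
    · rintro ⟨v, hv, rfl⟩
      have h3 : i v ∈ i.target ∩ j.target := by
        rw [hI]
        exact ⟨v, hv, rfl⟩
      have h4 : F.symm (F (i v)) ∈ i.target ∩ j.target := by rwa [F.symm_apply_apply]
      exact ⟨⟨trivial, h4.1⟩, ⟨trivial, h4.2⟩⟩
  · intro v hv
    change F (i v) = F (j (inv n v))
    rw [hg v hv]

/-- (F3) Surgery of `S^1 × S^m` along the twisted standard circle is the standard sphere. -/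
theorem surg_twist_sph (m : ℕ) (hm : 1 ≤ m) {Y : Type*} [TopologicalSpace Y] [ChartedSpace (E (m + 1)) Y]
    [HasGroupoid Y (orG (m + 1))] [T2Space Y] {A B : OPH (T m) Y} (h : IsS1S m A B) (τ : Twist m)
    {e : OPH (T m) Y} {δ : ℝ} (hδ : 0 < δ) (he : ∀ (θ : ℝ) (x : E m), ‖x‖ < δ → e (mkT θ x) = A (τ.map (mkT θ x)))
    {X : Type*} [TopologicalSpace X] [ChartedSpace (E (m + 1)) X] [HasGroupoid X (orG (m + 1))] [T2Space X]
    {φ : OPH Y X} (hs : Repl (m + 1) (circ m) e φ) : IsSph (m + 1) X := by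
  obtain ⟨d, hd⟩ := hs.exd
  obtain ⟨σ, hσ⟩ := τ.exists_conj
  obtain ⟨D, hD, hDf⟩ := σ.exists_homeo
  -- the core in `Y`
  have eC : e '' (circ m).C = A '' {p | p.2 = 0} := by
    rw [circ_C]
    refine image_congr fun p hp => ?_
    obtain ⟨θ, x, rfl⟩ := exists_mkT p
    have hx : x = 0 := hp
    subst hx
    rw [he θ 0 (by rw [norm_zero]; exact hδ), τ.map_core]
  have hB : φ.source = B.target := by
    rw [hd.sφ, eC]
    ext y
    constructor
    · intro hy
      have h1 : y ∈ A.target ∪ B.target := by rw [h.cover]; trivial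
      rcases h1 with h1 | h1
      · have h2 : (A.symm y).2 ≠ 0 := fun h3 => hy ⟨A.symm y, h3, A.right_inv h1⟩
        have h3 : y ∈ A.target ∩ B.target := by
          rw [h.inter]
          exact ⟨A.symm y, h2, A.right_inv h1⟩
        exact h3.2
      · exact h1
    · rintro hy ⟨p, hp, rfl⟩
      have h1 : A p ∈ A.target ∩ B.target := ⟨A.map_source (by rw [h.sA]; trivial), hy⟩
      rw [h.inter] at h1
      obtain ⟨q, hq, hqp⟩ := h1
      have h2 : q = p := A.injOn (by rw [h.sA]; trivial) (by rw [h.sA]; trivial) hqp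
      rw [h2] at hq
      exact hq hp
  -- the new parametrisation of the complement
  set P1 : OPH (T m) X := D.toOpenPartialHomeomorph ≫ₕ B ≫ₕ φ with hP1
  have P1pd : PD (m + 1) P1 := hD.trans (h.pdB.trans hd.pdφ)
  have P1s : P1.source = univ := by
    rw [eq_univ_iff_forall]
    intro p
    refine ⟨trivial, ?_, ?_⟩
    · change D p ∈ B.source
      rw [h.sB]
      trivial
    · change B (D p) ∈ φ.source
      rw [hB]
      exact B.map_source (by rw [h.sB]; trivial)
  have P1a : ∀ p, P1 p = φ (B (σ.map p)) := by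
    intro p
    change φ (B (D p)) = _
    rw [hDf]
  have P1t : P1.target = φ.target := by
    ext x
    constructor
    · intro hx
      have h1 := P1.right_inv hx
      rw [← h1, P1a]
      refine φ.map_source ?_
      rw [hB]
      exact B.map_source (by rw [h.sB]; trivial)
    · intro hx
      have h1 : φ.symm x ∈ B.target := by
        rw [← hB]
        exact φ.map_target hx
      have h2 : P1 (D.symm (B.symm (φ.symm x))) = x := by
        change φ (B (D (D.symm (B.symm (φ.symm x))))) = x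
        rw [D.apply_symm_apply, B.right_inv h1, φ.right_inv hx]
      rw [← h2]
      exact P1.map_source (by rw [P1s]; trivial)
  -- the relation
  have rel : ∀ (θ : ℝ) (x : E m), x ≠ 0 → ‖x‖ < δ → d ((circ m).κ (mkT θ x)) = P1 (mkT θ (inv m x)) := by
    intro θ x hx hxδ
    have h1 : (mkT θ x : T m) ∈ (circ m).κ.source := hx
    rw [← hd.glue _ h1, he θ x hxδ, τ.map_mkT]
    have h2 : τ.O θ x ≠ 0 := by
      intro h3
      have h4 := τ.isom θ x
      rw [h3, norm_zero] at h4
      exact hx (norm_eq_zero.1 h4.symm)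
    rw [h.glue θ _ h2, P1a, σ.map_mkT, hσ]
    have h3 : inv m (τ.O θ x) = rho m (τ.O θ (rho m (inv m x))) := by
      rw [inv, inv, rho_smul, rho_rho, map_smul, rho_smul, τ.isom]
    rw [h3]
  -- the first piece
  have fs : ((t0 m).symm ≫ₕ P1).source = (t0 m).target := by
    rw [OpenPartialHomeomorph.trans_source, P1s]
    simp
  have ft : ((t0 m).symm ≫ₕ P1).target = φ.target := by
    rw [OpenPartialHomeomorph.trans_target, P1t]
    simp [t0_source]
  have fpd : PD (m + 1) ((t0 m).symm ≫ₕ P1) := (pd_t0 m).symm.trans P1pd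
  -- the second piece
  set U : Set (E (m + 1)) := {v : E (m + 1) | tl m v ≠ 0} ∩ {v | Real.sqrt (Real.log ‖tl m v‖ ^ 2 + v 0 ^ 2) < δ} with hU
  have Uo : IsOpen U := by
    have h1 : IsOpen {v : E (m + 1) | tl m v ≠ 0} := isOpen_ne_fun (continuous_tl m) continuous_const
    have h2 : ContinuousOn (fun v : E (m + 1) => Real.sqrt (Real.log ‖tl m v‖ ^ 2 + v 0 ^ 2))
        {v : E (m + 1) | tl m v ≠ 0} := by
      refine ContinuousOn.sqrt (ContinuousOn.add ?_ (by fun_prop))
      exact ((continuous_tl m).norm.continuousOn.log fun v hv => norm_ne_zero_iff.2 hv).pow 2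
    exact h2.isOpen_inter_preimage h1 isOpen_Iio
  have U1 : U ⊆ (d0 m).source := by
    rw [d0_source]
    exact inter_subset_left
  have U2 : U ⊆ d.source := by
    intro v hv
    rw [hd.sd]
    by_cases h1 : v ∈ (circ m).C'
    · exact Or.inr h1
    · left
      rw [circ_target]
      exact ⟨hv.1, h1⟩
  have CU : (circ m).C' ⊆ U := by
    intro v hv
    refine ⟨tl_ne_of_core hv, ?_⟩
    rw [circ_C'] at hv
    change Real.sqrt (Real.log ‖tl m v‖ ^ 2 + v 0 ^ 2) < δ
    rw [hv.1, hv.2, Real.log_one]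
    simpa using hδ
  obtain ⟨g, gpd, gs, gt, ga⟩ := exists_along (pd_d0 hm) hd.pdd Uo U1 U2
  have key : ∀ v ∈ U, v ∉ (circ m).C' → d0 m v ∈ (t0 m).target ∧ ((t0 m).symm ≫ₕ P1) (d0 m v) = d v := by
    intro v hv hvC
    have h1 : v ∈ (circ m).κ.target := by
      rw [circ_target]
      exact ⟨hv.1, hvC⟩
    obtain ⟨θ, x, hx⟩ := exists_mkT ((circ m).κ.symm v)
    have h2 : (mkT θ x : T m) ∈ (circ m).κ.source := by
      rw [hx]
      exact (circ m).κ.map_target h1
    have h3 : x ≠ 0 := h2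
    have h4 : (circ m).κ (mkT θ x) = v := by
      rw [hx]
      exact (circ m).κ.right_inv h1
    have h5 : ‖x‖ = Real.sqrt (Real.log ‖tl m v‖ ^ 2 + v 0 ^ 2) := by
      have h6 : x = (Real.sqrt (Real.log ‖tl m v‖ ^ 2 + v 0 ^ 2) * ‖tl m v‖⁻¹) • tl m v := congrArg Prod.snd hx
      have h7 : 0 < ‖tl m v‖ := norm_pos_iff.2 hv.1
      rw [h6, norm_smul, Real.norm_of_nonneg (by positivity), mul_assoc, inv_mul_cancel₀ h7.ne', mul_one]
    have h6 : ‖x‖ < δ := by
      rw [h5]
      exact hv.2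
    have h7 : d0 m v = t0 m (mkT θ (inv m x)) := by
      rw [← h4]
      exact d0_kap θ h3
    refine ⟨?_, ?_⟩
    · rw [h7]
      exact (t0 m).map_source trivial
    · rw [h7]
      change P1 ((t0 m).symm (t0 m (mkT θ (inv m x)))) = d v
      rw [(t0 m).left_inv (by trivial), ← rel θ x h3 h6, h4]
  have compat : ∀ y ∈ ((t0 m).symm ≫ₕ P1).source, y ∈ g.source → ((t0 m).symm ≫ₕ P1) y = g y := by
    intro y hy hy'
    rw [fs] at hy
    rw [gs] at hy'
    obtain ⟨v, hv, rfl⟩ := hy'
    have hvC : v ∉ (circ m).C' := fun hvC => hy (d0_core hvC)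
    rw [ga v hv, (key v hv hvC).2]
  obtain ⟨F, hF, -, -⟩ := exists_homeo_of_glue fpd gpd compat
    (by
      intro y hy z hz hyz
      rw [gs] at hz
      obtain ⟨v, hv, rfl⟩ := hz
      rw [ga v hv] at hyz
      have hvC : v ∉ (circ m).C' := by
        intro hvC
        have h1 : ((t0 m).symm ≫ₕ P1) y ∈ φ.target := by
          rw [← ft]
          exact ((t0 m).symm ≫ₕ P1).map_source hy
        rw [hyz, hd.tφ] at h1
        exact h1 ⟨v, hvC, rfl⟩
      have h2 := key v hv hvC
      refine ((t0 m).symm ≫ₕ P1).injOn hy ?_ ?_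
      · rw [fs]
        exact h2.1
      · rw [hyz, h2.2])
    (by
      rw [fs, gs, eq_univ_iff_forall]
      intro y
      by_cases hy : sa y = 0 ∧ (sb y) 0 = 0
      · right
        obtain ⟨v, hv, hvy⟩ := exists_d0_core hy.1 hy.2
        exact ⟨v, CU hv, hvy⟩
      · left
        exact hy)
    (by
      rw [ft, gt, eq_univ_iff_forall]
      intro x
      by_cases hx : x ∈ d '' (circ m).C'
      · right
        obtain ⟨v, hv, rfl⟩ := hx
        exact ⟨v, CU hv, rfl⟩
      · left
        rw [hd.tφ]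
        exact hx)
  exact (isSph_sph (m + 1)).of_homeo F hF

end Pool.Agent.CSM
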