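import Pool.Agent.CSM.FF

/-!
(F, module FG) The identification `kap m` of the complement of the core of the solid torus with the complement of
`C' = {v | v 0 = 0 ∧ ‖tl m v‖ = 1}` in `{v | tl m v ≠ 0}`.
-/

open scoped Manifold ContDiff Topology
open Set

namespace Pool.Agent.CSM

theorem continuous_tl (m : ℕ) : Continuous (tl m) := (tlL m).continuous

theorem kap_ne {a : ℝ} {s : ℝ} (ha : 0 < a) (h : ¬(s = 0 ∧ a = 1)) : ¬(Real.log a = 0 ∧ s = 0) := by
  rintro ⟨h1, h2⟩
  refine h ⟨h2, ?_⟩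
  have h3 := Real.exp_log ha
  rw [h1, Real.exp_zero] at h3
  exact h3.symm

/-- The identification of the complements of the two cores. -/
noncomputable def kap (m : ℕ) : OPH (T m) (E (m + 1)) where
  toFun p := consL m (‖p.2‖ * tsin p.1, Real.exp (‖p.2‖ * tcos p.1) • ‖p.2‖⁻¹ • p.2)
  invFun v := (ang (Real.log ‖tl m v‖) (v 0),
    (Real.sqrt (Real.log ‖tl m v‖ ^ 2 + v 0 ^ 2) * ‖tl m v‖⁻¹) • tl m v)
  source := {p | p.2 ≠ 0}
  target := {v | tl m v ≠ 0} \ {v | v 0 = 0 ∧ ‖tl m v‖ = 1}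
  map_source' := by
    intro p hp
    have hr : ‖p.2‖ ≠ 0 := norm_ne_zero_iff.2 hp
    have h1 : Real.exp (‖p.2‖ * tcos p.1) • ‖p.2‖⁻¹ • p.2 ≠ 0 :=
      smul_ne_zero (Real.exp_pos _).ne' (smul_ne_zero (inv_ne_zero hr) hp)
    refine ⟨?_, ?_⟩
    · change tl m (consL m _) ≠ 0
      rw [tl_consL]
      exact h1
    · rintro ⟨h2, h3⟩
      rw [consL_zero] at h2
      rw [tl_consL, norm_smul, norm_smul, norm_inv, norm_norm, inv_mul_cancel₀ hr, mul_one,
        Real.norm_of_nonneg (Real.exp_pos _).le, Real.exp_eq_one_iff] at h3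
      exact smul_circ_ne (norm_pos_iff.2 hp) p.1 ⟨h3, h2⟩
  map_target' := by
    intro v hv
    have h1 : tl m v ≠ 0 := hv.1
    have h2 : 0 < ‖tl m v‖ := norm_pos_iff.2 h1
    have h3 := sqrt_pos' (kap_ne h2 hv.2)
    exact smul_ne_zero (mul_pos h3 (inv_pos.2 h2)).ne' h1
  left_inv' := by
    intro p hp
    have hr : 0 < ‖p.2‖ := norm_pos_iff.2 hp
    have h1 : ‖Real.exp (‖p.2‖ * tcos p.1) • ‖p.2‖⁻¹ • p.2‖ = Real.exp (‖p.2‖ * tcos p.1) := by
      rw [norm_smul, norm_smul, norm_inv, norm_norm, inv_mul_cancel₀ hr.ne', mul_one,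
        Real.norm_of_nonneg (Real.exp_pos _).le]
    refine Prod.ext ?_ ?_
    · rw [tl_consL, h1, Real.log_exp, consL_zero]
      exact ang_smul hr p.1
    · rw [tl_consL, h1, Real.log_exp, consL_zero, sqrt_smul_circ hr.le, smul_smul, smul_smul]
      have h2 : ‖p.2‖ * (Real.exp (‖p.2‖ * tcos p.1))⁻¹ * Real.exp (‖p.2‖ * tcos p.1) * ‖p.2‖⁻¹ = 1 := by
        have := Real.exp_ne_zero (‖p.2‖ * tcos p.1)
        field_simp
      rw [h2, one_smul]
  right_inv' := by
    intro v hv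
    have h1 : tl m v ≠ 0 := hv.1
    have h2 : 0 < ‖tl m v‖ := norm_pos_iff.2 h1
    have h0 := kap_ne h2 hv.2
    have h3 := sqrt_pos' h0
    have h4 : ‖(Real.sqrt (Real.log ‖tl m v‖ ^ 2 + v 0 ^ 2) * ‖tl m v‖⁻¹) • tl m v‖ =
        Real.sqrt (Real.log ‖tl m v‖ ^ 2 + v 0 ^ 2) := by
      rw [norm_smul, Real.norm_of_nonneg (by positivity), mul_assoc, inv_mul_cancel₀ h2.ne', mul_one]
    refine consL_ext ?_ ?_
    · rw [consL_zero, h4]
      exact tsin_ang h0
    · rw [tl_consL, h4, tcos_ang h0, Real.exp_log h2, smul_smul, smul_smul]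
      have h5 : ‖tl m v‖ * (Real.sqrt (Real.log ‖tl m v‖ ^ 2 + v 0 ^ 2))⁻¹ *
          (Real.sqrt (Real.log ‖tl m v‖ ^ 2 + v 0 ^ 2) * ‖tl m v‖⁻¹) = 1 := by
        have := h3.ne'
        field_simp
      rw [h5, one_smul]
  open_source := isOpen_ne_fun (continuous_sndT m) continuous_const
  open_target := by
    refine IsOpen.sdiff (isOpen_ne_fun (continuous_tl m) continuous_const) ?_
    exact (isClosed_eq (by fun_prop) continuous_const).inter
      (isClosed_eq (continuous_tl m).norm continuous_const)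
  continuousOn_toFun := by
    have c1 : Continuous fun p : T m => p.2 := continuous_sndT m
    have c2 : Continuous fun p : T m => tcos p.1 := continuous_tcos.comp (continuous_fstT m)
    have c3 : Continuous fun p : T m => tsin p.1 := continuous_tsin.comp (continuous_fstT m)
    refine (consL m).continuous.comp_continuousOn ?_
    refine (c1.norm.mul c3).continuousOn.prodMk ?_
    refine (Real.continuous_exp.comp (c1.norm.mul c2)).continuousOn.smul ?_
    refine (c1.norm.continuousOn.inv₀ fun p hp => ?_).smul c1.continuousOn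
    exact norm_ne_zero_iff.2 hp
  continuousOn_invFun := by
    intro v hv
    refine ContinuousAt.continuousWithinAt ?_
    have h1 : tl m v ≠ 0 := hv.1
    have h2 : 0 < ‖tl m v‖ := norm_pos_iff.2 h1
    have h0 := kap_ne h2 hv.2
    have c1 : ContinuousAt (fun v : E (m + 1) => ‖tl m v‖) v := (continuous_tl m).norm.continuousAt
    have c2 : ContinuousAt (fun v : E (m + 1) => Real.log ‖tl m v‖) v := c1.log h2.ne'
    have c3 : ContinuousAt (fun v : E (m + 1) => v 0) v := by fun_prop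
    have c4 : ContinuousAt (fun v : E (m + 1) => ang (Real.log ‖tl m v‖) (v 0)) v :=
      ContinuousAt.comp (f := fun v : E (m + 1) => (Real.log ‖tl m v‖, v 0)) (x := v)
        (continuousAt_ang (p := (Real.log ‖tl m v‖, v 0)) h0) (c2.prodMk c3)
    refine c4.prodMk ?_
    exact (((c2.pow 2).add (c3.pow 2)).sqrt.mul (c1.inv₀ h2.ne')).smul (continuous_tl m).continuousAt

theorem kap_apply (m : ℕ) (p : T m) :
    kap m p = consL m (‖p.2‖ * tsin p.1, Real.exp (‖p.2‖ * tcos p.1) • ‖p.2‖⁻¹ • p.2) := rfl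

theorem kap_mkT (m : ℕ) (θ : ℝ) (x : E m) :
    kap m (mkT θ x) = consL m (‖x‖ * Real.sin (2 * Real.pi * θ),
      Real.exp (‖x‖ * Real.cos (2 * Real.pi * θ)) • ‖x‖⁻¹ • x) := by
  rw [kap_apply, mkT_fst, mkT_snd, tcos_coe, tsin_coe]

theorem kap_source (m : ℕ) : (kap m).source = {p : T m | p.2 ≠ 0} := rfl

theorem kap_target (m : ℕ) :
    (kap m).target = {v : E (m + 1) | tl m v ≠ 0} \ {v : E (m + 1) | v 0 = 0 ∧ ‖tl m v‖ = 1} := rfl

theorem kap_symm_apply (m : ℕ) (v : E (m + 1)) :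
    (kap m).symm v = (ang (Real.log ‖tl m v‖) (v 0),
      (Real.sqrt (Real.log ‖tl m v‖ ^ 2 + v 0 ^ 2) * ‖tl m v‖⁻¹) • tl m v) := rfl

end Pool.Agent.CSM
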