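import Pool.Agent.CSM.FG

/-!
(F, module FH) Maps of the form `v ↦ g v • v + h v • e`; `kap` is orientation preserving.
-/

open scoped Manifold ContDiff Topology
open Set

namespace Pool.Agent.CSM

theorem pdAt_gh {n : ℕ} {g h : E n → ℝ} {v e : E n} {g' h' : E n →L[ℝ] ℝ} (hg : ContDiffAt ℝ ∞ g v)
    (hh : ContDiffAt ℝ ∞ h v) (dg : HasFDerivAt g g' v) (dh : HasFDerivAt h h' v) (G : 0 < g v)
    (hpos : 0 < (g v + h' e) * (g v + g' v) - h' v * g' e) : PDAt n (fun w => g w • w + h w • e) v := by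
  have h1 : HasFDerivAt (fun w => g w • w + h w • e)
      ((g v • ContinuousLinearMap.id ℝ (E n) + g'.smulRight v) + h'.smulRight e) v :=
    (dg.smul (hasFDerivAt_id v)).add (dh.smul_const e)
  refine pdAt_rank2 ((hg.smul contDiffAt_id).add (hh.smul contDiffAt_const)) h1 G (h' : E n →ₗ[ℝ] ℝ)
    (g' : E n →ₗ[ℝ] ℝ) e v ?_ hpos
  intro ξ
  simp only [add_apply, smul_apply, ContinuousLinearMap.id_apply,
    ContinuousLinearMap.smulRight_apply, ContinuousLinearMap.coe_coe]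
  abel

/-- Derivative of the norm of the tail. -/
theorem hasFDerivAt_normTl {m : ℕ} {v : E (m + 1)} (h : tl m v ≠ 0) :
    HasFDerivAt (fun w : E (m + 1) => ‖tl m w‖)
      (‖tl m v‖⁻¹ • (innerSL ℝ (tl m v)).comp (tlL m)) v := by
  have hr : 0 < ‖tl m v‖ := norm_pos_iff.2 h
  have h1 : HasFDerivAt (fun w : E (m + 1) => ‖tl m w‖ ^ 2) ((2 • innerSL ℝ (tl m v)).comp (tlL m)) v :=
    HasFDerivAt.comp (g := fun x : E m => ‖x‖ ^ 2) v (hasStrictFDerivAt_norm_sq (tl m v)).hasFDerivAt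
      (tlL m).hasFDerivAt
  have h2 := h1.sqrt (pow_pos hr 2).ne'
  have h3 : (fun w : E (m + 1) => Real.sqrt (‖tl m w‖ ^ 2)) = fun w => ‖tl m w‖ := by
    funext w
    rw [Real.sqrt_sq (norm_nonneg _)]
  rw [h3, Real.sqrt_sq hr.le] at h2
  have h4 : (1 / (2 * ‖tl m v‖)) • ((2 • innerSL ℝ (tl m v)).comp (tlL m)) =
      ‖tl m v‖⁻¹ • (innerSL ℝ (tl m v)).comp (tlL m) := by
    ext1 ξ
    simp only [smul_apply, ContinuousLinearMap.comp_apply, smul_eq_mul, nsmul_eq_mul]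
    push_cast
    field_simp
  rwa [h4] at h2

theorem contDiffAt_normTl {m : ℕ} {v : E (m + 1)} (h : tl m v ≠ 0) :
    ContDiffAt ℝ ∞ (fun w : E (m + 1) => ‖tl m w‖) v :=
  ContDiffAt.comp (g := fun x : E m => ‖x‖) v (contDiffAt_norm ℝ h) (tlL m).contDiff.contDiffAt

theorem inner_tl_e0 (m : ℕ) (x : E m) : inner ℝ x (tl m (e0 m)) = 0 := by
  rw [tl_e0, inner_zero_right]

theorem kap_piT (m : ℕ) (v : E (m + 1)) :
    kap m (piT m v) = (Real.exp (‖tl m v‖ * Real.cos (2 * Real.pi * v 0)) * ‖tl m v‖⁻¹) • v +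
      (‖tl m v‖ * Real.sin (2 * Real.pi * v 0) -
        (Real.exp (‖tl m v‖ * Real.cos (2 * Real.pi * v 0)) * ‖tl m v‖⁻¹) * v 0) • e0 m := by
  rw [piT, kap_mkT]
  refine consL_ext ?_ ?_
  · rw [consL_zero, PiLp.add_apply, PiLp.smul_apply, PiLp.smul_apply, e0_zero]
    simp only [smul_eq_mul]
    ring
  · rw [tl_consL, tl_add, tl_smul, tl_smul, tl_e0, smul_zero, add_zero, smul_smul]

theorem pdAt_kap_piT {m : ℕ} {v : E (m + 1)} (hv : tl m v ≠ 0) : PDAt (m + 1) (fun w => kap m (piT m w)) v := by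
  have hfun : (fun w => kap m (piT m w)) = fun w : E (m + 1) =>
      (Real.exp (‖tl m w‖ * Real.cos (2 * Real.pi * w 0)) * ‖tl m w‖⁻¹) • w +
      (‖tl m w‖ * Real.sin (2 * Real.pi * w 0) -
        (Real.exp (‖tl m w‖ * Real.cos (2 * Real.pi * w 0)) * ‖tl m w‖⁻¹) * w 0) • e0 m := by
    funext w
    exact kap_piT m w
  rw [hfun]
  have hr : 0 < ‖tl m v‖ := norm_pos_iff.2 hv
  have dr := hasFDerivAt_normTl hv
  have sr := contDiffAt_normTl hv
  have d0 : HasFDerivAt (fun w : E (m + 1) => w 0) (hd m) v := (hd m).hasFDerivAt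
  have s0 : ContDiffAt ℝ ∞ (fun w : E (m + 1) => w 0) v := (hd m).contDiff.contDiffAt
  have d1 : HasFDerivAt (fun w : E (m + 1) => 2 * Real.pi * w 0) ((2 * Real.pi) • hd m) v :=
    d0.const_mul (2 * Real.pi)
  have s1 : ContDiffAt ℝ ∞ (fun w : E (m + 1) => 2 * Real.pi * w 0) v := contDiffAt_const.mul s0
  have dc := d1.cos
  have ds := d1.sin
  have dE := (dr.mul dc).exp
  have dri : HasFDerivAt (fun w : E (m + 1) => ‖tl m w‖⁻¹)
      ((-(‖tl m v‖ ^ 2)⁻¹) • (‖tl m v‖⁻¹ • (innerSL ℝ (tl m v)).comp (tlL m))) v :=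
    (hasDerivAt_inv hr.ne').comp_hasFDerivAt v dr
  have dg := dE.mul dri
  have dh := (dr.mul ds).sub (dg.mul d0)
  have sg : ContDiffAt ℝ ∞ (fun w : E (m + 1) =>
      Real.exp (‖tl m w‖ * Real.cos (2 * Real.pi * w 0)) * ‖tl m w‖⁻¹) v :=
    (sr.mul s1.cos).exp.mul (sr.inv hr.ne')
  have sh : ContDiffAt ℝ ∞ (fun w : E (m + 1) => ‖tl m w‖ * Real.sin (2 * Real.pi * w 0) -
      (Real.exp (‖tl m w‖ * Real.cos (2 * Real.pi * w 0)) * ‖tl m w‖⁻¹) * w 0) v :=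
    (sr.mul s1.sin).sub (sg.mul s0)
  refine pdAt_gh sg sh dg dh (by positivity) ?_
  simp only [add_apply, smul_apply, ContinuousLinearMap.comp_apply, Pi.mul_apply,
    sub_apply, smul_eq_mul, hd_apply, tlL_apply, innerSL_apply_apply, inner_tl_e0, e0_zero,
    real_inner_self_eq_norm_sq]
  set r := ‖tl m v‖ with hrdef
  set c := Real.cos (2 * Real.pi * v 0) with hc
  set s := Real.sin (2 * Real.pi * v 0) with hs
  set X := Real.exp (r * c) with hX
  have hX0 : 0 < X := Real.exp_pos _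
  have hcs : c ^ 2 + s ^ 2 = 1 := Real.cos_sq_add_sin_sq _
  have key : 0 < 2 * Real.pi * r ^ 2 * (X * r⁻¹) := by positivity
  refine lt_of_lt_of_eq key ?_
  field_simp
  linear_combination (-2 * Real.pi * r ^ 5) * hcs

end Pool.Agent.CSM
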