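import Pool.Agent.CSM.FE

/-!
(F2) The manifold `S^1 × S^m` as a union of two solid tori.
-/

open scoped Manifold ContDiff Topology
open Set

namespace Pool.Agent.CSM

/-- `S^1 × S^m`. -/
def YT (m : ℕ) : Type := AddCircle (1 : ℝ) × Sph m

instance (m : ℕ) : TopologicalSpace (YT m) := inferInstanceAs (TopologicalSpace (AddCircle (1 : ℝ) × Sph m))

instance (m : ℕ) : T2Space (YT m) := inferInstanceAs (T2Space (AddCircle (1 : ℝ) × Sph m))

instance (m : ℕ) : CompactSpace (YT m) := inferInstanceAs (CompactSpace (AddCircle (1 : ℝ) × Sph m))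

theorem connected_YT {m : ℕ} (hm : 1 ≤ m) : ConnectedSpace (YT m) := by
  have := connected_sph hm
  exact inferInstanceAs (ConnectedSpace (AddCircle (1 : ℝ) × Sph m))

theorem continuous_fstY (m : ℕ) : Continuous fun y : YT m => y.1 := continuous_fst

theorem continuous_sndY (m : ℕ) : Continuous fun y : YT m => y.2 := continuous_snd

/-- `id × s` for a parametrisation `s` of the sphere defined on all of `E m`. -/
noncomputable def ytP {m : ℕ} (s : OPH (E m) (Sph m)) (hs : s.source = univ) : OPH (T m) (YT m) where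
  toFun p := (p.1, s p.2)
  invFun y := (y.1, s.symm y.2)
  source := univ
  target := {y | y.2 ∈ s.target}
  map_source' p _ := s.map_source (by rw [hs]; trivial)
  map_target' _ _ := trivial
  left_inv' p _ := Prod.ext rfl (s.left_inv (by rw [hs]; trivial))
  right_inv' y hy := Prod.ext rfl (s.right_inv hy)
  open_source := isOpen_univ
  open_target := s.open_target.preimage (continuous_sndY m)
  continuousOn_toFun := by
    refine (continuous_fstT m).continuousOn.prodMk ?_
    refine s.continuousOn.comp (continuous_sndT m).continuousOn fun p _ => ?_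
    rw [hs]
    trivial
  continuousOn_invFun := by
    refine (continuous_fstY m).continuousOn.prodMk ?_
    exact s.continuousOn_symm.comp (continuous_sndY m).continuousOn fun y hy => hy

/-- First solid torus. -/
noncomputable def ytA (m : ℕ) : OPH (T m) (YT m) := ytP (sphI m) rfl

/-- Second solid torus. -/
noncomputable def ytB (m : ℕ) : OPH (T m) (YT m) := ytP (sphJ m) rfl

theorem ytA_apply {m : ℕ} (p : T m) : ytA m p = (p.1, sphI m p.2) := rfl

theorem ytB_apply {m : ℕ} (p : T m) : ytB m p = (p.1, sphJ m p.2) := rfl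

theorem ytA_symm_apply {m : ℕ} (y : YT m) : (ytA m).symm y = (y.1, (sphI m).symm y.2) := rfl

theorem ytB_symm_apply {m : ℕ} (y : YT m) : (ytB m).symm y = (y.1, (sphJ m).symm y.2) := rfl

theorem ytA_target (m : ℕ) : (ytA m).target = {y : YT m | sa y.2 ≠ -1} := rfl

theorem ytB_target (m : ℕ) : (ytB m).target = {y : YT m | sa y.2 ≠ 1} := rfl

theorem yt_glue {m : ℕ} {p : T m} (hp : p.2 ≠ 0) : ytA m p = ytB m (invT m p) := by
  have h := sph_glue hp
  rw [ytA_apply, ytB_apply, invT_apply]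
  rw [h]

theorem yt_cover {m : ℕ} (y : YT m) : y ∈ (ytA m).target ∨ y ∈ (ytB m).target := by
  by_cases h : sa y.2 = -1
  · right
    change sa y.2 ≠ 1
    rw [h]
    norm_num
  · exact Or.inl h

open Classical in
noncomputable instance instChYT (m : ℕ) : ChartedSpace (E (m + 1)) (YT m) where
  atlas := {e | ∃ a : ℝ, e = (ytA m).symm ≫ₕ chT m a ∨ e = (ytB m).symm ≫ₕ chT m a}
  chartAt y := if y ∈ (ytA m).target then
      (ytA m).symm ≫ₕ chT m (Function.surjInv QuotientAddGroup.mk_surjective ((ytA m).symm y).1 - 1 / 2)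
    else (ytB m).symm ≫ₕ chT m (Function.surjInv QuotientAddGroup.mk_surjective ((ytB m).symm y).1 - 1 / 2)
  mem_chart_source y := by
    by_cases h : y ∈ (ytA m).target
    · rw [if_pos h, OpenPartialHomeomorph.trans_source]
      exact ⟨h, exists_chT _⟩
    · rw [if_neg h, OpenPartialHomeomorph.trans_source]
      exact ⟨(yt_cover y).resolve_left h, exists_chT _⟩
  chart_mem_atlas y := by
    by_cases h : y ∈ (ytA m).target
    · rw [if_pos h]
      exact ⟨_, Or.inl rfl⟩
    · rw [if_neg h]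
      exact ⟨_, Or.inr rfl⟩

instance instGrYT (m : ℕ) : HasGroupoid (YT m) (orG (m + 1)) where
  compatible := by
    have key : ∀ (P Q : OPH (T m) (YT m)) (a b : ℝ), (∀ p ∈ (P ≫ₕ Q.symm).source, PDAt (m + 1) (P ≫ₕ Q.symm) p) →
        (P.symm ≫ₕ chT m a).symm ≫ₕ (Q.symm ≫ₕ chT m b) ∈ orG (m + 1) := by
      intro P Q a b h
      refine mem_orG_of_pdAt fun w hw => ?_
      have h1 : w ∈ (chT m a).target := by
        have := hw.1
        exact this.1
      have h2 : (chT m a).symm w ∈ P.source := hw.1.2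
      have h3 : P ((chT m a).symm w) ∈ Q.target := hw.2.1
      have h4 : Q.symm (P ((chT m a).symm w)) ∈ (chT m b).source := hw.2.2
      have g1 : PDAt (m + 1) (chT m a).symm w := (pd_chT m a).symm.pdAt h1
      have g2 : PDAt (m + 1) (P ≫ₕ Q.symm) ((chT m a).symm w) := h _ ⟨h2, h3⟩
      have g3 : PDAt (m + 1) (chT m b) (Q.symm (P ((chT m a).symm w))) := (pd_chT m b).pdAt h4
      exact PDAt.comp (f := (P ≫ₕ Q.symm) ∘ (chT m a).symm) g3 (PDAt.comp g2 g1)
    have kAA : ∀ (P : OPH (T m) (YT m)), ∀ p ∈ (P ≫ₕ P.symm).source, PDAt (m + 1) (P ≫ₕ P.symm) p := by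
      intro P p hp
      refine (pdAt_id p).congr (Filter.eventually_of_mem ((P ≫ₕ P.symm).open_source.mem_nhds hp) fun q hq => ?_)
      exact P.left_inv hq.1
    have kI : ∀ (G : OPH (T m) (T m)), (∀ q ∈ G.source, q.2 ≠ 0 ∧ G q = invT m q) →
        ∀ p ∈ G.source, PDAt (m + 1) G p := by
      intro G hG p hp
      refine ((pd_invT m).pdAt (x := p) (hG p hp).1).congr
        (Filter.eventually_of_mem (G.open_source.mem_nhds hp) fun q hq => (hG q hq).2)
    rintro e e' ⟨a, rfl | rfl⟩ ⟨b, rfl | rfl⟩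
    · exact key _ _ a b (kAA _)
    · refine key _ _ a b (kI _ fun q hq => ?_)
      have h1 : sa (sphI m q.2) ≠ 1 := hq.2
      have h2 : q.2 ≠ 0 := fun h => h1 (sa_sphI_eq_one.2 h)
      refine ⟨h2, ?_⟩
      change (ytB m).symm (ytA m q) = _
      rw [yt_glue h2]
      exact (ytB m).left_inv trivial
    · refine key _ _ a b (kI _ fun q hq => ?_)
      have h1 : sa (sphJ m q.2) ≠ -1 := hq.2
      have h2 : q.2 ≠ 0 := by
        intro h
        refine h1 ?_
        rw [h]
        change -((1 - ‖(0 : E m)‖ ^ 2) / (1 + ‖(0 : E m)‖ ^ 2)) = -1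
        simp
      refine ⟨h2, ?_⟩
      have h3 : ytA m (invT m q) = ytB m (invT m (invT m q)) := yt_glue (inv_ne_zero' m h2)
      have h4 : invT m (invT m q) = q := Prod.ext rfl (inv_inv' m q.2)
      rw [h4] at h3
      change (ytA m).symm (ytB m q) = _
      rw [← h3]
      exact (ytA m).left_inv trivial
    · exact key _ _ a b (kAA _)

theorem pd_of_yt {m : ℕ} {P : OPH (T m) (YT m)} (h : ∀ a, P.symm ≫ₕ chT m a ∈ atlas (E (m + 1)) (YT m)) :
    PD (m + 1) P := by
  rw [pd_iff]
  intro p hp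
  obtain ⟨v, rfl⟩ := exists_piT p
  have h1 : v 0 ∈ Ioo (v 0 - 1 / 2) (v 0 - 1 / 2 + 1) := ⟨by linarith, by linarith⟩
  have h2 : PD (m + 1) (P.symm ≫ₕ chT m (v 0 - 1 / 2)).symm := (pd_chart (h _)).symm
  have h3 : v ∈ (P.symm ≫ₕ chT m (v 0 - 1 / 2)).symm.source := by
    refine ⟨(chT_target_iff m _ v).2 h1, ?_⟩
    exact hp
  exact PDAt.of_piT (h2.pdAt h3)

/-- (F2) -/
theorem isS1S_YT (m : ℕ) : IsS1S m (ytA m) (ytB m) where
  pdA := pd_of_yt fun a => ⟨a, Or.inl rfl⟩
  pdB := pd_of_yt fun a => ⟨a, Or.inr rfl⟩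
  sA := rfl
  sB := rfl
  cover := eq_univ_iff_forall.2 yt_cover
  inter := by
    ext y
    constructor
    · rintro ⟨h1, h2⟩
      refine ⟨(ytA m).symm y, ?_, (ytA m).right_inv h1⟩
      intro h3
      have h4 : sa (sphI m ((sphI m).symm y.2)) = 1 := sa_sphI_eq_one.2 h3
      rw [(sphI m).right_inv h1] at h4
      exact h2 h4
    · rintro ⟨p, hp, rfl⟩
      exact ⟨(ytA m).map_source trivial, fun h => hp (sa_sphI_eq_one.1 h)⟩
  glue θ x hx := yt_glue (p := mkT θ x) hx

/-- (F2) -/
theorem exists_S1S (m : ℕ) (hm : 1 ≤ m) : ∃ (Y : OMan (m + 1)) (A B : OPH (T m) Y), IsS1S m A B := by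
  have := connected_YT hm
  exact ⟨{ carrier := YT m }, ytA m, ytB m, isS1S_YT m⟩

end Pool.Agent.CSM
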