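import Pool.Agent.CSM.FI
import Pool.Agent.CSM.Circ

/-!
(F, module FJ) The solid torus `t0 : T m → Sph (m+1)` in the standard sphere.
-/

open scoped Manifold ContDiff Topology
open Set

namespace Pool.Agent.CSM

/-- `√(1 + |x|²)` -/
noncomputable def rr {m : ℕ} (x : E m) : ℝ := Real.sqrt (1 + ‖x‖ ^ 2)

theorem rr_pos {m : ℕ} (x : E m) : 0 < rr x := Real.sqrt_pos.2 (by positivity)

theorem rr_sq {m : ℕ} (x : E m) : rr x ^ 2 = 1 + ‖x‖ ^ 2 := Real.sq_sqrt (by positivity)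

theorem one_le_rr {m : ℕ} (x : E m) : 1 ≤ rr x := by
  have h1 := rr_sq x
  have h2 := rr_pos x
  nlinarith [sq_nonneg ‖x‖]

theorem continuous_rr (m : ℕ) : Continuous (rr : E m → ℝ) := by
  have : Continuous fun x : E m => Real.sqrt (1 + ‖x‖ ^ 2) := by fun_prop
  exact this

theorem hasFDerivAt_rr {m : ℕ} (v : E (m + 1)) :
    HasFDerivAt (fun w : E (m + 1) => rr (tl m w)) ((rr (tl m v))⁻¹ • (innerSL ℝ (tl m v)).comp (tlL m)) v := by
  have h1 : HasFDerivAt (fun w : E (m + 1) => 1 + ‖tl m w‖ ^ 2) ((2 • innerSL ℝ (tl m v)).comp (tlL m)) v := by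
    refine HasFDerivAt.const_add 1 ?_
    exact HasFDerivAt.comp (g := fun x : E m => ‖x‖ ^ 2) v (hasStrictFDerivAt_norm_sq (tl m v)).hasFDerivAt
      (tlL m).hasFDerivAt
  have h0 : (1 + ‖tl m v‖ ^ 2 : ℝ) ≠ 0 := by positivity
  have h2 := h1.sqrt h0
  have h4 : (1 / (2 * Real.sqrt (1 + ‖tl m v‖ ^ 2))) • ((2 • innerSL ℝ (tl m v)).comp (tlL m)) =
      (rr (tl m v))⁻¹ • (innerSL ℝ (tl m v)).comp (tlL m) := by
    have h5 : Real.sqrt (1 + ‖tl m v‖ ^ 2) = rr (tl m v) := rfl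
    have h6 := (rr_pos (tl m v)).ne'
    ext1 ξ
    simp only [smul_apply, ContinuousLinearMap.comp_apply, smul_eq_mul, nsmul_eq_mul, h5]
    push_cast
    field_simp
  rw [h4] at h2
  exact h2

theorem contDiffAt_rr {m : ℕ} (v : E (m + 1)) : ContDiffAt ℝ ∞ (fun w : E (m + 1) => rr (tl m w)) v := by
  have h0 : (1 + ‖tl m v‖ ^ 2 : ℝ) ≠ 0 := by positivity
  have h1 : ContDiffAt ℝ ∞ (fun w : E (m + 1) => 1 + ‖tl m w‖ ^ 2) v :=
    contDiffAt_const.add (ContDiffAt.comp (g := fun x : E m => ‖x‖ ^ 2) v (contDiff_norm_sq ℝ).contDiffAt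
      (tlL m).contDiff.contDiffAt)
  exact h1.sqrt h0

/-! ### The map -/

theorem t0_sq' {m : ℕ} (z : AddCircle (1 : ℝ)) (x : E m) :
    ((rr x)⁻¹ * tcos z) ^ 2 + ‖(rr x)⁻¹ • consL m (tsin z, x)‖ ^ 2 = 1 := by
  have h1 := rr_sq x
  have h2 := (rr_pos x).ne'
  have h3 : ‖(rr x)⁻¹ • consL m (tsin z, x)‖ ^ 2 = ((rr x)⁻¹) ^ 2 * (tsin z ^ 2 + ‖x‖ ^ 2) := by
    rw [norm_smul, mul_pow, norm_sq_consL, consL_zero, tl_consL, Real.norm_eq_abs, sq_abs]
  have h4 := tcos_sq_add z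
  rw [h3]
  field_simp
  linear_combination h4 - h1

theorem t0_sq {m : ℕ} (p : T m) :
    ((rr p.2)⁻¹ * tcos p.1) ^ 2 + ‖(rr p.2)⁻¹ • consL m (tsin p.1, p.2)‖ ^ 2 = 1 := t0_sq' p.1 p.2

/-- A solid torus in the sphere. -/
noncomputable def t0 (m : ℕ) : OPH (T m) (Sph (m + 1)) where
  toFun p := spt ((rr p.2)⁻¹ * tcos p.1) ((rr p.2)⁻¹ • consL m (tsin p.1, p.2)) (t0_sq p)
  invFun y := (ang (sa y) ((sb y) 0), (Real.sqrt (sa y ^ 2 + (sb y) 0 ^ 2))⁻¹ • tl m (sb y))
  source := univ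
  target := {y | ¬(sa y = 0 ∧ (sb y) 0 = 0)}
  map_source' := by
    intro p _
    have h : ¬((rr p.2)⁻¹ * tcos p.1 = 0 ∧ (rr p.2)⁻¹ * tsin p.1 = 0) :=
      smul_circ_ne (inv_pos.2 (rr_pos p.2)) p.1
    exact h
  map_target' _ _ := trivial
  left_inv' := by
    intro p _
    have h0 : 0 < (rr p.2)⁻¹ := inv_pos.2 (rr_pos p.2)
    have h1 : ((rr p.2)⁻¹ • consL m (tsin p.1, p.2)) 0 = (rr p.2)⁻¹ * tsin p.1 := rfl
    refine Prod.ext ?_ ?_
    · rw [sa_spt, sb_spt, h1]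
      exact ang_smul h0 p.1
    · rw [sa_spt, sb_spt, h1, sqrt_smul_circ h0.le, tl_smul, tl_consL, smul_smul,
        inv_mul_cancel₀ h0.ne', one_smul]
  right_inv' := by
    intro y hy
    have h0 := sqrt_pos' hy
    set q := Real.sqrt (sa y ^ 2 + (sb y) 0 ^ 2) with hq
    have h1 : q ^ 2 = sa y ^ 2 + (sb y) 0 ^ 2 := Real.sq_sqrt (by positivity)
    have h2 : q ^ 2 + ‖tl m (sb y)‖ ^ 2 = 1 := by
      have := s_sq y
      rw [norm_sq_consL] at this
      rw [h1]
      linarith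
    have h3 : rr (q⁻¹ • tl m (sb y)) = q⁻¹ := by
      have h4 : 1 + ‖q⁻¹ • tl m (sb y)‖ ^ 2 = (q⁻¹) ^ 2 := by
        rw [norm_smul, mul_pow, Real.norm_eq_abs, sq_abs]
        have h5 : ‖tl m (sb y)‖ ^ 2 = 1 - q ^ 2 := by linarith
        rw [h5]
        field_simp
        ring
      rw [rr, h4, Real.sqrt_sq (inv_nonneg.2 h0.le)]
    refine s_ext ?_ ?_
    · rw [sa_spt, h3, inv_inv]
      exact tcos_ang hy
    · rw [sb_spt, h3, inv_inv]
      refine consL_ext ?_ ?_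
      · exact tsin_ang hy
      · rw [tl_smul, tl_consL, smul_smul, mul_inv_cancel₀ h0.ne', one_smul]
  open_source := isOpen_univ
  open_target := by
    have h1 : IsClosed {y : Sph (m + 1) | sa y = 0 ∧ (sb y) 0 = 0} :=
      (isClosed_eq (continuous_sa _) continuous_const).inter
        (isClosed_eq ((hd m).continuous.comp (continuous_sb _)) continuous_const)
    exact h1.isOpen_compl
  continuousOn_toFun := by
    have c1 : Continuous fun p : T m => (rr p.2)⁻¹ :=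
      ((continuous_rr m).comp (continuous_sndT m)).inv₀ fun p => (rr_pos p.2).ne'
    have c2 : Continuous fun p : T m => tcos p.1 := continuous_tcos.comp (continuous_fstT m)
    have c3 : Continuous fun p : T m => tsin p.1 := continuous_tsin.comp (continuous_fstT m)
    exact continuousOn_spt _ (c1.mul c2).continuousOn
      (c1.smul ((consL m).continuous.comp (c3.prodMk (continuous_sndT m)))).continuousOn
  continuousOn_invFun := by
    intro y hy
    refine ContinuousAt.continuousWithinAt ?_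
    have c1 : ContinuousAt (sa : Sph (m + 1) → ℝ) y := (continuous_sa _).continuousAt
    have c2 : ContinuousAt (fun y : Sph (m + 1) => (sb y) 0) y :=
      ((hd m).continuous.comp (continuous_sb _)).continuousAt
    have c3 : ContinuousAt (fun y : Sph (m + 1) => ang (sa y) ((sb y) 0)) y :=
      ContinuousAt.comp (f := fun y : Sph (m + 1) => (sa y, (sb y) 0)) (x := y)
        (continuousAt_ang (p := (sa y, (sb y) 0)) hy) (c1.prodMk c2)
    refine c3.prodMk ?_
    exact (((c1.pow 2).add (c2.pow 2)).sqrt.inv₀ (sqrt_pos' hy).ne').smul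
      ((continuous_tl m).comp (continuous_sb _)).continuousAt

theorem sa_t0 {m : ℕ} (p : T m) : sa (t0 m p) = (rr p.2)⁻¹ * tcos p.1 := rfl

theorem sb_t0 {m : ℕ} (p : T m) : sb (t0 m p) = (rr p.2)⁻¹ • consL m (tsin p.1, p.2) := sb_spt (t0_sq p)

theorem t0_source (m : ℕ) : (t0 m).source = univ := rfl

theorem t0_target (m : ℕ) : (t0 m).target = {y | ¬(sa y = 0 ∧ (sb y) 0 = 0)} := rfl

/-! ### It is orientation preserving -/

/-- The map in the stereographic chart. -/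
noncomputable def that (m : ℕ) (v : E (m + 1)) : E (m + 1) :=
  (rr (tl m v) + Real.cos (2 * Real.pi * v 0))⁻¹ • consL m (Real.sin (2 * Real.pi * v 0), tl m v)

theorem that_eq (m : ℕ) (v : E (m + 1)) : that m v =
    (rr (tl m v) + Real.cos (2 * Real.pi * v 0))⁻¹ • v +
      ((rr (tl m v) + Real.cos (2 * Real.pi * v 0))⁻¹ * (Real.sin (2 * Real.pi * v 0) - v 0)) • e0 m := by
  rw [that]
  refine consL_ext ?_ ?_
  · rw [PiLp.smul_apply, consL_zero, PiLp.add_apply, PiLp.smul_apply, PiLp.smul_apply, e0_zero]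
    simp only [smul_eq_mul]
    ring
  · rw [tl_smul, tl_consL, tl_add, tl_smul, tl_smul, tl_e0, smul_zero, add_zero]

theorem pdAt_that {m : ℕ} {v : E (m + 1)} (h : rr (tl m v) + Real.cos (2 * Real.pi * v 0) ≠ 0) :
    PDAt (m + 1) (that m) v := by
  have hfun : that m = fun w : E (m + 1) => (rr (tl m w) + Real.cos (2 * Real.pi * w 0))⁻¹ • w +
      ((rr (tl m w) + Real.cos (2 * Real.pi * w 0))⁻¹ * (Real.sin (2 * Real.pi * w 0) - w 0)) • e0 m :=
    funext (that_eq m)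
  rw [hfun]
  have hQ : 0 < rr (tl m v) + Real.cos (2 * Real.pi * v 0) := by
    have h1 := one_le_rr (tl m v)
    have h2 := Real.neg_one_le_cos (2 * Real.pi * v 0)
    exact lt_of_le_of_ne (by linarith) h.symm
  have dR := hasFDerivAt_rr v
  have sR := contDiffAt_rr v
  have d0 : HasFDerivAt (fun w : E (m + 1) => w 0) (hd m) v := (hd m).hasFDerivAt
  have s0 : ContDiffAt ℝ ∞ (fun w : E (m + 1) => w 0) v := (hd m).contDiff.contDiffAt
  have d1 : HasFDerivAt (fun w : E (m + 1) => 2 * Real.pi * w 0) ((2 * Real.pi) • hd m) v :=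
    d0.const_mul (2 * Real.pi)
  have s1 : ContDiffAt ℝ ∞ (fun w : E (m + 1) => 2 * Real.pi * w 0) v := contDiffAt_const.mul s0
  have dc := d1.cos
  have ds := d1.sin
  have dQ := dR.add dc
  have dg : HasFDerivAt (fun w : E (m + 1) => (rr (tl m w) + Real.cos (2 * Real.pi * w 0))⁻¹) _ v :=
    (hasDerivAt_inv h).comp_hasFDerivAt v dQ
  have dh := dg.mul (ds.sub d0)
  have sg : ContDiffAt ℝ ∞ (fun w : E (m + 1) => (rr (tl m w) + Real.cos (2 * Real.pi * w 0))⁻¹) v :=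
    (sR.add s1.cos).inv h
  have sh : ContDiffAt ℝ ∞ (fun w : E (m + 1) => (rr (tl m w) + Real.cos (2 * Real.pi * w 0))⁻¹ *
      (Real.sin (2 * Real.pi * w 0) - w 0)) v := sg.mul (s1.sin.sub s0)
  refine pdAt_gh sg sh dg dh (inv_pos.2 hQ) ?_
  simp only [add_apply, smul_apply, ContinuousLinearMap.comp_apply, Pi.sub_apply,
    sub_apply, smul_eq_mul, hd_apply, tlL_apply, innerSL_apply_apply, inner_tl_e0, e0_zero,
    real_inner_self_eq_norm_sq]
  have hR := rr_sq (tl m v)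
  have hRpos := rr_pos (tl m v)
  have hr : ‖tl m v‖ ^ 2 = rr (tl m v) ^ 2 - 1 := by linarith
  rw [hr]
  set R := rr (tl m v) with hRdef
  set c := Real.cos (2 * Real.pi * v 0) with hc
  set s := Real.sin (2 * Real.pi * v 0) with hs
  have hcs : c ^ 2 + s ^ 2 = 1 := Real.cos_sq_add_sin_sq _
  have key : 0 < 2 * Real.pi / ((R + c) ^ 2 * R) := by positivity
  refine lt_of_lt_of_eq key ?_
  field_simp
  linear_combination (-2 * Real.pi * R ^ 2 * (R + c)) * hcs

end Pool.Agent.CSM
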