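import Pool.Agent.CSM.FJ

/-!
(F, module FK) `t0` is orientation preserving.
-/

open scoped Manifold ContDiff Topology
open Set

namespace Pool.Agent.CSM

theorem sa_t0_piT {m : ℕ} (v : E (m + 1)) :
    sa (t0 m (piT m v)) = (rr (tl m v))⁻¹ * Real.cos (2 * Real.pi * v 0) := by
  rw [sa_t0, piT, mkT_fst, mkT_snd, tcos_coe]

theorem sb_t0_piT {m : ℕ} (v : E (m + 1)) :
    sb (t0 m (piT m v)) = (rr (tl m v))⁻¹ • consL m (Real.sin (2 * Real.pi * v 0), tl m v) := by
  rw [sb_t0, piT, mkT_fst, mkT_snd, tsin_coe]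

theorem sphI_symm_t0 {m : ℕ} (v : E (m + 1)) : (sphI (m + 1)).symm (t0 m (piT m v)) = that m v := by
  rw [sphI_symm_apply, sa_t0_piT, sb_t0_piT, that, smul_smul, ← mul_inv]
  congr 2
  have := (rr_pos (tl m v)).ne'
  field_simp

theorem sphJ_symm_t0 {m : ℕ} (v : E (m + 1)) :
    (sphJ (m + 1)).symm (t0 m (piT m v)) = that m (v + consL m (1 / 2, 0)) := by
  have h1 : (v + consL m (1 / 2, 0)) 0 = v 0 + 1 / 2 := rfl
  have h2 : tl m (v + consL m (1 / 2, 0)) = tl m v := by rw [tl_add, tl_consL, add_zero]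
  have h3 : 2 * Real.pi * (v 0 + 1 / 2) = 2 * Real.pi * v 0 + Real.pi := by ring
  rw [that, h1, h2, h3, Real.cos_add_pi, Real.sin_add_pi, sphJ_symm_apply, sa_t0_piT, sb_t0_piT, rho_smul,
    rho_succ, consL_zero, tl_consL, smul_smul, ← mul_inv]
  congr 2
  have := (rr_pos (tl m v)).ne'
  field_simp
  ring

theorem pdAt_of_stereo {n : ℕ} {X : Type*} [TopologicalSpace X] [ChartedSpace (E n) X] {s : OPH (E n) (Sph n)}
    (hs : PD n s) (hsu : s.source = univ) {f : X → Sph n} {x : X} (hf : ContinuousAt f x) (hx : f x ∈ s.target)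
    (h : PDAt n (fun w => s.symm (f w)) x) : PDAt n f x := by
  have h1 : PDAt n (fun w => s (s.symm (f w))) x :=
    PDAt.comp (f := fun w => s.symm (f w)) (hs.pdAt (by rw [hsu]; trivial)) h
  refine h1.congr ?_
  filter_upwards [hf.eventually (s.open_target.mem_nhds hx)] with w hw
  exact (s.right_inv hw).symm

theorem pd_t0 (m : ℕ) : PD (m + 1) (t0 m) := by
  rw [pd_iff]
  intro p _
  obtain ⟨v, rfl⟩ := exists_piT p
  refine PDAt.of_piT ?_
  have hc : ContinuousAt (t0 m ∘ piT m) v := by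
    have h1 : Continuous (t0 m) := by
      have := (t0 m).continuousOn
      rwa [t0_source, continuousOn_univ] at this
    exact (h1.comp (continuous_piT m)).continuousAt
  have hR := rr_pos (tl m v)
  by_cases h : sa (t0 m (piT m v)) = -1
  · refine pdAt_of_stereo (pd_sphJ (m + 1)) rfl hc ?_ ?_
    · rw [mem_sphJ_target, Function.comp_apply, h]
      norm_num
    · have h1 : (fun w => (sphJ (m + 1)).symm ((t0 m ∘ piT m) w)) = fun w => that m (w + consL m (1 / 2, 0)) :=
        funext fun w => sphJ_symm_t0 w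
      rw [h1]
      refine PDAt.comp (g := that m) (f := fun w => w + consL m (1 / 2, 0)) (pdAt_that ?_) (pdAt_add_const _ _)
      have h2 : (v + consL m (1 / 2, 0)) 0 = v 0 + 1 / 2 := rfl
      have h3 : tl m (v + consL m (1 / 2, 0)) = tl m v := by rw [tl_add, tl_consL, add_zero]
      have h4 : 2 * Real.pi * (v 0 + 1 / 2) = 2 * Real.pi * v 0 + Real.pi := by ring
      rw [h2, h3, h4, Real.cos_add_pi]
      rw [sa_t0_piT] at h
      have h5 : Real.cos (2 * Real.pi * v 0) = - rr (tl m v) := by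
        field_simp at h
        linarith
      rw [h5]
      intro h6
      linarith
  · refine pdAt_of_stereo (pd_sphI (m + 1)) rfl hc h ?_
    have h1 : (fun w => (sphI (m + 1)).symm ((t0 m ∘ piT m) w)) = that m := funext fun w => sphI_symm_t0 w
    rw [h1]
    refine pdAt_that fun h2 => h ?_
    rw [sa_t0_piT]
    field_simp
    linarith

end Pool.Agent.CSM
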