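import Pool.Agent.CSM.FK

/-!
(F, module FL) The other piece of the sphere: the map `dhat : E (m+1) → E (m+1)` (in the stereographic chart) with
source and target `{v | tl m v ≠ 0}`, orientation preserving for `1 ≤ m`.
-/

open scoped Manifold ContDiff Topology
open Set

namespace Pool.Agent.CSM

/-- `√(1 + log² ‖tl v‖ + v₀²)` -/
noncomputable def ww {m : ℕ} (v : E (m + 1)) : ℝ := Real.sqrt (1 + Real.log ‖tl m v‖ ^ 2 + v 0 ^ 2)

theorem ww_sq {m : ℕ} (v : E (m + 1)) : ww v ^ 2 = 1 + Real.log ‖tl m v‖ ^ 2 + v 0 ^ 2 :=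
  Real.sq_sqrt (by positivity)

theorem ww_pos {m : ℕ} (v : E (m + 1)) : 0 < ww v := Real.sqrt_pos.2 (by positivity)

theorem qq_pos {m : ℕ} (v : E (m + 1)) : 0 < ww v + Real.log ‖tl m v‖ := by
  have h1 := ww_sq v
  have h2 := ww_pos v
  by_contra h
  push Not at h
  nlinarith [sq_nonneg (v 0)]

/-- The map without the reflections. -/
noncomputable def dtil (m : ℕ) (v : E (m + 1)) : E (m + 1) :=
  (ww v + Real.log ‖tl m v‖)⁻¹ • consL m (-v 0, ‖tl m v‖⁻¹ • tl m v)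

theorem dtil_eq (m : ℕ) (v : E (m + 1)) : dtil m v =
    ((ww v + Real.log ‖tl m v‖)⁻¹ * ‖tl m v‖⁻¹) • v +
      (-((ww v + Real.log ‖tl m v‖)⁻¹ * v 0) - ((ww v + Real.log ‖tl m v‖)⁻¹ * ‖tl m v‖⁻¹) * v 0) • e0 m := by
  rw [dtil]
  refine consL_ext ?_ ?_
  · rw [PiLp.smul_apply, consL_zero, PiLp.add_apply, PiLp.smul_apply, PiLp.smul_apply, e0_zero]
    simp only [smul_eq_mul]
    ring
  · rw [tl_smul, tl_consL, tl_add, tl_smul, tl_smul, tl_e0, smul_zero, add_zero, smul_smul]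

theorem pdAt_dtil {m : ℕ} {v : E (m + 1)} (hv : tl m v ≠ 0) : PDAt (m + 1) (dtil m) v := by
  have hfun : dtil m = fun w : E (m + 1) => ((ww w + Real.log ‖tl m w‖)⁻¹ * ‖tl m w‖⁻¹) • w +
      (-((ww w + Real.log ‖tl m w‖)⁻¹ * w 0) - ((ww w + Real.log ‖tl m w‖)⁻¹ * ‖tl m w‖⁻¹) * w 0) • e0 m :=
    funext (dtil_eq m)
  rw [hfun]
  have ha : 0 < ‖tl m v‖ := norm_pos_iff.2 hv
  have hQ := qq_pos v
  have hW := ww_pos v
  have da := hasFDerivAt_normTl hv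
  have sa := contDiffAt_normTl hv
  have d0 : HasFDerivAt (fun w : E (m + 1) => w 0) (hd m) v := (hd m).hasFDerivAt
  have s0 : ContDiffAt ℝ ∞ (fun w : E (m + 1) => w 0) v := (hd m).contDiff.contDiffAt
  have dl := da.log ha.ne'
  have sl : ContDiffAt ℝ ∞ (fun w : E (m + 1) => Real.log ‖tl m w‖) v := sa.log ha.ne'
  have h0 : (1 + Real.log ‖tl m v‖ ^ 2 + v 0 ^ 2 : ℝ) ≠ 0 := by positivity
  have dW2 : HasFDerivAt (fun w : E (m + 1) => 1 + Real.log ‖tl m w‖ ^ 2 + w 0 ^ 2) _ v :=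
    ((dl.pow 2).const_add 1).add (d0.pow 2)
  have dW : HasFDerivAt (ww : E (m + 1) → ℝ) _ v := dW2.sqrt h0
  have sW : ContDiffAt ℝ ∞ (ww : E (m + 1) → ℝ) v :=
    ((contDiffAt_const.add (sl.pow 2)).add (s0.pow 2)).sqrt h0
  have dQ := dW.add dl
  have dQi : HasFDerivAt (fun w : E (m + 1) => (ww w + Real.log ‖tl m w‖)⁻¹) _ v :=
    (hasDerivAt_inv hQ.ne').comp_hasFDerivAt v dQ
  have sQi : ContDiffAt ℝ ∞ (fun w : E (m + 1) => (ww w + Real.log ‖tl m w‖)⁻¹) v := (sW.add sl).inv hQ.ne'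
  have dai : HasFDerivAt (fun w : E (m + 1) => ‖tl m w‖⁻¹) _ v := (hasDerivAt_inv ha.ne').comp_hasFDerivAt v da
  have sai : ContDiffAt ℝ ∞ (fun w : E (m + 1) => ‖tl m w‖⁻¹) v := sa.inv ha.ne'
  have dg := dQi.mul dai
  have dh := (dQi.mul d0).neg.sub (dg.mul d0)
  have sg : ContDiffAt ℝ ∞ (fun w : E (m + 1) => (ww w + Real.log ‖tl m w‖)⁻¹ * ‖tl m w‖⁻¹) v := sQi.mul sai
  have sh : ContDiffAt ℝ ∞ (fun w : E (m + 1) => -((ww w + Real.log ‖tl m w‖)⁻¹ * w 0) -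
      ((ww w + Real.log ‖tl m w‖)⁻¹ * ‖tl m w‖⁻¹) * w 0) v := (sQi.mul s0).neg.sub (sg.mul s0)
  refine pdAt_gh sg sh dg dh (by positivity) ?_
  have hWW : Real.sqrt (1 + Real.log ‖tl m v‖ ^ 2 + v 0 ^ 2) = ww v := rfl
  simp only [add_apply, smul_apply, ContinuousLinearMap.comp_apply, Pi.mul_apply, neg_apply,
    sub_apply, smul_eq_mul, hd_apply, tlL_apply, innerSL_apply_apply, inner_tl_e0, e0_zero,
    real_inner_self_eq_norm_sq, hWW]
  set a := ‖tl m v‖ with hadef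
  set l := Real.log a with hl
  set W := ww v with hWdef
  have key : 0 < 1 / ((W + l) ^ 2 * a * W) := by positivity
  refine lt_of_lt_of_eq key ?_
  field_simp
  ring

end Pool.Agent.CSM
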