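import Pool.Agent.CSM.FL

/-!
(F, module FM) The double reflection `rho2` and the open partial homeomorphism `dhat`.
-/

open scoped Manifold ContDiff Topology
open Set

namespace Pool.Agent.CSM

/-- `(s, x) ↦ (s, ρ x)` as a continuous linear map. -/
noncomputable def rho1 (m : ℕ) : E (m + 1) →L[ℝ] E (m + 1) :=
  (consL m : (ℝ × E m) →L[ℝ] E (m + 1)).comp ((hd m).prod
    (((rhoL m).toContinuousLinearEquiv : E m →L[ℝ] E m).comp (tlL m)))

theorem rho1_apply (m : ℕ) (v : E (m + 1)) : rho1 m v = consL m (v 0, rho m (tl m v)) := rfl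

theorem det_rho1 {m : ℕ} (hm : 1 ≤ m) : (rho1 m).det = -1 := by
  rw [← det_rho hm]
  refine det_tri (w := 0) fun ξ => ?_
  rw [rho1_apply, smul_zero, zero_add]
  rfl

/-- `(s, x) ↦ (-s, ρ x)` as a continuous linear map. -/
noncomputable def rho2 (m : ℕ) : E (m + 1) →L[ℝ] E (m + 1) :=
  ((rhoL (m + 1)).toContinuousLinearEquiv : E (m + 1) →L[ℝ] E (m + 1)).comp (rho1 m)

theorem rho2_apply (m : ℕ) (v : E (m + 1)) : rho2 m v = consL m (-v 0, rho m (tl m v)) := by
  have h : rho2 m v = rho (m + 1) (rho1 m v) := rfl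
  rw [h, rho1_apply, rho_succ, consL_zero, tl_consL]

theorem det_rho2 {m : ℕ} (hm : 1 ≤ m) : (rho2 m).det = 1 := by
  have h1 : (((rhoL (m + 1)).toContinuousLinearEquiv : E (m + 1) →L[ℝ] E (m + 1))).det = -1 :=
    det_rho (n := m + 1) (by omega)
  rw [rho2, det_comp', det_rho1 hm, h1]
  norm_num

/-- The second piece of the sphere in the stereographic chart. -/
noncomputable def dhat (m : ℕ) : OPH (E (m + 1)) (E (m + 1)) where
  toFun v := (ww v + Real.log ‖tl m v‖)⁻¹ • consL m (v 0, ‖tl m v‖⁻¹ • rho m (tl m v))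
  invFun u := consL m (u 0 * ‖tl m u‖⁻¹,
    (Real.exp ((1 - ‖u‖ ^ 2) * (2 * ‖tl m u‖)⁻¹) * ‖tl m u‖⁻¹) • rho m (tl m u))
  source := {v | tl m v ≠ 0}
  target := {u | tl m u ≠ 0}
  map_source' := by
    intro v hv
    have hv' : tl m v ≠ 0 := hv
    have ha : 0 < ‖tl m v‖ := norm_pos_iff.2 hv
    have hQ := qq_pos v
    change tl m ((ww v + Real.log ‖tl m v‖)⁻¹ • consL m (v 0, ‖tl m v‖⁻¹ • rho m (tl m v))) ≠ 0
    rw [tl_smul, tl_consL]
    refine smul_ne_zero (inv_ne_zero hQ.ne') (smul_ne_zero (inv_ne_zero ha.ne') ?_)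
    rwa [Ne, rho_eq_zero]
  map_target' := by
    intro u hu
    have hu' : tl m u ≠ 0 := hu
    have ha : 0 < ‖tl m u‖ := norm_pos_iff.2 hu
    change tl m (consL m (_, (Real.exp ((1 - ‖u‖ ^ 2) * (2 * ‖tl m u‖)⁻¹) * ‖tl m u‖⁻¹) • rho m (tl m u))) ≠ 0
    rw [tl_consL]
    refine smul_ne_zero (mul_ne_zero (Real.exp_ne_zero _) (inv_ne_zero ha.ne')) ?_
    rwa [Ne, rho_eq_zero]
  left_inv' := by
    intro v hv
    have ha : 0 < ‖tl m v‖ := norm_pos_iff.2 hv
    have hQ := qq_pos v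
    have hW := ww_pos v
    have hWs := ww_sq v
    have h1 : ‖(ww v + Real.log ‖tl m v‖)⁻¹ • ‖tl m v‖⁻¹ • rho m (tl m v)‖ = (ww v + Real.log ‖tl m v‖)⁻¹ := by
      rw [norm_smul, norm_smul, norm_rho, Real.norm_of_nonneg (inv_nonneg.2 hQ.le),
        Real.norm_of_nonneg (inv_nonneg.2 ha.le), inv_mul_cancel₀ ha.ne', mul_one]
    have h2 : ((ww v + Real.log ‖tl m v‖)⁻¹ • consL m (v 0, ‖tl m v‖⁻¹ • rho m (tl m v))) 0 =
        (ww v + Real.log ‖tl m v‖)⁻¹ * v 0 := rfl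
    have h3 : (1 - ‖(ww v + Real.log ‖tl m v‖)⁻¹ • consL m (v 0, ‖tl m v‖⁻¹ • rho m (tl m v))‖ ^ 2) *
        (2 * (ww v + Real.log ‖tl m v‖)⁻¹)⁻¹ = Real.log ‖tl m v‖ := by
      rw [norm_sq_consL, h2, tl_smul, tl_consL, h1]
      field_simp
      linear_combination hWs
    refine consL_ext ?_ ?_
    · rw [consL_zero, h2, tl_smul, tl_consL, h1, inv_inv]
      field_simp
    · rw [tl_consL]
      rw [tl_smul, tl_consL, h1, h3, Real.exp_log ha, rho_smul, rho_smul, rho_rho, smul_smul, smul_smul,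
        inv_inv]
      have h4 : ‖tl m v‖ * (ww v + Real.log ‖tl m v‖) * (ww v + Real.log ‖tl m v‖)⁻¹ * ‖tl m v‖⁻¹ = 1 := by
        field_simp
      rw [h4, one_smul]
  right_inv' := by
    intro u hu
    have ha : 0 < ‖tl m u‖ := norm_pos_iff.2 hu
    set l := (1 - ‖u‖ ^ 2) * (2 * ‖tl m u‖)⁻¹ with hl
    have h1 : ‖(Real.exp l * ‖tl m u‖⁻¹) • rho m (tl m u)‖ = Real.exp l := by
      rw [norm_smul, norm_rho, Real.norm_of_nonneg (by positivity), mul_assoc, inv_mul_cancel₀ ha.ne', mul_one]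
    have h2 : ww (consL m (u 0 * ‖tl m u‖⁻¹, (Real.exp l * ‖tl m u‖⁻¹) • rho m (tl m u))) =
        (1 + ‖u‖ ^ 2) * (2 * ‖tl m u‖)⁻¹ := by
      have h3 : 1 + l ^ 2 + (u 0 * ‖tl m u‖⁻¹) ^ 2 = ((1 + ‖u‖ ^ 2) * (2 * ‖tl m u‖)⁻¹) ^ 2 := by
        rw [hl, norm_sq_consL]
        field_simp
        ring
      rw [ww, tl_consL, h1, Real.log_exp, consL_zero, h3, Real.sqrt_sq (by positivity)]
    have h4 : (1 + ‖u‖ ^ 2) * (2 * ‖tl m u‖)⁻¹ + l = ‖tl m u‖⁻¹ := by
      rw [hl]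
      field_simp
      ring
    rw [h2, tl_consL, h1, Real.log_exp, h4, inv_inv]
    refine consL_ext ?_ ?_
    · rw [PiLp.smul_apply, consL_zero, consL_zero, smul_eq_mul]
      field_simp
    · rw [tl_smul, tl_consL, rho_smul, rho_rho, smul_smul, smul_smul]
      have h5 : ‖tl m u‖ * (Real.exp l)⁻¹ * (Real.exp l * ‖tl m u‖⁻¹) = 1 := by
        have := Real.exp_ne_zero l
        field_simp
      rw [h5, one_smul]
  open_source := isOpen_ne_fun (continuous_tl m) continuous_const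
  open_target := isOpen_ne_fun (continuous_tl m) continuous_const
  continuousOn_toFun := by
    intro v hv
    refine ContinuousAt.continuousWithinAt ?_
    have ha : 0 < ‖tl m v‖ := norm_pos_iff.2 hv
    have c1 : ContinuousAt (fun v : E (m + 1) => ‖tl m v‖) v := (continuous_tl m).norm.continuousAt
    have c2 : ContinuousAt (fun v : E (m + 1) => Real.log ‖tl m v‖) v := c1.log ha.ne'
    have c3 : ContinuousAt (fun v : E (m + 1) => v 0) v := by fun_prop
    have c4 : ContinuousAt (ww : E (m + 1) → ℝ) v := ((continuousAt_const.add (c2.pow 2)).add (c3.pow 2)).sqrt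
    have c5 : ContinuousAt (fun v : E (m + 1) => rho m (tl m v)) v :=
      ((continuous_rho m).comp (continuous_tl m)).continuousAt
    refine ((c4.add c2).inv₀ (qq_pos v).ne').smul ?_
    exact ContinuousAt.comp (g := consL m) (f := fun v : E (m + 1) => (v 0, ‖tl m v‖⁻¹ • rho m (tl m v)))
      (consL m).continuous.continuousAt (c3.prodMk ((c1.inv₀ ha.ne').smul c5))
  continuousOn_invFun := by
    intro u hu
    refine ContinuousAt.continuousWithinAt ?_
    have ha : 0 < ‖tl m u‖ := norm_pos_iff.2 hu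
    have c1 : ContinuousAt (fun v : E (m + 1) => ‖tl m v‖) u := (continuous_tl m).norm.continuousAt
    have c3 : ContinuousAt (fun v : E (m + 1) => v 0) u := by fun_prop
    have c4 : ContinuousAt (fun v : E (m + 1) => ‖v‖) u := by fun_prop
    have c5 : ContinuousAt (fun v : E (m + 1) => rho m (tl m v)) u :=
      ((continuous_rho m).comp (continuous_tl m)).continuousAt
    have c6 : ContinuousAt (fun v : E (m + 1) => Real.exp ((1 - ‖v‖ ^ 2) * (2 * ‖tl m v‖)⁻¹)) u :=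
      ((continuousAt_const.sub (c4.pow 2)).mul ((continuousAt_const.mul c1).inv₀ (mul_pos two_pos ha).ne')).rexp
    exact ContinuousAt.comp (g := consL m) (f := fun u : E (m + 1) => (u 0 * ‖tl m u‖⁻¹,
      (Real.exp ((1 - ‖u‖ ^ 2) * (2 * ‖tl m u‖)⁻¹) * ‖tl m u‖⁻¹) • rho m (tl m u)))
      (consL m).continuous.continuousAt
      ((c3.mul (c1.inv₀ ha.ne')).prodMk ((c6.mul (c1.inv₀ ha.ne')).smul c5))

theorem dhat_apply {m : ℕ} (v : E (m + 1)) :
    dhat m v = (ww v + Real.log ‖tl m v‖)⁻¹ • consL m (v 0, ‖tl m v‖⁻¹ • rho m (tl m v)) := rfl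

theorem dhat_source (m : ℕ) : (dhat m).source = {v | tl m v ≠ 0} := rfl

theorem dhat_target (m : ℕ) : (dhat m).target = {v | tl m v ≠ 0} := rfl

theorem dhat_eq {m : ℕ} (v : E (m + 1)) : dhat m v = rho2 m (dtil m v) := by
  rw [dhat_apply, rho2_apply, dtil]
  refine consL_ext ?_ ?_
  · rw [PiLp.smul_apply, consL_zero, consL_zero, PiLp.smul_apply, consL_zero]
    simp only [smul_eq_mul]
    ring
  · rw [tl_smul, tl_consL, tl_consL, tl_smul, tl_consL, rho_smul, rho_smul]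

theorem pd_dhat {m : ℕ} (hm : 1 ≤ m) : PD (m + 1) (dhat m) := by
  rw [pd_iff]
  intro v hv
  have h1 : (dhat m : E (m + 1) → E (m + 1)) = fun v => rho2 m (dtil m v) := funext dhat_eq
  rw [h1]
  refine PDAt.comp (g := rho2 m) (f := dtil m) (pdAt_linear ?_ _) (pdAt_dtil hv)
  rw [det_rho2 hm]
  exact one_pos

end Pool.Agent.CSM
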