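import Pool.Agent.CSM.FM

/-!
(F, module FN) The second piece `d0` of the sphere `Sph (m+1)` and its relation with `t0`.
-/

open scoped Manifold ContDiff Topology
open Set

namespace Pool.Agent.CSM

/-- The second piece of the sphere. -/
noncomputable def d0 (m : ℕ) : OPH (E (m + 1)) (Sph (m + 1)) := dhat m ≫ₕ sphI (m + 1)

theorem d0_apply {m : ℕ} (v : E (m + 1)) : d0 m v = sphI (m + 1) (dhat m v) := rfl

theorem d0_source (m : ℕ) : (d0 m).source = {v | tl m v ≠ 0} := by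
  rw [d0, OpenPartialHomeomorph.trans_source, sphI_source, preimage_univ, inter_univ, dhat_source]

theorem pd_d0 {m : ℕ} (hm : 1 ≤ m) : PD (m + 1) (d0 m) := (pd_dhat hm).trans (pd_sphI (m + 1))

theorem norm_sq_dhat {m : ℕ} {v : E (m + 1)} (hv : tl m v ≠ 0) :
    ‖dhat m v‖ ^ 2 = ((ww v + Real.log ‖tl m v‖)⁻¹) ^ 2 * (v 0 ^ 2 + 1) := by
  have ha : 0 < ‖tl m v‖ := norm_pos_iff.2 hv
  have hQ := qq_pos v
  have h1 : ‖‖tl m v‖⁻¹ • rho m (tl m v)‖ = 1 := by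
    rw [norm_smul, norm_rho, Real.norm_of_nonneg (inv_nonneg.2 ha.le), inv_mul_cancel₀ ha.ne']
  rw [dhat_apply, norm_smul, mul_pow, norm_sq_consL, consL_zero, tl_consL, h1, Real.norm_eq_abs, sq_abs]
  norm_num

theorem one_add_dhat {m : ℕ} {v : E (m + 1)} (hv : tl m v ≠ 0) :
    1 + ‖dhat m v‖ ^ 2 = 2 * ww v * (ww v + Real.log ‖tl m v‖)⁻¹ := by
  have hQ := qq_pos v
  have hWs := ww_sq v
  rw [norm_sq_dhat hv]
  field_simp
  linear_combination (-1 : ℝ) * hWs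

theorem one_sub_dhat {m : ℕ} {v : E (m + 1)} (hv : tl m v ≠ 0) :
    1 - ‖dhat m v‖ ^ 2 = 2 * Real.log ‖tl m v‖ * (ww v + Real.log ‖tl m v‖)⁻¹ := by
  have hQ := qq_pos v
  have hWs := ww_sq v
  rw [norm_sq_dhat hv]
  field_simp
  linear_combination hWs

theorem sb_sphI {n : ℕ} (v : E n) : sb (sphI n v) = (2 / (1 + ‖v‖ ^ 2)) • v := sb_spt (sphI_sq v)

theorem sa_d0 {m : ℕ} {v : E (m + 1)} (hv : tl m v ≠ 0) : sa (d0 m v) = (ww v)⁻¹ * Real.log ‖tl m v‖ := by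
  have hQ := qq_pos v
  have hW := ww_pos v
  rw [d0_apply, sa_sphI, one_add_dhat hv, one_sub_dhat hv]
  field_simp

theorem sb_d0 {m : ℕ} {v : E (m + 1)} (hv : tl m v ≠ 0) :
    sb (d0 m v) = (ww v)⁻¹ • consL m (v 0, ‖tl m v‖⁻¹ • rho m (tl m v)) := by
  have hQ := qq_pos v
  have hW := ww_pos v
  rw [d0_apply, sb_sphI, one_add_dhat hv, dhat_apply, smul_smul]
  congr 1
  field_simp

theorem sb_d0_zero {m : ℕ} {v : E (m + 1)} (hv : tl m v ≠ 0) : (sb (d0 m v)) 0 = (ww v)⁻¹ * v 0 := by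
  rw [sb_d0 hv]
  rfl

theorem tl_ne_of_core {m : ℕ} {v : E (m + 1)} (hv : v ∈ (circ m).C') : tl m v ≠ 0 := by
  rw [circ_C'] at hv
  intro h
  have h1 := hv.2
  rw [h, norm_zero] at h1
  exact one_ne_zero h1.symm

theorem d0_core {m : ℕ} {v : E (m + 1)} (hv : v ∈ (circ m).C') : sa (d0 m v) = 0 ∧ (sb (d0 m v)) 0 = 0 := by
  have h1 := tl_ne_of_core hv
  rw [circ_C'] at hv
  rw [sa_d0 h1, sb_d0_zero h1, hv.1, hv.2, Real.log_one]
  simp

theorem exists_d0_core {m : ℕ} {y : Sph (m + 1)} (h1 : sa y = 0) (h2 : (sb y) 0 = 0) :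
    ∃ v ∈ (circ m).C', d0 m v = y := by
  have h3 : ‖tl m (sb y)‖ = 1 := by
    have := s_sq y
    rw [norm_sq_consL, h1, h2] at this
    have h4 : ‖tl m (sb y)‖ ^ 2 = 1 := by linarith
    have h5 : (0 : ℝ) ≤ ‖tl m (sb y)‖ := norm_nonneg _
    nlinarith
  have h4 : tl m (consL m (0, rho m (tl m (sb y)))) = rho m (tl m (sb y)) := tl_consL _ _ _
  have h5 : ‖tl m (consL m (0, rho m (tl m (sb y))))‖ = 1 := by rw [h4, norm_rho, h3]
  have h6 : tl m (consL m (0, rho m (tl m (sb y)))) ≠ 0 := by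
    intro h
    rw [h, norm_zero] at h5
    exact one_ne_zero h5.symm
  have h7 : ww (consL m (0, rho m (tl m (sb y)))) = 1 := by
    rw [ww, h5, Real.log_one, consL_zero]
    norm_num
  refine ⟨consL m (0, rho m (tl m (sb y))), ⟨rfl, h5⟩, ?_⟩
  refine s_ext ?_ ?_
  · rw [sa_d0 h6, h5, Real.log_one, h1, mul_zero]
  · rw [sb_d0 h6, h7, h5, h4, rho_rho, consL_zero, inv_one, one_smul, one_smul]
    refine consL_ext ?_ ?_
    · rw [consL_zero, h2]
    · rw [tl_consL]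

/-- The two pieces of the sphere are glued by `circ`. -/
theorem d0_kap {m : ℕ} (θ : ℝ) {x : E m} (hx : x ≠ 0) :
    d0 m ((circ m).κ (mkT θ x)) = t0 m (mkT θ (inv m x)) := by
  have hr : 0 < ‖x‖ := norm_pos_iff.2 hx
  rw [circ_apply m θ hx]
  set c := Real.cos (2 * Real.pi * θ) with hc
  set s := Real.sin (2 * Real.pi * θ) with hs
  have hcs : c ^ 2 + s ^ 2 = 1 := Real.cos_sq_add_sin_sq _
  set v := consL m (‖x‖ * s, Real.exp (‖x‖ * c) • ‖x‖⁻¹ • x) with hv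
  have hE := Real.exp_pos (‖x‖ * c)
  have h1 : tl m v = Real.exp (‖x‖ * c) • ‖x‖⁻¹ • x := tl_consL _ _ _
  have h0 : v 0 = ‖x‖ * s := rfl
  have h2 : ‖tl m v‖ = Real.exp (‖x‖ * c) := by
    rw [h1, norm_smul, norm_smul, norm_inv, norm_norm, inv_mul_cancel₀ hr.ne', mul_one,
      Real.norm_of_nonneg hE.le]
  have h3 : tl m v ≠ 0 := by
    intro h
    rw [h, norm_zero] at h2
    exact hE.ne h2
  have h4 : ww v = rr x := by
    rw [ww, h2, Real.log_exp, h0, rr]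
    congr 1
    linear_combination ‖x‖ ^ 2 * hcs
  have h5 : (rr (inv m x))⁻¹ = (rr x)⁻¹ * ‖x‖ := by
    have h6 : rr (inv m x) = rr x * ‖x‖⁻¹ := by
      have h7 : 1 + ‖inv m x‖ ^ 2 = (rr x * ‖x‖⁻¹) ^ 2 := by
        rw [norm_inv', mul_pow, rr_sq]
        field_simp
        ring
      have h8 := (rr_pos x).le
      rw [rr, h7, Real.sqrt_sq (by positivity)]
    rw [h6, mul_inv, inv_inv]
  refine s_ext ?_ ?_
  · rw [sa_d0 h3, h4, h2, Real.log_exp, sa_t0, mkT_fst, mkT_snd, h5, tcos_coe]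
    ring
  · rw [sb_d0 h3, h4, h2, h1, h0, sb_t0, mkT_fst, mkT_snd, h5, tsin_coe, inv, rho_smul, rho_smul]
    refine consL_ext ?_ ?_
    · rw [PiLp.smul_apply, PiLp.smul_apply, consL_zero, consL_zero]
      simp only [smul_eq_mul]
      ring
    · rw [tl_smul, tl_smul, tl_consL, tl_consL, smul_smul, smul_smul, smul_smul, smul_smul]
      congr 1
      field_simp

end Pool.Agent.CSM
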