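import Pool.Agent.CSM.Core

/-!
# Gluing two spaces along a homeomorphism between open subsets
-/

open scoped Manifold ContDiff Topology
open Set

namespace Pool.Agent.CSM

namespace Glue

variable {A B : Type} [TopologicalSpace A] [TopologicalSpace B]

/-- The invariant whose fibres are the classes. -/
noncomputable def key (g : OPH A B) (A₀ : Set A) (B₀ : Set B) : A₀ ⊕ B₀ → A ⊕ B := by
  classical
  exact Sum.elim (fun a => if a.1 ∈ g.source then Sum.inr (g a.1) else Sum.inl a.1) fun b => Sum.inr b.1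

/-- The glued space. -/
def Sp (g : OPH A B) (A₀ : Set A) (B₀ : Set B) : Type := Quotient (Setoid.ker (key g A₀ B₀))

instance (g : OPH A B) (A₀ : Set A) (B₀ : Set B) : TopologicalSpace (Sp g A₀ B₀) :=
  inferInstanceAs (TopologicalSpace (Quotient (Setoid.ker (key g A₀ B₀))))

variable (g : OPH A B) (A₀ : Set A) (B₀ : Set B)

/-- The quotient map. -/
noncomputable def mk (x : A₀ ⊕ B₀) : Sp g A₀ B₀ := Quotient.mk (Setoid.ker (key g A₀ B₀)) x

theorem mk_eq {x y : A₀ ⊕ B₀} : mk g A₀ B₀ x = mk g A₀ B₀ y ↔ key g A₀ B₀ x = key g A₀ B₀ y := by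
  have h : (Quotient.mk (Setoid.ker (key g A₀ B₀)) x = Quotient.mk (Setoid.ker (key g A₀ B₀)) y) ↔
      (Setoid.ker (key g A₀ B₀)) x y := Quotient.eq
  exact h.trans Setoid.ker_def

theorem mk_inl_inr {a : A₀} {b : B₀} : mk g A₀ B₀ (Sum.inl a) = mk g A₀ B₀ (Sum.inr b) ↔
    a.1 ∈ g.source ∧ g a.1 = b.1 := by
  classical
  rw [mk_eq]
  simp only [key, Sum.elim_inl, Sum.elim_inr]
  split_ifs with h
  · simp [h]
  · simp [h]

theorem mk_inl_inl {a a' : A₀} : mk g A₀ B₀ (Sum.inl a) = mk g A₀ B₀ (Sum.inl a') ↔ a = a' := by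
  classical
  rw [mk_eq]
  simp only [key, Sum.elim_inl]
  constructor
  · intro h
    split_ifs at h with h1 h2 h2
    · exact Subtype.ext (g.injOn h1 h2 (Sum.inr.inj h))
    · exact Subtype.ext (Sum.inl.inj h)
  · rintro rfl
    rfl

theorem mk_inr_inr {b b' : B₀} : mk g A₀ B₀ (Sum.inr b) = mk g A₀ B₀ (Sum.inr b') ↔ b = b' := by
  classical
  rw [mk_eq]
  simp only [key, Sum.elim_inr]
  constructor
  · intro h
    exact Subtype.ext (Sum.inr.inj h)
  · rintro rfl
    rfl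

theorem isOpen_iff {s : Set (Sp g A₀ B₀)} : IsOpen s ↔
    IsOpen {a : A₀ | mk g A₀ B₀ (Sum.inl a) ∈ s} ∧ IsOpen {b : B₀ | mk g A₀ B₀ (Sum.inr b) ∈ s} := by
  have h : IsOpen s ↔ IsOpen (mk g A₀ B₀ ⁻¹' s) := (isQuotientMap_quotient_mk'.isOpen_preimage (s := s)).symm
  rw [h, isOpen_sum_iff]
  rfl

theorem continuous_mk : Continuous (mk g A₀ B₀) := continuous_quotient_mk'

variable {A₀ B₀}

theorem openA (hA : IsOpen A₀) : Topology.IsOpenEmbedding (fun a : A₀ => mk g A₀ B₀ (Sum.inl a)) := by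
  refine Topology.IsOpenEmbedding.of_continuous_injective_isOpenMap
    ((continuous_mk g A₀ B₀).comp continuous_inl) (fun a a' h => (mk_inl_inl g A₀ B₀).1 h) ?_
  intro U hU
  rw [isOpen_iff]
  constructor
  · convert hU using 1
    ext a
    simp only [mem_image, Set.mem_ofPred_eq, mk_inl_inl, exists_eq_right]
  · have h1 : IsOpen ((↑) '' U : Set A) := hA.isOpenMap_subtype_val U hU
    have h2 : IsOpen (g.target ∩ g.symm ⁻¹' ((↑) '' U)) := g.symm.isOpen_inter_preimage h1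
    convert h2.preimage (continuous_subtype_val (p := fun b => b ∈ B₀)) using 1
    ext b
    simp only [mem_image, Set.mem_ofPred_eq, mk_inl_inr, mem_preimage, mem_inter_iff]
    constructor
    · rintro ⟨a, ha, h3, h4⟩
      rw [← h4]
      exact ⟨g.map_source h3, a, ha, (g.left_inv h3).symm⟩
    · rintro ⟨h3, a, ha, h4⟩
      refine ⟨a, ha, ?_, ?_⟩
      · rw [h4]
        exact g.map_target h3
      · rw [h4]
        exact g.right_inv h3

theorem openB (hB : IsOpen B₀) : Topology.IsOpenEmbedding (fun b : B₀ => mk g A₀ B₀ (Sum.inr b)) := by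
  refine Topology.IsOpenEmbedding.of_continuous_injective_isOpenMap
    ((continuous_mk g A₀ B₀).comp continuous_inr) (fun a a' h => (mk_inr_inr g A₀ B₀).1 h) ?_
  intro U hU
  rw [isOpen_iff]
  constructor
  · have h1 : IsOpen ((↑) '' U : Set B) := hB.isOpenMap_subtype_val U hU
    have h2 : IsOpen (g.source ∩ g ⁻¹' ((↑) '' U)) := g.isOpen_inter_preimage h1
    convert h2.preimage (continuous_subtype_val (p := fun a => a ∈ A₀)) using 1
    ext a
    simp only [mem_image, Set.mem_ofPred_eq, mem_preimage, mem_inter_iff]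
    constructor
    · rintro ⟨b, hb, h3⟩
      obtain ⟨h4, h5⟩ := (mk_inl_inr g A₀ B₀).1 h3.symm
      exact ⟨h4, b, hb, h5.symm⟩
    · rintro ⟨h3, b, hb, h4⟩
      exact ⟨b, hb, ((mk_inl_inr g A₀ B₀).2 ⟨h3, h4.symm⟩).symm⟩
  · convert hU using 1
    ext a
    simp only [mem_image, Set.mem_ofPred_eq, mk_inr_inr, exists_eq_right]

end Glue

/-- An open subset with an open embedding of it gives an open partial homeomorphism. -/
theorem exists_oph_of_openEmbedding {A Z : Type*} [TopologicalSpace A] [TopologicalSpace Z] {A₀ : Set A}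
    (hA : IsOpen A₀) (hn : A₀.Nonempty) {f : A₀ → Z} (hf : Topology.IsOpenEmbedding f) :
    ∃ α : OPH A Z, α.source = A₀ ∧ α.target = range f ∧ ∀ a : A₀, α a = f a := by
  have hne : Nonempty A₀ := hn.to_subtype
  let U : TopologicalSpace.Opens A := ⟨A₀, hA⟩
  have hne' : Nonempty U := hne
  let i : OPH U A := U.openPartialHomeomorphSubtypeCoe hne'
  let j : OPH U Z := Topology.IsOpenEmbedding.toOpenPartialHomeomorph (X := U) f hf
  refine ⟨i.symm.trans j, ?_, ?_, ?_⟩
  · rw [OpenPartialHomeomorph.trans_source]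
    simp only [OpenPartialHomeomorph.symm_source, j, Topology.IsOpenEmbedding.toOpenPartialHomeomorph_source,
      preimage_univ, inter_univ]
    exact U.openPartialHomeomorphSubtypeCoe_target hne'
  · rw [OpenPartialHomeomorph.trans_target]
    simp only [OpenPartialHomeomorph.symm_target, j, Topology.IsOpenEmbedding.toOpenPartialHomeomorph_target]
    rw [show i.source = univ from U.openPartialHomeomorphSubtypeCoe_source hne']
    simp
  · intro a
    rw [OpenPartialHomeomorph.trans_apply]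
    have h1 : i.symm a.1 = (a : U) := i.left_inv (x := (a : U)) (by
      rw [show i.source = univ from U.openPartialHomeomorphSubtypeCoe_source hne']; trivial)
    show j (i.symm a.1) = f a
    rw [h1]
    simp only [j, Topology.IsOpenEmbedding.toOpenPartialHomeomorph_apply]

/-- Topological gluing. -/
theorem exists_glueing_top {A B : Type} [TopologicalSpace A] [TopologicalSpace B] [T2Space A] [T2Space B]
    (g : OPH A B) {A₀ : Set A} {B₀ : Set B} (hA : IsOpen A₀) (hB : IsOpen B₀) (nA : A₀.Nonempty) (nB : B₀.Nonempty)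
    (sA : g.source ⊆ A₀) (tB : g.target ⊆ B₀)
    (hsep : ∀ a ∈ A₀ \ g.source, ∀ b ∈ B₀ \ g.target, ∃ (U : Set A) (V : Set B), IsOpen U ∧ IsOpen V ∧ a ∈ U ∧
      b ∈ V ∧ ∀ x ∈ U ∩ g.source, g x ∉ V) :
    ∃ (Z : Type) (_ : TopologicalSpace Z) (α : OPH A Z) (β : OPH B Z), T2Space Z ∧ α.source = A₀ ∧
      β.source = B₀ ∧ α.target ∪ β.target = univ ∧
      (∀ a ∈ A₀, ∀ b ∈ B₀, α a = β b ↔ a ∈ g.source ∧ g a = b) := by
  obtain ⟨α, hα1, hα2, hα3⟩ := exists_oph_of_openEmbedding hA nA (Glue.openA g (B₀ := B₀) hA)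
  obtain ⟨β, hβ1, hβ2, hβ3⟩ := exists_oph_of_openEmbedding hB nB (Glue.openB g (A₀ := A₀) hB)
  have hcover : α.target ∪ β.target = univ := by
    rw [hα2, hβ2]
    apply eq_univ_of_forall
    intro z
    obtain ⟨x, rfl⟩ : ∃ x, Glue.mk g A₀ B₀ x = z := Quotient.exists_rep z
    rcases x with a | b
    · exact Or.inl ⟨a, rfl⟩
    · exact Or.inr ⟨b, rfl⟩
  have heq : ∀ a ∈ A₀, ∀ b ∈ B₀, α a = β b ↔ a ∈ g.source ∧ g a = b := by
    intro a ha b hb
    rw [show α a = _ from hα3 ⟨a, ha⟩, show β b = _ from hβ3 ⟨b, hb⟩, Glue.mk_inl_inr]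
  refine ⟨Glue.Sp g A₀ B₀, inferInstance, α, β, ?_, hα1, hβ1, hcover, heq⟩
  -- separation inside one chart
  have sepα : ∀ z ∈ α.target, ∀ z' ∈ α.target, z ≠ z' → ∃ u v : Set (Glue.Sp g A₀ B₀), IsOpen u ∧ IsOpen v ∧
      z ∈ u ∧ z' ∈ v ∧ Disjoint u v := by
    intro z hz z' hz' hne
    have h1 : α.symm z ≠ α.symm z' := fun h => hne (α.symm.injOn hz hz' h)
    obtain ⟨u, v, hu, hv, h2, h3, h4⟩ := t2_separation h1
    refine ⟨α.target ∩ α.symm ⁻¹' u, α.target ∩ α.symm ⁻¹' v, α.symm.isOpen_inter_preimage hu,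
      α.symm.isOpen_inter_preimage hv, ⟨hz, h2⟩, ⟨hz', h3⟩, ?_⟩
    rw [Set.disjoint_left] at h4 ⊢
    exact fun w hw hw' => h4 hw.2 hw'.2
  have sepβ : ∀ z ∈ β.target, ∀ z' ∈ β.target, z ≠ z' → ∃ u v : Set (Glue.Sp g A₀ B₀), IsOpen u ∧ IsOpen v ∧
      z ∈ u ∧ z' ∈ v ∧ Disjoint u v := by
    intro z hz z' hz' hne
    have h1 : β.symm z ≠ β.symm z' := fun h => hne (β.symm.injOn hz hz' h)
    obtain ⟨u, v, hu, hv, h2, h3, h4⟩ := t2_separation h1
    refine ⟨β.target ∩ β.symm ⁻¹' u, β.target ∩ β.symm ⁻¹' v, β.symm.isOpen_inter_preimage hu,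
      β.symm.isOpen_inter_preimage hv, ⟨hz, h2⟩, ⟨hz', h3⟩, ?_⟩
    rw [Set.disjoint_left] at h4 ⊢
    exact fun w hw hw' => h4 hw.2 hw'.2
  -- separation of a point of `A` and a point of `B`
  have sepαβ : ∀ z ∈ α.target, z ∉ β.target → ∀ z' ∈ β.target, z' ∉ α.target →
      ∃ u v : Set (Glue.Sp g A₀ B₀), IsOpen u ∧ IsOpen v ∧ z ∈ u ∧ z' ∈ v ∧ Disjoint u v := by
    intro z hz hzβ z' hz' hzα
    set a := α.symm z with ha
    set b := β.symm z' with hb
    have haA : a ∈ A₀ := hα1.subset (α.map_target hz)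
    have hbB : b ∈ B₀ := hβ1.subset (β.map_target hz')
    have hza : α a = z := α.right_inv hz
    have hzb : β b = z' := β.right_inv hz'
    have h1 : a ∉ g.source := by
      intro h
      apply hzβ
      have h2 : g a ∈ B₀ := tB (g.map_source h)
      rw [← hza, (heq a haA (g a) h2).2 ⟨h, rfl⟩]
      exact β.map_source (by rw [hβ1]; exact h2)
    have h2 : b ∉ g.target := by
      intro h
      apply hzα
      have h3 : g.symm b ∈ A₀ := sA (g.map_target h)
      rw [← hzb, ← (heq (g.symm b) h3 b hbB).2 ⟨g.map_target h, g.right_inv h⟩]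
      exact α.map_source (by rw [hα1]; exact h3)
    obtain ⟨U, V, hU, hV, haU, hbV, hUV⟩ := hsep a ⟨haA, h1⟩ b ⟨hbB, h2⟩
    refine ⟨α.target ∩ α.symm ⁻¹' U, β.target ∩ β.symm ⁻¹' V, α.symm.isOpen_inter_preimage hU,
      β.symm.isOpen_inter_preimage hV, ⟨hz, haU⟩, ⟨hz', hbV⟩, ?_⟩
    rw [Set.disjoint_left]
    rintro w ⟨hw1, hw2⟩ ⟨hw3, hw4⟩
    have hwA : α.symm w ∈ A₀ := hα1.subset (α.map_target hw1)
    have hwB : β.symm w ∈ B₀ := hβ1.subset (β.map_target hw3)
    have h5 : α (α.symm w) = β (β.symm w) := by rw [α.right_inv hw1, β.right_inv hw3]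
    obtain ⟨h6, h7⟩ := (heq _ hwA _ hwB).1 h5
    apply hUV _ ⟨hw2, h6⟩
    rw [h7]
    exact hw4
  refine ⟨fun z z' hne => ?_⟩
  have hz : z ∈ α.target ∪ β.target := by rw [hcover]; trivial
  have hz' : z' ∈ α.target ∪ β.target := by rw [hcover]; trivial
  by_cases h1 : z ∈ α.target
  · by_cases h2 : z' ∈ α.target
    · exact sepα z h1 z' h2 hne
    · have h3 : z' ∈ β.target := hz'.resolve_left h2
      by_cases h4 : z ∈ β.target
      · exact sepβ z h4 z' h3 hne
      · exact sepαβ z h1 h4 z' h3 h2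
  · have h3 : z ∈ β.target := hz.resolve_left h1
    by_cases h2 : z' ∈ β.target
    · exact sepβ z h3 z' h2 hne
    · have h4 : z' ∈ α.target := hz'.resolve_right h2
      obtain ⟨u, v, hu, hv, h5, h6, h7⟩ := sepαβ z' h4 h2 z h3 h1
      exact ⟨v, u, hv, hu, h6, h5, h7.symm⟩

end Pool.Agent.CSM
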