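import Pool.Agent.CSM.GA

/-!
# Gluing two oriented manifolds along an orientation preserving partial diffeomorphism
-/

open scoped Manifold ContDiff Topology
open Set

namespace Pool.Agent.CSM

variable {n : ℕ}

/-- Restriction of an element of the groupoid. -/
theorem orG_congr {f g : OPH (E n) (E n)} (hf : f ∈ orG n) (hs : g.source ⊆ f.source)
    (h : ∀ x ∈ g.source, g x = f x) : g ∈ orG n :=
  pd_model.1 ((pd_model.2 hf).congr hs h)

/-- A space which is the union of two open pieces, identified with open subsets of oriented manifolds, is an oriented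
manifold. -/
theorem exists_charted {A B Z : Type*} [TopologicalSpace A] [TopologicalSpace B] [TopologicalSpace Z]
    [ChartedSpace (E n) A] [ChartedSpace (E n) B] [HasGroupoid A (orG n)] [HasGroupoid B (orG n)] (α : OPH A Z)
    (β : OPH B Z) (hc : α.target ∪ β.target = univ) (hαβ : PD n (α.trans β.symm)) :
    ∃ _ : ChartedSpace (E n) Z, HasGroupoid Z (orG n) ∧ PD n α ∧ PD n β := by
  classical
  let at' : Set (OPH Z (E n)) :=
    {c | (∃ e ∈ atlas (E n) A, c = α.symm ≫ₕ e) ∨ ∃ e ∈ atlas (E n) B, c = β.symm ≫ₕ e}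
  let cs : ChartedSpace (E n) Z :=
    { atlas := at'
      chartAt := fun z => if z ∈ α.target then α.symm ≫ₕ chartAt (E n) (α.symm z) else
        β.symm ≫ₕ chartAt (E n) (β.symm z)
      mem_chart_source := by
        intro z
        split_ifs with h
        · rw [OpenPartialHomeomorph.trans_source]
          exact ⟨h, mem_chart_source (E n) (α.symm z)⟩
        · have h' : z ∈ β.target := by
            have : z ∈ α.target ∪ β.target := by rw [hc]; trivial
            exact this.resolve_left h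
          rw [OpenPartialHomeomorph.trans_source]
          exact ⟨h', mem_chart_source (E n) (β.symm z)⟩
      chart_mem_atlas := by
        intro z
        split_ifs with h
        · exact Or.inl ⟨_, chart_mem_atlas (E n) _, rfl⟩
        · exact Or.inr ⟨_, chart_mem_atlas (E n) _, rfl⟩ }
  have hβα : PD n (β.trans α.symm) := by
    have := hαβ.symm
    rwa [OpenPartialHomeomorph.trans_symm_eq_symm_trans_symm, OpenPartialHomeomorph.symm_symm] at this
  -- the four kinds of transition maps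
  have h11 : ∀ e ∈ atlas (E n) A, ∀ e' ∈ atlas (E n) A, e.symm ≫ₕ α ≫ₕ α.symm ≫ₕ e' ∈ orG n := by
    intro e he e' he'
    refine orG_congr (HasGroupoid.compatible (G := orG n) he he') ?_ ?_
    · intro y hy
      simp only [OpenPartialHomeomorph.trans_source, OpenPartialHomeomorph.symm_source, mem_inter_iff,
        mem_preimage, OpenPartialHomeomorph.coe_trans, Function.comp_apply] at hy ⊢
      obtain ⟨h1, h2, h3, h4⟩ := hy
      rw [α.left_inv h2] at h4
      exact ⟨h1, h4⟩
    · intro y hy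
      simp only [OpenPartialHomeomorph.trans_source, OpenPartialHomeomorph.symm_source, mem_inter_iff,
        mem_preimage, OpenPartialHomeomorph.coe_trans, Function.comp_apply] at hy ⊢
      rw [α.left_inv hy.2.1]
  have h22 : ∀ e ∈ atlas (E n) B, ∀ e' ∈ atlas (E n) B, e.symm ≫ₕ β ≫ₕ β.symm ≫ₕ e' ∈ orG n := by
    intro e he e' he'
    refine orG_congr (HasGroupoid.compatible (G := orG n) he he') ?_ ?_
    · intro y hy
      simp only [OpenPartialHomeomorph.trans_source, OpenPartialHomeomorph.symm_source, mem_inter_iff,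
        mem_preimage, OpenPartialHomeomorph.coe_trans, Function.comp_apply] at hy ⊢
      obtain ⟨h1, h2, h3, h4⟩ := hy
      rw [β.left_inv h2] at h4
      exact ⟨h1, h4⟩
    · intro y hy
      simp only [OpenPartialHomeomorph.trans_source, OpenPartialHomeomorph.symm_source, mem_inter_iff,
        mem_preimage, OpenPartialHomeomorph.coe_trans, Function.comp_apply] at hy ⊢
      rw [β.left_inv hy.2.1]
  have h12 : ∀ e ∈ atlas (E n) A, ∀ e' ∈ atlas (E n) B, e.symm ≫ₕ α ≫ₕ β.symm ≫ₕ e' ∈ orG n := by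
    intro e he e' he'
    have := hαβ e he e' he'
    rwa [OpenPartialHomeomorph.trans_assoc] at this
  have h21 : ∀ e ∈ atlas (E n) B, ∀ e' ∈ atlas (E n) A, e.symm ≫ₕ β ≫ₕ α.symm ≫ₕ e' ∈ orG n := by
    intro e he e' he'
    have := hβα e he e' he'
    rwa [OpenPartialHomeomorph.trans_assoc] at this
  have pα : ∀ e ∈ atlas (E n) A, ∀ e' ∈ at', e.symm ≫ₕ α ≫ₕ e' ∈ orG n := by
    rintro e he e' (⟨e'', he'', rfl⟩ | ⟨e'', he'', rfl⟩)
    · exact h11 e he e'' he''
    · exact h12 e he e'' he''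
  have pβ : ∀ e ∈ atlas (E n) B, ∀ e' ∈ at', e.symm ≫ₕ β ≫ₕ e' ∈ orG n := by
    rintro e he e' (⟨e'', he'', rfl⟩ | ⟨e'', he'', rfl⟩)
    · exact h21 e he e'' he''
    · exact h22 e he e'' he''
  refine ⟨cs, ⟨?_⟩, pα, pβ⟩
  intro c c' hcm hcm'
  rcases hcm with ⟨e, he, rfl⟩ | ⟨e, he, rfl⟩
  · rw [OpenPartialHomeomorph.trans_symm_eq_symm_trans_symm, OpenPartialHomeomorph.symm_symm,
      OpenPartialHomeomorph.trans_assoc]
    exact pα e he c' hcm'
  · rw [OpenPartialHomeomorph.trans_symm_eq_symm_trans_symm, OpenPartialHomeomorph.symm_symm,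
      OpenPartialHomeomorph.trans_assoc]
    exact pβ e he c' hcm'

/-- Gluing of oriented manifolds. -/
theorem exists_glueing {A B : Type} [TopologicalSpace A] [TopologicalSpace B] [T2Space A] [T2Space B]
    [ChartedSpace (E n) A] [ChartedSpace (E n) B] [HasGroupoid A (orG n)] [HasGroupoid B (orG n)]
    {g : OPH A B} (hg : PD n g) {A₀ : Set A} {B₀ : Set B} (hA : IsOpen A₀) (hB : IsOpen B₀) (nA : A₀.Nonempty)
    (nB : B₀.Nonempty) (sA : g.source ⊆ A₀) (tB : g.target ⊆ B₀)
    (hsep : ∀ a ∈ A₀ \ g.source, ∀ b ∈ B₀ \ g.target, ∃ (U : Set A) (V : Set B), IsOpen U ∧ IsOpen V ∧ a ∈ U ∧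
      b ∈ V ∧ ∀ x ∈ U ∩ g.source, g x ∉ V) :
    ∃ (Z : Type) (_ : TopologicalSpace Z) (_ : ChartedSpace (E n) Z) (α : OPH A Z) (β : OPH B Z),
      HasGroupoid Z (orG n) ∧ T2Space Z ∧ PD n α ∧ PD n β ∧ α.source = A₀ ∧ β.source = B₀ ∧
      α.target ∪ β.target = univ ∧ α.target ∩ β.target = α '' g.source ∧ (∀ a ∈ g.source, α a = β (g a)) ∧
      ∀ a ∈ A₀, ∀ b ∈ B₀, α a = β b ↔ a ∈ g.source ∧ g a = b := by
  obtain ⟨Z, tZ, α, β, hT, hα, hβ, hcov, heq⟩ := exists_glueing_top g hA hB nA nB sA tB hsep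
  have hg1 : ∀ a ∈ g.source, α a = β (g a) := fun a ha =>
    (heq a (sA ha) (g a) (tB (g.map_source ha))).2 ⟨ha, rfl⟩
  have hαβ : PD n (α.trans β.symm) := by
    have key : ∀ x ∈ (α.trans β.symm).source, x ∈ g.source ∧ (α.trans β.symm) x = g x := by
      intro x hx
      rw [OpenPartialHomeomorph.trans_source] at hx
      obtain ⟨h1, h2⟩ := hx
      have h3 : α x ∈ β.target := h2
      have h4 : β (β.symm (α x)) = α x := β.right_inv h3
      obtain ⟨h5, h6⟩ := (heq x (hα.subset h1) (β.symm (α x)) (hβ.subset (β.map_target h3))).1 h4.symm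
      exact ⟨h5, h6.symm⟩
    exact hg.congr (fun x hx => (key x hx).1) fun x hx => (key x hx).2
  obtain ⟨cs, hG, hPα, hPβ⟩ := exists_charted α β hcov hαβ
  refine ⟨Z, tZ, cs, α, β, hG, hT, hPα, hPβ, hα, hβ, hcov, ?_, hg1, heq⟩
  ext z
  constructor
  · rintro ⟨h1, h2⟩
    have h3 : α (α.symm z) = β (β.symm z) := by rw [α.right_inv h1, β.right_inv h2]
    obtain ⟨h5, -⟩ := (heq _ (hα.subset (α.map_target h1)) _ (hβ.subset (β.map_target h2))).1 h3
    exact ⟨α.symm z, h5, α.right_inv h1⟩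
  · rintro ⟨a, ha, rfl⟩
    refine ⟨α.map_source (hα.symm.subset (sA ha)), ?_⟩
    rw [hg1 a ha]
    exact β.map_source (hβ.symm.subset (tB (g.map_source ha)))

end Pool.Agent.CSM
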