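import Pool.Agent.CSM.GB

/-!
# Replacements exist
-/

open scoped Manifold ContDiff Topology
open Set

namespace Pool.Agent.CSM

variable {n : ℕ} {Q Q' : Type} [TopologicalSpace Q] [ChartedSpace (E n) Q] [TopologicalSpace Q']
  [ChartedSpace (E n) Q']

theorem isCompact_image_of_subset_source {Q X : Type*} [TopologicalSpace Q] [TopologicalSpace X] (e : OPH Q X)
    {K : Set Q} (hK : IsCompact K) (h : K ⊆ e.source) : IsCompact (e '' K) :=
  hK.image_of_continuousOn (e.continuousOn.mono h)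

/-- Replacements exist. -/
theorem exists_repl [HasGroupoid Q (orG n)] [T2Space Q'] [HasGroupoid Q' (orG n)] (μ : Mod n Q Q') {X : Type}
    [TopologicalSpace X] [T2Space X] [CompactSpace X] [ChartedSpace (E n) X] [HasGroupoid X (orG n)] {e : OPH Q X}
    (he : PD n e) (se : e.source = μ.κ.source ∪ μ.C) (hX : ((e '' μ.C)ᶜ).Nonempty)
    (hQ : (μ.κ.target ∪ μ.C').Nonempty) :
    ∃ (X' : Type) (_ : TopologicalSpace X') (_ : ChartedSpace (E n) X') (φ : OPH X X'),
      HasGroupoid X' (orG n) ∧ T2Space X' ∧ CompactSpace X' ∧ Repl n μ e φ := by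
  have hCs : μ.C ⊆ e.source := by rw [se]; exact subset_union_right
  have hκs : μ.κ.source ⊆ e.source := by rw [se]; exact subset_union_left
  have hCcl : IsClosed (e '' μ.C) := (isCompact_image_of_subset_source e μ.cC hCs).isClosed
  -- the gluing map
  have hgs : (e.symm ≫ₕ μ.κ).source = e '' μ.κ.source := by
    ext x
    simp only [OpenPartialHomeomorph.trans_source, OpenPartialHomeomorph.symm_source, mem_inter_iff, mem_preimage]
    constructor
    · rintro ⟨h1, h2⟩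
      exact ⟨e.symm x, h2, e.right_inv h1⟩
    · rintro ⟨q, hq, rfl⟩
      refine ⟨e.map_source (hκs hq), ?_⟩
      rw [e.left_inv (hκs hq)]
      exact hq
  have hgt : (e.symm ≫ₕ μ.κ).target = μ.κ.target := by
    ext y
    simp only [OpenPartialHomeomorph.trans_target, OpenPartialHomeomorph.symm_target, mem_inter_iff, mem_preimage]
    exact ⟨fun h => h.1, fun h => ⟨h, hκs (μ.κ.map_target h)⟩⟩
  have hgv : ∀ q ∈ μ.κ.source, (e.symm ≫ₕ μ.κ) (e q) = μ.κ q := by
    intro q hq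
    rw [OpenPartialHomeomorph.trans_apply, e.left_inv (hκs hq)]
  have hg : PD n (e.symm ≫ₕ μ.κ) := he.symm.trans μ.pd
  have sA : (e.symm ≫ₕ μ.κ).source ⊆ (e '' μ.C)ᶜ := by
    rw [hgs]
    rintro _ ⟨q, hq, rfl⟩ ⟨c, hc, h⟩
    have : c = q := e.injOn (hCs hc) (hκs hq) h
    subst this
    exact (Set.disjoint_left.1 μ.disj) hq hc
  have tB : (e.symm ≫ₕ μ.κ).target ⊆ μ.κ.target ∪ μ.C' := by
    rw [hgt]
    exact subset_union_left
  have hsep : ∀ a ∈ (e '' μ.C)ᶜ \ (e.symm ≫ₕ μ.κ).source, ∀ b ∈ (μ.κ.target ∪ μ.C') \ (e.symm ≫ₕ μ.κ).target,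
      ∃ (U : Set X) (V : Set Q'), IsOpen U ∧ IsOpen V ∧ a ∈ U ∧ b ∈ V ∧
        ∀ x ∈ U ∩ (e.symm ≫ₕ μ.κ).source, (e.symm ≫ₕ μ.κ) x ∉ V := by
    rintro a ⟨ha1, ha2⟩ b ⟨hb1, hb2⟩
    rw [hgs] at ha2
    rw [hgt] at hb2
    have hb : b ∈ μ.C' := hb1.resolve_left hb2
    obtain ⟨K, hK, hKs, N', hN', hCN, hNs, hNK⟩ := μ.prop
    have hKs' : K ⊆ e.source := by rw [se]; exact hKs
    refine ⟨(e '' K)ᶜ, N', (isCompact_image_of_subset_source e hK hKs').isClosed.isOpen_compl, hN', ?_, hCN hb, ?_⟩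
    · rintro ⟨q, hq, rfl⟩
      rcases hKs hq with h | h
      · exact ha2 ⟨q, h, rfl⟩
      · exact ha1 ⟨q, h, rfl⟩
    · rintro x ⟨hx1, hx2⟩ hx3
      rw [hgs] at hx2
      obtain ⟨q, hq, rfl⟩ := hx2
      rw [hgv q hq] at hx3
      apply hx1
      refine ⟨q, hNK ⟨μ.κ q, ⟨hx3, ?_⟩, μ.κ.left_inv hq⟩, rfl⟩
      exact fun h => (Set.disjoint_left.1 μ.disj') (μ.κ.map_source hq) h
  obtain ⟨X', tX, cX, φ, d, hG, hT, hφ, hd, sφ, sd, hcov, hint, hglue, heq⟩ :=
    exists_glueing hg hCcl.isOpen_compl μ.op' hX hQ sA tB hsep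
  have hgl : ∀ q ∈ μ.κ.source, φ (e q) = d (μ.κ q) := by
    intro q hq
    rw [hglue (e q) (by rw [hgs]; exact ⟨q, hq, rfl⟩), hgv q hq]
  have hC's : μ.C' ⊆ d.source := by rw [sd]; exact subset_union_right
  have htφ : φ.target = (d '' μ.C')ᶜ := by
    ext z
    constructor
    · rintro hz ⟨c, hc, rfl⟩
      have h1 : φ (φ.symm (d c)) = d c := φ.right_inv hz
      obtain ⟨h2, h3⟩ := (heq _ (sφ.subset (φ.map_target hz)) c (Or.inr hc)).1 h1
      have h4 : c ∈ μ.κ.target := by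
        rw [← h3, ← hgt]
        exact (e.symm ≫ₕ μ.κ).map_source h2
      exact (Set.disjoint_left.1 μ.disj') h4 hc
    · intro hz
      have : z ∈ φ.target ∪ d.target := by rw [hcov]; trivial
      rcases this with h | h
      · exact h
      · have h1 : d.symm z ∈ μ.κ.target ∪ μ.C' := sd.subset (d.map_target h)
        rcases h1 with h1 | h1
        · have h2 : z = φ (e (μ.κ.symm (d.symm z))) := by
            rw [hgl _ (μ.κ.map_target h1), μ.κ.right_inv h1, d.right_inv h]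
          rw [h2]
          apply φ.map_source
          rw [sφ]
          apply sA
          rw [hgs]
          exact ⟨_, μ.κ.map_target h1, rfl⟩
        · exact absurd ⟨d.symm z, h1, d.right_inv h⟩ hz
  refine ⟨X', tX, cX, φ, hG, hT, ?_, ⟨he, se, hφ, sφ, d, hd, sd, htφ, hgl⟩⟩
  -- compactness
  obtain ⟨K', hK', hKs', N, hN, hCN, hNs, hNK⟩ := μ.prop'
  have hNs' : N ⊆ e.source := by rw [se]; exact hNs
  have hopen : IsOpen (e '' N) := e.isOpen_image_of_subset_source hN hNs'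
  have h1 : IsCompact ((e '' N)ᶜ) := hopen.isClosed_compl.isCompact
  have h2 : (e '' N)ᶜ ⊆ φ.source := by
    rw [sφ]
    exact compl_subset_compl.2 (image_mono hCN)
  have h3 : IsCompact (φ '' (e '' N)ᶜ) := isCompact_image_of_subset_source φ h1 h2
  have h4 : IsCompact (d '' (K' ∪ μ.C')) :=
    isCompact_image_of_subset_source d (hK'.union μ.cC') (union_subset (by rw [sd]; exact hKs') hC's)
  refine ⟨?_⟩
  have h5 : (univ : Set X') = φ '' (e '' N)ᶜ ∪ d '' (K' ∪ μ.C') := by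
    symm
    apply eq_univ_of_forall
    intro z
    by_cases hz : z ∈ φ.target
    · by_cases h6 : φ.symm z ∈ e '' N
      · right
        obtain ⟨q, hq, hqz⟩ := h6
        have h7 : φ.symm z ∈ (e '' μ.C)ᶜ := sφ.subset (φ.map_target hz)
        have h8 : q ∉ μ.C := fun h => h7 ⟨q, h, hqz⟩
        have h9 : q ∈ μ.κ.source := (hNs hq).resolve_right h8
        refine ⟨μ.κ q, Or.inl (hNK ⟨q, ⟨hq, h8⟩, rfl⟩), ?_⟩
        rw [← hgl q h9, hqz, φ.right_inv hz]
      · left
        exact ⟨φ.symm z, h6, φ.right_inv hz⟩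
    · right
      rw [htφ, mem_compl_iff, not_not] at hz
      obtain ⟨c, hc, rfl⟩ := hz
      exact ⟨c, Or.inr hc, rfl⟩
  rw [h5]
  exact h3.union h4

/-- Connectedness of a replacement. -/
theorem Repl.connectedSpace {μ : Mod n Q Q'} {X X' : Type*} [TopologicalSpace X] [ChartedSpace (E n) X]
    [TopologicalSpace X'] [ChartedSpace (E n) X'] {e : OPH Q X} {φ : OPH X X'} (h : Repl n μ e φ)
    (h1 : IsPreconnected (e '' μ.C)ᶜ) (h2 : IsPreconnected (μ.κ.target ∪ μ.C')) (h3 : μ.κ.source.Nonempty) :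
    ConnectedSpace X' := by
  obtain ⟨d, -, sd, htφ, hgl⟩ := h.ex
  obtain ⟨q, hq⟩ := h3
  have hκs : μ.κ.source ⊆ e.source := by rw [h.se]; exact subset_union_left
  have hCs : μ.C ⊆ e.source := by rw [h.se]; exact subset_union_right
  have he : e q ∈ (e '' μ.C)ᶜ := by
    rintro ⟨c, hc, h⟩
    have : c = q := e.injOn (hCs hc) (hκs hq) h
    subst this
    exact (Set.disjoint_left.1 μ.disj) hq hc
  have c1 : IsPreconnected (φ '' (e '' μ.C)ᶜ) := h1.image _ (by rw [← h.sφ]; exact φ.continuousOn)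
  have c2 : IsPreconnected (d '' (μ.κ.target ∪ μ.C')) := h2.image _ (by rw [← sd]; exact d.continuousOn)
  have h5 : φ '' (e '' μ.C)ᶜ ∪ d '' (μ.κ.target ∪ μ.C') = univ := by
    apply eq_univ_of_forall
    intro z
    by_cases hz : z ∈ φ.target
    · left
      exact ⟨φ.symm z, h.sφ.subset (φ.map_target hz), φ.right_inv hz⟩
    · right
      rw [htφ, mem_compl_iff, not_not] at hz
      obtain ⟨c, hc, rfl⟩ := hz
      exact ⟨c, Or.inr hc, rfl⟩
  have h6 : IsPreconnected (univ : Set X') := by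
    rw [← h5]
    exact IsPreconnected.union (φ (e q)) ⟨e q, he, rfl⟩ ⟨μ.κ q, Or.inl (μ.κ.map_source hq), (hgl q hq).symm⟩ c1 c2
  exact { toPreconnectedSpace := ⟨h6⟩, toNonempty := ⟨φ (e q)⟩ }

end Pool.Agent.CSM
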