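import Pool.Agent.CSM.GC
import Pool.Agent.CSM.GI

/-!
# Connected sums and circle surgery exist
-/

open scoped Manifold ContDiff Topology
open Set

namespace Pool.Agent.CSM

/-- The complement of a closed set `C` is preconnected if `C` has an open neighbourhood `W` with `W \ C`
preconnected. -/
theorem isPreconnected_compl_of {X : Type*} [TopologicalSpace X] [PreconnectedSpace X] {C W : Set X}
    (hC : IsClosed C) (hW : IsOpen W) (h : C ⊆ W) (hc : IsPreconnected (W \ C)) : IsPreconnected Cᶜ := by
  -- one half
  have key : ∀ u v : Set X, IsOpen u → IsOpen v → Cᶜ ⊆ u ∪ v → (Cᶜ ∩ u).Nonempty → (Cᶜ ∩ v).Nonempty →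
      ¬ (Cᶜ ∩ (u ∩ v)).Nonempty → ¬ (W \ C ∩ v).Nonempty → False := by
    intro u v hu hv huv hun hvn hd hWv
    have h1 : IsOpen (Cᶜ ∩ u ∪ W) := (hC.isOpen_compl.inter hu).union hW
    have h2 : IsOpen (Cᶜ ∩ v) := hC.isOpen_compl.inter hv
    obtain ⟨x, -, hx1, hx2⟩ := isPreconnected_univ (α := X) _ _ h1 h2 (by
      intro x _
      by_cases hx : x ∈ C
      · exact Or.inl (Or.inr (h hx))
      · rcases huv hx with h3 | h3
        · exact Or.inl (Or.inl ⟨hx, h3⟩)
        · exact Or.inr ⟨hx, h3⟩) (by
      obtain ⟨x, hx⟩ := hun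
      exact ⟨x, trivial, Or.inl hx⟩) (by
      obtain ⟨x, hx⟩ := hvn
      exact ⟨x, trivial, hx⟩)
    rcases hx1 with hx1 | hx1
    · exact hd ⟨x, hx1.1, hx1.2, hx2.2⟩
    · exact hWv ⟨x, ⟨hx1, hx2.1⟩, hx2.2⟩
  intro u v hu hv huv hun hvn
  by_contra hd
  by_cases h1 : (W \ C ∩ v).Nonempty
  · by_cases h2 : (W \ C ∩ u).Nonempty
    · obtain ⟨x, hx, hx'⟩ := hc u v hu hv (fun x hx => huv hx.2) h2 h1
      exact hd ⟨x, hx.2, hx'⟩
    · refine key v u hv hu (by rwa [union_comm]) hvn hun ?_ h2
      rwa [inter_comm v u]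
  · exact key u v hu hv huv hun hvn hd h1

theorem isPreconnected_compl_zero {n : ℕ} (hn : 2 ≤ n) : IsPreconnected ({0}ᶜ : Set (E n)) := by
  refine (isConnected_compl_singleton_of_one_lt_rank ?_ 0).isPreconnected
  rw [← Module.finrank_eq_rank, finrank_euclideanSpace_fin]
  exact_mod_cast hn

theorem exists_ne_zero {n : ℕ} (hn : 1 ≤ n) : ∃ v : E n, v ≠ 0 := by
  refine ⟨EuclideanSpace.single ⟨0, hn⟩ 1, ?_⟩
  intro h
  have := congrArg norm h
  simp at this

/-- The complement of a point of a connected manifold is preconnected. -/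
theorem isPreconnected_compl_disc {n : ℕ} (hn : 2 ≤ n) {X : Type*} [TopologicalSpace X] [T2Space X]
    [PreconnectedSpace X] {i : OPH (E n) X} (si : i.source = univ) : IsPreconnected ({i 0}ᶜ : Set X) := by
  refine isPreconnected_compl_of isClosed_singleton i.open_target ?_ ?_
  · rw [singleton_subset_iff]
    exact i.map_source (by rw [si]; trivial)
  · have h : i.target \ {i 0} = i '' {0}ᶜ := by
      ext x
      constructor
      · rintro ⟨h1, h2⟩
        refine ⟨i.symm x, ?_, i.right_inv h1⟩
        intro h3
        rw [mem_singleton_iff] at h3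
        exact h2 (by rw [mem_singleton_iff, ← h3, i.right_inv h1])
      · rintro ⟨v, hv, rfl⟩
        refine ⟨i.map_source (by rw [si]; trivial), fun h3 => hv ?_⟩
        exact i.injOn (by rw [si]; trivial) (by rw [si]; trivial) h3
    rw [h]
    exact (isPreconnected_compl_zero hn).image _ (i.continuousOn.mono (by rw [si]; exact subset_univ _))

/-- The replacement model of the connected sum with `N`. -/
noncomputable def csMod {n : ℕ} (N : OMan n) (j : OPH (E n) N) (hj : PD n j) (sj : j.source = univ) :
    Mod n (E n) N where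
  κ := invO n ≫ₕ j
  C := {0}
  C' := j.targetᶜ
  pd := (pd_invO n).trans hj
  disj := by
    rw [Set.disjoint_left]
    intro v hv hv0
    rw [OpenPartialHomeomorph.trans_source] at hv
    exact hv.1 hv0
  disj' := by
    rw [Set.disjoint_left]
    intro v hv hv0
    rw [OpenPartialHomeomorph.trans_target] at hv
    exact hv0 hv.1
  op := by
    have : (invO n ≫ₕ j).source ∪ {0} = univ := by
      apply eq_univ_of_forall
      intro v
      by_cases hv : v = 0
      · exact Or.inr hv
      · left
        rw [OpenPartialHomeomorph.trans_source]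
        exact ⟨hv, by rw [mem_preimage, sj]; trivial⟩
    rw [this]
    exact isOpen_univ
  op' := by
    have : (invO n ≫ₕ j).target ∪ j.targetᶜ = {j 0}ᶜ := by
      ext x
      rw [OpenPartialHomeomorph.trans_target]
      constructor
      · rintro (⟨h1, h2⟩ | h1)
        · intro h3
          rw [mem_singleton_iff] at h3
          rw [mem_preimage, h3, j.left_inv (by rw [sj]; trivial)] at h2
          exact h2 rfl
        · intro h3
          rw [mem_singleton_iff] at h3
          apply h1
          rw [h3]
          exact j.map_source (by rw [sj]; trivial)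
      · intro h1
        by_cases h2 : x ∈ j.target
        · left
          refine ⟨h2, ?_⟩
          intro h3
          apply h1
          rw [mem_singleton_iff] at h3 ⊢
          rw [← h3, j.right_inv h2]
        · exact Or.inr h2
    rw [this]
    exact isOpen_compl_singleton
  cC := isCompact_singleton
  cC' := j.open_target.isClosed_compl.isCompact
  prop := by
    refine ⟨Metric.closedBall 0 1, isCompact_closedBall 0 1, ?_, (j '' Metric.closedBall 0 1)ᶜ, ?_, ?_, ?_, ?_⟩
    · intro v _
      by_cases hv : v = 0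
      · exact Or.inr hv
      · left
        rw [OpenPartialHomeomorph.trans_source]
        exact ⟨hv, by rw [mem_preimage, sj]; trivial⟩
    · exact (isCompact_image_of_subset_source j (isCompact_closedBall 0 1)
        (by rw [sj]; exact subset_univ _)).isClosed.isOpen_compl
    · apply compl_subset_compl.2
      rintro _ ⟨v, -, rfl⟩
      exact j.map_source (by rw [sj]; trivial)
    · intro x hx
      by_cases h2 : x ∈ j.target
      · left
        rw [OpenPartialHomeomorph.trans_target]
        refine ⟨h2, ?_⟩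
        intro h3
        apply hx
        rw [mem_singleton_iff] at h3
        exact ⟨0, by simp, by rw [← h3, j.right_inv h2]⟩
      · exact Or.inr h2
    · rintro _ ⟨x, ⟨hx1, hx2⟩, rfl⟩
      rw [mem_compl_iff, not_not] at hx2
      have h1 : ¬ ‖j.symm x‖ ≤ 1 := by
        intro h
        exact hx1 ⟨j.symm x, by simpa using h, j.right_inv hx2⟩
      show (invO n ≫ₕ j).symm x ∈ _
      rw [OpenPartialHomeomorph.trans_symm_eq_symm_trans_symm, OpenPartialHomeomorph.trans_apply, invO_symm_apply,
        mem_closedBall_zero_iff, norm_inv']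
      exact inv_le_one_of_one_le₀ (not_le.1 h1).le
  prop' := by
    refine ⟨(j '' Metric.ball 0 1)ᶜ, ?_, ?_, Metric.ball 0 1, Metric.isOpen_ball, ?_, ?_, ?_⟩
    · exact (j.isOpen_image_of_subset_source Metric.isOpen_ball
        (by rw [sj]; exact subset_univ _)).isClosed_compl.isCompact
    · intro x hx
      by_cases h2 : x ∈ j.target
      · left
        rw [OpenPartialHomeomorph.trans_target]
        refine ⟨h2, ?_⟩
        intro h3
        apply hx
        rw [mem_singleton_iff] at h3
        exact ⟨0, by simp, by rw [← h3, j.right_inv h2]⟩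
      · exact Or.inr h2
    · rw [singleton_subset_iff]
      simp
    · intro v _
      by_cases hv : v = 0
      · exact Or.inr hv
      · left
        rw [OpenPartialHomeomorph.trans_source]
        exact ⟨hv, by rw [mem_preimage, sj]; trivial⟩
    · rintro _ ⟨v, ⟨hv1, hv2⟩, rfl⟩ ⟨w, hw, h3⟩
      rw [OpenPartialHomeomorph.trans_apply, invO_apply] at h3
      have h4 : w = inv n v := j.injOn (by rw [sj]; trivial) (by rw [sj]; trivial) h3
      rw [mem_ball_zero_iff] at hv1
      rw [h4, mem_ball_zero_iff, norm_inv'] at hw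
      have h5 : 0 < ‖v‖ := norm_pos_iff.2 hv2
      have h6 : 1 < ‖v‖⁻¹ := (one_lt_inv₀ h5).2 hv1
      linarith

/-- (G1) Connected sums along given discs exist. -/
theorem exists_connSum {n : ℕ} (hn : 2 ≤ n) (M N : OMan n) {i : OPH (E n) M} {j : OPH (E n) N} (hi : PD n i)
    (hj : PD n j) (si : i.source = univ) (sj : j.source = univ) :
    ∃ (X : OMan n) (φ : OPH M X) (ψ : OPH N X), IsCS n i j φ ψ := by
  obtain ⟨v, hv⟩ := exists_ne_zero (n := n) (by omega)
  have hks : (csMod N j hj sj).κ.source = {0}ᶜ := by
    show (invO n ≫ₕ j).source = _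
    rw [OpenPartialHomeomorph.trans_source, sj, preimage_univ, inter_univ, invO_source]
  have hkt : (csMod N j hj sj).κ.target ∪ (csMod N j hj sj).C' = {j 0}ᶜ := by
    show (invO n ≫ₕ j).target ∪ j.targetᶜ = _
    ext x
    rw [OpenPartialHomeomorph.trans_target]
    constructor
    · rintro (⟨h1, h2⟩ | h1)
      · intro h3
        rw [mem_singleton_iff] at h3
        rw [mem_preimage, h3, j.left_inv (by rw [sj]; trivial)] at h2
        exact h2 rfl
      · intro h3
        rw [mem_singleton_iff] at h3
        apply h1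
        rw [h3]
        exact j.map_source (by rw [sj]; trivial)
    · intro h1
      by_cases h2 : x ∈ j.target
      · left
        refine ⟨h2, ?_⟩
        intro h3
        apply h1
        rw [mem_singleton_iff] at h3 ⊢
        rw [← h3, j.right_inv h2]
      · exact Or.inr h2
  have hC : (csMod N j hj sj).C = {0} := rfl
  have hC' : (csMod N j hj sj).C' = j.targetᶜ := rfl
  have se : i.source = (csMod N j hj sj).κ.source ∪ (csMod N j hj sj).C := by
    rw [hks, hC, si, compl_union_self]
  have hX : ((i '' (csMod N j hj sj).C)ᶜ).Nonempty := by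
    rw [hC, image_singleton]
    refine ⟨i v, fun h => hv ?_⟩
    exact i.injOn (by rw [si]; trivial) (by rw [si]; trivial) h
  have hQ : ((csMod N j hj sj).κ.target ∪ (csMod N j hj sj).C').Nonempty := by
    rw [hkt]
    refine ⟨j v, fun h => hv ?_⟩
    exact j.injOn (by rw [sj]; trivial) (by rw [sj]; trivial) h
  obtain ⟨X, tX, cX, φ, hG, hT, hK, hR⟩ := exists_repl (csMod N j hj sj) hi se hX hQ
  have hcon : ConnectedSpace X := by
    refine hR.connectedSpace ?_ ?_ ?_
    · rw [hC, image_singleton]
      exact isPreconnected_compl_disc hn si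
    · rw [hkt]
      exact isPreconnected_compl_disc hn sj
    · rw [hks]
      exact ⟨v, hv⟩
  obtain ⟨ψ, hψ, sψ, htφ, hgl⟩ := hR.ex
  refine ⟨{ carrier := X }, φ, ψ, ⟨hi, hj, hR.pdφ, hψ, si, sj, ?_, ?_, ?_, ?_, ?_⟩⟩
  · rw [hR.sφ, hC, image_singleton]
  · rw [sψ, hkt]
  · apply eq_univ_of_forall
    intro z
    by_cases hz : z ∈ φ.target
    · exact Or.inl hz
    · right
      rw [htφ, mem_compl_iff, not_not] at hz
      obtain ⟨c, hc, rfl⟩ := hz
      exact ψ.map_source (by rw [sψ]; exact Or.inr hc)
  · ext z
    constructor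
    · rintro ⟨h1, h2⟩
      have h3 : ψ.symm z ∈ (csMod N j hj sj).κ.target ∪ (csMod N j hj sj).C' := sψ.subset (ψ.map_target h2)
      rcases h3 with h3 | h3
      · refine ⟨i ((csMod N j hj sj).κ.symm (ψ.symm z)), ⟨_, ?_, rfl⟩, ?_⟩
        · rw [← hks]
          exact (csMod N j hj sj).κ.map_target h3
        · rw [hgl _ ((csMod N j hj sj).κ.map_target h3), (csMod N j hj sj).κ.right_inv h3, ψ.right_inv h2]
      · rw [htφ] at h1
        exact absurd ⟨ψ.symm z, h3, ψ.right_inv h2⟩ h1
    · rintro ⟨_, ⟨w, hw, rfl⟩, rfl⟩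
      refine ⟨?_, ?_⟩
      · apply φ.map_source
        rw [hR.sφ, hC, image_singleton]
        exact fun h => hw (i.injOn (by rw [si]; trivial) (by rw [si]; trivial) h)
      · have hw' : w ∈ (csMod N j hj sj).κ.source := by rw [hks]; exact hw
        rw [hgl w hw']
        exact ψ.map_source (by rw [sψ]; exact Or.inl ((csMod N j hj sj).κ.map_source hw'))
  · intro w hw
    have hw' : w ∈ (csMod N j hj sj).κ.source := by rw [hks]; exact hw
    exact hgl w hw'

/-- (G2) Circle surgery exists, for any model with the specification of `circ`. -/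
theorem exists_surg_of {m : ℕ} (hm : 2 ≤ m) [HasGroupoid (T m) (orG (m + 1))] (μ : Mod (m + 1) (T m) (E (m + 1)))
    (h1 : μ.C = {p : T m | p.2 = 0}) (h2 : μ.κ.source = {p : T m | p.2 ≠ 0})
    (h3 : μ.C' = {v : E (m + 1) | v 0 = 0 ∧ ‖((consL m).symm v).2‖ = 1})
    (h4 : μ.κ.target = {v : E (m + 1) | ((consL m).symm v).2 ≠ 0} \ μ.C') (X : OMan (m + 1)) {e : OPH (T m) X}
    (he : PD (m + 1) e) (se : e.source = univ) : ∃ (X' : OMan (m + 1)) (φ : OPH X X'), Repl (m + 1) μ e φ := by
  obtain ⟨v, hv⟩ := exists_ne_zero (n := m) (by omega)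
  have se' : e.source = μ.κ.source ∪ μ.C := by
    rw [se, h1, h2]
    symm
    apply eq_univ_of_forall
    intro p
    by_cases h : p.2 = 0
    · exact Or.inr h
    · exact Or.inl h
  have hCs : μ.C ⊆ e.source := by rw [se]; exact subset_univ _
  have hv2 : (mkT 0 v : T m) ∈ μ.κ.source := by
    rw [h2]
    exact hv
  have hX : ((e '' μ.C)ᶜ).Nonempty := by
    refine ⟨e (mkT 0 v), ?_⟩
    rintro ⟨p, hp, h⟩
    have h5 : p = mkT 0 v := e.injOn (by rw [se]; trivial) (by rw [se]; trivial) h
    rw [h5] at hp
    exact (Set.disjoint_left.1 μ.disj) hv2 hp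
  have hkt : μ.κ.target ∪ μ.C' = {v : E (m + 1) | ((consL m).symm v).2 ≠ 0} := by
    rw [h4]
    apply diff_union_of_subset
    rw [h3]
    rintro w ⟨-, hw⟩ h0
    rw [h0, norm_zero] at hw
    exact zero_ne_one hw
  have hQ : (μ.κ.target ∪ μ.C').Nonempty := ⟨μ.κ (mkT 0 v), Or.inl (μ.κ.map_source hv2)⟩
  obtain ⟨X', tX, cX, φ, hG, hT, hK, hR⟩ := exists_repl μ he se' hX hQ
  have hcon : ConnectedSpace X' := by
    refine hR.connectedSpace ?_ ?_ ⟨_, hv2⟩
    · refine isPreconnected_compl_of (isCompact_image_of_subset_source e μ.cC hCs).isClosed e.open_target ?_ ?_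
      · rintro _ ⟨p, -, rfl⟩
        exact e.map_source (by rw [se]; trivial)
      · have h5 : e.target \ e '' μ.C = (fun q : ℝ × E m => e (mkT q.1 q.2)) '' (univ ×ˢ {0}ᶜ) := by
          ext x
          constructor
          · rintro ⟨h6, h7⟩
            obtain ⟨θ, hθ⟩ := QuotientAddGroup.mk_surjective (e.symm x).1
            refine ⟨(θ, (e.symm x).2), ⟨trivial, ?_⟩, ?_⟩
            · intro h8
              apply h7
              refine ⟨e.symm x, ?_, e.right_inv h6⟩
              rw [h1]
              exact h8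
            · have h8 : mkT θ (e.symm x).2 = e.symm x := Prod.ext hθ rfl
              show e (mkT θ (e.symm x).2) = x
              rw [h8, e.right_inv h6]
          · rintro ⟨⟨θ, y⟩, ⟨-, hy⟩, rfl⟩
            refine ⟨e.map_source (by rw [se]; trivial), ?_⟩
            rintro ⟨p, hp, h⟩
            have h5 : p = mkT θ y := e.injOn (by rw [se]; trivial) (by rw [se]; trivial) h
            rw [h5, h1] at hp
            exact hy hp
        rw [h5]
        refine (isPreconnected_univ.prod (isPreconnected_compl_zero hm)).image _ ?_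
        have hc : Continuous fun q : ℝ × E m => (mkT q.1 q.2 : T m) := by
          have : Continuous fun q : ℝ × E m => (((q.1 : ℝ) : AddCircle (1 : ℝ)), q.2) :=
            ((AddCircle.continuous_mk' (1 : ℝ)).comp continuous_fst).prodMk continuous_snd
          exact this
        have he' : Continuous e := by
          rw [← continuousOn_univ, ← se]
          exact e.continuousOn
        exact (he'.comp hc).continuousOn
    · rw [hkt]
      have h5 : {v : E (m + 1) | ((consL m).symm v).2 ≠ 0} = consL m '' (univ ×ˢ {0}ᶜ) := by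
        ext w
        constructor
        · intro hw
          exact ⟨(consL m).symm w, ⟨trivial, hw⟩, (consL m).apply_symm_apply w⟩
        · rintro ⟨q, ⟨-, hq⟩, rfl⟩
          show ((consL m).symm (consL m q)).2 ≠ 0
          rw [ContinuousLinearEquiv.symm_apply_apply]
          exact hq
      rw [h5]
      exact (isPreconnected_univ.prod (isPreconnected_compl_zero hm)).image _ (consL m).continuous.continuousOn
  exact ⟨{ carrier := X' }, φ, hR⟩

end Pool.Agent.CSM
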