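import Pool.Agent.CSM.Core
import Pool.Agent.CSM.FE

/-!
The set `Mon n` of closed connected oriented smooth n-manifolds up to orientation preserving diffeomorphism and the
standard sphere.
-/

open scoped Manifold ContDiff Topology
open Set

namespace Pool.Agent.CSM

/-- Orientation preserving diffeomorphism is an equivalence relation. -/
def OMan.setoid (n : ℕ) : Setoid (OMan n) where
  r := OMan.Iso
  iseqv := ⟨OMan.Iso.refl, OMan.Iso.symm, OMan.Iso.trans⟩

/-- The set of closed connected oriented smooth n-manifolds up to orientation preserving diffeomorphism. -/
def Mon (n : ℕ) : Type 1 := Quotient (OMan.setoid n)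

/-- The class of a manifold. -/
def cls {n : ℕ} (M : OMan n) : Mon n := Quotient.mk (OMan.setoid n) M

theorem cls_eq {n : ℕ} {M N : OMan n} : cls M = cls N ↔ M.Iso N := Quotient.eq (r := OMan.setoid n)

/-- The standard sphere `Metric.sphere (0 : E (n+1)) 1`, with the oriented atlas consisting of the stereographic
projection from one pole and the reflected stereographic projection from the other pole. -/
noncomputable def sphereO (n : ℕ) (hn : 1 ≤ n) : OMan n := { carrier := Sph n, conn := connected_sph hn }

end Pool.Agent.CSM
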