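import Pool.Agent.CSM.Asm3
import Pool.Agent.CSM.CalcT
import Pool.Agent.CSM.MonD

/-!
The connected sum monoid and the final theorem.
-/

open scoped Manifold ContDiff Topology
open Set

namespace Pool.Agent.CSM

variable {n : ℕ}

theorem ConnSum.exists (hn : 2 ≤ n) (M N : OMan n) : ∃ X : OMan n, ConnSum M N X := by
  obtain ⟨x⟩ : Nonempty M := inferInstance
  obtain ⟨y⟩ : Nonempty N := inferInstance
  obtain ⟨i, pi, si, -, -⟩ := exists_disc (n := n) isOpen_univ (mem_univ x)
  obtain ⟨j, pj, sj, -, -⟩ := exists_disc (n := n) isOpen_univ (mem_univ y)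
  obtain ⟨X, φ, ψ, h⟩ := exists_connSum hn M N pi pj si sj
  exact ⟨X, i, j, φ, ψ, h⟩

theorem ConnSum.symm {M N X : OMan n} (h : ConnSum M N X) : ConnSum N M X := by
  obtain ⟨i, j, φ, ψ, h⟩ := h
  exact ⟨j, i, ψ, φ, IsCS.symm h⟩

theorem ConnSum.uniq (hn : 1 ≤ n) {M M' N N' X X' : OMan n} (hM : M.Iso M') (hN : N.Iso N')
    (h : ConnSum M N X) (h' : ConnSum M' N' X') : X.Iso X' := by
  obtain ⟨f, hf⟩ := iso_iff.1 hM
  obtain ⟨i, j, φ, ψ, h⟩ := h
  exact ConnSum.unique hn hN ⟨_, _, _, _, h.mapM f hf⟩ h'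

theorem ConnSum.iso {M N X X' : OMan n} (h : ConnSum M N X) (hX : X.Iso X') : ConnSum M N X' := by
  obtain ⟨f, hf⟩ := iso_iff.1 hX
  obtain ⟨i, j, φ, ψ, h⟩ := h
  exact ⟨_, _, _, _, h.mapX f hf⟩

theorem exists_ne_zero_E (hn : 1 ≤ n) : ∃ v : E n, v ≠ 0 :=
  ⟨EuclideanSpace.single ⟨0, hn⟩ 1, by simp⟩

theorem ConnSum.assoc (hn : 2 ≤ n) {M N K X W Z Z' : OMan n} (hX : ConnSum M N X) (hZ : ConnSum X K Z)
    (hW : ConnSum N K W) (hZ' : ConnSum M W Z') : Z.Iso Z' := by
  obtain ⟨i, j, φ, ψ, h⟩ := hX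
  obtain ⟨a, b, φ₀, ψ₀, h₀⟩ := hZ
  obtain ⟨v, hv⟩ := exists_ne_zero_E (n := n) (by omega)
  have hne : j 0 ≠ j v := fun h1 => hv (j.injOn (h.mj v) (h.mj 0) h1.symm)
  obtain ⟨U, V, hU, hV, hjU, hjV, hUV⟩ := t2_separation hne
  obtain ⟨j₁, pj₁, sj₁, -, tj₁⟩ := exists_disc (n := n) hU hjU
  obtain ⟨j', pj', sj', -, tj'⟩ := exists_disc (n := n) hV hjV
  obtain ⟨ψ₁, φ₁, h₁, -⟩ := (IsCS.symm h).change (by omega) pj₁ sj₁
  have h₂ : IsCS n i j₁ φ₁ ψ₁ := IsCS.symm h₁
  have hdis : Disjoint j'.target j₁.target := by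
    rw [disjoint_left]
    intro y hy hy'
    exact disjoint_left.1 hUV (tj₁ hy') (tj' hy)
  have sj'ψ : (j'.trans ψ₁).source = univ := by
    rw [OpenPartialHomeomorph.trans_source, sj', univ_inter, eq_univ_iff_forall]
    intro u
    show j' u ∈ ψ₁.source
    rw [h₂.sψ]
    intro h3
    have h4 : j' u = j₁ 0 := h3
    exact disjoint_left.1 hdis (j'.map_source (by rw [sj']; trivial)) (h4 ▸ j₁.map_source (by rw [sj₁]; trivial))
  obtain ⟨φ', ψ', h₃, -⟩ := h₀.change (by omega) (pj'.trans h₂.pdψ) sj'ψ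
  obtain ⟨W₁, α, β, hW₁⟩ := exists_connSum hn N K pj' h₀.pdj sj' h₀.sj
  obtain ⟨ψ₂, h₄⟩ := h₂.assoc hdis hW₁ h₃
  have hWW : W₁.Iso W := ConnSum.uniq (by omega) (OMan.Iso.refl N) (OMan.Iso.refl K) ⟨_, _, _, _, hW₁⟩ hW
  exact ConnSum.uniq (by omega) (OMan.Iso.refl M) hWW ⟨_, _, _, _, h₄⟩ hZ'

/-- The connected sum makes `Mon n` a commutative monoid with neutral element the class of the sphere. -/
theorem exists_monoid (hn : 2 ≤ n) : ∃ _ : CommMonoid (Mon n),
    (∀ M N X : OMan n, ConnSum M N X → cls M * cls N = cls X) ∧ (1 : Mon n) = cls (sphereO n (by omega)) := by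
  classical
  choose F hF using fun M N : OMan n => ConnSum.exists hn M N
  have hwd : ∀ (M N M' N' : OMan n), M.Iso M' → N.Iso N' → cls (F M N) = cls (F M' N') := fun M N M' N' h h' =>
    cls_eq.2 (ConnSum.uniq (by omega) h h' (hF M N) (hF M' N'))
  let mul : Mon n → Mon n → Mon n := fun a b =>
    Quotient.liftOn₂ a b (fun M N => cls (F M N)) fun M N M' N' h h' => hwd M N M' N' h h'
  have hmul : ∀ M N : OMan n, mul (cls M) (cls N) = cls (F M N) := fun M N => rfl
  have hmul' : ∀ M N X : OMan n, ConnSum M N X → mul (cls M) (cls N) = cls X := fun M N X h => by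
    rw [hmul]
    exact cls_eq.2 (ConnSum.uniq (by omega) (OMan.Iso.refl M) (OMan.Iso.refl N) (hF M N) h)
  have hcomm : ∀ a b : Mon n, mul a b = mul b a := by
    intro a b
    induction a using Quotient.inductionOn with | _ M => ?_
    induction b using Quotient.inductionOn with | _ N => ?_
    show mul (cls M) (cls N) = mul (cls N) (cls M)
    rw [hmul' M N _ (hF M N), hmul' N M _ (hF M N).symm]
  have hone : ∀ a : Mon n, mul (cls (sphereO n (by omega))) a = a := by
    intro a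
    induction a using Quotient.inductionOn with | _ N => ?_
    show mul (cls (sphereO n _)) (cls N) = cls N
    rw [hmul, cls_eq]
    obtain ⟨i, j, φ, ψ, h⟩ := hF (sphereO n (by omega)) N
    obtain ⟨D, hD, -⟩ := h.neutral (by omega) (isSph_sph n)
    exact (iso_iff.2 ⟨D, hD⟩ : N.Iso _).symm
  have hassoc : ∀ a b c : Mon n, mul (mul a b) c = mul a (mul b c) := by
    intro a b c
    induction a using Quotient.inductionOn with | _ M => ?_
    induction b using Quotient.inductionOn with | _ N => ?_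
    induction c using Quotient.inductionOn with | _ K => ?_
    show mul (mul (cls M) (cls N)) (cls K) = mul (cls M) (mul (cls N) (cls K))
    rw [hmul M N, hmul N K, hmul, hmul, cls_eq]
    exact ConnSum.assoc hn (hF M N) (hF _ K) (hF N K) (hF M _)
  exact ⟨{ mul := mul
           mul_assoc := hassoc
           one := cls (sphereO n (by omega))
           one_mul := hone
           mul_one := fun a => (hcomm _ _).trans (hone a)
           mul_comm := hcomm }, hmul', rfl⟩

/-- Main theorem. -/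
theorem main (hn : 4 ≤ n) : (∀ M N : OMan n, ∃ X : OMan n, ConnSum M N X) ∧
    ∃ _ : CommMonoid (Mon n), (∀ M N X : OMan n, ConnSum M N X → cls M * cls N = cls X) ∧
      (1 : Mon n) = cls (sphereO n (by omega)) ∧
      ∃ a : Mon n, ¬ IsUnit a ∧ ∀ b c : Mon n, a * b = a * c → b = c := by
  obtain ⟨m, rfl⟩ : ∃ m, n = m + 1 := ⟨n - 1, by omega⟩
  refine ⟨fun M N => ConnSum.exists (by omega) M N, ?_⟩
  obtain ⟨inst, hmul, hone⟩ := exists_monoid (n := m + 1) (by omega)
  refine ⟨inst, hmul, hone, ?_⟩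
  obtain ⟨M, c, hc, hB, hS, hne⟩ := exists_M (m := m) (by omega)
  refine ⟨cls M, ?_, ?_⟩
  · intro hu
    obtain ⟨b, hb⟩ := hu.exists_right_inv
    induction b using Quotient.inductionOn with | _ N => ?_
    obtain ⟨X, i, j, φ, ψ, h⟩ := ConnSum.exists (by omega) M N
    have h1 : cls M * cls N = cls X := hmul M N X ⟨i, j, φ, ψ, h⟩
    have h2 : cls M * cls N = 1 := hb
    rw [h1, hone, cls_eq] at h2
    obtain ⟨D, -⟩ := iso_iff.1 h2
    exact (not_sphere (by omega) h hB).false D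
  · intro b b' hbb
    induction b using Quotient.inductionOn with | _ N => ?_
    induction b' using Quotient.inductionOn with | _ N' => ?_
    obtain ⟨X, hX⟩ := ConnSum.exists (by omega) M N
    obtain ⟨X', hX'⟩ := ConnSum.exists (by omega) M N'
    have h1 : cls M * cls N = cls X := hmul M N X hX
    have h2 : cls M * cls N' = cls X' := hmul M N' X' hX'
    have h3 : cls M * cls N = cls M * cls N' := hbb
    rw [h1, h2, cls_eq] at h3
    show cls N = cls N'
    rw [cls_eq]
    exact cancel (by omega) hc hB hS hne hX hX' h3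

end Pool.Agent.CSM
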